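import Pool.Agent.T6.H31.TC.Stmts
import Pool.Agent.Helper379.TripleCos

set_option autoImplicit false

/-! Module A1 of the project (MP_6e4ab6_nt): basic facts on `z N k` and the square step. -/

namespace Pool.Agent.T6.H31.TC

open Finset

/-! ### Basic facts -/

theorem zb_add (N : ℕ) (a b : ℤ) : z N (a + b) = z N a * z N b := by
  unfold z
  rw [← Complex.exp_add]
  congr 1
  push_cast
  ring

theorem zb_zero (N : ℕ) : z N 0 = 1 := by
  unfold z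
  simp

theorem zb_ne (N : ℕ) (a : ℤ) : z N a ≠ 0 := Complex.exp_ne_zero _

theorem zb_prim {D : ℕ} (hD : 0 < D) : IsPrimitiveRoot (z D 1) D := by
  have h := Complex.isPrimitiveRoot_exp D hD.ne'
  have h2 : z D 1 = Complex.exp (2 * Real.pi * Complex.I / D) := by
    unfold z
    congr 1
    push_cast
    ring
  rw [h2]
  exact h

theorem zb_zpow (D : ℕ) (k : ℤ) : z D k = (z D 1) ^ k := by
  unfold z
  rw [← Complex.exp_int_mul]
  congr 1
  push_cast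
  ring

theorem zb_level {N D : ℕ} (hN : 0 < N) (hD : D ∣ N) (k : ℤ) :
    z N (((N / D : ℕ) : ℤ) * k) = z D k := by
  obtain ⟨Q, rfl⟩ := hD
  have hD0 : 0 < D := Nat.pos_of_ne_zero (by rintro rfl; simp at hN)
  have hQ0 : 0 < Q := Nat.pos_of_ne_zero (by rintro rfl; simp at hN)
  rw [Nat.mul_div_cancel_left Q hD0]
  unfold z
  congr 1
  have h1 : (D : ℂ) ≠ 0 := by exact_mod_cast hD0.ne'
  have h2 : (Q : ℂ) ≠ 0 := by exact_mod_cast hQ0.ne'
  push_cast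
  field_simp

theorem zb_dvd {N : ℕ} (hN : 0 < N) (k : ℤ) (h : (N : ℤ) ∣ k) : z N k = 1 := by
  rw [zb_zpow]
  exact ((zb_prim hN).zpow_eq_one_iff_dvd k).2 h

theorem zb_conj (N : ℕ) (k : ℤ) : (starRingEnd ℂ) (z N k) = z N (-k) := by
  unfold z
  rw [← Complex.exp_conj]
  congr 1
  rw [map_mul, Complex.conj_I, Complex.conj_ofReal]
  push_cast
  ring

theorem zb_quot {N D p : ℕ} (hN : 0 < N) (hD : D ∣ N) (hp : p ∣ D) :
    N / (D / p) = p * (N / D) := by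
  obtain ⟨Q, rfl⟩ := hD
  obtain ⟨R, rfl⟩ := hp
  have hD0 : 0 < p * R := Nat.pos_of_ne_zero (by intro h; rw [h] at hN; simp at hN)
  have hp0 : 0 < p := Nat.pos_of_ne_zero (by rintro rfl; simp at hD0)
  have hR0 : 0 < R := Nat.pos_of_ne_zero (by rintro rfl; simp at hD0)
  rw [Nat.mul_div_cancel_left R hp0, Nat.mul_div_cancel_left Q hD0]
  apply Nat.div_eq_of_eq_mul_left hR0
  ring

theorem zb_Qpos {N D : ℕ} (hN : 0 < N) (hD : D ∣ N) : 0 < N / D :=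
  Nat.div_pos (Nat.le_of_dvd hN hD) (Nat.pos_of_ne_zero (by
    rintro rfl
    rw [zero_dvd_iff] at hD
    omega))

/-- the class as a vanishing sum of order `D` -/
theorem zb_class {ι : Type} [Fintype ι] (E : ι → ℤ) {N D : ℕ} (hN : 0 < N) (hD : D ∣ N) (y : ℤ)
    (h : ∑ i ∈ univ.filter (fun i => ((N / D : ℕ) : ℤ) ∣ E i - y), z N (E i) = 0) :
    ∑ i ∈ univ.filter (fun i => ((N / D : ℕ) : ℤ) ∣ E i - y),
      (z D 1) ^ ((E i - y) / ((N / D : ℕ) : ℤ)) = 0 := by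
  have h1 : z N y * ∑ i ∈ univ.filter (fun i => ((N / D : ℕ) : ℤ) ∣ E i - y),
      (z D 1) ^ ((E i - y) / ((N / D : ℕ) : ℤ)) = 0 := by
    rw [← h, Finset.mul_sum]
    apply Finset.sum_congr rfl
    intro i hi
    rw [← zb_zpow, ← zb_level hN hD, Int.mul_ediv_cancel' (Finset.mem_filter.1 hi).2, ← zb_add]
    congr 1
    ring
  exact (mul_eq_zero.1 h1).resolve_left (zb_ne _ _)

/-- membership in a subclass -/
theorem zb_sub {ι : Type} [Fintype ι] (E : ι → ℤ) {N D : ℕ} (p : ℕ) (hN : 0 < N) (hD : D ∣ N) (y r : ℤ) :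
    univ.filter (fun i => ((p * (N / D) : ℕ) : ℤ) ∣ E i - y - r * ((N / D : ℕ) : ℤ)) =
    (univ.filter (fun i => ((N / D : ℕ) : ℤ) ∣ E i - y)).filter
      (fun i => (p : ℤ) ∣ (E i - y) / ((N / D : ℕ) : ℤ) - r) := by
  have hQ : (((N / D : ℕ) : ℤ)) ≠ 0 := by exact_mod_cast (zb_Qpos hN hD).ne'
  ext i
  simp only [Finset.mem_filter, Finset.mem_univ, true_and]
  push_cast
  constructor
  · intro h
    have h1 : ((N / D : ℕ) : ℤ) ∣ E i - y := by
      have h2 : ((N / D : ℕ) : ℤ) ∣ E i - y - r * ((N / D : ℕ) : ℤ) := dvd_trans (Dvd.intro_left _ rfl) h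
      have := dvd_add h2 (Dvd.intro_left r rfl)
      simpa using this
    refine ⟨by exact_mod_cast h1, ?_⟩
    obtain ⟨k, hk⟩ := h1
    rw [hk] at h ⊢
    have h3 : ((N / D : ℕ) : ℤ) * k / (((N : ℤ)) / (D : ℤ)) = k := by
      rw [← Int.natCast_div]
      exact Int.mul_ediv_cancel_left _ hQ
    rw [h3]
    have h4 : ((N / D : ℕ) : ℤ) * k - r * ((N : ℤ) / (D : ℤ)) = (k - r) * ((N / D : ℕ) : ℤ) := by
      rw [← Int.natCast_div]; ring
    rw [h4, ← Int.natCast_div] at h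
    exact Int.dvd_of_mul_dvd_mul_right hQ h
  · rintro ⟨h1, h2⟩
    rw [← Int.natCast_div] at h1 h2 ⊢
    obtain ⟨k, hk⟩ := h1
    rw [hk] at h2 ⊢
    rw [Int.mul_ediv_cancel_left _ hQ] at h2
    have h4 : ((N / D : ℕ) : ℤ) * k - r * ((N / D : ℕ) : ℤ) = (k - r) * ((N / D : ℕ) : ℤ) := by
      ring
    rw [h4]
    exact mul_dvd_mul_right h2 _

theorem zb_geom {D p : ℕ} (hD : 0 < D) (hp : 0 < p) (hpD : p ∣ D) (ζ : ℂ) (hζ : IsPrimitiveRoot ζ D)
    (w : ℤ) : ∑ j ∈ range p, ζ ^ ((j : ℤ) * ((D / p : ℕ) : ℤ) * w) = if (p : ℤ) ∣ w then (p : ℂ) else 0 := by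
  have hDp : D = D / p * p := (Nat.div_mul_cancel hpD).symm
  have h1 : ∀ j : ℕ, ζ ^ ((j : ℤ) * ((D / p : ℕ) : ℤ) * w) = (ζ ^ (((D / p : ℕ) : ℤ) * w)) ^ j := by
    intro j
    rw [← zpow_natCast, ← zpow_mul]
    congr 1
    ring
  rw [Finset.sum_congr rfl (fun j _ => h1 j)]
  have hQ : (((D / p : ℕ) : ℤ)) ≠ 0 := by
    have : 0 < D / p := Nat.div_pos (Nat.le_of_dvd hD hpD) hp
    exact_mod_cast this.ne'
  have hDpz : (D : ℤ) = ((D / p : ℕ) : ℤ) * (p : ℤ) := by exact_mod_cast hDp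
  split_ifs with h
  · have h2 : ζ ^ (((D / p : ℕ) : ℤ) * w) = 1 := by
      rw [hζ.zpow_eq_one_iff_dvd, hDpz]
      exact mul_dvd_mul_left _ h
    rw [h2]
    simp
  · have h2 : ζ ^ (((D / p : ℕ) : ℤ) * w) ≠ 1 := by
      intro h3
      rw [hζ.zpow_eq_one_iff_dvd, hDpz] at h3
      exact h (Int.dvd_of_mul_dvd_mul_left hQ h3)
    rw [geom_sum_eq h2]
    have h3 : (ζ ^ (((D / p : ℕ) : ℤ) * w)) ^ p = 1 := by
      rw [← zpow_natCast, ← zpow_mul, hζ.zpow_eq_one_iff_dvd, hDpz]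
      exact ⟨w, by ring⟩
    rw [h3]
    simp

/-- the square step for a vanishing sum of order `D` -/
theorem zb_square {ι : Type} (I : Finset ι) (e : ι → ℤ) {D p : ℕ} (hD : 0 < D) (hp : p.Prime)
    (hpD : p * p ∣ D) (ζ : ℂ) (hζ : IsPrimitiveRoot ζ D) (h : ∑ i ∈ I, ζ ^ e i = 0) (r : ℤ) :
    ∑ i ∈ I.filter (fun i => (p : ℤ) ∣ e i - r), ζ ^ e i = 0 := by
  have hζ0 : ζ ≠ 0 := hζ.ne_zero hD.ne'
  have hpD1 : p ∣ D := dvd_trans (Dvd.intro_left p rfl) hpD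
  have hpc : (p : ℂ) ≠ 0 := by exact_mod_cast hp.pos.ne'
  have hpDp : p ∣ D / p := by
    obtain ⟨k, hk⟩ := hpD
    rw [hk, mul_assoc, Nat.mul_div_cancel_left _ hp.pos]
    exact Dvd.intro _ rfl
  have key : (p : ℂ) * ∑ i ∈ I.filter (fun i => (p : ℤ) ∣ e i - r), ζ ^ e i =
      ∑ j ∈ range p, ζ ^ (-((j : ℤ) * ((D / p : ℕ) : ℤ) * r)) *
        ∑ i ∈ I, ζ ^ ((1 + (j : ℤ) * ((D / p : ℕ) : ℤ)) * e i) := by
    simp_rw [Finset.mul_sum]
    rw [Finset.sum_comm, Finset.sum_filter]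
    apply Finset.sum_congr rfl
    intro i _
    have h1 : ∀ j ∈ range p, ζ ^ (-((j : ℤ) * ((D / p : ℕ) : ℤ) * r)) *
        ζ ^ ((1 + (j : ℤ) * ((D / p : ℕ) : ℤ)) * e i) =
        ζ ^ (e i) * ζ ^ ((j : ℤ) * ((D / p : ℕ) : ℤ) * (e i - r)) := by
      intro j _
      rw [← zpow_add₀ hζ0, ← zpow_add₀ hζ0]
      congr 1
      ring
    rw [Finset.sum_congr rfl h1, ← Finset.mul_sum, zb_geom hD hp.pos hpD1 ζ hζ (e i - r)]
    split_ifs
    · ring
    · simp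
  have key2 : (p : ℂ) * ∑ i ∈ I.filter (fun i => (p : ℤ) ∣ e i - r), ζ ^ e i = 0 := by
    rw [key]
    apply Finset.sum_eq_zero
    intro j _
    have hcop : IsCoprime (1 + (j : ℤ) * ((D / p : ℕ) : ℤ)) (D : ℤ) := by
      rw [Int.isCoprime_iff_gcd_eq_one]
      by_contra hne
      obtain ⟨q, hq, hq2⟩ := Nat.exists_prime_and_dvd hne
      have hq3 : (q : ℤ) ∣ 1 + (j : ℤ) * ((D / p : ℕ) : ℤ) :=
        dvd_trans (Int.natCast_dvd_natCast.2 hq2) (Int.gcd_dvd_left _ _)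
      have hq4 : (q : ℤ) ∣ (D : ℤ) :=
        dvd_trans (Int.natCast_dvd_natCast.2 hq2) (Int.gcd_dvd_right _ _)
      have hq5 : q ∣ D := Int.natCast_dvd_natCast.1 hq4
      have hq6 : q ∣ D / p := by
        by_cases hqp : q = p
        · rw [hqp]; exact hpDp
        · have h7 : q ∣ p * (D / p) := by rw [Nat.mul_div_cancel' hpD1]; exact hq5
          rcases (Nat.Prime.dvd_mul hq).1 h7 with h8 | h8
          · exact absurd ((Nat.prime_dvd_prime_iff_eq hq hp).1 h8) hqp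
          · exact h8
      have h9 : (q : ℤ) ∣ (j : ℤ) * ((D / p : ℕ) : ℤ) :=
        dvd_mul_of_dvd_right (Int.natCast_dvd_natCast.2 hq6) _
      have h10 : (q : ℤ) ∣ 1 := by
        have := dvd_sub hq3 h9
        simpa using this
      have h11 : q ∣ 1 := by exact_mod_cast h10
      exact hq.one_lt.ne' (Nat.dvd_one.1 h11)
    rw [_root_.TC.galois I e D hD ζ hζ h _ hcop]
    simp
  exact (mul_eq_zero.1 key2).resolve_left hpc

/-- Module A1 -/
theorem a1 : StmtA1 := by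
  intro ι _ E N D p hN hp hD hpD h y
  have hpD1 : p ∣ D := dvd_trans (Dvd.intro_left p rfl) hpD
  have hD0 : 0 < D := Nat.pos_of_ne_zero (by
    rintro rfl
    rw [zero_dvd_iff] at hD
    omega)
  rw [zb_quot hN hD hpD1]
  have h1 := zb_square _ _ hD0 hp hpD (z D 1) (zb_prim hD0) (zb_class E hN hD y (h y)) 0
  rw [← zb_sub E p hN hD y 0] at h1
  have h2 : z N y * ∑ i ∈ univ.filter (fun i => ((p * (N / D) : ℕ) : ℤ) ∣ E i - y - 0 * ((N / D : ℕ) : ℤ)),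
      (z D 1) ^ ((E i - y) / ((N / D : ℕ) : ℤ)) = 0 := by
    rw [h1, mul_zero]
  rw [Finset.mul_sum] at h2
  rw [← h2]
  have h3 : univ.filter (fun i => ((p * (N / D) : ℕ) : ℤ) ∣ E i - y - 0 * ((N / D : ℕ) : ℤ)) =
      univ.filter (fun i => ((p * (N / D) : ℕ) : ℤ) ∣ E i - y) := by
    apply Finset.filter_congr
    intro i _
    simp
  rw [h3]
  apply Finset.sum_congr rfl
  intro i hi
  have hi2 : ((N / D : ℕ) : ℤ) ∣ E i - y := by
    have := (Finset.mem_filter.1 hi).2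
    refine dvd_trans ?_ this
    push_cast
    exact Dvd.intro_left _ rfl
  rw [← zb_zpow, ← zb_level hN hD, Int.mul_ediv_cancel' hi2, ← zb_add]
  congr 1
  ring

end Pool.Agent.T6.H31.TC
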