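import Pool.Agent.T6.H31.TC.A1

set_option autoImplicit false

/-! Module A2 of the project (MP_6e4ab6_nt): the prime step. -/

namespace Pool.Agent.T6.H31.TC

open Finset

/-- the class-wise form of the prime step -/
theorem a2c {ι : Type} [Fintype ι] (E : ι → ℤ) (N D p : ℕ) (hN : 0 < N) (hp : p.Prime) (hD : D ∣ N)
    (hpD : p ∣ D) (hpp : ¬ p * p ∣ D) (h : CS E N D) (y : ℤ) :
    (∀ r : ℤ, ∑ i ∈ univ.filter
      (fun i => ((p * (N / D) : ℕ) : ℤ) ∣ E i - y - r * ((N / D : ℕ) : ℤ)), z N (E i) = 0) ∨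
    FullAt E N p D y := by
  have hD0 : 0 < D := Nat.pos_of_ne_zero (by
    rintro rfl
    rw [zero_dvd_iff] at hD
    omega)
  have hDp : D = p ^ 1 * (D / p) := by rw [pow_one, Nat.mul_div_cancel' hpD]
  have hDp0 : 0 < D / p := Nat.div_pos (Nat.le_of_dvd hD0 hpD) hp.pos
  have hcop : Nat.Coprime (p ^ 1) (D / p) := by
    rw [pow_one, Nat.Prime.coprime_iff_not_dvd hp]
    intro h1
    apply hpp
    have := Nat.mul_dvd_mul_left p h1
    rwa [Nat.mul_div_cancel' hpD] at this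
  obtain ⟨u, v, huv⟩ := Nat.isCoprime_iff_coprime.2 hcop
  obtain ⟨B, hB⟩ : ∃ B : ℤ, B = u * ((p ^ 1 : ℕ) : ℤ) := ⟨_, rfl⟩
  have hB1 : ((p ^ 1 : ℕ) : ℤ) ∣ B := ⟨u, by rw [hB]; ring⟩
  have hB2 : ((D / p : ℕ) : ℤ) ∣ B - 1 := ⟨-v, by rw [hB]; linear_combination huv⟩
  have hBp : (p : ℤ) ∣ B := by simpa using hB1
  have hζ := zb_prim hD0
  have hcl := zb_class E hN hD y (h y)
  set I := univ.filter (fun i => ((N / D : ℕ) : ℤ) ∣ E i - y) with hI
  set e : ι → ℤ := fun i => (E i - y) / ((N / D : ℕ) : ℤ) with he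
  have hS : ∀ r : ℤ, ∑ i ∈ I.filter (fun i => (p : ℤ) ∣ e i - r), (z D 1) ^ (B * e i) =
      ∑ i ∈ I.filter (fun i => (p : ℤ) ∣ e i - 0), (z D 1) ^ (B * e i) := by
    intro r
    have h1 := _root_.TC.prime_step I e D p 1 (D / p) hDp le_rfl hp hcop hDp0 (z D 1) hζ hcl B hB1 hB2
      0 (r * (1 - B)) (by
        have h2 : ((D / p : ℕ) : ℤ) ∣ 1 - B := by
          have := dvd_neg.2 hB2
          rwa [neg_sub] at this
        simpa using dvd_mul_of_dvd_right h2 r)
    simp only [pow_one] at h1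
    rw [h1]
    apply Finset.sum_congr _ (fun _ _ => rfl)
    apply Finset.filter_congr
    intro i _
    have h3 : e i - (0 + r * (1 - B)) = e i - r + r * B := by ring
    rw [h3]
    constructor
    · intro h4; exact dvd_add h4 (dvd_mul_of_dvd_right hBp r)
    · intro h4
      have := dvd_sub h4 (dvd_mul_of_dvd_right hBp r)
      simpa using this
  have hmem : ∀ r : ℤ, ∀ i ∈ univ.filter
      (fun i => ((p * (N / D) : ℕ) : ℤ) ∣ E i - y - r * ((N / D : ℕ) : ℤ)),
      ((N / D : ℕ) : ℤ) ∣ E i - y := by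
    intro r i hi
    have h1 := (Finset.mem_filter.1 hi).2
    have h2 : ((N / D : ℕ) : ℤ) ∣ E i - y - r * ((N / D : ℕ) : ℤ) := by
      refine dvd_trans ?_ h1
      push_cast
      exact Dvd.intro_left _ rfl
    have := dvd_add h2 (Dvd.intro_left r rfl)
    simpa using this
  by_cases hS0 : ∑ i ∈ I.filter (fun i => (p : ℤ) ∣ e i - 0), (z D 1) ^ (B * e i) = 0
  · left
    intro r
    have h1 := _root_.TC.class_sum I e D (p ^ 1) (D / p) hDp (z D 1) hζ hD0 B hB2 r
    simp only [pow_one] at h1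
    rw [hS r, hS0, mul_zero] at h1
    have h2 : z N y * ∑ i ∈ I.filter (fun i => (p : ℤ) ∣ e i - r), (z D 1) ^ (e i) = 0 := by
      rw [h1, mul_zero]
    rw [← zb_sub E p hN hD y r, Finset.mul_sum] at h2
    rw [← h2]
    apply Finset.sum_congr rfl
    intro i hi
    rw [← zb_zpow, ← zb_level hN hD, he]
    simp only
    rw [Int.mul_ediv_cancel' (hmem r i hi), ← zb_add]
    congr 1
    ring
  · right
    refine ⟨B, hBp, hB2, _, hS0, ?_⟩
    intro r
    rw [← hS r, ← zb_sub E p hN hD y r]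
    apply Finset.sum_congr rfl
    intro i hi
    rw [← zb_zpow, ← zb_level hN hD, he]
    simp only
    congr 1
    rw [← mul_assoc, mul_comm ((N / D : ℕ) : ℤ) B, mul_assoc, Int.mul_ediv_cancel' (hmem r i hi)]

/-- Module A2 -/
theorem a2 : StmtA2 := by
  intro ι _ E N D p hN hp hD hpD hpp h
  by_cases hF : Full E N p D
  · exact Or.inr hF
  · left
    intro y
    rcases a2c E N D p hN hp hD hpD hpp h y with h1 | h1
    · rw [zb_quot hN hD hpD]
      have h2 := h1 0
      rw [← h2]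
      apply Finset.sum_congr _ (fun _ _ => rfl)
      apply Finset.filter_congr
      intro i _
      simp
    · exact absurd ⟨y, h1⟩ hF

end Pool.Agent.T6.H31.TC
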