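import Pool.Agent.T6.H31.TC.A1

set_option autoImplicit false

/-! Modules A3, A4, A5, A6 of the project (MP_6e4ab6_nt). -/

namespace Pool.Agent.T6.H31.TC

open Finset

/-- Module A3 -/
theorem a3 : StmtA3 := by
  classical
  intro ι _ E N D p y hN hD hp hF
  obtain ⟨B, -, -, S, hS0, hS⟩ := hF
  have hQ := zb_Qpos hN hD
  have hex : ∀ j : ℕ, ∃ i : ι, ((p * (N / D) : ℕ) : ℤ) ∣ E i - y - (j : ℤ) * ((N / D : ℕ) : ℤ) := by
    intro j
    have h1 : ∑ i ∈ univ.filter
        (fun i => ((p * (N / D) : ℕ) : ℤ) ∣ E i - y - (j : ℤ) * ((N / D : ℕ) : ℤ)),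
          z N (B * (E i - y)) ≠ 0 := by
      rw [hS]; exact hS0
    obtain ⟨i, hi, -⟩ := Finset.exists_ne_zero_of_sum_ne_zero h1
    exact ⟨i, (Finset.mem_filter.1 hi).2⟩
  choose f hf using hex
  have hcard : (Finset.range p).card ≤
      (univ.filter (fun i => ((N / D : ℕ) : ℤ) ∣ E i - y)).card := by
    refine Finset.card_le_card_of_injOn f ?_ ?_
    · intro j _
      simp only [Finset.coe_filter, Finset.mem_univ, true_and, Set.mem_setOf_eq]
      have h2 : ((N / D : ℕ) : ℤ) ∣ E (f j) - y - (j : ℤ) * ((N / D : ℕ) : ℤ) := by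
        refine dvd_trans ?_ (hf j)
        push_cast
        exact Dvd.intro_left _ rfl
      have := dvd_add h2 (Dvd.intro_left (j : ℤ) rfl)
      simpa using this
    · intro j hj j' hj' hjj
      have hj1 : j < p := Finset.mem_range.1 (Finset.mem_coe.1 hj)
      have hj2 : j' < p := Finset.mem_range.1 (Finset.mem_coe.1 hj')
      have h1 := hf j
      have h2 := hf j'
      rw [← hjj] at h2
      have h3 := dvd_sub h2 h1
      have h4 : E (f j) - y - (j' : ℤ) * ((N / D : ℕ) : ℤ) -
          (E (f j) - y - (j : ℤ) * ((N / D : ℕ) : ℤ)) =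
          ((j : ℤ) - j') * ((N / D : ℕ) : ℤ) := by ring
      rw [h4] at h3
      have hQ' : (((N / D : ℕ) : ℤ)) ≠ 0 := by exact_mod_cast hQ.ne'
      have h5 : (p : ℤ) ∣ (j : ℤ) - j' := by
        have h6 : ((p * (N / D) : ℕ) : ℤ) = (p : ℤ) * ((N / D : ℕ) : ℤ) := by push_cast; ring
        rw [h6] at h3
        exact Int.dvd_of_mul_dvd_mul_right hQ' h3
      have h9 := Int.eq_zero_of_abs_lt_dvd h5 (by
        rw [abs_lt]; constructor <;> omega)
      omega
  rwa [Finset.card_range] at hcard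

/-- Module A5 -/
theorem a5 : StmtA5 := by
  intro ι _ E N D p y y' hN hD hpD hy hF
  obtain ⟨B, hB1, hB2, S, hS0, hS⟩ := hF
  obtain ⟨c, hc⟩ := hy
  refine ⟨B, hB1, hB2, z N (-B * (y' - y)) * S, mul_ne_zero (zb_ne _ _) hS0, ?_⟩
  intro r
  rw [← hS (r + c), Finset.mul_sum]
  have h1 : univ.filter (fun i => ((p * (N / D) : ℕ) : ℤ) ∣ E i - y' - r * ((N / D : ℕ) : ℤ)) =
      univ.filter (fun i => ((p * (N / D) : ℕ) : ℤ) ∣ E i - y - (r + c) * ((N / D : ℕ) : ℤ)) := by
    apply Finset.filter_congr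
    intro i _
    have h2 : E i - y' - r * ((N / D : ℕ) : ℤ) = E i - y - (r + c) * ((N / D : ℕ) : ℤ) := by
      linear_combination -hc
    rw [h2]
  rw [h1]
  apply Finset.sum_congr rfl
  intro i _
  rw [← zb_add]
  congr 1
  ring

/-- flipping the three bits of a sign vector -/
def flip16 (m : Fin 16) : Fin 16 := if m.val < 8 then ⟨(7 - m.val) % 16, Nat.mod_lt _ (by norm_num)⟩
  else ⟨(23 - m.val) % 16, Nat.mod_lt _ (by norm_num)⟩

theorem flip16_flip16 : ∀ m : Fin 16, flip16 (flip16 m) = m := by decide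

theorem flip16_V : ∀ (m : Fin 16) (i : Fin 6), V (flip16 m) i = - V m i := by decide

theorem flip16_lt : ∀ m : Fin 16, (flip16 m).val < 8 ↔ m.val < 8 := by decide

theorem flip16_EE (N : ℕ) (e : Fin 6 → ℤ) (h2 : 2 ∣ N) (m : Fin 16) :
    ∃ c : ℤ, EE N e (flip16 m) = - EE N e m + c * (N : ℤ) := by
  have h1 : dot (V (flip16 m)) e = - dot (V m) e := by
    unfold dot
    rw [← Finset.sum_neg_distrib]
    apply Finset.sum_congr rfl
    intro i _
    rw [flip16_V]
    ring
  unfold EE
  rw [h1]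
  by_cases hm : m.val < 8
  · rw [if_pos hm, if_pos ((flip16_lt m).2 hm)]
    exact ⟨0, by ring⟩
  · rw [if_neg hm, if_neg (fun h => hm ((flip16_lt m).1 h))]
    refine ⟨1, ?_⟩
    obtain ⟨k, rfl⟩ := h2
    rw [Nat.mul_div_cancel_left k (by norm_num : 0 < 2)]
    push_cast
    ring

/-- Module A6 -/
theorem a6 : StmtA6 := by
  intro N D p e y hN hD h2D hp _ hpD hF
  obtain ⟨B, hB1, hB2, S, hS0, hS⟩ := hF
  refine ⟨B, hB1, hB2, (starRingEnd ℂ) S, ?_, ?_⟩
  · intro h
    exact hS0 ((map_eq_zero (starRingEnd ℂ)).1 h)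
  intro r
  have hpQN : ((p * (N / D) : ℕ) : ℤ) ∣ (N : ℤ) := by
    apply Int.natCast_dvd_natCast.2
    have h1 := Nat.mul_dvd_mul_right hpD (N / D)
    rwa [Nat.mul_div_cancel' hD] at h1
  have h2N : 2 ∣ N := dvd_trans h2D hD
  rw [← hS (-r), map_sum]
  refine Finset.sum_bij' (fun m _ => flip16 m) (fun m _ => flip16 m) ?_ ?_ ?_ ?_ ?_
  · intro m hm
    simp only [Finset.mem_filter, Finset.mem_univ, true_and] at hm ⊢
    obtain ⟨c, hc⟩ := flip16_EE N e h2N m
    have h3 : EE N e (flip16 m) - y - -r * ((N / D : ℕ) : ℤ) =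
        -(EE N e m - -y - r * ((N / D : ℕ) : ℤ)) + c * (N : ℤ) := by
      rw [hc]; ring
    rw [h3]
    exact dvd_add (dvd_neg.2 hm) (dvd_mul_of_dvd_right hpQN c)
  · intro m hm
    simp only [Finset.mem_filter, Finset.mem_univ, true_and] at hm ⊢
    obtain ⟨c, hc⟩ := flip16_EE N e h2N m
    have h3 : EE N e (flip16 m) - -y - r * ((N / D : ℕ) : ℤ) =
        -(EE N e m - y - -r * ((N / D : ℕ) : ℤ)) + c * (N : ℤ) := by
      rw [hc]; ring
    rw [h3]
    exact dvd_add (dvd_neg.2 hm) (dvd_mul_of_dvd_right hpQN c)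
  · intro m _; exact flip16_flip16 m
  · intro m _; exact flip16_flip16 m
  · intro m _
    rw [zb_conj]
    obtain ⟨c, hc⟩ := flip16_EE N e h2N m
    rw [hc]
    have h3 : -(B * (-EE N e m + c * (N : ℤ) - y)) = B * (EE N e m - -y) + (N : ℤ) * (-(B * c)) := by
      ring
    rw [h3, zb_add, zb_dvd hN _ (Dvd.intro _ rfl), mul_one]

/-- reduction to the level `30030` -/
theorem a4_red {ι : Type} [Fintype ι] (E : ι → ℤ) (N : ℕ) (h1 : StmtA1) (h2 : StmtA2) (h3 : StmtA3)
    (hc : Fintype.card ι ≤ 16) (hN : 0 < N) :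
    ∀ n D : ℕ, D ≤ n → 0 < D → D ∣ N → 30030 ∣ D → CS E N D → CS E N 30030 := by
  intro n
  induction n with
  | zero => intro D hD1 hD2; omega
  | succ n ih =>
    intro D hDn hD0 hDN h30 hCS
    obtain ⟨M, hM⟩ := h30
    by_cases hM1 : M = 1
    · rw [hM1, mul_one] at hM
      rwa [hM] at hCS
    obtain ⟨p, hp, hpM⟩ := Nat.exists_prime_and_dvd hM1
    have hM0 : 0 < M := Nat.pos_of_ne_zero (by rintro rfl; simp at hM; omega)
    have hpD : p ∣ D := by rw [hM]; exact dvd_mul_of_dvd_right hpM _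
    have hDp : D / p = 30030 * (M / p) := by
      rw [hM, Nat.mul_div_assoc _ hpM]
    have hDp0 : 0 < D / p := Nat.div_pos (Nat.le_of_dvd hD0 hpD) hp.pos
    have hDpn : D / p ≤ n := by
      have : D / p < D := Nat.div_lt_self hD0 hp.one_lt
      omega
    have hDpN : D / p ∣ N := dvd_trans (Nat.div_dvd_of_dvd hpD) hDN
    have h30' : 30030 ∣ D / p := by rw [hDp]; exact Dvd.intro _ rfl
    apply ih (D / p) hDpn hDp0 hDpN h30'
    by_cases hpp : p * p ∣ D
    · exact h1 ι E N D p hN hp hDN hpp hCS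
    · rcases h2 ι E N D p hN hp hDN hpD hpp hCS with h4 | h4
      · exact h4
      · exfalso
        have hp17 : 17 ≤ p := by
          by_contra hlt
          have hlt' : p ≤ 16 := by omega
          apply hpp
          have h5 : p ∣ 30030 := by
            have h6 := hp.two_le
            interval_cases p
            · norm_num
            · norm_num
            · exact absurd hp (by norm_num)
            · norm_num
            · exact absurd hp (by norm_num)
            · norm_num
            · exact absurd hp (by norm_num)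
            · exact absurd hp (by norm_num)
            · exact absurd hp (by norm_num)
            · norm_num
            · exact absurd hp (by norm_num)
            · norm_num
            · exact absurd hp (by norm_num)
            · exact absurd hp (by norm_num)
            · exact absurd hp (by norm_num)
          rw [hM]
          exact mul_dvd_mul h5 hpM
        obtain ⟨y, hy⟩ := h4
        have h5 := h3 ι E N D p y hN hDN hp.pos hy
        have h6 := Finset.card_le_univ (univ.filter (fun i => ((N / D : ℕ) : ℤ) ∣ E i - y))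
        omega

/-- Module A4 -/
theorem a4 (h1 : StmtA1) (h2 : StmtA2) (h3 : StmtA3) : StmtA4 := by
  classical
  intro ι _ E N hc hN h60 hsum
  have hCSN : CS E N N := by
    intro y
    rw [Nat.div_self hN, ← hsum]
    apply Finset.sum_congr _ (fun _ _ => rfl)
    apply Finset.filter_true_of_mem
    intro i _
    simp
  have h30N : 30030 ∣ N := dvd_trans (by norm_num) h60
  have hCS : CS E N 30030 := a4_red E N h1 h2 h3 hc hN N N le_rfl hN (dvd_refl N) h30N hCSN
  let T : Finset (Finset ℕ) := ({5, 7, 11, 13} : Finset ℕ).powerset.filter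
    (fun P => CS E N (6 * ∏ p ∈ P, p))
  have hT : T.Nonempty := by
    refine ⟨{5, 7, 11, 13}, ?_⟩
    simp only [T, Finset.mem_filter, Finset.mem_powerset, Finset.Subset.refl, true_and]
    have h4 : 6 * ∏ p ∈ ({5, 7, 11, 13} : Finset ℕ), p = 30030 := by decide
    rw [h4]
    exact hCS
  obtain ⟨P, hP, hmin⟩ := Finset.exists_min_image T Finset.card hT
  simp only [T, Finset.mem_filter, Finset.mem_powerset] at hP
  refine ⟨P, hP.1, hP.2, ?_⟩
  intro p hp
  have hp4 := hP.1 hp
  have hpp : p.Prime := by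
    simp only [Finset.mem_insert, Finset.mem_singleton] at hp4
    rcases hp4 with rfl | rfl | rfl | rfl <;> norm_num
  have hprod : ∏ q ∈ P, q = p * ∏ q ∈ P.erase p, q := (Finset.mul_prod_erase P (fun q => q) hp).symm
  have hD30 : ∀ P' : Finset ℕ, P' ⊆ {5, 7, 11, 13} → 6 * ∏ q ∈ P', q ∣ 30030 := by
    intro P' hP'
    have h5 : ∏ q ∈ P', q ∣ ∏ q ∈ ({5, 7, 11, 13} : Finset ℕ), q :=
      Finset.prod_dvd_prod_of_subset P' _ (fun q => q) hP'
    have h6 : 6 * ∏ p ∈ ({5, 7, 11, 13} : Finset ℕ), p = 30030 := by decide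
    rw [← h6]
    exact mul_dvd_mul_left 6 h5
  have hDN : 6 * ∏ q ∈ P, q ∣ N := dvd_trans (hD30 P hP.1) h30N
  have hpD : p ∣ 6 * ∏ q ∈ P, q := dvd_mul_of_dvd_right (Finset.dvd_prod_of_mem (fun q => q) hp) 6
  have hppD : ¬ p * p ∣ 6 * ∏ q ∈ P, q := by
    intro h5
    have h6 := dvd_trans h5 (hD30 P hP.1)
    simp only [Finset.mem_insert, Finset.mem_singleton] at hp4
    rcases hp4 with rfl | rfl | rfl | rfl <;> revert h6 <;> norm_num
  rcases h2 ι E N _ p hN hpp hDN hpD hppD hP.2 with h4 | h4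
  · exfalso
    have h5 : (6 * ∏ q ∈ P, q) / p = 6 * ∏ q ∈ P.erase p, q := by
      rw [hprod]
      apply Nat.div_eq_of_eq_mul_left hpp.pos
      ring
    rw [h5] at h4
    have h6 : P.erase p ∈ T := by
      simp only [T, Finset.mem_filter, Finset.mem_powerset]
      exact ⟨(Finset.erase_subset p P).trans hP.1, h4⟩
    have h7 := hmin _ h6
    have h8 := Finset.card_erase_lt_of_mem hp
    omega
  · exact h4

end Pool.Agent.T6.H31.TC
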