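import Pool.Agent.T6.H31.TC.Stmts

/-!
# Project TC, modules B0, B1, B2: the sixteen terms
-/

set_option autoImplicit false

namespace Pool.Agent.T6.H31.TC

open Finset

namespace MB

theorem z_add (N : ℕ) (a b : ℤ) : z N (a + b) = z N a * z N b := by
  unfold z
  rw [← Complex.exp_add]
  congr 1
  push_cast
  ring

theorem z_ne (N : ℕ) (a : ℤ) : z N a ≠ 0 := Complex.exp_ne_zero _

theorem z_mul_N {N : ℕ} (hN : 0 < N) (k : ℤ) : z N ((N : ℤ) * k) = 1 := by
  unfold z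
  have hN' : (N : ℝ) ≠ 0 := by exact_mod_cast hN.ne'
  have h1 : (2 * Real.pi * (((N : ℤ) * k : ℤ) : ℝ) / (N : ℝ)) = (k : ℝ) * (2 * Real.pi) := by
    push_cast
    field_simp
  rw [h1, Complex.exp_eq_one_iff]
  exact ⟨k, by push_cast; ring⟩

theorem z_half {N : ℕ} (hN : 0 < N) (h2 : 2 ∣ N) : z N ((N / 2 : ℕ) : ℤ) = -1 := by
  obtain ⟨k, rfl⟩ := h2
  have hk : (k : ℝ) ≠ 0 := by
    have : 0 < k := by omega
    exact_mod_cast this.ne'
  unfold z
  have h1 : (2 * Real.pi * ((((2 * k / 2 : ℕ) : ℤ)) : ℝ) / ((2 * k : ℕ) : ℝ)) = Real.pi := by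
    rw [Nat.mul_div_cancel_left _ (by norm_num : 0 < 2)]
    push_cast
    field_simp
  rw [h1, Complex.exp_pi_mul_I]

theorem cos_z (N : ℕ) (k : ℤ) :
    ((Real.cos (2 * Real.pi * (k : ℝ) / (N : ℝ)) : ℝ) : ℂ) = (z N k + z N (-k)) / 2 := by
  rw [Complex.ofReal_cos, Complex.cos]
  unfold z
  congr 3
  congr 1
  push_cast
  ring

theorem sin_yy (N : ℕ) (e : Fin 6 → ℤ) (i : Fin 6) :
    Real.sin (Real.pi * yy N e i) = Real.cos (2 * Real.pi * (e i : ℝ) / (N : ℝ)) := by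
  have h1 : Real.pi * yy N e i = Real.pi / 2 - 2 * Real.pi * (e i : ℝ) / (N : ℝ) := by
    unfold yy
    ring
  rw [h1, Real.sin_pi_div_two_sub]

theorem dots (e : Fin 6 → ℤ) :
    dot (V 0) e = e 0 + e 1 + e 2 ∧ dot (V 1) e = -e 0 + e 1 + e 2 ∧
    dot (V 2) e = e 0 + -e 1 + e 2 ∧ dot (V 3) e = -e 0 + -e 1 + e 2 ∧
    dot (V 4) e = e 0 + e 1 + -e 2 ∧ dot (V 5) e = -e 0 + e 1 + -e 2 ∧
    dot (V 6) e = e 0 + -e 1 + -e 2 ∧ dot (V 7) e = -e 0 + -e 1 + -e 2 ∧
    dot (V 8) e = e 3 + e 4 + e 5 ∧ dot (V 9) e = -e 3 + e 4 + e 5 ∧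
    dot (V 10) e = e 3 + -e 4 + e 5 ∧ dot (V 11) e = -e 3 + -e 4 + e 5 ∧
    dot (V 12) e = e 3 + e 4 + -e 5 ∧ dot (V 13) e = -e 3 + e 4 + -e 5 ∧
    dot (V 14) e = e 3 + -e 4 + -e 5 ∧ dot (V 15) e = -e 3 + -e 4 + -e 5 := by
  refine ⟨?_, ?_, ?_, ?_, ?_, ?_, ?_, ?_, ?_, ?_, ?_, ?_, ?_, ?_, ?_, ?_⟩ <;>
    simp [dot, V, Fin.sum_univ_six]

theorem sum16 (f : Fin 16 → ℂ) : ∑ m, f m = f 0 + f 1 + f 2 + f 3 + f 4 + f 5 + f 6 + f 7 +
    f 8 + f 9 + f 10 + f 11 + f 12 + f 13 + f 14 + f 15 := by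
  simp only [Fin.sum_univ_succ, Fin.sum_univ_zero]
  simp only [add_zero, ← add_assoc]
  rfl

theorem Q_mul {N D : ℕ} (hD : D ∣ N) : N = (N / D) * D := (Nat.div_mul_cancel hD).symm

theorem Q_dvd_N {N D : ℕ} (hD : D ∣ N) : ((N / D : ℕ) : ℤ) ∣ (N : ℤ) :=
  Int.natCast_dvd_natCast.2 ⟨D, Q_mul hD⟩

theorem Q_dvd_half {N D : ℕ} (hD : D ∣ N) (h2 : 2 ∣ D) :
    ((N / D : ℕ) : ℤ) ∣ ((N / 2 : ℕ) : ℤ) := by
  obtain ⟨k, hk⟩ := h2
  refine Int.natCast_dvd_natCast.2 ⟨k, ?_⟩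
  have h1 := Q_mul hD
  have h3 : N = 2 * ((N / D) * k) := by
    calc N = (N / D) * D := h1
      _ = (N / D) * (2 * k) := by rw [← hk]
      _ = _ := by ring
  omega

theorem pQ_dvd_N {N D p : ℕ} (hD : D ∣ N) (hp : p ∣ D) :
    ((p * (N / D) : ℕ) : ℤ) ∣ (N : ℤ) := by
  obtain ⟨k, hk⟩ := hp
  refine Int.natCast_dvd_natCast.2 ⟨k, ?_⟩
  calc N = (N / D) * D := Q_mul hD
    _ = (N / D) * (p * k) := by rw [← hk]
    _ = _ := by ring

theorem dvd_shift {Q a b : ℤ} (h : Q ∣ a - b) : Q ∣ a ↔ Q ∣ b := by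
  constructor
  · intro ha
    have := dvd_sub ha h
    rwa [sub_sub_cancel] at this
  · intro hb
    have := dvd_add h hb
    rwa [sub_add_cancel] at this

section gen

variable {ι : Type} [Fintype ι]

theorem cs_gen {E E' : ι → ℤ} {N D : ℕ} (hN : 0 < N) (hD : D ∣ N) (τ : Equiv.Perm ι) (c : ℤ)
    (k : ι → ℤ) (h : ∀ m, E' m = E (τ m) + c + (N : ℤ) * k m) (hE : CS E N D) : CS E' N D := by
  intro y
  have h1 := hE (y - c)
  have h2 : ∑ i ∈ univ.filter (fun i => ((N / D : ℕ) : ℤ) ∣ E' i - y), z N (E' i) =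
      (∑ i ∈ univ.filter (fun i => ((N / D : ℕ) : ℤ) ∣ E i - (y - c)), z N (E i)) * z N c := by
    rw [Finset.sum_mul, Finset.sum_filter, Finset.sum_filter]
    rw [← Equiv.sum_comp τ (fun i => if ((N / D : ℕ) : ℤ) ∣ E i - (y - c) then
      z N (E i) * z N c else 0)]
    refine Finset.sum_congr rfl fun i _ => ?_
    have h3 : ((N / D : ℕ) : ℤ) ∣ E' i - y ↔ ((N / D : ℕ) : ℤ) ∣ E (τ i) - (y - c) := by
      refine dvd_shift ?_
      have : E' i - y - (E (τ i) - (y - c)) = (N : ℤ) * k i := by rw [h i]; ring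
      rw [this]
      exact Dvd.dvd.mul_right (Q_dvd_N hD) _
    have h4 : z N (E' i) = z N (E (τ i)) * z N c := by
      rw [h i, z_add, z_add, z_mul_N hN, mul_one]
    by_cases h5 : ((N / D : ℕ) : ℤ) ∣ E (τ i) - (y - c)
    · rw [if_pos h5, if_pos (h3.2 h5), h4]
    · rw [if_neg h5, if_neg (fun h6 => h5 (h3.1 h6))]
  rw [h2, h1, zero_mul]

theorem full_gen {E E' : ι → ℤ} {N D p : ℕ} (hN : 0 < N) (hD : D ∣ N) (hp : p ∣ D)
    (τ : Equiv.Perm ι) (c : ℤ) (k : ι → ℤ) (h : ∀ m, E' m = E (τ m) + c + (N : ℤ) * k m)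
    {y : ℤ} (hE : FullAt E N p D y) : FullAt E' N p D (y + c) := by
  obtain ⟨B, hB1, hB2, S, hS, hr⟩ := hE
  refine ⟨B, hB1, hB2, S, hS, fun r => ?_⟩
  rw [← hr r, Finset.sum_filter, Finset.sum_filter]
  rw [← Equiv.sum_comp τ (fun i => if ((p * (N / D) : ℕ) : ℤ) ∣ E i - y - r * ((N / D : ℕ) : ℤ)
    then z N (B * (E i - y)) else 0)]
  refine Finset.sum_congr rfl fun i _ => ?_
  have h3 : ((p * (N / D) : ℕ) : ℤ) ∣ E' i - (y + c) - r * ((N / D : ℕ) : ℤ) ↔
      ((p * (N / D) : ℕ) : ℤ) ∣ E (τ i) - y - r * ((N / D : ℕ) : ℤ) := by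
    refine dvd_shift ?_
    have : E' i - (y + c) - r * ((N / D : ℕ) : ℤ) - (E (τ i) - y - r * ((N / D : ℕ) : ℤ)) =
        (N : ℤ) * k i := by rw [h i]; ring
    rw [this]
    exact Dvd.dvd.mul_right (pQ_dvd_N hD hp) _
  have h4 : z N (B * (E' i - (y + c))) = z N (B * (E (τ i) - y)) := by
    have : B * (E' i - (y + c)) = B * (E (τ i) - y) + (N : ℤ) * (B * k i) := by rw [h i]; ring
    rw [this, z_add, z_mul_N hN, mul_one]
  by_cases h5 : ((p * (N / D) : ℕ) : ℤ) ∣ E (τ i) - y - r * ((N / D : ℕ) : ℤ)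
  · rw [if_pos h5, if_pos (h3.2 h5), h4]
  · rw [if_neg h5, if_neg (fun h6 => h5 (h3.1 h6))]

end gen

theorem V_inj : ∀ m n : Fin 16, V m = V n → m = n := by
  decide

theorem exV1 (v : Fin 6 → ℤ) (h0 : v 0 = 1 ∨ v 0 = -1) (h1 : v 1 = 1 ∨ v 1 = -1)
    (h2 : v 2 = 1 ∨ v 2 = -1) (h3 : v 3 = 0) (h4 : v 4 = 0) (h5 : v 5 = 0) :
    ∃ n : Fin 16, n.val < 8 ∧ V n = v := by
  rcases h0 with h0 | h0 <;> rcases h1 with h1 | h1 <;> rcases h2 with h2 | h2
  · exact ⟨0, by decide, by funext i; fin_cases i <;> simp [V, *]⟩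
  · exact ⟨4, by decide, by funext i; fin_cases i <;> simp [V, *]⟩
  · exact ⟨2, by decide, by funext i; fin_cases i <;> simp [V, *]⟩
  · exact ⟨6, by decide, by funext i; fin_cases i <;> simp [V, *]⟩
  · exact ⟨1, by decide, by funext i; fin_cases i <;> simp [V, *]⟩
  · exact ⟨5, by decide, by funext i; fin_cases i <;> simp [V, *]⟩
  · exact ⟨3, by decide, by funext i; fin_cases i <;> simp [V, *]⟩
  · exact ⟨7, by decide, by funext i; fin_cases i <;> simp [V, *]⟩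

theorem exV2 (v : Fin 6 → ℤ) (h0 : v 3 = 1 ∨ v 3 = -1) (h1 : v 4 = 1 ∨ v 4 = -1)
    (h2 : v 5 = 1 ∨ v 5 = -1) (h3 : v 0 = 0) (h4 : v 1 = 0) (h5 : v 2 = 0) :
    ∃ n : Fin 16, 8 ≤ n.val ∧ V n = v := by
  rcases h0 with h0 | h0 <;> rcases h1 with h1 | h1 <;> rcases h2 with h2 | h2
  · exact ⟨8, by decide, by funext i; fin_cases i <;> simp [V, *]⟩
  · exact ⟨12, by decide, by funext i; fin_cases i <;> simp [V, *]⟩
  · exact ⟨10, by decide, by funext i; fin_cases i <;> simp [V, *]⟩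
  · exact ⟨14, by decide, by funext i; fin_cases i <;> simp [V, *]⟩
  · exact ⟨9, by decide, by funext i; fin_cases i <;> simp [V, *]⟩
  · exact ⟨13, by decide, by funext i; fin_cases i <;> simp [V, *]⟩
  · exact ⟨11, by decide, by funext i; fin_cases i <;> simp [V, *]⟩
  · exact ⟨15, by decide, by funext i; fin_cases i <;> simp [V, *]⟩

theorem V_zero : ∀ (m : Fin 16) (i : Fin 6), ¬ (m.val / 8 = i.val / 3) → V m i = 0 := by
  decide

theorem V_pm : ∀ (m : Fin 16) (i : Fin 6), m.val / 8 = i.val / 3 → V m i = 1 ∨ V m i = -1 := by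
  decide

/-- the transformed vector -/
def tv (σ : Equiv.Perm (Fin 6)) (ε : Fin 6 → ℤ) (m : Fin 16) (j : Fin 6) : ℤ :=
  V m (σ.symm j) * ε (σ.symm j)

theorem tv_dot (σ : Equiv.Perm (Fin 6)) (ε : Fin 6 → ℤ) (m : Fin 16) (e : Fin 6 → ℤ) :
    dot (V m) (fun i => ε i * e (σ i)) = dot (tv σ ε m) e := by
  unfold dot tv
  rw [← Equiv.sum_comp σ (fun j => V m (σ.symm j) * ε (σ.symm j) * e j)]
  refine Finset.sum_congr rfl fun i _ => ?_
  rw [Equiv.symm_apply_apply]
  ring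

theorem tv_zero {σ : Equiv.Perm (Fin 6)} {ε : Fin 6 → ℤ} {m : Fin 16} {j : Fin 6}
    (h : ¬ (m.val / 8 = (σ.symm j).val / 3)) : tv σ ε m j = 0 := by
  unfold tv
  rw [V_zero _ _ h, zero_mul]

theorem tv_pm {σ : Equiv.Perm (Fin 6)} {ε : Fin 6 → ℤ} (hε : ∀ i, ε i = 1 ∨ ε i = -1)
    {m : Fin 16} {j : Fin 6} (h : m.val / 8 = (σ.symm j).val / 3) :
    tv σ ε m j = 1 ∨ tv σ ε m j = -1 := by
  unfold tv
  rcases V_pm _ _ h with h1 | h1 <;> rcases hε (σ.symm j) with h2 | h2 <;> rw [h1, h2] <;> simp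

/-- the index `τ m` -/
theorem tau_ex {σ : Equiv.Perm (Fin 6)} {ε : Fin 6 → ℤ} (hσ : Blk σ)
    (hε : ∀ i, ε i = 1 ∨ ε i = -1) : ∃ τ : Equiv.Perm (Fin 16), (∀ m, V (τ m) = tv σ ε m) ∧
      ((∀ m, (τ m).val < 8 ↔ m.val < 8) ∨ (∀ m, (τ m).val < 8 ↔ 8 ≤ m.val)) := by
  have key : ∀ m : Fin 16, ∃ n : Fin 16, V n = tv σ ε m ∧
      (((∀ i, (σ i).val < 3 ↔ i.val < 3) → (n.val < 8 ↔ m.val < 8)) ∧
       ((∀ i, (σ i).val < 3 ↔ 3 ≤ i.val) → (n.val < 8 ↔ 8 ≤ m.val))) := by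
    intro m
    rcases hσ with h | h
    · have h' : ∀ j, (σ.symm j).val < 3 ↔ j.val < 3 := fun j => by
        have := h (σ.symm j)
        rw [Equiv.apply_symm_apply] at this
        exact this.symm
      have hne : ¬ (∀ i, (σ i).val < 3 ↔ 3 ≤ i.val) := fun h2 => by
        have a := h 0
        have b := h2 0
        simp at a b
        omega
      by_cases hm : m.val < 8
      · obtain ⟨n, hn, hV⟩ := exV1 (tv σ ε m)
          (tv_pm hε (by have := (h' 0).2 (by decide); omega))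
          (tv_pm hε (by have := (h' 1).2 (by decide); omega))
          (tv_pm hε (by have := (h' 2).2 (by decide); omega))
          (tv_zero (by have := (h' 3).not.2 (by decide); omega))
          (tv_zero (by have := (h' 4).not.2 (by decide); omega))
          (tv_zero (by have := (h' 5).not.2 (by decide); omega))
        exact ⟨n, hV, fun _ => by omega, fun h2 => absurd h2 hne⟩
      · have hm2 := m.2
        obtain ⟨n, hn, hV⟩ := exV2 (tv σ ε m)
          (tv_pm hε (by have := (h' 3).not.2 (by decide); have := (σ.symm 3).2; omega))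
          (tv_pm hε (by have := (h' 4).not.2 (by decide); have := (σ.symm 4).2; omega))
          (tv_pm hε (by have := (h' 5).not.2 (by decide); have := (σ.symm 5).2; omega))
          (tv_zero (by have := (h' 0).2 (by decide); omega))
          (tv_zero (by have := (h' 1).2 (by decide); omega))
          (tv_zero (by have := (h' 2).2 (by decide); omega))
        exact ⟨n, hV, fun _ => by omega, fun h2 => absurd h2 hne⟩
    · have h' : ∀ j, 3 ≤ (σ.symm j).val ↔ j.val < 3 := fun j => by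
        have := h (σ.symm j)
        rw [Equiv.apply_symm_apply] at this
        exact this.symm
      have hne : ¬ (∀ i, (σ i).val < 3 ↔ i.val < 3) := fun h2 => by
        have a := h 0
        have b := h2 0
        simp at a b
        omega
      by_cases hm : m.val < 8
      · obtain ⟨n, hn, hV⟩ := exV2 (tv σ ε m)
          (tv_pm hε (by have := (h' 3).not.2 (by decide); omega))
          (tv_pm hε (by have := (h' 4).not.2 (by decide); omega))
          (tv_pm hε (by have := (h' 5).not.2 (by decide); omega))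
          (tv_zero (by have := (h' 0).2 (by decide); omega))
          (tv_zero (by have := (h' 1).2 (by decide); omega))
          (tv_zero (by have := (h' 2).2 (by decide); omega))
        exact ⟨n, hV, fun h2 => absurd h2 hne, fun _ => by omega⟩
      · have hm2 := m.2
        obtain ⟨n, hn, hV⟩ := exV1 (tv σ ε m)
          (tv_pm hε (by have := (h' 0).2 (by decide); have := (σ.symm 0).2; omega))
          (tv_pm hε (by have := (h' 1).2 (by decide); have := (σ.symm 1).2; omega))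
          (tv_pm hε (by have := (h' 2).2 (by decide); have := (σ.symm 2).2; omega))
          (tv_zero (by have := (h' 3).not.2 (by decide); omega))
          (tv_zero (by have := (h' 4).not.2 (by decide); omega))
          (tv_zero (by have := (h' 5).not.2 (by decide); omega))
        exact ⟨n, hV, fun h2 => absurd h2 hne, fun _ => by omega⟩
  choose t ht1 ht2 using key
  have hinj : Function.Injective t := by
    intro m n hmn
    have h1 : tv σ ε m = tv σ ε n := by rw [← ht1, ← ht1, hmn]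
    refine V_inj m n (funext fun i => ?_)
    have h2 := congrFun h1 (σ i)
    unfold tv at h2
    rw [Equiv.symm_apply_apply] at h2
    rcases hε i with h3 | h3 <;> rw [h3] at h2 <;> linarith
  have hbij : Function.Bijective t := Finite.injective_iff_bijective.1 hinj
  refine ⟨Equiv.ofBijective t hbij, fun m => ht1 m, ?_⟩
  rcases hσ with h | h
  · exact Or.inl fun m => (ht2 m).1 h
  · exact Or.inr fun m => (ht2 m).2 h

theorem EE_rel {N : ℕ} (h2 : 2 ∣ N) {e e' : Fin 6 → ℤ} (h : Rel e e') :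
    ∃ (τ : Equiv.Perm (Fin 16)) (c : ℤ) (k : Fin 16 → ℤ),
      ∀ m, EE N e' m = EE N e (τ m) + c + (N : ℤ) * k m := by
  obtain ⟨σ, ε, hσ, hε, he⟩ := h
  obtain ⟨τ, h1, h3⟩ := tau_ex hσ hε
  have hdot : ∀ m, dot (V m) e' = dot (V (τ m)) e := by
    intro m
    rw [h1, ← tv_dot]
    congr 1
    funext i
    exact he i
  rcases h3 with h3 | h3
  · refine ⟨τ, 0, fun _ => 0, fun m => ?_⟩
    unfold EE
    rw [hdot]
    by_cases hm : m.val < 8
    · rw [if_pos hm, if_pos ((h3 m).2 hm)]; ring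
    · rw [if_neg hm, if_neg (fun h => hm ((h3 m).1 h))]; ring
  · refine ⟨τ, ((N / 2 : ℕ) : ℤ), fun m => if m.val < 8 then -1 else 0, fun m => ?_⟩
    unfold EE
    rw [hdot]
    have hN2 : (N : ℤ) = 2 * ((N / 2 : ℕ) : ℤ) := by
      obtain ⟨k, rfl⟩ := h2
      rw [Nat.mul_div_cancel_left _ (by norm_num : 0 < 2)]
      push_cast
      ring
    by_cases hm : m.val < 8
    · have : ¬ (τ m).val < 8 := fun h => by have := (h3 m).1 h; omega
      rw [if_pos hm, if_neg this]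
      simp only [if_pos hm]
      linarith
    · have : (τ m).val < 8 := (h3 m).2 (by omega)
      rw [if_neg hm, if_pos this]
      simp only [if_neg hm]
      ring

end MB

open MB

theorem b0 : StmtB0 := by
  intro N e hN h2 h
  rw [sum16]
  obtain ⟨d0, d1, d2, d3, d4, d5, d6, d7, d8, d9, d10, d11, d12, d13, d14, d15⟩ := dots e
  have lo : ∀ m : Fin 16, m.val < 8 → z N (EE N e m) = z N (dot (V m) e) := by
    intro m hm
    unfold EE
    rw [if_pos hm, add_zero]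
  have hi : ∀ m : Fin 16, ¬ m.val < 8 → z N (EE N e m) = -z N (dot (V m) e) := by
    intro m hm
    unfold EE
    rw [if_neg hm, z_add, z_half hN h2]
    ring
  rw [lo 0 (by decide), lo 1 (by decide), lo 2 (by decide), lo 3 (by decide), lo 4 (by decide),
    lo 5 (by decide), lo 6 (by decide), lo 7 (by decide), hi 8 (by decide), hi 9 (by decide),
    hi 10 (by decide), hi 11 (by decide), hi 12 (by decide), hi 13 (by decide),
    hi 14 (by decide), hi 15 (by decide), d0, d1, d2, d3, d4, d5, d6, d7, d8, d9, d10, d11, d12,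
    d13, d14, d15]
  simp only [z_add]
  rw [sin_yy, sin_yy, sin_yy, sin_yy, sin_yy, sin_yy] at h
  have h3 := congrArg (fun x : ℝ => (x : ℂ)) h
  simp only [Complex.ofReal_mul] at h3
  rw [cos_z, cos_z, cos_z, cos_z, cos_z, cos_z] at h3
  linear_combination 8 * h3

theorem b1 : StmtB1 := by
  intro N D e hN hD h2 hCS m
  by_contra hcon
  push Not at hcon
  have h1 := hCS (EE N e m)
  have hQ : ∀ n : Fin 16, ((N / D : ℕ) : ℤ) ∣ EE N e n - EE N e m ↔
      ((N / D : ℕ) : ℤ) ∣ dv m n e := by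
    intro n
    have h3 : ((N / D : ℕ) : ℤ) ∣ ((N / 2 : ℕ) : ℤ) := Q_dvd_half hD h2
    rw [← Int.dvd_neg (b := dv m n e)]
    refine dvd_shift ?_
    unfold EE dv
    by_cases hm : m.val < 8 <;> by_cases hn : n.val < 8
    · rw [if_pos hm, if_pos hn]
      ring_nf
      exact dvd_zero _
    · rw [if_pos hm, if_neg hn]
      have : dot (V n) e + ((N / 2 : ℕ) : ℤ) - (dot (V m) e + 0) -
        -(dot (V m) e - dot (V n) e) = ((N / 2 : ℕ) : ℤ) := by ring
      rw [this]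
      exact h3
    · rw [if_neg hm, if_pos hn]
      have : dot (V n) e + 0 - (dot (V m) e + ((N / 2 : ℕ) : ℤ)) -
        -(dot (V m) e - dot (V n) e) = -((N / 2 : ℕ) : ℤ) := by ring
      rw [this]
      exact (Int.dvd_neg).2 h3
    · rw [if_neg hm, if_neg hn]
      ring_nf
      exact dvd_zero _
  have h4 : univ.filter (fun i => ((N / D : ℕ) : ℤ) ∣ EE N e i - EE N e m) = {m} := by
    ext n
    rw [Finset.mem_filter, Finset.mem_singleton]
    constructor
    · rintro ⟨-, h5⟩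
      by_contra hne
      exact hcon n hne ((hQ n).1 h5)
    · rintro rfl
      exact ⟨Finset.mem_univ _, by simp⟩
  rw [h4, Finset.sum_singleton] at h1
  exact z_ne _ _ h1

theorem b2 : StmtB2 := by
  intro N D e e' hN hD h2 hrel
  obtain ⟨τ, c, k, h⟩ := EE_rel (h2.trans hD) hrel
  refine ⟨fun hCS => cs_gen hN hD τ c k h hCS, fun p _ _ hpD hF => ?_⟩
  obtain ⟨y, hy⟩ := hF
  exact ⟨y + c, full_gen hN hD hpD τ c k h hy⟩

end Pool.Agent.T6.H31.TC
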