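import Pool.Agent.T6.H31.TC.Stmts

set_option autoImplicit false

namespace Pool.Agent.T6.H31.TC

open Finset

/-- sum over the first eight sign vectors -/
theorem c0_sum8 (a : Fin 6 → ℝ) :
    ∑ m ∈ (univ : Finset (Fin 16)).filter (fun m => m.val < 8),
      Complex.exp (((∑ i, (V m i : ℝ) * a i : ℝ) : ℂ) * Complex.I) =
    8 * ((Real.cos (a 0) * Real.cos (a 1) * Real.cos (a 2) : ℝ) : ℂ) := by
  have h1 : (univ : Finset (Fin 16)).filter (fun m => m.val < 8) = {0, 1, 2, 3, 4, 5, 6, 7} := by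
    decide
  rw [h1]
  have e1 : ∀ x : ℝ, ((Real.cos x : ℝ) : ℂ) =
      (Complex.exp ((x : ℂ) * Complex.I) + Complex.exp (-(x : ℂ) * Complex.I)) / 2 := by
    intro x
    rw [Complex.ofReal_cos, Complex.cos]
  have hs : ∀ m : Fin 16, Complex.exp (((∑ i, (V m i : ℝ) * a i : ℝ) : ℂ) * Complex.I) =
      ∏ i, Complex.exp (((V m i : ℤ) : ℂ) * (a i : ℂ) * Complex.I) := by
    intro m
    rw [← Complex.exp_sum]
    congr 1
    push_cast
    rw [Finset.sum_mul]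
  simp only [hs]
  push_cast
  rw [← Complex.ofReal_cos, ← Complex.ofReal_cos, ← Complex.ofReal_cos, e1, e1, e1]
  have v : ∀ m i, ((V m i : ℤ) : ℂ) = ((V m i : ℤ) : ℂ) := fun _ _ => rfl
  rw [Finset.sum_insert (by decide), Finset.sum_insert (by decide), Finset.sum_insert (by decide),
    Finset.sum_insert (by decide), Finset.sum_insert (by decide), Finset.sum_insert (by decide),
    Finset.sum_insert (by decide), Finset.sum_singleton]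
  simp only [Fin.prod_univ_six]
  have t0 : V 0 0 = 1 ∧ V 0 1 = 1 ∧ V 0 2 = 1 ∧ V 0 3 = 0 ∧ V 0 4 = 0 ∧ V 0 5 = 0 := by decide
  have t1 : V 1 0 = -1 ∧ V 1 1 = 1 ∧ V 1 2 = 1 ∧ V 1 3 = 0 ∧ V 1 4 = 0 ∧ V 1 5 = 0 := by decide
  have t2 : V 2 0 = 1 ∧ V 2 1 = -1 ∧ V 2 2 = 1 ∧ V 2 3 = 0 ∧ V 2 4 = 0 ∧ V 2 5 = 0 := by decide
  have t3 : V 3 0 = -1 ∧ V 3 1 = -1 ∧ V 3 2 = 1 ∧ V 3 3 = 0 ∧ V 3 4 = 0 ∧ V 3 5 = 0 := by decide
  have t4 : V 4 0 = 1 ∧ V 4 1 = 1 ∧ V 4 2 = -1 ∧ V 4 3 = 0 ∧ V 4 4 = 0 ∧ V 4 5 = 0 := by decide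
  have t5 : V 5 0 = -1 ∧ V 5 1 = 1 ∧ V 5 2 = -1 ∧ V 5 3 = 0 ∧ V 5 4 = 0 ∧ V 5 5 = 0 := by decide
  have t6 : V 6 0 = 1 ∧ V 6 1 = -1 ∧ V 6 2 = -1 ∧ V 6 3 = 0 ∧ V 6 4 = 0 ∧ V 6 5 = 0 := by decide
  have t7 : V 7 0 = -1 ∧ V 7 1 = -1 ∧ V 7 2 = -1 ∧ V 7 3 = 0 ∧ V 7 4 = 0 ∧ V 7 5 = 0 := by decide
  obtain ⟨a0, b0, c0, d0, f0, g0⟩ := t0
  obtain ⟨a1, b1, c1, d1, f1, g1⟩ := t1
  obtain ⟨a2, b2, c2, d2, f2, g2⟩ := t2
  obtain ⟨a3, b3, c3, d3, f3, g3⟩ := t3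
  obtain ⟨a4, b4, c4, d4, f4, g4⟩ := t4
  obtain ⟨a5, b5, c5, d5, f5, g5⟩ := t5
  obtain ⟨a6, b6, c6, d6, f6, g6⟩ := t6
  obtain ⟨a7, b7, c7, d7, f7, g7⟩ := t7
  rw [a0, b0, c0, d0, f0, g0, a1, b1, c1, d1, f1, g1, a2, b2, c2, d2, f2, g2, a3, b3, c3, d3, f3, g3,
    a4, b4, c4, d4, f4, g4, a5, b5, c5, d5, f5, g5, a6, b6, c6, d6, f6, g6, a7, b7, c7, d7, f7, g7]
  simp only [Int.cast_one, Int.cast_neg, Int.cast_zero, one_mul, zero_mul, Complex.exp_zero, mul_one,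
    neg_mul]
  ring

/-- sum over the last eight sign vectors -/
theorem c0_sum8' (a : Fin 6 → ℝ) :
    ∑ m ∈ (univ : Finset (Fin 16)).filter (fun m => ¬ m.val < 8),
      Complex.exp (((∑ i, (V m i : ℝ) * a i : ℝ) : ℂ) * Complex.I) =
    8 * ((Real.cos (a 3) * Real.cos (a 4) * Real.cos (a 5) : ℝ) : ℂ) := by
  have h1 : (univ : Finset (Fin 16)).filter (fun m => ¬ m.val < 8) = {8, 9, 10, 11, 12, 13, 14, 15} := by
    decide
  rw [h1]
  have e1 : ∀ x : ℝ, ((Real.cos x : ℝ) : ℂ) =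
      (Complex.exp ((x : ℂ) * Complex.I) + Complex.exp (-(x : ℂ) * Complex.I)) / 2 := by
    intro x
    rw [Complex.ofReal_cos, Complex.cos]
  have hs : ∀ m : Fin 16, Complex.exp (((∑ i, (V m i : ℝ) * a i : ℝ) : ℂ) * Complex.I) =
      ∏ i, Complex.exp (((V m i : ℤ) : ℂ) * (a i : ℂ) * Complex.I) := by
    intro m
    rw [← Complex.exp_sum]
    congr 1
    push_cast
    rw [Finset.sum_mul]
  simp only [hs]
  push_cast
  rw [← Complex.ofReal_cos, ← Complex.ofReal_cos, ← Complex.ofReal_cos, e1, e1, e1]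
  rw [Finset.sum_insert (by decide), Finset.sum_insert (by decide), Finset.sum_insert (by decide),
    Finset.sum_insert (by decide), Finset.sum_insert (by decide), Finset.sum_insert (by decide),
    Finset.sum_insert (by decide), Finset.sum_singleton]
  simp only [Fin.prod_univ_six]
  have t0 : V 8 0 = 0 ∧ V 8 1 = 0 ∧ V 8 2 = 0 ∧ V 8 3 = 1 ∧ V 8 4 = 1 ∧ V 8 5 = 1 := by decide
  have t1 : V 9 0 = 0 ∧ V 9 1 = 0 ∧ V 9 2 = 0 ∧ V 9 3 = -1 ∧ V 9 4 = 1 ∧ V 9 5 = 1 := by decide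
  have t2 : V 10 0 = 0 ∧ V 10 1 = 0 ∧ V 10 2 = 0 ∧ V 10 3 = 1 ∧ V 10 4 = -1 ∧ V 10 5 = 1 := by decide
  have t3 : V 11 0 = 0 ∧ V 11 1 = 0 ∧ V 11 2 = 0 ∧ V 11 3 = -1 ∧ V 11 4 = -1 ∧ V 11 5 = 1 := by decide
  have t4 : V 12 0 = 0 ∧ V 12 1 = 0 ∧ V 12 2 = 0 ∧ V 12 3 = 1 ∧ V 12 4 = 1 ∧ V 12 5 = -1 := by decide
  have t5 : V 13 0 = 0 ∧ V 13 1 = 0 ∧ V 13 2 = 0 ∧ V 13 3 = -1 ∧ V 13 4 = 1 ∧ V 13 5 = -1 := by decide
  have t6 : V 14 0 = 0 ∧ V 14 1 = 0 ∧ V 14 2 = 0 ∧ V 14 3 = 1 ∧ V 14 4 = -1 ∧ V 14 5 = -1 := by decide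
  have t7 : V 15 0 = 0 ∧ V 15 1 = 0 ∧ V 15 2 = 0 ∧ V 15 3 = -1 ∧ V 15 4 = -1 ∧ V 15 5 = -1 := by decide
  obtain ⟨a0, b0, c0, d0, f0, g0⟩ := t0
  obtain ⟨a1, b1, c1, d1, f1, g1⟩ := t1
  obtain ⟨a2, b2, c2, d2, f2, g2⟩ := t2
  obtain ⟨a3, b3, c3, d3, f3, g3⟩ := t3
  obtain ⟨a4, b4, c4, d4, f4, g4⟩ := t4
  obtain ⟨a5, b5, c5, d5, f5, g5⟩ := t5
  obtain ⟨a6, b6, c6, d6, f6, g6⟩ := t6
  obtain ⟨a7, b7, c7, d7, f7, g7⟩ := t7
  rw [a0, b0, c0, d0, f0, g0, a1, b1, c1, d1, f1, g1, a2, b2, c2, d2, f2, g2, a3, b3, c3, d3, f3, g3,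
    a4, b4, c4, d4, f4, g4, a5, b5, c5, d5, f5, g5, a6, b6, c6, d6, f6, g6, a7, b7, c7, d7, f7, g7]
  simp only [Int.cast_one, Int.cast_neg, Int.cast_zero, one_mul, zero_mul, Complex.exp_zero, mul_one,
    neg_mul]
  ring

/-- the term with a real parameter -/
theorem c0_term (N : ℕ) (hN : 0 < N) (h2 : 2 ∣ N) (e w : Fin 6 → ℤ) (u : ℝ) (m : Fin 16) :
    z N (EE N e m) * Complex.exp (((u * (dot (V m) w : ℝ) : ℝ) : ℂ) * Complex.I) =
    (if m.val < 8 then 1 else -1) *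
      Complex.exp (((∑ i, (V m i : ℝ) * (2 * Real.pi * (e i : ℝ) / (N : ℝ) + u * (w i : ℝ)) : ℝ) : ℂ) *
        Complex.I) := by
  have hN' : (N : ℝ) ≠ 0 := by exact_mod_cast hN.ne'
  have h3 : ((N / 2 : ℕ) : ℝ) = (N : ℝ) / 2 := by
    rw [Nat.cast_div h2 (by norm_num)]
    norm_num
  have h4 : ∑ i, (V m i : ℝ) * (2 * Real.pi * (e i : ℝ) / (N : ℝ) + u * (w i : ℝ)) =
      2 * Real.pi * ((dot (V m) e : ℤ) : ℝ) / (N : ℝ) + u * ((dot (V m) w : ℤ) : ℝ) := by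
    unfold dot
    push_cast
    rw [Finset.mul_sum, Finset.mul_sum, Finset.sum_div, ← Finset.sum_add_distrib]
    refine Finset.sum_congr rfl fun i _ => ?_
    ring
  rw [h4]
  unfold z EE
  split_ifs with h
  · rw [add_zero, one_mul, ← Complex.exp_add]
    congr 1
    push_cast
    ring
  · have h5 : (2 * Real.pi * (((dot (V m) e + ((N / 2 : ℕ) : ℤ) : ℤ)) : ℝ) / (N : ℝ) : ℝ) =
        2 * Real.pi * ((dot (V m) e : ℤ) : ℝ) / (N : ℝ) + Real.pi := by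
      rw [Int.cast_add, Int.cast_natCast, h3]
      field_simp
    rw [h5, ← Complex.exp_add]
    have h6 : (((2 * Real.pi * ((dot (V m) e : ℤ) : ℝ) / (N : ℝ) + Real.pi : ℝ)) : ℂ) * Complex.I +
        ((u * (dot (V m) w : ℝ) : ℝ) : ℂ) * Complex.I =
        (((2 * Real.pi * ((dot (V m) e : ℤ) : ℝ) / (N : ℝ) + u * ((dot (V m) w : ℤ) : ℝ) : ℝ)) : ℂ) *
          Complex.I + (Real.pi : ℂ) * Complex.I := by
      push_cast
      ring
    rw [h6, Complex.exp_add, Complex.exp_pi_mul_I]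
    ring

/-- the sum of the sixteen terms -/
theorem c0_total (N : ℕ) (hN : 0 < N) (h2 : 2 ∣ N) (e w : Fin 6 → ℤ) (u : ℝ) :
    ∑ m, z N (EE N e m) * Complex.exp (((u * (dot (V m) w : ℝ) : ℝ) : ℂ) * Complex.I) =
    8 * (((Real.cos (2 * Real.pi * (e 0 : ℝ) / (N : ℝ) + u * (w 0 : ℝ)) *
      Real.cos (2 * Real.pi * (e 1 : ℝ) / (N : ℝ) + u * (w 1 : ℝ)) *
      Real.cos (2 * Real.pi * (e 2 : ℝ) / (N : ℝ) + u * (w 2 : ℝ)) : ℝ) : ℂ) -
      ((Real.cos (2 * Real.pi * (e 3 : ℝ) / (N : ℝ) + u * (w 3 : ℝ)) *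
      Real.cos (2 * Real.pi * (e 4 : ℝ) / (N : ℝ) + u * (w 4 : ℝ)) *
      Real.cos (2 * Real.pi * (e 5 : ℝ) / (N : ℝ) + u * (w 5 : ℝ)) : ℝ) : ℂ)) := by
  rw [← Finset.sum_filter_add_sum_filter_not univ (fun m : Fin 16 => m.val < 8), mul_sub,
    ← c0_sum8 (fun i => 2 * Real.pi * (e i : ℝ) / (N : ℝ) + u * (w i : ℝ)),
    ← c0_sum8' (fun i => 2 * Real.pi * (e i : ℝ) / (N : ℝ) + u * (w i : ℝ)), sub_eq_add_neg,
    ← Finset.sum_neg_distrib]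
  congr 1
  · refine Finset.sum_congr rfl fun m hm => ?_
    rw [c0_term N hN h2 e w u m, if_pos (Finset.mem_filter.mp hm).2, one_mul]
  · refine Finset.sum_congr rfl fun m hm => ?_
    rw [c0_term N hN h2 e w u m, if_neg (Finset.mem_filter.mp hm).2, neg_one_mul]

theorem c0_dvd_iff (N D : ℕ) (hN : 0 < N) (hDN : D ∣ N) (h2 : 2 ∣ D) (e : Fin 6 → ℤ) (m n : Fin 16) :
    ((N / D : ℕ) : ℤ) ∣ EE N e m - EE N e n ↔ ((N / D : ℕ) : ℤ) ∣ dv m n e := by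
  have hQ : ((N / D : ℕ) : ℤ) ∣ ((N / 2 : ℕ) : ℤ) := by
    obtain ⟨k, rfl⟩ := hDN
    obtain ⟨j, rfl⟩ := h2
    have hj : 0 < 2 * j := by
      rcases Nat.eq_zero_or_pos (2 * j) with h0 | h0
      · rw [h0, zero_mul] at hN
        exact absurd hN (lt_irrefl 0)
      · exact h0
    rw [Nat.mul_div_cancel_left k hj, mul_assoc, Nat.mul_div_cancel_left (j * k) (by norm_num)]
    exact_mod_cast Dvd.intro_left j rfl
  have hd : EE N e m - EE N e n = dv m n e +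
      ((if m.val < 8 then 0 else ((N / 2 : ℕ) : ℤ)) - (if n.val < 8 then 0 else ((N / 2 : ℕ) : ℤ))) := by
    unfold EE dv
    ring
  rw [hd]
  have h3 : ((N / D : ℕ) : ℤ) ∣
      ((if m.val < 8 then 0 else ((N / 2 : ℕ) : ℤ)) - (if n.val < 8 then 0 else ((N / 2 : ℕ) : ℤ))) := by
    apply dvd_sub
    · split_ifs
      · exact dvd_zero _
      · exact hQ
    · split_ifs
      · exact dvd_zero _
      · exact hQ
  exact ⟨fun h => by simpa using dvd_sub h h3, fun h => dvd_add h h3⟩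

theorem c0 : StmtC0 := by
  intro N D e w hN hDN h2 hCS hw t
  classical
  have h2N : 2 ∣ N := dvd_trans h2 hDN
  have hN' : (N : ℝ) ≠ 0 := by exact_mod_cast hN.ne'
  have hN'' : (N : ℝ) ≠ 0 := hN'
  set Q : ℤ := ((N / D : ℕ) : ℤ) with hQ
  have hzero : ∑ m, z N (EE N e m) *
      Complex.exp ((((-(Real.pi * t)) * (dot (V m) (lvec w) : ℝ) : ℝ) : ℂ) * Complex.I) = 0 := by
    rw [← Finset.sum_fiberwise_of_maps_to (s := univ) (t := univ.image (fun m => EE N e m % Q))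
      (g := fun m => EE N e m % Q) (fun m _ => Finset.mem_image_of_mem _ (Finset.mem_univ m))]
    refine Finset.sum_eq_zero fun r hr => ?_
    obtain ⟨n, _, hn⟩ := Finset.mem_image.mp hr
    have hset : (univ.filter fun m => EE N e m % Q = r) =
        univ.filter (fun m => Q ∣ EE N e m - EE N e n) := by
      ext m
      simp only [Finset.mem_filter, Finset.mem_univ, true_and]
      rw [← hn]
      constructor
      · intro h
        exact Int.ModEq.dvd (show Int.ModEq Q (EE N e n) (EE N e m) from h.symm)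
      · intro h
        exact (Int.ModEq.symm ((Int.modEq_iff_dvd).mpr h))
    rw [hset]
    have hconst : ∀ m ∈ univ.filter (fun m => Q ∣ EE N e m - EE N e n),
        z N (EE N e m) * Complex.exp ((((-(Real.pi * t)) * (dot (V m) (lvec w) : ℝ) : ℝ) : ℂ) * Complex.I) =
        z N (EE N e m) * Complex.exp ((((-(Real.pi * t)) * (dot (V n) (lvec w) : ℝ) : ℝ) : ℂ) * Complex.I) := by
      intro m hm
      have hm' := (Finset.mem_filter.mp hm).2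
      rw [hQ, c0_dvd_iff N D hN hDN h2 e m n] at hm'
      have h3 := hw m n hm'
      have h4 : dot (V m) (lvec w) = dot (V n) (lvec w) := by
        unfold dv at h3
        linarith
      rw [h4]
    rw [Finset.sum_congr rfl hconst, ← Finset.sum_mul, hCS (EE N e n), zero_mul]
  rw [c0_total N hN h2N e (lvec w) (-(Real.pi * t))] at hzero
  have h8 : (8 : ℂ) ≠ 0 := by norm_num
  have h5 := (mul_eq_zero.mp hzero).resolve_left h8
  rw [sub_eq_zero] at h5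
  have h6 := Complex.ofReal_injective h5
  have hsin : ∀ i : Fin 6, Real.sin (Real.pi * (yy N e i + ((w.getD i.val 0 : ℤ) : ℝ) * t)) =
      Real.cos (2 * Real.pi * (e i : ℝ) / (N : ℝ) + -(Real.pi * t) * ((lvec w i : ℤ) : ℝ)) := by
    intro i
    rw [← Real.sin_pi_div_two_sub]
    congr 1
    unfold yy lvec
    ring
  have hs0 := hsin 0
  have hs1 := hsin 1
  have hs2 := hsin 2
  have hs3 := hsin 3
  have hs4 := hsin 4
  have hs5 := hsin 5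
  simp only [Fin.val_zero] at hs0
  show Real.sin (Real.pi * (yy N e 0 + ((w.getD 0 0 : ℤ) : ℝ) * t)) *
    Real.sin (Real.pi * (yy N e 1 + ((w.getD 1 0 : ℤ) : ℝ) * t)) *
    Real.sin (Real.pi * (yy N e 2 + ((w.getD 2 0 : ℤ) : ℝ) * t)) =
    Real.sin (Real.pi * (yy N e 3 + ((w.getD 3 0 : ℤ) : ℝ) * t)) *
    Real.sin (Real.pi * (yy N e 4 + ((w.getD 4 0 : ℤ) : ℝ) * t)) *
    Real.sin (Real.pi * (yy N e 5 + ((w.getD 5 0 : ℤ) : ℝ) * t))
  rw [hs0]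
  refine Eq.trans ?_ (Eq.trans h6 ?_)
  · rw [← hs1, ← hs2]
    rfl
  · rw [← hs3, ← hs4, ← hs5]
    rfl

theorem x0 : StmtX0 := by
  intro N D e κ hN hDN h2 hNZ hCS hE hκ
  have h2N : 2 ∣ N := dvd_trans h2 hDN
  have h1 := hCS (EE N e 0)
  have hset : univ.filter (fun i => ((N / D : ℕ) : ℤ) ∣ EE N e i - EE N e 0) =
      univ.filter (fun m : Fin 16 => m.val < 8) := by
    ext m
    simp only [Finset.mem_filter, Finset.mem_univ, true_and]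
    rw [c0_dvd_iff N D hN hDN h2 e m 0, hE m 0]
    exact hκ m
  rw [hset] at h1
  have h3 : ∑ m ∈ univ.filter (fun m : Fin 16 => m.val < 8), z N (EE N e m) =
      8 * ((Real.cos (2 * Real.pi * (e 0 : ℝ) / (N : ℝ)) *
      Real.cos (2 * Real.pi * (e 1 : ℝ) / (N : ℝ)) *
      Real.cos (2 * Real.pi * (e 2 : ℝ) / (N : ℝ)) : ℝ) : ℂ) := by
    rw [← c0_sum8 (fun i => 2 * Real.pi * (e i : ℝ) / (N : ℝ))]
    refine Finset.sum_congr rfl fun m hm => ?_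
    have h4 := c0_term N hN h2N e (fun _ => 0) 0 m
    rw [if_pos (Finset.mem_filter.mp hm).2, one_mul] at h4
    simpa using h4
  rw [h3] at h1
  have h8 : (8 : ℂ) ≠ 0 := by norm_num
  have h5 := (mul_eq_zero.mp h1).resolve_left h8
  have h6 : Real.cos (2 * Real.pi * (e 0 : ℝ) / (N : ℝ)) *
      Real.cos (2 * Real.pi * (e 1 : ℝ) / (N : ℝ)) *
      Real.cos (2 * Real.pi * (e 2 : ℝ) / (N : ℝ)) = 0 := by exact_mod_cast h5
  have hsin : ∀ i : Fin 6, Real.cos (2 * Real.pi * (e i : ℝ) / (N : ℝ)) ≠ 0 := by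
    intro i
    have := hNZ i
    rw [show Real.pi * yy N e i = Real.pi / 2 - 2 * Real.pi * (e i : ℝ) / (N : ℝ) by unfold yy; ring,
      Real.sin_pi_div_two_sub] at this
    exact this
  exact mul_ne_zero (mul_ne_zero (hsin 0) (hsin 1)) (hsin 2) h6

end Pool.Agent.T6.H31.TC
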