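import Pool.Agent.T6.H31.TC.Stmts

set_option autoImplicit false

/-! Module CR of the project TC (MP_6e4ab6_nt): the cross structure. -/

namespace Pool.Agent.T6.H31.TC

open Finset

namespace ModCR

theorem emod_range (x : ℤ) (m : ℕ) (hm : 0 < m) : ∃ t ∈ range m, (m : ℤ) ∣ x - (t : ℕ) := by
  have hm' : (0 : ℤ) < m := by exact_mod_cast hm
  have h1 := Int.emod_nonneg x hm'.ne'
  have h2 := Int.emod_lt_of_pos x hm'
  have hc : (((x % (m : ℤ)).toNat : ℕ) : ℤ) = x % m := Int.toNat_of_nonneg h1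
  refine ⟨(x % (m : ℤ)).toNat, ?_, ?_⟩
  · rw [mem_range]; omega
  · rw [hc]; exact Int.dvd_self_sub_emod

theorem range_eq (m s t : ℕ) (hs : s < m) (ht : t < m) (h : (m : ℤ) ∣ (s : ℤ) - t) : s = t := by
  have := Int.eq_zero_of_abs_lt_dvd h (by rw [abs_lt]; constructor <;> omega)
  omega

/-- the abstract counting argument -/
theorem table (p q n : ℕ) (hp : 0 < p) (hq : 5 ≤ q) (a : ℤ → ℤ → ℂ)
    (h1 : ∀ r s r' s' : ℤ, (p : ℤ) ∣ r - r' → (q : ℤ) ∣ s - s' → a r s = a r' s')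
    (h2 : ∀ r s r' s' : ℤ, a r s + a r' s' = a r s' + a r' s)
    (h5 : ∃ r s s' : ℤ, a r s ≠ a r s') (h6 : ∃ r r' s : ℤ, a r s ≠ a r' s)
    (hcard : ∀ T : Finset (ℕ × ℕ), (∀ t ∈ T, t.1 < p ∧ t.2 < q ∧ a t.1 t.2 ≠ 0) → T.card ≤ n)
    (hn1 : n < 2 * p) (hn2 : n < p + 2 * q - 4) :
    p + q - 2 ≤ n ∧ ∃ r0 s0 : ℤ, (∀ r : ℤ, ¬ (p : ℤ) ∣ r - r0 → a r s0 ≠ 0) ∧
      (∀ s : ℤ, ¬ (q : ℤ) ∣ s - s0 → a r0 s ≠ 0) ∧
      (∀ r s : ℤ, ¬ (p : ℤ) ∣ r - r0 → ¬ (q : ℤ) ∣ s - s0 → a r s = 0) := by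
  classical
  have hq0 : 0 < q := by omega
  let ρ : ℕ → ℕ := fun r => ((range q).filter (fun s : ℕ => a r s ≠ 0)).card
  have hsum : ∑ r ∈ range p, ρ r ≤ n := by
    have := hcard (((range p) ×ˢ (range q)).filter (fun t : ℕ × ℕ => a t.1 t.2 ≠ 0)) (by
      intro t ht
      rw [mem_filter, mem_product, mem_range, mem_range] at ht
      exact ⟨ht.1.1, ht.1.2, ht.2⟩)
    refine le_trans (le_of_eq ?_) this
    rw [Finset.card_filter, Finset.sum_product]
    apply Finset.sum_congr rfl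
    intro r _
    exact Finset.card_filter (fun s : ℕ => a r s ≠ 0) (range q)
  -- every row has a nonzero entry
  obtain ⟨r', s1, s2, h12⟩ := h5
  have hrow : ∀ r : ℕ, 1 ≤ ρ r := by
    intro r
    have hne : a r s1 ≠ a r s2 := by
      intro he
      apply h12
      have := h2 r' s1 r s2
      rw [he] at this
      exact add_right_cancel this
    have hs : ∃ s : ℤ, a r s ≠ 0 := by
      by_contra hcon
      push Not at hcon
      exact hne (by rw [hcon, hcon])
    obtain ⟨s, hs⟩ := hs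
    obtain ⟨t, ht, htd⟩ := emod_range s q hq0
    have : t ∈ (range q).filter (fun s : ℕ => a r s ≠ 0) := by
      rw [mem_filter]
      refine ⟨ht, ?_⟩
      rw [h1 r t r s (by simp) (by rw [← dvd_neg, neg_sub]; exact htd)]
      exact hs
    exact Finset.card_pos.2 ⟨t, this⟩
  -- a row with one nonzero entry
  have hex : ∃ r1 ∈ range p, ρ r1 = 1 := by
    by_contra hcon
    push Not at hcon
    have : ∑ r ∈ range p, 2 ≤ ∑ r ∈ range p, ρ r := by
      apply Finset.sum_le_sum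
      intro r hr
      have := hcon r hr
      have := hrow r
      omega
    rw [Finset.sum_const, card_range, smul_eq_mul] at this
    omega
  obtain ⟨r1, hr1, hρ1⟩ := hex
  obtain ⟨s0, hs0⟩ := Finset.card_eq_one.1 hρ1
  have hs0m : s0 ∈ (range q).filter (fun s : ℕ => a r1 s ≠ 0) := by rw [hs0]; exact mem_singleton_self _
  rw [mem_filter, mem_range] at hs0m
  obtain ⟨hs0q, hs0n⟩ := hs0m
  have hz1 : ∀ s : ℤ, ¬ (q : ℤ) ∣ s - s0 → a r1 s = 0 := by
    intro s hs
    by_contra hne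
    obtain ⟨t, ht, htd⟩ := emod_range s q hq0
    have hmem : t ∈ (range q).filter (fun s : ℕ => a r1 s ≠ 0) := by
      rw [mem_filter]
      refine ⟨ht, ?_⟩
      rw [h1 r1 t r1 s (by simp) (by rw [← dvd_neg, neg_sub]; exact htd)]
      exact hne
    rw [hs0, mem_singleton] at hmem
    rw [hmem] at htd
    exact hs htd
  have hdiff : ∀ r s s' : ℤ, a r s - a r1 s = a r s' - a r1 s' := by
    intro r s s'
    have := h2 r s r1 s'
    linear_combination this
  -- the constants of the rows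
  let c : ℤ → ℂ := fun r => a r s0 - a r1 s0
  have hc : ∀ r s : ℤ, a r s = c r + a r1 s := by
    intro r s
    have := hdiff r s s0
    show a r s = (a r s0 - a r1 s0) + a r1 s
    linear_combination this
  have hbig : ∀ r : ℕ, c r ≠ 0 → q - 1 ≤ ρ r := by
    intro r hr
    have hsub : (range q).erase s0 ⊆ (range q).filter (fun s : ℕ => a r s ≠ 0) := by
      intro s hs
      rw [mem_erase] at hs
      rw [mem_filter]
      refine ⟨hs.2, ?_⟩
      rw [hc r s, hz1 s, add_zero]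
      · exact hr
      · intro hd
        exact hs.1 (range_eq q s s0 (mem_range.1 hs.2) hs0q hd)
    have := card_le_card hsub
    rw [card_erase_of_mem (mem_range.2 hs0q), card_range] at this
    exact this
  have hcper : ∀ r r' : ℤ, (p : ℤ) ∣ r - r' → c r = c r' := by
    intro r r' hd
    show a r s0 - a r1 s0 = a r' s0 - a r1 s0
    rw [h1 r s0 r' s0 hd (by simp)]
  -- a row with nonzero constant
  have hexr : ∃ r0 ∈ range p, c (r0 : ℕ) ≠ 0 := by
    obtain ⟨ra, rb, s, hab⟩ := h6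
    have : ∃ r : ℤ, c r ≠ 0 := by
      by_contra hcon
      push Not at hcon
      apply hab
      rw [hc ra s, hc rb s, hcon, hcon]
    obtain ⟨r, hr⟩ := this
    obtain ⟨t, ht, htd⟩ := emod_range r p hp
    exact ⟨t, ht, by rw [← hcper r t htd]; exact hr⟩
  obtain ⟨r0, hr0, hcr0⟩ := hexr
  have hq1 : 1 ≤ q - 1 := by omega
  have huniq : ∀ r : ℤ, ¬ (p : ℤ) ∣ r - r0 → c r = 0 := by
    intro r hr
    by_contra hne
    obtain ⟨t, ht, htd⟩ := emod_range r p hp
    have htne : t ≠ r0 := by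
      intro he
      rw [he] at htd
      exact hr htd
    have hct : c (t : ℕ) ≠ 0 := by rw [← hcper r t htd]; exact hne
    have hlow : ∑ r ∈ range p, (1 + (if r = r0 then q - 2 else 0) + (if r = t then q - 2 else 0)) ≤
        ∑ r ∈ range p, ρ r := by
      apply Finset.sum_le_sum
      intro r _
      by_cases e1 : r = r0
      · rw [if_pos e1, if_neg (by rw [e1]; exact fun h => htne h.symm)]
        have := hbig r0 hcr0
        rw [e1]; omega
      · rw [if_neg e1]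
        by_cases e2 : r = t
        · rw [if_pos e2]
          have := hbig t hct
          rw [e2]; omega
        · rw [if_neg e2]
          exact hrow r
    rw [Finset.sum_add_distrib, Finset.sum_add_distrib, Finset.sum_ite_eq', Finset.sum_ite_eq',
      if_pos hr0, if_pos ht, Finset.sum_const, card_range, smul_eq_mul, mul_one] at hlow
    omega
  refine ⟨?_, r0, s0, ?_, ?_, ?_⟩
  · have hlow : ∑ r ∈ range p, (1 + (if r = r0 then q - 2 else 0)) ≤ ∑ r ∈ range p, ρ r := by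
      apply Finset.sum_le_sum
      intro r _
      by_cases e1 : r = r0
      · rw [if_pos e1]
        have := hbig r0 hcr0
        rw [e1]; omega
      · rw [if_neg e1]
        exact hrow r
    rw [Finset.sum_add_distrib, Finset.sum_ite_eq', if_pos hr0, Finset.sum_const, card_range,
      smul_eq_mul, mul_one] at hlow
    omega
  · intro r hr
    rw [hc r s0, huniq r hr, zero_add]
    exact hs0n
  · intro s hs
    rw [hc r0 s, hz1 s hs, add_zero]
    exact hcr0
  · intro r s hr hs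
    rw [hc r s, huniq r hr, hz1 s hs, add_zero]

end ModCR

open ModCR in
theorem cr (hu : StmtU) : StmtCR := by
  classical
  intro ι _ E N D p q y hN hDN hp hq hq5 hqp hpqD hpp hqq hCS hFp hFq hn1 hn2
  obtain ⟨a, h1, h2, h3, h4, h5, h6⟩ := hu ι E N D p q y hN hDN hp hq hqp.ne' hpqD hpp hqq hCS
  have hD0 : 0 < D := Nat.pos_of_dvd_of_pos hDN hN
  obtain ⟨Q, hQ⟩ : ∃ Q : ℕ, Q = N / D := ⟨_, rfl⟩
  have hQ0 : 0 < Q := by
    rw [hQ]; exact Nat.div_pos (Nat.le_of_dvd hN hDN) hD0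
  have hQz : (Q : ℤ) ≠ 0 := by exact_mod_cast hQ0.ne'
  unfold Entry at h3 h4
  rw [← hQ] at h3 h4 hn1 hn2 ⊢
  obtain ⟨C, hC⟩ : ∃ C : Finset ι, C = univ.filter (fun i => (Q : ℤ) ∣ E i - y) := ⟨_, rfl⟩
  rw [← hC] at hn1 hn2 ⊢
  have hmemC : ∀ i, i ∈ C ↔ (Q : ℤ) ∣ E i - y := by
    intro i; rw [hC, mem_filter]; simp
  let k : ι → ℤ := fun i => (E i - y) / Q
  have hk : ∀ i, (Q : ℤ) ∣ E i - y → E i - y = Q * k i := fun i hi =>
    (Int.mul_ediv_cancel' hi).symm
  have hcls : ∀ (P : ℕ) (r : ℤ) (i : ι), (((P * Q : ℕ) : ℤ) ∣ E i - y - r * (Q : ℤ)) ↔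
      ((Q : ℤ) ∣ E i - y ∧ (P : ℤ) ∣ k i - r) := by
    intro P r i
    constructor
    · intro h
      have hQd : (Q : ℤ) ∣ E i - y := by
        have h1 : (Q : ℤ) ∣ E i - y - r * (Q : ℤ) := dvd_trans ⟨(P : ℤ), by push_cast; ring⟩ h
        have h2 := dvd_add h1 (Dvd.intro_left r rfl : (Q : ℤ) ∣ r * Q)
        have e : E i - y - r * (Q : ℤ) + r * Q = E i - y := by ring
        rwa [e] at h2
      refine ⟨hQd, ?_⟩
      rw [hk i hQd] at h
      have e : (Q : ℤ) * k i - r * Q = Q * (k i - r) := by ring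
      rw [e] at h
      push_cast at h
      rw [mul_comm (P : ℤ)] at h
      exact (mul_dvd_mul_iff_left hQz).1 h
    · rintro ⟨hiC, hd⟩
      rw [hk i hiC]
      have e : (Q : ℤ) * k i - r * Q = Q * (k i - r) := by ring
      rw [e]
      push_cast
      rw [mul_comm (P : ℤ)]
      exact (mul_dvd_mul_iff_left hQz).2 hd
  have hcard : ∀ T : Finset (ℕ × ℕ), (∀ t ∈ T, t.1 < p ∧ t.2 < q ∧ a t.1 t.2 ≠ 0) →
      T.card ≤ C.card := by
    intro T hT
    have hch : ∀ t ∈ T, ∃ i ∈ C, (p : ℤ) ∣ k i - t.1 ∧ (q : ℤ) ∣ k i - t.2 := by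
      intro t ht
      obtain ⟨i, hi1, hi2⟩ := h3 t.1 t.2 (hT t ht).2.2
      rw [hcls] at hi1 hi2
      exact ⟨i, (hmemC i).2 hi1.1, hi1.2, hi2.2⟩
    rcases T.eq_empty_or_nonempty with hT0 | ⟨t₀, ht₀⟩
    · rw [hT0]; simp
    have : Nonempty ι := ⟨(hch t₀ ht₀).choose⟩
    choose! f hf1 hf2 using hch
    apply Finset.card_le_card_of_injOn f (fun t ht => Finset.mem_coe.2 (hf1 t (Finset.mem_coe.1 ht)))
    intro t ht t' ht' he
    have g1 := (hf2 t ht)
    have g2 := (hf2 t' ht')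
    rw [← he] at g2
    have e1 := dvd_sub g2.1 g1.1
    have e2 := dvd_sub g2.2 g1.2
    have e1' : (p : ℤ) ∣ (t.1 : ℤ) - t'.1 := by
      have : k (f t) - (t'.1 : ℤ) - (k (f t) - (t.1 : ℤ)) = (t.1 : ℤ) - t'.1 := by ring
      rwa [this] at e1
    have e2' : (q : ℤ) ∣ (t.2 : ℤ) - t'.2 := by
      have : k (f t) - (t'.2 : ℤ) - (k (f t) - (t.2 : ℤ)) = (t.2 : ℤ) - t'.2 := by ring
      rwa [this] at e2
    apply Prod.ext
    · exact range_eq p _ _ (hT t ht).1 (hT t' ht').1 e1'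
    · exact range_eq q _ _ (hT t ht).2.1 (hT t' ht').2.1 e2'
  obtain ⟨hge, r0, s0, k1, k2, k3⟩ := table p q C.card hp.pos hq5 a h1 h2 (h5 hFp) (h6 hFq)
    hcard hn1 hn2
  refine ⟨hge, r0, s0, ?_, ?_, ?_⟩
  · intro r hr
    exact h3 r s0 (k1 r hr)
  · intro s hs
    exact h3 r0 s (k2 s hs)
  · intro i hi hi1 hi2
    have e1 : ¬ (p : ℤ) ∣ k i - r0 := fun h => hi1 ((hcls p r0 i).2 ⟨hi, h⟩)
    have e2 : ¬ (q : ℤ) ∣ k i - s0 := fun h => hi2 ((hcls q s0 i).2 ⟨hi, h⟩)
    have hz := k3 (k i) (k i) e1 e2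
    have hent := h4 (k i) (k i) i ⟨(hcls p (k i) i).2 ⟨hi, by simp⟩, (hcls q (k i) i).2 ⟨hi, by simp⟩⟩
    by_contra hcon
    push Not at hcon
    apply hent _ hz
    intro j hj
    by_contra hji
    apply hcon j hji
    obtain ⟨d1, d2⟩ := hj
    have f1 : ((p * Q : ℕ) : ℤ) ∣ E j - E i := by
      have : E j - y - k i * (Q : ℤ) = E j - E i := by
        have := hk i hi
        linear_combination this
      rwa [this] at d1
    have f2 : ((q * Q : ℕ) : ℤ) ∣ E j - E i := by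
      have : E j - y - k i * (Q : ℤ) = E j - E i := by
        have := hk i hi
        linear_combination this
      rwa [this] at d2
    obtain ⟨u1, hu1⟩ := f1
    obtain ⟨u2, hu2⟩ := f2
    have hcop : IsCoprime (p : ℤ) (q : ℤ) :=
      Nat.isCoprime_iff_coprime.2 ((Nat.coprime_primes hp hq).2 hqp.ne')
    have hq' : (p : ℤ) * u1 = q * u2 := by
      apply mul_left_cancel₀ hQz
      push_cast at hu1 hu2
      linear_combination hu2 - hu1
    have hd : (q : ℤ) ∣ u1 := hcop.symm.dvd_of_dvd_mul_left ⟨u2, hq'⟩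
    obtain ⟨u3, hu3⟩ := hd
    refine ⟨-u3, ?_⟩
    rw [hu3] at hu1
    push_cast at hu1 ⊢
    linear_combination -hu1

end Pool.Agent.T6.H31.TC
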