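import Pool.Agent.T6.H31.TC.INV

set_option autoImplicit false

/-!
Module CT of the project TC (MP_6e4ab6_nt): a common element reduces the equation to the
two-sine equation.
-/

namespace Pool.Agent.T6.H31.TC

open Finset INVx

theorem invp (σ : Equiv.Perm (Fin 6)) (j : Fin 6) : σ⁻¹ (σ j) = j := Equiv.symm_apply_apply σ j

/-- common element: the two-sine equation decides -/
theorem ct (m2 : StmtM2) (_hi : StmtI2) : StmtCT := by
  intro y hq hnz hsol hcomm
  obtain ⟨i, j, hi, hj, hij⟩ := hcomm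
  obtain ⟨σ, hσ, hσi, hσj⟩ : ∃ σ : Equiv.Perm (Fin 6), Blk σ ∧ σ i = 0 ∧ σ j = 3 := by
    fin_cases i <;> fin_cases j <;> first
      | (exfalso; revert hi; decide)
      | (exfalso; revert hj; decide)
      | exact ⟨1, Or.inl (by decide), by decide, by decide⟩
      | exact ⟨Equiv.swap 0 1, Or.inl (by decide), by decide, by decide⟩
      | exact ⟨Equiv.swap 0 2, Or.inl (by decide), by decide, by decide⟩
      | exact ⟨Equiv.swap 3 4, Or.inl (by decide), by decide, by decide⟩
      | exact ⟨Equiv.swap 3 5, Or.inl (by decide), by decide, by decide⟩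
      | exact ⟨Equiv.swap 0 1 * Equiv.swap 3 4, Or.inl (by decide), by decide, by decide⟩
      | exact ⟨Equiv.swap 0 1 * Equiv.swap 3 5, Or.inl (by decide), by decide, by decide⟩
      | exact ⟨Equiv.swap 0 2 * Equiv.swap 3 4, Or.inl (by decide), by decide, by decide⟩
      | exact ⟨Equiv.swap 0 2 * Equiv.swap 3 5, Or.inl (by decide), by decide, by decide⟩
  obtain ⟨z, hz⟩ : ∃ z : Fin 6 → ℝ, z = fun k => y (σ⁻¹ k) := ⟨_, rfl⟩
  have hyz : Match y z := by
    refine ⟨σ, hσ, fun k => eqv_of_eq ?_⟩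
    rw [hz]
    show y k = y (σ⁻¹ (σ k))
    rw [invp]
  have hz0 : z 0 = y i := by
    rw [hz]
    show y (σ⁻¹ 0) = y i
    rw [← hσi, invp]
  have hz3 : z 3 = y j := by
    rw [hz]
    show y (σ⁻¹ 3) = y j
    rw [← hσj, invp]
  have hzsol : SolY z := SolY_of_Match (Match_symm hyz) hsol
  have hznz : NZ z := NZ_of_Match (Match_symm hyz) hnz
  have h03 : eqv (z 0) (z 3) := by rw [hz0, hz3]; exact hij
  obtain ⟨w, hw⟩ : ∃ w : Fin 4 → ℝ, w = ![z 1, z 2, z 4, z 5] := ⟨_, rfl⟩
  have hwq : ∀ k, ∃ q : ℚ, w k = q := by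
    intro k
    rw [hw, hz]
    fin_cases k
    · exact hq _
    · exact hq _
    · exact hq _
    · exact hq _
  have hwnz : NZ4 w := by
    intro k
    rw [hw]
    fin_cases k
    · exact hznz 1
    · exact hznz 2
    · exact hznz 4
    · exact hznz 5
  have hwsol : SolY4 w := by
    rw [SolY, abs_mul, abs_mul, abs_mul, abs_mul, eqv_abs h03] at hzsol
    have h3 : |Real.sin (Real.pi * z 3)| ≠ 0 := abs_ne_zero.2 (hznz 3)
    rw [hw]
    show |Real.sin (Real.pi * z 1) * Real.sin (Real.pi * z 2)| =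
      |Real.sin (Real.pi * z 4) * Real.sin (Real.pi * z 5)|
    rw [abs_mul, abs_mul]
    apply mul_left_cancel₀ h3
    rw [← mul_assoc, ← mul_assoc]
    exact hzsol
  refine Or.inl ⟨z 0, w, m2 w hwq hwnz hwsol, Match_trans hyz (Match_of_eqv fun k => ?_)⟩
  rw [hw]
  fin_cases k
  · exact eqv_refl _
  · exact eqv_refl _
  · exact eqv_refl _
  · exact eqv_symm h03
  · exact eqv_refl _
  · exact eqv_refl _

end Pool.Agent.T6.H31.TC
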