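import Pool.Agent.T6.H31.TC.Stmts

set_option autoImplicit false

/-! The combinatorial classification in dimension four (module DAG4). -/

namespace Pool.Agent.T6.H31.TC

namespace D4

open Finset

/-- the block permutations -/
def sg (k : ℕ) : Equiv.Perm (Fin 4) :=
  (if k % 2 = 1 then Equiv.swap 0 1 else 1) * (if (k / 2) % 2 = 1 then Equiv.swap 2 3 else 1) *
    (if (k / 4) % 2 = 1 then (Equiv.swap 0 2 * Equiv.swap 1 3) else 1)

def ep (k : ℕ) (i : Fin 4) : ℤ := if (k / 2 ^ i.val) % 2 = 1 then -1 else 1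

/-- the images of the directions, with the permutation, the signs, the index of the direction
and the table of the eight values (plus 4) -/
def recs : List (List ℤ × ℕ × ℕ × ℕ × List ℕ) := [
  ([1, 1, 1, 1], 0, 0, 0, [6, 4, 4, 2, 6, 4, 4, 2]),
  ([-1, 1, 1, 1], 0, 1, 0, [4, 6, 2, 4, 6, 4, 4, 2]),
  ([1, -1, 1, 1], 0, 2, 0, [4, 2, 6, 4, 6, 4, 4, 2]),
  ([-1, -1, 1, 1], 0, 3, 0, [2, 4, 4, 6, 6, 4, 4, 2]),
  ([1, 1, -1, 1], 0, 4, 0, [6, 4, 4, 2, 4, 6, 2, 4]),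
  ([-1, 1, -1, 1], 0, 5, 0, [4, 6, 2, 4, 4, 6, 2, 4]),
  ([1, -1, -1, 1], 0, 6, 0, [4, 2, 6, 4, 4, 6, 2, 4]),
  ([-1, -1, -1, 1], 0, 7, 0, [2, 4, 4, 6, 4, 6, 2, 4]),
  ([1, 1, 2, 0], 0, 0, 1, [6, 4, 4, 2, 6, 2, 6, 2]),
  ([-1, 1, 2, 0], 0, 1, 1, [4, 6, 2, 4, 6, 2, 6, 2]),
  ([1, -1, 2, 0], 0, 2, 1, [4, 2, 6, 4, 6, 2, 6, 2]),
  ([-1, -1, 2, 0], 0, 3, 1, [2, 4, 4, 6, 6, 2, 6, 2]),
  ([1, 1, 0, 2], 2, 0, 1, [6, 4, 4, 2, 6, 6, 2, 2]),
  ([-1, 1, 0, 2], 2, 1, 1, [4, 6, 2, 4, 6, 6, 2, 2]),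
  ([1, -1, 0, 2], 2, 2, 1, [4, 2, 6, 4, 6, 6, 2, 2]),
  ([-1, -1, 0, 2], 2, 3, 1, [2, 4, 4, 6, 6, 6, 2, 2]),
  ([2, 0, 1, 1], 4, 0, 1, [6, 2, 6, 2, 6, 4, 4, 2]),
  ([2, 0, -1, 1], 4, 1, 1, [6, 2, 6, 2, 4, 6, 2, 4]),
  ([2, 0, 1, -1], 4, 2, 1, [6, 2, 6, 2, 4, 2, 6, 4]),
  ([2, 0, -1, -1], 4, 3, 1, [6, 2, 6, 2, 2, 4, 4, 6]),
  ([0, 2, 1, 1], 5, 0, 1, [6, 6, 2, 2, 6, 4, 4, 2]),
  ([0, 2, -1, 1], 5, 1, 1, [6, 6, 2, 2, 4, 6, 2, 4]),
  ([0, 2, 1, -1], 5, 2, 1, [6, 6, 2, 2, 4, 2, 6, 4]),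
  ([0, 2, -1, -1], 5, 3, 1, [6, 6, 2, 2, 2, 4, 4, 6]),
  ([1, 0, 1, 0], 0, 0, 2, [5, 3, 5, 3, 5, 3, 5, 3]),
  ([-1, 0, 1, 0], 0, 1, 2, [3, 5, 3, 5, 5, 3, 5, 3]),
  ([0, 1, 1, 0], 1, 0, 2, [5, 5, 3, 3, 5, 3, 5, 3]),
  ([0, -1, 1, 0], 1, 1, 2, [3, 3, 5, 5, 5, 3, 5, 3]),
  ([1, 0, 0, 1], 2, 0, 2, [5, 3, 5, 3, 5, 5, 3, 3]),
  ([-1, 0, 0, 1], 2, 1, 2, [3, 5, 3, 5, 5, 5, 3, 3]),
  ([0, 1, 0, 1], 3, 0, 2, [5, 5, 3, 3, 5, 5, 3, 3]),
  ([0, -1, 0, 1], 3, 1, 2, [3, 3, 5, 5, 5, 5, 3, 3]),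
  ([1, 0, 0, 0], 0, 0, 3, [5, 3, 5, 3, 4, 4, 4, 4]),
  ([0, 1, 0, 0], 1, 0, 3, [5, 5, 3, 3, 4, 4, 4, 4]),
  ([0, 0, 1, 0], 4, 0, 3, [4, 4, 4, 4, 5, 3, 5, 3]),
  ([0, 0, 0, 1], 6, 0, 3, [4, 4, 4, 4, 5, 5, 3, 3])]

def labs : ℕ → List (List ℕ)
  | 0 => [[]]
  | n + 1 => (labs n).flatMap (fun l =>
      ((List.range n).filter (fun k => l.getD k 0 == k)).map (fun k => l ++ [k]) ++ [l ++ [n]])

/-- the negation on indices -/
def ng (m : ℕ) : ℕ := m ^^^ 3

def invOK (l : List ℕ) : Bool :=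
  (List.range 8).all (fun m => l.getD (ng m) 0 == l.getD (ng (l.getD m 0)) 0)

def nosOK (l : List ℕ) : Bool :=
  (List.range 8).all (fun m => (List.range 8).any (fun n => n != m && l.getD n 0 == l.getD m 0))

def linOK (l : List ℕ) : Bool :=
  recs.any (fun r => (List.range 8).all (fun m =>
    r.2.2.2.2.getD m 0 == r.2.2.2.2.getD (l.getD m 0) 0))

def redOK (l : List ℕ) : Bool :=
  l.getD 0 0 == l.getD 3 0 && l.getD 1 0 == l.getD 2 0 && l.getD 4 0 == l.getD 7 0 &&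
  l.getD 5 0 == l.getD 6 0 &&
  (List.range 8).all (fun m => Nat.ble ((List.range 8).countP (fun n => l.getD n 0 == l.getD m 0)) 6)

def oneOK (l : List ℕ) : Bool := (List.range 8).all (fun m => l.getD m 0 == 0)

def good (l : List ℕ) : Bool := !(invOK l) || !(nosOK l) || linOK l || redOK l || oneOK l

theorem all_good : (labs 8).all good = true := by decide +kernel

theorem sg_blk : ∀ k < 8, Blk4 (sg k) := by
  unfold Blk4
  decide +kernel

theorem ep_sgn : ∀ k < 16, ∀ i : Fin 4, ep k i = 1 ∨ ep k i = -1 := by decide +kernel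

theorem act : ∀ k1 < 8, ∀ k2 < 16, ∀ m : Fin 8, ∃ n : Fin 8, ∀ i : Fin 4,
    V4 n (sg k1 i) = V4 m i * ep k2 i := by decide +kernel

theorem recs_ok : ∀ r ∈ recs, r.2.1 < 8 ∧ r.2.2.1 < 16 ∧ r.2.2.2.1 < 4 ∧
    (∀ i : Fin 4, lvec4 (W4l.getD r.2.2.2.1 []) i = ep r.2.2.1 i * lvec4 r.1 (sg r.2.1 i)) ∧
    (∀ m : Fin 8, (r.2.2.2.2.getD m.val 0 : ℤ) = dot4 (V4 m) (lvec4 r.1) + 4) := by decide +kernel

section sound

variable (Q : ℤ) (e : Fin 4 → ℤ)

def F (m : ℕ) : ℤ := dot4 (V4 ⟨m % 8, Nat.mod_lt _ (by norm_num)⟩) e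

def T (m n : ℕ) : Prop := Q ∣ F e m - F e n

theorem T_refl (m : ℕ) : T Q e m m := by simp [T]

theorem T_symm {m n : ℕ} (h : T Q e m n) : T Q e n m := by
  unfold T at *
  have := (dvd_neg (a := Q) (b := F e m - F e n)).mpr h
  rwa [neg_sub] at this

theorem T_trans {m n k : ℕ} (h : T Q e m n) (h' : T Q e n k) : T Q e m k := by
  unfold T at *
  have := dvd_add h h'
  rwa [sub_add_sub_cancel] at this

open Classical in
noncomputable def L (m : ℕ) : ℕ := Nat.find (⟨m, T_refl Q e m⟩ : ∃ n, T Q e n m)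

theorem L_spec (m : ℕ) : T Q e (L Q e m) m := by
  classical
  unfold L
  exact Nat.find_spec (⟨m, T_refl Q e m⟩ : ∃ n, T Q e n m)

theorem L_le (m : ℕ) : L Q e m ≤ m := by
  classical
  unfold L
  exact Nat.find_min' _ (T_refl Q e m)

theorem L_eq {m n : ℕ} (h : T Q e m n) : L Q e m = L Q e n := by
  classical
  apply le_antisymm
  · unfold L
    exact Nat.find_min' _ (T_trans Q e (Nat.find_spec (⟨n, T_refl Q e n⟩ : ∃ k, T Q e k n)) (T_symm Q e h))
  · unfold L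
    exact Nat.find_min' _ (T_trans Q e (Nat.find_spec (⟨m, T_refl Q e m⟩ : ∃ k, T Q e k m)) h)

theorem L_iff (m n : ℕ) : L Q e m = L Q e n ↔ T Q e m n := by
  constructor
  · intro h
    have h1 := L_spec Q e m
    rw [h] at h1
    exact T_trans Q e (T_symm Q e h1) (L_spec Q e n)
  · exact L_eq Q e

theorem L_L (m : ℕ) : L Q e (L Q e m) = L Q e m := L_eq Q e (L_spec Q e m)

theorem getD_map_range {n k : ℕ} (h : k < n) (f : ℕ → ℕ) :
    ((List.range n).map f).getD k 0 = f k := by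
  simp [List.getD, h]

theorem mem_labs (n : ℕ) : (List.range n).map (L Q e) ∈ labs n := by
  induction n with
  | zero => simp [labs]
  | succ n ih =>
    unfold labs
    rw [List.mem_flatMap]
    refine ⟨_, ih, ?_⟩
    rw [List.range_succ, List.map_append, List.map_singleton, List.mem_append]
    rcases Nat.lt_or_ge (L Q e n) n with h | h
    · left
      rw [List.mem_map]
      refine ⟨L Q e n, ?_, rfl⟩
      rw [List.mem_filter, List.mem_range]
      refine ⟨h, ?_⟩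
      rw [getD_map_range h, L_L]
      simp
    · right
      have : L Q e n = n := le_antisymm (L_le Q e n) h
      rw [this]
      simp

theorem F_ng (m : ℕ) (h : m < 8) : F e (ng m) = - F e m := by
  interval_cases m <;> simp [F, ng, dot4, V4, Fin.sum_univ_four] <;> ring

theorem F_fin (m : Fin 8) : F e m.val = dot4 (V4 m) e := by
  unfold F
  congr 2
  exact Fin.ext (Nat.mod_eq_of_lt m.isLt)

theorem T_fin (m n : Fin 8) : T Q e m.val n.val ↔ Q ∣ dv4 m n e := by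
  unfold T dv4
  rw [F_fin, F_fin]

theorem ng_lt {m : ℕ} (h : m < 8) : ng m < 8 := by
  interval_cases m <;> decide

noncomputable def LL : List ℕ := (List.range 8).map (L Q e)

theorem LL_get {m : ℕ} (h : m < 8) : (LL Q e).getD m 0 = L Q e m := getD_map_range h _

theorem inv_ok : invOK (LL Q e) = true := by
  unfold invOK
  rw [List.all_eq_true]
  intro m hm
  have hm' : m < 8 := List.mem_range.mp hm
  have h1 : L Q e m < 8 := lt_of_le_of_lt (L_le Q e m) hm'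
  rw [LL_get Q e hm', LL_get Q e (ng_lt hm'), LL_get Q e (ng_lt h1), beq_iff_eq]
  apply L_eq
  unfold T
  rw [F_ng e m hm', F_ng e _ h1]
  have := L_spec Q e m
  unfold T at this
  have e1 : - F e m - - F e (L Q e m) = F e (L Q e m) - F e m := by ring
  rw [e1]
  exact this

theorem nos_ok (h : NoSingle4 Q e) : nosOK (LL Q e) = true := by
  unfold nosOK
  rw [List.all_eq_true]
  intro m hm
  have hm' : m < 8 := List.mem_range.mp hm
  obtain ⟨n, hn, hd⟩ := h ⟨m, hm'⟩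
  rw [List.any_eq_true]
  refine ⟨n.val, List.mem_range.mpr n.isLt, ?_⟩
  rw [LL_get Q e hm', LL_get Q e n.isLt, Bool.and_eq_true]
  constructor
  · simp only [bne_iff_ne, ne_eq]
    intro h2
    exact hn (Fin.ext h2)
  · rw [beq_iff_eq]
    apply L_eq
    apply T_symm
    exact (T_fin Q e ⟨m, hm'⟩ n).mpr hd

theorem rel_refl : Rel4 e e :=
  ⟨1, fun _ => 1, Or.inl (fun i => by simp), fun i => Or.inl rfl, fun i => by simp⟩

theorem dot_act {k1 k2 : ℕ} (m n : Fin 8)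
    (h : ∀ i : Fin 4, V4 n (sg k1 i) = V4 m i * ep k2 i) (v : Fin 4 → ℤ) :
    dot4 (V4 m) (fun i => ep k2 i * v (sg k1 i)) = dot4 (V4 n) v := by
  unfold dot4
  rw [← Equiv.sum_comp (sg k1) (fun i => V4 n i * v i)]
  apply Finset.sum_congr rfl
  intro i _
  rw [h i]
  ring

theorem lin_case (h : linOK (LL Q e) = true) : ∃ e', Rel4 e e' ∧ Goal4 Q e' := by
  unfold linOK at h
  rw [List.any_eq_true] at h
  obtain ⟨r, hr, h⟩ := h
  rw [List.all_eq_true] at h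
  obtain ⟨h1, h2, h3, h4, h5⟩ := recs_ok r hr
  refine ⟨fun i => ep r.2.2.1 i * e (sg r.2.1 i),
    ⟨sg r.2.1, ep r.2.2.1, sg_blk _ h1, ep_sgn _ h2, fun i => rfl⟩, Or.inl ?_⟩
  refine ⟨W4l.getD r.2.2.2.1 [], ?_, ?_⟩
  · have h6 : r.2.2.2.1 < W4l.length := h3
    rw [List.getD_eq_getElem _ _ h6]
    exact List.getElem_mem h6
  · have hval : ∀ m n : Fin 8, Q ∣ dv4 m n e → dv4 m n (lvec4 r.1) = 0 := by
      intro m n hd
      have ht : ∀ m : Fin 8, r.2.2.2.2.getD m.val 0 = r.2.2.2.2.getD (L Q e m.val) 0 := by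
        intro m
        have := h m.val (List.mem_range.mpr m.isLt)
        rw [beq_iff_eq, LL_get Q e m.isLt] at this
        exact this
      have hL : L Q e m.val = L Q e n.val := L_eq Q e ((T_fin Q e m n).mpr hd)
      have h6 : r.2.2.2.2.getD m.val 0 = r.2.2.2.2.getD n.val 0 := by
        rw [ht m, ht n, hL]
      have h7 : (r.2.2.2.2.getD m.val 0 : ℤ) = (r.2.2.2.2.getD n.val 0 : ℤ) := by
        exact_mod_cast h6
      rw [h5 m, h5 n] at h7
      unfold dv4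
      linarith
    intro m n hd
    obtain ⟨m', hm'⟩ := act r.2.1 h1 r.2.2.1 h2 m
    obtain ⟨n', hn'⟩ := act r.2.1 h1 r.2.2.1 h2 n
    have e1 := hval m' n'
    have e2 : lvec4 (W4l.getD r.2.2.2.1 []) =
        fun i => ep r.2.2.1 i * lvec4 r.1 (sg r.2.1 i) := funext h4
    unfold dv4 at hd e1 ⊢
    rw [dot_act m m' hm', dot_act n n' hn'] at hd
    rw [e2, dot_act m m' hm', dot_act n n' hn']
    exact e1 hd

theorem L0 {m n : ℕ} (hm : m < 8) (hn : n < 8)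
    (h : ((LL Q e).getD m 0 == (LL Q e).getD n 0) = true) : T Q e m n := by
  rw [beq_iff_eq, LL_get Q e hm, LL_get Q e hn] at h
  exact (L_iff Q e m n).mp h

theorem card_cnt (p : ℕ → Bool) :
    (univ.filter (fun n : Fin 8 => p n.val = true)).card = (List.range 8).countP p := by
  rw [Finset.card_filter, Fin.sum_univ_eight]
  simp only [List.range, List.range.loop, List.countP_cons, List.countP_nil]
  simp only [Fin.val_zero, Fin.val_one, Fin.val_two, Fin.reduceFinMk, zero_add, Fin.isValue,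
    show ((3 : Fin 8) : ℕ) = 3 from rfl, show ((4 : Fin 8) : ℕ) = 4 from rfl,
    show ((5 : Fin 8) : ℕ) = 5 from rfl, show ((6 : Fin 8) : ℕ) = 6 from rfl,
    show ((7 : Fin 8) : ℕ) = 7 from rfl]
  ring

theorem red_case (h : redOK (LL Q e) = true) : ∃ e', Rel4 e e' ∧ Goal4 Q e' := by
  unfold redOK at h
  simp only [Bool.and_eq_true] at h
  obtain ⟨⟨⟨⟨h1, h2⟩, h3⟩, h4⟩, h5⟩ := h
  refine ⟨e, rel_refl e, Or.inr (Or.inl ⟨?_, ?_⟩)⟩
  · have a1 := L0 Q e (by norm_num) (by norm_num) h1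
    have a2 := L0 Q e (by norm_num) (by norm_num) h2
    have a3 := L0 Q e (by norm_num) (by norm_num) h3
    have a4 := L0 Q e (by norm_num) (by norm_num) h4
    simp [T, F, dot4, V4, Fin.sum_univ_four] at a1 a2 a3 a4
    intro i
    fin_cases i
    · obtain ⟨k, hk⟩ := dvd_sub a1 a2
      refine ⟨k, ?_⟩
      simp only [Fin.zero_eta]
      linarith
    · obtain ⟨k, hk⟩ := dvd_add a1 a2
      refine ⟨k, ?_⟩
      simp only [Fin.mk_one]
      linarith
    · obtain ⟨k, hk⟩ := dvd_sub a3 a4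
      refine ⟨k, ?_⟩
      simp only [Fin.reduceFinMk]
      linarith
    · obtain ⟨k, hk⟩ := dvd_add a3 a4
      refine ⟨k, ?_⟩
      simp only [Fin.reduceFinMk]
      linarith
  · intro m
    rw [List.all_eq_true] at h5
    have h6 := h5 m.val (List.mem_range.mpr m.isLt)
    have h7 := Nat.le_of_ble_eq_true h6
    refine le_trans (le_of_eq ?_) h7
    have : (univ.filter (fun n : Fin 8 => Q ∣ dv4 m n e)) =
        univ.filter (fun n : Fin 8 => ((LL Q e).getD n.val 0 == (LL Q e).getD m.val 0) = true) := by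
      ext n
      simp only [mem_filter, mem_univ, true_and]
      rw [beq_iff_eq, LL_get Q e n.isLt, LL_get Q e m.isLt, L_iff, ← T_fin]
      exact ⟨T_symm Q e, T_symm Q e⟩
    rw [this]
    exact card_cnt (fun k => (LL Q e).getD k 0 == (LL Q e).getD m.val 0)

end sound

theorem dag4' : StmtDAG4 := by
  intro Q e h
  have h1 := all_good
  rw [List.all_eq_true] at h1
  have h2 := h1 _ (mem_labs Q e 8)
  change good (LL Q e) = true at h2
  unfold good at h2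
  rw [inv_ok, nos_ok Q e h] at h2
  simp only [Bool.not_true, Bool.false_or, Bool.or_eq_true] at h2
  rcases h2 with (h2 | h2) | h2
  · exact lin_case Q e h2
  · exact red_case Q e h2
  · refine ⟨e, rel_refl e, Or.inr (Or.inr ?_)⟩
    unfold oneOK at h2
    rw [List.all_eq_true] at h2
    have h3 : ∀ m n : Fin 8, Q ∣ dv4 m n e := by
      intro m n
      rw [← T_fin, ← L_iff]
      have e1 := h2 m.val (List.mem_range.mpr m.isLt)
      have e2 := h2 n.val (List.mem_range.mpr n.isLt)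
      rw [beq_iff_eq, LL_get Q e m.isLt] at e1
      rw [beq_iff_eq, LL_get Q e n.isLt] at e2
      rw [e1, e2]
    refine ⟨?_, h3⟩
    have a1 := h3 0 1
    have a2 := h3 0 2
    have a3 := h3 4 5
    have a4 := h3 4 6
    simp [dv4, dot4, V4, Fin.sum_univ_four] at a1 a2 a3 a4
    intro i
    fin_cases i
    · obtain ⟨k, hk⟩ := a1
      refine ⟨k, ?_⟩
      simp only [Fin.zero_eta]
      linarith
    · obtain ⟨k, hk⟩ := a2
      refine ⟨k, ?_⟩
      simp only [Fin.mk_one]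
      linarith
    · obtain ⟨k, hk⟩ := a3
      refine ⟨k, ?_⟩
      simp only [Fin.reduceFinMk]
      linarith
    · obtain ⟨k, hk⟩ := a4
      refine ⟨k, ?_⟩
      simp only [Fin.reduceFinMk]
      linarith

end D4

theorem dag4 : StmtDAG4 := D4.dag4'

end Pool.Agent.T6.H31.TC
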