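import Pool.Agent.T6.H31.TC.DagChk

set_option autoImplicit false
set_option maxRecDepth 100000

namespace Pool.Agent.T6.H31.TC.Dag

theorem n0 : chkNode 0 = true := by decide +kernel
theorem n1 : chkNode 1 = true := by decide +kernel
theorem n2 : chkNode 2 = true := by decide +kernel
theorem n3 : chkNode 3 = true := by decide +kernel
theorem n4 : chkNode 4 = true := by decide +kernel
theorem n5 : chkNode 5 = true := by decide +kernel
theorem n6 : chkNode 6 = true := by decide +kernel
theorem n7 : chkNode 7 = true := by decide +kernel
theorem n8 : chkNode 8 = true := by decide +kernel
theorem n9 : chkNode 9 = true := by decide +kernel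
theorem n10 : chkNode 10 = true := by decide +kernel
theorem n11 : chkNode 11 = true := by decide +kernel
theorem n12 : chkNode 12 = true := by decide +kernel
theorem n13 : chkNode 13 = true := by decide +kernel
theorem n14 : chkNode 14 = true := by decide +kernel
theorem n15 : chkNode 15 = true := by decide +kernel
theorem n16 : chkNode 16 = true := by decide +kernel
theorem n17 : chkNode 17 = true := by decide +kernel
theorem n18 : chkNode 18 = true := by decide +kernel
theorem n19 : chkNode 19 = true := by decide +kernel
theorem n20 : chkNode 20 = true := by decide +kernel
theorem n21 : chkNode 21 = true := by decide +kernel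
theorem n22 : chkNode 22 = true := by decide +kernel
theorem n23 : chkNode 23 = true := by decide +kernel
theorem n24 : chkNode 24 = true := by decide +kernel
theorem n25 : chkNode 25 = true := by decide +kernel
theorem n26 : chkNode 26 = true := by decide +kernel
theorem n27 : chkNode 27 = true := by decide +kernel
theorem n28 : chkNode 28 = true := by decide +kernel
theorem n29 : chkNode 29 = true := by decide +kernel
theorem n30 : chkNode 30 = true := by decide +kernel
theorem n31 : chkNode 31 = true := by decide +kernel
theorem n32 : chkNode 32 = true := by decide +kernel
theorem n33 : chkNode 33 = true := by decide +kernel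
theorem n34 : chkNode 34 = true := by decide +kernel
theorem n35 : chkNode 35 = true := by decide +kernel
theorem n36 : chkNode 36 = true := by decide +kernel
theorem n37 : chkNode 37 = true := by decide +kernel
theorem n38 : chkNode 38 = true := by decide +kernel
theorem n39 : chkNode 39 = true := by decide +kernel
theorem n40 : chkNode 40 = true := by decide +kernel
theorem n41 : chkNode 41 = true := by decide +kernel
theorem n42 : chkNode 42 = true := by decide +kernel
theorem n43 : chkNode 43 = true := by decide +kernel
theorem n44 : chkNode 44 = true := by decide +kernel
theorem n45 : chkNode 45 = true := by decide +kernel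
theorem n46 : chkNode 46 = true := by decide +kernel
theorem n47 : chkNode 47 = true := by decide +kernel
theorem n48 : chkNode 48 = true := by decide +kernel
theorem n49 : chkNode 49 = true := by decide +kernel
theorem n50 : chkNode 50 = true := by decide +kernel
theorem n51 : chkNode 51 = true := by decide +kernel
theorem n52 : chkNode 52 = true := by decide +kernel
theorem n53 : chkNode 53 = true := by decide +kernel
theorem n54 : chkNode 54 = true := by decide +kernel
theorem n55 : chkNode 55 = true := by decide +kernel
theorem n56 : chkNode 56 = true := by decide +kernel
theorem n57 : chkNode 57 = true := by decide +kernel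
theorem n58 : chkNode 58 = true := by decide +kernel
theorem n59 : chkNode 59 = true := by decide +kernel
theorem n60 : chkNode 60 = true := by decide +kernel
theorem n61 : chkNode 61 = true := by decide +kernel
theorem n62 : chkNode 62 = true := by decide +kernel
theorem n63 : chkNode 63 = true := by decide +kernel
theorem n64 : chkNode 64 = true := by decide +kernel
theorem n65 : chkNode 65 = true := by decide +kernel
theorem n66 : chkNode 66 = true := by decide +kernel
theorem n67 : chkNode 67 = true := by decide +kernel
theorem n68 : chkNode 68 = true := by decide +kernel
theorem n69 : chkNode 69 = true := by decide +kernel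
theorem n70 : chkNode 70 = true := by decide +kernel
theorem n71 : chkNode 71 = true := by decide +kernel

theorem chunk0 : ∀ i, 0 ≤ i → i < 72 → chkNode i = true := by
  intro i h1 h2
  interval_cases i
  · exact n0
  · exact n1
  · exact n2
  · exact n3
  · exact n4
  · exact n5
  · exact n6
  · exact n7
  · exact n8
  · exact n9
  · exact n10
  · exact n11
  · exact n12
  · exact n13
  · exact n14
  · exact n15
  · exact n16
  · exact n17
  · exact n18
  · exact n19
  · exact n20
  · exact n21
  · exact n22
  · exact n23
  · exact n24
  · exact n25
  · exact n26
  · exact n27
  · exact n28
  · exact n29
  · exact n30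
  · exact n31
  · exact n32
  · exact n33
  · exact n34
  · exact n35
  · exact n36
  · exact n37
  · exact n38
  · exact n39
  · exact n40
  · exact n41
  · exact n42
  · exact n43
  · exact n44
  · exact n45
  · exact n46
  · exact n47
  · exact n48
  · exact n49
  · exact n50
  · exact n51
  · exact n52
  · exact n53
  · exact n54
  · exact n55
  · exact n56
  · exact n57
  · exact n58
  · exact n59
  · exact n60
  · exact n61
  · exact n62
  · exact n63
  · exact n64
  · exact n65
  · exact n66
  · exact n67
  · exact n68
  · exact n69
  · exact n70
  · exact n71

end Pool.Agent.T6.H31.TC.Dag
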