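import Pool.Agent.T6.H31.TC.DagChk

set_option autoImplicit false
set_option maxRecDepth 100000

namespace Pool.Agent.T6.H31.TC.Dag

theorem n72 : chkNode 72 = true := by decide +kernel
theorem n73 : chkNode 73 = true := by decide +kernel
theorem n74 : chkNode 74 = true := by decide +kernel
theorem n75 : chkNode 75 = true := by decide +kernel
theorem n76 : chkNode 76 = true := by decide +kernel
theorem n77 : chkNode 77 = true := by decide +kernel
theorem n78 : chkNode 78 = true := by decide +kernel
theorem n79 : chkNode 79 = true := by decide +kernel
theorem n80 : chkNode 80 = true := by decide +kernel
theorem n81 : chkNode 81 = true := by decide +kernel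
theorem n82 : chkNode 82 = true := by decide +kernel
theorem n83 : chkNode 83 = true := by decide +kernel
theorem n84 : chkNode 84 = true := by decide +kernel
theorem n85 : chkNode 85 = true := by decide +kernel
theorem n86 : chkNode 86 = true := by decide +kernel
theorem n87 : chkNode 87 = true := by decide +kernel
theorem n88 : chkNode 88 = true := by decide +kernel
theorem n89 : chkNode 89 = true := by decide +kernel
theorem n90 : chkNode 90 = true := by decide +kernel
theorem n91 : chkNode 91 = true := by decide +kernel
theorem n92 : chkNode 92 = true := by decide +kernel
theorem n93 : chkNode 93 = true := by decide +kernel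
theorem n94 : chkNode 94 = true := by decide +kernel
theorem n95 : chkNode 95 = true := by decide +kernel
theorem n96 : chkNode 96 = true := by decide +kernel
theorem n97 : chkNode 97 = true := by decide +kernel
theorem n98 : chkNode 98 = true := by decide +kernel
theorem n99 : chkNode 99 = true := by decide +kernel
theorem n100 : chkNode 100 = true := by decide +kernel
theorem n101 : chkNode 101 = true := by decide +kernel
theorem n102 : chkNode 102 = true := by decide +kernel
theorem n103 : chkNode 103 = true := by decide +kernel
theorem n104 : chkNode 104 = true := by decide +kernel
theorem n105 : chkNode 105 = true := by decide +kernel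
theorem n106 : chkNode 106 = true := by decide +kernel
theorem n107 : chkNode 107 = true := by decide +kernel
theorem n108 : chkNode 108 = true := by decide +kernel
theorem n109 : chkNode 109 = true := by decide +kernel
theorem n110 : chkNode 110 = true := by decide +kernel
theorem n111 : chkNode 111 = true := by decide +kernel
theorem n112 : chkNode 112 = true := by decide +kernel
theorem n113 : chkNode 113 = true := by decide +kernel
theorem n114 : chkNode 114 = true := by decide +kernel
theorem n115 : chkNode 115 = true := by decide +kernel
theorem n116 : chkNode 116 = true := by decide +kernel
theorem n117 : chkNode 117 = true := by decide +kernel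
theorem n118 : chkNode 118 = true := by decide +kernel
theorem n119 : chkNode 119 = true := by decide +kernel
theorem n120 : chkNode 120 = true := by decide +kernel
theorem n121 : chkNode 121 = true := by decide +kernel
theorem n122 : chkNode 122 = true := by decide +kernel
theorem n123 : chkNode 123 = true := by decide +kernel
theorem n124 : chkNode 124 = true := by decide +kernel
theorem n125 : chkNode 125 = true := by decide +kernel
theorem n126 : chkNode 126 = true := by decide +kernel
theorem n127 : chkNode 127 = true := by decide +kernel
theorem n128 : chkNode 128 = true := by decide +kernel

theorem chunk1 : ∀ i, 72 ≤ i → i < 129 → chkNode i = true := by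
  intro i h1 h2
  interval_cases i
  · exact n72
  · exact n73
  · exact n74
  · exact n75
  · exact n76
  · exact n77
  · exact n78
  · exact n79
  · exact n80
  · exact n81
  · exact n82
  · exact n83
  · exact n84
  · exact n85
  · exact n86
  · exact n87
  · exact n88
  · exact n89
  · exact n90
  · exact n91
  · exact n92
  · exact n93
  · exact n94
  · exact n95
  · exact n96
  · exact n97
  · exact n98
  · exact n99
  · exact n100
  · exact n101
  · exact n102
  · exact n103
  · exact n104
  · exact n105
  · exact n106
  · exact n107
  · exact n108
  · exact n109
  · exact n110
  · exact n111
  · exact n112
  · exact n113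
  · exact n114
  · exact n115
  · exact n116
  · exact n117
  · exact n118
  · exact n119
  · exact n120
  · exact n121
  · exact n122
  · exact n123
  · exact n124
  · exact n125
  · exact n126
  · exact n127
  · exact n128

end Pool.Agent.T6.H31.TC.Dag
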