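import Pool.Agent.T6.H31.TC.DagChk

set_option autoImplicit false
set_option maxRecDepth 100000

namespace Pool.Agent.T6.H31.TC.Dag

theorem n129 : chkNode 129 = true := by decide +kernel
theorem n130 : chkNode 130 = true := by decide +kernel
theorem n131 : chkNode 131 = true := by decide +kernel
theorem n132 : chkNode 132 = true := by decide +kernel
theorem n133 : chkNode 133 = true := by decide +kernel
theorem n134 : chkNode 134 = true := by decide +kernel
theorem n135 : chkNode 135 = true := by decide +kernel
theorem n136 : chkNode 136 = true := by decide +kernel
theorem n137 : chkNode 137 = true := by decide +kernel
theorem n138 : chkNode 138 = true := by decide +kernel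
theorem n139 : chkNode 139 = true := by decide +kernel
theorem n140 : chkNode 140 = true := by decide +kernel
theorem n141 : chkNode 141 = true := by decide +kernel
theorem n142 : chkNode 142 = true := by decide +kernel
theorem n143 : chkNode 143 = true := by decide +kernel
theorem n144 : chkNode 144 = true := by decide +kernel
theorem n145 : chkNode 145 = true := by decide +kernel
theorem n146 : chkNode 146 = true := by decide +kernel
theorem n147 : chkNode 147 = true := by decide +kernel
theorem n148 : chkNode 148 = true := by decide +kernel
theorem n149 : chkNode 149 = true := by decide +kernel
theorem n150 : chkNode 150 = true := by decide +kernel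
theorem n151 : chkNode 151 = true := by decide +kernel
theorem n152 : chkNode 152 = true := by decide +kernel
theorem n153 : chkNode 153 = true := by decide +kernel
theorem n154 : chkNode 154 = true := by decide +kernel
theorem n155 : chkNode 155 = true := by decide +kernel
theorem n156 : chkNode 156 = true := by decide +kernel
theorem n157 : chkNode 157 = true := by decide +kernel
theorem n158 : chkNode 158 = true := by decide +kernel
theorem n159 : chkNode 159 = true := by decide +kernel
theorem n160 : chkNode 160 = true := by decide +kernel
theorem n161 : chkNode 161 = true := by decide +kernel
theorem n162 : chkNode 162 = true := by decide +kernel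
theorem n163 : chkNode 163 = true := by decide +kernel
theorem n164 : chkNode 164 = true := by decide +kernel
theorem n165 : chkNode 165 = true := by decide +kernel
theorem n166 : chkNode 166 = true := by decide +kernel
theorem n167 : chkNode 167 = true := by decide +kernel
theorem n168 : chkNode 168 = true := by decide +kernel
theorem n169 : chkNode 169 = true := by decide +kernel
theorem n170 : chkNode 170 = true := by decide +kernel
theorem n171 : chkNode 171 = true := by decide +kernel
theorem n172 : chkNode 172 = true := by decide +kernel
theorem n173 : chkNode 173 = true := by decide +kernel
theorem n174 : chkNode 174 = true := by decide +kernel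
theorem n175 : chkNode 175 = true := by decide +kernel

theorem chunk2 : ∀ i, 129 ≤ i → i < 176 → chkNode i = true := by
  intro i h1 h2
  interval_cases i
  · exact n129
  · exact n130
  · exact n131
  · exact n132
  · exact n133
  · exact n134
  · exact n135
  · exact n136
  · exact n137
  · exact n138
  · exact n139
  · exact n140
  · exact n141
  · exact n142
  · exact n143
  · exact n144
  · exact n145
  · exact n146
  · exact n147
  · exact n148
  · exact n149
  · exact n150
  · exact n151
  · exact n152
  · exact n153
  · exact n154
  · exact n155
  · exact n156
  · exact n157
  · exact n158
  · exact n159
  · exact n160
  · exact n161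
  · exact n162
  · exact n163
  · exact n164
  · exact n165
  · exact n166
  · exact n167
  · exact n168
  · exact n169
  · exact n170
  · exact n171
  · exact n172
  · exact n173
  · exact n174
  · exact n175

end Pool.Agent.T6.H31.TC.Dag
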