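import Pool.Agent.T6.H31.TC.DagChk

set_option autoImplicit false
set_option maxRecDepth 100000

namespace Pool.Agent.T6.H31.TC.Dag

theorem n176 : chkNode 176 = true := by decide +kernel
theorem n177 : chkNode 177 = true := by decide +kernel
theorem n178 : chkNode 178 = true := by decide +kernel
theorem n179 : chkNode 179 = true := by decide +kernel
theorem n180 : chkNode 180 = true := by decide +kernel
theorem n181 : chkNode 181 = true := by decide +kernel
theorem n182 : chkNode 182 = true := by decide +kernel
theorem n183 : chkNode 183 = true := by decide +kernel
theorem n184 : chkNode 184 = true := by decide +kernel
theorem n185 : chkNode 185 = true := by decide +kernel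
theorem n186 : chkNode 186 = true := by decide +kernel
theorem n187 : chkNode 187 = true := by decide +kernel
theorem n188 : chkNode 188 = true := by decide +kernel
theorem n189 : chkNode 189 = true := by decide +kernel
theorem n190 : chkNode 190 = true := by decide +kernel
theorem n191 : chkNode 191 = true := by decide +kernel
theorem n192 : chkNode 192 = true := by decide +kernel
theorem n193 : chkNode 193 = true := by decide +kernel
theorem n194 : chkNode 194 = true := by decide +kernel
theorem n195 : chkNode 195 = true := by decide +kernel
theorem n196 : chkNode 196 = true := by decide +kernel
theorem n197 : chkNode 197 = true := by decide +kernel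
theorem n198 : chkNode 198 = true := by decide +kernel
theorem n199 : chkNode 199 = true := by decide +kernel
theorem n200 : chkNode 200 = true := by decide +kernel
theorem n201 : chkNode 201 = true := by decide +kernel
theorem n202 : chkNode 202 = true := by decide +kernel
theorem n203 : chkNode 203 = true := by decide +kernel
theorem n204 : chkNode 204 = true := by decide +kernel
theorem n205 : chkNode 205 = true := by decide +kernel
theorem n206 : chkNode 206 = true := by decide +kernel
theorem n207 : chkNode 207 = true := by decide +kernel
theorem n208 : chkNode 208 = true := by decide +kernel
theorem n209 : chkNode 209 = true := by decide +kernel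
theorem n210 : chkNode 210 = true := by decide +kernel
theorem n211 : chkNode 211 = true := by decide +kernel
theorem n212 : chkNode 212 = true := by decide +kernel
theorem n213 : chkNode 213 = true := by decide +kernel

theorem chunk3 : ∀ i, 176 ≤ i → i < 214 → chkNode i = true := by
  intro i h1 h2
  interval_cases i
  · exact n176
  · exact n177
  · exact n178
  · exact n179
  · exact n180
  · exact n181
  · exact n182
  · exact n183
  · exact n184
  · exact n185
  · exact n186
  · exact n187
  · exact n188
  · exact n189
  · exact n190
  · exact n191
  · exact n192
  · exact n193
  · exact n194
  · exact n195
  · exact n196
  · exact n197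
  · exact n198
  · exact n199
  · exact n200
  · exact n201
  · exact n202
  · exact n203
  · exact n204
  · exact n205
  · exact n206
  · exact n207
  · exact n208
  · exact n209
  · exact n210
  · exact n211
  · exact n212
  · exact n213

end Pool.Agent.T6.H31.TC.Dag
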