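import Pool.Agent.T6.H31.TC.DagChk

set_option autoImplicit false
set_option maxRecDepth 100000

namespace Pool.Agent.T6.H31.TC.Dag

theorem n214 : chkNode 214 = true := by decide +kernel
theorem n215 : chkNode 215 = true := by decide +kernel
theorem n216 : chkNode 216 = true := by decide +kernel
theorem n217 : chkNode 217 = true := by decide +kernel
theorem n218 : chkNode 218 = true := by decide +kernel
theorem n219 : chkNode 219 = true := by decide +kernel
theorem n220 : chkNode 220 = true := by decide +kernel
theorem n221 : chkNode 221 = true := by decide +kernel
theorem n222 : chkNode 222 = true := by decide +kernel
theorem n223 : chkNode 223 = true := by decide +kernel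
theorem n224 : chkNode 224 = true := by decide +kernel
theorem n225 : chkNode 225 = true := by decide +kernel
theorem n226 : chkNode 226 = true := by decide +kernel
theorem n227 : chkNode 227 = true := by decide +kernel
theorem n228 : chkNode 228 = true := by decide +kernel
theorem n229 : chkNode 229 = true := by decide +kernel
theorem n230 : chkNode 230 = true := by decide +kernel
theorem n231 : chkNode 231 = true := by decide +kernel
theorem n232 : chkNode 232 = true := by decide +kernel
theorem n233 : chkNode 233 = true := by decide +kernel
theorem n234 : chkNode 234 = true := by decide +kernel
theorem n235 : chkNode 235 = true := by decide +kernel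
theorem n236 : chkNode 236 = true := by decide +kernel
theorem n237 : chkNode 237 = true := by decide +kernel
theorem n238 : chkNode 238 = true := by decide +kernel
theorem n239 : chkNode 239 = true := by decide +kernel
theorem n240 : chkNode 240 = true := by decide +kernel
theorem n241 : chkNode 241 = true := by decide +kernel
theorem n242 : chkNode 242 = true := by decide +kernel
theorem n243 : chkNode 243 = true := by decide +kernel
theorem n244 : chkNode 244 = true := by decide +kernel
theorem n245 : chkNode 245 = true := by decide +kernel
theorem n246 : chkNode 246 = true := by decide +kernel
theorem n247 : chkNode 247 = true := by decide +kernel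
theorem n248 : chkNode 248 = true := by decide +kernel
theorem n249 : chkNode 249 = true := by decide +kernel
theorem n250 : chkNode 250 = true := by decide +kernel
theorem n251 : chkNode 251 = true := by decide +kernel
theorem n252 : chkNode 252 = true := by decide +kernel
theorem n253 : chkNode 253 = true := by decide +kernel
theorem n254 : chkNode 254 = true := by decide +kernel
theorem n255 : chkNode 255 = true := by decide +kernel
theorem n256 : chkNode 256 = true := by decide +kernel
theorem n257 : chkNode 257 = true := by decide +kernel
theorem n258 : chkNode 258 = true := by decide +kernel

theorem chunk4 : ∀ i, 214 ≤ i → i < 259 → chkNode i = true := by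
  intro i h1 h2
  interval_cases i
  · exact n214
  · exact n215
  · exact n216
  · exact n217
  · exact n218
  · exact n219
  · exact n220
  · exact n221
  · exact n222
  · exact n223
  · exact n224
  · exact n225
  · exact n226
  · exact n227
  · exact n228
  · exact n229
  · exact n230
  · exact n231
  · exact n232
  · exact n233
  · exact n234
  · exact n235
  · exact n236
  · exact n237
  · exact n238
  · exact n239
  · exact n240
  · exact n241
  · exact n242
  · exact n243
  · exact n244
  · exact n245
  · exact n246
  · exact n247
  · exact n248
  · exact n249
  · exact n250
  · exact n251
  · exact n252
  · exact n253
  · exact n254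
  · exact n255
  · exact n256
  · exact n257
  · exact n258

end Pool.Agent.T6.H31.TC.Dag
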