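import Pool.Agent.T6.H31.TC.DagChk

set_option autoImplicit false
set_option maxRecDepth 100000

namespace Pool.Agent.T6.H31.TC.Dag

theorem n259 : chkNode 259 = true := by decide +kernel
theorem n260 : chkNode 260 = true := by decide +kernel
theorem n261 : chkNode 261 = true := by decide +kernel
theorem n262 : chkNode 262 = true := by decide +kernel
theorem n263 : chkNode 263 = true := by decide +kernel
theorem n264 : chkNode 264 = true := by decide +kernel
theorem n265 : chkNode 265 = true := by decide +kernel
theorem n266 : chkNode 266 = true := by decide +kernel
theorem n267 : chkNode 267 = true := by decide +kernel
theorem n268 : chkNode 268 = true := by decide +kernel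
theorem n269 : chkNode 269 = true := by decide +kernel
theorem n270 : chkNode 270 = true := by decide +kernel
theorem n271 : chkNode 271 = true := by decide +kernel
theorem n272 : chkNode 272 = true := by decide +kernel
theorem n273 : chkNode 273 = true := by decide +kernel
theorem n274 : chkNode 274 = true := by decide +kernel
theorem n275 : chkNode 275 = true := by decide +kernel
theorem n276 : chkNode 276 = true := by decide +kernel
theorem n277 : chkNode 277 = true := by decide +kernel
theorem n278 : chkNode 278 = true := by decide +kernel
theorem n279 : chkNode 279 = true := by decide +kernel
theorem n280 : chkNode 280 = true := by decide +kernel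
theorem n281 : chkNode 281 = true := by decide +kernel
theorem n282 : chkNode 282 = true := by decide +kernel
theorem n283 : chkNode 283 = true := by decide +kernel
theorem n284 : chkNode 284 = true := by decide +kernel
theorem n285 : chkNode 285 = true := by decide +kernel
theorem n286 : chkNode 286 = true := by decide +kernel
theorem n287 : chkNode 287 = true := by decide +kernel
theorem n288 : chkNode 288 = true := by decide +kernel
theorem n289 : chkNode 289 = true := by decide +kernel
theorem n290 : chkNode 290 = true := by decide +kernel
theorem n291 : chkNode 291 = true := by decide +kernel
theorem n292 : chkNode 292 = true := by decide +kernel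
theorem n293 : chkNode 293 = true := by decide +kernel
theorem n294 : chkNode 294 = true := by decide +kernel
theorem n295 : chkNode 295 = true := by decide +kernel
theorem n296 : chkNode 296 = true := by decide +kernel
theorem n297 : chkNode 297 = true := by decide +kernel
theorem n298 : chkNode 298 = true := by decide +kernel

theorem chunk5 : ∀ i, 259 ≤ i → i < 299 → chkNode i = true := by
  intro i h1 h2
  interval_cases i
  · exact n259
  · exact n260
  · exact n261
  · exact n262
  · exact n263
  · exact n264
  · exact n265
  · exact n266
  · exact n267
  · exact n268
  · exact n269
  · exact n270
  · exact n271
  · exact n272
  · exact n273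
  · exact n274
  · exact n275
  · exact n276
  · exact n277
  · exact n278
  · exact n279
  · exact n280
  · exact n281
  · exact n282
  · exact n283
  · exact n284
  · exact n285
  · exact n286
  · exact n287
  · exact n288
  · exact n289
  · exact n290
  · exact n291
  · exact n292
  · exact n293
  · exact n294
  · exact n295
  · exact n296
  · exact n297
  · exact n298

end Pool.Agent.T6.H31.TC.Dag
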