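import Pool.Agent.T6.H31.TC.DagChk

set_option autoImplicit false
set_option maxRecDepth 100000

namespace Pool.Agent.T6.H31.TC.Dag

theorem n299 : chkNode 299 = true := by decide +kernel
theorem n300 : chkNode 300 = true := by decide +kernel
theorem n301 : chkNode 301 = true := by decide +kernel
theorem n302 : chkNode 302 = true := by decide +kernel
theorem n303 : chkNode 303 = true := by decide +kernel
theorem n304 : chkNode 304 = true := by decide +kernel
theorem n305 : chkNode 305 = true := by decide +kernel
theorem n306 : chkNode 306 = true := by decide +kernel
theorem n307 : chkNode 307 = true := by decide +kernel
theorem n308 : chkNode 308 = true := by decide +kernel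
theorem n309 : chkNode 309 = true := by decide +kernel
theorem n310 : chkNode 310 = true := by decide +kernel
theorem n311 : chkNode 311 = true := by decide +kernel
theorem n312 : chkNode 312 = true := by decide +kernel
theorem n313 : chkNode 313 = true := by decide +kernel
theorem n314 : chkNode 314 = true := by decide +kernel
theorem n315 : chkNode 315 = true := by decide +kernel
theorem n316 : chkNode 316 = true := by decide +kernel
theorem n317 : chkNode 317 = true := by decide +kernel
theorem n318 : chkNode 318 = true := by decide +kernel
theorem n319 : chkNode 319 = true := by decide +kernel
theorem n320 : chkNode 320 = true := by decide +kernel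
theorem n321 : chkNode 321 = true := by decide +kernel
theorem n322 : chkNode 322 = true := by decide +kernel
theorem n323 : chkNode 323 = true := by decide +kernel
theorem n324 : chkNode 324 = true := by decide +kernel
theorem n325 : chkNode 325 = true := by decide +kernel
theorem n326 : chkNode 326 = true := by decide +kernel
theorem n327 : chkNode 327 = true := by decide +kernel
theorem n328 : chkNode 328 = true := by decide +kernel

theorem chunk6 : ∀ i, 299 ≤ i → i < 329 → chkNode i = true := by
  intro i h1 h2
  interval_cases i
  · exact n299
  · exact n300
  · exact n301
  · exact n302
  · exact n303
  · exact n304
  · exact n305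
  · exact n306
  · exact n307
  · exact n308
  · exact n309
  · exact n310
  · exact n311
  · exact n312
  · exact n313
  · exact n314
  · exact n315
  · exact n316
  · exact n317
  · exact n318
  · exact n319
  · exact n320
  · exact n321
  · exact n322
  · exact n323
  · exact n324
  · exact n325
  · exact n326
  · exact n327
  · exact n328

end Pool.Agent.T6.H31.TC.Dag
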