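import Pool.Agent.T6.H31.TC.DagChk

set_option autoImplicit false
set_option maxRecDepth 100000

namespace Pool.Agent.T6.H31.TC.Dag

theorem n329 : chkNode 329 = true := by decide +kernel
theorem n330 : chkNode 330 = true := by decide +kernel
theorem n331 : chkNode 331 = true := by decide +kernel
theorem n332 : chkNode 332 = true := by decide +kernel
theorem n333 : chkNode 333 = true := by decide +kernel
theorem n334 : chkNode 334 = true := by decide +kernel
theorem n335 : chkNode 335 = true := by decide +kernel
theorem n336 : chkNode 336 = true := by decide +kernel
theorem n337 : chkNode 337 = true := by decide +kernel
theorem n338 : chkNode 338 = true := by decide +kernel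
theorem n339 : chkNode 339 = true := by decide +kernel
theorem n340 : chkNode 340 = true := by decide +kernel
theorem n341 : chkNode 341 = true := by decide +kernel
theorem n342 : chkNode 342 = true := by decide +kernel
theorem n343 : chkNode 343 = true := by decide +kernel
theorem n344 : chkNode 344 = true := by decide +kernel
theorem n345 : chkNode 345 = true := by decide +kernel
theorem n346 : chkNode 346 = true := by decide +kernel
theorem n347 : chkNode 347 = true := by decide +kernel
theorem n348 : chkNode 348 = true := by decide +kernel
theorem n349 : chkNode 349 = true := by decide +kernel
theorem n350 : chkNode 350 = true := by decide +kernel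
theorem n351 : chkNode 351 = true := by decide +kernel
theorem n352 : chkNode 352 = true := by decide +kernel
theorem n353 : chkNode 353 = true := by decide +kernel
theorem n354 : chkNode 354 = true := by decide +kernel
theorem n355 : chkNode 355 = true := by decide +kernel
theorem n356 : chkNode 356 = true := by decide +kernel
theorem n357 : chkNode 357 = true := by decide +kernel
theorem n358 : chkNode 358 = true := by decide +kernel
theorem n359 : chkNode 359 = true := by decide +kernel
theorem n360 : chkNode 360 = true := by decide +kernel
theorem n361 : chkNode 361 = true := by decide +kernel
theorem n362 : chkNode 362 = true := by decide +kernel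
theorem n363 : chkNode 363 = true := by decide +kernel
theorem n364 : chkNode 364 = true := by decide +kernel
theorem n365 : chkNode 365 = true := by decide +kernel
theorem n366 : chkNode 366 = true := by decide +kernel
theorem n367 : chkNode 367 = true := by decide +kernel
theorem n368 : chkNode 368 = true := by decide +kernel
theorem n369 : chkNode 369 = true := by decide +kernel
theorem n370 : chkNode 370 = true := by decide +kernel
theorem n371 : chkNode 371 = true := by decide +kernel
theorem n372 : chkNode 372 = true := by decide +kernel
theorem n373 : chkNode 373 = true := by decide +kernel
theorem n374 : chkNode 374 = true := by decide +kernel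
theorem n375 : chkNode 375 = true := by decide +kernel
theorem n376 : chkNode 376 = true := by decide +kernel

theorem chunk7 : ∀ i, 329 ≤ i → i < 377 → chkNode i = true := by
  intro i h1 h2
  interval_cases i
  · exact n329
  · exact n330
  · exact n331
  · exact n332
  · exact n333
  · exact n334
  · exact n335
  · exact n336
  · exact n337
  · exact n338
  · exact n339
  · exact n340
  · exact n341
  · exact n342
  · exact n343
  · exact n344
  · exact n345
  · exact n346
  · exact n347
  · exact n348
  · exact n349
  · exact n350
  · exact n351
  · exact n352
  · exact n353
  · exact n354
  · exact n355
  · exact n356
  · exact n357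
  · exact n358
  · exact n359
  · exact n360
  · exact n361
  · exact n362
  · exact n363
  · exact n364
  · exact n365
  · exact n366
  · exact n367
  · exact n368
  · exact n369
  · exact n370
  · exact n371
  · exact n372
  · exact n373
  · exact n374
  · exact n375
  · exact n376

end Pool.Agent.T6.H31.TC.Dag
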