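import Pool.Agent.T6.H31.TC.DagSound
import Pool.Agent.T6.H31.TC.DagN0
import Pool.Agent.T6.H31.TC.DagN1
import Pool.Agent.T6.H31.TC.DagN2
import Pool.Agent.T6.H31.TC.DagN3
import Pool.Agent.T6.H31.TC.DagN4
import Pool.Agent.T6.H31.TC.DagN5
import Pool.Agent.T6.H31.TC.DagN6
import Pool.Agent.T6.H31.TC.DagN7

set_option autoImplicit false

namespace Pool.Agent.T6.H31.TC

/-- the combinatorial classification -/
theorem dag : StmtDAG := by
  apply Dag.all_sound
  intro i hi
  by_cases h1 : i < 72
  · exact Dag.chunk0 i (Nat.zero_le _) h1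
  by_cases h2 : i < 129
  · exact Dag.chunk1 i (by omega) h2
  by_cases h3 : i < 176
  · exact Dag.chunk2 i (by omega) h3
  by_cases h4 : i < 214
  · exact Dag.chunk3 i (by omega) h4
  by_cases h5 : i < 259
  · exact Dag.chunk4 i (by omega) h5
  by_cases h6 : i < 299
  · exact Dag.chunk5 i (by omega) h6
  by_cases h7 : i < 329
  · exact Dag.chunk6 i (by omega) h7
  · exact Dag.chunk7 i (by omega) (by omega)

end Pool.Agent.T6.H31.TC
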