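import Pool.Agent.T6.H31.TC.Stmts

set_option autoImplicit false

/-! Checker for the graph of lattices, dimension six. -/

namespace Pool.Agent.T6.H31.TC

open Finset

namespace Dag

structure V6 where
  a : ℤ
  b : ℤ
  c : ℤ
  d : ℤ
  e : ℤ
  f : ℤ

def vadd (x y : V6) : V6 :=
  ⟨Int.add x.a y.a, Int.add x.b y.b, Int.add x.c y.c, Int.add x.d y.d, Int.add x.e y.e, Int.add x.f y.f⟩

def vsmul (k : ℤ) (x : V6) : V6 :=
  ⟨Int.mul k x.a, Int.mul k x.b, Int.mul k x.c, Int.mul k x.d, Int.mul k x.e, Int.mul k x.f⟩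

def vzero : V6 := ⟨0, 0, 0, 0, 0, 0⟩

def veq (x y : V6) : Bool :=
  (decide (x.a = y.a)) && (decide (x.b = y.b)) && (decide (x.c = y.c)) && (decide (x.d = y.d)) &&
    (decide (x.e = y.e)) && (decide (x.f = y.f))

def comb : List ℤ → List V6 → V6
  | c :: cs, r :: rs => if c = 0 then comb cs rs else vadd (vsmul c r) (comb cs rs)
  | _, _ => vzero

def ld (r : V6) (e : Fin 6 → ℤ) : ℤ :=
  r.a * e 0 + r.b * e 1 + r.c * e 2 + r.d * e 3 + r.e * e 4 + r.f * e 5

theorem veq_eq {x y : V6} (h : veq x y = true) : x = y := by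
  simp only [veq, Bool.and_eq_true, decide_eq_true_eq] at h
  obtain ⟨⟨⟨⟨⟨h1, h2⟩, h3⟩, h4⟩, h5⟩, h6⟩ := h
  cases x; cases y; simp_all

theorem ld_add (x y : V6) (e : Fin 6 → ℤ) : ld (vadd x y) e = ld x e + ld y e := by
  simp only [ld, vadd, Int.add_def]
  ring

theorem ld_smul (k : ℤ) (x : V6) (e : Fin 6 → ℤ) : ld (vsmul k x) e = k * ld x e := by
  simp only [ld, vsmul, Int.mul_def]
  ring

theorem ld_zero (e : Fin 6 → ℤ) : ld vzero e = 0 := by simp [ld, vzero]

theorem dvd_comb (Q : ℤ) (e : Fin 6 → ℤ) : ∀ (cs : List ℤ) (rs : List V6),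
    (∀ r ∈ rs, Q ∣ ld r e) → Q ∣ ld (comb cs rs) e
  | [], _, _ => by
    rw [comb]
    · rw [ld_zero]; exact dvd_zero _
    · intro c cs r rs h; simp at h
  | _ :: _, [], _ => by
    rw [comb]
    · rw [ld_zero]; exact dvd_zero _
    · intro c cs r rs _ h; simp at h
  | c :: cs, r :: rs, h => by
    rw [comb]
    have h2 := dvd_comb Q e cs rs (fun r' hr' => h r' (List.mem_cons_of_mem _ hr'))
    split_ifs
    · exact h2
    · rw [ld_add, ld_smul]
      exact dvd_add (dvd_mul_of_dvd_right (h r List.mem_cons_self) _) h2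

/-- orthogonality is inherited by combinations -/
theorem comb_eq_zero (w : Fin 6 → ℤ) (cs : List ℤ) (rs : List V6)
    (h : ∀ r ∈ rs, ld r w = 0) : ld (comb cs rs) w = 0 := by
  have := dvd_comb 0 w cs rs (fun r hr => by rw [h r hr])
  simpa using this

/-- the sixteen vectors -/
def sV : ℕ → V6
  | 0 => ⟨1, 1, 1, 0, 0, 0⟩
  | 1 => ⟨-1, 1, 1, 0, 0, 0⟩
  | 2 => ⟨1, -1, 1, 0, 0, 0⟩
  | 3 => ⟨-1, -1, 1, 0, 0, 0⟩
  | 4 => ⟨1, 1, -1, 0, 0, 0⟩
  | 5 => ⟨-1, 1, -1, 0, 0, 0⟩
  | 6 => ⟨1, -1, -1, 0, 0, 0⟩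
  | 7 => ⟨-1, -1, -1, 0, 0, 0⟩
  | 8 => ⟨0, 0, 0, 1, 1, 1⟩
  | 9 => ⟨0, 0, 0, -1, 1, 1⟩
  | 10 => ⟨0, 0, 0, 1, -1, 1⟩
  | 11 => ⟨0, 0, 0, -1, -1, 1⟩
  | 12 => ⟨0, 0, 0, 1, 1, -1⟩
  | 13 => ⟨0, 0, 0, -1, 1, -1⟩
  | 14 => ⟨0, 0, 0, 1, -1, -1⟩
  | 15 => ⟨0, 0, 0, -1, -1, -1⟩
  | _ => vzero

theorem ld_sV (m : Fin 16) (e : Fin 6 → ℤ) : ld (sV m.val) e = dot (V m) e := by
  unfold dot
  rw [Fin.sum_univ_six]
  fin_cases m <;> simp [ld, sV, V] 

def vd (m n : ℕ) : V6 := vadd (sV m) (vsmul (-1) (sV n))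

theorem ld_vd (m n : Fin 16) (e : Fin 6 → ℤ) : ld (vd m.val n.val) e = dv m n e := by
  rw [vd, ld_add, ld_smul, ld_sV, ld_sV, dv]; ring

/-- block permutations, as lists -/
def P3 : List (List ℕ) := [[0, 1, 2], [0, 2, 1], [1, 0, 2], [1, 2, 0], [2, 0, 1], [2, 1, 0]]

def pget (l : List ℕ) (j : ℕ) : ℕ := l.getD j 0

/-- the inverse permutation `q` of an edge: `q j = σ⁻¹ j` -/
def qf (idx j : ℕ) : ℕ :=
  let sw := idx / 36
  let a := (idx / 6) % 6
  let b := idx % 6
  if sw = 0 then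
    (if j < 3 then pget (P3.getD a []) j else 3 + pget (P3.getD b []) (j - 3))
  else
    (if j < 3 then 3 + pget (P3.getD a []) j else pget (P3.getD b []) (j - 3))

def vget (v : V6) : ℕ → ℤ
  | 0 => v.a
  | 1 => v.b
  | 2 => v.c
  | 3 => v.d
  | 4 => v.e
  | _ => v.f

def sg (s j : ℕ) : ℤ := if (s / 2 ^ j) % 2 = 0 then 1 else -1

def sgm (s j : ℕ) (x : ℤ) : ℤ := if (s / 2 ^ j) % 2 = 0 then x else Int.neg x

/-- transport of a vector -/
def tr (idx s : ℕ) (r : V6) : V6 :=
  ⟨sgm s 0 (vget r (qf idx 0)), sgm s 1 (vget r (qf idx 1)), sgm s 2 (vget r (qf idx 2)),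
    sgm s 3 (vget r (qf idx 3)), sgm s 4 (vget r (qf idx 4)), sgm s 5 (vget r (qf idx 5))⟩

theorem sgm_eq (s j : ℕ) (x : ℤ) : sgm s j x = sg s j * x := by
  unfold sgm sg
  split_ifs
  · ring
  · show -x = _
    ring

/-- the permutation attached to an index -/
theorem exists_perm (idx : ℕ) (h : idx < 72) : ∃ σ : Equiv.Perm (Fin 6), Blk σ ∧
    ∀ j : Fin 6, (σ.symm j).val = qf idx j.val := by
  have hlt : ∀ idx < 72, ∀ j : Fin 6, qf idx j.val < 6 := by decide
  have hinj : ∀ idx < 72, ∀ i j : Fin 6, qf idx i.val = qf idx j.val → i = j := by decide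
  have hblk : ∀ idx < 72, (∀ j : Fin 6, (qf idx j.val < 3 ↔ j.val < 3)) ∨
      (∀ j : Fin 6, (qf idx j.val < 3 ↔ 3 ≤ j.val)) := by decide
  let f : Fin 6 → Fin 6 := fun j => ⟨qf idx j.val, hlt idx h j⟩
  have hf : Function.Injective f := by
    intro i j hij
    exact hinj idx h i j (Fin.mk.inj_iff.1 hij)
  have hb : Function.Bijective f := (Fintype.bijective_iff_injective_and_card f).2 ⟨hf, rfl⟩
  let τ : Equiv.Perm (Fin 6) := Equiv.ofBijective f hb
  refine ⟨τ.symm, ?_, ?_⟩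
  · rcases hblk idx h with h1 | h1
    · left
      intro i
      have h2 := h1 (τ.symm i)
      have h3 : qf idx (τ.symm i).val = i.val := by
        have : f (τ.symm i) = i := τ.apply_symm_apply i
        exact congrArg Fin.val this
      rw [h3] at h2
      exact h2.symm
    · right
      intro i
      have h2 := h1 (τ.symm i)
      have h3 : qf idx (τ.symm i).val = i.val := by
        have : f (τ.symm i) = i := τ.apply_symm_apply i
        exact congrArg Fin.val this
      rw [h3] at h2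
      have h4 := (τ.symm i).isLt
      have h5 := i.isLt
      omega
  · intro j
    rw [Equiv.symm_symm]
    rfl

theorem sg_pm (s j : ℕ) : sg s j = 1 ∨ sg s j = -1 := by
  unfold sg; split_ifs <;> simp

/-- the transported exponent vector -/
theorem exists_act (idx s : ℕ) (h : idx < 72) (e : Fin 6 → ℤ) : ∃ e' : Fin 6 → ℤ, Rel e e' ∧
    ∀ r : V6, ld r e' = ld (tr idx s r) e := by
  obtain ⟨σ, hσ, hq⟩ := exists_perm idx h
  refine ⟨fun i => sg s (σ i).val * e (σ i), ⟨σ, fun i => sg s (σ i).val, hσ, fun i => sg_pm _ _,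
    fun i => rfl⟩, ?_⟩
  intro r
  have h1 : ∀ r : V6, ∀ e' : Fin 6 → ℤ, ld r e' = ∑ i : Fin 6, vget r i.val * e' i := by
    intro r e'
    rw [Fin.sum_univ_six]
    rfl
  rw [h1 r]
  have h2 : ∑ i : Fin 6, vget r i.val * (sg s (σ i).val * e (σ i)) =
      ∑ j : Fin 6, vget r (σ.symm j).val * (sg s j.val * e j) := by
    rw [← Equiv.sum_comp σ (fun j => vget r (σ.symm j).val * (sg s j.val * e j))]
    apply Finset.sum_congr rfl
    intro i _
    rw [Equiv.symm_apply_apply]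
  rw [h2, h1 (tr idx s r)]
  apply Finset.sum_congr rfl
  intro j _
  rw [hq j]
  have h3 : vget (tr idx s r) j.val = sg s j.val * vget r (qf idx j.val) := by
    fin_cases j <;> simp only [tr, vget, sgm_eq]
  rw [h3]
  ring

theorem rel_refl (e : Fin 6 → ℤ) : Rel e e :=
  ⟨1, fun _ => 1, Or.inl (fun i => Iff.rfl), fun _ => Or.inl rfl, fun i => by simp⟩

theorem rel_trans {e e' e'' : Fin 6 → ℤ} (h1 : Rel e e') (h2 : Rel e' e'') : Rel e e'' := by
  obtain ⟨σ, ε, hσ, hε, h⟩ := h1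
  obtain ⟨σ', ε', hσ', hε', h'⟩ := h2
  refine ⟨σ * σ', fun i => ε' i * ε (σ' i), ?_, ?_, ?_⟩
  · rcases hσ with h1 | h1 <;> rcases hσ' with h2 | h2
    · left; intro i; rw [Equiv.Perm.mul_apply, h1, h2]
    · right; intro i; rw [Equiv.Perm.mul_apply, h1, h2]
    · right; intro i; rw [Equiv.Perm.mul_apply, h1]
      have := h2 i
      omega
    · left; intro i; rw [Equiv.Perm.mul_apply, h1]
      have := h2 i
      omega
  · intro i
    rcases hε' i with h1 | h1 <;> rcases hε (σ' i) with h2 | h2 <;> simp [h1, h2]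
  · intro i
    rw [h' i, h (σ' i), Equiv.Perm.mul_apply]
    ring

/-- a vector with signs on the first block is one of the first eight, and so on -/
theorem exists_tau {e e' : Fin 6 → ℤ} (σ : Equiv.Perm (Fin 6)) (ε : Fin 6 → ℤ) (hσ : Blk σ)
    (hε : ∀ i, ε i = 1 ∨ ε i = -1) (m : Fin 16) :
    ∃ m' : Fin 16, ∀ j, V m' j = ε (σ.symm j) * V m (σ.symm j) := by
  have key : ∀ u : Fin 6 → ℤ, (∀ j : Fin 6, j.val < 3 → u j = 1 ∨ u j = -1) →
      (∀ j : Fin 6, 3 ≤ j.val → u j = 0) → ∃ m' : Fin 16, ∀ j, V m' j = u j := by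
    intro u h1 h2
    have g0 := h1 0 (by decide)
    have g1 := h1 1 (by decide)
    have g2 := h1 2 (by decide)
    have g3 := h2 3 (by decide)
    have g4 := h2 4 (by decide)
    have g5 := h2 5 (by decide)
    rcases g0 with g0 | g0 <;> rcases g1 with g1 | g1 <;> rcases g2 with g2 | g2
    · refine ⟨0, fun j => ?_⟩; fin_cases j <;> simp [V, *]
    · refine ⟨4, fun j => ?_⟩; fin_cases j <;> simp [V, *]
    · refine ⟨2, fun j => ?_⟩; fin_cases j <;> simp [V, *]
    · refine ⟨6, fun j => ?_⟩; fin_cases j <;> simp [V, *]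
    · refine ⟨1, fun j => ?_⟩; fin_cases j <;> simp [V, *]
    · refine ⟨5, fun j => ?_⟩; fin_cases j <;> simp [V, *]
    · refine ⟨3, fun j => ?_⟩; fin_cases j <;> simp [V, *]
    · refine ⟨7, fun j => ?_⟩; fin_cases j <;> simp [V, *]
  have key2 : ∀ u : Fin 6 → ℤ, (∀ j : Fin 6, 3 ≤ j.val → u j = 1 ∨ u j = -1) →
      (∀ j : Fin 6, j.val < 3 → u j = 0) → ∃ m' : Fin 16, ∀ j, V m' j = u j := by
    intro u h1 h2
    have g0 := h1 3 (by decide)
    have g1 := h1 4 (by decide)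
    have g2 := h1 5 (by decide)
    have g3 := h2 0 (by decide)
    have g4 := h2 1 (by decide)
    have g5 := h2 2 (by decide)
    rcases g0 with g0 | g0 <;> rcases g1 with g1 | g1 <;> rcases g2 with g2 | g2
    · refine ⟨8, fun j => ?_⟩; fin_cases j <;> simp [V, *]
    · refine ⟨12, fun j => ?_⟩; fin_cases j <;> simp [V, *]
    · refine ⟨10, fun j => ?_⟩; fin_cases j <;> simp [V, *]
    · refine ⟨14, fun j => ?_⟩; fin_cases j <;> simp [V, *]
    · refine ⟨9, fun j => ?_⟩; fin_cases j <;> simp [V, *]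
    · refine ⟨13, fun j => ?_⟩; fin_cases j <;> simp [V, *]
    · refine ⟨11, fun j => ?_⟩; fin_cases j <;> simp [V, *]
    · refine ⟨15, fun j => ?_⟩; fin_cases j <;> simp [V, *]
  have hV : ∀ (m : Fin 16) (k : Fin 6), (m.val / 8 = k.val / 3 → V m k = 1 ∨ V m k = -1) ∧
      (m.val / 8 ≠ k.val / 3 → V m k = 0) := by decide
  have hu : ∀ j, (m.val / 8 = (σ.symm j).val / 3 → ε (σ.symm j) * V m (σ.symm j) = 1 ∨
      ε (σ.symm j) * V m (σ.symm j) = -1) ∧ (m.val / 8 ≠ (σ.symm j).val / 3 →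
      ε (σ.symm j) * V m (σ.symm j) = 0) := by
    intro j
    constructor
    · intro h
      rcases (hV m (σ.symm j)).1 h with h1 | h1 <;> rcases hε (σ.symm j) with h2 | h2 <;>
        simp [h1, h2]
    · intro h
      rw [(hV m (σ.symm j)).2 h, mul_zero]
  have hm := m.isLt
  rcases hσ with hσ | hσ
  · have hb : ∀ j : Fin 6, (σ.symm j).val < 3 ↔ j.val < 3 := by
      intro j
      have := hσ (σ.symm j)
      rw [Equiv.apply_symm_apply] at this
      exact this.symm
    by_cases hm8 : m.val < 8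
    · apply key
      · intro j hj
        apply (hu j).1
        have := (hb j).2 hj
        omega
      · intro j hj
        apply (hu j).2
        have h1 : ¬ (σ.symm j).val < 3 := by rw [hb j]; omega
        omega
    · apply key2
      · intro j hj
        apply (hu j).1
        have h1 : ¬ (σ.symm j).val < 3 := by rw [hb j]; omega
        have := (σ.symm j).isLt
        omega
      · intro j hj
        apply (hu j).2
        have := (hb j).2 hj
        omega
  · have hb : ∀ j : Fin 6, (σ.symm j).val < 3 ↔ 3 ≤ j.val := by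
      intro j
      have := hσ (σ.symm j)
      rw [Equiv.apply_symm_apply] at this
      have h5 := j.isLt
      omega
    by_cases hm8 : m.val < 8
    · apply key2
      · intro j hj
        apply (hu j).1
        have := (hb j).2 hj
        omega
      · intro j hj
        apply (hu j).2
        have h1 : ¬ (σ.symm j).val < 3 := by rw [hb j]; omega
        omega
    · apply key
      · intro j hj
        apply (hu j).1
        have h1 : ¬ (σ.symm j).val < 3 := by rw [hb j]; omega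
        have := (σ.symm j).isLt
        omega
      · intro j hj
        apply (hu j).2
        have := (hb j).2 hj
        omega

/-- the induced map on the sixteen indices -/
theorem rel_tau {e e' : Fin 6 → ℤ} (h : Rel e e') : ∃ τ : Fin 16 → Fin 16,
    Function.Injective τ ∧ ∀ m n, dv m n e' = dv (τ m) (τ n) e := by
  obtain ⟨σ, ε, hσ, hε, h⟩ := h
  choose τ hτ using fun m => exists_tau (e := e) (e' := e') σ ε hσ hε m
  have hVinj : ∀ m n : Fin 16, (∀ j, V m j = V n j) → m = n := by decide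
  refine ⟨τ, ?_, ?_⟩
  · intro m n hmn
    apply hVinj
    intro k
    have h1 := hτ m (σ k)
    have h2 := hτ n (σ k)
    rw [hmn, h2, Equiv.symm_apply_apply] at h1
    rcases hε k with h3 | h3 <;> rw [h3] at h1 <;> omega
  · intro m n
    have key : ∀ m, dot (V m) e' = dot (V (τ m)) e := by
      intro m
      unfold dot
      rw [← Equiv.sum_comp σ (fun j => V (τ m) j * e j)]
      apply Finset.sum_congr rfl
      intro k _
      rw [h k, hτ m (σ k), Equiv.symm_apply_apply]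
      ring
    rw [dv, dv, key, key]

theorem noSingle_rel {Q : ℤ} {e e' : Fin 6 → ℤ} (h : Rel e e') (hn : NoSingle Q e) :
    NoSingle Q e' := by
  obtain ⟨τ, hτ, hd⟩ := rel_tau h
  have hb : Function.Bijective τ := (Fintype.bijective_iff_injective_and_card τ).2 ⟨hτ, rfl⟩
  intro m
  obtain ⟨n, hn1, hn2⟩ := hn (τ m)
  obtain ⟨n', rfl⟩ := hb.2 n
  exact ⟨n', fun h => hn1 (by rw [h]), by rw [hd]; exact hn2⟩

end Dag

end Pool.Agent.T6.H31.TC
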