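import Pool.Agent.T6.H31.TC.DagBase
import Pool.Agent.T6.H31.TC.DagData

set_option autoImplicit false

/-! Checker for the graph of lattices, part 2: nodes. -/

namespace Pool.Agent.T6.H31.TC

open Finset

namespace Dag

def dig : ℕ → ℕ → List ℕ
  | 0, _ => []
  | k + 1, n => (n % 256) :: dig k (n / 256)

def sb (n : ℕ) : ℤ := Int.subNatNat n 128

def getRows : ℕ → List ℕ → List V6
  | k + 1, a :: b :: c :: d :: e :: f :: t => ⟨sb a, sb b, sb c, sb d, sb e, sb f⟩ :: getRows k t
  | _, _ => []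

def rowsOf (c : ℕ) : List V6 :=
  match dig 37 ((RT / 2 ^ (296 * c)) % 2 ^ 296) with
  | n :: t => getRows n t
  | [] => []

def takeZ : ℕ → List ℕ → List ℤ
  | k + 1, a :: t => sb a :: takeZ k t
  | _, _ => []

/-- rows of the child are combinations -/
def chkRows (idx s len : ℕ) (gens : List V6) : List V6 → List ℕ → Bool
  | [], _ => true
  | r :: rs, l => veq (tr idx s r) (comb (takeZ len l) gens) && chkRows idx s len gens rs (l.drop len)

theorem chkRows_sound (Q : ℤ) (idx s len : ℕ) (gens : List V6) (e : Fin 6 → ℤ)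
    (hg : ∀ g ∈ gens, Q ∣ ld g e) : ∀ (rs : List V6) (l : List ℕ),
    chkRows idx s len gens rs l = true → ∀ r ∈ rs, Q ∣ ld (tr idx s r) e
  | [], _, _, r, hr => by simp at hr
  | r0 :: rs, l, h, r, hr => by
    rw [chkRows, Bool.and_eq_true] at h
    rcases List.mem_cons.1 hr with rfl | hr
    · rw [veq_eq h.1]
      exact dvd_comb Q e _ _ hg
    · exact chkRows_sound Q idx s len gens e hg rs _ h.2 r hr

/-- the verified edges: pairs `(m, n)` -/
def chkE (i nr : ℕ) (rows : List V6) : ℕ → List ℕ → List (ℕ × ℕ)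
  | k + 1, m :: n :: c0 :: c1 :: q :: s :: ncr :: t =>
    if (decide (i < c0 + 256 * c1)) && (decide (c0 + 256 * c1 < 377)) && (decide (q < 72)) &&
        (chkRows q s (nr + 1) (vd m n :: rows) (rowsOf (c0 + 256 * c1)) t)
    then (m, n) :: chkE i nr rows k (t.drop (ncr * (nr + 1)))
    else chkE i nr rows k (t.drop (ncr * (nr + 1)))
  | _, _ => []

def EdgeOK (i : ℕ) (rows : List V6) (m n : ℕ) : Prop :=
  ∃ ch q s : ℕ, i < ch ∧ ch < 377 ∧ q < 72 ∧ ∀ (Q : ℤ) (e : Fin 6 → ℤ), (∀ r ∈ rows, Q ∣ ld r e) →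
    Q ∣ ld (vd m n) e → ∀ r ∈ rowsOf ch, Q ∣ ld (tr q s r) e

theorem chkE_sound (i nr : ℕ) (rows : List V6) : ∀ (k : ℕ) (l : List ℕ) (m n : ℕ),
    (m, n) ∈ chkE i nr rows k l → EdgeOK i rows m n := by
  intro k
  induction k with
  | zero => intro l m n h; simp [chkE] at h
  | succ k ih =>
    intro l m n h
    match l, h with
    | m' :: n' :: c0 :: c1 :: q :: s :: ncr :: t, h =>
      rw [chkE] at h
      split_ifs at h with hc
      · rcases List.mem_cons.1 h with h1 | h1
        · simp only [Bool.and_eq_true, decide_eq_true_eq] at hc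
          obtain ⟨⟨⟨h2, h3⟩, h4⟩, h5⟩ := hc
          obtain ⟨rfl, rfl⟩ := Prod.mk.inj h1
          refine ⟨c0 + 256 * c1, q, s, h2, h3, h4, fun Q e hr hd r hrr => ?_⟩
          refine chkRows_sound Q q s (nr + 1) _ e ?_ _ _ h5 r hrr
          intro g hg
          rcases List.mem_cons.1 hg with rfl | hg
          · exact hd
          · exact hr g hg
        · exact ih _ m n h1
      · exact ih _ m n h
    | [], h => simp [chkE] at h
    | [_], h => simp [chkE] at h
    | [_, _], h => simp [chkE] at h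
    | [_, _, _], h => simp [chkE] at h
    | [_, _, _, _], h => simp [chkE] at h
    | [_, _, _, _, _], h => simp [chkE] at h
    | [_, _, _, _, _, _], h => simp [chkE] at h

def memp (a b : ℕ) : List (ℕ × ℕ) → Bool
  | [] => false
  | (x, y) :: t => (decide (x = a) && decide (y = b)) || memp a b t

theorem memp_mem (a b : ℕ) : ∀ l : List (ℕ × ℕ), memp a b l = true → (a, b) ∈ l
  | [], h => by simp [memp] at h
  | (x, y) :: t, h => by
    rw [memp, Bool.or_eq_true, Bool.and_eq_true, decide_eq_true_eq, decide_eq_true_eq] at h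
    rcases h with ⟨rfl, rfl⟩ | h
    · exact List.mem_cons_self
    · exact List.mem_cons_of_mem _ (memp_mem a b t h)

def kf (kap : List ℕ) (m : ℕ) : ℕ := kap.getD m 0

/-- class certificates: `V m - V (κ m)` is a combination of the rows -/
def chkC (nr : ℕ) (rows : List V6) (kap : List ℕ) : ℕ → ℕ → List ℕ → Bool
  | _, 0, _ => true
  | m, k + 1, l => veq (vd m (kf kap m)) (comb (takeZ nr l) rows) && decide (kf kap m < 16) &&
      decide (kf kap (kf kap m) = kf kap m) && chkC nr rows kap (m + 1) k (l.drop nr)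

theorem chkC_sound (nr : ℕ) (rows : List V6) (kap : List ℕ) : ∀ (k m : ℕ) (l : List ℕ),
    chkC nr rows kap m k l = true → ∀ j, m ≤ j → j < m + k →
      (∃ cs, vd j (kf kap j) = comb cs rows) ∧ kf kap j < 16 ∧ kf kap (kf kap j) = kf kap j := by
  intro k
  induction k with
  | zero => intro m l _ j h1 h2; omega
  | succ k ih =>
    intro m l h j h1 h2
    rw [chkC] at h
    simp only [Bool.and_eq_true, decide_eq_true_eq] at h
    obtain ⟨⟨⟨g1, g2⟩, g3⟩, g4⟩ := h
    by_cases hj : j = m
    · subst hj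
      exact ⟨⟨_, veq_eq g1⟩, g2, g3⟩
    · exact ih (m + 1) _ g4 j (by omega) (by omega)

/-- coverage for a node with a single -/
def covS (kap : List ℕ) (s : ℕ) (ps : List (ℕ × ℕ)) : Bool :=
  (List.range 16).all (fun n => decide (n = s) || (decide (kf kap n ≠ s) && memp s (kf kap n) ps))

/-- coverage for a leaf: all pairs of representatives -/
def covL (kap : List ℕ) (ps : List (ℕ × ℕ)) : Bool :=
  (List.range 16).all (fun a => decide (kf kap a ≠ a) || (List.range 16).all (fun b =>
    decide (kf kap b ≠ b) || decide (b ≤ a) || memp a b ps))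

def unitv : ℕ → V6
  | 0 => ⟨1, 0, 0, 0, 0, 0⟩
  | 1 => ⟨0, 1, 0, 0, 0, 0⟩
  | 2 => ⟨0, 0, 1, 0, 0, 0⟩
  | 3 => ⟨0, 0, 0, 1, 0, 0⟩
  | 4 => ⟨0, 0, 0, 0, 1, 0⟩
  | _ => ⟨0, 0, 0, 0, 0, 1⟩

def chkU (E : ℤ) (nr : ℕ) (rows : List V6) : ℕ → ℕ → List ℕ → Bool
  | _, 0, _ => true
  | j, k + 1, l => veq (vsmul E (unitv j)) (comb (takeZ nr l) rows) && chkU E nr rows (j + 1) k (l.drop nr)

theorem chkU_sound (E : ℤ) (nr : ℕ) (rows : List V6) (Q : ℤ) (e : Fin 6 → ℤ)
    (hr : ∀ r ∈ rows, Q ∣ ld r e) : ∀ (k m : ℕ) (l : List ℕ),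
    chkU E nr rows m k l = true → ∀ j, m ≤ j → j < m + k → Q ∣ E * ld (unitv j) e := by
  intro k
  induction k with
  | zero => intro m l _ j h1 h2; omega
  | succ k ih =>
    intro m l h j h1 h2
    rw [chkU, Bool.and_eq_true] at h
    by_cases hj : j = m
    · subst hj
      rw [← ld_smul, veq_eq h.1]
      exact dvd_comb Q e _ _ hr
    · exact ih (m + 1) _ h.2 j (by omega) (by omega)

def cardOK (kap : List ℕ) (b : ℕ) : Bool :=
  decide (∀ m : Fin 16, (univ.filter (fun n : Fin 16 => kf kap m.val = kf kap n.val)).card ≤ b)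

def toV (w : List ℤ) : V6 := ⟨w.getD 0 0, w.getD 1 0, w.getD 2 0, w.getD 3 0, w.getD 4 0, w.getD 5 0⟩

def dotv (x y : V6) : ℤ :=
  Int.add (Int.mul x.a y.a) (Int.add (Int.mul x.b y.b) (Int.add (Int.mul x.c y.c)
    (Int.add (Int.mul x.d y.d) (Int.add (Int.mul x.e y.e) (Int.mul x.f y.f)))))

def orth (w : V6) : List V6 → Bool
  | [] => true
  | r :: rs => decide (dotv r w = 0) && orth w rs

theorem orth_sound (w : V6) : ∀ rs : List V6, orth w rs = true → ∀ r ∈ rs, dotv r w = 0
  | [], _, r, hr => by simp at hr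
  | r0 :: rs, h, r, hr => by
    rw [orth, Bool.and_eq_true, decide_eq_true_eq] at h
    rcases List.mem_cons.1 hr with rfl | hr
    · exact h.1
    · exact orth_sound w rs h.2 r hr

/-- the leaf check; returns the number of bytes used, plus one (0 = failure) -/
def chkLeaf (nr : ℕ) (rows : List V6) (kap : List ℕ) : List ℕ → ℕ
  | 1 :: j :: q :: s :: _ =>
    if decide (j < 19) && decide (q < 72) && orth (tr q s (toV (Wl.getD j []))) rows then 5 else 0
  | 2 :: E :: t =>
    if decide ((E : ℤ) ∈ ([4, 6, 8, 10, 12, 14, 16, 18, 20, 24] : List ℤ)) && cardOK kap 4 &&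
      chkU (E : ℤ) nr rows 0 6 t then 3 + 6 * nr else 0
  | 3 :: E :: t =>
    if decide ((E : ℤ) ∈ ([4, 6, 8, 12] : List ℤ)) && cardOK kap 6 &&
      chkU (E : ℤ) nr rows 0 6 t then 3 + 6 * nr else 0
  | 4 :: x :: t =>
    if decide (x < 19) && decide ((XNl.getD x (0, [])).2 = kap) &&
      chkU (XNl.getD x (0, [])).1 nr rows 0 6 t then 3 + 6 * nr else 0
  | _ => 0

def chkNode (i : ℕ) : Bool :=
  let rows := rowsOf i
  let nr := rows.length
  match NT.getD i (0, 0) with
  | (len, lit) =>
    match dig len lit with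
    | sing :: t =>
      let kap := t.take 16
      let l1 := t.drop 16
      chkC nr rows kap 0 16 l1 &&
      (match l1.drop (16 * nr) with
       | l2 =>
        if sing < 16 then
          (match l2 with
           | 0 :: e0 :: e1 :: t2 => covS kap sing (chkE i nr rows (e0 + 256 * e1) t2)
           | _ => false)
        else
          (match chkLeaf nr rows kap l2 with
           | 0 => false
           | u + 1 =>
             (match l2.drop u with
              | e0 :: e1 :: t2 => covL kap (chkE i nr rows (e0 + 256 * e1) t2)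
              | _ => false)))
    | _ => false

end Dag

end Pool.Agent.T6.H31.TC
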