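import Pool.Agent.T6.H31.TC.DagChk

set_option autoImplicit false

/-! Soundness of the node checker. -/

namespace Pool.Agent.T6.H31.TC

open Finset

namespace Dag

/-- the claim of a node -/
def PN (i : ℕ) : Prop := ∀ (Q : ℤ) (e : Fin 6 → ℤ), (∀ r ∈ rowsOf i, Q ∣ ld r e) → NoSingle Q e →
  ∃ e', Rel e e' ∧ Goal0 Q e'

theorem use_edge {i : ℕ} {rows : List V6} {m n : ℕ} (h : EdgeOK i rows m n)
    (hP : ∀ ch, i < ch → ch < 377 → PN ch) (Q : ℤ) (e : Fin 6 → ℤ)
    (hr : ∀ r ∈ rows, Q ∣ ld r e) (hd : Q ∣ ld (vd m n) e) (hns : NoSingle Q e) :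
    ∃ e', Rel e e' ∧ Goal0 Q e' := by
  obtain ⟨ch, q, s, h1, h2, h3, h4⟩ := h
  obtain ⟨e1, he1, hl⟩ := exists_act q s h3 e
  obtain ⟨e2, he2, hg⟩ := hP ch h1 h2 Q e1 (fun r hrr => by rw [hl]; exact h4 Q e hr hd r hrr)
    (noSingle_rel he1 hns)
  exact ⟨e2, rel_trans he1 he2, hg⟩

theorem vget_sV : ∀ (m : Fin 16) (k : Fin 6), vget (sV m.val) k.val = V m k := by decide

theorem V6_ext {x y : V6} (h : ∀ k : Fin 6, vget x k.val = vget y k.val) : x = y := by
  have h0 := h 0; have h1 := h 1; have h2 := h 2; have h3 := h 3; have h4 := h 4; have h5 := h 5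
  cases x; cases y
  simp only [vget, Fin.isValue] at h0 h1 h2 h3 h4 h5
  simp_all [vget]

theorem tr_get (idx s : ℕ) (r : V6) (j : Fin 6) :
    vget (tr idx s r) j.val = sg s j.val * vget r (qf idx j.val) := by
  fin_cases j <;> simp only [tr, vget, sgm_eq]

/-- transport of the sixteen vectors -/
theorem tr_sV (idx s : ℕ) (h : idx < 72) : ∃ τ : Fin 16 → Fin 16, ∀ m : Fin 16,
    tr idx s (sV m.val) = sV (τ m).val := by
  obtain ⟨σ, hσ, hq⟩ := exists_perm idx h
  choose τ hτ using fun m => exists_tau (e := 0) (e' := 0) σ (fun i => sg s (σ i).val) hσ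
    (fun i => sg_pm _ _) m
  refine ⟨τ, fun m => V6_ext fun j => ?_⟩
  rw [tr_get, vget_sV, hτ m j, Equiv.apply_symm_apply, ← hq j, vget_sV]

theorem tr_vd (idx s : ℕ) (m n : ℕ) :
    tr idx s (vd m n) = vadd (tr idx s (sV m)) (vsmul (-1) (tr idx s (sV n))) := by
  apply V6_ext
  intro j
  have h1 : ∀ (x y : V6) (k : ℕ), vget (vadd x y) k = vget x k + vget y k := by
    intro x y k
    match k with
    | 0 | 1 | 2 | 3 | 4 => rfl
    | k + 5 => rfl
  have h2 : ∀ (c : ℤ) (x : V6) (k : ℕ), vget (vsmul c x) k = c * vget x k := by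
    intro c x k
    match k with
    | 0 | 1 | 2 | 3 | 4 => rfl
    | k + 5 => rfl
  rw [tr_get, vd, h1, h2, h1, h2, tr_get, tr_get]
  ring

/-- invariance of the pairing under transport -/
theorem dot_tr (idx s : ℕ) (h : idx < 72) (v w : V6) :
    ld (tr idx s v) (fun j => vget (tr idx s w) j.val) = ld v (fun j => vget w j.val) := by
  obtain ⟨σ, hσ, hq⟩ := exists_perm idx h
  have h1 : ∀ r : V6, ∀ e' : Fin 6 → ℤ, ld r e' = ∑ i : Fin 6, vget r i.val * e' i := by
    intro r e'
    rw [Fin.sum_univ_six]
    rfl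
  rw [h1, h1, ← Equiv.sum_comp σ.symm (fun i => vget v i.val * vget w i.val)]
  apply Finset.sum_congr rfl
  intro j _
  rw [tr_get, tr_get, hq j]
  rcases sg_pm s j.val with h2 | h2 <;> rw [h2] <;> ring

theorem leafW (Q : ℤ) (e : Fin 6 → ℤ) (rows : List V6) (kap : List ℕ) (j q s : ℕ)
    (hj : j < 19) (hq : q < 72)
    (horth : orth (tr q s (toV (Wl.getD j []))) rows = true)
    (hc : ∀ m, m < 16 → (∃ cs, vd m (kf kap m) = comb cs rows) ∧ kf kap m < 16 ∧
      kf kap (kf kap m) = kf kap m)
    (hex : ∀ m n : Fin 16, Q ∣ dv m n e → kf kap m.val = kf kap n.val) :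
    ∃ e', Rel e e' ∧ Goal0 Q e' := by
  obtain ⟨e', he', hl⟩ := exists_act q s hq e
  refine ⟨e', he', Or.inl ⟨Wl.getD j [], ?_, ?_⟩⟩
  · have hlen : Wl.length = 19 := by decide
    rw [List.getD_eq_getElem _ _ (by rw [hlen]; exact hj)]
    exact List.getElem_mem _
  intro m n hd
  obtain ⟨τ, hτ⟩ := tr_sV q s hq
  set w : V6 := toV (Wl.getD j []) with hw
  set w0 : Fin 6 → ℤ := fun j => vget (tr q s w) j.val with hw0
  have hort : ∀ r ∈ rows, ld r w0 = 0 := by
    intro r hr
    have h1 := orth_sound _ _ horth r hr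
    rw [← h1]
    simp only [ld, dotv, hw0, Int.add_def, Int.mul_def]
    simp only [vget, Fin.isValue, Fin.val_zero, Fin.val_one, Fin.val_two]
    show _ * (tr q s w).a + _ * (tr q s w).b + _ * (tr q s w).c + _ * (tr q s w).d +
      _ * (tr q s w).e + _ * (tr q s w).f = _
    ring
  have hvd : ∀ a, a < 16 → ld (vd a (kf kap a)) w0 = 0 := by
    intro a ha
    obtain ⟨⟨cs, hcs⟩, -, -⟩ := hc a ha
    rw [hcs]
    exact comb_eq_zero w0 cs rows hort
  have e1 : dv m n e' = dv (τ m) (τ n) e := by
    rw [← ld_vd, hl, tr_vd, hτ, hτ]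
    exact ld_vd (τ m) (τ n) e
  rw [e1] at hd
  have hk := hex _ _ hd
  have hz : ld (vd (τ m).val (τ n).val) w0 = 0 := by
    have h1 := hvd (τ m).val (τ m).isLt
    have h2 := hvd (τ n).val (τ n).isLt
    rw [hk] at h1
    simp only [vd, ld_add, ld_smul] at h1 h2 ⊢
    linarith
  have e2 : dv m n (lvec (Wl.getD j [])) = ld (vd m.val n.val) (fun j => vget w j.val) := by
    rw [← ld_vd]
    rfl
  rw [e2, ← dot_tr q s hq, tr_vd, hτ, hτ]
  exact hz

theorem card_le (Q : ℤ) (e : Fin 6 → ℤ) (kap : List ℕ) (b : ℕ) (h : cardOK kap b = true)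
    (hex : ∀ m n : Fin 16, Q ∣ dv m n e → kf kap m.val = kf kap n.val) (m : Fin 16) :
    (univ.filter (fun n : Fin 16 => Q ∣ dv m n e)).card ≤ b := by
  rw [cardOK, decide_eq_true_eq] at h
  refine le_trans (Finset.card_le_card ?_) (h m)
  intro n hn
  rw [Finset.mem_filter] at hn ⊢
  exact ⟨hn.1, hex m n hn.2⟩

theorem ld_unitv (k : Fin 6) (e : Fin 6 → ℤ) : ld (unitv k.val) e = e k := by
  fin_cases k <;> simp [ld, unitv]

theorem leaf_sound (Q : ℤ) (e : Fin 6 → ℤ) (nr : ℕ) (rows : List V6) (kap : List ℕ)
    (l : List ℕ) (h : chkLeaf nr rows kap l ≠ 0) (hr : ∀ r ∈ rows, Q ∣ ld r e)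
    (hc : ∀ m, m < 16 → (∃ cs, vd m (kf kap m) = comb cs rows) ∧ kf kap m < 16 ∧
      kf kap (kf kap m) = kf kap m)
    (hex : ∀ m n : Fin 16, Q ∣ dv m n e ↔ kf kap m.val = kf kap n.val) :
    ∃ e', Rel e e' ∧ Goal0 Q e' := by
  have hU : ∀ (E : ℤ) (t : List ℕ), chkU E nr rows 0 6 t = true → ∀ i : Fin 6, Q ∣ E * e i := by
    intro E t ht i
    have := chkU_sound E nr rows Q e hr 6 0 t ht i.val (by omega) (by omega)
    rwa [ld_unitv] at this
  unfold chkLeaf at h
  split at h
  · next j q s _ =>
    split_ifs at h with hh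
    · simp only [Bool.and_eq_true, decide_eq_true_eq] at hh
      exact leafW Q e rows kap j q s hh.1.1 hh.1.2 hh.2 hc (fun m n => (hex m n).1)
    · exact absurd rfl h
  · next E t =>
    split_ifs at h with hh
    · simp only [Bool.and_eq_true, decide_eq_true_eq] at hh
      exact ⟨e, rel_refl e, Or.inr (Or.inl ⟨(E : ℤ), hh.1.1, hU _ t hh.2,
        card_le Q e kap 4 hh.1.2 (fun m n => (hex m n).1)⟩)⟩
    · exact absurd rfl h
  · next E t =>
    split_ifs at h with hh
    · simp only [Bool.and_eq_true, decide_eq_true_eq] at hh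
      exact ⟨e, rel_refl e, Or.inr (Or.inr (Or.inl ⟨(E : ℤ), hh.1.1, hU _ t hh.2,
        card_le Q e kap 6 hh.1.2 (fun m n => (hex m n).1)⟩))⟩
    · exact absurd rfl h
  · next x t =>
    split_ifs at h with hh
    · simp only [Bool.and_eq_true, decide_eq_true_eq] at hh
      have hlen : XNl.length = 19 := by decide
      refine ⟨e, rel_refl e, Or.inr (Or.inr (Or.inr ⟨XNl.getD x (0, []), ?_, hU _ t hh.2, ?_⟩))⟩
      · rw [List.getD_eq_getElem _ _ (by rw [hlen]; exact hh.1.1)]
        exact List.getElem_mem _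
      · rw [hh.1.2]
        exact hex
    · exact absurd rfl h
  · exact absurd rfl h

theorem node_sound (i : ℕ) (h : chkNode i = true) (hP : ∀ ch, i < ch → ch < 377 → PN ch) :
    PN i := by
  intro Q e hr hns
  unfold chkNode at h
  dsimp only at h
  split at h
  · next sing t ht =>
    rw [Bool.and_eq_true] at h
    obtain ⟨h1, h2⟩ := h
    set rows := rowsOf i with hrows
    set kap := t.take 16 with hkap
    have hc : ∀ m, m < 16 → (∃ cs, vd m (kf kap m) = comb cs rows) ∧ kf kap m < 16 ∧
        kf kap (kf kap m) = kf kap m := by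
      intro m hm
      exact chkC_sound _ rows kap 16 0 _ h1 m (by omega) (by omega)
    have hred : ∀ m : Fin 16, Q ∣ ld (vd m.val (kf kap m.val)) e := by
      intro m
      obtain ⟨⟨cs, hcs⟩, -, -⟩ := hc m.val m.isLt
      rw [hcs]
      exact dvd_comb Q e _ _ hr
    have hkk : ∀ m n : Fin 16, Q ∣ dv m n e → Q ∣ ld (vd (kf kap m.val) (kf kap n.val)) e := by
      intro m n hd
      have g1 := hred m
      have g2 := hred n
      have g3 : ld (vd (kf kap m.val) (kf kap n.val)) e =
          dv m n e - ld (vd m.val (kf kap m.val)) e + ld (vd n.val (kf kap n.val)) e := by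
        rw [← ld_vd]
        simp only [vd, ld_add, ld_smul]
        ring
      rw [g3]
      exact dvd_add (dvd_sub hd g1) g2
    split_ifs at h2 with hs
    · split at h2
      · next e0 e1 t2 _ =>
        unfold covS at h2
        rw [List.all_eq_true] at h2
        obtain ⟨n, hn1, hn2⟩ := hns ⟨sing, hs⟩
        have h3 := h2 n.val (List.mem_range.2 n.isLt)
        rw [Bool.or_eq_true, Bool.and_eq_true, decide_eq_true_eq, decide_eq_true_eq] at h3
        rcases h3 with h3 | ⟨h3, h4⟩
        · exact absurd (Fin.ext h3) hn1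
        · have h5 := chkE_sound _ _ _ _ _ _ _ (memp_mem _ _ _ h4)
          refine use_edge h5 hP Q e hr ?_ hns
          have g1 : Q ∣ dv n ⟨sing, hs⟩ e := by
            have : dv n ⟨sing, hs⟩ e = - dv ⟨sing, hs⟩ n e := by unfold dv; ring
            rw [this]; exact (dvd_neg).2 hn2
          have g2 := hred n
          have g3 : ld (vd sing (kf kap n.val)) e = dv ⟨sing, hs⟩ n e + ld (vd n.val (kf kap n.val)) e := by
            rw [← ld_vd]
            simp only [vd, ld_add, ld_smul]
            ring
          rw [g3]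
          exact dvd_add hn2 g2
      · exact absurd h2 (by simp)
    · split at h2
      · exact absurd h2 (by simp)
      · next u hu =>
        split at h2
        · next e0 e1 t2 _ =>
          by_cases hex : ∀ m n : Fin 16, Q ∣ dv m n e → kf kap m.val = kf kap n.val
          · refine leaf_sound Q e _ rows kap _ (by rw [hu]; exact Nat.succ_ne_zero _) hr hc
              (fun m n => ⟨hex m n, fun hk => ?_⟩)
            have g1 := hred m
            have g2 := hred n
            rw [hk] at g1
            have g3 : dv m n e = ld (vd m.val (kf kap n.val)) e - ld (vd n.val (kf kap n.val)) e := by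
              rw [← ld_vd]
              simp only [vd, ld_add, ld_smul]
              ring
            rw [g3]
            exact dvd_sub g1 g2
          · push Not at hex
            obtain ⟨m, n, hd, hne⟩ := hex
            have hd' := hkk m n hd
            unfold covL at h2
            rw [List.all_eq_true] at h2
            obtain ⟨-, hm1, hm2⟩ := hc m.val m.isLt
            obtain ⟨-, hn1, hn2⟩ := hc n.val n.isLt
            rcases lt_or_gt_of_ne hne with hlt | hlt
            · have h3 := h2 (kf kap m.val) (List.mem_range.2 hm1)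
              rw [Bool.or_eq_true, decide_eq_true_eq] at h3
              rcases h3 with h3 | h3
              · exact absurd hm2 h3
              · rw [List.all_eq_true] at h3
                have h4 := h3 (kf kap n.val) (List.mem_range.2 hn1)
                rw [Bool.or_eq_true, Bool.or_eq_true, decide_eq_true_eq, decide_eq_true_eq] at h4
                rcases h4 with (h4 | h4) | h4
                · exact absurd hn2 h4
                · omega
                · exact use_edge (chkE_sound _ _ _ _ _ _ _ (memp_mem _ _ _ h4)) hP Q e hr hd' hns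
            · have h3 := h2 (kf kap n.val) (List.mem_range.2 hn1)
              rw [Bool.or_eq_true, decide_eq_true_eq] at h3
              have hd'' : Q ∣ ld (vd (kf kap n.val) (kf kap m.val)) e := by
                have : ld (vd (kf kap n.val) (kf kap m.val)) e =
                    - ld (vd (kf kap m.val) (kf kap n.val)) e := by
                  simp only [vd, ld_add, ld_smul]; ring
                rw [this]; exact (dvd_neg).2 hd'
              rcases h3 with h3 | h3
              · exact absurd hn2 h3
              · rw [List.all_eq_true] at h3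
                have h4 := h3 (kf kap m.val) (List.mem_range.2 hm1)
                rw [Bool.or_eq_true, Bool.or_eq_true, decide_eq_true_eq, decide_eq_true_eq] at h4
                rcases h4 with (h4 | h4) | h4
                · exact absurd hm2 h4
                · omega
                · exact use_edge (chkE_sound _ _ _ _ _ _ _ (memp_mem _ _ _ h4)) hP Q e hr hd'' hns
        · exact absurd h2 (by simp)
  · exact absurd h (by simp)

theorem all_sound (h : ∀ i < 377, chkNode i = true) : StmtDAG := by
  have key : ∀ k i, i < 377 → 377 - i ≤ k → PN i := by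
    intro k
    induction k with
    | zero => intro i h1 h2; omega
    | succ k ih =>
      intro i h1 h2
      exact node_sound i (h i h1) (fun ch h3 h4 => ih ch h4 (by omega))
  have h0 : rowsOf 0 = [] := by decide +kernel
  intro Q e hns
  refine key 377 0 (by omega) (by omega) Q e ?_ hns
  rw [h0]
  intro r hr
  simp at hr

end Dag

end Pool.Agent.T6.H31.TC
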