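import Mathlib

set_option autoImplicit false

/-!
Definitions for the classification of the rational solutions of
`sin pi y0 * sin pi y1 * sin pi y2 = sin pi y3 * sin pi y4 * sin pi y5` (problem MP_6e4ab6_nt).
-/

namespace Pool.Agent.T6.H31.TC

open Finset

/-! ### The real side -/

/-- equality up to sign modulo the integers -/
def eqv (a b : ℝ) : Prop := ∃ k : ℤ, a = b + k ∨ a = -b + k

/-- block preserving or block swapping permutations of the six positions -/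
def Blk (σ : Equiv.Perm (Fin 6)) : Prop :=
  (∀ i, (σ i).val < 3 ↔ i.val < 3) ∨ (∀ i, (σ i).val < 3 ↔ 3 ≤ i.val)

def Match (y z : Fin 6 → ℝ) : Prop := ∃ σ : Equiv.Perm (Fin 6), Blk σ ∧ ∀ i, eqv (y i) (z (σ i))

def NZ (y : Fin 6 → ℝ) : Prop := ∀ i, Real.sin (Real.pi * y i) ≠ 0

/-- the equation -/
def SolY (y : Fin 6 → ℝ) : Prop :=
  |Real.sin (Real.pi * y 0) * Real.sin (Real.pi * y 1) * Real.sin (Real.pi * y 2)| =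
    |Real.sin (Real.pi * y 3) * Real.sin (Real.pi * y 4) * Real.sin (Real.pi * y 5)|

def CommR (y : Fin 6 → ℝ) : Prop := ∃ i j : Fin 6, i.val < 3 ∧ 3 ≤ j.val ∧ eqv (y i) (y j)

/-- the sixteen one-parameter families; the entry `(a, b)` stands for `a * p + b / 60` -/
def Fams : List (List (ℤ × ℤ)) := [
  [(0, 4), (0, 16), (2, 0), (0, 6), (1, 0), (1, 30)],
  [(0, 6), (0, 18), (2, 0), (0, 10), (1, 0), (1, 30)],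
  [(0, 8), (0, 28), (2, 0), (0, 18), (1, 0), (1, 30)],
  [(0, 5), (0, 25), (3, 0), (1, 0), (1, 20), (1, 40)],
  [(0, 5), (0, 25), (4, 0), (1, 0), (1, 30), (2, 30)],
  [(0, 6), (0, 18), (3, 0), (1, 0), (1, 20), (1, 40)],
  [(0, 6), (0, 18), (4, 0), (1, 0), (1, 30), (2, 30)],
  [(0, 10), (0, 10), (3, 0), (1, 0), (1, 20), (1, 40)],
  [(0, 10), (0, 10), (4, 0), (1, 0), (1, 30), (2, 30)],
  [(0, 10), (1, 10), (3, 0), (1, 0), (1, 20), (2, 20)],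
  [(0, 10), (3, 0), (3, 30), (2, 0), (2, 20), (2, 40)],
  [(1, 5), (1, 25), (4, 0), (1, 15), (2, 0), (3, 15)],
  [(1, 10), (1, 30), (3, 0), (1, 20), (2, 0), (2, 20)],
  [(2, 0), (2, 20), (4, 20), (2, 10), (3, 0), (3, 30)],
  [(1, 5), (1, 35), (6, 0), (2, 0), (2, 20), (4, 20)],
  [(3, 0), (3, 30), (6, 30), (4, 0), (4, 20), (4, 40)]]

/-- representatives of the sporadic solutions: `(N, [a, b, c, d, e, f])` stands for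
`sin (pi a / N) sin (pi b / N) sin (pi c / N) = sin (pi d / N) sin (pi e / N) sin (pi f / N)` -/
def Spor : List (ℕ × List ℕ) := [
  (30, [1, 3, 7, 2, 2, 5]), (30, [1, 5, 5, 2, 3, 4]), (30, [1, 5, 7, 2, 2, 9]), (30, [1, 5, 8, 3, 3, 4]),
  (30, [1, 5, 9, 2, 2, 13]), (30, [1, 5, 11, 2, 3, 8]), (30, [1, 7, 11, 2, 3, 14]), (30, [1, 8, 14, 3, 3, 9]),
  (30, [1, 8, 14, 3, 5, 5]), (30, [1, 9, 11, 2, 5, 8]), (30, [2, 5, 8, 3, 3, 9]), (30, [2, 8, 9, 5, 5, 5]),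
  (42, [1, 5, 11, 2, 2, 15]), (42, [1, 5, 13, 2, 3, 10]), (42, [1, 7, 7, 2, 3, 8]), (42, [1, 7, 11, 2, 4, 9]),
  (42, [1, 7, 13, 2, 3, 16]), (42, [1, 7, 13, 3, 3, 9]), (42, [1, 9, 15, 2, 4, 17]), (42, [1, 9, 15, 2, 7, 8]),
  (42, [1, 10, 16, 3, 3, 17]), (42, [1, 16, 20, 3, 7, 9]), (42, [2, 15, 16, 7, 7, 7]), (42, [3, 9, 15, 7, 7, 7]),
  (60, [1, 4, 21, 2, 5, 7]), (60, [1, 8, 27, 2, 5, 17]), (60, [1, 10, 13, 3, 5, 8]), (60, [1, 10, 19, 3, 6, 9]),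
  (60, [1, 10, 25, 3, 4, 17]), (60, [1, 10, 29, 4, 6, 8]), (60, [1, 13, 22, 3, 5, 16]), (60, [1, 13, 25, 3, 4, 26]),
  (60, [1, 13, 25, 3, 8, 10]), (60, [1, 13, 27, 5, 6, 8]), (60, [1, 13, 28, 3, 5, 18]), (60, [1, 14, 29, 4, 4, 18]),
  (60, [1, 16, 18, 3, 5, 17]), (60, [1, 16, 25, 3, 6, 17]), (60, [1, 16, 28, 3, 9, 11]), (60, [1, 16, 29, 6, 6, 8]),
  (60, [1, 18, 27, 4, 5, 17]), (60, [1, 18, 28, 5, 7, 9]), (60, [1, 18, 29, 4, 4, 26]), (60, [1, 18, 29, 4, 8, 10]),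
  (60, [1, 19, 27, 6, 6, 9]), (60, [1, 22, 29, 3, 6, 27]), (60, [1, 22, 29, 4, 6, 16]), (60, [1, 22, 29, 6, 6, 10]),
  (60, [1, 26, 29, 6, 8, 8]), (60, [2, 5, 25, 4, 6, 8]), (60, [2, 9, 21, 4, 4, 26]), (60, [2, 9, 21, 4, 8, 10]),
  (60, [2, 10, 22, 3, 6, 27]), (60, [2, 16, 28, 3, 10, 27]), (60, [2, 16, 28, 5, 6, 25]), (60, [3, 18, 27, 5, 10, 25]),
  (60, [3, 18, 27, 10, 10, 10]), (60, [4, 16, 18, 5, 10, 25]), (66, [1, 20, 32, 3, 9, 15]), (66, [2, 11, 20, 3, 9, 15]),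
  (70, [1, 21, 29, 4, 5, 24]), (84, [1, 14, 41, 4, 6, 16]), (84, [1, 18, 37, 4, 7, 17]), (84, [1, 22, 41, 4, 8, 18]),
  (84, [1, 25, 40, 5, 7, 18]), (84, [1, 26, 41, 4, 6, 32]), (84, [1, 26, 41, 6, 6, 18]), (84, [1, 38, 41, 6, 8, 16]),
  (84, [2, 7, 35, 4, 6, 16]), (84, [2, 32, 40, 3, 18, 39]), (84, [2, 32, 40, 6, 9, 33]), (84, [3, 18, 39, 4, 14, 32]),
  (84, [3, 30, 39, 8, 14, 20]), (84, [4, 30, 32, 7, 14, 35]), (84, [6, 18, 30, 7, 14, 35]), (90, [1, 17, 43, 5, 8, 12]),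
  (90, [1, 19, 35, 4, 9, 14]), (90, [1, 22, 38, 5, 9, 13]), (90, [1, 24, 27, 5, 8, 13]), (90, [1, 25, 35, 6, 8, 13]),
  (90, [1, 29, 31, 6, 9, 12]), (90, [5, 25, 35, 6, 24, 27]), (120, [1, 26, 59, 6, 10, 16]), (120, [1, 32, 53, 6, 11, 17]),
  (120, [1, 36, 49, 7, 10, 17]), (120, [1, 38, 59, 6, 12, 18]), (120, [1, 46, 59, 8, 10, 18]), (120, [1, 50, 59, 6, 8, 34]),
  (120, [1, 58, 59, 8, 12, 16]), (120, [2, 25, 35, 6, 8, 34]), (120, [2, 26, 50, 3, 16, 57]), (120, [3, 54, 57, 4, 32, 56]),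
  (120, [3, 54, 57, 8, 20, 32]), (120, [5, 50, 55, 6, 36, 54]), (120, [5, 50, 55, 8, 32, 36]), (126, [1, 41, 43, 6, 9, 24]),
  (126, [6, 45, 48, 7, 35, 49]), (126, [7, 35, 49, 9, 27, 45]), (140, [7, 42, 63, 10, 30, 50]), (168, [1, 82, 83, 8, 12, 32]),
  (168, [7, 70, 77, 8, 60, 64]), (168, [7, 70, 77, 12, 36, 60]), (180, [9, 54, 81, 10, 50, 70]), (210, [1, 45, 89, 11, 14, 18]),
  (210, [1, 63, 71, 12, 15, 18]), (210, [5, 21, 63, 10, 15, 40]), (210, [10, 75, 80, 14, 56, 63]), (210, [10, 75, 80, 21, 35, 63]),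
  (210, [14, 56, 63, 15, 45, 75]), (210, [15, 45, 75, 21, 35, 63]), (420, [20, 150, 160, 21, 126, 189])]

/-- the fifteen sporadic solutions of Myerson of the two-sine equation -/
def Myers : List (ℕ × List ℕ) := [
  (30, [1, 9, 2, 4]), (30, [1, 11, 3, 3]), (30, [2, 8, 3, 5]), (30, [2, 14, 3, 7]), (30, [5, 5, 3, 9]),
  (30, [4, 8, 3, 13]), (30, [4, 14, 5, 9]), (30, [7, 13, 9, 9]), (30, [8, 14, 9, 11]), (42, [3, 9, 2, 16]),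
  (42, [3, 15, 4, 10]), (42, [9, 15, 8, 20]), (60, [4, 16, 3, 27]), (60, [6, 18, 5, 25]), (60, [8, 28, 9, 21])]

/-- the vector of a family -/
noncomputable def famv (f : List (ℤ × ℤ)) (p : ℝ) (i : Fin 6) : ℝ :=
  ((f.getD i.val (0, 0)).1 : ℝ) * p + ((f.getD i.val (0, 0)).2 : ℝ) / 60

/-- the vector of a sporadic solution, multiplied by `t` -/
noncomputable def spv (s : ℕ × List ℕ) (t : ℤ) (i : Fin 6) : ℝ :=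
  (t : ℝ) * ((s.2.getD i.val 0 : ℕ) : ℝ) / (s.1 : ℝ)

/-- the nontrivial part of the list -/
def T1 (y : Fin 6 → ℝ) : Prop :=
  (∃ p q : ℝ, Match y ![p, p + 1 / 2, 2 * q, q, q + 1 / 2, 2 * p]) ∨
  (∃ f ∈ Fams, ∃ p : ℝ, Match y (famv f p)) ∨
  (∃ s ∈ Spor, ∃ t : ℤ, IsCoprime t (s.1 : ℤ) ∧ Match y (spv s t))

def Res (y : Fin 6 → ℝ) : Prop := CommR y ∨ T1 y

/-! ### The two-sine equation -/

def Blk4 (σ : Equiv.Perm (Fin 4)) : Prop :=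
  (∀ i, (σ i).val < 2 ↔ i.val < 2) ∨ (∀ i, (σ i).val < 2 ↔ 2 ≤ i.val)

def Match4 (y z : Fin 4 → ℝ) : Prop := ∃ σ : Equiv.Perm (Fin 4), Blk4 σ ∧ ∀ i, eqv (y i) (z (σ i))

noncomputable def spv4 (s : ℕ × List ℕ) (t : ℤ) (i : Fin 4) : ℝ :=
  (t : ℝ) * ((s.2.getD i.val 0 : ℕ) : ℝ) / (s.1 : ℝ)

def SolY4 (y : Fin 4 → ℝ) : Prop :=
  |Real.sin (Real.pi * y 0) * Real.sin (Real.pi * y 1)| =
    |Real.sin (Real.pi * y 2) * Real.sin (Real.pi * y 3)|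

def NZ4 (y : Fin 4 → ℝ) : Prop := ∀ i, Real.sin (Real.pi * y i) ≠ 0

def M2L (y : Fin 4 → ℝ) : Prop :=
  (∃ p q : ℝ, Match4 y ![p, q, p, q]) ∨
  (∃ p : ℝ, Match4 y ![p, p + 1 / 2, 2 * p, 1 / 6]) ∨
  (∃ s ∈ Myers, ∃ t : ℤ, IsCoprime t (s.1 : ℤ) ∧ Match4 y (spv4 s t))

/-- the full list for the triple equation -/
def Target (y : Fin 6 → ℝ) : Prop :=
  (∃ (r : ℝ) (w : Fin 4 → ℝ), M2L w ∧ Match y ![r, w 0, w 1, r, w 2, w 3]) ∨ T1 y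

/-- lines in the solution set -/
def Line (y : Fin 6 → ℝ) (w : List ℤ) : Prop := ∀ t : ℝ,
  Real.sin (Real.pi * (y 0 + (w.getD 0 0 : ℤ) * t)) * Real.sin (Real.pi * (y 1 + (w.getD 1 0 : ℤ) * t)) *
    Real.sin (Real.pi * (y 2 + (w.getD 2 0 : ℤ) * t)) =
  Real.sin (Real.pi * (y 3 + (w.getD 3 0 : ℤ) * t)) * Real.sin (Real.pi * (y 4 + (w.getD 4 0 : ℤ) * t)) *
    Real.sin (Real.pi * (y 5 + (w.getD 5 0 : ℤ) * t))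

/-- the nineteen directions -/
def Wl : List (List ℤ) := [
  [0, 0, 0, 0, 0, 1], [0, 0, 0, 0, 1, 1], [0, 0, 1, 0, 0, 1], [0, 0, 2, 0, 1, 1], [0, 0, 3, 1, 1, 1],
  [0, 0, 4, 1, 1, 2], [0, 1, 1, 0, 1, 1], [0, 1, 2, 1, 1, 1], [0, 1, 3, 1, 1, 2], [0, 2, 2, 1, 1, 2],
  [0, 3, 3, 2, 2, 2], [1, 1, 1, 1, 1, 1], [1, 1, 2, 1, 1, 2], [1, 1, 3, 1, 2, 2], [1, 1, 4, 1, 2, 3],
  [1, 1, 4, 2, 2, 2], [1, 1, 6, 2, 2, 4], [2, 2, 4, 2, 3, 3], [3, 3, 6, 4, 4, 4]]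

/-! ### The integer side -/

/-- the sixteen sign vectors: `m < 8` on the first block, `8 ≤ m` on the second -/
def V (m : Fin 16) (i : Fin 6) : ℤ :=
  if m.val / 8 = i.val / 3 then (if (m.val / 2 ^ (i.val % 3)) % 2 = 0 then 1 else -1) else 0

def dot (v e : Fin 6 → ℤ) : ℤ := ∑ i, v i * e i

def dv (m n : Fin 16) (e : Fin 6 → ℤ) : ℤ := dot (V m) e - dot (V n) e

/-- `exp (2 pi i k / N)` -/
noncomputable def z (N : ℕ) (k : ℤ) : ℂ :=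
  Complex.exp (((2 * Real.pi * (k : ℝ) / (N : ℝ) : ℝ) : ℂ) * Complex.I)

/-- exponents of the sixteen terms -/
def EE (N : ℕ) (e : Fin 6 → ℤ) (m : Fin 16) : ℤ :=
  dot (V m) e + if m.val < 8 then 0 else ((N / 2 : ℕ) : ℤ)

/-- class sums vanish modulo `N / D` -/
def CS {ι : Type} [Fintype ι] (E : ι → ℤ) (N D : ℕ) : Prop :=
  ∀ y : ℤ, ∑ i ∈ univ.filter (fun i => ((N / D : ℕ) : ℤ) ∣ E i - y), z N (E i) = 0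

/-- the prime `p` is really used by the class of `y` -/
def FullAt {ι : Type} [Fintype ι] (E : ι → ℤ) (N p D : ℕ) (y : ℤ) : Prop :=
  ∃ B : ℤ, (p : ℤ) ∣ B ∧ ((D / p : ℕ) : ℤ) ∣ B - 1 ∧ ∃ S : ℂ, S ≠ 0 ∧ ∀ r : ℤ,
    ∑ i ∈ univ.filter (fun i => ((p * (N / D) : ℕ) : ℤ) ∣ E i - y - r * ((N / D : ℕ) : ℤ)),
      z N (B * (E i - y)) = S

def Full {ι : Type} [Fintype ι] (E : ι → ℤ) (N p D : ℕ) : Prop := ∃ y : ℤ, FullAt E N p D y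

def NoSingle (Q : ℤ) (e : Fin 6 → ℤ) : Prop := ∀ m : Fin 16, ∃ n : Fin 16, n ≠ m ∧ Q ∣ dv m n e

/-- signed block permutations -/
def Rel (e e' : Fin 6 → ℤ) : Prop :=
  ∃ (σ : Equiv.Perm (Fin 6)) (ε : Fin 6 → ℤ), Blk σ ∧ (∀ i, ε i = 1 ∨ ε i = -1) ∧
    ∀ i, e' i = ε i * e (σ i)

/-- angle of an exponent -/
noncomputable def yy (N : ℕ) (e : Fin 6 → ℤ) (i : Fin 6) : ℝ := 1 / 2 - 2 * (e i : ℝ) / (N : ℝ)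

def lvec (w : List ℤ) : Fin 6 → ℤ := fun i => w.getD i.val 0

/-- exact partitions of the leaves with a big class, with the exponent `E0` -/
def XNl : List (ℤ × List ℕ) := [
  (8, [0, 0, 0, 0, 0, 0, 0, 0, 8, 9, 10, 11, 11, 8, 9, 10]),
  (4, [0, 0, 0, 0, 0, 0, 0, 0, 8, 9, 10, 11, 11, 10, 9, 8]),
  (16, [0, 1, 1, 0, 1, 0, 0, 1, 1, 9, 9, 11, 11, 13, 13, 0]),
  (6, [0, 0, 0, 0, 0, 0, 0, 0, 8, 9, 9, 11, 11, 8, 8, 9]),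
  (12, [0, 1, 2, 0, 2, 0, 1, 2, 2, 9, 9, 2, 0, 13, 13, 0]),
  (10, [0, 1, 2, 0, 2, 0, 6, 2, 2, 9, 1, 2, 0, 6, 9, 0]),
  (4, [0, 0, 0, 0, 0, 0, 0, 0, 8, 8, 10, 10, 10, 10, 8, 8]),
  (4, [0, 1, 0, 1, 1, 0, 1, 0, 0, 0, 10, 10, 10, 10, 0, 0]),
  (8, [0, 0, 0, 0, 0, 0, 0, 0, 0, 9, 10, 11, 10, 11, 9, 0]),
  (4, [0, 0, 0, 0, 0, 0, 0, 0, 8, 9, 9, 8, 9, 8, 8, 9]),
  (4, [0, 0, 0, 0, 0, 0, 0, 0, 0, 9, 10, 11, 11, 10, 9, 0]),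
  (6, [0, 0, 0, 0, 0, 0, 0, 0, 0, 9, 9, 11, 9, 11, 11, 0]),
  (6, [0, 1, 0, 1, 0, 1, 0, 1, 1, 0, 0, 11, 11, 1, 1, 0]),
  (2, [0, 0, 0, 0, 0, 0, 0, 0, 8, 8, 8, 8, 8, 8, 8, 8]),
  (4, [0, 0, 0, 0, 0, 0, 0, 0, 0, 0, 10, 10, 10, 10, 0, 0]),
  (4, [0, 1, 0, 1, 1, 0, 1, 0, 0, 0, 1, 1, 1, 1, 0, 0]),
  (4, [0, 1, 0, 1, 0, 1, 0, 1, 1, 0, 0, 1, 0, 1, 1, 0]),
  (4, [0, 1, 1, 0, 1, 0, 0, 1, 1, 0, 0, 1, 0, 1, 1, 0]),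
  (2, [0, 0, 0, 0, 0, 0, 0, 0, 0, 0, 0, 0, 0, 0, 0, 0])]

def Exact (Q : ℤ) (e : Fin 6 → ℤ) (κ : List ℕ) : Prop :=
  ∀ m n : Fin 16, Q ∣ dv m n e ↔ κ.getD m.val 0 = κ.getD n.val 0

def Goal0 (Q : ℤ) (e : Fin 6 → ℤ) : Prop :=
  (∃ w ∈ Wl, ∀ m n : Fin 16, Q ∣ dv m n e → dv m n (lvec w) = 0) ∨
  (∃ E0 ∈ ([4, 6, 8, 10, 12, 14, 16, 18, 20, 24] : List ℤ), (∀ i, Q ∣ E0 * e i) ∧
    ∀ m : Fin 16, (univ.filter (fun n : Fin 16 => Q ∣ dv m n e)).card ≤ 4) ∨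
  (∃ E0 ∈ ([4, 6, 8, 12] : List ℤ), (∀ i, Q ∣ E0 * e i) ∧
    ∀ m : Fin 16, (univ.filter (fun n : Fin 16 => Q ∣ dv m n e)).card ≤ 6) ∨
  (∃ x ∈ XNl, (∀ i, Q ∣ x.1 * e i) ∧ Exact Q e x.2)

end Pool.Agent.T6.H31.TC
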