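import Pool.Agent.T6.H31.TC.FinDefs

set_option autoImplicit false

/-!
Module FALL of the project TC (MP_6e4ab6_nt): soundness of the whole check for one level.
-/

namespace Pool.Agent.T6.H31.TC

namespace FC

namespace FALLx

theorem pinv (σ : Equiv.Perm (Fin 6)) (j : Fin 6) : σ (σ⁻¹ j) = j := Equiv.apply_symm_apply σ j

theorem eqv_rfl (a : ℝ) : eqv a a := ⟨0, Or.inl (by simp)⟩

/-- a permutation which preserves the blocks -/
def Pres (σ : Equiv.Perm (Fin 6)) : Prop := ∀ i, (σ i).val < 3 ↔ i.val < 3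

theorem pres_mul {σ τ : Equiv.Perm (Fin 6)} (h1 : Pres σ) (h2 : Pres τ) : Pres (σ * τ) := by
  intro i
  rw [Equiv.Perm.mul_apply, h1, h2]

theorem pres_inv {σ : Equiv.Perm (Fin 6)} (h1 : Pres σ) : Pres σ⁻¹ := by
  intro i
  have := h1 (σ⁻¹ i)
  rw [pinv] at this
  exact this.symm

theorem pres_swap {i j : Fin 6} (h : i.val < 3 ↔ j.val < 3) : Pres (Equiv.swap i j) := by
  intro k
  rw [Equiv.swap_apply_def]
  split_ifs with h1 h2
  · rw [h1]; exact h.symm
  · rw [h2]; exact h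
  · exact Iff.rfl

/-- sorting one block of three positions -/
theorem sort3 (a : Fin 6 → ℕ) (p q r : Fin 6) (hpq : p ≠ q) (hpr : p ≠ r) (hqr : q ≠ r)
    (h1 : p.val < 3 ↔ q.val < 3) (h2 : p.val < 3 ↔ r.val < 3) :
    ∃ σ : Equiv.Perm (Fin 6), Pres σ ∧ (∀ i, i ≠ p → i ≠ q → i ≠ r → σ i = i) ∧
      a (σ p) ≤ a (σ q) ∧ a (σ q) ≤ a (σ r) := by
  have h3 : q.val < 3 ↔ r.val < 3 := h1.symm.trans h2
  have sw : ∀ (i j k : Fin 6), k ≠ i → k ≠ j → Equiv.swap i j k = k := fun i j k h h' =>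
    Equiv.swap_apply_of_ne_of_ne h h'
  rcases le_total (a p) (a q) with hab | hab
  · rcases le_total (a q) (a r) with hbc | hbc
    · exact ⟨1, fun i => Iff.rfl, fun _ _ _ _ => rfl, hab, hbc⟩
    · rcases le_total (a p) (a r) with hac | hac
      · -- p ≤ r ≤ q
        refine ⟨Equiv.swap q r, pres_swap h3, fun i _ hi hi' => sw _ _ _ hi hi', ?_, ?_⟩
        · rw [sw q r p hpq hpr, Equiv.swap_apply_left]; exact hac
        · rw [Equiv.swap_apply_left, Equiv.swap_apply_right]; exact hbc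
      · -- r ≤ p ≤ q
        refine ⟨Equiv.swap p r * Equiv.swap q r, pres_mul (pres_swap h2) (pres_swap h3),
          fun i hi hi' hi'' => ?_, ?_, ?_⟩
        · rw [Equiv.Perm.mul_apply, sw q r i hi' hi'', sw p r i hi hi'']
        · rw [Equiv.Perm.mul_apply, Equiv.Perm.mul_apply, sw q r p hpq hpr,
            Equiv.swap_apply_left, Equiv.swap_apply_left, Equiv.swap_apply_right]
          exact hac
        · rw [Equiv.Perm.mul_apply, Equiv.Perm.mul_apply, Equiv.swap_apply_left,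
            Equiv.swap_apply_right, Equiv.swap_apply_right, sw p r q hpq.symm hqr]
          exact hab
  · rcases le_total (a q) (a r) with hbc | hbc
    · rcases le_total (a p) (a r) with hac | hac
      · -- q ≤ p ≤ r
        refine ⟨Equiv.swap p q, pres_swap h1, fun i hi hi' _ => sw _ _ _ hi hi', ?_, ?_⟩
        · rw [Equiv.swap_apply_left, Equiv.swap_apply_right]; exact hab
        · rw [Equiv.swap_apply_right, sw p q r hpr.symm hqr.symm]; exact hac
      · -- q ≤ r ≤ p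
        refine ⟨Equiv.swap p q * Equiv.swap q r, pres_mul (pres_swap h1) (pres_swap h3),
          fun i hi hi' hi'' => ?_, ?_, ?_⟩
        · rw [Equiv.Perm.mul_apply, sw q r i hi' hi'', sw p q i hi hi']
        · rw [Equiv.Perm.mul_apply, Equiv.Perm.mul_apply, sw q r p hpq hpr,
            Equiv.swap_apply_left, Equiv.swap_apply_left, sw p q r hpr.symm hqr.symm]
          exact hbc
        · rw [Equiv.Perm.mul_apply, Equiv.Perm.mul_apply, Equiv.swap_apply_left,
            Equiv.swap_apply_right, Equiv.swap_apply_right, sw p q r hpr.symm hqr.symm]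
          exact hac
    · -- r ≤ q ≤ p
      refine ⟨Equiv.swap p r, pres_swap h2, fun i hi _ hi'' => sw _ _ _ hi hi'', ?_, ?_⟩
      · rw [Equiv.swap_apply_left, sw p r q hpq.symm hqr]; exact hbc
      · rw [Equiv.swap_apply_right, sw p r q hpq.symm hqr]; exact hab

theorem sort6 (a : Fin 6 → ℕ) : ∃ σ : Equiv.Perm (Fin 6), Pres σ ∧
    a (σ 0) ≤ a (σ 1) ∧ a (σ 1) ≤ a (σ 2) ∧ a (σ 3) ≤ a (σ 4) ∧ a (σ 4) ≤ a (σ 5) := by
  obtain ⟨σ, h1, h2, h3, h4⟩ := sort3 a 0 1 2 (by decide) (by decide) (by decide) (by decide)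
    (by decide)
  obtain ⟨τ, g1, g2, g3, g4⟩ := sort3 (fun i => a (σ i)) 3 4 5 (by decide) (by decide) (by decide)
    (by decide) (by decide)
  refine ⟨σ * τ, pres_mul h1 g1, ?_, ?_, ?_, ?_⟩
  · rw [Equiv.Perm.mul_apply, Equiv.Perm.mul_apply, g2 0 (by decide) (by decide) (by decide),
      g2 1 (by decide) (by decide) (by decide)]
    exact h3
  · rw [Equiv.Perm.mul_apply, Equiv.Perm.mul_apply, g2 1 (by decide) (by decide) (by decide),
      g2 2 (by decide) (by decide) (by decide)]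
    exact h4
  · rw [Equiv.Perm.mul_apply, Equiv.Perm.mul_apply]
    exact g3
  · rw [Equiv.Perm.mul_apply, Equiv.Perm.mul_apply]
    exact g4

/-- the swap of the two blocks -/
def bs : Equiv.Perm (Fin 6) := Equiv.swap 0 3 * Equiv.swap 1 4 * Equiv.swap 2 5

theorem bs_blk : Blk bs := by
  right
  decide

theorem bs_vals : bs 0 = 3 ∧ bs 1 = 4 ∧ bs 2 = 5 ∧ bs 3 = 0 ∧ bs 4 = 1 ∧ bs 5 = 2 := by decide

theorem match_swap (N : ℕ) (t u : Tri) : Match (pv N t u) (pv N u t) := by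
  refine ⟨bs, bs_blk, fun i => ?_⟩
  obtain ⟨h0, h1, h2, h3, h4, h5⟩ := bs_vals
  fin_cases i
  · show eqv _ (pv N u t (bs 0)); rw [h0]; exact eqv_rfl _
  · show eqv _ (pv N u t (bs 1)); rw [h1]; exact eqv_rfl _
  · show eqv _ (pv N u t (bs 2)); rw [h2]; exact eqv_rfl _
  · show eqv _ (pv N u t (bs 3)); rw [h3]; exact eqv_rfl _
  · show eqv _ (pv N u t (bs 4)); rw [h4]; exact eqv_rfl _
  · show eqv _ (pv N u t (bs 5)); rw [h5]; exact eqv_rfl _

theorem vm_mem {vm : ℕ} {vals : List ℕ} (h : vmOK vm vals = true) {a : ℕ} (ha : a ∈ vals) :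
    Nat.testBit vm a = true := by
  unfold vmOK at h
  simp only [Bool.and_eq_true, decide_eq_true_eq, List.all_eq_true, List.mem_range] at h
  obtain ⟨⟨_, h2⟩, h3⟩ := h
  have h4 : a < 256 := by
    have := h2 a ha
    exact (iff_of_eq Nat.blt_eq).1 this
  have h5 := h3 a h4
  have h6 : (vals.any fun v => Nat.beq v a) = true := by
    rw [List.any_eq_true]
    exact ⟨a, ha, Nat.beq_refl a⟩
  rw [h6] at h5
  simpa using h5

end FALLx

open FALLx

theorem fall (h1 : StmtFKEY) (h2 : StmtFDIG) (h3 : StmtFPR) (hi : StmtI2) : StmtFALL := by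
  intro N l g w l2 g2 w2 b d vm Lp Lp2 qg qw qg2 qw2 vals gs s hN hl hl2 hqg hqw hqg2 hqw2 hvals
    hnd htab htab2 hcnt hall a ha hsol
  obtain ⟨σ, hσ, s1, s2, s3, s4⟩ := sort6 a
  set c : Fin 6 → ℕ := fun i => a (σ i) with hc
  have hcm : ∀ i, c i ∈ vals := fun i => ha (σ i)
  set t : Tri := (c 0, c 1, c 2) with ht
  set u : Tri := (c 3, c 4, c 5) with hu
  have hpv : pv N t u = fun i => (c i : ℝ) / N := by
    funext i
    fin_cases i <;> rfl
  -- the two matches
  have m1 : Match (fun i => (c i : ℝ) / N) (fun i => (a i : ℝ) / N) :=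
    ⟨σ, Or.inl hσ, fun i => eqv_rfl _⟩
  have m2 : Match (fun i => (a i : ℝ) / N) (fun i => (c i : ℝ) / N) := by
    refine ⟨σ⁻¹, Or.inl (pres_inv hσ), fun i => ?_⟩
    show eqv ((a i : ℝ) / N) ((a (σ (σ⁻¹ i)) : ℝ) / N)
    rw [pinv]
    exact eqv_rfl _
  have hsolc : SolY (fun i => (c i : ℝ) / N) := (hi _ _ m1).1 hsol
  have back : Res (fun i => (c i : ℝ) / N) → Res (fun i => (a i : ℝ) / N) :=
    (hi _ _ m2).2.2.1
  apply back
  by_cases htu : t = u
  · left
    refine ⟨0, 3, by decide, by decide, 0, Or.inl ?_⟩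
    have : c 0 = c 3 := congrArg (fun x : Tri => x.1) htu
    show (c 0 : ℝ) / N = (c 3 : ℝ) / N + ((0 : ℤ) : ℝ)
    rw [this]
    simp
  have k1 : key (l - 1) Lp t = key (l - 1) Lp u :=
    h1 N l g w qg qw vals Lp hN hl hqg hqw htab hvals hnd c hcm hsolc
  have k2 : key (l2 - 1) Lp2 t = key (l2 - 1) Lp2 u :=
    h1 N l2 g2 w2 qg2 qw2 vals Lp2 hN hl2 hqg2 hqw2 htab2 hvals hnd c hcm hsolc
  have hvm : vmOK vm vals = true := by
    unfold cntOK at hcnt
    simp only [Bool.and_eq_true] at hcnt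
    exact hcnt.1.1.1.2
  have vt : vOK vm t = true := by
    unfold vOK
    simp only [Bool.and_eq_true]
    exact ⟨⟨⟨⟨vm_mem hvm (hcm 0), vm_mem hvm (hcm 1)⟩, vm_mem hvm (hcm 2)⟩,
      (iff_of_eq Nat.ble_eq).2 s1⟩, (iff_of_eq Nat.ble_eq).2 s2⟩
  have vu : vOK vm u = true := by
    unfold vOK
    simp only [Bool.and_eq_true]
    exact ⟨⟨⟨⟨vm_mem hvm (hcm 3), vm_mem hvm (hcm 4)⟩, vm_mem hvm (hcm 5)⟩,
      (iff_of_eq Nat.ble_eq).2 s3⟩, (iff_of_eq Nat.ble_eq).2 s4⟩
  have hM : 0 < l - 1 := by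
    have := hl.two_le
    omega
  obtain ⟨x, hx, htx, hux⟩ := h2 b d (l - 1) vm vals Lp gs hM hnd hcnt t u vt vu k1 htu
  rw [← hpv]
  rcases h3 N (l2 - 1) Lp2 gs s hN hall x hx t htx u hux htu k2 with h | h
  · exact h
  · exact (hi _ _ (match_swap N t u)).2.2.1 h

/-- the values of the mixed level -/
theorem fmixv (h : FINv 420 [7, 10, 14, 20, 21, 28, 30, 35, 40, 42, 49, 50, 56, 60, 63, 70, 77, 80,
    84, 90, 91, 98, 100, 105, 110, 112, 119, 120, 126, 130, 133, 140, 147, 150, 154, 160, 161, 168,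
    170, 175, 180, 182, 189, 190, 196, 200, 203, 210]) : FINmix := by
  intro a ha hsol
  have e : (fun i : Fin 6 => (a i : ℝ) / (if i.val < 3 then 42 else 60)) =
      fun i : Fin 6 => (((if i.val < 3 then 10 * a i else 7 * a i : ℕ)) : ℝ) / ((420 : ℕ) : ℝ) := by
    funext i
    by_cases hi : i.val < 3
    · rw [if_pos hi, if_pos hi]
      push_cast
      ring
    · rw [if_neg hi, if_neg hi]
      push_cast
      ring
  rw [e] at hsol ⊢
  refine h (fun i => if i.val < 3 then 10 * a i else 7 * a i) ?_ hsol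
  intro i
  obtain ⟨h1, h2, h3⟩ := ha i
  by_cases hi : i.val < 3
  · have h4 := h2 hi
    show (if i.val < 3 then 10 * a i else 7 * a i) ∈ _
    rw [if_pos hi]
    have h5 : a i ≤ 21 := by omega
    clear e hsol h h2 h3 ha
    generalize a i = n at *
    interval_cases n <;> simp
  · have h4 := h3 (by omega)
    show (if i.val < 3 then 10 * a i else 7 * a i) ∈ _
    rw [if_neg hi]
    have h5 : a i ≤ 30 := by omega
    clear e hsol h h2 h3 ha
    generalize a i = n at *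
    interval_cases n <;> simp

/-- all values -/
theorem fst {N : ℕ} (h : FINv N ((List.range (N / 2)).map (· + 1))) : FINst N := by
  intro a ha hsol
  refine h a (fun i => ?_) hsol
  obtain ⟨h1, h2⟩ := ha i
  rw [List.mem_map]
  exact ⟨a i - 1, List.mem_range.2 (by omega), by omega⟩

end FC

end Pool.Agent.T6.H31.TC
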