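import Pool.Agent.T6.H31.TC.FinDefs

set_option autoImplicit false

/-! Module FDIG: soundness of the counting check. -/

namespace Pool.Agent.T6.H31.TC
namespace FC
namespace ModFDIG

/-! ### `build` -/

lemma sumSnd_eq (l : List (ℕ × ℕ)) : sumSnd l = (l.map (fun x => x.2)).sum := by
  induction l with
  | nil => rfl
  | cons x l ih => rw [sumSnd, ih, List.map_cons, List.sum_cons]

lemma split_sum (c : ℕ) (g : ℕ × ℕ → ℕ) (l : List (ℕ × ℕ)) :
    (l.map g).sum = ((l.filter (fun y => Nat.blt y.1 c)).map g).sum +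
      ((l.filter (fun y => Nat.ble c y.1)).map g).sum := by
  induction l with
  | nil => rfl
  | cons x l ih =>
    rw [List.map_cons, List.sum_cons, List.filter_cons, List.filter_cons, ih]
    rcases Nat.lt_or_ge x.1 c with h | h
    · have h1 : Nat.blt x.1 c = true := by
        unfold Nat.blt; exact Nat.ble_eq.mpr h
      have h2 : Nat.ble c x.1 = false := by
        rw [Bool.eq_false_iff]; intro h'; have := Nat.ble_eq.mp h'; omega
      rw [if_pos h1, h2, if_neg (by simp), List.map_cons, List.sum_cons]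
      ring
    · have h1 : Nat.blt x.1 c = false := by
        rw [Bool.eq_false_iff]; unfold Nat.blt; intro h'; have := Nat.ble_eq.mp h'; omega
      have h2 : Nat.ble c x.1 = true := Nat.ble_eq.mpr h
      rw [if_pos h2, h1, if_neg (by simp), List.map_cons, List.sum_cons]
      ring

lemma build_eq (b : ℕ) : ∀ (d : ℕ) (l : List (ℕ × ℕ)), (∀ x ∈ l, x.1 < 2 ^ d) →
    build b d l = (l.map (fun x => x.2 * 2 ^ (b * x.1))).sum := by
  intro d
  induction d with
  | zero =>
    intro l hl
    rw [build, sumSnd_eq]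
    congr 1
    apply List.map_congr_left
    intro x hx
    have := hl x hx
    have h0 : x.1 = 0 := by simpa using this
    rw [h0]; simp
  | succ d ih =>
    intro l hl
    rw [build]
    split_ifs with he
    · have : l = [] := List.isEmpty_iff.mp he
      subst this; rfl
    · rw [split_sum (2 ^ d) (fun x => x.2 * 2 ^ (b * x.1)) l]
      congr 1
      · apply ih
        intro x hx
        rw [List.mem_filter] at hx
        have h := hx.2
        unfold Nat.blt at h
        have := Nat.ble_eq.mp h
        omega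
      · rw [ih]
        · rw [Nat.shiftLeft_eq, List.map_map, ← List.sum_map_mul_right]
          congr 1
          apply List.map_congr_left
          intro x hx
          rw [List.mem_filter] at hx
          have h := Nat.ble_eq.mp hx.2
          simp only [Function.comp]
          rw [mul_assoc, ← pow_add, ← mul_add, Nat.sub_add_cancel h]
        · intro x hx
          rw [List.mem_map] at hx
          obtain ⟨y, hy, rfl⟩ := hx
          rw [List.mem_filter] at hy
          have h1 := hl y hy.1
          have h2 := Nat.ble_eq.mp hy.2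
          rw [pow_succ] at h1
          simp only
          omega

/-! ### Newton's identities -/

def T2 : List ℕ → List (ℕ × ℕ)
  | [] => []
  | x :: V => (x :: V).map (fun z => (x, z)) ++ T2 V

def T3 : List ℕ → List Tri
  | [] => []
  | x :: V => (T2 (x :: V)).map (fun p => (x, p)) ++ T3 V

lemma sum_T2 (f : ℕ → ℕ) (V : List ℕ) :
    2 * ((T2 V).map (fun p => f p.1 * f p.2)).sum =
      (V.map f).sum * (V.map f).sum + (V.map (fun x => f x * f x)).sum := by
  induction V with
  | nil => rfl
  | cons x V ih =>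
    have h : ((T2 (x :: V)).map (fun p => f p.1 * f p.2)).sum =
        f x * ((x :: V).map f).sum + ((T2 V).map (fun p => f p.1 * f p.2)).sum := by
      rw [T2, List.map_append, List.sum_append, List.map_map, ← List.sum_map_mul_left]
      rfl
    rw [h, mul_add, ih]
    simp only [List.map_cons, List.sum_cons]
    ring

lemma sum_T3 (f : ℕ → ℕ) (V : List ℕ) :
    6 * ((T3 V).map (fun t => f t.1 * f t.2.1 * f t.2.2)).sum =
      (V.map f).sum * (V.map f).sum * (V.map f).sum +
      3 * ((V.map f).sum * (V.map (fun x => f x * f x)).sum) +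
      2 * (V.map (fun x => f x * f x * f x)).sum := by
  induction V with
  | nil => rfl
  | cons x V ih =>
    have h : ((T3 (x :: V)).map (fun t => f t.1 * f t.2.1 * f t.2.2)).sum =
        f x * ((T2 (x :: V)).map (fun p => f p.1 * f p.2)).sum +
          ((T3 V).map (fun t => f t.1 * f t.2.1 * f t.2.2)).sum := by
      rw [T3, List.map_append, List.sum_append, List.map_map, ← List.sum_map_mul_left]
      congr 2
      apply List.map_congr_left
      intro p _
      simp only [Function.comp]
      ring
    have h2 := sum_T2 f (x :: V)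
    have h3 : 6 * (f x * ((T2 (x :: V)).map (fun p => f p.1 * f p.2)).sum) =
        3 * f x * (((x :: V).map f).sum * ((x :: V).map f).sum +
          ((x :: V).map (fun x => f x * f x)).sum) := by
      rw [← h2]; ring
    rw [h, mul_add, ih, h3]
    simp only [List.map_cons, List.sum_cons]
    ring

lemma len_T3 (V : List ℕ) : (T3 V).length = nT V.length := by
  have h := sum_T3 (fun _ => 1) V
  simp only [mul_one, List.map_const', List.sum_replicate, smul_eq_mul] at h
  unfold nT
  symm
  apply Nat.div_eq_of_eq_mul_right (by norm_num)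
  rw [h]; ring

lemma mem_T2 : ∀ (V : List ℕ), V.Pairwise (· < ·) → ∀ p : ℕ × ℕ,
    p ∈ T2 V ↔ p.1 ∈ V ∧ p.2 ∈ V ∧ p.1 ≤ p.2 := by
  intro V
  induction V with
  | nil => intro _ p; simp [T2]
  | cons x V ih =>
    intro hV p
    rw [List.pairwise_cons] at hV
    rw [T2, List.mem_append, ih hV.2, List.mem_map]
    constructor
    · rintro (⟨z, hz, rfl⟩ | ⟨h1, h2, h3⟩)
      · refine ⟨List.mem_cons_self, hz, ?_⟩
        rw [List.mem_cons] at hz
        rcases hz with rfl | hz
        · exact le_rfl
        · exact (hV.1 z hz).le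
      · exact ⟨List.mem_cons_of_mem _ h1, List.mem_cons_of_mem _ h2, h3⟩
    · rintro ⟨h1, h2, h3⟩
      rw [List.mem_cons] at h1
      rcases h1 with h1 | h1
      · left; exact ⟨p.2, h2, by rw [← h1]⟩
      · rw [List.mem_cons] at h2
        rcases h2 with h2 | h2
        · exfalso
          have := hV.1 _ h1
          omega
        · right; exact ⟨h1, h2, h3⟩

lemma mem_T3 : ∀ (V : List ℕ), V.Pairwise (· < ·) → ∀ t : Tri,
    t ∈ T3 V ↔ t.1 ∈ V ∧ t.2.1 ∈ V ∧ t.2.2 ∈ V ∧ t.1 ≤ t.2.1 ∧ t.2.1 ≤ t.2.2 := by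
  intro V
  induction V with
  | nil => intro _ p; simp [T3]
  | cons x V ih =>
    intro hV t
    have hV' := hV
    rw [List.pairwise_cons] at hV
    rw [T3, List.mem_append, ih hV.2, List.mem_map]
    constructor
    · rintro (⟨p, hp, rfl⟩ | ⟨h1, h2, h3, h4, h5⟩)
      · rw [mem_T2 _ hV'] at hp
        obtain ⟨h1, h2, h3⟩ := hp
        refine ⟨List.mem_cons_self, h1, h2, ?_, h3⟩
        rw [List.mem_cons] at h1
        rcases h1 with h1 | h1
        · exact h1.ge
        · exact (hV.1 _ h1).le
      · exact ⟨List.mem_cons_of_mem _ h1, List.mem_cons_of_mem _ h2, List.mem_cons_of_mem _ h3,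
          h4, h5⟩
    · rintro ⟨h1, h2, h3, h4, h5⟩
      rw [List.mem_cons] at h1
      rcases h1 with h1 | h1
      · left
        refine ⟨t.2, ?_, by rw [← h1]⟩
        rw [mem_T2 _ hV']
        exact ⟨h2, h3, h5⟩
      · have hx := hV.1 _ h1
        rw [List.mem_cons] at h2 h3
        rcases h2 with h2 | h2
        · exfalso; omega
        · rcases h3 with h3 | h3
          · exfalso; omega
          · right; exact ⟨h1, h2, h3, h4, h5⟩

lemma nodup_T2 : ∀ (V : List ℕ), V.Pairwise (· < ·) → (T2 V).Nodup := by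
  intro V
  induction V with
  | nil => intro _; exact List.nodup_nil
  | cons x V ih =>
    intro hV
    have hV' := hV
    rw [List.pairwise_cons] at hV
    rw [T2, List.nodup_append]
    refine ⟨?_, ih hV.2, ?_⟩
    · apply List.Nodup.map
      · intro a b hab
        simpa using hab
      · exact hV'.imp (fun h => h.ne)
    · intro a ha b hb hab
      subst hab
      rw [List.mem_map] at ha
      obtain ⟨z, -, rfl⟩ := ha
      rw [mem_T2 _ hV.2] at hb
      have := hV.1 _ hb.1
      simp only at this
      omega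

lemma nodup_T3 : ∀ (V : List ℕ), V.Pairwise (· < ·) → (T3 V).Nodup := by
  intro V
  induction V with
  | nil => intro _; exact List.nodup_nil
  | cons x V ih =>
    intro hV
    have hV' := hV
    rw [List.pairwise_cons] at hV
    rw [T3, List.nodup_append]
    refine ⟨?_, ih hV.2, ?_⟩
    · apply List.Nodup.map
      · intro a b hab
        simpa using hab
      · exact nodup_T2 _ hV'
    · intro a ha b hb hab
      subst hab
      rw [List.mem_map] at ha
      obtain ⟨z, -, rfl⟩ := ha
      rw [mem_T3 _ hV.2] at hb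
      have := hV.1 _ hb.1
      simp only at this
      omega

/-! ### Folding -/

def DD (B : ℕ) (K : List ℕ) : ℕ := (K.map (fun k => B ^ k)).sum

lemma fold_eq (b M : ℕ) (K : List ℕ) (hK : K.length < 2 ^ b) :
    fold (b * M) (DD (2 ^ b) K) = DD (2 ^ b) (K.map (fun k => if k < M then k else k - M)) := by
  obtain ⟨B, hB⟩ : ∃ B, B = 2 ^ b := ⟨_, rfl⟩
  have hB0 : 0 < B := by rw [hB]; positivity
  have e1 : 2 ^ (b * M) = B ^ M := by rw [hB, pow_mul]
  have key : ∀ K : List ℕ, ∃ lo hi : ℕ, DD B K = lo + B ^ M * hi ∧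
      DD B (K.map (fun k => if k < M then k else k - M)) = lo + hi ∧
      lo * B ≤ K.length * B ^ M := by
    intro K
    induction K with
    | nil => exact ⟨0, 0, by simp [DD], by simp [DD], by simp⟩
    | cons x K ih =>
      obtain ⟨lo, hi, h1, h2, h3⟩ := ih
      unfold DD at h1 h2 ⊢
      by_cases hx : x < M
      · refine ⟨B ^ x + lo, hi, ?_, ?_, ?_⟩
        · rw [List.map_cons, List.sum_cons, h1]; ring
        · rw [List.map_cons, List.map_cons, List.sum_cons, h2, if_pos hx]; ring
        · have h4 : B ^ x * B ≤ B ^ M := by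
            rw [← pow_succ]; exact Nat.pow_le_pow_right hB0 hx
          rw [List.length_cons, add_mul, add_mul, one_mul]
          omega
      · refine ⟨lo, B ^ (x - M) + hi, ?_, ?_, ?_⟩
        · rw [List.map_cons, List.sum_cons, h1, mul_add, ← pow_add, Nat.add_sub_cancel' (by omega)]
          ring
        · rw [List.map_cons, List.map_cons, List.sum_cons, h2, if_neg hx]; ring
        · rw [List.length_cons, add_mul]
          omega
  obtain ⟨lo, hi, h1, h2, h3⟩ := key K
  have hlo : lo < B ^ M := by
    have h4 : K.length * B ^ M < B * B ^ M :=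
      Nat.mul_lt_mul_of_pos_right (by rw [hB]; exact hK) (by positivity)
    have h5 : lo * B < B ^ M * B := by
      calc lo * B ≤ K.length * B ^ M := h3
        _ < B * B ^ M := h4
        _ = B ^ M * B := by ring
    exact lt_of_mul_lt_mul_right h5 (Nat.zero_le _)
  rw [← hB, h2, h1]
  unfold fold
  rw [Nat.shiftRight_eq_div_pow, Nat.shiftLeft_eq, e1]
  have h6 : (lo + B ^ M * hi) / B ^ M = hi := by
    rw [Nat.add_mul_div_left _ _ (by positivity), Nat.div_eq_of_lt hlo, zero_add]
  rw [h6, mul_comm hi, Nat.add_sub_cancel]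

/-! ### Digits -/

lemma digit (B : ℕ) (hB : 0 < B) : ∀ (M : ℕ) (e : ℕ → ℕ), (∀ k, e k < B) → ∀ j < M,
    (∑ k ∈ Finset.range M, e k * B ^ k) / B ^ j % B = e j := by
  intro M
  induction M with
  | zero => intro e _ j hj; omega
  | succ M ih =>
    intro e he j hj
    have hs : ∑ k ∈ Finset.range (M + 1), e k * B ^ k =
        e 0 + B * ∑ k ∈ Finset.range M, e (k + 1) * B ^ k := by
      rw [Finset.sum_range_succ', Finset.mul_sum, add_comm]
      congr 1
      · simp
      · apply Finset.sum_congr rfl
        intro k _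
        rw [pow_succ]; ring
    rw [hs]
    cases j with
    | zero =>
      rw [pow_zero, Nat.div_one, Nat.add_mul_mod_self_left, Nat.mod_eq_of_lt (he 0)]
    | succ j =>
      rw [pow_succ', ← Nat.div_div_eq_div_mul, Nat.add_mul_div_left _ _ hB,
        Nat.div_eq_of_lt (he 0), zero_add]
      exact ih (fun k => e (k + 1)) (fun k => he _) j (by omega)

lemma mask_eq (b M : ℕ) (hb : 0 < b) :
    mask b M = ∑ k ∈ Finset.range M, (2 ^ b - 2) * (2 ^ b) ^ k := by
  unfold mask
  rw [← Finset.mul_sum, mul_comm]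
  congr 1
  have h1 : 1 ≤ 2 ^ b := Nat.one_le_two_pow
  have h2 : 2 ≤ 2 ^ b := by
    calc 2 = 2 ^ 1 := by norm_num
      _ ≤ 2 ^ b := Nat.pow_le_pow_right (by norm_num) hb
  rw [Nat.shiftLeft_eq, one_mul, pow_mul]
  have := Nat.geomSum_eq h2 M
  rw [← this]

lemma bits (b M : ℕ) (hb : 0 < b) (e : ℕ → ℕ) (he : ∀ k, e k < 2 ^ b)
    (h : (∑ k ∈ Finset.range M, e k * (2 ^ b) ^ k) &&& mask b M = 0) : ∀ k < M, e k ≤ 1 := by
  intro k hk
  have h2 : 2 ≤ 2 ^ b := by
    calc 2 = 2 ^ 1 := by norm_num
      _ ≤ 2 ^ b := Nat.pow_le_pow_right (by norm_num) hb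
  have d1 := digit (2 ^ b) (by positivity) M e he k hk
  have d2 := digit (2 ^ b) (by positivity) M (fun _ => 2 ^ b - 2) (fun _ => by omega) k hk
  rw [← mask_eq b M hb] at d2
  have key : ∀ i, 1 ≤ i → Nat.testBit (e k) i = false := by
    intro i hi
    by_cases hib : i < b
    · have t1 : Nat.testBit ((∑ k ∈ Finset.range M, e k * (2 ^ b) ^ k) &&& mask b M) (b * k + i) =
          false := by rw [h]; exact Nat.zero_testBit _
      rw [Nat.testBit_and] at t1
      have t2 : Nat.testBit (mask b M) (b * k + i) = true := by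
        have : Nat.testBit (2 ^ b - 2) i = true := by
          have e3 : 2 ^ b - 2 = 2 * (2 ^ (b - 1) - 1) := by
            obtain ⟨b', rfl⟩ : ∃ b', b = b' + 1 := ⟨b - 1, by omega⟩
            rw [Nat.add_sub_cancel, pow_succ]
            omega
          rw [e3]
          obtain ⟨i', rfl⟩ : ∃ i', i = i' + 1 := ⟨i - 1, by omega⟩
          rw [Nat.testBit_succ, Nat.mul_div_cancel_left _ (by norm_num), Nat.testBit_two_pow_sub_one]
          simp; omega
        rw [← d2, Nat.testBit_mod_two_pow, ← pow_mul, Nat.testBit_div_two_pow] at this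
        simp only [Bool.and_eq_true] at this
        rw [add_comm (b * k)]
        exact this.2
      rw [t2, Bool.and_true] at t1
      rw [← d1, Nat.testBit_mod_two_pow, ← pow_mul, Nat.testBit_div_two_pow, add_comm i, t1]
      simp
    · apply Nat.testBit_lt_two_pow
      exact lt_of_lt_of_le (he k) (Nat.pow_le_pow_right (by norm_num) (by omega))
  have h3 : e k / 2 = 0 := by
    apply Nat.eq_of_testBit_eq
    intro i
    rw [Nat.zero_testBit, ← Nat.testBit_succ]
    exact key (i + 1) (by omega)
  omega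

/-! ### Counts -/

lemma DD_count (B M : ℕ) (K : List ℕ) (hK : ∀ k ∈ K, k < M) :
    DD B K = ∑ k ∈ Finset.range M, K.count k * B ^ k := by
  induction K with
  | nil => simp [DD]
  | cons x K ih =>
    have h1 : DD B (x :: K) = B ^ x + DD B K := by simp [DD]
    rw [h1, ih (fun k hk => hK k (List.mem_cons_of_mem _ hk))]
    have h2 : ∀ k, (x :: K).count k * B ^ k = K.count k * B ^ k + (if x = k then B ^ k else 0) := by
      intro k
      rw [List.count_cons]
      by_cases h : x = k
      · simp [h, add_mul]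
      · simp [h]
    rw [Finset.sum_congr rfl (fun k _ => h2 k), Finset.sum_add_distrib, Finset.sum_ite_eq,
      if_pos (Finset.mem_range.mpr (hK x List.mem_cons_self)), add_comm]

def rr (gs : List (ℕ × List Tri)) (k : ℕ) : ℕ :=
  (gs.map (fun x => if x.1 = k then x.2.length - 1 else 0)).sum

lemma R_eq (b d M : ℕ) (gs : List (ℕ × List Tri)) (hMd : M ≤ 2 ^ d) (hg : ∀ x ∈ gs, x.1 < M) :
    build b d (gs.map (fun x => (x.1, x.2.length - 1))) =
      ∑ k ∈ Finset.range M, rr gs k * (2 ^ b) ^ k := by
  rw [build_eq]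
  · rw [List.map_map]
    induction gs with
    | nil => simp [rr]
    | cons x gs ih =>
      rw [List.map_cons, List.sum_cons, ih (fun y hy => hg y (List.mem_cons_of_mem _ hy))]
      have h2 : ∀ k, rr (x :: gs) k * (2 ^ b) ^ k =
          (if x.1 = k then (x.2.length - 1) * (2 ^ b) ^ k else 0) + rr gs k * (2 ^ b) ^ k := by
        intro k
        unfold rr
        rw [List.map_cons, List.sum_cons, add_mul]
        congr 1
        split_ifs <;> simp
      rw [Finset.sum_congr rfl (fun k _ => h2 k), Finset.sum_add_distrib, Finset.sum_ite_eq,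
        if_pos (Finset.mem_range.mpr (hg x List.mem_cons_self))]
      simp only [Function.comp, pow_mul]
  · intro y hy
    rw [List.mem_map] at hy
    obtain ⟨x, hx, rfl⟩ := hy
    exact lt_of_lt_of_le (hg x hx) hMd

lemma tlt_iff (x y : Tri) : tlt x y = true ↔
    (x.1 < y.1 ∨ (x.1 = y.1 ∧ (x.2.1 < y.2.1 ∨ (x.2.1 = y.2.1 ∧ x.2.2 < y.2.2)))) := by
  have hb : ∀ a c : ℕ, Nat.blt a c = true ↔ a < c := by
    intro a c; rw [Nat.blt_eq]
  unfold tlt
  simp only [Bool.or_eq_true, Bool.and_eq_true, hb, Nat.beq_eq]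

lemma grp_ok (M vm Lp k : ℕ) : ∀ g : List Tri, grpOK M vm Lp k g = true →
    g.Pairwise (fun x y => tlt x y = true) ∧ ∀ t ∈ g, vOK vm t = true ∧ key M Lp t = k := by
  intro g
  induction g with
  | nil => intro _; simp
  | cons t g ih =>
    intro h
    cases g with
    | nil =>
      simp only [grpOK, Bool.and_eq_true, Nat.beq_eq] at h
      refine ⟨List.pairwise_singleton _ _, ?_⟩
      intro u hu
      rw [List.mem_singleton] at hu
      subst hu
      exact h
    | cons u r =>
      simp only [grpOK, Bool.and_eq_true, Nat.beq_eq] at h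
      obtain ⟨⟨⟨h1, h2⟩, h3⟩, h4⟩ := h
      obtain ⟨h5, h6⟩ := ih h4
      constructor
      · rw [List.pairwise_cons]
        refine ⟨?_, h5⟩
        intro w hw
        rw [List.mem_cons] at hw
        rcases hw with rfl | hw
        · exact h3
        · rw [List.pairwise_cons] at h5
          have h7 := h5.1 w hw
          rw [tlt_iff] at h3 h7 ⊢
          omega
      · intro w hw
        rw [List.mem_cons] at hw
        rcases hw with rfl | hw
        · exact ⟨h1, h2⟩
        · exact h6 w hw

lemma grps_ok (M vm Lp : ℕ) : ∀ (gs : List (ℕ × List Tri)) (lo : ℕ),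
    grpsOK M vm Lp lo gs = true → ∀ x ∈ gs, lo ≤ x.1 ∧ x.1 < M ∧ 2 ≤ x.2.length ∧
      grpOK M vm Lp x.1 x.2 = true ∧ rr gs x.1 = x.2.length - 1 := by
  intro gs
  induction gs with
  | nil => intro lo _ x hx; simp at hx
  | cons y gs ih =>
    intro lo h x hx
    obtain ⟨k, g⟩ := y
    have hb : ∀ a c : ℕ, Nat.blt a c = true ↔ a < c := by
      intro a c; rw [Nat.blt_eq]
    simp only [grpsOK, Bool.and_eq_true, Nat.ble_eq, hb] at h
    obtain ⟨⟨⟨⟨h1, h2⟩, h3⟩, h4⟩, h5⟩ := h
    have hrest := ih (k + 1) h5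
    have hrr : ∀ j, rr ((k, g) :: gs) j = (if k = j then g.length - 1 else 0) + rr gs j := by
      intro j; unfold rr; rw [List.map_cons, List.sum_cons]
    rw [List.mem_cons] at hx
    rcases hx with rfl | hx
    · refine ⟨h1, h2, h3, h4, ?_⟩
      rw [hrr, if_pos rfl]
      have : rr gs k = 0 := by
        unfold rr
        apply List.sum_eq_zero
        intro z hz
        rw [List.mem_map] at hz
        obtain ⟨w, hw, rfl⟩ := hz
        have := (hrest w hw).1
        rw [if_neg (by omega)]
      rw [this, add_zero]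
    · obtain ⟨a1, a2, a3, a4, a5⟩ := hrest x hx
      refine ⟨by omega, a2, a3, a4, ?_⟩
      rw [hrr, if_neg (by omega), zero_add, a5]

lemma rr_ne (gs : List (ℕ × List Tri)) (k : ℕ) (h : rr gs k ≠ 0) : ∃ x ∈ gs, x.1 = k := by
  by_contra hcon
  apply h
  unfold rr
  apply List.sum_eq_zero
  intro z hz
  rw [List.mem_map] at hz
  obtain ⟨w, hw, rfl⟩ := hz
  rw [if_neg (fun h' => hcon ⟨w, hw, h'⟩)]

lemma bit_iff (vm : ℕ) (vals : List ℕ) (h : vmOK vm vals = true) (a : ℕ) :
    Nat.testBit vm a = true ↔ a ∈ vals := by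
  unfold vmOK at h
  have hb : ∀ a c : ℕ, Nat.blt a c = true ↔ a < c := by
    intro a c; rw [Nat.blt_eq]
  simp only [Bool.and_eq_true, decide_eq_true_eq, List.all_eq_true, hb, List.mem_range,
    beq_iff_eq] at h
  obtain ⟨⟨h1, h2⟩, h3⟩ := h
  by_cases ha : a < 256
  · rw [h3 a ha, List.any_eq_true]
    constructor
    · rintro ⟨x, hx, hxa⟩
      rw [Nat.beq_eq] at hxa
      exact hxa ▸ hx
    · intro hx
      exact ⟨a, hx, by rw [Nat.beq_eq]⟩
  · constructor
    · intro h'
      rw [Nat.testBit_lt_two_pow (lt_of_lt_of_le h1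
        (Nat.pow_le_pow_right (by norm_num) (by omega)))] at h'
      exact absurd h' (by simp)
    · intro h'
      exact absurd (h2 a h') ha

lemma h3gen_eq (b d M : ℕ) (vals V : List ℕ) (Lp : ℕ) (hV : V.Perm vals) (hMd : M ≤ 2 ^ d)
    (hlk : ∀ v ∈ vals, lk Lp v < M) :
    h3gen b d (vals.map (lk Lp)) =
      DD (2 ^ b) ((T3 V).map (fun t => lk Lp t.1 + lk Lp t.2.1 + lk Lp t.2.2)) := by
  have b1 : build b d ((vals.map (lk Lp)).map (fun x => (x, 1))) =
      (V.map (fun v => (2 ^ b) ^ (lk Lp v))).sum := by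
    rw [build_eq, (hV.map _).sum_eq]
    · rw [List.map_map, List.map_map]
      congr 1
      apply List.map_congr_left
      intro x _
      simp only [Function.comp, one_mul, pow_mul]
    · intro x hx
      rw [List.map_map, List.mem_map] at hx
      obtain ⟨v, hv, rfl⟩ := hx
      exact lt_of_lt_of_le (hlk v hv) hMd
  have b2 : build b (d + 1) ((vals.map (lk Lp)).map (fun x => (2 * x, 1))) =
      (V.map (fun v => (2 ^ b) ^ (lk Lp v) * (2 ^ b) ^ (lk Lp v))).sum := by
    rw [build_eq, (hV.map _).sum_eq]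
    · rw [List.map_map, List.map_map]
      congr 1
      apply List.map_congr_left
      intro x _
      simp only [Function.comp, one_mul]
      rw [← pow_add, ← pow_mul]
      congr 1; ring
    · intro x hx
      rw [List.map_map, List.mem_map] at hx
      obtain ⟨v, hv, rfl⟩ := hx
      have := hlk v hv
      simp only [Function.comp, pow_succ]
      omega
  have b3 : build b (d + 2) ((vals.map (lk Lp)).map (fun x => (3 * x, 1))) =
      (V.map (fun v => (2 ^ b) ^ (lk Lp v) * (2 ^ b) ^ (lk Lp v) * (2 ^ b) ^ (lk Lp v))).sum := by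
    rw [build_eq, (hV.map _).sum_eq]
    · rw [List.map_map, List.map_map]
      congr 1
      apply List.map_congr_left
      intro x _
      simp only [Function.comp, one_mul]
      rw [← pow_add, ← pow_add, ← pow_mul]
      congr 1; ring
    · intro x hx
      rw [List.map_map, List.mem_map] at hx
      obtain ⟨v, hv, rfl⟩ := hx
      have := hlk v hv
      simp only [Function.comp, pow_succ]
      omega
  unfold h3gen
  rw [b1, b2, b3, ← sum_T3 (fun v => (2 ^ b) ^ (lk Lp v)) V, Nat.mul_div_cancel_left _ (by norm_num)]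
  unfold DD
  rw [List.map_map]
  congr 1
  apply List.map_congr_left
  intro t _
  simp only [Function.comp]
  rw [pow_add, pow_add]

lemma red3 (M x : ℕ) (hM : 0 < M) (hx : x < 3 * M) :
    (if (if x < M then x else x - M) < M then (if x < M then x else x - M) else
      (if x < M then x else x - M) - M) = x % M := by
  rcases Nat.lt_or_ge x M with h1 | h1
  · rw [if_pos h1, if_pos h1, Nat.mod_eq_of_lt h1]
  · have h1' : ¬ x < M := by omega
    simp only [h1', if_false]
    rcases Nat.lt_or_ge x (2 * M) with h2 | h2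
    · rw [if_pos (by omega), Nat.mod_eq_sub_mod h1, Nat.mod_eq_of_lt (by omega)]
    · rw [if_neg (by omega), Nat.mod_eq_sub_mod h1, Nat.mod_eq_sub_mod (by omega),
        Nat.mod_eq_of_lt (by omega)]

end ModFDIG

open ModFDIG in
theorem fdig : StmtFDIG := by
  classical
  intro b d M vm vals Lp gs hM hnd hcnt t u ht hu hkey htu
  unfold cntOK at hcnt
  simp only [Bool.and_eq_true, decide_eq_true_eq, List.all_eq_true] at hcnt
  obtain ⟨⟨⟨⟨⟨⟨hb, hn⟩, hMd⟩, hvm⟩, hgs⟩, hlk⟩, hRF, hmask⟩ := hcnt
  -- sorted values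
  obtain ⟨V, hV, hVs⟩ : ∃ V : List ℕ, V.Perm vals ∧ V.Pairwise (· < ·) := by
    refine ⟨vals.insertionSort (· ≤ ·), List.perm_insertionSort _ _, ?_⟩
    have h1 := List.pairwise_insertionSort (· ≤ ·) vals
    have h2 : (vals.insertionSort (· ≤ ·)).Nodup :=
      (List.perm_insertionSort _ _).nodup_iff.mpr hnd
    exact (h1.and h2).imp (fun h => lt_of_le_of_ne h.1 h.2)
  have hlen : (T3 V).length < 2 ^ b := by
    rw [len_T3, hV.length_eq]; omega
  have hmemV : ∀ a, a ∈ V ↔ Nat.testBit vm a = true := by
    intro a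
    rw [hV.mem_iff, bit_iff vm vals hvm]
  have hvOK : ∀ t : Tri, vOK vm t = true ↔ t ∈ T3 V := by
    intro t
    rw [mem_T3 V hVs, hmemV, hmemV, hmemV]
    unfold vOK
    simp only [Bool.and_eq_true, Nat.ble_eq]
    tauto
  -- the big number
  have hF : fold (b * M) (fold (b * M) (h3gen b d (vals.map (lk Lp)))) =
      DD (2 ^ b) ((T3 V).map (key M Lp)) := by
    rw [h3gen_eq b d M vals V Lp hV hMd hlk, fold_eq _ _ _ (by rw [List.length_map]; exact hlen),
      fold_eq _ _ _ (by rw [List.length_map, List.length_map]; exact hlen), List.map_map,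
      List.map_map]
    congr 1
    apply List.map_congr_left
    intro t ht
    rw [mem_T3 V hVs, hV.mem_iff, hV.mem_iff, hV.mem_iff] at ht
    have a1 := hlk _ ht.1
    have a2 := hlk _ ht.2.1
    have a3 := hlk _ ht.2.2.1
    simp only [Function.comp]
    rw [red3 M _ hM (by omega)]
    rfl
  have hKM : ∀ k ∈ (T3 V).map (key M Lp), k < M := by
    intro k hk
    rw [List.mem_map] at hk
    obtain ⟨t, -, rfl⟩ := hk
    exact Nat.mod_lt _ hM
  have hgf := grps_ok M vm Lp gs 0 hgs
  rw [hF, DD_count _ M _ hKM] at hRF hmask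
  rw [R_eq b d M gs hMd (fun x hx => (hgf x hx).2.1)] at hRF hmask
  -- the counts
  obtain ⟨c, hc⟩ : ∃ c : ℕ → ℕ, c = fun k => ((T3 V).map (key M Lp)).count k := ⟨_, rfl⟩
  have hcF : ∀ k, c k = ((T3 V).toFinset.filter (fun t => key M Lp t = k)).card := by
    intro k
    rw [hc]
    simp only
    rw [List.count, List.countP_map, List.countP_eq_length_filter,
      ← List.toFinset_card_of_nodup ((nodup_T3 V hVs).filter _)]
    congr 1
    ext t
    simp
  have hgsub : ∀ x ∈ gs, x.2.toFinset ⊆ (T3 V).toFinset.filter (fun t => key M Lp t = x.1) ∧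
      x.2.toFinset.card = x.2.length := by
    intro x hx
    obtain ⟨-, -, -, h4, -⟩ := hgf x hx
    obtain ⟨p1, p2⟩ := grp_ok _ _ _ _ _ h4
    constructor
    · intro t ht
      rw [List.mem_toFinset] at ht
      rw [Finset.mem_filter, List.mem_toFinset, ← hvOK]
      exact p2 t ht
    · apply List.toFinset_card_of_nodup
      apply p1.imp
      intro x y hxy he
      rw [tlt_iff, he] at hxy
      omega
  have hrc : ∀ k, rr gs k ≤ c k := by
    intro k
    by_cases h0 : rr gs k = 0
    · omega
    · obtain ⟨x, hx, rfl⟩ := rr_ne gs k h0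
      have h1 := (hgf x hx).2.2.2.2
      obtain ⟨h2, h3⟩ := hgsub x hx
      have h4 := Finset.card_le_card h2
      rw [← hcF, h3] at h4
      omega
  have hcb : ∀ k, c k < 2 ^ b := by
    intro k
    rw [hc]
    refine lt_of_le_of_lt List.count_le_length ?_
    rw [List.length_map]; exact hlen
  have hsub : ∑ k ∈ Finset.range M, ((T3 V).map (key M Lp)).count k * (2 ^ b) ^ k -
      ∑ k ∈ Finset.range M, rr gs k * (2 ^ b) ^ k =
      ∑ k ∈ Finset.range M, (c k - rr gs k) * (2 ^ b) ^ k := by
    rw [Nat.sub_eq_iff_eq_add hRF, ← Finset.sum_add_distrib]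
    apply Finset.sum_congr rfl
    intro k _
    rw [← add_mul, Nat.sub_add_cancel (hrc k), hc]
  rw [hsub] at hmask
  have hle := bits b M hb (fun k => c k - rr gs k) (fun k => by have := hcb k; omega) hmask
  -- conclusion
  obtain ⟨k, hk⟩ : ∃ k, k = key M Lp t := ⟨_, rfl⟩
  have hkM : k < M := by rw [hk]; exact Nat.mod_lt _ hM
  have hck : c k - rr gs k ≤ 1 := hle k hkM
  have htF : t ∈ (T3 V).toFinset.filter (fun t => key M Lp t = k) := by
    rw [Finset.mem_filter, List.mem_toFinset, ← hvOK]; exact ⟨ht, hk.symm⟩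
  have huF : u ∈ (T3 V).toFinset.filter (fun t => key M Lp t = k) := by
    rw [Finset.mem_filter, List.mem_toFinset, ← hvOK]; exact ⟨hu, by rw [hk, hkey]⟩
  have h2 : 2 ≤ c k := by
    rw [hcF]
    have h3 : ({t, u} : Finset Tri) ⊆ (T3 V).toFinset.filter (fun t => key M Lp t = k) := by
      intro z hz
      rw [Finset.mem_insert, Finset.mem_singleton] at hz
      rcases hz with rfl | rfl <;> assumption
    have h4 := Finset.card_le_card h3
    rwa [Finset.card_pair htu] at h4
  obtain ⟨x, hx, hxk⟩ := rr_ne gs k (by omega)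
  obtain ⟨-, -, h5, -, h6⟩ := hgf x hx
  obtain ⟨h7, h8⟩ := hgsub x hx
  rw [hxk] at h6 h7
  have h9 : x.2.toFinset = (T3 V).toFinset.filter (fun t => key M Lp t = k) := by
    apply Finset.eq_of_subset_of_card_le h7
    rw [← hcF, h8]
    omega
  refine ⟨x, hx, ?_, ?_⟩
  · rw [← List.mem_toFinset, h9]; exact htF
  · rw [← List.mem_toFinset, h9]; exact huF

end FC
end Pool.Agent.T6.H31.TC
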