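import Pool.Agent.T6.H31.TC.Stmts

set_option autoImplicit false

/-! Finite levels: the checker and the statements of its soundness. -/

namespace Pool.Agent.T6.H31.TC

namespace FC

/-! ### Tables of discrete logarithms -/

/-- `g ^ e % l`, binary, `f` = fuel (number of bits of `e`) -/
def powm (l : ℕ) : ℕ → ℕ → ℕ → ℕ
  | 0, _, _ => 1 % l
  | f + 1, g, e => if e % 2 = 0 then powm l f (g * g % l) (e / 2)
      else g * powm l f (g * g % l) (e / 2) % l

/-- all primes in the list are primes `q` with `x ^ (n / q) ≠ 1`, and they contain all prime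
factors of `n` -/
def ordOK (l n x : ℕ) (qs : List ℕ) : Bool :=
  decide (powm l 40 x n = 1) && decide ((qs.foldl (fun a q => a * q) 1) ^ 30 % n = 0) &&
    qs.all (fun q => decide (powm l 40 x (n / q) ≠ 1))

/-- look up of a value in a packed table (32 bits per entry) -/
def lk (Lp a : ℕ) : ℕ := (Lp >>> (32 * a)) % 2 ^ 32

/-- a table: `g ^ L k = w ^ k - w ^ (-k)` modulo the prime `l` for the values `k` in `vals`,
`L k = lk Lp k`; `w` is a primitive `2N`-th root of unity, `g` a primitive root -/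
def tabOK (N l g w : ℕ) (qg qw : List ℕ) (vals : List ℕ) (Lp : ℕ) : Bool :=
  decide (g < l) && decide (w < l) && decide (2 < l) && decide (l < 2 ^ 39) && decide (2 * N < 2 ^ 39) &&
  ordOK l (l - 1) g qg && ordOK l (2 * N) w qw &&
  vals.all (fun v => decide (lk Lp v < l - 1) && decide (powm l 40 g (lk Lp v) * powm l 40 w v % l =
    (powm l 40 w (2 * v) + (l - 1)) % l))

/-- soundness of the tables -/
def StmtFKEY : Prop := ∀ (N l g w : ℕ) (qg qw vals : List ℕ) (Lp : ℕ), 0 < N → l.Prime →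
  (∀ q ∈ qg, q.Prime) → (∀ q ∈ qw, q.Prime) → tabOK N l g w qg qw vals Lp = true →
  (∀ v ∈ vals, 1 ≤ v ∧ 2 * v ≤ N) → vals.Nodup →
  ∀ a : Fin 6 → ℕ, (∀ i, a i ∈ vals) → SolY (fun i => (a i : ℝ) / (N : ℝ)) →
    (lk Lp (a 0) + lk Lp (a 1) + lk Lp (a 2)) % (l - 1) =
    (lk Lp (a 3) + lk Lp (a 4) + lk Lp (a 5)) % (l - 1)

/-- the same for two factors -/
def StmtFKEY2 : Prop := ∀ (N l g w : ℕ) (qg qw vals : List ℕ) (Lp : ℕ), 0 < N → l.Prime →
  (∀ q ∈ qg, q.Prime) → (∀ q ∈ qw, q.Prime) → tabOK N l g w qg qw vals Lp = true →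
  (∀ v ∈ vals, 1 ≤ v ∧ 2 * v ≤ N) → vals.Nodup →
  ∀ a : Fin 4 → ℕ, (∀ i, a i ∈ vals) → SolY4 (fun i => (a i : ℝ) / (N : ℝ)) →
    (lk Lp (a 0) + lk Lp (a 1)) % (l - 1) = (lk Lp (a 2) + lk Lp (a 3)) % (l - 1)

/-! ### Counting keys with big numbers -/

/-- reduce the exponents modulo `M` (digits of `b` bits) -/
def fold (Mb x : ℕ) : ℕ := x - ((x >>> Mb) <<< Mb) + (x >>> Mb)

def sumSnd : List (ℕ × ℕ) → ℕ
  | [] => 0
  | x :: l => x.2 + sumSnd l

/-- `sum of x.2 * 2 ^ (b * x.1)` for keys below `2 ^ d` -/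
def build (b : ℕ) : ℕ → List (ℕ × ℕ) → ℕ
  | 0, l => sumSnd l
  | d + 1, l =>
    if l.isEmpty then 0 else
    build b d (l.filter (fun y => Nat.blt y.1 (2 ^ d))) +
    (build b d ((l.filter (fun y => Nat.ble (2 ^ d) y.1)).map (fun y => (y.1 - 2 ^ d, y.2)))) <<<
      (b * 2 ^ d)

/-- the generating number of the sums of the multisets of size three of the logs `Ls`
(Newton's identity `6 h3 = p1^3 + 3 p1 p2 + 2 p3`) -/
def h3gen (b d : ℕ) (Ls : List ℕ) : ℕ :=
  (build b d (Ls.map (fun x => (x, 1))) * build b d (Ls.map (fun x => (x, 1))) *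
      build b d (Ls.map (fun x => (x, 1))) +
    3 * (build b d (Ls.map (fun x => (x, 1))) * build b (d + 1) (Ls.map (fun x => (2 * x, 1)))) +
    2 * build b (d + 2) (Ls.map (fun x => (3 * x, 1)))) / 6

/-- mask of the digits without their lowest bit -/
def mask (b M : ℕ) : ℕ := (1 <<< (b * M) - 1) / (2 ^ b - 1) * (2 ^ b - 2)

abbrev Tri := ℕ × ℕ × ℕ

def tlt (x y : Tri) : Bool :=
  Nat.blt x.1 y.1 || (Nat.beq x.1 y.1 && (Nat.blt x.2.1 y.2.1 ||
    (Nat.beq x.2.1 y.2.1 && Nat.blt x.2.2 y.2.2)))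

def key (M Lp : ℕ) (t : Tri) : ℕ := (lk Lp t.1 + lk Lp t.2.1 + lk Lp t.2.2) % M

/-- the bit mask of the values -/
def vmOK (vm : ℕ) (vals : List ℕ) : Bool :=
  decide (vm < 2 ^ 256) && vals.all (fun v => Nat.blt v 256) &&
    (List.range 256).all (fun a => Nat.testBit vm a == vals.any (fun v => Nat.beq v a))

def vOK (vm : ℕ) (t : Tri) : Bool :=
  Nat.testBit vm t.1 && Nat.testBit vm t.2.1 && Nat.testBit vm t.2.2 &&
    Nat.ble t.1 t.2.1 && Nat.ble t.2.1 t.2.2

/-- a group: at least two triples, strictly increasing, with the same key `k` -/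
def grpOK (M vm Lp k : ℕ) : List Tri → Bool
  | [] => true
  | [t] => vOK vm t && Nat.beq (key M Lp t) k
  | t :: u :: r => vOK vm t && Nat.beq (key M Lp t) k && tlt t u && grpOK M vm Lp k (u :: r)

/-- the groups are sorted by their keys -/
def grpsOK (M vm Lp : ℕ) : ℕ → List (ℕ × List Tri) → Bool
  | _, [] => true
  | lo, (k, g) :: r => Nat.ble lo k && Nat.blt k M && Nat.ble 2 g.length && grpOK M vm Lp k g &&
      grpsOK M vm Lp (k + 1) r

/-- number of multisets of size three of `n` values -/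
def nT (n : ℕ) : ℕ := n * (n + 1) * (n + 2) / 6

/-- the counting check -/
def cntOK (b d M vm : ℕ) (vals : List ℕ) (Lp : ℕ) (gs : List (ℕ × List Tri)) : Bool :=
  decide (0 < b) && decide (6 * nT vals.length < 2 ^ b) && decide (M ≤ 2 ^ d) && vmOK vm vals &&
  grpsOK M vm Lp 0 gs && vals.all (fun v => decide (lk Lp v < M)) &&
  (let F := fold (b * M) (fold (b * M) (h3gen b d (vals.map (lk Lp))))
   let R := build b d (gs.map (fun x => (x.1, x.2.length - 1)))
   decide (R ≤ F) && decide ((F - R) &&& mask b M = 0))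

/-- soundness of the counting check: two different triples with the same key lie in one group -/
def StmtFDIG : Prop := ∀ (b d M vm : ℕ) (vals : List ℕ) (Lp : ℕ) (gs : List (ℕ × List Tri)), 0 < M →
  vals.Nodup → cntOK b d M vm vals Lp gs = true →
  ∀ t u : Tri, vOK vm t = true → vOK vm u = true → key M Lp t = key M Lp u → t ≠ u →
    ∃ x ∈ gs, t ∈ x.2 ∧ u ∈ x.2

/-! ### Pairs in a group -/

/-- block permutations of the six positions: `72` of them -/
def P3 : List (List ℕ) := [[0, 1, 2], [0, 2, 1], [1, 0, 2], [1, 2, 0], [2, 0, 1], [2, 1, 0]]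

def qf (idx j : ℕ) : ℕ :=
  if idx / 36 = 0 then
    (if j < 3 then (P3.getD ((idx / 6) % 6) []).getD j 0 else 3 + (P3.getD (idx % 6) []).getD (j - 3) 0)
  else
    (if j < 3 then 3 + (P3.getD ((idx / 6) % 6) []).getD j 0 else (P3.getD (idx % 6) []).getD (j - 3) 0)

/-- the candidate vector in units of `1 / (720 N)`; a record is `[kind, idx, P, Q]` -/
def cand (N kind P Q : ℕ) : List ℕ :=
  if kind = 0 then [P, P + 360 * N, 2 * Q, Q, Q + 360 * N, 2 * P]
  else if kind ≤ 16 then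
    (Fams.getD (kind - 1) []).map (fun x => x.1.toNat * P + x.2.toNat * (12 * N))
  else
    (Spor.getD (kind - 17) (1, [])).2.map (fun s => P * s * (720 * N / (Spor.getD (kind - 17) (1, [])).1))

def kindOK (N kind P : ℕ) : Bool :=
  decide (kind ≤ 16) || (decide (kind - 17 < Spor.length) &&
    decide (720 * N % (Spor.getD (kind - 17) (1, [])).1 = 0) &&
    decide (Nat.gcd P (Spor.getD (kind - 17) (1, [])).1 = 1))

/-- a record proves that the pair of triples is in the list -/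
def recOK (N : ℕ) (t u : Tri) (kind idx P Q : ℕ) : Bool :=
  kindOK N kind P && decide (idx < 72) &&
  (let z := cand N kind P Q
   let a := [t.1, t.2.1, t.2.2, u.1, u.2.1, u.2.2]
   (List.range 6).all (fun i =>
     Nat.beq (720 * a.getD i 0 % (720 * N)) (z.getD (qf idx i) 0 % (720 * N)) ||
     Nat.beq ((720 * a.getD i 0 + z.getD (qf idx i) 0) % (720 * N)) 0))

def common (t u : Tri) : Bool :=
  Nat.beq t.1 u.1 || Nat.beq t.1 u.2.1 || Nat.beq t.1 u.2.2 ||
  Nat.beq t.2.1 u.1 || Nat.beq t.2.1 u.2.1 || Nat.beq t.2.1 u.2.2 ||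
  Nat.beq t.2.2 u.1 || Nat.beq t.2.2 u.2.1 || Nat.beq t.2.2 u.2.2

/-- all pairs `(t, u)`, `u` in the list; the records are consumed from the stream `s`
(four numbers each); `none` = failure -/
def prs (N M2 Lp2 : ℕ) (t : Tri) : List Tri → List ℕ → Option (List ℕ)
  | [], s => some s
  | u :: r, s =>
    if common t u then prs N M2 Lp2 t r s
    else if Nat.beq (key M2 Lp2 t) (key M2 Lp2 u) then
      match s with
      | kind :: idx :: P :: Q :: s' =>
        if recOK N t u kind idx P Q then prs N M2 Lp2 t r s' else none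
      | _ => none
    else prs N M2 Lp2 t r s

def grpPr (N M2 Lp2 : ℕ) : List Tri → List ℕ → Option (List ℕ)
  | [], s => some s
  | t :: r, s =>
    match prs N M2 Lp2 t r s with
    | some s' => grpPr N M2 Lp2 r s'
    | none => none

def allPr (N M2 Lp2 : ℕ) : List (ℕ × List Tri) → List ℕ → Bool
  | [], _ => true
  | (_, g) :: r, s =>
    match grpPr N M2 Lp2 g s with
    | some s' => allPr N M2 Lp2 r s'
    | none => false

/-- vector of a pair of triples -/
noncomputable def pv (N : ℕ) (t u : Tri) : Fin 6 → ℝ :=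
  ![(t.1 : ℝ) / N, (t.2.1 : ℝ) / N, (t.2.2 : ℝ) / N, (u.1 : ℝ) / N, (u.2.1 : ℝ) / N, (u.2.2 : ℝ) / N]

/-- soundness of the pair check -/
def StmtFPR : Prop := ∀ (N M2 Lp2 : ℕ) (gs : List (ℕ × List Tri)) (s : List ℕ),
  0 < N → allPr N M2 Lp2 gs s = true → ∀ x ∈ gs, ∀ t ∈ x.2, ∀ u ∈ x.2, t ≠ u →
    key M2 Lp2 t = key M2 Lp2 u → Res (pv N t u) ∨ Res (pv N u t)

/-- the level statement for a list of values -/
def FINv (N : ℕ) (vals : List ℕ) : Prop := ∀ a : Fin 6 → ℕ, (∀ i, a i ∈ vals) →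
  SolY (fun i => (a i : ℝ) / (N : ℝ)) → Res (fun i => (a i : ℝ) / (N : ℝ))

/-- the whole check for one level -/
def StmtFALL : Prop := ∀ (N l g w l2 g2 w2 b d vm Lp Lp2 : ℕ) (qg qw qg2 qw2 vals : List ℕ)
  (gs : List (ℕ × List Tri)) (s : List ℕ), 0 < N → l.Prime → l2.Prime →
  (∀ q ∈ qg, q.Prime) → (∀ q ∈ qw, q.Prime) → (∀ q ∈ qg2, q.Prime) → (∀ q ∈ qw2, q.Prime) →
  (∀ v ∈ vals, 1 ≤ v ∧ 2 * v ≤ N) → vals.Nodup →
  tabOK N l g w qg qw vals Lp = true → tabOK N l2 g2 w2 qg2 qw2 vals Lp2 = true →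
  cntOK b d (l - 1) vm vals Lp gs = true → allPr N (l2 - 1) Lp2 gs s = true → FINv N vals

end FC

end Pool.Agent.T6.H31.TC
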