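import Pool.Agent.T6.H31.TC.INV4
import Pool.Agent.T6.H31.TC.FinDefs
import Pool.Agent.T6.H31.TC.DAG4

set_option autoImplicit false

/-! Module FIN2: the two-sine equation at the levels 60 and 42. -/

namespace Pool.Agent.T6.H31.TC

namespace F2

open Finset FC INVx INV4x

def cand4 (N kind P : ℕ) : List ℕ :=
  if kind = 0 then [P, P + N / 2, 2 * P, N / 6]
  else (Myers.getD (kind - 1) (1, [])).2.map
    (fun s => P * (N / (Myers.getD (kind - 1) (1, [])).1) * s)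

def kOK (N kind P : ℕ) : Bool := Nat.beq kind 0 ||
  (Nat.blt (kind - 1) Myers.length && Nat.beq (N % (Myers.getD (kind - 1) (1, [])).1) 0 &&
    Nat.beq (Nat.gcd P (Myers.getD (kind - 1) (1, [])).1) 1)

def rOK (N : ℕ) (y : List ℕ) (kind k P : ℕ) : Bool :=
  kOK N kind P && Nat.blt k 8 &&
    (List.finRange 4).all (fun i =>
      Nat.beq (y.getD i.val 0 % N) ((cand4 N kind P).getD (D4.sg k i).val 0 % N) ||
      Nat.beq ((y.getD i.val 0 + (cand4 N kind P).getD (D4.sg k i).val 0) % N) 0)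

theorem eqv1 {N y z : ℕ} (hN : 0 < N) (h : y % N = z % N) : eqv ((y : ℝ) / N) ((z : ℝ) / N) := by
  have hN' : (N : ℝ) ≠ 0 := by exact_mod_cast hN.ne'
  obtain ⟨k, hk⟩ := Nat.modEq_iff_dvd.mp h
  refine ⟨-k, Or.inl ?_⟩
  have h1 : (z : ℝ) - y = N * k := by exact_mod_cast hk
  rw [div_add' _ _ _ hN', div_left_inj' hN']
  push_cast
  linarith

theorem eqv2 {N y z : ℕ} (hN : 0 < N) (h : (y + z) % N = 0) :
    eqv ((y : ℝ) / N) ((z : ℝ) / N) := by
  have hN' : (N : ℝ) ≠ 0 := by exact_mod_cast hN.ne'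
  obtain ⟨k, hk⟩ := Nat.dvd_of_mod_eq_zero h
  refine ⟨(k : ℤ), Or.inr ?_⟩
  have h1 : (y : ℝ) + z = N * k := by exact_mod_cast hk
  push_cast
  field_simp
  linarith

theorem rOK_sound {N : ℕ} (hN : 0 < N) (h6 : 6 ∣ N) (y : List ℕ) (kind k P : ℕ)
    (h : rOK N y kind k P = true) : M2L (fun i => ((y.getD i.val 0 : ℕ) : ℝ) / (N : ℝ)) := by
  have hN' : (N : ℝ) ≠ 0 := by exact_mod_cast hN.ne'
  unfold rOK at h
  simp only [Bool.and_eq_true, List.all_eq_true, Bool.or_eq_true] at h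
  obtain ⟨⟨h1, h2⟩, h3⟩ := h
  have hk : k < 8 := by simpa [Nat.blt] using h2
  have hm : ∀ v : Fin 4 → ℝ, (∀ j : Fin 4, v j = (((cand4 N kind P).getD j.val 0 : ℕ) : ℝ) / (N : ℝ)) →
      Match4 (fun i => ((y.getD i.val 0 : ℕ) : ℝ) / (N : ℝ)) v := by
    intro v hv
    refine ⟨D4.sg k, D4.sg_blk k hk, fun i => ?_⟩
    rw [hv]
    rcases h3 i (List.mem_finRange i) with h4 | h4
    · exact eqv1 hN (Nat.eq_of_beq_eq_true h4)
    · exact eqv2 hN (Nat.eq_of_beq_eq_true h4)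
  unfold kOK at h1
  simp only [Bool.or_eq_true, Bool.and_eq_true] at h1
  rcases Nat.eq_zero_or_pos kind with h0 | h0
  · right; left
    refine ⟨(P : ℝ) / N, hm _ ?_⟩
    obtain ⟨m, rfl⟩ := h6
    have hm0 : (m : ℝ) ≠ 0 := by
      intro h
      apply hN'
      push_cast
      rw [h, mul_zero]
    have e1 : 6 * m / 2 = 3 * m := by omega
    have e2 : 6 * m / 6 = m := by omega
    intro j
    unfold cand4
    rw [if_pos h0, e1, e2]
    fin_cases j
    · simp
    · simp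
      field_simp
      ring
    · simp
      ring
    · simp
      field_simp
  · right; right
    rcases h1 with h1 | h1
    · exact absurd (Nat.eq_of_beq_eq_true h1) h0.ne'
    obtain ⟨⟨h4, h5⟩, h7⟩ := h1
    have h4' : kind - 1 < Myers.length := by simpa [Nat.blt] using h4
    have h5' := Nat.eq_of_beq_eq_true h5
    have h7' := Nat.eq_of_beq_eq_true h7
    refine ⟨Myers.getD (kind - 1) (1, []), ?_, (P : ℤ), ?_, hm _ ?_⟩
    · rw [List.getD_eq_getElem _ _ h4']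
      exact List.getElem_mem h4'
    · exact Nat.isCoprime_iff_coprime.mpr h7'
    · intro j
      unfold cand4 spv4
      rw [if_neg h0.ne']
      obtain ⟨m, hmN⟩ := Nat.dvd_of_mod_eq_zero h5'
      set s := Myers.getD (kind - 1) (1, []) with hs
      have hs0 : s.1 ≠ 0 := by
        intro h
        rw [h] at hmN
        omega
      have hs0' : (s.1 : ℝ) ≠ 0 := by exact_mod_cast hs0
      have hm0 : (m : ℝ) ≠ 0 := by
        intro h
        apply hN'
        rw [hmN]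
        push_cast
        rw [h, mul_zero]
      have e1 : N / s.1 = m := by
        rw [hmN]
        exact Nat.mul_div_cancel_left m (Nat.pos_of_ne_zero hs0)
      rw [e1]
      have e2 : (s.2.map (fun s => P * m * s)).getD j.val 0 = P * m * s.2.getD j.val 0 := by
        have := List.getD_map (l := s.2) (n := j.val) (d := 0) (fun s => P * m * s)
        simpa using this
      rw [e2, hmN]
      push_cast
      field_simp

theorem sort_ex (a : Fin 4 → ℕ) : ∃ σ : Equiv.Perm (Fin 4), Blk4 σ ∧ a (σ 0) ≤ a (σ 1) ∧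
    a (σ 2) ≤ a (σ 3) := by
  rcases le_total (a 0) (a 1) with h1 | h1 <;> rcases le_total (a 2) (a 3) with h2 | h2
  · exact ⟨D4.sg 0, D4.sg_blk 0 (by norm_num), h1, h2⟩
  · exact ⟨D4.sg 2, D4.sg_blk 2 (by norm_num), h1, h2⟩
  · exact ⟨D4.sg 1, D4.sg_blk 1 (by norm_num), h1, h2⟩
  · exact ⟨D4.sg 3, D4.sg_blk 3 (by norm_num), h1, h2⟩

abbrev Ky := ℕ × ℕ × ℕ

def prsL (n : ℕ) : List (ℕ × ℕ) :=
  (List.range n).flatMap (fun a => (List.range (n - a)).map (fun b => (a + 1, a + b + 1)))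

theorem mem_prsL {n a b : ℕ} (h1 : 1 ≤ a) (h2 : a ≤ b) (h3 : b ≤ n) : (a, b) ∈ prsL n := by
  unfold prsL
  rw [List.mem_flatMap]
  refine ⟨a - 1, List.mem_range.mpr (by omega), ?_⟩
  rw [List.mem_map]
  refine ⟨b - a, List.mem_range.mpr (by omega), ?_⟩
  rw [Prod.mk.injEq]
  omega

def mkK (n M Lp : ℕ) : List Ky :=
  (prsL n).map (fun p => ((lk Lp p.1 + lk Lp p.2) % M, p.1, p.2))

abbrev RecT := ℕ × ℕ × ℕ × ℕ × ℕ × ℕ × ℕ

def okPair (R : List RecT) (x y : Ky) : Bool :=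
  !(Nat.beq x.1 y.1) || (Nat.beq x.2.1 y.2.1 && Nat.beq x.2.2 y.2.2) ||
    R.any (fun r => Nat.beq r.1 x.2.1 && Nat.beq r.2.1 x.2.2 && Nat.beq r.2.2.1 y.2.1 &&
      Nat.beq r.2.2.2.1 y.2.2)

def okAll (R : List RecT) (K : List Ky) : Bool := K.all (fun x => K.all (fun y => okPair R x y))

def recsOK (N : ℕ) (R : List RecT) : Bool :=
  R.all (fun r => rOK N [r.1, r.2.1, r.2.2.1, r.2.2.2.1] r.2.2.2.2.1 r.2.2.2.2.2.1 r.2.2.2.2.2.2)

theorem level (N n l g w Lp : ℕ) (qg qw : List ℕ) (K : List Ky) (R : List RecT)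
    (hF : StmtFKEY2) (hN : 0 < N) (h6 : 6 ∣ N) (hn : N = 2 * n) (hl : l.Prime)
    (h1 : ∀ q ∈ qg, q.Prime) (h2 : ∀ q ∈ qw, q.Prime)
    (ht : tabOK N l g w qg qw ((List.range n).map (fun k => k + 1)) Lp = true)
    (hK : mkK n (l - 1) Lp = K) (hR : recsOK N R = true) (hA : okAll R K = true) : FIN2 N := by
  intro a ha hs
  obtain ⟨σ, hσ, s1, s2⟩ := sort_ex a
  have hm : Match4 (fun i => (a i : ℝ) / (N : ℝ)) (fun i => (a (σ i) : ℝ) / (N : ℝ)) := by
    refine ⟨σ⁻¹, Blk4_inv hσ, fun i => ?_⟩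
    change eqv ((a i : ℝ) / (N : ℝ)) ((a (σ (σ⁻¹ i)) : ℝ) / (N : ℝ))
    rw [pinv4]
    exact eqv_refl _
  refine M2L_of_Match4 hm ?_
  have hs' := SolY4_of_Match4 (Match4_symm hm) hs
  have hr : ∀ i, 1 ≤ a i ∧ a i ≤ n := fun i => ⟨(ha i).1, by have := (ha i).2; omega⟩
  have hkey := hF N l g w qg qw ((List.range n).map (fun k => k + 1)) Lp hN hl h1 h2 ht (by
      intro v hv
      rw [List.mem_map] at hv
      obtain ⟨k, hk, rfl⟩ := hv
      rw [List.mem_range] at hk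
      omega) (by
      apply List.Nodup.map _ List.nodup_range
      intro x y hxy
      simpa using hxy) (fun i => a (σ i)) (by
      intro i
      rw [List.mem_map]
      refine ⟨a (σ i) - 1, List.mem_range.mpr ?_, ?_⟩ <;> have := hr (σ i) <;> omega) hs'
  have hx : ((lk Lp (a (σ 0)) + lk Lp (a (σ 1))) % (l - 1), a (σ 0), a (σ 1)) ∈ K := by
    rw [← hK]
    unfold mkK
    rw [List.mem_map]
    exact ⟨(a (σ 0), a (σ 1)), mem_prsL (hr _).1 s1 (hr _).2, rfl⟩
  have hy : ((lk Lp (a (σ 2)) + lk Lp (a (σ 3))) % (l - 1), a (σ 2), a (σ 3)) ∈ K := by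
    rw [← hK]
    unfold mkK
    rw [List.mem_map]
    exact ⟨(a (σ 2), a (σ 3)), mem_prsL (hr _).1 s2 (hr _).2, rfl⟩
  unfold okAll at hA
  rw [List.all_eq_true] at hA
  have hA1 := hA _ hx
  rw [List.all_eq_true] at hA1
  have hA2 := hA1 _ hy
  unfold okPair at hA2
  simp only [Bool.or_eq_true, Bool.and_eq_true, List.any_eq_true] at hA2
  rcases hA2 with (hA2 | hA2) | hA2
  · exfalso
    have : Nat.beq ((lk Lp (a (σ 0)) + lk Lp (a (σ 1))) % (l - 1))
      ((lk Lp (a (σ 2)) + lk Lp (a (σ 3))) % (l - 1)) = true := by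
      rw [hkey]
      exact Nat.beq_refl _
    rw [this] at hA2
    simp at hA2
  · left
    have e1 := Nat.eq_of_beq_eq_true hA2.1
    have e2 := Nat.eq_of_beq_eq_true hA2.2
    refine ⟨(a (σ 0) : ℝ) / N, (a (σ 1) : ℝ) / N, Match4_of_eqv ?_⟩
    intro i
    fin_cases i
    · exact eqv_refl _
    · exact eqv_refl _
    · change eqv ((a (σ 2) : ℝ) / N) ((a (σ 0) : ℝ) / N)
      rw [e1]
      exact eqv_refl _
    · change eqv ((a (σ 3) : ℝ) / N) ((a (σ 1) : ℝ) / N)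
      rw [e2]
      exact eqv_refl _
  · obtain ⟨r, hr1, ⟨⟨e1, e2⟩, e3⟩, e4⟩ := hA2
    have e1 := Nat.eq_of_beq_eq_true e1
    have e2 := Nat.eq_of_beq_eq_true e2
    have e3 := Nat.eq_of_beq_eq_true e3
    have e4 := Nat.eq_of_beq_eq_true e4
    unfold recsOK at hR
    rw [List.all_eq_true] at hR
    have h7 := rOK_sound hN h6 _ _ _ _ (hR r hr1)
    rw [e1, e2, e3, e4] at h7
    convert h7 using 2 with i
    fin_cases i <;> rfl

def K60 : List Ky := [
  (24094, 1, 1), (7004, 1, 2), (20910, 1, 3), (22403, 1, 4), (15110, 1, 5), (9084, 1, 6), (2637, 1, 7),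
  (12271, 1, 8), (4493, 1, 9), (5717, 1, 10), (12205, 1, 11), (1998, 1, 12), (18480, 1, 13), (9115, 1, 14),
  (2724, 1, 15), (17718, 1, 16), (8142, 1, 17), (2350, 1, 18), (4676, 1, 19), (331, 1, 20), (3574, 1, 21),
  (11164, 1, 22), (12195, 1, 23), (23951, 1, 24), (21644, 1, 25), (20905, 1, 26), (19211, 1, 27), (21116, 1, 28),
  (13947, 1, 29), (25051, 1, 30), (15234, 2, 2), (3820, 2, 3), (5313, 2, 4), (23340, 2, 5), (17314, 2, 6),
  (10867, 2, 7), (20501, 2, 8), (12723, 2, 9), (13947, 2, 10), (20435, 2, 11), (10228, 2, 12), (1390, 2, 13),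
  (17345, 2, 14), (10954, 2, 15), (628, 2, 16), (16372, 2, 17), (10580, 2, 18), (12906, 2, 19), (8561, 2, 20),
  (11804, 2, 21), (19394, 2, 22), (20425, 2, 23), (6861, 2, 24), (4554, 2, 25), (3815, 2, 26), (2121, 2, 27),
  (4026, 2, 28), (22177, 2, 29), (7961, 2, 30), (17726, 3, 3), (19219, 3, 4), (11926, 3, 5), (5900, 3, 6),
  (24773, 3, 7), (9087, 3, 8), (1309, 3, 9), (2533, 3, 10), (9021, 3, 11), (24134, 3, 12), (15296, 3, 13),
  (5931, 3, 14), (24860, 3, 15), (14534, 3, 16), (4958, 3, 17), (24486, 3, 18), (1492, 3, 19), (22467, 3, 20),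
  (390, 3, 21), (7980, 3, 22), (9011, 3, 23), (20767, 3, 24), (18460, 3, 25), (17721, 3, 26), (16027, 3, 27),
  (17932, 3, 28), (10763, 3, 29), (21867, 3, 30), (20712, 4, 4), (13419, 4, 5), (7393, 4, 6), (946, 4, 7),
  (10580, 4, 8), (2802, 4, 9), (4026, 4, 10), (10514, 4, 11), (307, 4, 12), (16789, 4, 13), (7424, 4, 14),
  (1033, 4, 15), (16027, 4, 16), (6451, 4, 17), (659, 4, 18), (2985, 4, 19), (23960, 4, 20), (1883, 4, 21),
  (9473, 4, 22), (10504, 4, 23), (22260, 4, 24), (19953, 4, 25), (19214, 4, 26), (17520, 4, 27), (19425, 4, 28),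
  (12256, 4, 29), (23360, 4, 30), (6126, 5, 5), (100, 5, 6), (18973, 5, 7), (3287, 5, 8), (20829, 5, 9),
  (22053, 5, 10), (3221, 5, 11), (18334, 5, 12), (9496, 5, 13), (131, 5, 14), (19060, 5, 15), (8734, 5, 16),
  (24478, 5, 17), (18686, 5, 18), (21012, 5, 19), (16667, 5, 20), (19910, 5, 21), (2180, 5, 22), (3211, 5, 23),
  (14967, 5, 24), (12660, 5, 25), (11921, 5, 26), (10227, 5, 27), (12132, 5, 28), (4963, 5, 29), (16067, 5, 30),
  (19394, 6, 6), (12947, 6, 7), (22581, 6, 8), (14803, 6, 9), (16027, 6, 10), (22515, 6, 11), (12308, 6, 12),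
  (3470, 6, 13), (19425, 6, 14), (13034, 6, 15), (2708, 6, 16), (18452, 6, 17), (12660, 6, 18), (14986, 6, 19),
  (10641, 6, 20), (13884, 6, 21), (21474, 6, 22), (22505, 6, 23), (8941, 6, 24), (6634, 6, 25), (5895, 6, 26),
  (4201, 6, 27), (6106, 6, 28), (24257, 6, 29), (10041, 6, 30), (6500, 7, 7), (16134, 7, 8), (8356, 7, 9),
  (9580, 7, 10), (16068, 7, 11), (5861, 7, 12), (22343, 7, 13), (12978, 7, 14), (6587, 7, 15), (21581, 7, 16),
  (12005, 7, 17), (6213, 7, 18), (8539, 7, 19), (4194, 7, 20), (7437, 7, 21), (15027, 7, 22), (16058, 7, 23),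
  (2494, 7, 24), (187, 7, 25), (24768, 7, 26), (23074, 7, 27), (24979, 7, 28), (17810, 7, 29), (3594, 7, 30),
  (448, 8, 8), (17990, 8, 9), (19214, 8, 10), (382, 8, 11), (15495, 8, 12), (6657, 8, 13), (22612, 8, 14),
  (16221, 8, 15), (5895, 8, 16), (21639, 8, 17), (15847, 8, 18), (18173, 8, 19), (13828, 8, 20), (17071, 8, 21),
  (24661, 8, 22), (372, 8, 23), (12128, 8, 24), (9821, 8, 25), (9082, 8, 26), (7388, 8, 27), (9293, 8, 28),
  (2124, 8, 29), (13228, 8, 30), (10212, 9, 9), (11436, 9, 10), (17924, 9, 11), (7717, 9, 12), (24199, 9, 13),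
  (14834, 9, 14), (8443, 9, 15), (23437, 9, 16), (13861, 9, 17), (8069, 9, 18), (10395, 9, 19), (6050, 9, 20),
  (9293, 9, 21), (16883, 9, 22), (17914, 9, 23), (4350, 9, 24), (2043, 9, 25), (1304, 9, 26), (24930, 9, 27),
  (1515, 9, 28), (19666, 9, 29), (5450, 9, 30), (12660, 10, 10), (19148, 10, 11), (8941, 10, 12), (103, 10, 13),
  (16058, 10, 14), (9667, 10, 15), (24661, 10, 16), (15085, 10, 17), (9293, 10, 18), (11619, 10, 19), (7274, 10, 20),
  (10517, 10, 21), (18107, 10, 22), (19138, 10, 23), (5574, 10, 24), (3267, 10, 25), (2528, 10, 26), (834, 10, 27),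
  (2739, 10, 28), (20890, 10, 29), (6674, 10, 30), (316, 11, 11), (15429, 11, 12), (6591, 11, 13), (22546, 11, 14),
  (16155, 11, 15), (5829, 11, 16), (21573, 11, 17), (15781, 11, 18), (18107, 11, 19), (13762, 11, 20), (17005, 11, 21),
  (24595, 11, 22), (306, 11, 23), (12062, 11, 24), (9755, 11, 25), (9016, 11, 26), (7322, 11, 27), (9227, 11, 28),
  (2058, 11, 29), (13162, 11, 30), (5222, 12, 12), (21704, 12, 13), (12339, 12, 14), (5948, 12, 15), (20942, 12, 16),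
  (11366, 12, 17), (5574, 12, 18), (7900, 12, 19), (3555, 12, 20), (6798, 12, 21), (14388, 12, 22), (15419, 12, 23),
  (1855, 12, 24), (24868, 12, 25), (24129, 12, 26), (22435, 12, 27), (24340, 12, 28), (17171, 12, 29), (2955, 12, 30),
  (12866, 13, 13), (3501, 13, 14), (22430, 13, 15), (12104, 13, 16), (2528, 13, 17), (22056, 13, 18), (24382, 13, 19),
  (20037, 13, 20), (23280, 13, 21), (5550, 13, 22), (6581, 13, 23), (18337, 13, 24), (16030, 13, 25), (15291, 13, 26),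
  (13597, 13, 27), (15502, 13, 28), (8333, 13, 29), (19437, 13, 30), (19456, 14, 14), (13065, 14, 15), (2739, 14, 16),
  (18483, 14, 17), (12691, 14, 18), (15017, 14, 19), (10672, 14, 20), (13915, 14, 21), (21505, 14, 22), (22536, 14, 23),
  (8972, 14, 24), (6665, 14, 25), (5926, 14, 26), (4232, 14, 27), (6137, 14, 28), (24288, 14, 29), (10072, 14, 30),
  (6674, 15, 15), (21668, 15, 16), (12092, 15, 17), (6300, 15, 18), (8626, 15, 19), (4281, 15, 20), (7524, 15, 21),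
  (15114, 15, 22), (16145, 15, 23), (2581, 15, 24), (274, 15, 25), (24855, 15, 26), (23161, 15, 27), (25066, 15, 28),
  (17897, 15, 29), (3681, 15, 30), (11342, 16, 16), (1766, 16, 17), (21294, 16, 18), (23620, 16, 19), (19275, 16, 20),
  (22518, 16, 21), (4788, 16, 22), (5819, 16, 23), (17575, 16, 24), (15268, 16, 25), (14529, 16, 26), (12835, 16, 27),
  (14740, 16, 28), (7571, 16, 29), (18675, 16, 30), (17510, 17, 17), (11718, 17, 18), (14044, 17, 19), (9699, 17, 20),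
  (12942, 17, 21), (20532, 17, 22), (21563, 17, 23), (7999, 17, 24), (5692, 17, 25), (4953, 17, 26), (3259, 17, 27),
  (5164, 17, 28), (23315, 17, 29), (9099, 17, 30), (5926, 18, 18), (8252, 18, 19), (3907, 18, 20), (7150, 18, 21),
  (14740, 18, 22), (15771, 18, 23), (2207, 18, 24), (25220, 18, 25), (24481, 18, 26), (22787, 18, 27), (24692, 18, 28),
  (17523, 18, 29), (3307, 18, 30), (10578, 19, 19), (6233, 19, 20), (9476, 19, 21), (17066, 19, 22), (18097, 19, 23),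
  (4533, 19, 24), (2226, 19, 25), (1487, 19, 26), (25113, 19, 27), (1698, 19, 28), (19849, 19, 29), (5633, 19, 30),
  (1888, 20, 20), (5131, 20, 21), (12721, 20, 22), (13752, 20, 23), (188, 20, 24), (23201, 20, 25), (22462, 20, 26),
  (20768, 20, 27), (22673, 20, 28), (15504, 20, 29), (1288, 20, 30), (8374, 21, 21), (15964, 21, 22), (16995, 21, 23),
  (3431, 21, 24), (1124, 21, 25), (385, 21, 26), (24011, 21, 27), (596, 21, 28), (18747, 21, 29), (4531, 21, 30),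
  (23554, 22, 22), (24585, 22, 23), (11021, 22, 24), (8714, 22, 25), (7975, 22, 26), (6281, 22, 27), (8186, 22, 28),
  (1017, 22, 29), (12121, 22, 30), (296, 23, 23), (12052, 23, 24), (9745, 23, 25), (9006, 23, 26), (7312, 23, 27),
  (9217, 23, 28), (2048, 23, 29), (13152, 23, 30), (23808, 24, 24), (21501, 24, 25), (20762, 24, 26), (19068, 24, 27),
  (20973, 24, 28), (13804, 24, 29), (24908, 24, 30), (19194, 25, 25), (18455, 25, 26), (16761, 25, 27), (18666, 25, 28),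
  (11497, 25, 29), (22601, 25, 30), (17716, 26, 26), (16022, 26, 27), (17927, 26, 28), (10758, 26, 29), (21862, 26, 30),
  (14328, 27, 27), (16233, 27, 28), (9064, 27, 29), (20168, 27, 30), (18138, 28, 28), (10969, 28, 29), (22073, 28, 30),
  (3800, 29, 29), (14904, 29, 30), (688, 30, 30)]

def R60 : List RecT := [
  (1, 29, 2, 10, 0, 0, 1), (2, 10, 1, 29, 0, 4, 1), (2, 18, 4, 8, 1, 0, 1), (4, 8, 2, 18, 1, 4, 1),
  (2, 22, 6, 6, 2, 0, 1), (6, 6, 2, 22, 2, 4, 1), (2, 28, 4, 10, 0, 0, 2), (4, 10, 2, 28, 0, 4, 2),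
  (3, 27, 4, 16, 13, 4, 1), (4, 16, 3, 27, 13, 0, 1), (3, 27, 6, 10, 0, 0, 3), (6, 10, 3, 27, 0, 4, 3),
  (4, 16, 6, 10, 3, 0, 1), (6, 10, 4, 16, 3, 4, 1), (4, 26, 8, 10, 0, 0, 4), (8, 10, 4, 26, 0, 4, 4),
  (4, 28, 6, 14, 1, 7, 7), (6, 14, 4, 28, 1, 3, 7), (5, 25, 6, 18, 14, 4, 1), (6, 18, 5, 25, 14, 0, 1),
  (5, 25, 10, 10, 0, 0, 5), (10, 10, 5, 25, 0, 4, 5), (6, 18, 10, 10, 5, 4, 1), (10, 10, 6, 18, 5, 0, 1),
  (6, 24, 10, 12, 0, 2, 6), (10, 12, 6, 24, 0, 6, 6), (6, 26, 8, 16, 1, 1, 13), (8, 16, 6, 26, 1, 5, 13),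
  (7, 23, 10, 14, 0, 2, 7), (10, 14, 7, 23, 0, 6, 7), (8, 22, 10, 16, 0, 2, 8), (10, 16, 8, 22, 0, 6, 8),
  (8, 28, 9, 21, 13, 3, 7), (9, 21, 8, 28, 13, 7, 7), (8, 28, 10, 18, 3, 3, 7), (10, 18, 8, 28, 3, 7, 7),
  (9, 21, 10, 18, 0, 2, 9), (10, 18, 9, 21, 0, 6, 9), (10, 22, 11, 19, 0, 6, 11), (11, 19, 10, 22, 0, 2, 11),
  (10, 24, 12, 18, 0, 6, 12), (12, 18, 10, 24, 0, 2, 12), (10, 26, 13, 17, 0, 6, 13), (13, 17, 10, 26, 0, 2, 13),
  (10, 28, 14, 16, 0, 6, 14), (14, 16, 10, 28, 0, 2, 14), (10, 30, 15, 15, 0, 6, 15), (15, 15, 10, 30, 0, 2, 15),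
  (14, 26, 18, 18, 2, 0, 7), (18, 18, 14, 26, 2, 4, 7), (16, 28, 18, 22, 1, 5, 11), (18, 22, 16, 28, 1, 1, 11)]

def Lp60 : ℕ := 3352388052958352300462247167414273141554521404663765185668550288127109979837599711810206145065966860703211060784653665735142447273769798160305937665479056279897779701954082099951119727115275024042782206028547128360984409831895137576530038677134767570198835258007458497070415578544547561472000

theorem tab60 : tabOK 60 25321 19 15911 [2, 3, 5, 211] [2, 3, 5] ((List.range 30).map (fun k => k + 1)) Lp60 = true := by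
  decide +kernel

theorem mk60 : mkK 30 (25321 - 1) Lp60 = K60 := by decide +kernel

theorem rec60 : recsOK 60 R60 = true := by decide +kernel

theorem all60 : okAll R60 K60 = true := by decide +kernel

def K42 : List Ky := [
  (16106, 1, 1), (12597, 1, 2), (1102, 1, 3), (224, 1, 4), (181, 1, 5), (1513, 1, 6), (3790, 1, 7),
  (9987, 1, 8), (13125, 1, 9), (15073, 1, 10), (6050, 1, 11), (11918, 1, 12), (12485, 1, 13), (5416, 1, 14),
  (14195, 1, 15), (1630, 1, 16), (13553, 1, 17), (4201, 1, 18), (8469, 1, 19), (281, 1, 20), (3791, 1, 21),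
  (9088, 2, 2), (14645, 2, 3), (13767, 2, 4), (13724, 2, 5), (15056, 2, 6), (281, 2, 7), (6478, 2, 8),
  (9616, 2, 9), (11564, 2, 10), (2541, 2, 11), (8409, 2, 12), (8976, 2, 13), (1907, 2, 14), (10686, 2, 15),
  (15173, 2, 16), (10044, 2, 17), (692, 2, 18), (4960, 2, 19), (13824, 2, 20), (282, 2, 21), (3150, 3, 3),
  (2272, 3, 4), (2229, 3, 5), (3561, 3, 6), (5838, 3, 7), (12035, 3, 8), (15173, 3, 9), (69, 3, 10),
  (8098, 3, 11), (13966, 3, 12), (14533, 3, 13), (7464, 3, 14), (16243, 3, 15), (3678, 3, 16), (15601, 3, 17),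
  (6249, 3, 18), (10517, 3, 19), (2329, 3, 20), (5839, 3, 21), (1394, 4, 4), (1351, 4, 5), (2683, 4, 6),
  (4960, 4, 7), (11157, 4, 8), (14295, 4, 9), (16243, 4, 10), (7220, 4, 11), (13088, 4, 12), (13655, 4, 13),
  (6586, 4, 14), (15365, 4, 15), (2800, 4, 16), (14723, 4, 17), (5371, 4, 18), (9639, 4, 19), (1451, 4, 20),
  (4961, 4, 21), (1308, 5, 5), (2640, 5, 6), (4917, 5, 7), (11114, 5, 8), (14252, 5, 9), (16200, 5, 10),
  (7177, 5, 11), (13045, 5, 12), (13612, 5, 13), (6543, 5, 14), (15322, 5, 15), (2757, 5, 16), (14680, 5, 17),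
  (5328, 5, 18), (9596, 5, 19), (1408, 5, 20), (4918, 5, 21), (3972, 6, 6), (6249, 6, 7), (12446, 6, 8),
  (15584, 6, 9), (480, 6, 10), (8509, 6, 11), (14377, 6, 12), (14944, 6, 13), (7875, 6, 14), (16654, 6, 15),
  (4089, 6, 16), (16012, 6, 17), (6660, 6, 18), (10928, 6, 19), (2740, 6, 20), (6250, 6, 21), (8526, 7, 7),
  (14723, 7, 8), (809, 7, 9), (2757, 7, 10), (10786, 7, 11), (16654, 7, 12), (169, 7, 13), (10152, 7, 14),
  (1879, 7, 15), (6366, 7, 16), (1237, 7, 17), (8937, 7, 18), (13205, 7, 19), (5017, 7, 20), (8527, 7, 21),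
  (3868, 8, 8), (7006, 8, 9), (8954, 8, 10), (16983, 8, 11), (5799, 8, 12), (6366, 8, 13), (16349, 8, 14),
  (8076, 8, 15), (12563, 8, 16), (7434, 8, 17), (15134, 8, 18), (2350, 8, 19), (11214, 8, 20), (14724, 8, 21),
  (10144, 9, 9), (12092, 9, 10), (3069, 9, 11), (8937, 9, 12), (9504, 9, 13), (2435, 9, 14), (11214, 9, 15),
  (15701, 9, 16), (10572, 9, 17), (1220, 9, 18), (5488, 9, 19), (14352, 9, 20), (810, 9, 21), (14040, 10, 10),
  (5017, 10, 11), (10885, 10, 12), (11452, 10, 13), (4383, 10, 14), (13162, 10, 15), (597, 10, 16), (12520, 10, 17),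
  (3168, 10, 18), (7436, 10, 19), (16300, 10, 20), (2758, 10, 21), (13046, 11, 11), (1862, 11, 12), (2429, 11, 13),
  (12412, 11, 14), (4139, 11, 15), (8626, 11, 16), (3497, 11, 17), (11197, 11, 18), (15465, 11, 19), (7277, 11, 20),
  (10787, 11, 21), (7730, 12, 12), (8297, 12, 13), (1228, 12, 14), (10007, 12, 15), (14494, 12, 16), (9365, 12, 17),
  (13, 12, 18), (4281, 12, 19), (13145, 12, 20), (16655, 12, 21), (8864, 13, 13), (1795, 13, 14), (10574, 13, 15),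
  (15061, 13, 16), (9932, 13, 17), (580, 13, 18), (4848, 13, 19), (13712, 13, 20), (170, 13, 21), (11778, 14, 14),
  (3505, 14, 15), (7992, 14, 16), (2863, 14, 17), (10563, 14, 18), (14831, 14, 19), (6643, 14, 20), (10153, 14, 21),
  (12284, 15, 15), (16771, 15, 16), (11642, 15, 17), (2290, 15, 18), (6558, 15, 19), (15422, 15, 20), (1880, 15, 21),
  (4206, 16, 16), (16129, 16, 17), (6777, 16, 18), (11045, 16, 19), (2857, 16, 20), (6367, 16, 21), (11000, 17, 17),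
  (1648, 17, 18), (5916, 17, 19), (14780, 17, 20), (1238, 17, 21), (9348, 18, 18), (13616, 18, 19), (5428, 18, 20),
  (8938, 18, 21), (832, 19, 19), (9696, 19, 20), (13206, 19, 21), (1508, 20, 20), (5018, 20, 21), (8528, 21, 21)]

def R42 : List RecT := [
  (1, 20, 2, 7, 0, 0, 1), (2, 7, 1, 20, 0, 4, 1), (2, 16, 3, 9, 10, 4, 1), (3, 9, 2, 16, 10, 0, 1),
  (2, 19, 4, 7, 0, 0, 2), (4, 7, 2, 19, 0, 4, 2), (3, 15, 4, 10, 10, 3, 5), (4, 10, 3, 15, 10, 7, 5),
  (3, 18, 6, 7, 0, 0, 3), (6, 7, 3, 18, 0, 4, 3), (4, 17, 7, 8, 0, 2, 4), (7, 8, 4, 17, 0, 6, 4),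
  (5, 16, 7, 10, 0, 2, 5), (7, 10, 5, 16, 0, 6, 5), (6, 15, 7, 12, 0, 2, 6), (7, 12, 6, 15, 0, 6, 6),
  (7, 16, 8, 13, 0, 6, 8), (8, 13, 7, 16, 0, 2, 8), (7, 18, 9, 12, 0, 6, 9), (9, 12, 7, 18, 0, 2, 9),
  (7, 20, 10, 11, 0, 6, 10), (10, 11, 7, 20, 0, 2, 10), (8, 20, 9, 15, 10, 6, 11), (9, 15, 8, 20, 10, 2, 11)]

def Lp42 : ℕ := 83555353750011712839768543505852893575686793612072339231349131039856519512331841009551758870147881806103453960236001715403895989610917114870085222641887138255859338526834190335673485429792099560749499678720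

theorem tab42 : tabOK 42 17053 2 4350 [2, 3, 7, 29] [2, 3, 7] ((List.range 21).map (fun k => k + 1)) Lp42 = true := by
  decide +kernel

theorem mk42 : mkK 21 (17053 - 1) Lp42 = K42 := by decide +kernel

theorem rec42 : recsOK 42 R42 = true := by decide +kernel

theorem all42 : okAll R42 K42 = true := by decide +kernel

end F2

theorem fin2_60 (h : FC.StmtFKEY2) : FIN2 60 :=
  F2.level 60 30 25321 19 15911 F2.Lp60 [2, 3, 5, 211] [2, 3, 5] F2.K60 F2.R60 h (by norm_num) (by norm_num)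
    (by norm_num) (by norm_num)
    (by intro q hq; fin_cases hq <;> norm_num) (by intro q hq; fin_cases hq <;> norm_num)
    F2.tab60 F2.mk60 F2.rec60 F2.all60

theorem fin2_42 (h : FC.StmtFKEY2) : FIN2 42 :=
  F2.level 42 21 17053 2 4350 F2.Lp42 [2, 3, 7, 29] [2, 3, 7] F2.K42 F2.R42 h (by norm_num) (by norm_num)
    (by norm_num) (by norm_num)
    (by intro q hq; fin_cases hq <;> norm_num) (by intro q hq; fin_cases hq <;> norm_num)
    F2.tab42 F2.mk42 F2.rec42 F2.all42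

end Pool.Agent.T6.H31.TC
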