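import Pool.Agent.T6.H31.TC.FinDefs

set_option autoImplicit false

/-! Module FKEY: soundness of the tables of discrete logarithms. -/

namespace Pool.Agent.T6.H31.TC
namespace FC
namespace ModFKEY

open Polynomial

lemma powm_cast (l : ℕ) : ∀ (f g e : ℕ), e < 2 ^ f →
    ((powm l f g e : ℕ) : ZMod l) = (g : ZMod l) ^ e := by
  intro f
  induction f with
  | zero =>
    intro g e he
    have : e = 0 := by simpa using he
    subst this
    simp [powm]
  | succ f ih =>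
    intro g e he
    have he2 : e / 2 < 2 ^ f := by
      rw [pow_succ] at he
      omega
    unfold powm
    split_ifs with h
    · rw [ih _ _ he2]
      push_cast
      rw [ZMod.natCast_mod]
      push_cast
      rw [← pow_two, ← pow_mul]
      congr 1; omega
    · rw [ZMod.natCast_mod]
      push_cast
      rw [ih _ _ he2]
      rw [ZMod.natCast_mod]
      push_cast
      rw [← pow_two, ← pow_mul, ← pow_succ']
      congr 1; omega

lemma powm_lt (l : ℕ) (hl : 0 < l) (f g e : ℕ) : powm l f g e < l := by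
  induction f generalizing g e with
  | zero => exact Nat.mod_lt _ hl
  | succ f ih =>
    unfold powm
    split_ifs with h
    · exact ih _ _
    · exact Nat.mod_lt _ hl

lemma foldl_dvd (p : ℕ) (hp : p.Prime) : ∀ (qs : List ℕ) (a : ℕ),
    p ∣ qs.foldl (fun a q => a * q) a → p ∣ a ∨ ∃ q ∈ qs, p ∣ q := by
  intro qs
  induction qs with
  | nil => intro a h; left; exact h
  | cons q qs ih =>
    intro a h
    rw [List.foldl_cons] at h
    rcases ih _ h with h1 | ⟨q', h1, h2⟩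
    · rcases (Nat.Prime.dvd_mul hp).mp h1 with h2 | h2
      · left; exact h2
      · right; exact ⟨q, List.mem_cons_self, h2⟩
    · right; exact ⟨q', List.mem_cons_of_mem _ h1, h2⟩

lemma ord_of (l n x : ℕ) (qs : List ℕ) (hl : 2 < l) (hn : 0 < n) (hn' : n < 2 ^ 39)
    (hq : ∀ q ∈ qs, q.Prime) (h : ordOK l n x qs = true) : orderOf (x : ZMod l) = n := by
  unfold ordOK at h
  simp only [Bool.and_eq_true, decide_eq_true_eq, List.all_eq_true] at h
  obtain ⟨⟨h1, h2⟩, h3⟩ := h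
  apply orderOf_eq_of_pow_and_pow_div_prime hn
  · rw [← powm_cast l 40 x n (by omega), h1]; simp
  · intro p hp hpn hx
    have h4 : p ∣ (qs.foldl (fun a q => a * q) 1) ^ 30 :=
      hpn.trans (Nat.dvd_of_mod_eq_zero h2)
    have h5 := hp.dvd_of_dvd_pow h4
    rcases foldl_dvd p hp qs 1 h5 with h6 | ⟨q, hq1, hq2⟩
    · exact hp.one_lt.ne' (Nat.dvd_one.mp h6)
    · have : p = q := (Nat.prime_dvd_prime_iff_eq hp (hq q hq1)).mp hq2
      subst this
      have h7 := h3 p hq1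
      apply h7
      have h8 : ((powm l 40 x (n / p) : ℕ) : ZMod l) = ((1 : ℕ) : ZMod l) := by
        rw [powm_cast l 40 x (n / p) (by have := Nat.div_le_self n p; omega), hx]; simp
      rw [ZMod.natCast_eq_natCast_iff'] at h8
      rw [Nat.mod_eq_of_lt (powm_lt l (by omega) _ _ _), Nat.mod_eq_of_lt (by omega)] at h8
      exact h8

/-- the primitive root -/
noncomputable def zt (N : ℕ) : ℂ := Complex.exp (2 * Real.pi * Complex.I / ((2 * N : ℕ) : ℂ))

lemma zt_prim (N : ℕ) (hN : 0 < N) : IsPrimitiveRoot (zt N) (2 * N) :=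
  Complex.isPrimitiveRoot_exp (2 * N) (by omega)

lemma transfer (N l : ℕ) [Fact l.Prime] (w : ZMod l) (hN : 0 < N) (hw : IsPrimitiveRoot w (2 * N))
    (P : ℤ[X]) (h : aeval (zt N) P = 0) : aeval w P = 0 := by
  have h2N : 0 < 2 * N := by omega
  have hz := zt_prim N hN
  have h1 : cyclotomic (2 * N) ℤ ∣ P := by
    rw [cyclotomic_eq_minpoly hz h2N]
    exact minpoly.isIntegrallyClosed_dvd (hz.isIntegral h2N) h
  obtain ⟨R, rfl⟩ := h1
  rw [map_mul]
  have h3 : aeval w (cyclotomic (2 * N) ℤ) = 0 := by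
    have h4 := hw.isRoot_cyclotomic h2N
    rw [IsRoot.def, ← map_cyclotomic_int, eval_map] at h4
    rw [aeval_def]
    exact h4
  rw [h3, zero_mul]

/-- `ζ ^ (2 a) - 1 = ζ ^ a * (2 i sin (π a / N))` -/
lemma zt_sin (N a : ℕ) (hN : 0 < N) : zt N ^ (2 * a) - 1 =
    zt N ^ a * (2 * Complex.I * (Real.sin (Real.pi * ((a : ℝ) / (N : ℝ))) : ℂ)) := by
  have hN' : (N : ℂ) ≠ 0 := by exact_mod_cast hN.ne'
  have e1 : zt N ^ a = Complex.exp (((Real.pi * ((a : ℝ) / (N : ℝ)) : ℝ) : ℂ) * Complex.I) := by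
    unfold zt
    rw [← Complex.exp_nat_mul]
    congr 1
    push_cast
    field_simp
  rw [show 2 * a = a + a by ring, pow_add, e1, Complex.ofReal_sin, Complex.sin]
  have h1 : Complex.exp (((Real.pi * ((a : ℝ) / (N : ℝ)) : ℝ) : ℂ) * Complex.I) *
      Complex.exp (-((Real.pi * ((a : ℝ) / (N : ℝ)) : ℝ) : ℂ) * Complex.I) = 1 := by
    rw [← Complex.exp_add, show ∀ x : ℂ, x * Complex.I + -x * Complex.I = 0 by intro x; ring,
      Complex.exp_zero]
  generalize Complex.exp (((Real.pi * ((a : ℝ) / (N : ℝ)) : ℝ) : ℂ) * Complex.I) = X at h1 ⊢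
  generalize Complex.exp (-((Real.pi * ((a : ℝ) / (N : ℝ)) : ℝ) : ℂ) * Complex.I) = Y at h1 ⊢
  have hI := Complex.I_mul_I
  linear_combination h1 + (X * X - X * Y) * hI

lemma sin_pos' (N a : ℕ) (hN : 0 < N) (h1 : 1 ≤ a) (h2 : 2 * a ≤ N) :
    0 < Real.sin (Real.pi * ((a : ℝ) / (N : ℝ))) := by
  have hN' : (0 : ℝ) < N := by exact_mod_cast hN
  have ha : (0 : ℝ) < a := by exact_mod_cast h1
  have h2' : 2 * (a : ℝ) ≤ N := by exact_mod_cast h2
  apply Real.sin_pos_of_pos_of_lt_pi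
  · have := Real.pi_pos
    positivity
  · have h3 : (a : ℝ) / N < 1 := by
      rw [div_lt_one hN']; linarith
    have := Real.pi_pos
    nlinarith

/-- facts in the finite field -/
lemma facts (N l g w : ℕ) (qg qw vals : List ℕ) (Lp : ℕ) (hN : 0 < N)
    (hqg : ∀ q ∈ qg, q.Prime) (hqw : ∀ q ∈ qw, q.Prime)
    (h : tabOK N l g w qg qw vals Lp = true) (hv : ∀ v ∈ vals, 1 ≤ v ∧ 2 * v ≤ N) :
    orderOf (g : ZMod l) = l - 1 ∧ IsPrimitiveRoot (w : ZMod l) (2 * N) ∧ 2 < l ∧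
      ∀ v ∈ vals, (g : ZMod l) ^ (lk Lp v) * (w : ZMod l) ^ v = (w : ZMod l) ^ (2 * v) - 1 := by
  unfold tabOK at h
  simp only [Bool.and_eq_true, decide_eq_true_eq, List.all_eq_true] at h
  obtain ⟨⟨⟨⟨⟨⟨⟨-, -⟩, hl2⟩, hl39⟩, hN39⟩, hog⟩, how⟩, hall⟩ := h
  have ho1 := ord_of l (l - 1) g qg hl2 (by omega) (by omega) hqg hog
  have ho2 := ord_of l (2 * N) w qw hl2 (by omega) hN39 hqw how
  refine ⟨ho1, ?_, hl2, ?_⟩
  · rw [← ho2]; exact IsPrimitiveRoot.orderOf _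
  · intro v hvv
    obtain ⟨h1, h2⟩ := hall v hvv
    obtain ⟨h3, h4⟩ := hv v hvv
    have h5 : ((powm l 40 g (lk Lp v) * powm l 40 w v % l : ℕ) : ZMod l) =
        (((powm l 40 w (2 * v) + (l - 1)) % l : ℕ) : ZMod l) := by rw [h2]
    rw [ZMod.natCast_mod, ZMod.natCast_mod] at h5
    push_cast [Nat.cast_sub (by omega : 1 ≤ l)] at h5
    rw [powm_cast l 40 g _ (by omega), powm_cast l 40 w _ (by omega),
      powm_cast l 40 w _ (by omega)] at h5
    rw [h5]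
    simp
    ring

lemma pow_eq (l n g : ℕ) [Fact l.Prime] (hn : 0 < n) (ho : orderOf (g : ZMod l) = n) (a b : ℕ)
    (h : (g : ZMod l) ^ a = (g : ZMod l) ^ b) : a % n = b % n := by
  have hg : (g : ZMod l) ≠ 0 := by
    intro h0
    have := pow_orderOf_eq_one (g : ZMod l)
    rw [ho, h0, zero_pow hn.ne'] at this
    exact zero_ne_one this
  have h1 : (Units.mk0 (g : ZMod l) hg) ^ a = (Units.mk0 (g : ZMod l) hg) ^ b := by
    apply Units.ext
    simpa using h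
  rw [pow_eq_pow_iff_modEq] at h1
  have h2 : orderOf (Units.mk0 (g : ZMod l) hg) = n := by
    rw [← orderOf_units]; exact ho
  rw [h2] at h1
  exact h1

end ModFKEY

open ModFKEY Polynomial in
theorem fkey : StmtFKEY := by
  intro N l g w qg qw vals Lp hN hl hqg hqw htab hv _ a ha hsol
  obtain ⟨hog, hw, hl2, hlog⟩ := facts N l g w qg qw vals Lp hN hqg hqw htab hv
  have hF : Fact l.Prime := ⟨hl⟩
  have hw0 : (w : ZMod l) ≠ 0 := hw.ne_zero (by omega)
  have s : ∀ i, 0 < Real.sin (Real.pi * ((a i : ℝ) / (N : ℝ))) := fun i =>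
    sin_pos' N (a i) hN (hv _ (ha i)).1 (hv _ (ha i)).2
  unfold SolY at hsol
  rw [abs_of_pos (mul_pos (mul_pos (s 0) (s 1)) (s 2)),
    abs_of_pos (mul_pos (mul_pos (s 3) (s 4)) (s 5))] at hsol
  have hsolC : (Real.sin (Real.pi * ((a 0 : ℝ) / (N : ℝ))) : ℂ) *
      (Real.sin (Real.pi * ((a 1 : ℝ) / (N : ℝ))) : ℂ) *
      (Real.sin (Real.pi * ((a 2 : ℝ) / (N : ℝ))) : ℂ) =
      (Real.sin (Real.pi * ((a 3 : ℝ) / (N : ℝ))) : ℂ) *
      (Real.sin (Real.pi * ((a 4 : ℝ) / (N : ℝ))) : ℂ) *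
      (Real.sin (Real.pi * ((a 5 : ℝ) / (N : ℝ))) : ℂ) := by exact_mod_cast hsol
  have hP : aeval (zt N) ((X ^ (2 * a 0) - 1) * (X ^ (2 * a 1) - 1) * (X ^ (2 * a 2) - 1) *
      (X ^ a 3 * X ^ a 4 * X ^ a 5) -
      (X ^ (2 * a 3) - 1) * (X ^ (2 * a 4) - 1) * (X ^ (2 * a 5) - 1) *
      (X ^ a 0 * X ^ a 1 * X ^ a 2) : ℤ[X]) = 0 := by
    simp only [map_sub, map_mul, map_pow, aeval_X, map_one]
    rw [zt_sin N (a 0) hN, zt_sin N (a 1) hN, zt_sin N (a 2) hN, zt_sin N (a 3) hN,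
      zt_sin N (a 4) hN, zt_sin N (a 5) hN]
    linear_combination (zt N ^ a 0 * zt N ^ a 1 * zt N ^ a 2 * zt N ^ a 3 * zt N ^ a 4 *
      zt N ^ a 5 * (2 * Complex.I) ^ 3) * hsolC
  have hQ := transfer N l (w : ZMod l) hN hw _ hP
  simp only [map_sub, map_mul, map_pow, aeval_X, map_one] at hQ
  rw [← hlog _ (ha 0), ← hlog _ (ha 1), ← hlog _ (ha 2), ← hlog _ (ha 3), ← hlog _ (ha 4),
    ← hlog _ (ha 5)] at hQ
  apply pow_eq l (l - 1) g (by omega) hog
  have hne : (w : ZMod l) ^ a 0 * (w : ZMod l) ^ a 1 * (w : ZMod l) ^ a 2 * (w : ZMod l) ^ a 3 *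
      (w : ZMod l) ^ a 4 * (w : ZMod l) ^ a 5 ≠ 0 :=
    mul_ne_zero (mul_ne_zero (mul_ne_zero (mul_ne_zero (mul_ne_zero (pow_ne_zero _ hw0)
      (pow_ne_zero _ hw0)) (pow_ne_zero _ hw0)) (pow_ne_zero _ hw0)) (pow_ne_zero _ hw0))
      (pow_ne_zero _ hw0)
  apply mul_right_cancel₀ hne
  rw [pow_add, pow_add, pow_add, pow_add]
  linear_combination hQ

open ModFKEY Polynomial in
theorem fkey2 : StmtFKEY2 := by
  intro N l g w qg qw vals Lp hN hl hqg hqw htab hv _ a ha hsol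
  obtain ⟨hog, hw, hl2, hlog⟩ := facts N l g w qg qw vals Lp hN hqg hqw htab hv
  have hF : Fact l.Prime := ⟨hl⟩
  have hw0 : (w : ZMod l) ≠ 0 := hw.ne_zero (by omega)
  have s : ∀ i, 0 < Real.sin (Real.pi * ((a i : ℝ) / (N : ℝ))) := fun i =>
    sin_pos' N (a i) hN (hv _ (ha i)).1 (hv _ (ha i)).2
  unfold SolY4 at hsol
  rw [abs_of_pos (mul_pos (s 0) (s 1)), abs_of_pos (mul_pos (s 2) (s 3))] at hsol
  have hsolC : (Real.sin (Real.pi * ((a 0 : ℝ) / (N : ℝ))) : ℂ) *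
      (Real.sin (Real.pi * ((a 1 : ℝ) / (N : ℝ))) : ℂ) =
      (Real.sin (Real.pi * ((a 2 : ℝ) / (N : ℝ))) : ℂ) *
      (Real.sin (Real.pi * ((a 3 : ℝ) / (N : ℝ))) : ℂ) := by exact_mod_cast hsol
  have hP : aeval (zt N) ((X ^ (2 * a 0) - 1) * (X ^ (2 * a 1) - 1) * (X ^ a 2 * X ^ a 3) -
      (X ^ (2 * a 2) - 1) * (X ^ (2 * a 3) - 1) * (X ^ a 0 * X ^ a 1) : ℤ[X]) = 0 := by
    simp only [map_sub, map_mul, map_pow, aeval_X, map_one]
    rw [zt_sin N (a 0) hN, zt_sin N (a 1) hN, zt_sin N (a 2) hN, zt_sin N (a 3) hN]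
    linear_combination (zt N ^ a 0 * zt N ^ a 1 * zt N ^ a 2 * zt N ^ a 3 *
      (2 * Complex.I) ^ 2) * hsolC
  have hQ := transfer N l (w : ZMod l) hN hw _ hP
  simp only [map_sub, map_mul, map_pow, aeval_X, map_one] at hQ
  rw [← hlog _ (ha 0), ← hlog _ (ha 1), ← hlog _ (ha 2), ← hlog _ (ha 3)] at hQ
  apply pow_eq l (l - 1) g (by omega) hog
  have hne : (w : ZMod l) ^ a 0 * (w : ZMod l) ^ a 1 * (w : ZMod l) ^ a 2 *
      (w : ZMod l) ^ a 3 ≠ 0 :=
    mul_ne_zero (mul_ne_zero (mul_ne_zero (pow_ne_zero _ hw0) (pow_ne_zero _ hw0))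
      (pow_ne_zero _ hw0)) (pow_ne_zero _ hw0)
  apply mul_right_cancel₀ hne
  rw [pow_add, pow_add]
  linear_combination hQ

end FC
end Pool.Agent.T6.H31.TC
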