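import Pool.Agent.T6.H31.TC.INV4

set_option autoImplicit false

/-!
Module FM of the project TC (MP_6e4ab6_nt): the classification from the levels and the lines.
-/

namespace Pool.Agent.T6.H31.TC

open Finset INVx INV4x

namespace FMx

/-- a fraction is equivalent to one in `(0, 1/2]` -/
theorem level_rep {x : ℝ} {L : ℕ} (hL : 0 < L) (hx : ∃ k : ℤ, x = k / (L : ℕ))
    (h : Real.sin (Real.pi * x) ≠ 0) : ∃ a : ℕ, 1 ≤ a ∧ 2 * a ≤ L ∧ eqv x ((a : ℝ) / (L : ℝ)) := by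
  obtain ⟨k, hx⟩ := hx
  have hL' : (0 : ℤ) < (L : ℤ) := by exact_mod_cast hL
  have hLR : (L : ℝ) ≠ 0 := by exact_mod_cast hL.ne'
  obtain ⟨r, hr⟩ : ∃ r : ℕ, (r : ℤ) = k % (L : ℤ) :=
    ⟨(k % (L : ℤ)).toNat, Int.toNat_of_nonneg (Int.emod_nonneg k hL'.ne')⟩
  have hrL : r < L := by
    have := Int.emod_lt_of_pos k hL'
    rw [← hr] at this
    exact_mod_cast this
  have hkr : (k : ℝ) = (L : ℝ) * ((k / (L : ℤ) : ℤ) : ℝ) + (r : ℝ) := by
    have h1 : k = (L : ℤ) * (k / (L : ℤ)) + (r : ℤ) := by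
      rw [hr]
      exact (Int.mul_ediv_add_emod k (L : ℤ)).symm
    exact_mod_cast h1
  have hxr : x = (r : ℝ) / (L : ℝ) + ((k / (L : ℤ) : ℤ) : ℝ) := by
    rw [hx, hkr]
    field_simp
    ring
  have hr0 : r ≠ 0 := by
    intro h0
    apply h
    rw [hxr, h0, Nat.cast_zero, zero_div, zero_add, mul_comm]
    exact Real.sin_int_mul_pi _
  by_cases h2 : 2 * r ≤ L
  · exact ⟨r, Nat.one_le_iff_ne_zero.2 hr0, h2, ⟨k / (L : ℤ), Or.inl hxr⟩⟩
  · refine ⟨L - r, by omega, by omega, ⟨k / (L : ℤ) + 1, Or.inr ?_⟩⟩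
    rw [hxr, Nat.cast_sub hrL.le]
    push_cast
    field_simp
    ring

/-- rational angles are angles of exponents -/
theorem prep {n : ℕ} (y : Fin n → ℝ) (hq : ∀ i, ∃ q : ℚ, y i = q) :
    ∃ (N : ℕ) (e : Fin n → ℤ), 0 < N ∧ 60060 ∣ N ∧
      ∀ i, 1 / 2 - 2 * (e i : ℝ) / (N : ℝ) = y i := by
  choose q hq using hq
  obtain ⟨P, hP⟩ : ∃ P : ℕ, P = ∏ i, (q i).den := ⟨_, rfl⟩
  have hP0 : 0 < P := by
    rw [hP]
    exact Finset.prod_pos fun i _ => (q i).den_pos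
  have hc : ∀ i, ∃ c : ℤ, (c : ℝ) = (P : ℝ) * y i := by
    intro i
    obtain ⟨m, hm⟩ : (q i).den ∣ P := by
      rw [hP]
      exact Finset.dvd_prod_of_mem _ (mem_univ i)
    refine ⟨(m : ℤ) * (q i).num, ?_⟩
    have h1 : ((q i).den : ℝ) * ((q i : ℚ) : ℝ) = ((q i).num : ℝ) := by
      have h2 : ((q i).den : ℚ) * q i = ((q i).num : ℚ) := by
        rw [mul_comm]
        exact Rat.mul_den_eq_num (q i)
      exact_mod_cast h2
    rw [hq, hm]
    push_cast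
    rw [← h1]
    ring
  choose c hc using hc
  have hPR : (P : ℝ) ≠ 0 := by exact_mod_cast hP0.ne'
  refine ⟨4 * 60060 * P, fun i => 60060 * (P : ℤ) - 2 * 60060 * c i, by positivity,
    ⟨4 * P, by ring⟩, fun i => ?_⟩
  have h3 : y i = (c i : ℝ) / (P : ℝ) := by
    rw [hc, mul_div_cancel_left₀ _ hPR]
  rw [h3]
  push_cast
  field_simp
  ring

theorem fract_eqv (x : ℝ) : eqv (Int.fract x) x := by
  refine ⟨-⌊x⌋, Or.inl ?_⟩
  rw [Int.fract]
  push_cast
  ring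

theorem fract_rat {x : ℝ} (h : ∃ q : ℚ, x = q) : ∃ q : ℚ, Int.fract x = q := by
  obtain ⟨q, hq⟩ := h
  refine ⟨q - (⌊x⌋ : ℤ), ?_⟩
  rw [Int.fract]
  push_cast
  rw [← hq]

theorem fract_pos {x : ℝ} (h : Real.sin (Real.pi * Int.fract x) ≠ 0) :
    0 < Real.sin (Real.pi * Int.fract x) := by
  refine lt_of_le_of_ne (Real.sin_nonneg_of_nonneg_of_le_pi ?_ ?_) (Ne.symm h)
  · exact mul_nonneg Real.pi_pos.le (Int.fract_nonneg x)
  · have h1 := (Int.fract_lt_one x).le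
    nlinarith [Real.pi_pos]

theorem yy_eqv (N : ℕ) (e e' : Fin 6 → ℤ) (i j : Fin 6) (ε : ℤ) (hε : ε = 1 ∨ ε = -1)
    (h : e' i = ε * e j) : eqv (yy N e' i) (yy N e j) := by
  rcases hε with hε | hε
  · refine ⟨0, Or.inl ?_⟩
    rw [yy, yy, h, hε]
    push_cast
    ring
  · refine ⟨1, Or.inr ?_⟩
    rw [yy, yy, h, hε]
    push_cast
    ring

theorem yy4_eqv (N : ℕ) (e e' : Fin 4 → ℤ) (i j : Fin 4) (ε : ℤ) (hε : ε = 1 ∨ ε = -1)
    (h : e' i = ε * e j) : eqv (yy4 N e' i) (yy4 N e j) := by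
  rcases hε with hε | hε
  · refine ⟨0, Or.inl ?_⟩
    rw [yy4, yy4, h, hε]
    push_cast
    ring
  · refine ⟨1, Or.inr ?_⟩
    rw [yy4, yy4, h, hε]
    push_cast
    ring

theorem yy_rat (N : ℕ) (e : Fin 6 → ℤ) (i : Fin 6) : ∃ q : ℚ, yy N e i = q :=
  ⟨1 / 2 - 2 * (e i : ℚ) / (N : ℚ), by rw [yy]; push_cast; rfl⟩

theorem yy4_rat (N : ℕ) (e : Fin 4 → ℤ) (i : Fin 4) : ∃ q : ℚ, yy4 N e i = q :=
  ⟨1 / 2 - 2 * (e i : ℚ) / (N : ℚ), by rw [yy4]; push_cast; rfl⟩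

end FMx

open FMx

/-- the classification, from its parts -/
theorem fm (_hi : StmtI1) (_hi2 : StmtI2) (hb : StmtB0) (hlv : StmtLV)
    (hL : ∀ w ∈ Wl, LineSt w) (hF : ∀ L ∈ Levels, FINst L) (hmix : FINmix) (hct : StmtCT)
    (hrv : StmtRV) : StmtMain := by
  intro y0 hq0 hnz0
  refine ⟨fun hsol0 => ?_, fun h => hrv y0 h⟩
  suffices hres : Res y0 by
    rcases hres with h | h
    · exact hct y0 hq0 hnz0 hsol0 h
    · exact Or.inr h
  -- representatives in `(0, 1)`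
  obtain ⟨y, hy⟩ : ∃ y : Fin 6 → ℝ, y = fun i => Int.fract (y0 i) := ⟨_, rfl⟩
  have hy0 : Match y0 y := Match_of_eqv fun i => by
    rw [hy]
    exact eqv_symm (fract_eqv (y0 i))
  refine Res_of_Match hy0 ?_
  have hq : ∀ i, ∃ q : ℚ, y i = q := fun i => by
    rw [hy]
    exact fract_rat (hq0 i)
  have hnz : NZ y := NZ_of_Match (Match_symm hy0) hnz0
  have hsol : SolY y := SolY_of_Match (Match_symm hy0) hsol0
  have hpos : ∀ i, 0 < Real.sin (Real.pi * y i) := by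
    intro i
    have h := hnz i
    rw [hy] at h ⊢
    exact fract_pos h
  have heq : Real.sin (Real.pi * y 0) * Real.sin (Real.pi * y 1) * Real.sin (Real.pi * y 2) =
      Real.sin (Real.pi * y 3) * Real.sin (Real.pi * y 4) * Real.sin (Real.pi * y 5) := by
    rw [SolY, abs_of_pos (mul_pos (mul_pos (hpos 0) (hpos 1)) (hpos 2)),
      abs_of_pos (mul_pos (mul_pos (hpos 3) (hpos 4)) (hpos 5))] at hsol
    exact hsol
  obtain ⟨N, e, hN, hdiv, he⟩ := prep y hq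
  have hye : y = yy N e := funext fun i => (he i).symm
  rw [hye] at heq hnz hsol
  have hsum := hb N e hN (dvd_trans ⟨30030, rfl⟩ hdiv) heq
  obtain ⟨e', hrel, hcase⟩ := hlv N e hN hdiv hnz hsum
  have hm : Match (yy N e') (yy N e) := by
    obtain ⟨σ, ε, hσ, hε, he'⟩ := hrel
    exact ⟨σ, hσ, fun i => yy_eqv N e e' i (σ i) (ε i) (hε i) (he' i)⟩
  have hnz' : NZ (yy N e') := NZ_of_Match hm hnz
  have hsol' : SolY (yy N e') := SolY_of_Match hm hsol
  rw [hye]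
  refine Res_of_Match (Match_symm hm) ?_
  rcases hcase with ⟨w, hw, hline⟩ | ⟨L, hLmem, hlev⟩ | ⟨hA, hB⟩
  · exact hL w hw (yy N e') (yy_rat N e') hnz' hline
  · have hLpos : 0 < L := by
      simp only [Levels, List.mem_cons, List.not_mem_nil, or_false] at hLmem
      omega
    choose a ha1 ha2 ha3 using fun i => level_rep hLpos (hlev i) (hnz' i)
    have hm2 : Match (yy N e') (fun i => (a i : ℝ) / (L : ℝ)) := Match_of_eqv ha3
    refine Res_of_Match hm2 (hF L hLmem a (fun i => ⟨ha1 i, ha2 i⟩) ?_)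
    exact SolY_of_Match (Match_symm hm2) hsol'
  · have hrep : ∀ i : Fin 6, ∃ a : ℕ, 1 ≤ a ∧ (i.val < 3 → 2 * a ≤ 42) ∧
        (3 ≤ i.val → 2 * a ≤ 60) ∧
        eqv (yy N e' i) ((a : ℝ) / (if i.val < 3 then 42 else 60)) := by
      intro i
      by_cases h3 : i.val < 3
      · obtain ⟨a, h1, h2, h4⟩ := level_rep (L := 42) (by norm_num)
          (by exact_mod_cast hA i h3) (hnz' i)
        refine ⟨a, h1, fun _ => h2, fun h => absurd h3 (not_lt.2 h), ?_⟩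
        rw [if_pos h3]
        exact_mod_cast h4
      · obtain ⟨a, h1, h2, h4⟩ := level_rep (L := 60) (by norm_num)
          (by exact_mod_cast hB i (not_lt.1 h3)) (hnz' i)
        refine ⟨a, h1, fun h => absurd h h3, fun _ => h2, ?_⟩
        rw [if_neg h3]
        exact_mod_cast h4
    choose a ha1 ha2 ha3 ha4 using hrep
    have hm2 : Match (yy N e') (fun i => (a i : ℝ) / (if i.val < 3 then 42 else 60)) :=
      Match_of_eqv ha4
    refine Res_of_Match hm2 (hmix a (fun i => ⟨ha1 i, ha2 i, ha3 i⟩) ?_)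
    exact SolY_of_Match (Match_symm hm2) hsol'

/-- the two-sine equation, from its parts -/
theorem fm2 (hmp : StmtMP) (hml : StmtML) (h60 : FIN2 60) (h42 : FIN2 42) : StmtM2 := by
  intro y0 hq0 hnz0 hsol0
  obtain ⟨y, hy⟩ : ∃ y : Fin 4 → ℝ, y = fun i => Int.fract (y0 i) := ⟨_, rfl⟩
  have hy0 : Match4 y0 y := Match4_of_eqv fun i => by
    rw [hy]
    exact eqv_symm (fract_eqv (y0 i))
  refine M2L_of_Match4 hy0 ?_
  have hq : ∀ i, ∃ q : ℚ, y i = q := fun i => by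
    rw [hy]
    exact fract_rat (hq0 i)
  have hnz : NZ4 y := NZ4_of_Match4 (Match4_symm hy0) hnz0
  have hsol : SolY4 y := SolY4_of_Match4 (Match4_symm hy0) hsol0
  have hpos : ∀ i, 0 < Real.sin (Real.pi * y i) := by
    intro i
    have h := hnz i
    rw [hy] at h ⊢
    exact fract_pos h
  have heq : Real.sin (Real.pi * y 0) * Real.sin (Real.pi * y 1) =
      Real.sin (Real.pi * y 2) * Real.sin (Real.pi * y 3) := by
    rw [SolY4, abs_of_pos (mul_pos (hpos 0) (hpos 1)),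
      abs_of_pos (mul_pos (hpos 2) (hpos 3))] at hsol
    exact hsol
  obtain ⟨N, e, hN, hdiv, he⟩ := prep y hq
  have hye : y = yy4 N e := funext fun i => (he i).symm
  rw [hye] at heq hnz hsol
  obtain ⟨e', hrel, hcase⟩ := hmp N e hN hdiv hnz heq
  have hm : Match4 (yy4 N e') (yy4 N e) := by
    obtain ⟨σ, ε, hσ, hε, he'⟩ := hrel
    exact ⟨σ, hσ, fun i => yy4_eqv N e e' i (σ i) (ε i) (hε i) (he' i)⟩
  have hnz' : NZ4 (yy4 N e') := NZ4_of_Match4 hm hnz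
  have hsol' : SolY4 (yy4 N e') := SolY4_of_Match4 hm hsol
  rw [hye]
  refine M2L_of_Match4 (Match4_symm hm) ?_
  rcases hcase with ⟨w, hw, hline⟩ | hlev | hlev
  · exact hml (yy4 N e') w hw hnz' hline
  · choose a ha1 ha2 ha3 using fun i => level_rep (L := 60) (by norm_num)
      (by exact_mod_cast hlev i) (hnz' i)
    have hm2 : Match4 (yy4 N e') (fun i => (a i : ℝ) / ((60 : ℕ) : ℝ)) := Match4_of_eqv ha3
    refine M2L_of_Match4 hm2 (h60 a (fun i => ⟨ha1 i, ha2 i⟩) ?_)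
    exact SolY4_of_Match4 (Match4_symm hm2) hsol'
  · choose a ha1 ha2 ha3 using fun i => level_rep (L := 42) (by norm_num)
      (by exact_mod_cast hlev i) (hnz' i)
    have hm2 : Match4 (yy4 N e') (fun i => (a i : ℝ) / ((42 : ℕ) : ℝ)) := Match4_of_eqv ha3
    refine M2L_of_Match4 hm2 (h42 a (fun i => ⟨ha1 i, ha2 i⟩) ?_)
    exact SolY4_of_Match4 (Match4_symm hm2) hsol'

end Pool.Agent.T6.H31.TC
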