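import Pool.Agent.T6.H31.TC.FinDefs

set_option autoImplicit false

/-!
Module FPR of the project TC (MP_6e4ab6_nt): soundness of the check of the pairs.
-/

namespace Pool.Agent.T6.H31.TC

namespace FC

namespace FPRx

/-- a checked pair -/
def Good (N M2 Lp2 : ℕ) (t u : Tri) : Prop :=
  common t u = true ∨ key M2 Lp2 t ≠ key M2 Lp2 u ∨
    ∃ kind idx P Q : ℕ, recOK N t u kind idx P Q = true

theorem prs_good (N M2 Lp2 : ℕ) (t : Tri) : ∀ (r : List Tri) (s s' : List ℕ),
    prs N M2 Lp2 t r s = some s' → ∀ u ∈ r, Good N M2 Lp2 t u := by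
  intro r
  induction r with
  | nil => intro s s' _ u hu; simp at hu
  | cons v r ih =>
    intro s s' h u hu
    unfold prs at h
    by_cases hc : common t v = true
    · rw [if_pos hc] at h
      rcases List.mem_cons.1 hu with rfl | hu
      · exact Or.inl hc
      · exact ih s s' h u hu
    · rw [if_neg hc] at h
      by_cases hk : Nat.beq (key M2 Lp2 t) (key M2 Lp2 v) = true
      · rw [if_pos hk] at h
        split at h
        · rename_i kind idx P Q s1
          by_cases hr : recOK N t v kind idx P Q = true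
          · rw [if_pos hr] at h
            rcases List.mem_cons.1 hu with rfl | hu
            · exact Or.inr (Or.inr ⟨kind, idx, P, Q, hr⟩)
            · exact ih s1 s' h u hu
          · rw [if_neg hr] at h
            exact absurd h (by simp)
        · exact absurd h (by simp)
      · rw [if_neg hk] at h
        rcases List.mem_cons.1 hu with rfl | hu
        · refine Or.inr (Or.inl fun he => hk ?_)
          rw [he]
          exact Nat.beq_refl _
        · exact ih s s' h u hu

theorem grp_good (N M2 Lp2 : ℕ) : ∀ (g : List Tri) (s s' : List ℕ),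
    grpPr N M2 Lp2 g s = some s' → g.Pairwise (Good N M2 Lp2) := by
  intro g
  induction g with
  | nil => intro s s' _; exact List.Pairwise.nil
  | cons t r ih =>
    intro s s' h
    rw [grpPr] at h
    cases hp : prs N M2 Lp2 t r s with
    | none => rw [hp] at h; exact absurd h (by simp)
    | some s1 =>
      rw [hp] at h
      exact List.Pairwise.cons (prs_good N M2 Lp2 t r s s1 hp) (ih s1 s' h)

theorem all_good (N M2 Lp2 : ℕ) : ∀ (gs : List (ℕ × List Tri)) (s : List ℕ),
    allPr N M2 Lp2 gs s = true → ∀ x ∈ gs, x.2.Pairwise (Good N M2 Lp2) := by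
  intro gs
  induction gs with
  | nil => intro s _ x hx; simp at hx
  | cons y r ih =>
    intro s h x hx
    obtain ⟨k, g⟩ := y
    rw [allPr] at h
    cases hp : grpPr N M2 Lp2 g s with
    | none => rw [hp] at h; exact absurd h (by simp)
    | some s1 =>
      rw [hp] at h
      rcases List.mem_cons.1 hx with rfl | hx
      · exact grp_good N M2 Lp2 g s s1 hp
      · exact ih s1 h x hx

/-! ### the permutation of a record -/

theorem qf_facts : ∀ idx < 72, (∀ i < 6, qf idx i < 6) ∧
    (∀ i < 6, ∀ j < 6, qf idx i = qf idx j → i = j) ∧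
    ((∀ i < 6, (qf idx i < 3 ↔ i < 3)) ∨ (∀ i < 6, (qf idx i < 3 ↔ 3 ≤ i))) := by
  decide +kernel

theorem exists_perm {idx : ℕ} (h : idx < 72) : ∃ σ : Equiv.Perm (Fin 6), Blk σ ∧
    ∀ i : Fin 6, (σ i).val = qf idx i.val := by
  obtain ⟨h1, h2, h3⟩ := qf_facts idx h
  let f : Fin 6 → Fin 6 := fun i => ⟨qf idx i.val, h1 i.val i.isLt⟩
  have hf : Function.Injective f := by
    intro i j hij
    have h4 : qf idx i.val = qf idx j.val := congrArg Fin.val hij
    exact Fin.ext (h2 i.val i.isLt j.val j.isLt h4)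
  have hb : Function.Bijective f := Finite.injective_iff_bijective.1 hf
  refine ⟨Equiv.ofBijective f hb, ?_, fun i => rfl⟩
  rcases h3 with h3 | h3
  · exact Or.inl fun i => h3 i.val i.isLt
  · exact Or.inr fun i => h3 i.val i.isLt

/-! ### the entries -/

theorem eqv1 {N a z : ℕ} (hN : 0 < N) (h : 720 * a % (720 * N) = z % (720 * N)) :
    eqv ((a : ℝ) / N) ((z : ℝ) / (720 * N)) := by
  have h1 : ((720 * N : ℕ) : ℤ) ∣ ((z : ℕ) : ℤ) - ((720 * a : ℕ) : ℤ) :=
    (Nat.modEq_iff_dvd).1 h
  obtain ⟨k, hk⟩ := h1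
  refine ⟨-k, Or.inl ?_⟩
  have h2 : (z : ℝ) - 720 * a = 720 * N * k := by
    have := congrArg (Int.cast : ℤ → ℝ) hk
    push_cast at this
    linarith
  have hN' : (N : ℝ) ≠ 0 := by exact_mod_cast hN.ne'
  push_cast
  field_simp
  linarith

theorem eqv2 {N a z : ℕ} (hN : 0 < N) (h : (720 * a + z) % (720 * N) = 0) :
    eqv ((a : ℝ) / N) ((z : ℝ) / (720 * N)) := by
  obtain ⟨k, hk⟩ := Nat.dvd_of_mod_eq_zero h
  refine ⟨(k : ℤ), Or.inr ?_⟩
  have h2 : (720 : ℝ) * a + z = 720 * N * k := by exact_mod_cast hk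
  have hN' : (N : ℝ) ≠ 0 := by exact_mod_cast hN.ne'
  push_cast
  field_simp
  linarith

theorem pv_apply (N : ℕ) (t u : Tri) (i : Fin 6) :
    pv N t u i = (([t.1, t.2.1, t.2.2, u.1, u.2.1, u.2.2].getD i.val 0 : ℕ) : ℝ) / N := by
  fin_cases i <;> rfl

/-- a record gives a match with the candidate -/
theorem rec_match {N : ℕ} (hN : 0 < N) {t u : Tri} {kind idx P Q : ℕ}
    (h : recOK N t u kind idx P Q = true) (w : Fin 6 → ℝ)
    (hw : ∀ j : Fin 6, w j = (((cand N kind P Q).getD j.val 0 : ℕ) : ℝ) / (720 * N)) :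
    kindOK N kind P = true ∧ Match (pv N t u) w := by
  unfold recOK at h
  simp only [Bool.and_eq_true, decide_eq_true_eq, List.all_eq_true, List.mem_range] at h
  obtain ⟨⟨h1, h2⟩, h3⟩ := h
  refine ⟨h1, ?_⟩
  obtain ⟨σ, hσ, hq⟩ := exists_perm h2
  refine ⟨σ, hσ, fun i => ?_⟩
  rw [pv_apply, hw (σ i), hq i]
  have h4 := h3 i.val i.isLt
  rw [Bool.or_eq_true] at h4
  rcases h4 with h4 | h4
  · exact eqv1 hN (Nat.eq_of_beq_eq_true h4)
  · exact eqv2 hN (Nat.eq_of_beq_eq_true h4)

theorem fams_facts : ∀ f ∈ Fams, ∀ x ∈ f, (0 : ℤ) ≤ x.1 ∧ (0 : ℤ) ≤ x.2 := by decide +kernel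

theorem fam_nonneg {f : List (ℤ × ℤ)} (hf : f ∈ Fams) (j : ℕ) :
    (0 : ℤ) ≤ (f.getD j (0, 0)).1 ∧ (0 : ℤ) ≤ (f.getD j (0, 0)).2 := by
  by_cases hj : j < f.length
  · rw [List.getD_eq_getElem _ _ hj]
    exact fams_facts f hf _ (List.getElem_mem hj)
  · rw [List.getD_eq_default _ _ (not_lt.1 hj)]
    exact ⟨le_rfl, le_rfl⟩

theorem toNat_real {a : ℤ} (h : 0 ≤ a) : ((a.toNat : ℕ) : ℝ) = (a : ℝ) := by
  have : ((a.toNat : ℕ) : ℤ) = a := Int.toNat_of_nonneg h
  exact_mod_cast congrArg (Int.cast : ℤ → ℝ) this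

theorem fams_len : Fams.length = 16 := rfl

theorem rec_T1 {N : ℕ} (hN : 0 < N) {t u : Tri} {kind idx P Q : ℕ}
    (h : recOK N t u kind idx P Q = true) : T1 (pv N t u) := by
  have hN' : (N : ℝ) ≠ 0 := by exact_mod_cast hN.ne'
  by_cases h0 : kind = 0
  · subst h0
    left
    refine ⟨(P : ℝ) / (720 * N), (Q : ℝ) / (720 * N), (rec_match hN h _ ?_).2⟩
    intro j
    unfold cand
    rw [if_pos rfl]
    fin_cases j
    · simp
    · simp
      field_simp
      ring
    · simp
      ring
    · simp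
    · simp
      field_simp
      ring
    · simp
      ring
  by_cases h1 : kind ≤ 16
  · right; left
    have hlt : kind - 1 < Fams.length := by rw [fams_len]; omega
    have hf : Fams.getD (kind - 1) [] ∈ Fams := by
      rw [List.getD_eq_getElem _ _ hlt]
      exact List.getElem_mem hlt
    refine ⟨Fams.getD (kind - 1) [], hf, (P : ℝ) / (720 * N), (rec_match hN h _ ?_).2⟩
    intro j
    unfold cand famv
    rw [if_neg h0, if_pos h1]
    have h2 : (List.map (fun x : ℤ × ℤ => x.1.toNat * P + x.2.toNat * (12 * N))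
        (Fams.getD (kind - 1) [])).getD j.val 0 =
        ((Fams.getD (kind - 1) []).getD j.val (0, 0)).1.toNat * P +
          ((Fams.getD (kind - 1) []).getD j.val (0, 0)).2.toNat * (12 * N) := by
      have := List.getD_map (l := Fams.getD (kind - 1) []) (d := ((0 : ℤ), (0 : ℤ)))
        (n := j.val) (f := fun x : ℤ × ℤ => x.1.toNat * P + x.2.toNat * (12 * N))
      simpa using this
    rw [h2]
    obtain ⟨n1, n2⟩ := fam_nonneg hf j.val
    push_cast
    rw [toNat_real n1, toNat_real n2]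
    field_simp
    ring
  · right; right
    have hk := (rec_match hN h (fun j => (((cand N kind P Q).getD j.val 0 : ℕ) : ℝ) / (720 * N))
      (fun _ => rfl)).1
    unfold kindOK at hk
    simp only [Bool.or_eq_true, Bool.and_eq_true, decide_eq_true_eq] at hk
    rcases hk with hk | ⟨⟨hk1, hk2⟩, hk3⟩
    · exact absurd hk h1
    set s := Spor.getD (kind - 17) (1, []) with hs
    have hsm : s ∈ Spor := by
      rw [hs, List.getD_eq_getElem _ _ hk1]
      exact List.getElem_mem hk1
    refine ⟨s, hsm, (P : ℤ), Nat.isCoprime_iff_coprime.2 hk3, (rec_match hN h _ ?_).2⟩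
    have hs0 : s.1 ≠ 0 := by
      intro h0
      rw [h0, Nat.mod_zero] at hk2
      omega
    obtain ⟨c, hc⟩ := Nat.dvd_of_mod_eq_zero hk2
    have hc' : 720 * N / s.1 = c := by
      rw [hc]
      exact Nat.mul_div_cancel_left c (Nat.pos_of_ne_zero hs0)
    intro j
    unfold cand spv
    rw [if_neg h0, if_neg h1, ← hs, hc']
    have h2 : (List.map (fun x : ℕ => P * x * c) s.2).getD j.val 0 = P * s.2.getD j.val 0 * c := by
      have := List.getD_map (l := s.2) (d := (0 : ℕ)) (n := j.val) (f := fun x : ℕ => P * x * c)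
      simpa using this
    rw [h2]
    have hs1 : (s.1 : ℝ) ≠ 0 := by exact_mod_cast hs0
    have hc1 : (720 : ℝ) * N = s.1 * c := by exact_mod_cast hc
    have hc0 : (c : ℝ) ≠ 0 := by
      rintro h
      rw [h, mul_zero] at hc1
      have : (N : ℝ) = 0 := by linarith
      exact hN' this
    rw [hc1]
    push_cast
    field_simp

theorem common_CommR {N : ℕ} {t u : Tri} (h : common t u = true) : CommR (pv N t u) := by
  unfold common at h
  simp only [Bool.or_eq_true] at h
  have key : ∀ (i j : Fin 6), i.val < 3 → 3 ≤ j.val → pv N t u i = pv N t u j → CommR (pv N t u) :=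
    fun i j hi hj he => ⟨i, j, hi, hj, 0, Or.inl (by rw [he]; simp)⟩
  rcases h with (((((((h | h) | h) | h) | h) | h) | h) | h) | h
  · exact key 0 3 (by decide) (by decide) (by
      show (t.1 : ℝ) / N = (u.1 : ℝ) / N
      rw [Nat.eq_of_beq_eq_true h])
  · exact key 0 4 (by decide) (by decide) (by
      show (t.1 : ℝ) / N = (u.2.1 : ℝ) / N
      rw [Nat.eq_of_beq_eq_true h])
  · exact key 0 5 (by decide) (by decide) (by
      show (t.1 : ℝ) / N = (u.2.2 : ℝ) / N
      rw [Nat.eq_of_beq_eq_true h])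
  · exact key 1 3 (by decide) (by decide) (by
      show (t.2.1 : ℝ) / N = (u.1 : ℝ) / N
      rw [Nat.eq_of_beq_eq_true h])
  · exact key 1 4 (by decide) (by decide) (by
      show (t.2.1 : ℝ) / N = (u.2.1 : ℝ) / N
      rw [Nat.eq_of_beq_eq_true h])
  · exact key 1 5 (by decide) (by decide) (by
      show (t.2.1 : ℝ) / N = (u.2.2 : ℝ) / N
      rw [Nat.eq_of_beq_eq_true h])
  · exact key 2 3 (by decide) (by decide) (by
      show (t.2.2 : ℝ) / N = (u.1 : ℝ) / N
      rw [Nat.eq_of_beq_eq_true h])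
  · exact key 2 4 (by decide) (by decide) (by
      show (t.2.2 : ℝ) / N = (u.2.1 : ℝ) / N
      rw [Nat.eq_of_beq_eq_true h])
  · exact key 2 5 (by decide) (by decide) (by
      show (t.2.2 : ℝ) / N = (u.2.2 : ℝ) / N
      rw [Nat.eq_of_beq_eq_true h])

end FPRx

open FPRx

theorem fpr : StmtFPR := by
  intro N M2 Lp2 gs s hN hall x hx t ht u hu htu hkey
  have h1 := all_good N M2 Lp2 gs s hall x hx
  have h2 : x.2.Pairwise fun t u => Good N M2 Lp2 t u ∨ Good N M2 Lp2 u t :=
    h1.imp (fun h => Or.inl h)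
  have hsym : Std.Symm fun t u => Good N M2 Lp2 t u ∨ Good N M2 Lp2 u t :=
    ⟨fun _ _ h => h.symm⟩
  have res : ∀ t u : Tri, key M2 Lp2 t = key M2 Lp2 u → Good N M2 Lp2 t u → Res (pv N t u) := by
    intro t u hk h
    rcases h with h | h | ⟨kind, idx, P, Q, h⟩
    · exact Or.inl (common_CommR h)
    · exact absurd hk h
    · exact Or.inr (rec_T1 hN h)
  rcases h2.forall ht hu htu with h | h
  · exact Or.inl (res t u hkey h)
  · exact Or.inr (res u t hkey.symm h)

end FC

end Pool.Agent.T6.H31.TC
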