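import Pool.Agent.T6.H31.TC.FinSplit
import Pool.Agent.T6.H31.TC.FinK126B

set_option autoImplicit false
set_option maxRecDepth 1000000
set_option linter.all false

/-! Finite level 126 (computer generated data, kernel checks). -/

namespace Pool.Agent.T6.H31.TC.FC.K126

theorem cntA : (decide (0 < 18) && decide (6 * nT vals.length < 2 ^ 18) && decide (3200148 ≤ 2 ^ 22) &&
      vmOK 0xfffffffffffffffe vals) = true := by decide +kernel
theorem cntL : vals.all (fun v => decide (lk Lp v < 3200148)) = true := by decide +kernel
theorem cntF : (let F := fold (18 * 3200148) (fold (18 * 3200148) (h3gen 18 22 (vals.map (lk Lp))))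
      let R := build 18 22 ((gdec 3200148 Lp cs).map (fun x => (x.1, x.2.length - 1)))
      decide (R ≤ F) && decide ((F - R) &&& mask 18 3200148 = 0)) = true := by decide +kernel
theorem tab1 : tabOK 126 3200149 2 103161 [2, 3, 7, 17, 83] [2, 3, 7] vals Lp = true := by decide +kernel
theorem tab2 : tabOK 126 6399793 5 4494910 [2, 3, 7, 907] [2, 3, 7] vals Lp2 = true := by decide +kernel

end Pool.Agent.T6.H31.TC.FC.K126
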