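import Pool.Agent.T6.H31.TC.FinSplit2
import Pool.Agent.T6.H31.TC.FinK126P0
import Pool.Agent.T6.H31.TC.FinK126C
set_option autoImplicit false
set_option maxRecDepth 1000000
set_option linter.all false

/-! Finite level 126 (computer generated data, kernel checks). -/

namespace Pool.Agent.T6.H31.TC.FC.K126

theorem grps : grpsOK 3200148 0xfffffffffffffffe Lp 0 (gdec 3200148 Lp cs) = true := by
  unfold cs
  refine grps_step g0 ?_
  refine grps_step g1 ?_
  refine grps_step g2 ?_
  refine grps_step g3 ?_
  refine grps_step g4 ?_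
  refine grps_step g5 ?_
  refine grps_step g6 ?_
  refine grps_step g7 ?_
  refine grps_step g8 ?_
  refine grps_step g9 ?_
  refine grps_step g10 ?_
  refine grps_step g11 ?_
  refine grps_step g12 ?_
  refine grps_step g13 ?_
  refine grps_step g14 ?_
  refine grps_step g15 ?_
  refine grps_step g16 ?_
  refine grps_step g17 ?_
  rfl
theorem prs : PrOK 126 6399792 Lp2 (gdec 3200148 Lp cs) := by
  unfold cs
  refine pr_step (by norm_num) _ p0 ?_
  refine pr_step (by norm_num) _ p1 ?_
  refine pr_step (by norm_num) _ p2 ?_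
  refine pr_step (by norm_num) _ p3 ?_
  refine pr_step (by norm_num) _ p4 ?_
  refine pr_step (by norm_num) _ p5 ?_
  refine pr_step (by norm_num) _ p6 ?_
  refine pr_step (by norm_num) _ p7 ?_
  refine pr_step (by norm_num) _ p8 ?_
  refine pr_step (by norm_num) _ p9 ?_
  refine pr_step (by norm_num) _ p10 ?_
  refine pr_step (by norm_num) _ p11 ?_
  refine pr_step (by norm_num) _ p12 ?_
  refine pr_step (by norm_num) _ p13 ?_
  refine pr_step (by norm_num) _ p14 ?_
  refine pr_step (by norm_num) _ p15 ?_
  refine pr_step (by norm_num) _ p16 ?_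
  refine pr_step (by norm_num) _ p17 ?_
  exact pr_nil _ _ _ _ _
theorem lprime : Nat.Prime 3200149 := by norm_num
theorem l2prime : Nat.Prime 6399793 := by norm_num
theorem cnt : cntOK 18 22 3200148 0xfffffffffffffffe vals Lp (gdec 3200148 Lp cs) = true := cnt_of cntA grps cntL cntF
theorem fin : FINv 126 vals :=
  fall3 126 3200149 2 103161 6399793 5 4494910 18 22 0xfffffffffffffffe Lp Lp2 3200148 6399792 [2, 3, 7, 17, 83] [2, 3, 7] [2, 3, 7, 907] [2, 3, 7] vals (gdec 3200148 Lp cs)
    (by norm_num) (by norm_num) (by norm_num)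
    lprime l2prime (by intro q hq; fin_cases hq <;> norm_num) (by intro q hq; fin_cases hq <;> norm_num)
    (by intro q hq; fin_cases hq <;> norm_num) (by intro q hq; fin_cases hq <;> norm_num)
    (by decide +kernel) (by decide +kernel) tab1 tab2 cnt prs
theorem st : FINst 126 := fst fin

end Pool.Agent.T6.H31.TC.FC.K126
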