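import Pool.Agent.T6.H31.TC.FinSplit
import Pool.Agent.T6.H31.TC.FinK132B

set_option autoImplicit false
set_option maxRecDepth 1000000
set_option linter.all false

/-! Finite level 132 (computer generated data, kernel checks). -/

namespace Pool.Agent.T6.H31.TC.FC.K132

theorem cntA : (decide (0 < 19) && decide (6 * nT vals.length < 2 ^ 19) && decide (4001712 ≤ 2 ^ 22) &&
      vmOK 0x7fffffffffffffffe vals) = true := by decide +kernel
theorem cntL : vals.all (fun v => decide (lk Lp v < 4001712)) = true := by decide +kernel
theorem cntF : (let F := fold (19 * 4001712) (fold (19 * 4001712) (h3gen 19 22 (vals.map (lk Lp))))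
      let R := build 19 22 ((gdec 4001712 Lp cs).map (fun x => (x.1, x.2.length - 1)))
      decide (R ≤ F) && decide ((F - R) &&& mask 19 4001712 = 0)) = true := by decide +kernel
theorem tab1 : tabOK 132 4001713 10 195864 [2, 3, 11, 13, 53] [2, 3, 11] vals Lp = true := by decide +kernel
theorem tab2 : tabOK 132 7999993 10 1280178 [2, 3, 7, 11, 13, 37] [2, 3, 11] vals Lp2 = true := by decide +kernel

end Pool.Agent.T6.H31.TC.FC.K132
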