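import Pool.Agent.T6.H31.TC.FinSplit
import Pool.Agent.T6.H31.TC.FinK168B

set_option autoImplicit false
set_option maxRecDepth 1000000
set_option linter.all false

/-! Finite level 168 (computer generated data, kernel checks). -/

namespace Pool.Agent.T6.H31.TC.FC.K168

theorem cntA : (decide (0 < 20) && decide (6 * nT vals.length < 2 ^ 20) && decide (6000960 ≤ 2 ^ 23) &&
      vmOK 0x1ffffffffffffffffffffe vals) = true := by decide +kernel
theorem cntL : vals.all (fun v => decide (lk Lp v < 6000960)) = true := by decide +kernel
theorem cntF : (let F := fold (20 * 6000960) (fold (20 * 6000960) (h3gen 20 23 (vals.map (lk Lp))))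
      let R := build 20 23 ((gdec 6000960 Lp cs).map (fun x => (x.1, x.2.length - 1)))
      decide (R ≤ F) && decide ((F - R) &&& mask 20 6000960 = 0)) = true := by decide +kernel
theorem tab1 : tabOK 168 6000961 17 1951518 [2, 3, 5, 7, 19, 47] [2, 3, 7] vals Lp = true := by decide +kernel
theorem tab2 : tabOK 168 12001921 11 1011842 [2, 3, 5, 7, 19, 47] [2, 3, 7] vals Lp2 = true := by decide +kernel

end Pool.Agent.T6.H31.TC.FC.K168
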