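import Pool.Agent.T6.H31.TC.FinSplit
import Pool.Agent.T6.H31.TC.FinK210B

set_option autoImplicit false
set_option maxRecDepth 1000000
set_option linter.all false

/-! Finite level 210 (computer generated data, kernel checks). -/

namespace Pool.Agent.T6.H31.TC.FC.K210

theorem cntA : (decide (0 < 21) && decide (6 * nT vals.length < 2 ^ 21) && decide (6500760 ≤ 2 ^ 23) &&
      vmOK 0x3fffffffffffffffffffffffffe vals) = true := by decide +kernel
theorem cntL : vals.all (fun v => decide (lk Lp v < 6500760)) = true := by decide +kernel
theorem cntF : (let F := fold (21 * 6500760) (fold (21 * 6500760) (h3gen 21 23 (vals.map (lk Lp))))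
      let R := build 21 23 ((gdec 6500760 Lp cs).map (fun x => (x.1, x.2.length - 1)))
      decide (R ≤ F) && decide ((F - R) &&& mask 21 6500760 = 0)) = true := by decide +kernel
theorem tab1 : tabOK 210 6500761 13 5047854 [2, 3, 5, 7, 71, 109] [2, 3, 5, 7] vals Lp = true := by decide +kernel
theorem tab2 : tabOK 210 13000261 2 4083512 [2, 3, 5, 7, 13, 2381] [2, 3, 5, 7] vals Lp2 = true := by decide +kernel

end Pool.Agent.T6.H31.TC.FC.K210
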