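import Pool.Agent.T6.H31.TC.FinSplit2
import Pool.Agent.T6.H31.TC.FinK210P0
import Pool.Agent.T6.H31.TC.FinK210P1
import Pool.Agent.T6.H31.TC.FinK210P2
import Pool.Agent.T6.H31.TC.FinK210P3
import Pool.Agent.T6.H31.TC.FinK210C
set_option autoImplicit false
set_option maxRecDepth 1000000
set_option linter.all false

/-! Finite level 210 (computer generated data, kernel checks). -/

namespace Pool.Agent.T6.H31.TC.FC.K210

theorem grps : grpsOK 6500760 0x3fffffffffffffffffffffffffe Lp 0 (gdec 6500760 Lp cs) = true := by
  unfold cs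
  refine grps_step g0 ?_
  refine grps_step g1 ?_
  refine grps_step g2 ?_
  refine grps_step g3 ?_
  refine grps_step g4 ?_
  refine grps_step g5 ?_
  refine grps_step g6 ?_
  refine grps_step g7 ?_
  refine grps_step g8 ?_
  refine grps_step g9 ?_
  refine grps_step g10 ?_
  refine grps_step g11 ?_
  refine grps_step g12 ?_
  refine grps_step g13 ?_
  refine grps_step g14 ?_
  refine grps_step g15 ?_
  refine grps_step g16 ?_
  refine grps_step g17 ?_
  refine grps_step g18 ?_
  refine grps_step g19 ?_
  refine grps_step g20 ?_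
  refine grps_step g21 ?_
  refine grps_step g22 ?_
  refine grps_step g23 ?_
  refine grps_step g24 ?_
  refine grps_step g25 ?_
  refine grps_step g26 ?_
  refine grps_step g27 ?_
  refine grps_step g28 ?_
  refine grps_step g29 ?_
  refine grps_step g30 ?_
  refine grps_step g31 ?_
  refine grps_step g32 ?_
  refine grps_step g33 ?_
  refine grps_step g34 ?_
  refine grps_step g35 ?_
  refine grps_step g36 ?_
  refine grps_step g37 ?_
  refine grps_step g38 ?_
  refine grps_step g39 ?_
  refine grps_step g40 ?_
  refine grps_step g41 ?_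
  refine grps_step g42 ?_
  refine grps_step g43 ?_
  refine grps_step g44 ?_
  refine grps_step g45 ?_
  refine grps_step g46 ?_
  refine grps_step g47 ?_
  refine grps_step g48 ?_
  refine grps_step g49 ?_
  refine grps_step g50 ?_
  refine grps_step g51 ?_
  refine grps_step g52 ?_
  refine grps_step g53 ?_
  refine grps_step g54 ?_
  refine grps_step g55 ?_
  refine grps_step g56 ?_
  refine grps_step g57 ?_
  refine grps_step g58 ?_
  refine grps_step g59 ?_
  refine grps_step g60 ?_
  refine grps_step g61 ?_
  refine grps_step g62 ?_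
  refine grps_step g63 ?_
  refine grps_step g64 ?_
  refine grps_step g65 ?_
  refine grps_step g66 ?_
  refine grps_step g67 ?_
  refine grps_step g68 ?_
  refine grps_step g69 ?_
  rfl
theorem prs : PrOK 210 13000260 Lp2 (gdec 6500760 Lp cs) := by
  unfold cs
  refine pr_step (by norm_num) _ p0 ?_
  refine pr_step (by norm_num) _ p1 ?_
  refine pr_step (by norm_num) _ p2 ?_
  refine pr_step (by norm_num) _ p3 ?_
  refine pr_step (by norm_num) _ p4 ?_
  refine pr_step (by norm_num) _ p5 ?_
  refine pr_step (by norm_num) _ p6 ?_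
  refine pr_step (by norm_num) _ p7 ?_
  refine pr_step (by norm_num) _ p8 ?_
  refine pr_step (by norm_num) _ p9 ?_
  refine pr_step (by norm_num) _ p10 ?_
  refine pr_step (by norm_num) _ p11 ?_
  refine pr_step (by norm_num) _ p12 ?_
  refine pr_step (by norm_num) _ p13 ?_
  refine pr_step (by norm_num) _ p14 ?_
  refine pr_step (by norm_num) _ p15 ?_
  refine pr_step (by norm_num) _ p16 ?_
  refine pr_step (by norm_num) _ p17 ?_
  refine pr_step (by norm_num) _ p18 ?_
  refine pr_step (by norm_num) _ p19 ?_
  refine pr_step (by norm_num) _ p20 ?_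
  refine pr_step (by norm_num) _ p21 ?_
  refine pr_step (by norm_num) _ p22 ?_
  refine pr_step (by norm_num) _ p23 ?_
  refine pr_step (by norm_num) _ p24 ?_
  refine pr_step (by norm_num) _ p25 ?_
  refine pr_step (by norm_num) _ p26 ?_
  refine pr_step (by norm_num) _ p27 ?_
  refine pr_step (by norm_num) _ p28 ?_
  refine pr_step (by norm_num) _ p29 ?_
  refine pr_step (by norm_num) _ p30 ?_
  refine pr_step (by norm_num) _ p31 ?_
  refine pr_step (by norm_num) _ p32 ?_
  refine pr_step (by norm_num) _ p33 ?_
  refine pr_step (by norm_num) _ p34 ?_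
  refine pr_step (by norm_num) _ p35 ?_
  refine pr_step (by norm_num) _ p36 ?_
  refine pr_step (by norm_num) _ p37 ?_
  refine pr_step (by norm_num) _ p38 ?_
  refine pr_step (by norm_num) _ p39 ?_
  refine pr_step (by norm_num) _ p40 ?_
  refine pr_step (by norm_num) _ p41 ?_
  refine pr_step (by norm_num) _ p42 ?_
  refine pr_step (by norm_num) _ p43 ?_
  refine pr_step (by norm_num) _ p44 ?_
  refine pr_step (by norm_num) _ p45 ?_
  refine pr_step (by norm_num) _ p46 ?_
  refine pr_step (by norm_num) _ p47 ?_
  refine pr_step (by norm_num) _ p48 ?_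
  refine pr_step (by norm_num) _ p49 ?_
  refine pr_step (by norm_num) _ p50 ?_
  refine pr_step (by norm_num) _ p51 ?_
  refine pr_step (by norm_num) _ p52 ?_
  refine pr_step (by norm_num) _ p53 ?_
  refine pr_step (by norm_num) _ p54 ?_
  refine pr_step (by norm_num) _ p55 ?_
  refine pr_step (by norm_num) _ p56 ?_
  refine pr_step (by norm_num) _ p57 ?_
  refine pr_step (by norm_num) _ p58 ?_
  refine pr_step (by norm_num) _ p59 ?_
  refine pr_step (by norm_num) _ p60 ?_
  refine pr_step (by norm_num) _ p61 ?_
  refine pr_step (by norm_num) _ p62 ?_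
  refine pr_step (by norm_num) _ p63 ?_
  refine pr_step (by norm_num) _ p64 ?_
  refine pr_step (by norm_num) _ p65 ?_
  refine pr_step (by norm_num) _ p66 ?_
  refine pr_step (by norm_num) _ p67 ?_
  refine pr_step (by norm_num) _ p68 ?_
  refine pr_step (by norm_num) _ p69 ?_
  exact pr_nil _ _ _ _ _
theorem lprime : Nat.Prime 6500761 := by norm_num
theorem l2prime : Nat.Prime 13000261 := by norm_num
theorem cnt : cntOK 21 23 6500760 0x3fffffffffffffffffffffffffe vals Lp (gdec 6500760 Lp cs) = true := cnt_of cntA grps cntL cntF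
theorem fin : FINv 210 vals :=
  fall3 210 6500761 13 5047854 13000261 2 4083512 21 23 0x3fffffffffffffffffffffffffe Lp Lp2 6500760 13000260 [2, 3, 5, 7, 71, 109] [2, 3, 5, 7] [2, 3, 5, 7, 13, 2381] [2, 3, 5, 7] vals (gdec 6500760 Lp cs)
    (by norm_num) (by norm_num) (by norm_num)
    lprime l2prime (by intro q hq; fin_cases hq <;> norm_num) (by intro q hq; fin_cases hq <;> norm_num)
    (by intro q hq; fin_cases hq <;> norm_num) (by intro q hq; fin_cases hq <;> norm_num)
    (by decide +kernel) (by decide +kernel) tab1 tab2 cnt prs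
theorem st : FINst 210 := fst fin

end Pool.Agent.T6.H31.TC.FC.K210
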