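import Pool.Agent.T6.H31.TC.FinSplit
import Pool.Agent.T6.H31.TC.FinK420mB

set_option autoImplicit false
set_option maxRecDepth 1000000
set_option linter.all false

/-! Finite level 420 (computer generated data, kernel checks). -/

namespace Pool.Agent.T6.H31.TC.FC.K420m

theorem cntA : (decide (0 < 17) && decide (6 * nT vals.length < 2 ^ 17) && decide (2001720 ≤ 2 ^ 21) &&
      vmOK 0x409106050850304481024418142140c1120409106050850304480 vals) = true := by decide +kernel
theorem cntL : vals.all (fun v => decide (lk Lp v < 2001720)) = true := by decide +kernel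
theorem cntF : (let F := fold (17 * 2001720) (fold (17 * 2001720) (h3gen 17 21 (vals.map (lk Lp))))
      let R := build 17 21 ((gdec 2001720 Lp cs).map (fun x => (x.1, x.2.length - 1)))
      decide (R ≤ F) && decide ((F - R) &&& mask 17 2001720 = 0)) = true := by decide +kernel
theorem tab1 : tabOK 420 2001721 19 763312 [2, 3, 5, 7, 2383] [2, 3, 5, 7] vals Lp = true := by decide +kernel
theorem tab2 : tabOK 420 4000081 11 684455 [2, 3, 5, 7, 2381] [2, 3, 5, 7] vals Lp2 = true := by decide +kernel

end Pool.Agent.T6.H31.TC.FC.K420m
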