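import Pool.Agent.T6.H31.TC.FinSplit2
import Pool.Agent.T6.H31.TC.FinK420mP0
import Pool.Agent.T6.H31.TC.FinK420mC
set_option autoImplicit false
set_option maxRecDepth 1000000
set_option linter.all false

/-! Finite level 420 (computer generated data, kernel checks). -/

namespace Pool.Agent.T6.H31.TC.FC.K420m

theorem grps : grpsOK 2001720 0x409106050850304481024418142140c1120409106050850304480 Lp 0 (gdec 2001720 Lp cs) = true := by
  unfold cs
  refine grps_step g0 ?_
  refine grps_step g1 ?_
  refine grps_step g2 ?_
  refine grps_step g3 ?_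
  refine grps_step g4 ?_
  refine grps_step g5 ?_
  refine grps_step g6 ?_
  refine grps_step g7 ?_
  refine grps_step g8 ?_
  refine grps_step g9 ?_
  refine grps_step g10 ?_
  refine grps_step g11 ?_
  refine grps_step g12 ?_
  rfl
theorem prs : PrOK 420 4000080 Lp2 (gdec 2001720 Lp cs) := by
  unfold cs
  refine pr_step (by norm_num) _ p0 ?_
  refine pr_step (by norm_num) _ p1 ?_
  refine pr_step (by norm_num) _ p2 ?_
  refine pr_step (by norm_num) _ p3 ?_
  refine pr_step (by norm_num) _ p4 ?_
  refine pr_step (by norm_num) _ p5 ?_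
  refine pr_step (by norm_num) _ p6 ?_
  refine pr_step (by norm_num) _ p7 ?_
  refine pr_step (by norm_num) _ p8 ?_
  refine pr_step (by norm_num) _ p9 ?_
  refine pr_step (by norm_num) _ p10 ?_
  refine pr_step (by norm_num) _ p11 ?_
  refine pr_step (by norm_num) _ p12 ?_
  exact pr_nil _ _ _ _ _
theorem lprime : Nat.Prime 2001721 := by norm_num
theorem l2prime : Nat.Prime 4000081 := by norm_num
theorem cnt : cntOK 17 21 2001720 0x409106050850304481024418142140c1120409106050850304480 vals Lp (gdec 2001720 Lp cs) = true := cnt_of cntA grps cntL cntF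
theorem fin : FINv 420 vals :=
  fall3 420 2001721 19 763312 4000081 11 684455 17 21 0x409106050850304481024418142140c1120409106050850304480 Lp Lp2 2001720 4000080 [2, 3, 5, 7, 2383] [2, 3, 5, 7] [2, 3, 5, 7, 2381] [2, 3, 5, 7] vals (gdec 2001720 Lp cs)
    (by norm_num) (by norm_num) (by norm_num)
    lprime l2prime (by intro q hq; fin_cases hq <;> norm_num) (by intro q hq; fin_cases hq <;> norm_num)
    (by intro q hq; fin_cases hq <;> norm_num) (by intro q hq; fin_cases hq <;> norm_num)
    (by decide +kernel) (by decide +kernel) tab1 tab2 cnt prs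
theorem st : FINmix := fmixv fin

end Pool.Agent.T6.H31.TC.FC.K420m
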