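import Pool.Agent.T6.H31.TC.FinSplit
import Pool.Agent.T6.H31.TC.FinK48B

set_option autoImplicit false
set_option maxRecDepth 1000000
set_option linter.all false

/-! Finite level 48 (computer generated data, kernel checks). -/

namespace Pool.Agent.T6.H31.TC.FC.K48

theorem cntA : (decide (0 < 14) && decide (6 * nT vals.length < 2 ^ 14) && decide (70176 ≤ 2 ^ 17) &&
      vmOK 0x1fffffe vals) = true := by decide +kernel
theorem cntL : vals.all (fun v => decide (lk Lp v < 70176)) = true := by decide +kernel
theorem cntF : (let F := fold (14 * 70176) (fold (14 * 70176) (h3gen 14 17 (vals.map (lk Lp))))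
      let R := build 14 17 ((gdec 70176 Lp cs).map (fun x => (x.1, x.2.length - 1)))
      decide (R ≤ F) && decide ((F - R) &&& mask 14 70176 = 0)) = true := by decide +kernel
theorem tab1 : tabOK 48 70177 5 68957 [2, 3, 17, 43] [2, 3] vals Lp = true := by decide +kernel
theorem tab2 : tabOK 48 1000033 5 995866 [2, 3, 11, 947] [2, 3] vals Lp2 = true := by decide +kernel

end Pool.Agent.T6.H31.TC.FC.K48
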