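import Pool.Agent.T6.H31.TC.FinSplit
import Pool.Agent.T6.H31.TC.FinK48B

set_option autoImplicit false
set_option maxRecDepth 1000000
set_option linter.all false

/-! Finite level 48 (computer generated data, kernel checks). -/

namespace Pool.Agent.T6.H31.TC.FC.K48

theorem g0 : grpsR 70176 0x1fffffe Lp 0 32239 (gch 70176 Lp c0) = true := by decide +kernel
theorem p0 : allPr 48 1000032 Lp2 (gch 70176 Lp c0) (recs 50 (dig 400 0x2a30400a0000000002d0340d001ef0000e100400000000006db02a0c0013b00010e007000000000068102e0c000000008160370d0000000078f00d0a000000005460270d0000000010e0020c0013b00008700a00000000001ef0460c000000000e10310d0010e00002d00a00000000008430280800000000843028040000000002d0280a0019500010e00100001c200010e001000008700002d00a000000000013b0360d0000000019503c090000000019500a050010e0000b4007000000000008702a090019500008700a000000000008702b05001c200008700a00000000001950010a0010e00005a00a000000000078f00b0d0000000084303a0d000b40000870070000000000816028080000000081602504000000008430260b0000000010e0360d0008700005a007000021c00010e000000013b00002d00a00000000007350040d000000000870310c001ef00010e001000010e0000e100700000000008430370c0019500013b00100000000000870080e0000000010e02a0a0000000008702a0f000000006810010d)) = true := by decide +kernel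
theorem g1 : grpsR 70176 0x1fffffe Lp 32239 56648 (gch 70176 Lp c1) = true := by decide +kernel
theorem p1 : allPr 48 1000032 Lp2 (gch 70176 Lp c1) (recs 54 (dig 432 0x13b02a09000000000e102a090013b0000e100700001c20000b4004000000000013b00105000000000e100105000000007e902c0a000000000870340d0019500005a00a000000000078f0040c000000001c203c090000000005a02a09001c200005a00a00000000007e902408000000007e9025040021c00002d00400000000001ef04009000000001ef03d05000b400005a007000000000002d02e090000000002d02b05001ef00002d00a000021c00019500000000e100002d00a000000000013b02a0a001ef00019500000000000001950460c0021c0001c200000001950000e100700001ef0001c200000000000007e90090d001c20000e100100000000007e900b0c0000000010e02a090021c0000b4004000000000010e00105000000001ef00a0a001ef0000b400400000000007350240800000000735000040000000002d0340c0000000024903d0a000e10000b4007000021c00005a00400000000006db0040d001ef00005a004000010e00008700700000e100005a00a00000000007350100a000000000e10240a0000000081602d0a000000008430080e0021c0001ef000000021c0000e100400)) = true := by decide +kernel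
theorem g2 : grpsR 70176 0x1fffffe Lp 56648 69802 (gch 70176 Lp c2) = true := by decide +kernel
theorem p2 : allPr 48 1000032 Lp2 (gch 70176 Lp c2) (recs 39 (dig 312 0x21c00008700400001c200013b00000000000007350010c000000000e10080c000000007620040d0000000013b0400f000000002760400a001ef000087004000000000057303a0e000000005190270d000e1000087007000000000005a0280a0000000002d0250f0000000002d0020e0013b0000b400700000000007620010c0000000084302f0a000000005730290d000000000870250a000000007e90280e000000007620100a000000007e900a0f0019500002d00a000013b00005a00a00001c200002d00a00000000005190370e000000001c20010a001c200019500000000b400002d00a000021c00013b000000000000013b0090c0000000078f024080000000078f00604000000007e90240b0000000076202408001950000b400a0000000000762006040005a00002d00700001ef00013b00000)) = true := by decide +kernel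

end Pool.Agent.T6.H31.TC.FC.K48
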