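import Pool.Agent.T6.H31.TC.FinSplit2
import Pool.Agent.T6.H31.TC.FinK48P0
import Pool.Agent.T6.H31.TC.FinK48C
set_option autoImplicit false
set_option maxRecDepth 1000000
set_option linter.all false

/-! Finite level 48 (computer generated data, kernel checks). -/

namespace Pool.Agent.T6.H31.TC.FC.K48

theorem grps : grpsOK 70176 0x1fffffe Lp 0 (gdec 70176 Lp cs) = true := by
  unfold cs
  refine grps_step g0 ?_
  refine grps_step g1 ?_
  refine grps_step g2 ?_
  rfl
theorem prs : PrOK 48 1000032 Lp2 (gdec 70176 Lp cs) := by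
  unfold cs
  refine pr_step (by norm_num) _ p0 ?_
  refine pr_step (by norm_num) _ p1 ?_
  refine pr_step (by norm_num) _ p2 ?_
  exact pr_nil _ _ _ _ _
theorem lprime : Nat.Prime 70177 := by norm_num
theorem l2prime : Nat.Prime 1000033 := by norm_num
theorem cnt : cntOK 14 17 70176 0x1fffffe vals Lp (gdec 70176 Lp cs) = true := cnt_of cntA grps cntL cntF
theorem fin : FINv 48 vals :=
  fall3 48 70177 5 68957 1000033 5 995866 14 17 0x1fffffe Lp Lp2 70176 1000032 [2, 3, 17, 43] [2, 3] [2, 3, 11, 947] [2, 3] vals (gdec 70176 Lp cs)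
    (by norm_num) (by norm_num) (by norm_num)
    lprime l2prime (by intro q hq; fin_cases hq <;> norm_num) (by intro q hq; fin_cases hq <;> norm_num)
    (by intro q hq; fin_cases hq <;> norm_num) (by intro q hq; fin_cases hq <;> norm_num)
    (by decide +kernel) (by decide +kernel) tab1 tab2 cnt prs
theorem st : FINst 48 := fst fin

end Pool.Agent.T6.H31.TC.FC.K48
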