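import Pool.Agent.T6.H31.TC.FinRun

set_option autoImplicit false
set_option maxRecDepth 1000000
set_option linter.all false

/-! Finite level 50 (computer generated data, kernel checks). -/

namespace Pool.Agent.T6.H31.TC.FC.K50

def vals : List ℕ := (List.range (50 / 2)).map (· + 1)
def Lp : ℕ := 0x11a360000b0e40000245b00007efb00014c5b000119190000c3600000351d000034c30000328c000151ac00005f920000286b0000e05d0000774d00001f5100005a75000055ad00008259000074e10000bdac0000c0c600004dca0000f44f00009b4f00000000
def Lp2 : ℕ := 0xc417e000d60ea0008cb85000946f70008621f00092bc70009ccb900091e2a0003275e000f32c70004bf7200079d7f0003b374000d7f6400057b6600083e43000d05090000959f00025143000784990002e46a000b4d2600020f900006538f000c0c4b00000000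
def c0 : ℕ × ℕ × ℕ := (103, 721, 0xd0c0818150402160a0512100202160907190c0402130a06140c0502100904171202020e0b06161603021108041710020219110f170d020219100f0d080402120d0c181009021915110d080502100d0c18110802140504170a02020e0e0b16120702120b07160f05020e0b0816150402120706160e03020d0c0a181405020f06050e0b0302150604160803021812110b0803020b0a07100f02021009070f0e0502120807150e0402120e0b16100902100e0b161108021914110d0a04020f0a02181401020f08051715020210090616120302110806161003020e0b0a161405020f0c0a14130602100e0912120702140605160a0302110e0812100702110908120f0502150706171701020c0c070902020210090815120402100f051511040211080815100402120a07140e0502140904070502020f0a041714020219110c1805040217110619080502130602180c0102140805150a0402140d0c180f0a02191915170d06021010091211080217020218040102100a0914120502110a08141005020f0e080b020102130e0c19030102170a09070505020d0c0218180102110f0619150202130604170c0202140e0b160f0a021919140b0702020d0c0c181306020f0a0616140302160c06110f03020f0e0a1412070217150e0b0501020e0b02181601020d0c04181702020f0a0815140402150a090f0f0702160302180601020e0c0b16130602181616110f0d02130606160c0302120702180e0102120f0a141009020f05020d0c0102100f0a1411080215040218080102120c07130e06020e0b04171602021919050b0904020f0a0a141405020f0c0516130302130806150c040216040317060202160d0c180e0b0210090218120102110802181001020d0c0618160302120704170e0202171412100705020f05041817010215040417080202100c0913120602140502180a0102110c08131006020e0d0c18120702170f0f150505021815130b060602130d06180f0502)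
def cs : List (ℕ × ℕ × ℕ) := [c0]

end Pool.Agent.T6.H31.TC.FC.K50
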