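import Pool.Agent.T6.H31.TC.FinSplit
import Pool.Agent.T6.H31.TC.FinK50B

set_option autoImplicit false
set_option maxRecDepth 1000000
set_option linter.all false

/-! Finite level 50 (computer generated data, kernel checks). -/

namespace Pool.Agent.T6.H31.TC.FC.K50

theorem cntA : (decide (0 < 15) && decide (6 * nT vals.length < 2 ^ 15) && decide (90000 ≤ 2 ^ 17) &&
      vmOK 0x3fffffe vals) = true := by decide +kernel
theorem cntL : vals.all (fun v => decide (lk Lp v < 90000)) = true := by decide +kernel
theorem cntF : (let F := fold (15 * 90000) (fold (15 * 90000) (h3gen 15 17 (vals.map (lk Lp))))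
      let R := build 15 17 ((gdec 90000 Lp cs).map (fun x => (x.1, x.2.length - 1)))
      decide (R ≤ F) && decide ((F - R) &&& mask 15 90000 = 0)) = true := by decide +kernel
theorem tab1 : tabOK 50 90001 13 22017 [2, 3, 5] [2, 5] vals Lp = true := by decide +kernel
theorem tab2 : tabOK 50 1001401 13 787229 [2, 3, 5, 1669] [2, 5] vals Lp2 = true := by decide +kernel

end Pool.Agent.T6.H31.TC.FC.K50
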