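import Pool.Agent.T6.H31.TC.FinSplit
import Pool.Agent.T6.H31.TC.FinK50B

set_option autoImplicit false
set_option maxRecDepth 1000000
set_option linter.all false

/-! Finite level 50 (computer generated data, kernel checks). -/

namespace Pool.Agent.T6.H31.TC.FC.K50

theorem g0 : grpsR 90000 0x3fffffe Lp 0 89718 (gch 90000 Lp c0) = true := by decide +kernel
theorem p0 : allPr 50 1001400 Lp2 (gch 90000 Lp c0) (recs 76 (dig 608 0x21c0000b4004000010e0000e1007000019500005a00a00001ef000087004000016800005a00a000021c000195000000021c00016800000000e100005a00a00001ef00013b000000000000013b00107001ef0000b4004000013b00008700a000021c0000e100400000000001ef03d07000b4000087007000000000019500a070013b0000b400700001ef00019500000001ef00016800000001c200002d00a000000000005a02b070019500008700a000016800008700a00001ef0000e100400001c200010e001000019500013b00100000e1000087007000016800013b007000000000016800107001950000b400a00000000000b402a07001680000b4007000013b0000e100700001c200005a00a000010e00002d00a00000e10000b4007000021c0001c20000000195000168000000005a00002d00700001950000e100700001680000e1007000021c00002d004000010e00005a00a00001ef0001c2000000021c00010e00100001c200008700a00001c200013b00100001ef00002d00a000021c00005a00400001c20000b400a000008700002d00a00001ef00010e001000010e000087007000013b00002d00a00001c2000195000000000000021c04007001c200016800000000b400002d00a000013b00010e00700001ef00005a00a00001c20000e1001000000000008702b070010e0000b4007000008700005a007000021c0001ef000000019500002d00a000016800002d00a000021c000087004000013b00005a00a000000000002d02e07000b400005a007000019500010e00700000e100002d00a000016800010e007000021c00013b000000000000010e00107))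 = true := by decide +kernel

end Pool.Agent.T6.H31.TC.FC.K50
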