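import Pool.Agent.T6.H31.TC.FinSplit2
import Pool.Agent.T6.H31.TC.FinK50P0
import Pool.Agent.T6.H31.TC.FinK50C
set_option autoImplicit false
set_option maxRecDepth 1000000
set_option linter.all false

/-! Finite level 50 (computer generated data, kernel checks). -/

namespace Pool.Agent.T6.H31.TC.FC.K50

theorem grps : grpsOK 90000 0x3fffffe Lp 0 (gdec 90000 Lp cs) = true := by
  unfold cs
  refine grps_step g0 ?_
  rfl
theorem prs : PrOK 50 1001400 Lp2 (gdec 90000 Lp cs) := by
  unfold cs
  refine pr_step (by norm_num) _ p0 ?_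
  exact pr_nil _ _ _ _ _
theorem lprime : Nat.Prime 90001 := by norm_num
theorem l2prime : Nat.Prime 1001401 := by norm_num
theorem cnt : cntOK 15 17 90000 0x3fffffe vals Lp (gdec 90000 Lp cs) = true := cnt_of cntA grps cntL cntF
theorem fin : FINv 50 vals :=
  fall3 50 90001 13 22017 1001401 13 787229 15 17 0x3fffffe Lp Lp2 90000 1001400 [2, 3, 5] [2, 5] [2, 3, 5, 1669] [2, 5] vals (gdec 90000 Lp cs)
    (by norm_num) (by norm_num) (by norm_num)
    lprime l2prime (by intro q hq; fin_cases hq <;> norm_num) (by intro q hq; fin_cases hq <;> norm_num)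
    (by intro q hq; fin_cases hq <;> norm_num) (by intro q hq; fin_cases hq <;> norm_num)
    (by decide +kernel) (by decide +kernel) tab1 tab2 cnt prs
theorem st : FINst 50 := fst fin

end Pool.Agent.T6.H31.TC.FC.K50
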