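import Pool.Agent.T6.H31.TC.FinSplit
import Pool.Agent.T6.H31.TC.FinK54B

set_option autoImplicit false
set_option maxRecDepth 1000000
set_option linter.all false

/-! Finite level 54 (computer generated data, kernel checks). -/

namespace Pool.Agent.T6.H31.TC.FC.K54

theorem cntA : (decide (0 < 15) && decide (6 * nT vals.length < 2 ^ 15) && decide (130680 ≤ 2 ^ 17) &&
      vmOK 0xffffffe vals) = true := by decide +kernel
theorem cntL : vals.all (fun v => decide (lk Lp v < 130680)) = true := by decide +kernel
theorem cntF : (let F := fold (15 * 130680) (fold (15 * 130680) (h3gen 15 17 (vals.map (lk Lp))))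
      let R := build 15 17 ((gdec 130680 Lp cs).map (fun x => (x.1, x.2.length - 1)))
      decide (R ≤ F) && decide ((F - R) &&& mask 15 130680 = 0)) = true := by decide +kernel
theorem tab1 : tabOK 54 130681 7 95907 [2, 3, 5, 11] [2, 3] vals Lp = true := by decide +kernel
theorem tab2 : tabOK 54 1000081 7 367175 [2, 3, 5, 463] [2, 3] vals Lp2 = true := by decide +kernel

end Pool.Agent.T6.H31.TC.FC.K54
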