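import Pool.Agent.T6.H31.TC.FinSplit
import Pool.Agent.T6.H31.TC.FinK54B

set_option autoImplicit false
set_option maxRecDepth 1000000
set_option linter.all false

/-! Finite level 54 (computer generated data, kernel checks). -/

namespace Pool.Agent.T6.H31.TC.FC.K54

theorem g0 : grpsR 130680 0xffffffe Lp 0 48468 (gch 130680 Lp c0) = true := by decide +kernel
theorem p0 : allPr 54 1000080 Lp2 (gch 130680 Lp c0) (recs 59 (dig 472 0xe10000b400700000000001ef03c090010e0000e1007000005a00002d007000024900005a00400000000002d00400a0000000062703a0e000000007ff8010c000000008598040c001c200005a00a000000000013b02a0a0000000009d82a0f0016800008700a00000000000e10310d000000000708310c0013b00008700a000000000012483d0f0000000024900a0a0021c0001ef00000000b4000087007000024900002d00400000000000f78080c00000000843024080000000021c0400900000000924028080000000070802810000000009510260b0010e00008700700000000007a582a0c000000001680360d0000000002d0340d0021c0000e100400000000007bc0040d000000000b40090e0000000016802a0a001c200002d00a00002490001c2000000000000077882b0c0000000092403a0d0016800005a00a000021c0000870040000000000870024080013b00005a00a00000b400005a007000000000002d02e090010e00005a00a000000000092402f0a000000009510080e0016800002d00a0000249000168000000000000009d8310c0013b00002d00a000024900013b00000000b400002d00a00002490000b4004000000000024904009000000007d282a0c0010e00002d00a00000000002058460c))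 = true := by decide +kernel
theorem g1 : grpsR 130680 0xffffffe Lp 48468 97237 (gch 130680 Lp c1) = true := by decide +kernel
theorem p1 : allPr 54 1000080 Lp2 (gch 130680 Lp c1) (recs 65 (dig 520 0x87000d0a001ef00005a00a00000000008ca02c0a000000009240060e000000002328460c0000000074b82e0c000e100005a00a00000000008430040d000000001248020c0021c00016800000000000008160040d000000005fa0290d000000005a00090e000000001c20010a000000000168340c000000000b40340d001ef00002d00a00000000000e10240a000000000708250f002490001ef000000021c00013b001000000000095103a0d0021c0000b4004000000000017e8400f000000002fd0400a000000008ca0280e000000008160100a0000000089d02408000000008ca0240b00000000816024080000000010e02a090000000092400610000e100002d00a000021c00010e00100000000000438310c0000000021c0070a002490000e1004000000000089d00b0d0008700005a00700001ef0001c200000001c20000e1007000000000078f0040d000000008430100a000000008e080a0f0008700002d00a0000249000087004000000000013b0360d000000001518030c000000000f78010f000000001ef0010a001c200008700a00000000001ab8430c001ef000168000000000000027603d0a000000005fa03a0e001680000e100700001ef00013b00100001ef0000b400a000000000016802a09000000008ca0090d0000000095102f0a0000000096782e0f001ef00010e001000013b0000e1007000000000095102808)) = true := by decide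 +kernel
theorem g2 : grpsR 130680 0xffffffe Lp 97237 130656 (gch 130680 Lp c2) = true := by decide +kernel
theorem p2 : allPr 54 1000080 Lp2 (gch 130680 Lp c2) (recs 46 (dig 368 0x1ef0000e1004000000000013b02a09000000006270290d0024900010e00400001c2000168001000000000002d0280a000000000168280f0000000010e0240a0000000096783a0c000000007350010d000000000b40250a0000000005a0020e000000008868040c0000000089d00d0a0000000090d8070f0021c00005a00a00001c200013b00100000000005a00270d001c20000b400a00000000000e102a09001c200010e007000000000005a0340d001ef00008700a000021c00002d00a000024900021c00000000e1000087007000000000017e80b0c0000000005a0280a0000000002d0020e0021c0001c2000000000000090d8090c0016800013b00700000000008e080b0c001680000b400700000000000b402a090016800010e007000013b0000b400700000000001c203c090013b00010e007000000000005a02e090010e0000b400700000000008f702408000000008ca02408000000009240260b0000000008702a090000000095100610)) = true := by decide +kernel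

end Pool.Agent.T6.H31.TC.FC.K54
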