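import Pool.Agent.T6.H31.TC.FinSplit2
import Pool.Agent.T6.H31.TC.FinK54P0
import Pool.Agent.T6.H31.TC.FinK54C
set_option autoImplicit false
set_option maxRecDepth 1000000
set_option linter.all false

/-! Finite level 54 (computer generated data, kernel checks). -/

namespace Pool.Agent.T6.H31.TC.FC.K54

theorem grps : grpsOK 130680 0xffffffe Lp 0 (gdec 130680 Lp cs) = true := by
  unfold cs
  refine grps_step g0 ?_
  refine grps_step g1 ?_
  refine grps_step g2 ?_
  rfl
theorem prs : PrOK 54 1000080 Lp2 (gdec 130680 Lp cs) := by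
  unfold cs
  refine pr_step (by norm_num) _ p0 ?_
  refine pr_step (by norm_num) _ p1 ?_
  refine pr_step (by norm_num) _ p2 ?_
  exact pr_nil _ _ _ _ _
theorem lprime : Nat.Prime 130681 := by norm_num
theorem l2prime : Nat.Prime 1000081 := by norm_num
theorem cnt : cntOK 15 17 130680 0xffffffe vals Lp (gdec 130680 Lp cs) = true := cnt_of cntA grps cntL cntF
theorem fin : FINv 54 vals :=
  fall3 54 130681 7 95907 1000081 7 367175 15 17 0xffffffe Lp Lp2 130680 1000080 [2, 3, 5, 11] [2, 3] [2, 3, 5, 463] [2, 3] vals (gdec 130680 Lp cs)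
    (by norm_num) (by norm_num) (by norm_num)
    lprime l2prime (by intro q hq; fin_cases hq <;> norm_num) (by intro q hq; fin_cases hq <;> norm_num)
    (by intro q hq; fin_cases hq <;> norm_num) (by intro q hq; fin_cases hq <;> norm_num)
    (by decide +kernel) (by decide +kernel) tab1 tab2 cnt prs
theorem st : FINst 54 := fst fin

end Pool.Agent.T6.H31.TC.FC.K54
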