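import Pool.Agent.T6.H31.TC.FinSplit2
import Pool.Agent.T6.H31.TC.FinK72P0
import Pool.Agent.T6.H31.TC.FinK72C
set_option autoImplicit false
set_option maxRecDepth 1000000
set_option linter.all false

/-! Finite level 72 (computer generated data, kernel checks). -/

namespace Pool.Agent.T6.H31.TC.FC.K72

theorem grps : grpsOK 700128 0x1ffffffffe Lp 0 (gdec 700128 Lp cs) = true := by
  unfold cs
  refine grps_step g0 ?_
  refine grps_step g1 ?_
  refine grps_step g2 ?_
  refine grps_step g3 ?_
  refine grps_step g4 ?_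
  refine grps_step g5 ?_
  rfl
theorem prs : PrOK 72 1400688 Lp2 (gdec 700128 Lp cs) := by
  unfold cs
  refine pr_step (by norm_num) _ p0 ?_
  refine pr_step (by norm_num) _ p1 ?_
  refine pr_step (by norm_num) _ p2 ?_
  refine pr_step (by norm_num) _ p3 ?_
  refine pr_step (by norm_num) _ p4 ?_
  refine pr_step (by norm_num) _ p5 ?_
  exact pr_nil _ _ _ _ _
theorem lprime : Nat.Prime 700129 := by norm_num
theorem l2prime : Nat.Prime 1400689 := by norm_num
theorem cnt : cntOK 16 20 700128 0x1ffffffffe vals Lp (gdec 700128 Lp cs) = true := cnt_of cntA grps cntL cntF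
theorem fin : FINv 72 vals :=
  fall3 72 700129 28 561779 1400689 7 52944 16 20 0x1ffffffffe Lp Lp2 700128 1400688 [2, 3, 11, 13, 17] [2, 3] [2, 3, 71, 137] [2, 3] vals (gdec 700128 Lp cs)
    (by norm_num) (by norm_num) (by norm_num)
    lprime l2prime (by intro q hq; fin_cases hq <;> norm_num) (by intro q hq; fin_cases hq <;> norm_num)
    (by intro q hq; fin_cases hq <;> norm_num) (by intro q hq; fin_cases hq <;> norm_num)
    (by decide +kernel) (by decide +kernel) tab1 tab2 cnt prs
theorem st : FINst 72 := fst fin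

end Pool.Agent.T6.H31.TC.FC.K72
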