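import Pool.Agent.T6.H31.TC.FinSplit
import Pool.Agent.T6.H31.TC.FinK78B

set_option autoImplicit false
set_option maxRecDepth 1000000
set_option linter.all false

/-! Finite level 78 (computer generated data, kernel checks). -/

namespace Pool.Agent.T6.H31.TC.FC.K78

theorem cntA : (decide (0 < 16) && decide (6 * nT vals.length < 2 ^ 16) && decide (999960 ≤ 2 ^ 20) &&
      vmOK 0xfffffffffe vals) = true := by decide +kernel
theorem cntL : vals.all (fun v => decide (lk Lp v < 999960)) = true := by decide +kernel
theorem cntF : (let F := fold (16 * 999960) (fold (16 * 999960) (h3gen 16 20 (vals.map (lk Lp))))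
      let R := build 16 20 ((gdec 999960 Lp cs).map (fun x => (x.1, x.2.length - 1)))
      decide (R ≤ F) && decide ((F - R) &&& mask 16 999960 = 0)) = true := by decide +kernel
theorem tab1 : tabOK 78 999961 11 510335 [2, 3, 5, 13, 641] [2, 3, 13] vals Lp = true := by decide +kernel
theorem tab2 : tabOK 78 2000389 2 1073773 [2, 3, 13, 12823] [2, 3, 13] vals Lp2 = true := by decide +kernel

end Pool.Agent.T6.H31.TC.FC.K78
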