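import Pool.Agent.T6.H31.TC.FinSplit2
import Pool.Agent.T6.H31.TC.FinK78P0
import Pool.Agent.T6.H31.TC.FinK78C
set_option autoImplicit false
set_option maxRecDepth 1000000
set_option linter.all false

/-! Finite level 78 (computer generated data, kernel checks). -/

namespace Pool.Agent.T6.H31.TC.FC.K78

theorem grps : grpsOK 999960 0xfffffffffe Lp 0 (gdec 999960 Lp cs) = true := by
  unfold cs
  refine grps_step g0 ?_
  refine grps_step g1 ?_
  refine grps_step g2 ?_
  refine grps_step g3 ?_
  refine grps_step g4 ?_
  refine grps_step g5 ?_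
  rfl
theorem prs : PrOK 78 2000388 Lp2 (gdec 999960 Lp cs) := by
  unfold cs
  refine pr_step (by norm_num) _ p0 ?_
  refine pr_step (by norm_num) _ p1 ?_
  refine pr_step (by norm_num) _ p2 ?_
  refine pr_step (by norm_num) _ p3 ?_
  refine pr_step (by norm_num) _ p4 ?_
  refine pr_step (by norm_num) _ p5 ?_
  exact pr_nil _ _ _ _ _
theorem lprime : Nat.Prime 999961 := by norm_num
theorem l2prime : Nat.Prime 2000389 := by norm_num
theorem cnt : cntOK 16 20 999960 0xfffffffffe vals Lp (gdec 999960 Lp cs) = true := cnt_of cntA grps cntL cntF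
theorem fin : FINv 78 vals :=
  fall3 78 999961 11 510335 2000389 2 1073773 16 20 0xfffffffffe Lp Lp2 999960 2000388 [2, 3, 5, 13, 641] [2, 3, 13] [2, 3, 13, 12823] [2, 3, 13] vals (gdec 999960 Lp cs)
    (by norm_num) (by norm_num) (by norm_num)
    lprime l2prime (by intro q hq; fin_cases hq <;> norm_num) (by intro q hq; fin_cases hq <;> norm_num)
    (by intro q hq; fin_cases hq <;> norm_num) (by intro q hq; fin_cases hq <;> norm_num)
    (by decide +kernel) (by decide +kernel) tab1 tab2 cnt prs
theorem st : FINst 78 := fst fin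

end Pool.Agent.T6.H31.TC.FC.K78
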