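import Pool.Agent.T6.H31.TC.FinSplit
import Pool.Agent.T6.H31.TC.FinK80B

set_option autoImplicit false
set_option maxRecDepth 1000000
set_option linter.all false

/-! Finite level 80 (computer generated data, kernel checks). -/

namespace Pool.Agent.T6.H31.TC.FC.K80

theorem cntA : (decide (0 < 17) && decide (6 * nT vals.length < 2 ^ 17) && decide (1100160 ≤ 2 ^ 21) &&
      vmOK 0x1fffffffffe vals) = true := by decide +kernel
theorem cntL : vals.all (fun v => decide (lk Lp v < 1100160)) = true := by decide +kernel
theorem cntF : (let F := fold (17 * 1100160) (fold (17 * 1100160) (h3gen 17 21 (vals.map (lk Lp))))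
      let R := build 17 21 ((gdec 1100160 Lp cs).map (fun x => (x.1, x.2.length - 1)))
      decide (R ≤ F) && decide ((F - R) &&& mask 17 1100160 = 0)) = true := by decide +kernel
theorem tab1 : tabOK 80 1100161 11 1083231 [2, 3, 5, 191] [2, 5] vals Lp = true := by decide +kernel
theorem tab2 : tabOK 80 2200321 11 1819142 [2, 3, 5, 191] [2, 5] vals Lp2 = true := by decide +kernel

end Pool.Agent.T6.H31.TC.FC.K80
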