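import Pool.Agent.T6.H31.TC.FinSplit2
import Pool.Agent.T6.H31.TC.FinK80P0
import Pool.Agent.T6.H31.TC.FinK80C
set_option autoImplicit false
set_option maxRecDepth 1000000
set_option linter.all false

/-! Finite level 80 (computer generated data, kernel checks). -/

namespace Pool.Agent.T6.H31.TC.FC.K80

theorem grps : grpsOK 1100160 0x1fffffffffe Lp 0 (gdec 1100160 Lp cs) = true := by
  unfold cs
  refine grps_step g0 ?_
  refine grps_step g1 ?_
  refine grps_step g2 ?_
  rfl
theorem prs : PrOK 80 2200320 Lp2 (gdec 1100160 Lp cs) := by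
  unfold cs
  refine pr_step (by norm_num) _ p0 ?_
  refine pr_step (by norm_num) _ p1 ?_
  refine pr_step (by norm_num) _ p2 ?_
  exact pr_nil _ _ _ _ _
theorem lprime : Nat.Prime 1100161 := by norm_num
theorem l2prime : Nat.Prime 2200321 := by norm_num
theorem cnt : cntOK 17 21 1100160 0x1fffffffffe vals Lp (gdec 1100160 Lp cs) = true := cnt_of cntA grps cntL cntF
theorem fin : FINv 80 vals :=
  fall3 80 1100161 11 1083231 2200321 11 1819142 17 21 0x1fffffffffe Lp Lp2 1100160 2200320 [2, 3, 5, 191] [2, 5] [2, 3, 5, 191] [2, 5] vals (gdec 1100160 Lp cs)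
    (by norm_num) (by norm_num) (by norm_num)
    lprime l2prime (by intro q hq; fin_cases hq <;> norm_num) (by intro q hq; fin_cases hq <;> norm_num)
    (by intro q hq; fin_cases hq <;> norm_num) (by intro q hq; fin_cases hq <;> norm_num)
    (by decide +kernel) (by decide +kernel) tab1 tab2 cnt prs
theorem st : FINst 80 := fst fin

end Pool.Agent.T6.H31.TC.FC.K80
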