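import Pool.Agent.T6.H31.TC.FinDefs

set_option autoImplicit false

/-! Decoding of the data of the finite levels. -/

namespace Pool.Agent.T6.H31.TC

namespace FC

def dig : ℕ → ℕ → List ℕ
  | 0, _ => []
  | k + 1, n => (n % 256) :: dig k (n / 256)

def tk : ℕ → List ℕ → List Tri
  | n + 1, a :: b :: c :: t => (a, b, c) :: tk n t
  | _, _ => []

def hd : List Tri → Tri
  | x :: _ => x
  | [] => (0, 0, 0)

def dg (M Lp : ℕ) : ℕ → List ℕ → List (ℕ × List Tri)
  | f + 1, n :: t => (key M Lp (hd (tk n t)), tk n t) :: dg M Lp f (t.drop (3 * n))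
  | _, _ => []

def recs : ℕ → List ℕ → List ℕ
  | f + 1, k :: i :: p0 :: p1 :: p2 :: q0 :: q1 :: q2 :: t =>
    k :: i :: (p0 + 256 * (p1 + 256 * p2)) :: (q0 + 256 * (q1 + 256 * q2)) :: recs f t
  | _, _ => []

/-- decode the groups: chunks (number of groups, number of bytes, bytes) -/
def gdec (M Lp : ℕ) (cs : List (ℕ × ℕ × ℕ)) : List (ℕ × List Tri) :=
  cs.flatMap (fun c => dg M Lp c.1 (dig c.2.1 c.2.2))

def rdec (cs : List (ℕ × ℕ)) : List ℕ := cs.flatMap (fun c => recs c.1 (dig (8 * c.1) c.2))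

end FC

end Pool.Agent.T6.H31.TC
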