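import Pool.Agent.T6.H31.TC.Stmts

set_option autoImplicit false

/-!
Module INV of the project TC (MP_6e4ab6_nt): invariance of the equation and of the list under
`eqv` and `Match`.
-/

namespace Pool.Agent.T6.H31.TC

open Finset

namespace INVx

/-! ### `eqv` -/

theorem abs_sin_add_int (x : ℝ) (k : ℤ) :
    |Real.sin (Real.pi * (x + k))| = |Real.sin (Real.pi * x)| := by
  have h : Real.pi * (x + k) = Real.pi * x + k * Real.pi := by ring
  rw [h, Real.sin_add_int_mul_pi, abs_mul]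
  have h2 : |(-1 : ℝ) ^ k| = 1 := by rw [abs_zpow, abs_neg, abs_one, one_zpow]
  rw [h2, one_mul]

theorem eqv_abs {a b : ℝ} (h : eqv a b) :
    |Real.sin (Real.pi * a)| = |Real.sin (Real.pi * b)| := by
  obtain ⟨k, h | h⟩ := h
  · rw [h, abs_sin_add_int]
  · rw [h, abs_sin_add_int, mul_neg, Real.sin_neg, abs_neg]

theorem eqv_refl (a : ℝ) : eqv a a := ⟨0, Or.inl (by simp)⟩

theorem eqv_of_eq {a b : ℝ} (h : a = b) : eqv a b := by rw [h]; exact eqv_refl b

theorem eqv_symm {a b : ℝ} (h : eqv a b) : eqv b a := by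
  obtain ⟨k, h | h⟩ := h
  · exact ⟨-k, Or.inl (by rw [h]; push_cast; ring)⟩
  · exact ⟨k, Or.inr (by rw [h]; ring)⟩

theorem eqv_trans {a b c : ℝ} (h : eqv a b) (h' : eqv b c) : eqv a c := by
  obtain ⟨k, h | h⟩ := h
  · obtain ⟨l, h' | h'⟩ := h'
    · exact ⟨l + k, Or.inl (by rw [h, h']; push_cast; ring)⟩
    · exact ⟨l + k, Or.inr (by rw [h, h']; push_cast; ring)⟩
  · obtain ⟨l, h' | h'⟩ := h'
    · exact ⟨-l + k, Or.inr (by rw [h, h']; push_cast; ring)⟩
    · exact ⟨-l + k, Or.inl (by rw [h, h']; push_cast; ring)⟩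

theorem eqv_neg (a : ℝ) : eqv (-a) a := ⟨0, Or.inr (by simp)⟩

theorem eqv_add_int (a : ℝ) (k : ℤ) : eqv (a + k) a := ⟨k, Or.inl rfl⟩

theorem abs_eqv {a b : ℝ} (h : |Real.sin (Real.pi * a)| = |Real.sin (Real.pi * b)|) :
    eqv a b := by
  have h1 : Real.sin (Real.pi * a) ^ 2 = Real.sin (Real.pi * b) ^ 2 := by
    rw [← sq_abs, h, sq_abs]
  have h2 : Real.cos (2 * (Real.pi * a)) = Real.cos (2 * (Real.pi * b)) := by
    rw [Real.cos_two_mul, Real.cos_two_mul, Real.cos_sq', Real.cos_sq', h1]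
  obtain ⟨k, hk | hk⟩ := Real.cos_eq_cos_iff.1 h2
  · refine ⟨-k, Or.inl ?_⟩
    have h3 : Real.pi * b = Real.pi * (k + a) := by linarith
    have h4 := mul_left_cancel₀ Real.pi_ne_zero h3
    rw [h4]; push_cast; ring
  · refine ⟨k, Or.inr ?_⟩
    have h3 : Real.pi * b = Real.pi * (k - a) := by linarith
    have h4 := mul_left_cancel₀ Real.pi_ne_zero h3
    rw [h4]; ring

theorem eqv_iff {a b : ℝ} :
    eqv a b ↔ |Real.sin (Real.pi * a)| = |Real.sin (Real.pi * b)| := ⟨eqv_abs, abs_eqv⟩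

/-! ### block permutations -/

theorem pinv (σ : Equiv.Perm (Fin 6)) (j : Fin 6) : σ (σ⁻¹ j) = j := Equiv.apply_symm_apply σ j

theorem Blk_one : Blk 1 := Or.inl fun _ => Iff.rfl

theorem Blk_mul {σ τ : Equiv.Perm (Fin 6)} (hσ : Blk σ) (hτ : Blk τ) : Blk (τ * σ) := by
  rcases hσ with hσ | hσ <;> rcases hτ with hτ | hτ
  · exact Or.inl fun i => by rw [Equiv.Perm.mul_apply, hτ, hσ]
  · refine Or.inr fun i => ?_
    rw [Equiv.Perm.mul_apply, hτ, ← not_lt, hσ, not_lt]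
  · refine Or.inr fun i => ?_
    rw [Equiv.Perm.mul_apply, hτ, hσ]
  · refine Or.inl fun i => ?_
    rw [Equiv.Perm.mul_apply, hτ, ← not_lt, hσ, not_le]

theorem Blk_inv {σ : Equiv.Perm (Fin 6)} (hσ : Blk σ) : Blk σ⁻¹ := by
  rcases hσ with hσ | hσ
  · refine Or.inl fun i => ?_
    have := hσ (σ⁻¹ i)
    rw [pinv] at this
    exact this.symm
  · refine Or.inr fun i => ?_
    have := hσ (σ⁻¹ i)
    rw [pinv] at this
    omega

theorem Match_refl (y : Fin 6 → ℝ) : Match y y := ⟨1, Blk_one, fun _ => eqv_refl _⟩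

theorem Match_of_eqv {y z : Fin 6 → ℝ} (h : ∀ i, eqv (y i) (z i)) : Match y z :=
  ⟨1, Blk_one, h⟩

theorem Match_trans {x y z : Fin 6 → ℝ} (h : Match x y) (h' : Match y z) : Match x z := by
  obtain ⟨σ, hσ, h⟩ := h
  obtain ⟨τ, hτ, h'⟩ := h'
  exact ⟨τ * σ, Blk_mul hσ hτ, fun i => eqv_trans (h i) (h' (σ i))⟩

theorem Match_symm {y z : Fin 6 → ℝ} (h : Match y z) : Match z y := by
  obtain ⟨σ, hσ, h⟩ := h
  refine ⟨σ⁻¹, Blk_inv hσ, fun i => ?_⟩
  have := eqv_symm (h (σ⁻¹ i))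
  rwa [pinv] at this

/-! ### the equation -/

/-- `|sin pi y|` -/
noncomputable def g (y : Fin 6 → ℝ) (i : Fin 6) : ℝ := |Real.sin (Real.pi * y i)|

theorem prodA (f : Fin 6 → ℝ) :
    ∏ i ∈ univ.filter (fun i : Fin 6 => i.val < 3), f i = f 0 * f 1 * f 2 := by
  rw [Finset.prod_filter, Fin.prod_univ_six]
  simp

theorem prodB (f : Fin 6 → ℝ) :
    ∏ i ∈ univ.filter (fun i : Fin 6 => 3 ≤ i.val), f i = f 3 * f 4 * f 5 := by
  rw [Finset.prod_filter, Fin.prod_univ_six]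
  simp

theorem SolY_iff (y : Fin 6 → ℝ) : SolY y ↔
    ∏ i ∈ univ.filter (fun i : Fin 6 => i.val < 3), g y i =
      ∏ i ∈ univ.filter (fun i : Fin 6 => 3 ≤ i.val), g y i := by
  rw [prodA, prodB, SolY, abs_mul, abs_mul, abs_mul, abs_mul]
  rfl

theorem SolY_of_Match {y z : Fin 6 → ℝ} (h : Match y z) (hz : SolY z) : SolY y := by
  obtain ⟨σ, hσ, h⟩ := h
  rw [SolY_iff] at hz ⊢
  have hg : ∀ i, g y i = g z (σ i) := fun i => eqv_abs (h i)
  rcases hσ with hσ | hσ
  · have hA : ∏ i ∈ univ.filter (fun i : Fin 6 => i.val < 3), g y i =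
        ∏ i ∈ univ.filter (fun i : Fin 6 => i.val < 3), g z i := by
      refine Finset.prod_bij (fun i _ => σ i) ?_ ?_ ?_ ?_
      · intro i hi
        rw [mem_filter] at hi ⊢
        exact ⟨mem_univ _, (hσ i).2 hi.2⟩
      · intro i _ j _ hij
        exact σ.injective hij
      · intro j hj
        rw [mem_filter] at hj
        refine ⟨σ⁻¹ j, ?_, pinv σ j⟩
        rw [mem_filter]
        refine ⟨mem_univ _, (hσ _).1 ?_⟩
        rw [pinv]
        exact hj.2
      · intro i _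
        exact hg i
    have hB : ∏ i ∈ univ.filter (fun i : Fin 6 => 3 ≤ i.val), g y i =
        ∏ i ∈ univ.filter (fun i : Fin 6 => 3 ≤ i.val), g z i := by
      refine Finset.prod_bij (fun i _ => σ i) ?_ ?_ ?_ ?_
      · intro i hi
        rw [mem_filter] at hi ⊢
        refine ⟨mem_univ _, ?_⟩
        have h1 := hσ i
        have h2 := hi.2
        omega
      · intro i _ j _ hij
        exact σ.injective hij
      · intro j hj
        rw [mem_filter] at hj
        refine ⟨σ⁻¹ j, ?_, pinv σ j⟩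
        rw [mem_filter]
        refine ⟨mem_univ _, ?_⟩
        have h1 := hσ (σ⁻¹ j)
        rw [pinv] at h1
        have h2 := hj.2
        omega
      · intro i _
        exact hg i
    rw [hA, hB, hz]
  · have hA : ∏ i ∈ univ.filter (fun i : Fin 6 => i.val < 3), g y i =
        ∏ i ∈ univ.filter (fun i : Fin 6 => 3 ≤ i.val), g z i := by
      refine Finset.prod_bij (fun i _ => σ i) ?_ ?_ ?_ ?_
      · intro i hi
        rw [mem_filter] at hi ⊢
        refine ⟨mem_univ _, ?_⟩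
        have h1 := hσ i
        have h2 := hi.2
        omega
      · intro i _ j _ hij
        exact σ.injective hij
      · intro j hj
        rw [mem_filter] at hj
        refine ⟨σ⁻¹ j, ?_, pinv σ j⟩
        rw [mem_filter]
        refine ⟨mem_univ _, ?_⟩
        have h1 := hσ (σ⁻¹ j)
        rw [pinv] at h1
        have h2 := hj.2
        omega
      · intro i _
        exact hg i
    have hB : ∏ i ∈ univ.filter (fun i : Fin 6 => 3 ≤ i.val), g y i =
        ∏ i ∈ univ.filter (fun i : Fin 6 => i.val < 3), g z i := by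
      refine Finset.prod_bij (fun i _ => σ i) ?_ ?_ ?_ ?_
      · intro i hi
        rw [mem_filter] at hi ⊢
        exact ⟨mem_univ _, (hσ i).2 hi.2⟩
      · intro i _ j _ hij
        exact σ.injective hij
      · intro j hj
        rw [mem_filter] at hj
        refine ⟨σ⁻¹ j, ?_, pinv σ j⟩
        rw [mem_filter]
        refine ⟨mem_univ _, (hσ _).1 ?_⟩
        rw [pinv]
        exact hj.2
      · intro i _
        exact hg i
    rw [hA, hB, hz]

theorem NZ_of_Match {y z : Fin 6 → ℝ} (h : Match y z) (hz : NZ z) : NZ y := by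
  obtain ⟨σ, -, h⟩ := h
  intro i hi
  have h1 := eqv_abs (h i)
  rw [hi, abs_zero] at h1
  exact hz (σ i) (abs_eq_zero.1 h1.symm)

theorem CommR_of_Match {y z : Fin 6 → ℝ} (h : Match y z) (hz : CommR z) : CommR y := by
  obtain ⟨σ, hσ, h⟩ := h
  obtain ⟨i, j, hi, hj, hij⟩ := hz
  have hi' : eqv (y (σ⁻¹ i)) (z i) := by
    have := h (σ⁻¹ i)
    rwa [pinv] at this
  have hj' : eqv (y (σ⁻¹ j)) (z j) := by
    have := h (σ⁻¹ j)
    rwa [pinv] at this
  have key : eqv (y (σ⁻¹ i)) (y (σ⁻¹ j)) := eqv_trans hi' (eqv_trans hij (eqv_symm hj'))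
  rcases Blk_inv hσ with hτ | hτ
  · refine ⟨σ⁻¹ i, σ⁻¹ j, (hτ i).2 hi, ?_, key⟩
    have := hτ j
    omega
  · refine ⟨σ⁻¹ j, σ⁻¹ i, (hτ j).2 hj, ?_, eqv_symm key⟩
    have := hτ i
    omega

theorem T1_of_Match {y z : Fin 6 → ℝ} (h : Match y z) (hz : T1 z) : T1 y := by
  rcases hz with ⟨p, q, hz⟩ | ⟨f, hf, p, hz⟩ | ⟨s, hs, t, ht, hz⟩
  · exact Or.inl ⟨p, q, Match_trans h hz⟩
  · exact Or.inr (Or.inl ⟨f, hf, p, Match_trans h hz⟩)
  · exact Or.inr (Or.inr ⟨s, hs, t, ht, Match_trans h hz⟩)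

theorem Res_of_Match {y z : Fin 6 → ℝ} (h : Match y z) (hz : Res z) : Res y :=
  hz.imp (CommR_of_Match h) (T1_of_Match h)

theorem Target_of_Match {y z : Fin 6 → ℝ} (h : Match y z) (hz : Target z) : Target y := by
  rcases hz with ⟨r, w, hw, hz⟩ | hz
  · exact Or.inl ⟨r, w, hw, Match_trans h hz⟩
  · exact Or.inr (T1_of_Match h hz)

end INVx

open INVx

theorem i2 : StmtI2 := fun _ _ h =>
  ⟨SolY_of_Match h, NZ_of_Match h, Res_of_Match h, Target_of_Match h⟩

theorem i1 : StmtI1 := fun y y' h => i2 y y' (Match_of_eqv h)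

end Pool.Agent.T6.H31.TC
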