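import Pool.Agent.T6.H31.TC.FinRun
import Pool.Agent.T6.H31.TC.FALL
import Pool.Agent.T6.H31.TC.FPR
import Pool.Agent.T6.H31.TC.FDIG
import Pool.Agent.T6.H31.TC.FKEY
import Pool.Agent.T6.H31.TC.INV

set_option autoImplicit false

/-! Splitting the check of one level into pieces. -/

namespace Pool.Agent.T6.H31.TC

namespace FC

open FALLx

/-- the groups of one chunk -/
def gch (M Lp : ℕ) (c : ℕ × ℕ × ℕ) : List (ℕ × List Tri) := dg M Lp c.1 (dig c.2.1 c.2.2)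

theorem gdec_cons (M Lp : ℕ) (c : ℕ × ℕ × ℕ) (cs : List (ℕ × ℕ × ℕ)) :
    gdec M Lp (c :: cs) = gch M Lp c ++ gdec M Lp cs := rfl

def grpsR (M vm Lp lo hi : ℕ) (l : List (ℕ × List Tri)) : Bool :=
  Nat.ble lo hi && grpsOK M vm Lp lo l && l.all (fun x => Nat.blt x.1 hi)

theorem grps_mono (M vm Lp : ℕ) : ∀ (l : List (ℕ × List Tri)) (lo lo' : ℕ), lo' ≤ lo →
    grpsOK M vm Lp lo l = true → grpsOK M vm Lp lo' l = true
  | [], _, _, _, _ => rfl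
  | (k, g) :: r, lo, lo', h, h1 => by
    rw [grpsOK] at h1 ⊢
    simp only [Bool.and_eq_true, Nat.ble_eq] at h1 ⊢
    exact ⟨⟨⟨⟨le_trans h h1.1.1.1.1, h1.1.1.1.2⟩, h1.1.1.2⟩, h1.1.2⟩, h1.2⟩

theorem grps_append (M vm Lp : ℕ) : ∀ (a b : List (ℕ × List Tri)) (lo hi : ℕ), lo ≤ hi →
    grpsOK M vm Lp lo a = true → (∀ x ∈ a, x.1 < hi) → grpsOK M vm Lp hi b = true →
    grpsOK M vm Lp lo (a ++ b) = true
  | [], b, lo, hi, hle, _, _, h => grps_mono M vm Lp b hi lo hle h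
  | (k, g) :: r, b, lo, hi, _, h1, h2, h3 => by
    rw [List.cons_append, grpsOK]
    rw [grpsOK] at h1
    simp only [Bool.and_eq_true] at h1 ⊢
    refine ⟨h1.1, grps_append M vm Lp r b (k + 1) hi ?_ h1.2 (fun x hx => h2 x (List.mem_cons_of_mem _ hx)) h3⟩
    exact h2 (k, g) List.mem_cons_self

theorem grps_step {M vm Lp lo hi : ℕ} {c : ℕ × ℕ × ℕ} {cs : List (ℕ × ℕ × ℕ)}
    (h1 : grpsR M vm Lp lo hi (gch M Lp c) = true) (h2 : grpsOK M vm Lp hi (gdec M Lp cs) = true) :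
    grpsOK M vm Lp lo (gdec M Lp (c :: cs)) = true := by
  unfold grpsR at h1
  simp only [Bool.and_eq_true, List.all_eq_true] at h1
  rw [gdec_cons]
  refine grps_append M vm Lp _ _ lo hi (by simpa using h1.1.1) h1.1.2 (fun x hx => ?_) h2
  have := h1.2 x hx
  simpa [Nat.blt_eq] using this

/-- all pairs are good -/
def PrOK (N M2 Lp2 : ℕ) (gs : List (ℕ × List Tri)) : Prop := ∀ x ∈ gs, ∀ t ∈ x.2, ∀ u ∈ x.2, t ≠ u →
    key M2 Lp2 t = key M2 Lp2 u → Res (pv N t u) ∨ Res (pv N u t)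

theorem pr_nil (N M2 Lp2 M Lp : ℕ) : PrOK N M2 Lp2 (gdec M Lp []) := by
  intro x hx
  simp [gdec] at hx

theorem pr_step {N M2 Lp2 M Lp : ℕ} {c : ℕ × ℕ × ℕ} {cs : List (ℕ × ℕ × ℕ)} (hN : 0 < N)
    (s : List ℕ) (h1 : allPr N M2 Lp2 (gch M Lp c) s = true) (h2 : PrOK N M2 Lp2 (gdec M Lp cs)) :
    PrOK N M2 Lp2 (gdec M Lp (c :: cs)) := by
  intro x hx t ht u hu htu hk
  rw [gdec_cons, List.mem_append] at hx
  rcases hx with hx | hx
  · exact fpr N M2 Lp2 _ s hN h1 x hx t ht u hu htu hk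
  · exact h2 x hx t ht u hu htu hk

theorem cnt_of {b d M vm : ℕ} {vals : List ℕ} {Lp : ℕ} {gs : List (ℕ × List Tri)}
    (h1 : (decide (0 < b) && decide (6 * nT vals.length < 2 ^ b) && decide (M ≤ 2 ^ d) &&
      vmOK vm vals) = true) (h2 : grpsOK M vm Lp 0 gs = true)
    (h3 : vals.all (fun v => decide (lk Lp v < M)) = true)
    (h4 : (let F := fold (b * M) (fold (b * M) (h3gen b d (vals.map (lk Lp))))
      let R := build b d (gs.map (fun x => (x.1, x.2.length - 1)))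
      decide (R ≤ F) && decide ((F - R) &&& mask b M = 0)) = true) :
    cntOK b d M vm vals Lp gs = true := by
  unfold cntOK
  rw [h1, h2, h3, h4]
  rfl

theorem fall2 (N l g w l2 g2 w2 b d vm Lp Lp2 : ℕ) (qg qw qg2 qw2 vals : List ℕ)
    (gs : List (ℕ × List Tri)) (hN : 0 < N) (hl : l.Prime) (hl2 : l2.Prime)
    (hqg : ∀ q ∈ qg, q.Prime) (hqw : ∀ q ∈ qw, q.Prime) (hqg2 : ∀ q ∈ qg2, q.Prime)
    (hqw2 : ∀ q ∈ qw2, q.Prime) (hvals : ∀ v ∈ vals, 1 ≤ v ∧ 2 * v ≤ N) (hnd : vals.Nodup)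
    (htab : tabOK N l g w qg qw vals Lp = true) (htab2 : tabOK N l2 g2 w2 qg2 qw2 vals Lp2 = true)
    (hcnt : cntOK b d (l - 1) vm vals Lp gs = true) (hpr : PrOK N (l2 - 1) Lp2 gs) :
    FINv N vals := by
  intro a ha hsol
  obtain ⟨σ, hσ, s1, s2, s3, s4⟩ := sort6 a
  set c : Fin 6 → ℕ := fun i => a (σ i) with hc
  have hcm : ∀ i, c i ∈ vals := fun i => ha (σ i)
  set t : Tri := (c 0, c 1, c 2) with ht
  set u : Tri := (c 3, c 4, c 5) with hu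
  have hpv : pv N t u = fun i => (c i : ℝ) / N := by
    funext i
    fin_cases i <;> rfl
  -- the two matches
  have m1 : Match (fun i => (c i : ℝ) / N) (fun i => (a i : ℝ) / N) :=
    ⟨σ, Or.inl hσ, fun i => eqv_rfl _⟩
  have m2 : Match (fun i => (a i : ℝ) / N) (fun i => (c i : ℝ) / N) := by
    refine ⟨σ⁻¹, Or.inl (pres_inv hσ), fun i => ?_⟩
    show eqv ((a i : ℝ) / N) ((a (σ (σ⁻¹ i)) : ℝ) / N)
    rw [pinv]
    exact eqv_rfl _
  have hsolc : SolY (fun i => (c i : ℝ) / N) := (i2 _ _ m1).1 hsol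
  have back : Res (fun i => (c i : ℝ) / N) → Res (fun i => (a i : ℝ) / N) :=
    (i2 _ _ m2).2.2.1
  apply back
  by_cases htu : t = u
  · left
    refine ⟨0, 3, by decide, by decide, 0, Or.inl ?_⟩
    have : c 0 = c 3 := congrArg (fun x : Tri => x.1) htu
    show (c 0 : ℝ) / N = (c 3 : ℝ) / N + ((0 : ℤ) : ℝ)
    rw [this]
    simp
  have k1 : key (l - 1) Lp t = key (l - 1) Lp u :=
    fkey N l g w qg qw vals Lp hN hl hqg hqw htab hvals hnd c hcm hsolc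
  have k2 : key (l2 - 1) Lp2 t = key (l2 - 1) Lp2 u :=
    fkey N l2 g2 w2 qg2 qw2 vals Lp2 hN hl2 hqg2 hqw2 htab2 hvals hnd c hcm hsolc
  have hvm : vmOK vm vals = true := by
    unfold cntOK at hcnt
    simp only [Bool.and_eq_true] at hcnt
    exact hcnt.1.1.1.2
  have vt : vOK vm t = true := by
    unfold vOK
    simp only [Bool.and_eq_true]
    exact ⟨⟨⟨⟨vm_mem hvm (hcm 0), vm_mem hvm (hcm 1)⟩, vm_mem hvm (hcm 2)⟩,
      (iff_of_eq Nat.ble_eq).2 s1⟩, (iff_of_eq Nat.ble_eq).2 s2⟩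
  have vu : vOK vm u = true := by
    unfold vOK
    simp only [Bool.and_eq_true]
    exact ⟨⟨⟨⟨vm_mem hvm (hcm 3), vm_mem hvm (hcm 4)⟩, vm_mem hvm (hcm 5)⟩,
      (iff_of_eq Nat.ble_eq).2 s3⟩, (iff_of_eq Nat.ble_eq).2 s4⟩
  have hM : 0 < l - 1 := by
    have := hl.two_le
    omega
  obtain ⟨x, hx, htx, hux⟩ := fdig b d (l - 1) vm vals Lp gs hM hnd hcnt t u vt vu k1 htu
  rw [← hpv]
  rcases hpr x hx t htx u hux htu k2 with h | h
  · exact h
  · exact (i2 _ _ (match_swap N t u)).2.2.1 h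

end FC

end Pool.Agent.T6.H31.TC
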