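import Pool.Agent.T6.H31.TC.FinSplit

set_option autoImplicit false

namespace Pool.Agent.T6.H31.TC

namespace FC

/-- `fall2` with the moduli as parameters (so that no evaluation is needed) -/
theorem fall3 (N l g w l2 g2 w2 b d vm Lp Lp2 M M2 : ℕ) (qg qw qg2 qw2 vals : List ℕ)
    (gs : List (ℕ × List Tri)) (hM : l - 1 = M) (hM2 : l2 - 1 = M2) (hN : 0 < N) (hl : l.Prime)
    (hl2 : l2.Prime)
    (hqg : ∀ q ∈ qg, q.Prime) (hqw : ∀ q ∈ qw, q.Prime) (hqg2 : ∀ q ∈ qg2, q.Prime)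
    (hqw2 : ∀ q ∈ qw2, q.Prime) (hvals : ∀ v ∈ vals, 1 ≤ v ∧ 2 * v ≤ N) (hnd : vals.Nodup)
    (htab : tabOK N l g w qg qw vals Lp = true) (htab2 : tabOK N l2 g2 w2 qg2 qw2 vals Lp2 = true)
    (hcnt : cntOK b d M vm vals Lp gs = true) (hpr : PrOK N M2 Lp2 gs) :
    FINv N vals := by
  subst hM
  subst hM2
  exact fall2 N l g w l2 g2 w2 b d vm Lp Lp2 qg qw qg2 qw2 vals gs hN hl hl2 hqg hqw hqg2 hqw2
    hvals hnd htab htab2 hcnt hpr

end FC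

end Pool.Agent.T6.H31.TC
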