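import Pool.Agent.T6.H31.TC.INV

set_option autoImplicit false

/-!
Module INV, four variables, of the project TC (MP_6e4ab6_nt): invariance of the two-sine equation
and of its list under `eqv` and `Match4`.
-/

namespace Pool.Agent.T6.H31.TC

open Finset INVx

namespace INV4x

theorem pinv4 (σ : Equiv.Perm (Fin 4)) (j : Fin 4) : σ (σ⁻¹ j) = j := Equiv.apply_symm_apply σ j

theorem Blk4_one : Blk4 1 := Or.inl fun _ => Iff.rfl

theorem Blk4_mul {σ τ : Equiv.Perm (Fin 4)} (hσ : Blk4 σ) (hτ : Blk4 τ) : Blk4 (τ * σ) := by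
  rcases hσ with hσ | hσ <;> rcases hτ with hτ | hτ
  · exact Or.inl fun i => by rw [Equiv.Perm.mul_apply, hτ, hσ]
  · refine Or.inr fun i => ?_
    rw [Equiv.Perm.mul_apply, hτ, ← not_lt, hσ, not_lt]
  · refine Or.inr fun i => ?_
    rw [Equiv.Perm.mul_apply, hτ, hσ]
  · refine Or.inl fun i => ?_
    rw [Equiv.Perm.mul_apply, hτ, ← not_lt, hσ, not_le]

theorem Blk4_inv {σ : Equiv.Perm (Fin 4)} (hσ : Blk4 σ) : Blk4 σ⁻¹ := by
  rcases hσ with hσ | hσ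
  · refine Or.inl fun i => ?_
    have := hσ (σ⁻¹ i)
    rw [pinv4] at this
    exact this.symm
  · refine Or.inr fun i => ?_
    have := hσ (σ⁻¹ i)
    rw [pinv4] at this
    omega

theorem Match4_refl (y : Fin 4 → ℝ) : Match4 y y := ⟨1, Blk4_one, fun _ => eqv_refl _⟩

theorem Match4_of_eqv {y z : Fin 4 → ℝ} (h : ∀ i, eqv (y i) (z i)) : Match4 y z :=
  ⟨1, Blk4_one, h⟩

theorem Match4_trans {x y z : Fin 4 → ℝ} (h : Match4 x y) (h' : Match4 y z) : Match4 x z := by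
  obtain ⟨σ, hσ, h⟩ := h
  obtain ⟨τ, hτ, h'⟩ := h'
  exact ⟨τ * σ, Blk4_mul hσ hτ, fun i => eqv_trans (h i) (h' (σ i))⟩

theorem Match4_symm {y z : Fin 4 → ℝ} (h : Match4 y z) : Match4 z y := by
  obtain ⟨σ, hσ, h⟩ := h
  refine ⟨σ⁻¹, Blk4_inv hσ, fun i => ?_⟩
  have := eqv_symm (h (σ⁻¹ i))
  rwa [pinv4] at this

/-- `|sin pi y|` -/
noncomputable def g4 (y : Fin 4 → ℝ) (i : Fin 4) : ℝ := |Real.sin (Real.pi * y i)|

theorem prodA4 (f : Fin 4 → ℝ) :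
    ∏ i ∈ univ.filter (fun i : Fin 4 => i.val < 2), f i = f 0 * f 1 := by
  rw [Finset.prod_filter, Fin.prod_univ_four]
  simp

theorem prodB4 (f : Fin 4 → ℝ) :
    ∏ i ∈ univ.filter (fun i : Fin 4 => 2 ≤ i.val), f i = f 2 * f 3 := by
  rw [Finset.prod_filter, Fin.prod_univ_four]
  simp

theorem SolY4_iff (y : Fin 4 → ℝ) : SolY4 y ↔
    ∏ i ∈ univ.filter (fun i : Fin 4 => i.val < 2), g4 y i =
      ∏ i ∈ univ.filter (fun i : Fin 4 => 2 ≤ i.val), g4 y i := by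
  rw [prodA4, prodB4, SolY4, abs_mul, abs_mul]
  rfl

theorem prod_transport (P Q : Fin 4 → Prop) [DecidablePred P] [DecidablePred Q]
    (σ : Equiv.Perm (Fin 4)) (h : ∀ i, P i ↔ Q (σ i)) (f : Fin 4 → ℝ) :
    ∏ i ∈ univ.filter P, f (σ i) = ∏ i ∈ univ.filter Q, f i := by
  refine Finset.prod_bij (fun i _ => σ i) ?_ ?_ ?_ ?_
  · intro i hi
    rw [mem_filter] at hi ⊢
    exact ⟨mem_univ _, (h i).1 hi.2⟩
  · intro i _ j _ hij
    exact σ.injective hij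
  · intro j hj
    rw [mem_filter] at hj
    refine ⟨σ⁻¹ j, ?_, pinv4 σ j⟩
    rw [mem_filter, h, pinv4]
    exact ⟨mem_univ _, hj.2⟩
  · intro i _
    rfl

theorem SolY4_of_Match4 {y z : Fin 4 → ℝ} (h : Match4 y z) (hz : SolY4 z) : SolY4 y := by
  obtain ⟨σ, hσ, h⟩ := h
  rw [SolY4_iff] at hz ⊢
  have hg : g4 y = fun i => g4 z (σ i) := funext fun i => eqv_abs (h i)
  rw [hg]
  rcases hσ with hσ | hσ
  · rw [prod_transport (fun i => i.val < 2) (fun i => i.val < 2) σ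
        (fun i => (hσ i).symm) (g4 z),
      prod_transport (fun i => 2 ≤ i.val) (fun i => 2 ≤ i.val) σ
        (fun i => by have := hσ i; omega) (g4 z), hz]
  · rw [prod_transport (fun i => i.val < 2) (fun i => 2 ≤ i.val) σ
        (fun i => by have := hσ i; omega) (g4 z),
      prod_transport (fun i => 2 ≤ i.val) (fun i => i.val < 2) σ
        (fun i => (hσ i).symm) (g4 z), hz]

theorem NZ4_of_Match4 {y z : Fin 4 → ℝ} (h : Match4 y z) (hz : NZ4 z) : NZ4 y := by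
  obtain ⟨σ, -, h⟩ := h
  intro i hi
  have h1 := eqv_abs (h i)
  rw [hi, abs_zero] at h1
  exact hz (σ i) (abs_eq_zero.1 h1.symm)

theorem M2L_of_Match4 {y z : Fin 4 → ℝ} (h : Match4 y z) (hz : M2L z) : M2L y := by
  rcases hz with ⟨p, q, hz⟩ | ⟨p, hz⟩ | ⟨s, hs, t, ht, hz⟩
  · exact Or.inl ⟨p, q, Match4_trans h hz⟩
  · exact Or.inr (Or.inl ⟨p, Match4_trans h hz⟩)
  · exact Or.inr (Or.inr ⟨s, hs, t, ht, Match4_trans h hz⟩)

end INV4x

end Pool.Agent.T6.H31.TC
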