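import Pool.Agent.T6.H31.TC.Stmts

set_option autoImplicit false

namespace Pool.Agent.T6.H31.TC

open Finset

/-- one factor -/
theorem l0_factor (y : Fin 6 → ℝ) (w : Fin 6 → ℕ) (i : Fin 6) (t : ℝ) :
    hh y i * (1 - aa y i * (Complex.exp (((2 * Real.pi * t : ℝ) : ℂ) * Complex.I)) ^ w i) =
      Complex.exp (((Real.pi * (w i : ℝ) * t : ℝ) : ℂ) * Complex.I) *
        (-2 * Complex.I * ((Real.sin (Real.pi * (y i + ((w i : ℤ) : ℝ) * t)) : ℝ) : ℂ)) := by
  have h1 : ((Real.sin (Real.pi * (y i + ((w i : ℤ) : ℝ) * t)) : ℝ) : ℂ) =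
      (Complex.exp (((-(Real.pi * (y i + ((w i : ℤ) : ℝ) * t)) : ℝ) : ℂ) * Complex.I) -
        Complex.exp (((Real.pi * (y i + ((w i : ℤ) : ℝ) * t) : ℝ) : ℂ) * Complex.I)) *
          Complex.I / 2 := by
    rw [Complex.ofReal_sin, Complex.sin]
    push_cast
    ring_nf
  rw [h1, hh, aa, ← Complex.exp_nat_mul]
  have h2 : Complex.exp (((-(Real.pi * y i) : ℝ) : ℂ) * Complex.I) =
      Complex.exp (((Real.pi * (w i : ℝ) * t : ℝ) : ℂ) * Complex.I) *
        Complex.exp (((-(Real.pi * (y i + ((w i : ℤ) : ℝ) * t)) : ℝ) : ℂ) * Complex.I) := by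
    rw [← Complex.exp_add]
    congr 1
    push_cast
    ring
  have h3 : Complex.exp (((-(Real.pi * (y i + ((w i : ℤ) : ℝ) * t)) : ℝ) : ℂ) * Complex.I) *
      (Complex.exp (((2 * Real.pi * y i : ℝ) : ℂ) * Complex.I) *
        Complex.exp ((w i : ℂ) * (((2 * Real.pi * t : ℝ) : ℂ) * Complex.I))) =
      Complex.exp (((Real.pi * (y i + ((w i : ℤ) : ℝ) * t) : ℝ) : ℂ) * Complex.I) := by
    rw [← Complex.exp_add, ← Complex.exp_add]
    congr 1
    push_cast
    ring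
  rw [h2]
  have hI : Complex.I * Complex.I = -1 := Complex.I_mul_I
  linear_combination (-Complex.exp (((Real.pi * (w i : ℝ) * t : ℝ) : ℂ) * Complex.I)) * h3 +
    Complex.exp (((Real.pi * (w i : ℝ) * t : ℝ) : ℂ) * Complex.I) *
      (Complex.exp (((-(Real.pi * (y i + ((w i : ℤ) : ℝ) * t)) : ℝ) : ℂ) * Complex.I) -
        Complex.exp (((Real.pi * (y i + ((w i : ℤ) : ℝ) * t) : ℝ) : ℂ) * Complex.I)) * hI

theorem l0 : StmtL0 := by
  intro y w hw hL x
  let P : Polynomial ℂ :=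
    (Polynomial.C (hh y 0) * (1 - Polynomial.C (aa y 0) * Polynomial.X ^ w 0)) *
    (Polynomial.C (hh y 1) * (1 - Polynomial.C (aa y 1) * Polynomial.X ^ w 1)) *
    (Polynomial.C (hh y 2) * (1 - Polynomial.C (aa y 2) * Polynomial.X ^ w 2))
  let R : Polynomial ℂ :=
    (Polynomial.C (hh y 3) * (1 - Polynomial.C (aa y 3) * Polynomial.X ^ w 3)) *
    (Polynomial.C (hh y 4) * (1 - Polynomial.C (aa y 4) * Polynomial.X ^ w 4)) *
    (Polynomial.C (hh y 5) * (1 - Polynomial.C (aa y 5) * Polynomial.X ^ w 5))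
  have hP : ∀ x : ℂ, P.eval x = (hh y 0 * (1 - aa y 0 * x ^ w 0)) * (hh y 1 * (1 - aa y 1 * x ^ w 1)) *
      (hh y 2 * (1 - aa y 2 * x ^ w 2)) := by
    intro x
    simp only [P, Polynomial.eval_mul, Polynomial.eval_sub, Polynomial.eval_C, Polynomial.eval_one,
      Polynomial.eval_pow, Polynomial.eval_X]
  have hR : ∀ x : ℂ, R.eval x = (hh y 3 * (1 - aa y 3 * x ^ w 3)) * (hh y 4 * (1 - aa y 4 * x ^ w 4)) *
      (hh y 5 * (1 - aa y 5 * x ^ w 5)) := by
    intro x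
    simp only [R, Polynomial.eval_mul, Polynomial.eval_sub, Polynomial.eval_C, Polynomial.eval_one,
      Polynomial.eval_pow, Polynomial.eval_X]
  have hcirc : ∀ t : ℝ, P.eval (Complex.exp (((2 * Real.pi * t : ℝ) : ℂ) * Complex.I)) =
      R.eval (Complex.exp (((2 * Real.pi * t : ℝ) : ℂ) * Complex.I)) := by
    intro t
    rw [hP, hR]
    simp only [l0_factor]
    have h1 := hL t
    have h2 : (((Real.sin (Real.pi * (y 0 + ((w 0 : ℤ) : ℝ) * t)) : ℝ) : ℂ) *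
        ((Real.sin (Real.pi * (y 1 + ((w 1 : ℤ) : ℝ) * t)) : ℝ) : ℂ) *
        ((Real.sin (Real.pi * (y 2 + ((w 2 : ℤ) : ℝ) * t)) : ℝ) : ℂ)) =
        (((Real.sin (Real.pi * (y 3 + ((w 3 : ℤ) : ℝ) * t)) : ℝ) : ℂ) *
        ((Real.sin (Real.pi * (y 4 + ((w 4 : ℤ) : ℝ) * t)) : ℝ) : ℂ) *
        ((Real.sin (Real.pi * (y 5 + ((w 5 : ℤ) : ℝ) * t)) : ℝ) : ℂ)) := by
      rw [← Complex.ofReal_mul, ← Complex.ofReal_mul, ← Complex.ofReal_mul, ← Complex.ofReal_mul]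
      exact congrArg Complex.ofReal h1
    have h3 : Complex.exp (((Real.pi * (w 0 : ℝ) * t : ℝ) : ℂ) * Complex.I) *
        Complex.exp (((Real.pi * (w 1 : ℝ) * t : ℝ) : ℂ) * Complex.I) *
        Complex.exp (((Real.pi * (w 2 : ℝ) * t : ℝ) : ℂ) * Complex.I) =
        Complex.exp (((Real.pi * (w 3 : ℝ) * t : ℝ) : ℂ) * Complex.I) *
        Complex.exp (((Real.pi * (w 4 : ℝ) * t : ℝ) : ℂ) * Complex.I) *
        Complex.exp (((Real.pi * (w 5 : ℝ) * t : ℝ) : ℂ) * Complex.I) := by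
      rw [← Complex.exp_add, ← Complex.exp_add, ← Complex.exp_add, ← Complex.exp_add]
      congr 1
      have h4 : (w 0 : ℂ) + (w 1 : ℂ) + (w 2 : ℂ) = (w 3 : ℂ) + (w 4 : ℂ) + (w 5 : ℂ) := by
        exact_mod_cast hw
      push_cast
      linear_combination ((Real.pi : ℂ) * (t : ℂ) * Complex.I) * h4
    calc _ = (Complex.exp (((Real.pi * (w 0 : ℝ) * t : ℝ) : ℂ) * Complex.I) *
        Complex.exp (((Real.pi * (w 1 : ℝ) * t : ℝ) : ℂ) * Complex.I) *
        Complex.exp (((Real.pi * (w 2 : ℝ) * t : ℝ) : ℂ) * Complex.I)) * (-2 * Complex.I) ^ 3 *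
        (((Real.sin (Real.pi * (y 0 + ((w 0 : ℤ) : ℝ) * t)) : ℝ) : ℂ) *
        ((Real.sin (Real.pi * (y 1 + ((w 1 : ℤ) : ℝ) * t)) : ℝ) : ℂ) *
        ((Real.sin (Real.pi * (y 2 + ((w 2 : ℤ) : ℝ) * t)) : ℝ) : ℂ)) := by ring
      _ = _ := by rw [h2, h3]; ring
  have hinf : Set.Infinite {x : ℂ | P.eval x = R.eval x} := by
    refine Set.infinite_of_injective_forall_mem
      (f := fun n : ℕ => Complex.exp (((2 * Real.pi *
        (Real.arccos (1 / ((n : ℝ) + 1)) / (2 * Real.pi)) : ℝ) : ℂ) * Complex.I)) ?_ ?_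
    · intro n m hnm
      have h1 := congrArg Complex.re hnm
      simp only [Complex.exp_ofReal_mul_I_re] at h1
      have hpi : (2 * Real.pi) ≠ 0 := by positivity
      rw [mul_div_cancel₀ _ hpi, mul_div_cancel₀ _ hpi] at h1
      have hb : ∀ n : ℕ, -1 ≤ 1 / ((n : ℝ) + 1) ∧ 1 / ((n : ℝ) + 1) ≤ 1 := by
        intro n
        have h0 : (0 : ℝ) < (n : ℝ) + 1 := by positivity
        refine ⟨?_, ?_⟩
        · have : (0 : ℝ) < 1 / ((n : ℝ) + 1) := by positivity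
          linarith
        · rw [div_le_one h0]
          have : (0 : ℝ) ≤ n := Nat.cast_nonneg n
          linarith
      rw [Real.cos_arccos (hb n).1 (hb n).2, Real.cos_arccos (hb m).1 (hb m).2] at h1
      have h0 : (0 : ℝ) < (n : ℝ) + 1 := by positivity
      have h0' : (0 : ℝ) < (m : ℝ) + 1 := by positivity
      field_simp at h1
      have h2 : (m : ℝ) = n := by linarith
      exact_mod_cast h2.symm
    · intro n
      exact hcirc _
  have hPR : P = R := Polynomial.eq_of_infinite_eval_eq P R hinf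
  rw [← hP, ← hR, hPR]

end Pool.Agent.T6.H31.TC
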