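import Pool.Agent.T6.H31.TC.SB87

set_option autoImplicit false

namespace Pool.Agent.T6.H31.TC

open SB87

theorem la (_l0 : StmtL0) : ∀ w ∈ ([[0, 0, 0, 0, 0, 1], [0, 0, 0, 0, 1, 1], [0, 0, 1, 0, 0, 1],
    [0, 1, 1, 0, 1, 1], [1, 1, 1, 1, 1, 1], [0, 1, 2, 1, 1, 1], [0, 2, 2, 1, 1, 2]] : List (List ℤ)),
    LineSt w := by
  intro w hw y _ nz hl
  have n0 := nz_s nz 0
  have n1 := nz_s nz 1
  have n2 := nz_s nz 2
  have n3 := nz_s nz 3
  have n4 := nz_s nz 4
  have z0 : s 0 = 0 := s_eq_zero.mpr ⟨0, by simp⟩
  fin_cases hw
  · exfalso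
    have := line_s hl (-y 5)
    simp [z0] at this
    tauto
  · exfalso
    have := line_s hl (-y 5)
    simp [z0] at this
    tauto
  · have := line_s hl (-y 2)
    simp [z0] at this
    have h : s (y 2 - y 5) = 0 := by
      rw [s_sub_comm]
      rcases this with (h | h) | h
      · exact absurd h n3
      · exact absurd h n4
      · rw [sub_eq_add_neg]; exact h
    exact Or.inl (comm_of_s (by decide) (by decide) h)
  · have := line_s hl (-y 1)
    simp [z0] at this
    rcases this with (h | h) | h
    · exact absurd h n3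
    · exact Or.inl (comm_of_s (i := 1) (j := 4) (by decide) (by decide)
        (by rw [s_sub_comm, sub_eq_add_neg]; exact h))
    · exact Or.inl (comm_of_s (i := 1) (j := 5) (by decide) (by decide)
        (by rw [s_sub_comm, sub_eq_add_neg]; exact h))
  · have := line_s hl (-y 0)
    simp [z0] at this
    rcases this with (h | h) | h
    · exact Or.inl (comm_of_s (i := 0) (j := 3) (by decide) (by decide)
        (by rw [s_sub_comm, sub_eq_add_neg]; exact h))
    · exact Or.inl (comm_of_s (i := 0) (j := 4) (by decide) (by decide)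
        (by rw [s_sub_comm, sub_eq_add_neg]; exact h))
    · exact Or.inl (comm_of_s (i := 0) (j := 5) (by decide) (by decide)
        (by rw [s_sub_comm, sub_eq_add_neg]; exact h))
  · have := line_s hl (-y 1)
    simp [z0] at this
    rcases this with (h | h) | h
    · exact Or.inl (comm_of_s (i := 1) (j := 3) (by decide) (by decide)
        (by rw [s_sub_comm, sub_eq_add_neg]; exact h))
    · exact Or.inl (comm_of_s (i := 1) (j := 4) (by decide) (by decide)
        (by rw [s_sub_comm, sub_eq_add_neg]; exact h))
    · exact Or.inl (comm_of_s (i := 1) (j := 5) (by decide) (by decide)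
        (by rw [s_sub_comm, sub_eq_add_neg]; exact h))
  · have := line_s hl (-(y 5 / 2))
    have e : y 5 + 2 * (-(y 5 / 2)) = 0 := by ring
    have e' : (2:ℝ) * (-(y 5 / 2)) = -y 5 := by ring
    simp [z0, e'] at this
    rcases this with (h | h) | h
    · exact absurd h n0
    · exact Or.inl (comm_of_s (i := 1) (j := 5) (by decide) (by decide)
        (by rw [sub_eq_add_neg]; exact h))
    · exact Or.inl (comm_of_s (i := 2) (j := 5) (by decide) (by decide)
        (by rw [sub_eq_add_neg]; exact h))

end Pool.Agent.T6.H31.TC
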