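import Pool.Agent.T6.H31.TC.SB87

set_option autoImplicit false

namespace Pool.Agent.T6.H31.TC

open SB87

namespace LB

theorem s_ne_of {x : ℝ} (h : ¬ ∃ k : ℤ, x = k) : s x ≠ 0 := fun h' => h (s_eq_zero.mp h')

theorem not_int_div (n d : ℤ) (hd : d ≠ 0) (h : ¬ d ∣ n) : ¬ ∃ k : ℤ, (n : ℝ) / d = k := by
  rintro ⟨k, hk⟩
  apply h
  refine ⟨k, ?_⟩
  have hd' : (d : ℝ) ≠ 0 := by exact_mod_cast hd
  rw [div_eq_iff hd'] at hk
  have : n = k * d := by exact_mod_cast hk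
  rw [this, mul_comm]

theorem s_frac_ne (n d : ℤ) (x : ℝ) (hx : x = (n : ℝ) / d) (hd : d ≠ 0) (h : ¬ d ∣ n) :
    s x ≠ 0 := by
  rw [hx]; exact s_ne_of (not_int_div n d hd h)

theorem s_frac_zero (n d : ℤ) (x : ℝ) (hx : x = (n : ℝ) / d) (hd : d ≠ 0) (h : s x = 0) :
    d ∣ n := by
  by_contra hc
  exact s_frac_ne n d x hx hd hc h

/-- the eight block permutations of four positions -/
def arrs : List (Fin 4 × Fin 4 × Fin 4 × Fin 4) :=
  [(0, 1, 2, 3), (1, 0, 2, 3), (0, 1, 3, 2), (1, 0, 3, 2),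
   (2, 3, 0, 1), (2, 3, 1, 0), (3, 2, 0, 1), (3, 2, 1, 0)]

theorem arr_mem (σ : Equiv.Perm (Fin 4)) (h : Blk4 σ) : (σ 0, σ 1, σ 2, σ 3) ∈ arrs := by
  unfold Blk4 at h
  revert σ
  decide

theorem arr_of {y z : Fin 4 → ℝ} (h : Match4 y z) : ∃ a ∈ arrs,
    eqv (y 0) (z a.1) ∧ eqv (y 1) (z a.2.1) ∧ eqv (y 2) (z a.2.2.1) ∧ eqv (y 3) (z a.2.2.2) := by
  obtain ⟨σ, hσ, h⟩ := h
  exact ⟨_, arr_mem σ hσ, h 0, h 1, h 2, h 3⟩

/-- canonical representative of `± n` modulo 420 -/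
def cls (n : ℕ) : ℕ := min (n % 420) (420 - n % 420)

theorem eqv_cls (n : ℕ) : eqv ((n : ℝ) / 420) ((cls n : ℝ) / 420) := by
  obtain ⟨q, r, hr, hq⟩ : ∃ q r : ℕ, r = n % 420 ∧ n = r + 420 * q :=
    ⟨n / 420, n % 420, rfl, (Nat.mod_add_div n 420).symm⟩
  have hlt : r ≤ 420 := by rw [hr]; exact (Nat.mod_lt _ (by norm_num)).le
  have h : (n : ℝ) = (r : ℝ) + 420 * (q : ℝ) := by exact_mod_cast hq
  unfold cls
  rw [← hr, h]
  rcases min_choice r (420 - r) with h1 | h1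
  · refine ⟨q, Or.inl ?_⟩
    rw [h1]; push_cast; ring
  · refine ⟨q + 1, Or.inr ?_⟩
    rw [h1, Nat.cast_sub hlt]
    push_cast; ring

theorem cls_le (n : ℕ) : cls n ≤ 210 := by unfold cls; omega

theorem cls_eq {a b : ℕ} (ha : a ≤ 210) (hb : b ≤ 210)
    (h : eqv ((a : ℝ) / 420) ((b : ℝ) / 420)) : a = b := by
  obtain ⟨k, h | h⟩ := h
  · have h1 : (a : ℝ) = b + 420 * k := by linarith
    have h2 : (a : ℤ) = b + 420 * k := by exact_mod_cast h1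
    omega
  · have h1 : (a : ℝ) = -b + 420 * k := by linarith
    have h2 : (a : ℤ) = -b + 420 * k := by exact_mod_cast h1
    omega

theorem cls_of_eqv {n b : ℕ} (hb : b ≤ 210) (h : eqv ((b : ℝ) / 420) ((n : ℝ) / 420)) :
    cls n = b :=
  (cls_eq hb (cls_le n) (eqv_trans h (eqv_cls n))).symm

/-- entries of a multiple of a sporadic solution -/
theorem spv4_eqv (s' : ℕ × List ℕ) (hs : s' ∈ Myers) (t : ℤ) (i : Fin 4) :
    eqv (spv4 s' t i) (((t % (s'.1 : ℤ)).toNat * s'.2.getD i.val 0 * (420 / s'.1) : ℕ) / 420) := by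
  have hN : 0 < s'.1 ∧ s'.1 * (420 / s'.1) = 420 := by
    revert s'; decide
  obtain ⟨hN, h420⟩ := hN
  have hN' : (s'.1 : ℝ) ≠ 0 := by exact_mod_cast hN.ne'
  have h1 : (0:ℤ) ≤ t % (s'.1 : ℤ) := Int.emod_nonneg _ (by exact_mod_cast hN.ne')
  have h2 : ((t % (s'.1 : ℤ)).toNat : ℝ) = ((t % (s'.1 : ℤ) : ℤ) : ℝ) := by
    have : (((t % (s'.1 : ℤ)).toNat : ℤ) : ℝ) = ((t % (s'.1 : ℤ) : ℤ) : ℝ) := by
      rw [Int.toNat_of_nonneg h1]
    exact_mod_cast this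
  have h3 : (t : ℝ) = ((t % (s'.1 : ℤ) : ℤ) : ℝ) + s'.1 * ((t / (s'.1 : ℤ) : ℤ) : ℝ) := by
    have := Int.emod_add_mul_ediv t (s'.1 : ℤ)
    exact_mod_cast this.symm
  have h4 : (((420 / s'.1 : ℕ) : ℝ)) = 420 / (s'.1 : ℝ) := by
    rw [eq_div_iff hN', mul_comm]; exact_mod_cast h420
  refine ⟨(t / (s'.1 : ℤ)) * (s'.2.getD i.val 0 : ℕ), Or.inl ?_⟩
  unfold spv4
  push_cast
  rw [h2, h4, h3]
  field_simp

/-- the finite check for the direction `[0,0,2,0,1,1]` -/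
theorem check1 : ∀ s' ∈ Myers, ∀ τ < s'.1, Nat.gcd τ s'.1 = 1 → ∀ a ∈ arrs,
    cls (τ * s'.2.getD a.2.2.2.val 0 * (420 / s'.1)) = 70 →
    (cls (τ * s'.2.getD a.1.val 0 * (420 / s'.1)), cls (τ * s'.2.getD a.2.1.val 0 * (420 / s'.1)),
      cls (τ * s'.2.getD a.2.2.1.val 0 * (420 / s'.1))) ∈
      ([(28, 112, 42), (112, 28, 42), (56, 196, 126), (196, 56, 126), (42, 126, 70),
        (126, 42, 70)] : List (ℕ × ℕ × ℕ)) := by
  set_option maxRecDepth 100000 in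
  decide +kernel

/-- the finite check for the other two directions -/
theorem check2 : ∀ s' ∈ Myers, ∀ τ < s'.1, Nat.gcd τ s'.1 = 1 → ∀ a ∈ arrs,
    cls (τ * s'.2.getD a.2.2.2.val 0 * (420 / s'.1)) = 70 →
    cls (τ * s'.2.getD a.2.2.1.val 0 * (420 / s'.1)) = 70 →
    (cls (τ * s'.2.getD a.1.val 0 * (420 / s'.1)), cls (τ * s'.2.getD a.2.1.val 0 * (420 / s'.1))) ∈
      ([(42, 126), (126, 42)] : List (ℕ × ℕ)) := by
  set_option maxRecDepth 100000 in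
  decide +kernel

theorem e_sixth : (1 / 6 : ℝ) = ((70 : ℕ) : ℝ) / 420 := by norm_num

/-- the Myerson case -/
theorem myers_gen {y : Fin 4 → ℝ} (h : ∃ s' ∈ Myers, ∃ t : ℤ, IsCoprime t (s'.1 : ℤ) ∧
    Match4 y (spv4 s' t)) :
    ∃ s' ∈ Myers, ∃ τ < s'.1, Nat.gcd τ s'.1 = 1 ∧ ∃ a ∈ arrs,
      eqv (y 0) ((τ * s'.2.getD a.1.val 0 * (420 / s'.1) : ℕ) / 420) ∧
      eqv (y 1) ((τ * s'.2.getD a.2.1.val 0 * (420 / s'.1) : ℕ) / 420) ∧
      eqv (y 2) ((τ * s'.2.getD a.2.2.1.val 0 * (420 / s'.1) : ℕ) / 420) ∧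
      eqv (y 3) ((τ * s'.2.getD a.2.2.2.val 0 * (420 / s'.1) : ℕ) / 420) := by
  obtain ⟨s', hs, t, ht, hm⟩ := h
  obtain ⟨a, ha, g0, g1, g2, g3⟩ := arr_of hm
  have hN : 0 < s'.1 := by
    have : ∀ s' ∈ Myers, 0 < s'.1 := by decide
    exact this s' hs
  have hN' : (0:ℤ) < s'.1 := by exact_mod_cast hN
  set τ := (t % (s'.1 : ℤ)).toNat with hτ
  have h1 : (0:ℤ) ≤ t % (s'.1 : ℤ) := Int.emod_nonneg _ hN'.ne'
  have hτ' : (τ : ℤ) = t % (s'.1 : ℤ) := Int.toNat_of_nonneg h1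
  have hlt : τ < s'.1 := by
    have := Int.emod_lt_of_pos t hN'
    omega
  have hg : Nat.gcd τ s'.1 = 1 := by
    have h2 : IsCoprime (t % (s'.1 : ℤ)) (s'.1 : ℤ) := by
      obtain ⟨u, v, huv⟩ := ht
      refine ⟨u, v + u * (t / (s'.1 : ℤ)), ?_⟩
      have := Int.emod_add_mul_ediv t (s'.1 : ℤ)
      linear_combination huv + u * this
    rw [← hτ'] at h2
    exact Nat.isCoprime_iff_coprime.mp h2
  have e := spv4_eqv s' hs t
  exact ⟨s', hs, τ, hlt, hg, a, ha, eqv_trans g0 (e a.1), eqv_trans g1 (e a.2.1),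
    eqv_trans g2 (e a.2.2.1), eqv_trans g3 (e a.2.2.2)⟩

theorem myers_case {y : Fin 4 → ℝ} (h : ∃ s' ∈ Myers, ∃ t : ℤ, IsCoprime t (s'.1 : ℤ) ∧
    Match4 y (spv4 s' t)) (h3 : y 3 = 1 / 6) :
    ∃ a b c : ℕ, (a, b, c) ∈ ([(28, 112, 42), (112, 28, 42), (56, 196, 126), (196, 56, 126),
      (42, 126, 70), (126, 42, 70)] : List (ℕ × ℕ × ℕ)) ∧ eqv (y 0) ((a : ℝ) / 420) ∧
      eqv (y 1) ((b : ℝ) / 420) ∧ eqv (y 2) ((c : ℝ) / 420) := by
  obtain ⟨s', hs, τ, hlt, hg, a, ha, k0, k1, k2, k3⟩ := myers_gen h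
  rw [h3, e_sixth] at k3
  have c3 := cls_of_eqv (by norm_num) k3
  have := check1 s' hs τ hlt hg a ha c3
  exact ⟨_, _, _, this, eqv_trans k0 (eqv_cls _), eqv_trans k1 (eqv_cls _),
    eqv_trans k2 (eqv_cls _)⟩

theorem myers_case2 {y : Fin 4 → ℝ} (h : ∃ s' ∈ Myers, ∃ t : ℤ, IsCoprime t (s'.1 : ℤ) ∧
    Match4 y (spv4 s' t)) (h2 : y 2 = 1 / 6) (h3 : y 3 = 1 / 6) :
    ∃ a b : ℕ, (a, b) ∈ ([(42, 126), (126, 42)] : List (ℕ × ℕ)) ∧ eqv (y 0) ((a : ℝ) / 420) ∧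
      eqv (y 1) ((b : ℝ) / 420) := by
  obtain ⟨s', hs, τ, hlt, hg, a, ha, k0, k1, k2, k3⟩ := myers_gen h
  rw [h3, e_sixth] at k3
  rw [h2, e_sixth] at k2
  have c3 := cls_of_eqv (by norm_num) k3
  have c2 := cls_of_eqv (by norm_num) k2
  have := check2 s' hs τ hlt hg a ha c3 c2
  exact ⟨_, _, this, eqv_trans k0 (eqv_cls _), eqv_trans k1 (eqv_cls _)⟩

theorem s_half_one : s (1 / 2) = 1 := by
  unfold s; rw [show Real.pi * (1 / 2) = Real.pi / 2 by ring, Real.sin_pi_div_two, abs_one]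

theorem sI (k : ℤ) : s (k : ℝ) = 0 := s_eq_zero.mpr ⟨k, rfl⟩

/-- apply the two-sine classification -/
theorem use_m2 (m2 : StmtM2) (a b c d : ℝ) (ha : ∃ q : ℚ, a = q) (hb : ∃ q : ℚ, b = q)
    (hc : ∃ q : ℚ, c = q) (hd : ∃ q : ℚ, d = q) (na : s a ≠ 0) (nb : s b ≠ 0) (nc : s c ≠ 0)
    (nd : s d ≠ 0) (h : s a * s b = s c * s d) : M2L ![a, b, c, d] := by
  apply m2
  · intro i; fin_cases i
    · exact ha
    · exact hb
    · exact hc
    · exact hd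
  · intro i; fin_cases i
    · exact abs_ne_zero.mp na
    · exact abs_ne_zero.mp nb
    · exact abs_ne_zero.mp nc
    · exact abs_ne_zero.mp nd
  · show |Real.sin (Real.pi * a) * Real.sin (Real.pi * b)| =
      |Real.sin (Real.pi * c) * Real.sin (Real.pi * d)|
    rw [abs_mul, abs_mul]; exact h

theorem mem_arrs {P : Fin 4 × Fin 4 × Fin 4 × Fin 4 → Prop} (h : ∃ a ∈ arrs, P a) :
    P (0, 1, 2, 3) ∨ P (1, 0, 2, 3) ∨ P (0, 1, 3, 2) ∨ P (1, 0, 3, 2) ∨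
    P (2, 3, 0, 1) ∨ P (2, 3, 1, 0) ∨ P (3, 2, 0, 1) ∨ P (3, 2, 1, 0) := by
  obtain ⟨a, ha, h⟩ := h
  simp only [arrs, List.mem_cons, List.not_mem_nil, or_false] at ha
  rcases ha with rfl | rfl | rfl | rfl | rfl | rfl | rfl | rfl <;> tauto

theorem twop_of_sixth {p : ℝ} (h : eqv (1 / 6) (2 * p)) :
    (eqv p (5 / 60) ∧ eqv (p + 1 / 2) (25 / 60)) ∨ (eqv p (25 / 60) ∧ eqv (p + 1 / 2) (5 / 60)) := by
  obtain ⟨k, h⟩ := h
  obtain ⟨j, hj | hj⟩ : ∃ j : ℤ, k = 2 * j ∨ k = 2 * j + 1 := ⟨k / 2, by omega⟩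
  · have hk : (k : ℝ) = 2 * j := by exact_mod_cast hj
    rcases h with h | h
    · exact Or.inl ⟨⟨-j, Or.inl (by push_cast; linarith)⟩, ⟨1 - j, Or.inr (by push_cast; linarith)⟩⟩
    · exact Or.inl ⟨⟨j, Or.inr (by linarith)⟩, ⟨j, Or.inl (by linarith)⟩⟩
  · have hk : (k : ℝ) = 2 * j + 1 := by exact_mod_cast hj
    rcases h with h | h
    · exact Or.inr ⟨⟨-j, Or.inr (by push_cast; linarith)⟩, ⟨-j, Or.inl (by push_cast; linarith)⟩⟩
    · exact Or.inr ⟨⟨j, Or.inl (by linarith)⟩, ⟨j + 1, Or.inr (by push_cast; linarith)⟩⟩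

theorem sixth_half {p : ℝ} (h : eqv (1 / 6) p) (h' : eqv (1 / 6) (p + 1 / 2)) : False := by
  obtain ⟨k, h⟩ := h
  obtain ⟨l, h'⟩ := h'
  rcases h with h | h <;> rcases h' with h' | h'
  · have : (0:ℝ) = 6 * k - 6 * l - 3 := by linarith
    have : (0:ℤ) = 6 * k - 6 * l - 3 := by exact_mod_cast this
    omega
  · have : (0:ℝ) = 6 * k + 6 * l - 5 := by linarith
    have : (0:ℤ) = 6 * k + 6 * l - 5 := by exact_mod_cast this
    omega
  · have : (0:ℝ) = 6 * k + 6 * l + 1 := by linarith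
    have : (0:ℤ) = 6 * k + 6 * l + 1 := by exact_mod_cast this
    omega
  · have : (0:ℝ) = 6 * k - 6 * l + 3 := by linarith
    have : (0:ℤ) = 6 * k - 6 * l + 3 := by exact_mod_cast this
    omega

/-- product `1 / 4` -/
theorem quarter (m2 : StmtM2) (a b : ℝ) (ha : ∃ q : ℚ, a = q) (hb : ∃ q : ℚ, b = q)
    (na : s a ≠ 0) (nb : s b ≠ 0) (h : s a * s b = 1 / 4) :
    ∃ u v : ℤ, (u, v) ∈ ([(10, 10), (5, 25), (6, 18)] : List (ℤ × ℤ)) ∧
      ((eqv a ((u : ℝ) / 60) ∧ eqv b ((v : ℝ) / 60)) ∨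
        (eqv a ((v : ℝ) / 60) ∧ eqv b ((u : ℝ) / 60))) := by
  have s6 : s (1 / 6) ≠ 0 := by rw [s_sixth]; norm_num
  have q6 : ∃ q : ℚ, (1 / 6 : ℝ) = q := ⟨1 / 6, by norm_num⟩
  have M := use_m2 m2 a b (1 / 6) (1 / 6) ha hb q6 q6 na nb s6 s6
    (by rw [h, s_sixth]; norm_num)
  have e10 : (((10 : ℤ) : ℝ) / 60) = 1 / 6 := by norm_num
  rcases M with ⟨p, q, hm⟩ | ⟨p, hm⟩ | hm
  · have key : eqv a (1 / 6) ∧ eqv b (1 / 6) := by
      have := mem_arrs (arr_of hm)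
      simp only [Matrix.cons_val_zero, Matrix.cons_val_one, Matrix.cons_val] at this
      rcases this with ⟨g0, g1, g2, g3⟩ | ⟨g0, g1, g2, g3⟩ | ⟨g0, g1, g2, g3⟩ | ⟨g0, g1, g2, g3⟩ |
        ⟨g0, g1, g2, g3⟩ | ⟨g0, g1, g2, g3⟩ | ⟨g0, g1, g2, g3⟩ | ⟨g0, g1, g2, g3⟩ <;>
      first
        | exact ⟨eqv_trans g0 (eqv_symm g2), eqv_trans g1 (eqv_symm g3)⟩
        | exact ⟨eqv_trans g0 (eqv_symm g3), eqv_trans g1 (eqv_symm g2)⟩
    refine ⟨10, 10, by simp, Or.inl ?_⟩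
    rw [e10]; exact key
  · have this := mem_arrs (arr_of hm)
    simp only [Matrix.cons_val_zero, Matrix.cons_val_one, Matrix.cons_val] at this
    have key : eqv (1 / 6) (2 * p) ∧ ((eqv a p ∧ eqv b (p + 1 / 2)) ∨
        (eqv b p ∧ eqv a (p + 1 / 2))) := by
      rcases this with ⟨g0, g1, g2, g3⟩ | ⟨g0, g1, g2, g3⟩ | ⟨g0, g1, g2, g3⟩ | ⟨g0, g1, g2, g3⟩ |
        ⟨g0, g1, g2, g3⟩ | ⟨g0, g1, g2, g3⟩ | ⟨g0, g1, g2, g3⟩ | ⟨g0, g1, g2, g3⟩
      · exact ⟨g2, Or.inl ⟨g0, g1⟩⟩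
      · exact ⟨g2, Or.inr ⟨g1, g0⟩⟩
      · exact ⟨g3, Or.inl ⟨g0, g1⟩⟩
      · exact ⟨g3, Or.inr ⟨g1, g0⟩⟩
      · exact (sixth_half g2 g3).elim
      · exact (sixth_half g3 g2).elim
      · exact (sixth_half g2 g3).elim
      · exact (sixth_half g3 g2).elim
    obtain ⟨h2, hab⟩ := key
    refine ⟨5, 25, by simp, ?_⟩
    have t := twop_of_sixth h2
    push_cast
    rcases t with ⟨t1, t2⟩ | ⟨t1, t2⟩ <;> rcases hab with ⟨g, g'⟩ | ⟨g, g'⟩
    · exact Or.inl ⟨eqv_trans g t1, eqv_trans g' t2⟩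
    · exact Or.inr ⟨eqv_trans g' t2, eqv_trans g t1⟩
    · exact Or.inr ⟨eqv_trans g t1, eqv_trans g' t2⟩
    · exact Or.inl ⟨eqv_trans g' t2, eqv_trans g t1⟩
  · obtain ⟨u, v, huv, g0, g1⟩ := myers_case2 hm rfl rfl
    refine ⟨6, 18, by simp, ?_⟩
    have e6 : (((6 : ℤ) : ℝ) / 60) = ((42 : ℕ) : ℝ) / 420 := by norm_num
    have e18 : (((18 : ℤ) : ℝ) / 60) = ((126 : ℕ) : ℝ) / 420 := by norm_num
    rw [e6, e18]
    simp only [List.mem_cons, List.not_mem_nil, or_false, Prod.mk.injEq] at huv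
    rcases huv with ⟨rfl, rfl⟩ | ⟨rfl, rfl⟩
    · exact Or.inl ⟨g0, g1⟩
    · exact Or.inr ⟨g0, g1⟩

theorem fam_mk {y : Fin 6 → ℝ} (f : List (ℤ × ℤ)) (hf : f ∈ Fams) (p : ℝ)
    (σ : Equiv.Perm (Fin 6)) (hσ : Blk σ) (h : ∀ i, eqv (y i) (famv f p (σ i))) : T1 y :=
  Or.inr (Or.inl ⟨f, hf, p, σ, hσ, h⟩)

/-- families with constants on positions 0, 1 -/
theorem fam_01 {y : Fin 6 → ℝ} (a b : ℤ) (r2 r3 r4 r5 : ℤ × ℤ) (p : ℝ)
    (hf : [(0, a), (0, b), r2, r3, r4, r5] ∈ Fams)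
    (h01 : (eqv (y 0) ((a : ℝ) / 60) ∧ eqv (y 1) ((b : ℝ) / 60)) ∨
      (eqv (y 0) ((b : ℝ) / 60) ∧ eqv (y 1) ((a : ℝ) / 60)))
    (h2 : eqv (y 2) (r2.1 * p + r2.2 / 60)) (h3 : eqv (y 3) (r3.1 * p + r3.2 / 60))
    (h4 : eqv (y 4) (r4.1 * p + r4.2 / 60)) (h5 : eqv (y 5) (r5.1 * p + r5.2 / 60)) : T1 y := by
  rcases h01 with ⟨h0, h1⟩ | ⟨h0, h1⟩
  · refine fam_mk _ hf p 1 (Or.inl (by decide)) ?_
    intro i
    fin_cases i
    · simpa [famv] using h0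
    · simpa [famv] using h1
    · simpa [famv] using h2
    · simpa [famv] using h3
    · simpa [famv] using h4
    · simpa [famv] using h5
  · refine fam_mk _ hf p (Equiv.swap 0 1) (Or.inl (by decide)) ?_
    intro i
    fin_cases i
    · simpa [famv, Equiv.swap_apply_def] using h0
    · simpa [famv, Equiv.swap_apply_def] using h1
    · simpa [famv, Equiv.swap_apply_def] using h2
    · simpa [famv, Equiv.swap_apply_def] using h3
    · simpa [famv, Equiv.swap_apply_def] using h4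
    · simpa [famv, Equiv.swap_apply_def] using h5

theorem lb3 (m2 : StmtM2) : LineSt [0, 0, 4, 1, 1, 2] := by
  intro y hr nz hl
  right
  have n0 := nz_s nz 0
  have n1 := nz_s nz 1
  have n01 : s (y 0) * s (y 1) ≠ 0 := mul_ne_zero n0 n1
  have z0 : s 0 = 0 := s_eq_zero.mpr ⟨0, by simp⟩
  have L : ∀ t : ℝ, s (y 0) * s (y 1) * s (y 2 + 4 * t) =
      s (y 3 + t) * s (y 4 + t) * s (y 5 + 2 * t) := by
    intro t; have := line_s hl t; simpa using this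
  obtain ⟨k2, hk2⟩ : ∃ k : ℤ, y 2 - 4 * y 3 = k := by
    have h := L (-y 3)
    rw [show y 3 + -y 3 = 0 by ring, z0, zero_mul, zero_mul] at h
    obtain ⟨k, hk⟩ := s_eq_zero.mp ((mul_eq_zero.mp h).resolve_left n01)
    exact ⟨k, by linarith⟩
  obtain ⟨k4, hk4⟩ : ∃ k : ℤ, y 2 - 4 * y 4 = k := by
    have h := L (-y 4)
    rw [show y 4 + -y 4 = 0 by ring, z0, mul_zero, zero_mul] at h
    obtain ⟨k, hk⟩ := s_eq_zero.mp ((mul_eq_zero.mp h).resolve_left n01)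
    exact ⟨k, by linarith⟩
  obtain ⟨k5, hk5⟩ : ∃ k : ℤ, y 2 - 2 * y 5 = k := by
    have h := L (-(y 5 / 2))
    rw [show y 5 + 2 * -(y 5 / 2) = 0 by ring, z0, mul_zero] at h
    obtain ⟨k, hk⟩ := s_eq_zero.mp ((mul_eq_zero.mp h).resolve_left n01)
    exact ⟨k, by linarith⟩
  obtain ⟨m, hm⟩ : ∃ m : ℤ, y 4 = y 3 + m / 4 := ⟨k2 - k4, by push_cast; linarith⟩
  obtain ⟨n, hn⟩ : ∃ n : ℤ, y 5 = 2 * y 3 + n / 2 := ⟨k2 - k5, by push_cast; linarith⟩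
  have L2 : ∀ u : ℝ, s (y 0) * s (y 1) * s (4 * u) = s u * s (u + m / 4) * s (2 * u + n / 2) := by
    intro u
    have h := L (u - y 3)
    rw [show y 2 + 4 * (u - y 3) = 4 * u + k2 by rw [← hk2]; ring, s_add_int,
      show y 3 + (u - y 3) = u by ring, show y 4 + (u - y 3) = u + m / 4 by rw [hm]; ring,
      show y 5 + 2 * (u - y 3) = 2 * u + n / 2 by rw [hn]; ring] at h
    exact h
  have Z : ∀ j : ℤ, ¬ (4 : ℤ) ∣ j → (4 : ℤ) ∣ j + m ∨ (2 : ℤ) ∣ j + n := by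
    intro j hj
    have h := L2 ((j : ℝ) / 4)
    rw [show 4 * ((j : ℝ) / 4) = j by ring, sI, mul_zero] at h
    have h1 : s ((j : ℝ) / 4) ≠ 0 := s_frac_ne j 4 _ (by norm_num) (by norm_num) hj
    rcases mul_eq_zero.mp h.symm with h | h
    · have h := (mul_eq_zero.mp h).resolve_left h1
      exact Or.inl (s_frac_zero (j + m) 4 _ (by push_cast; ring) (by norm_num) h)
    · exact Or.inr (s_frac_zero (j + n) 2 _ (by push_cast; ring) (by norm_num) h)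
  have z1 := Z 1 (by norm_num)
  have z2 := Z 2 (by norm_num)
  have z3 := Z 3 (by norm_num)
  obtain ⟨a, ha⟩ : ∃ a : ℤ, n = 2 * a + 1 := ⟨n / 2, by omega⟩
  obtain ⟨b, hb⟩ : ∃ b : ℤ, m = 4 * b + 2 := ⟨m / 4, by omega⟩
  have ha' : (n : ℝ) = 2 * a + 1 := by exact_mod_cast ha
  have hb' : (m : ℝ) = 4 * b + 2 := by exact_mod_cast hb
  have hq : s (y 0) * s (y 1) = 1 / 4 := by
    have h := L2 (1 / 8)
    have e1 : s (4 * (1 / 8)) = 1 := (s_congr 0 (by norm_num)).trans s_half_one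
    have e2 : s (1 / 8 + m / 4) = s (1 / 8 + 1 / 2) := s_congr b (by rw [hb']; ring)
    have e3 : s (2 * (1 / 8) + n / 2) = s (1 / 4 + 1 / 2) := s_congr a (by rw [ha']; ring)
    have e4 := s_half (1 / 8)
    have e5 := s_half (1 / 4)
    rw [show (2 : ℝ) * (1 / 8) = 1 / 4 by norm_num] at e4
    rw [show (2 : ℝ) * (1 / 4) = 1 / 2 by norm_num, s_half_one] at e5
    rw [e1, e2, e3, e4] at h
    linarith
  obtain ⟨u, v, huv, h01⟩ := quarter m2 (y 0) (y 1) (hr 0) (hr 1) n0 n1 hq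
  have g2 : eqv (y 2) (((4 : ℤ) : ℝ) * y 3 + ((0 : ℤ) : ℝ) / 60) :=
    ⟨k2, Or.inl (by push_cast; linarith)⟩
  have g3 : eqv (y 3) (((1 : ℤ) : ℝ) * y 3 + ((0 : ℤ) : ℝ) / 60) :=
    ⟨0, Or.inl (by push_cast; ring)⟩
  have g4 : eqv (y 4) (((1 : ℤ) : ℝ) * y 3 + ((30 : ℤ) : ℝ) / 60) :=
    ⟨b, Or.inl (by rw [hm, hb']; push_cast; ring)⟩
  have g5 : eqv (y 5) (((2 : ℤ) : ℝ) * y 3 + ((30 : ℤ) : ℝ) / 60) :=
    ⟨a, Or.inl (by rw [hn, ha']; push_cast; ring)⟩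
  simp only [List.mem_cons, List.not_mem_nil, or_false, Prod.mk.injEq] at huv
  rcases huv with ⟨rfl, rfl⟩ | ⟨rfl, rfl⟩ | ⟨rfl, rfl⟩
  · exact fam_01 10 10 (4, 0) (1, 0) (1, 30) (2, 30) (y 3) (by simp [Fams]) h01 g2 g3 g4 g5
  · exact fam_01 5 25 (4, 0) (1, 0) (1, 30) (2, 30) (y 3) (by simp [Fams]) h01 g2 g3 g4 g5
  · exact fam_01 6 18 (4, 0) (1, 0) (1, 30) (2, 30) (y 3) (by simp [Fams]) h01 g2 g3 g4 g5

theorem lb2 (m2 : StmtM2) : LineSt [0, 0, 3, 1, 1, 1] := by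
  intro y hr nz hl
  right
  have n0 := nz_s nz 0
  have n1 := nz_s nz 1
  have n01 : s (y 0) * s (y 1) ≠ 0 := mul_ne_zero n0 n1
  have z0 : s 0 = 0 := s_eq_zero.mpr ⟨0, by simp⟩
  have L : ∀ t : ℝ, s (y 0) * s (y 1) * s (y 2 + 3 * t) =
      s (y 3 + t) * s (y 4 + t) * s (y 5 + t) := by
    intro t; have := line_s hl t; simpa using this
  obtain ⟨k2, hk2⟩ : ∃ k : ℤ, y 2 - 3 * y 3 = k := by
    have h := L (-y 3)
    rw [show y 3 + -y 3 = 0 by ring, z0, zero_mul, zero_mul] at h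
    obtain ⟨k, hk⟩ := s_eq_zero.mp ((mul_eq_zero.mp h).resolve_left n01)
    exact ⟨k, by linarith⟩
  obtain ⟨k4, hk4⟩ : ∃ k : ℤ, y 2 - 3 * y 4 = k := by
    have h := L (-y 4)
    rw [show y 4 + -y 4 = 0 by ring, z0, mul_zero, zero_mul] at h
    obtain ⟨k, hk⟩ := s_eq_zero.mp ((mul_eq_zero.mp h).resolve_left n01)
    exact ⟨k, by linarith⟩
  obtain ⟨k5, hk5⟩ : ∃ k : ℤ, y 2 - 3 * y 5 = k := by
    have h := L (-y 5)
    rw [show y 5 + -y 5 = 0 by ring, z0, mul_zero] at h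
    obtain ⟨k, hk⟩ := s_eq_zero.mp ((mul_eq_zero.mp h).resolve_left n01)
    exact ⟨k, by linarith⟩
  obtain ⟨m, hm⟩ : ∃ m : ℤ, y 4 = y 3 + m / 3 := ⟨k2 - k4, by push_cast; linarith⟩
  obtain ⟨n, hn⟩ : ∃ n : ℤ, y 5 = y 3 + n / 3 := ⟨k2 - k5, by push_cast; linarith⟩
  have L2 : ∀ u : ℝ, s (y 0) * s (y 1) * s (3 * u) = s u * s (u + m / 3) * s (u + n / 3) := by
    intro u
    have h := L (u - y 3)
    rw [show y 2 + 3 * (u - y 3) = 3 * u + k2 by rw [← hk2]; ring, s_add_int,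
      show y 3 + (u - y 3) = u by ring, show y 4 + (u - y 3) = u + m / 3 by rw [hm]; ring,
      show y 5 + (u - y 3) = u + n / 3 by rw [hn]; ring] at h
    exact h
  have Z : ∀ j : ℤ, ¬ (3 : ℤ) ∣ j → (3 : ℤ) ∣ j + m ∨ (3 : ℤ) ∣ j + n := by
    intro j hj
    have h := L2 ((j : ℝ) / 3)
    rw [show 3 * ((j : ℝ) / 3) = j by ring, sI, mul_zero] at h
    have h1 : s ((j : ℝ) / 3) ≠ 0 := s_frac_ne j 3 _ (by norm_num) (by norm_num) hj
    rcases mul_eq_zero.mp h.symm with h | h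
    · have h := (mul_eq_zero.mp h).resolve_left h1
      exact Or.inl (s_frac_zero (j + m) 3 _ (by push_cast; ring) (by norm_num) h)
    · exact Or.inr (s_frac_zero (j + n) 3 _ (by push_cast; ring) (by norm_num) h)
  have z1 := Z 1 (by norm_num)
  have z2 := Z 2 (by norm_num)
  have key : ((∃ a : ℤ, m = 3 * a + 1) ∧ ∃ b : ℤ, n = 3 * b + 2) ∨
      ((∃ a : ℤ, m = 3 * a + 2) ∧ ∃ b : ℤ, n = 3 * b + 1) := by
    have h : (m % 3 = 1 ∧ n % 3 = 2) ∨ (m % 3 = 2 ∧ n % 3 = 1) := by omega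
    rcases h with ⟨h1, h2⟩ | ⟨h1, h2⟩
    · exact Or.inl ⟨⟨m / 3, by omega⟩, ⟨n / 3, by omega⟩⟩
    · exact Or.inr ⟨⟨m / 3, by omega⟩, ⟨n / 3, by omega⟩⟩
  have e6 : s (3 * (1 / 6)) = 1 := (s_congr 0 (by norm_num)).trans s_half_one
  have t6 := s_third (1 / 6)
  have hq : s (y 0) * s (y 1) = 1 / 4 := by
    have h := L2 (1 / 6)
    rcases key with ⟨⟨a, ha⟩, ⟨b, hb⟩⟩ | ⟨⟨a, ha⟩, ⟨b, hb⟩⟩
    · have ha' : (m : ℝ) = 3 * a + 1 := by exact_mod_cast ha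
      have hb' : (n : ℝ) = 3 * b + 2 := by exact_mod_cast hb
      have e2 : s (1 / 6 + m / 3) = s (1 / 6 + 1 / 3) := s_congr a (by rw [ha']; ring)
      have e3 : s (1 / 6 + n / 3) = s (1 / 6 + 2 / 3) := s_congr b (by rw [hb']; ring)
      rw [e6, e2, e3, t6, e6] at h
      linarith
    · have ha' : (m : ℝ) = 3 * a + 2 := by exact_mod_cast ha
      have hb' : (n : ℝ) = 3 * b + 1 := by exact_mod_cast hb
      have e2 : s (1 / 6 + m / 3) = s (1 / 6 + 2 / 3) := s_congr a (by rw [ha']; ring)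
      have e3 : s (1 / 6 + n / 3) = s (1 / 6 + 1 / 3) := s_congr b (by rw [hb']; ring)
      rw [e6, e2, e3, mul_right_comm (s (1 / 6)), t6, e6] at h
      linarith
  obtain ⟨u, v, huv, h01⟩ := quarter m2 (y 0) (y 1) (hr 0) (hr 1) n0 n1 hq
  have g2 : eqv (y 2) (3 * y 3) := ⟨k2, Or.inl (by linarith)⟩
  -- `{y 4, y 5} = {y 3 + 1/3, y 3 + 2/3}`
  have fin : ∀ (i j : Fin 6), ((i = 4 ∧ j = 5) ∨ (i = 5 ∧ j = 4)) → eqv (y i) (y 3 + 20 / 60) →
      eqv (y j) (y 3 + 40 / 60) → T1 y := by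
    intro i j hij gi gj
    have hf : [(0, u), (0, v), (3, 0), (1, 0), (1, 20), (1, 40)] ∈ Fams := by
      simp only [List.mem_cons, List.not_mem_nil, or_false, Prod.mk.injEq] at huv
      rcases huv with ⟨rfl, rfl⟩ | ⟨rfl, rfl⟩ | ⟨rfl, rfl⟩ <;> simp [Fams]
    have hσ : ∀ σ : Equiv.Perm (Fin 6), (∀ i, eqv (y i)
        (famv [(0, u), (0, v), (3, 0), (1, 0), (1, 20), (1, 40)] (y 3) (σ i))) → Blk σ → T1 y :=
      fun σ h hb => fam_mk _ hf (y 3) σ hb h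
    rcases hij with ⟨rfl, rfl⟩ | ⟨rfl, rfl⟩ <;> rcases h01 with ⟨h0, h1⟩ | ⟨h0, h1⟩
    · refine hσ 1 ?_ (Or.inl (by decide))
      intro i
      fin_cases i
      · simpa [famv] using h0
      · simpa [famv] using h1
      · simpa [famv] using g2
      · simpa [famv] using eqv_refl (y 3)
      · simpa [famv] using gi
      · simpa [famv] using gj
    · refine hσ (Equiv.swap 0 1) ?_ (Or.inl (by decide))
      intro i
      fin_cases i
      · simpa [famv, Equiv.swap_apply_def] using h0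
      · simpa [famv, Equiv.swap_apply_def] using h1
      · simpa [famv, Equiv.swap_apply_def] using g2
      · simpa [famv, Equiv.swap_apply_def] using eqv_refl (y 3)
      · simpa [famv, Equiv.swap_apply_def] using gi
      · simpa [famv, Equiv.swap_apply_def] using gj
    · refine hσ (Equiv.swap 4 5) ?_ (Or.inl (by decide))
      intro i
      fin_cases i
      · simpa [famv, Equiv.swap_apply_def] using h0
      · simpa [famv, Equiv.swap_apply_def] using h1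
      · simpa [famv, Equiv.swap_apply_def] using g2
      · simpa [famv, Equiv.swap_apply_def] using eqv_refl (y 3)
      · simpa [famv, Equiv.swap_apply_def] using gj
      · simpa [famv, Equiv.swap_apply_def] using gi
    · refine hσ (Equiv.swap 0 1 * Equiv.swap 4 5) ?_ (Or.inl (by decide))
      intro i
      fin_cases i
      · simpa [famv, Equiv.swap_apply_def] using h0
      · simpa [famv, Equiv.swap_apply_def] using h1
      · simpa [famv, Equiv.swap_apply_def] using g2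
      · simpa [famv, Equiv.swap_apply_def] using eqv_refl (y 3)
      · simpa [famv, Equiv.swap_apply_def] using gj
      · simpa [famv, Equiv.swap_apply_def] using gi
  rcases key with ⟨⟨a, ha⟩, ⟨b, hb⟩⟩ | ⟨⟨a, ha⟩, ⟨b, hb⟩⟩
  · have ha' : (m : ℝ) = 3 * a + 1 := by exact_mod_cast ha
    have hb' : (n : ℝ) = 3 * b + 2 := by exact_mod_cast hb
    exact fin 4 5 (Or.inl ⟨rfl, rfl⟩) ⟨a, Or.inl (by rw [hm, ha']; ring)⟩
      ⟨b, Or.inl (by rw [hn, hb']; ring)⟩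
  · have ha' : (m : ℝ) = 3 * a + 2 := by exact_mod_cast ha
    have hb' : (n : ℝ) = 3 * b + 1 := by exact_mod_cast hb
    exact fin 5 4 (Or.inr ⟨rfl, rfl⟩) ⟨b, Or.inl (by rw [hn, hb']; ring)⟩
      ⟨a, Or.inl (by rw [hm, ha']; ring)⟩

/-- the possibilities for the pair and the third entry -/
theorem bcase {a b c p : ℝ} (h : Match4 ![a, b, c, 1 / 6] ![p, p + 1 / 2, 2 * p, 1 / 6]) :
    (eqv c (2 * p) ∧ ((eqv a p ∧ eqv b (p + 1 / 2)) ∨ (eqv b p ∧ eqv a (p + 1 / 2)))) ∨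
    eqv a c ∨ eqv b c := by
  have this := mem_arrs (arr_of h)
  simp only [Matrix.cons_val_zero, Matrix.cons_val_one, Matrix.cons_val] at this
  have A : eqv (1 / 6) (p + 1 / 2) → eqv (2 * p) p := by
    rintro ⟨k, h | h⟩
    · exact ⟨-1 - 3 * k, Or.inr (by push_cast; linarith)⟩
    · exact ⟨-2 + 3 * k, Or.inr (by push_cast; linarith)⟩
  have B : eqv (1 / 6) p → eqv (2 * p) (p + 1 / 2) := by
    rintro ⟨k, h | h⟩
    · exact ⟨1 - 3 * k, Or.inr (by push_cast; linarith)⟩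
    · exact ⟨3 * k, Or.inr (by push_cast; linarith)⟩
  rcases this with ⟨g0, g1, g2, g3⟩ | ⟨g0, g1, g2, g3⟩ | ⟨g0, g1, g2, g3⟩ | ⟨g0, g1, g2, g3⟩ |
    ⟨g0, g1, g2, g3⟩ | ⟨g0, g1, g2, g3⟩ | ⟨g0, g1, g2, g3⟩ | ⟨g0, g1, g2, g3⟩
  · exact Or.inl ⟨g2, Or.inl ⟨g0, g1⟩⟩
  · exact Or.inl ⟨g2, Or.inr ⟨g1, g0⟩⟩
  · exact Or.inl ⟨eqv_trans g2 g3, Or.inl ⟨g0, g1⟩⟩
  · exact Or.inl ⟨eqv_trans g2 g3, Or.inr ⟨g1, g0⟩⟩
  · exact Or.inr (Or.inl (eqv_trans (eqv_trans g0 (A g3)) (eqv_symm g2)))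
  · exact Or.inr (Or.inl (eqv_trans (eqv_trans g0 (B g3)) (eqv_symm g2)))
  · exact Or.inr (Or.inr (eqv_trans (eqv_trans g1 (A g3)) (eqv_symm g2)))
  · exact Or.inr (Or.inr (eqv_trans (eqv_trans g1 (B g3)) (eqv_symm g2)))

theorem lb1 (m2 : StmtM2) : LineSt [0, 0, 2, 0, 1, 1] := by
  intro y hr nz hl
  have n0 := nz_s nz 0
  have n1 := nz_s nz 1
  have n3 := nz_s nz 3
  have n01 : s (y 0) * s (y 1) ≠ 0 := mul_ne_zero n0 n1
  have z0 : s 0 = 0 := s_eq_zero.mpr ⟨0, by simp⟩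
  have L : ∀ t : ℝ, s (y 0) * s (y 1) * s (y 2 + 2 * t) =
      s (y 3) * s (y 4 + t) * s (y 5 + t) := by
    intro t; have := line_s hl t; simpa using this
  obtain ⟨k4, hk4⟩ : ∃ k : ℤ, y 2 - 2 * y 4 = k := by
    have h := L (-y 4)
    rw [show y 4 + -y 4 = 0 by ring, z0, mul_zero, zero_mul] at h
    obtain ⟨k, hk⟩ := s_eq_zero.mp ((mul_eq_zero.mp h).resolve_left n01)
    exact ⟨k, by linarith⟩
  obtain ⟨k5, hk5⟩ : ∃ k : ℤ, y 2 - 2 * y 5 = k := by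
    have h := L (-y 5)
    rw [show y 5 + -y 5 = 0 by ring, z0, mul_zero] at h
    obtain ⟨k, hk⟩ := s_eq_zero.mp ((mul_eq_zero.mp h).resolve_left n01)
    exact ⟨k, by linarith⟩
  obtain ⟨m, hm⟩ : ∃ m : ℤ, y 5 = y 4 + m / 2 := ⟨k4 - k5, by push_cast; linarith⟩
  have L2 : ∀ u : ℝ, s (y 0) * s (y 1) * s (2 * u) = s (y 3) * s u * s (u + m / 2) := by
    intro u
    have h := L (u - y 4)
    rw [show y 2 + 2 * (u - y 4) = 2 * u + k4 by rw [← hk4]; ring, s_add_int,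
      show y 4 + (u - y 4) = u by ring, show y 5 + (u - y 4) = u + m / 2 by rw [hm]; ring] at h
    exact h
  obtain ⟨a, ha⟩ : ∃ a : ℤ, m = 2 * a + 1 := by
    have h := L2 (1 / 2)
    have e1 : s (2 * (1 / 2)) = 0 := s_eq_zero.mpr ⟨1, by norm_num⟩
    rw [e1, mul_zero, s_half_one, mul_one] at h
    have h := (mul_eq_zero.mp h.symm).resolve_left n3
    have := s_frac_zero (1 + m) 2 _ (by push_cast; ring) (by norm_num) h
    exact ⟨m / 2, by omega⟩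
  have ha' : (m : ℝ) = 2 * a + 1 := by exact_mod_cast ha
  have hq : s (y 0) * s (y 1) = s (y 3) * s (1 / 6) := by
    have h := L2 (1 / 4)
    have e1 : s (2 * (1 / 4)) = 1 := (s_congr 0 (by norm_num)).trans s_half_one
    have e2 : s (1 / 4 + m / 2) = s (1 / 4 + 1 / 2) := s_congr a (by rw [ha']; ring)
    have e5 := s_half (1 / 4)
    rw [e1] at e5
    rw [e1, e2, mul_assoc (s (y 3)), e5] at h
    rw [s_sixth]; linarith
  have s6 : s (1 / 6) ≠ 0 := by rw [s_sixth]; norm_num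
  have q6 : ∃ q : ℚ, (1 / 6 : ℝ) = q := ⟨1 / 6, by norm_num⟩
  have M := use_m2 m2 (y 0) (y 1) (y 3) (1 / 6) (hr 0) (hr 1) (hr 3) q6 n0 n1 n3 s6 hq
  have g2 : eqv (y 2) (2 * y 4) := ⟨k4, Or.inl (by linarith)⟩
  have g5 : eqv (y 5) (y 4 + 1 / 2) := ⟨a, Or.inl (by rw [hm, ha']; ring)⟩
  rcases M with ⟨p, q, hM⟩ | ⟨p, hM⟩ | hM
  · left
    have this := mem_arrs (arr_of hM)
    simp only [Matrix.cons_val_zero, Matrix.cons_val_one, Matrix.cons_val] at this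
    have key : eqv (y 0) (y 3) ∨ eqv (y 1) (y 3) := by
      rcases this with ⟨g0, g1, g2, g3⟩ | ⟨g0, g1, g2, g3⟩ | ⟨g0, g1, g2, g3⟩ | ⟨g0, g1, g2, g3⟩ |
        ⟨g0, g1, g2, g3⟩ | ⟨g0, g1, g2, g3⟩ | ⟨g0, g1, g2, g3⟩ | ⟨g0, g1, g2, g3⟩ <;>
      first
        | exact Or.inl (eqv_trans g0 (eqv_symm g2))
        | exact Or.inr (eqv_trans g1 (eqv_symm g2))
    rcases key with h | h
    · exact ⟨0, 3, by decide, by decide, h⟩
    · exact ⟨1, 3, by decide, by decide, h⟩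
  · rcases bcase hM with ⟨g3, h01⟩ | h | h
    · right; left
      refine ⟨p, y 4, ?_⟩
      rcases h01 with ⟨h0, h1⟩ | ⟨h1, h0⟩
      · refine ⟨Equiv.swap 3 4 * Equiv.swap 3 5, Or.inl (by decide), ?_⟩
        intro i
        fin_cases i
        · simpa [Equiv.swap_apply_def] using h0
        · simpa [Equiv.swap_apply_def] using h1
        · simpa [Equiv.swap_apply_def] using g2
        · simpa [Equiv.swap_apply_def] using g3
        · simpa [Equiv.swap_apply_def] using eqv_refl (y 4)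
        · simpa [Equiv.swap_apply_def] using g5
      · refine ⟨Equiv.swap 0 1 * (Equiv.swap 3 4 * Equiv.swap 3 5), Or.inl (by decide), ?_⟩
        intro i
        fin_cases i
        · simpa [Equiv.swap_apply_def] using h0
        · simpa [Equiv.swap_apply_def] using h1
        · simpa [Equiv.swap_apply_def] using g2
        · simpa [Equiv.swap_apply_def] using g3
        · simpa [Equiv.swap_apply_def] using eqv_refl (y 4)
        · simpa [Equiv.swap_apply_def] using g5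
    · exact Or.inl ⟨0, 3, by decide, by decide, h⟩
    · exact Or.inl ⟨1, 3, by decide, by decide, h⟩
  · right
    obtain ⟨u, v, w, huv, h0, h1, h3⟩ := myers_case hM rfl
    simp only [Matrix.cons_val_zero, Matrix.cons_val_one, Matrix.cons_val] at h0 h1 h3
    have G : ∀ (a b c : ℤ) (_ : [(0, a), (0, b), (2, 0), (0, c), (1, 0), (1, 30)] ∈ Fams),
        ((eqv (y 0) ((a : ℝ) / 60) ∧ eqv (y 1) ((b : ℝ) / 60)) ∨
        (eqv (y 0) ((b : ℝ) / 60) ∧ eqv (y 1) ((a : ℝ) / 60))) → eqv (y 3) ((c : ℝ) / 60) → T1 y := by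
      intro a b c hf h01 h3
      refine fam_01 a b (2, 0) (0, c) (1, 0) (1, 30) (y 4) hf h01 ?_ ?_ ?_ ?_
      · simpa using g2
      · simpa using h3
      · simpa using eqv_refl (y 4)
      · have : (30 / 60 : ℝ) = 1 / 2 := by norm_num
        simpa [this] using g5
    simp only [List.mem_cons, List.not_mem_nil, or_false, Prod.mk.injEq] at huv
    rcases huv with ⟨rfl, rfl, rfl⟩ | ⟨rfl, rfl, rfl⟩ | ⟨rfl, rfl, rfl⟩ | ⟨rfl, rfl, rfl⟩ |
      ⟨rfl, rfl, rfl⟩ | ⟨rfl, rfl, rfl⟩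
    · refine G 4 16 6 (by simp [Fams]) (Or.inl ⟨?_, ?_⟩) ?_
      · convert h0 using 1; norm_num
      · convert h1 using 1; norm_num
      · convert h3 using 1; norm_num
    · refine G 4 16 6 (by simp [Fams]) (Or.inr ⟨?_, ?_⟩) ?_
      · convert h0 using 1; norm_num
      · convert h1 using 1; norm_num
      · convert h3 using 1; norm_num
    · refine G 8 28 18 (by simp [Fams]) (Or.inl ⟨?_, ?_⟩) ?_
      · convert h0 using 1; norm_num
      · convert h1 using 1; norm_num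
      · convert h3 using 1; norm_num
    · refine G 8 28 18 (by simp [Fams]) (Or.inr ⟨?_, ?_⟩) ?_
      · convert h0 using 1; norm_num
      · convert h1 using 1; norm_num
      · convert h3 using 1; norm_num
    · refine G 6 18 10 (by simp [Fams]) (Or.inl ⟨?_, ?_⟩) ?_
      · convert h0 using 1; norm_num
      · convert h1 using 1; norm_num
      · convert h3 using 1; norm_num
    · refine G 6 18 10 (by simp [Fams]) (Or.inr ⟨?_, ?_⟩) ?_
      · convert h0 using 1; norm_num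
      · convert h1 using 1; norm_num
      · convert h3 using 1; norm_num

end LB

theorem lb (_l0 : StmtL0) (m2 : StmtM2) :
    ∀ w ∈ ([[0, 0, 2, 0, 1, 1], [0, 0, 3, 1, 1, 1], [0, 0, 4, 1, 1, 2]] : List (List ℤ)),
    LineSt w := by
  intro w hw
  simp only [List.mem_cons, List.not_mem_nil, or_false] at hw
  rcases hw with rfl | rfl | rfl
  · exact LB.lb1 m2
  · exact LB.lb2 m2
  · exact LB.lb3 m2

end Pool.Agent.T6.H31.TC
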