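import Pool.Agent.T6.H31.TC.SB87

set_option autoImplicit false

namespace Pool.Agent.T6.H31.TC

open SB87

/-- a real congruent to an integer multiple of a unit fraction -/
theorem SB87.mod3 (m : ℤ) : ∃ q : ℤ, m = 3 * q ∨ m = 3 * q + 1 ∨ m = 3 * q + 2 :=
  ⟨m / 3, by omega⟩

theorem SB87.match_mk {y z : Fin 6 → ℝ} (σ : Equiv.Perm (Fin 6)) (hσ : Blk σ)
    (h : ∀ i, eqv (y i) (z (σ i))) : Match y z := ⟨σ, hσ, h⟩

theorem SB87.s_ne_of {x : ℝ} (h : ¬ ∃ k : ℤ, x = k) : s x ≠ 0 := fun h' => h (s_eq_zero.mp h')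

/-- `(3 k + r) / 3` is not an integer for `r = 1, 2`, and similar facts -/
theorem SB87.not_int_div (n d : ℤ) (hd : d ≠ 0) (h : ¬ d ∣ n) : ¬ ∃ k : ℤ, (n : ℝ) / d = k := by
  rintro ⟨k, hk⟩
  apply h
  refine ⟨k, ?_⟩
  have hd' : (d : ℝ) ≠ 0 := by exact_mod_cast hd
  rw [div_eq_iff hd'] at hk
  have : n = k * d := by exact_mod_cast hk
  rw [this, mul_comm]

theorem SB87.s_frac_ne (n d : ℤ) (x : ℝ) (hx : x = (n : ℝ) / d) (hd : d ≠ 0) (h : ¬ d ∣ n) :
    s x ≠ 0 := by
  rw [hx]; exact s_ne_of (not_int_div n d hd h)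

theorem SB87.s_frac_zero (n d : ℤ) (x : ℝ) (hx : x = (n : ℝ) / d) (hd : d ≠ 0) (h : s x = 0) :
    d ∣ n := by
  by_contra hc
  exact s_frac_ne n d x hx hd hc h

theorem lc1 : LineSt [0, 1, 3, 1, 1, 2] := by
  intro y _ nz hl
  by_cases hC : CommR y
  · exact Or.inl hC
  right
  have n0 := nz_s nz 0
  have z0 : s 0 = 0 := s_eq_zero.mpr ⟨0, by simp⟩
  have L : ∀ t : ℝ, s (y 0) * s (y 1 + t) * s (y 2 + 3 * t) =
      s (y 3 + t) * s (y 4 + t) * s (y 5 + 2 * t) := by
    intro t; have := line_s hl t; simpa using this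
  have c3 : s (y 3 - y 1) ≠ 0 := fun h => hC (comm_of_s (i := 1) (j := 3) (by decide) (by decide)
    (by rw [s_sub_comm]; exact h))
  have c4 : s (y 4 - y 1) ≠ 0 := fun h => hC (comm_of_s (i := 1) (j := 4) (by decide) (by decide)
    (by rw [s_sub_comm]; exact h))
  have h5 : s (y 5 - 2 * y 1) = 0 := by
    have := L (-y 1)
    rw [show y 1 + -y 1 = 0 by ring, z0] at this
    simp only [mul_zero, zero_mul] at this
    rcases mul_eq_zero.mp this.symm with h | h
    · rcases mul_eq_zero.mp h with h | h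
      · exact absurd (by rw [sub_eq_add_neg]; exact h) c3
      · exact absurd (by rw [sub_eq_add_neg]; exact h) c4
    · convert h using 2; ring
  obtain ⟨k5, hk5⟩ := s_eq_zero.mp h5
  -- the reduced identity
  have L2 : ∀ u : ℝ, s u ≠ 0 → s (y 0) * s (3 * u + (y 2 - 3 * y 1)) =
      2 * (s (u + (y 3 - y 1)) * s (u + (y 4 - y 1)) * s (u + 1 / 2)) := by
    intro u hu
    have := L (u - y 1)
    rw [show y 1 + (u - y 1) = u by ring, show y 2 + 3 * (u - y 1) = 3 * u + (y 2 - 3 * y 1) by ring,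
      show y 3 + (u - y 1) = u + (y 3 - y 1) by ring, show y 4 + (u - y 1) = u + (y 4 - y 1) by ring,
      show y 5 + 2 * (u - y 1) = 2 * u + (y 5 - 2 * y 1) by ring, hk5, s_add_int] at this
    have h2 := s_half u
    have h3 : s (2 * u) = 2 * (s u * s (u + 1 / 2)) := by linarith
    rw [h3] at this
    apply mul_left_cancel₀ hu
    linarith
  have hc : s (1 / 2 + (y 2 - 3 * y 1)) = 0 := by
    have h := L2 (-(1/2)) (s_frac_ne (-1) 2 _ (by norm_num) (by norm_num) (by norm_num))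
    rw [show (-(1/2) : ℝ) + 1 / 2 = 0 by norm_num, z0] at h
    simp only [mul_zero] at h
    rcases mul_eq_zero.mp h with h | h
    · exact absurd h n0
    · rw [← h]; exact s_congr 2 (by push_cast; ring)
  obtain ⟨kc, hkc⟩ := s_eq_zero.mp hc
  have hd : ∀ j : Fin 6, (j = 3 ∨ j = 4) → ∃ m : ℤ, y j - y 1 = 1 / 6 + m / 3 := by
    intro j hj
    have hne : s (-(y j - y 1)) ≠ 0 := by
      rw [s_neg]; rcases hj with rfl | rfl
      · exact c3
      · exact c4
    have h := L2 (-(y j - y 1)) hne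
    have h0 : s (y 0) * s (3 * -(y j - y 1) + (y 2 - 3 * y 1)) = 0 := by
      rw [h]
      rcases hj with rfl | rfl
      · rw [show -(y 3 - y 1) + (y 3 - y 1) = 0 by ring, z0]; ring
      · rw [show -(y 4 - y 1) + (y 4 - y 1) = 0 by ring, z0]; ring
    rcases mul_eq_zero.mp h0 with h0 | h0
    · exact absurd h0 n0
    obtain ⟨k, hk⟩ := s_eq_zero.mp h0
    exact ⟨kc - k - 1, by push_cast; linarith⟩
  obtain ⟨m, hm⟩ := hd 3 (Or.inl rfl)
  obtain ⟨n, hn⟩ := hd 4 (Or.inr rfl)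
  have z6 := L2 (1 / 6) (s_frac_ne 1 6 _ (by norm_num) (by norm_num) (by norm_num))
  have z56 := L2 (5 / 6) (s_frac_ne 5 6 _ (by norm_num) (by norm_num) (by norm_num))
  have e6 : s (3 * (1 / 6) + (y 2 - 3 * y 1)) = 0 := by
    rw [← hc]; congr 1; ring
  have e56 : s (3 * (5 / 6) + (y 2 - 3 * y 1)) = 0 := by
    rw [← hc]; exact s_congr 2 (by push_cast; ring)
  rw [e6, mul_zero] at z6
  rw [e56, mul_zero] at z56
  have q6 : (3 : ℤ) ∣ m + 1 ∨ (3 : ℤ) ∣ n + 1 := by
    have h1 : s (1 / 6 + 1 / 2) ≠ 0 := s_frac_ne 2 3 _ (by norm_num) (by norm_num) (by norm_num)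
    have h2 : s (1 / 6 + (y 3 - y 1)) * s (1 / 6 + (y 4 - y 1)) = 0 := by
      have : s (1 / 6 + (y 3 - y 1)) * s (1 / 6 + (y 4 - y 1)) * s (1 / 6 + 1 / 2) = 0 := by linarith
      exact (mul_eq_zero.mp this).resolve_right h1
    rcases mul_eq_zero.mp h2 with h | h
    · exact Or.inl (s_frac_zero (m + 1) 3 _ (by rw [hm]; push_cast; ring) (by norm_num) h)
    · exact Or.inr (s_frac_zero (n + 1) 3 _ (by rw [hn]; push_cast; ring) (by norm_num) h)
  have q56 : (3 : ℤ) ∣ m ∨ (3 : ℤ) ∣ n := by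
    have h1 : s (5 / 6 + 1 / 2) ≠ 0 := s_frac_ne 4 3 _ (by norm_num) (by norm_num) (by norm_num)
    have h2 : s (5 / 6 + (y 3 - y 1)) * s (5 / 6 + (y 4 - y 1)) = 0 := by
      have : s (5 / 6 + (y 3 - y 1)) * s (5 / 6 + (y 4 - y 1)) * s (5 / 6 + 1 / 2) = 0 := by linarith
      exact (mul_eq_zero.mp this).resolve_right h1
    rcases mul_eq_zero.mp h2 with h | h
    · left
      have := s_frac_zero (m + 3) 3 _ (by rw [hm]; push_cast; ring) (by norm_num) h
      omega
    · right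
      have := s_frac_zero (n + 3) 3 _ (by rw [hn]; push_cast; ring) (by norm_num) h
      omega
  -- the constant
  have main : ∀ m n : ℤ, y 3 - y 1 = 1 / 6 + m / 3 ∨ y 4 - y 1 = 1 / 6 + m / 3 → True := by
    intros; trivial
  have const : ∀ (a b : ℝ) (k l : ℤ), s (y 0) * s (3 * (1/3) + (y 2 - 3 * y 1)) =
      2 * (s (1/3 + a) * s (1/3 + b) * s (1/3 + 1 / 2)) → a = 1 / 6 + k → b = - (1 / 6) + l →
      s (y 0) = 1 / 2 := by
    intro a b k l h ha hb
    have e1 : s (3 * (1/3) + (y 2 - 3 * y 1)) = s (1 / 2) := by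
      rw [show y 2 - 3 * y 1 = kc - 1 / 2 by linarith, show (3 * (1/3) + ((kc : ℝ) - 1/2)) = 1 / 2 + kc by ring,
        s_add_int]
    have e2 : s (1 / 3 + a) = s (1 / 2) := s_congr k (by rw [ha]; ring)
    have e3 : s (1 / 3 + b) = s (1 / 6) := s_congr l (by rw [hb]; ring)
    have e4 : s (1 / 3 + 1 / 2) = s (1 / 6) := by
      rw [← s_neg (1 / 6)]; exact s_congr 1 (by push_cast; ring)
    have e5 : s (1 / 2) = 1 := by
      unfold s; rw [show Real.pi * (1 / 2) = Real.pi / 2 by ring, Real.sin_pi_div_two, abs_one]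
    rw [e1, e2, e3, e4, e5, s_sixth] at h
    linarith
  have C := L2 (1 / 3) (s_frac_ne 1 3 _ (by norm_num) (by norm_num) (by norm_num))
  have fin : ∀ (i j : Fin 6), (i = 3 ∧ j = 4) ∨ (i = 4 ∧ j = 3) →
      (∃ k : ℤ, y i - y 1 = 1 / 6 + k) → (∃ l : ℤ, y j - y 1 = - (1 / 6) + l) → T1 y := by
    rintro i j hij ⟨k, hk⟩ ⟨l, hl'⟩
    have hs : s (y 0) = 1 / 2 := by
      rcases hij with ⟨rfl, rfl⟩ | ⟨rfl, rfl⟩
      · exact const _ _ k l C hk hl'
      · exact const _ _ k l (by rw [C]; ring) hk hl'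
    have h0 := eqv_sixth hs
    right; left
    refine ⟨[(0, 10), (1, 10), (3, 0), (1, 0), (1, 20), (2, 20)], by simp [Fams], y 1 - 1 / 6, ?_⟩
    have g0 : eqv (y 0) (1 / 6) := h0
    have g1 : eqv (y 1) (y 1 - 1 / 6 + 10 / 60) := ⟨0, Or.inl (by push_cast; ring)⟩
    have g2 : eqv (y 2) (3 * (y 1 - 1 / 6)) := ⟨kc, Or.inl (by linarith)⟩
    have gi : eqv (y i) (y 1 - 1 / 6 + 20 / 60) := ⟨k, Or.inl (by linarith)⟩
    have gj : eqv (y j) (y 1 - 1 / 6) := ⟨l, Or.inl (by linarith)⟩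
    have g5 : eqv (y 5) (2 * (y 1 - 1 / 6) + 20 / 60) := ⟨k5, Or.inl (by linarith)⟩
    rcases hij with ⟨rfl, rfl⟩ | ⟨rfl, rfl⟩
    · refine match_mk (Equiv.swap 3 4) (Or.inl (by decide)) ?_
      intro i
      fin_cases i
      · simpa [famv, Equiv.swap_apply_def] using (by norm_num; norm_num at g0; exact g0)
      · simpa [famv, Equiv.swap_apply_def] using g1
      · simpa [famv, Equiv.swap_apply_def] using g2
      · simpa [famv, Equiv.swap_apply_def] using gi
      · simpa [famv, Equiv.swap_apply_def] using gj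
      · simpa [famv, Equiv.swap_apply_def] using g5
    · refine match_mk 1 (Or.inl (by decide)) ?_
      intro i
      fin_cases i
      · simpa [famv] using (by norm_num; norm_num at g0; exact g0)
      · simpa [famv] using g1
      · simpa [famv] using g2
      · simpa [famv] using gj
      · simpa [famv] using gi
      · simpa [famv] using g5
  rcases q6 with ⟨q, hq⟩ | ⟨q, hq⟩
  · -- m = 3 q - 1, so n = 3 r
    rcases q56 with ⟨r, hr⟩ | ⟨r, hr⟩
    · omega
    · have hm' : (m : ℝ) = 3 * q - 1 := by exact_mod_cast (by omega : m = 3 * q - 1)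
      have hr' : (n : ℝ) = 3 * r := by exact_mod_cast hr
      exact fin 4 3 (Or.inr ⟨rfl, rfl⟩) ⟨r, by rw [hn, hr']; ring⟩ ⟨q, by rw [hm, hm']; ring⟩
  · rcases q56 with ⟨r, hr⟩ | ⟨r, hr⟩
    · have hm' : (n : ℝ) = 3 * q - 1 := by exact_mod_cast (by omega : n = 3 * q - 1)
      have hr' : (m : ℝ) = 3 * r := by exact_mod_cast hr
      exact fin 3 4 (Or.inl ⟨rfl, rfl⟩) ⟨r, by rw [hm, hr']; ring⟩ ⟨q, by rw [hn, hm']; ring⟩
    · omega

theorem lc2 : LineSt [0, 3, 3, 2, 2, 2] := by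
  intro y _ nz hl
  right
  have n0 := nz_s nz 0
  have z0 : s 0 = 0 := s_eq_zero.mpr ⟨0, by simp⟩
  have L : ∀ t : ℝ, s (y 0) * s (y 1 + 3 * t) * s (y 2 + 3 * t) =
      s (y 3 + 2 * t) * s (y 4 + 2 * t) * s (y 5 + 2 * t) := by
    intro t; have := line_s hl t; simpa using this
  have L2 : ∀ u : ℝ, s (y 0) * s (3 * u) * s (3 * u + (y 2 - y 1)) =
      s (2 * u + (y 3 - 2 * y 1 / 3)) * s (2 * u + (y 4 - 2 * y 1 / 3)) *
        s (2 * u + (y 5 - 2 * y 1 / 3)) := by
    intro u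
    have := L (u - y 1 / 3)
    rw [show y 1 + 3 * (u - y 1 / 3) = 3 * u by ring,
      show y 2 + 3 * (u - y 1 / 3) = 3 * u + (y 2 - y 1) by ring,
      show y 3 + 2 * (u - y 1 / 3) = 2 * u + (y 3 - 2 * y 1 / 3) by ring,
      show y 4 + 2 * (u - y 1 / 3) = 2 * u + (y 4 - 2 * y 1 / 3) by ring,
      show y 5 + 2 * (u - y 1 / 3) = 2 * u + (y 5 - 2 * y 1 / 3) by ring] at this
    exact this
  have sI : ∀ k : ℤ, s (k : ℝ) = 0 := fun k => s_eq_zero.mpr ⟨k, rfl⟩
  -- zeros
  have Z : ∀ (u : ℝ) (k : ℤ), 3 * u = k → ∃ j : Fin 6, (j = 3 ∨ j = 4 ∨ j = 5) ∧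
      ∃ m : ℤ, y j - 2 * y 1 / 3 = m - 2 * u := by
    intro u k hu
    have h := L2 u
    rw [hu, sI, mul_zero, zero_mul] at h
    rcases mul_eq_zero.mp h.symm with h | h
    · rcases mul_eq_zero.mp h with h | h
      · obtain ⟨m, hm⟩ := s_eq_zero.mp h
        exact ⟨3, Or.inl rfl, m, by linarith⟩
      · obtain ⟨m, hm⟩ := s_eq_zero.mp h
        exact ⟨4, Or.inr (Or.inl rfl), m, by linarith⟩
    · obtain ⟨m, hm⟩ := s_eq_zero.mp h
      exact ⟨5, Or.inr (Or.inr rfl), m, by linarith⟩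
  obtain ⟨i, hi, ki, hki⟩ := Z 0 0 (by norm_num)
  obtain ⟨j, hj, kj, hkj⟩ := Z (1 / 3) 1 (by norm_num)
  obtain ⟨l, hl', kl, hkl⟩ := Z (2 / 3) 2 (by norm_num)
  have hij : i ≠ j := by
    rintro rfl
    rw [hki] at hkj
    have : (3 * ki : ℝ) = 3 * kj - 2 := by linarith
    have : 3 * ki = 3 * kj - 2 := by exact_mod_cast this
    omega
  have hil : i ≠ l := by
    rintro rfl
    rw [hki] at hkl
    have : (3 * ki : ℝ) = 3 * kl - 4 := by linarith
    have : 3 * ki = 3 * kl - 4 := by exact_mod_cast this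
    omega
  have hjl : j ≠ l := by
    rintro rfl
    rw [hkj] at hkl
    have : (3 * kj : ℝ) = 3 * kl - 2 := by linarith
    have : 3 * kj = 3 * kl - 2 := by exact_mod_cast this
    omega
  -- the right side
  have R : ∀ u : ℝ, s (2 * u + (y i - 2 * y 1 / 3)) * s (2 * u + (y j - 2 * y 1 / 3)) *
      s (2 * u + (y l - 2 * y 1 / 3)) = s (6 * u) / 4 := by
    intro u
    have e1 : s (2 * u + (y i - 2 * y 1 / 3)) = s (2 * u) := s_congr ki (by rw [hki]; ring)
    have e2 : s (2 * u + (y j - 2 * y 1 / 3)) = s (2 * u + 1 / 3) :=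
      s_congr (kj - 1) (by rw [hkj]; push_cast; ring)
    have e3 : s (2 * u + (y l - 2 * y 1 / 3)) = s (2 * u + 2 / 3) :=
      s_congr (kl - 2) (by rw [hkl]; push_cast; ring)
    rw [e1, e2, e3, s_third, show 3 * (2 * u) = 6 * u by ring]
  have P : ∀ f : Fin 6 → ℝ, f i * f j * f l = f 3 * f 4 * f 5 := by
    intro f
    rcases hi with rfl | rfl | rfl <;> rcases hj with rfl | rfl | rfl <;>
      rcases hl' with rfl | rfl | rfl <;>
      (first | exact absurd rfl hij | exact absurd rfl hil | exact absurd rfl hjl | ring)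
  have L3 : ∀ u : ℝ, s (y 0) * s (3 * u) * s (3 * u + (y 2 - y 1)) = s (6 * u) / 4 := by
    intro u
    rw [L2, ← R u]
    exact (P (fun m => s (2 * u + (y m - 2 * y 1 / 3)))).symm
  have e5 : s (1 / 2) = 1 := by
    unfold s; rw [show Real.pi * (1 / 2) = Real.pi / 2 by ring, Real.sin_pi_div_two, abs_one]
  have hc : ∃ k : ℤ, y 2 - y 1 = 1 / 2 + k := by
    have h := L3 (1 / 2)
    have e1 : s (6 * (1 / 2)) = 0 := s_eq_zero.mpr ⟨3, by norm_num⟩
    have e2 : s (3 * (1 / 2)) = 1 := (s_congr 1 (by norm_num)).trans e5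
    rw [e1, e2] at h
    have h' : s (3 * (1 / 2) + (y 2 - y 1)) = 0 := by
      have h2 : s (y 0) * s (3 * (1 / 2) + (y 2 - y 1)) = 0 := by linarith
      exact (mul_eq_zero.mp h2).resolve_left n0
    obtain ⟨k, hk⟩ := s_eq_zero.mp h'
    exact ⟨k - 2, by push_cast; linarith⟩
  obtain ⟨kc, hkc⟩ := hc
  have hs : s (y 0) = 1 / 2 := by
    have h := L3 (1 / 12)
    have e1 : s (6 * (1 / 12)) = 1 := (s_congr 0 (by norm_num)).trans e5
    have e2 : s (3 * (1 / 12) + (y 2 - y 1)) = s (1 / 4 + 1 / 2) :=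
      s_congr kc (by rw [hkc]; ring)
    have e3 := s_half (1 / 4)
    rw [show (2 : ℝ) * (1 / 4) = 1 / 2 by norm_num, e5] at e3
    rw [e1, e2, show (3 : ℝ) * (1 / 12) = 1 / 4 by norm_num, mul_assoc, e3] at h
    linarith
  right; left
  refine ⟨[(0, 10), (3, 0), (3, 30), (2, 0), (2, 20), (2, 40)], by simp [Fams], y 1 / 3, ?_⟩
  have g0 : eqv (y 0) (10 / 60) := by
    have := eqv_sixth hs
    rwa [show (10 / 60 : ℝ) = 1 / 6 by norm_num]
  have g1 : eqv (y 1) (3 * (y 1 / 3)) := ⟨0, Or.inl (by push_cast; ring)⟩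
  have g2 : eqv (y 2) (3 * (y 1 / 3) + 30 / 60) := ⟨kc, Or.inl (by linarith)⟩
  have gi : eqv (y i) (2 * (y 1 / 3)) := ⟨ki, Or.inl (by linarith)⟩
  have gj : eqv (y j) (2 * (y 1 / 3) + 20 / 60) := ⟨kj - 1, Or.inl (by push_cast; linarith)⟩
  have gl : eqv (y l) (2 * (y 1 / 3) + 40 / 60) := ⟨kl - 2, Or.inl (by push_cast; linarith)⟩
  have cases6 : (i = 3 ∧ j = 4 ∧ l = 5) ∨ (i = 3 ∧ j = 5 ∧ l = 4) ∨ (i = 4 ∧ j = 3 ∧ l = 5) ∨
      (i = 5 ∧ j = 4 ∧ l = 3) ∨ (i = 4 ∧ j = 5 ∧ l = 3) ∨ (i = 5 ∧ j = 3 ∧ l = 4) := by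
    rcases hi with rfl | rfl | rfl <;> rcases hj with rfl | rfl | rfl <;>
      rcases hl' with rfl | rfl | rfl <;>
      (first | exact absurd rfl hij | exact absurd rfl hil | exact absurd rfl hjl | decide)
  rcases cases6 with ⟨rfl, rfl, rfl⟩ | ⟨rfl, rfl, rfl⟩ | ⟨rfl, rfl, rfl⟩ | ⟨rfl, rfl, rfl⟩ | ⟨rfl, rfl, rfl⟩ | ⟨rfl, rfl, rfl⟩
  · refine match_mk 1 (Or.inl (by decide)) ?_
    intro m
    fin_cases m
    · show eqv _ _
      simpa [famv, Equiv.swap_apply_def] using g0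
    · show eqv _ _
      simpa [famv, Equiv.swap_apply_def] using g1
    · show eqv _ _
      simpa [famv, Equiv.swap_apply_def] using g2
    · show eqv _ _
      simpa [famv, Equiv.swap_apply_def] using gi
    · show eqv _ _
      simpa [famv, Equiv.swap_apply_def] using gj
    · show eqv _ _
      simpa [famv, Equiv.swap_apply_def] using gl
  · refine match_mk (Equiv.swap 4 5) (Or.inl (by decide)) ?_
    intro m
    fin_cases m
    · show eqv _ _
      simpa [famv, Equiv.swap_apply_def] using g0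
    · show eqv _ _
      simpa [famv, Equiv.swap_apply_def] using g1
    · show eqv _ _
      simpa [famv, Equiv.swap_apply_def] using g2
    · show eqv _ _
      simpa [famv, Equiv.swap_apply_def] using gi
    · show eqv _ _
      simpa [famv, Equiv.swap_apply_def] using gl
    · show eqv _ _
      simpa [famv, Equiv.swap_apply_def] using gj
  · refine match_mk (Equiv.swap 3 4) (Or.inl (by decide)) ?_
    intro m
    fin_cases m
    · show eqv _ _
      simpa [famv, Equiv.swap_apply_def] using g0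
    · show eqv _ _
      simpa [famv, Equiv.swap_apply_def] using g1
    · show eqv _ _
      simpa [famv, Equiv.swap_apply_def] using g2
    · show eqv _ _
      simpa [famv, Equiv.swap_apply_def] using gj
    · show eqv _ _
      simpa [famv, Equiv.swap_apply_def] using gi
    · show eqv _ _
      simpa [famv, Equiv.swap_apply_def] using gl
  · refine match_mk (Equiv.swap 3 5) (Or.inl (by decide)) ?_
    intro m
    fin_cases m
    · show eqv _ _
      simpa [famv, Equiv.swap_apply_def] using g0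
    · show eqv _ _
      simpa [famv, Equiv.swap_apply_def] using g1
    · show eqv _ _
      simpa [famv, Equiv.swap_apply_def] using g2
    · show eqv _ _
      simpa [famv, Equiv.swap_apply_def] using gl
    · show eqv _ _
      simpa [famv, Equiv.swap_apply_def] using gj
    · show eqv _ _
      simpa [famv, Equiv.swap_apply_def] using gi
  · refine match_mk (Equiv.swap 3 4 * Equiv.swap 3 5) (Or.inl (by decide)) ?_
    intro m
    fin_cases m
    · show eqv _ _
      simpa [famv, Equiv.swap_apply_def] using g0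
    · show eqv _ _
      simpa [famv, Equiv.swap_apply_def] using g1
    · show eqv _ _
      simpa [famv, Equiv.swap_apply_def] using g2
    · show eqv _ _
      simpa [famv, Equiv.swap_apply_def] using gl
    · show eqv _ _
      simpa [famv, Equiv.swap_apply_def] using gi
    · show eqv _ _
      simpa [famv, Equiv.swap_apply_def] using gj
  · refine match_mk (Equiv.swap 3 5 * Equiv.swap 3 4) (Or.inl (by decide)) ?_
    intro m
    fin_cases m
    · show eqv _ _
      simpa [famv, Equiv.swap_apply_def] using g0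
    · show eqv _ _
      simpa [famv, Equiv.swap_apply_def] using g1
    · show eqv _ _
      simpa [famv, Equiv.swap_apply_def] using g2
    · show eqv _ _
      simpa [famv, Equiv.swap_apply_def] using gj
    · show eqv _ _
      simpa [famv, Equiv.swap_apply_def] using gl
    · show eqv _ _
      simpa [famv, Equiv.swap_apply_def] using gi

theorem lc (_l0 : StmtL0) : ∀ w ∈ ([[0, 1, 3, 1, 1, 2], [0, 3, 3, 2, 2, 2]] : List (List ℤ)),
    LineSt w := by
  intro w hw
  simp only [List.mem_cons, List.not_mem_nil, or_false] at hw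
  rcases hw with rfl | rfl
  · exact lc1
  · exact lc2

end Pool.Agent.T6.H31.TC
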