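import Pool.Agent.T6.H31.TC.LTool

set_option autoImplicit false

/-! Module LD: the directions `[1,1,2,1,1,2]`, `[1,1,4,2,2,2]`, `[1,1,3,1,2,2]`. -/

namespace Pool.Agent.T6.H31.TC

open Finset Pool.Agent.T6.H31.TC.LT

lemma ld1 (l0 : StmtL0) : LineSt [1, 1, 2, 1, 1, 2] := by
  intro y _ _ hl
  have key := norm_id l0 y ![1, 1, 2, 1, 1, 2] rfl (by decide) (by simpa using hl)
  simp only [Fin.isValue, Matrix.cons_val_zero, Matrix.cons_val_one, Matrix.cons_val, pow_one] at key
  generalize ha : AA (y 0) = a at key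
  generalize hb : AA (y 1) = b at key
  generalize hc : AA (y 2) = c at key
  generalize hd : AA (y 3) = d at key
  generalize he : AA (y 4) = e at key
  generalize hf : AA (y 5) = f at key
  have hco := coeffs ![0, d + e - (a + b), (a * b - c) - (d * e - f), (a + b) * c - (d + e) * f,
    -(a * b * c) + d * e * f] (by
      intro x
      simp [Fin.sum_univ_succ]
      linear_combination key x)
  have h1 : d + e - (a + b) = 0 := hco 1
  have h2 : (a * b - c) - (d * e - f) = 0 := hco 2
  have h3 : (a + b) * c - (d + e) * f = 0 := hco 3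
  have h4 : -(a * b * c) + d * e * f = 0 := hco 4
  have hcf : (a + b) * (c - f) = 0 := by linear_combination h3 + f * h1
  rcases mul_eq_zero.mp hcf with h5 | h5
  · have hb' : b = -a := by linear_combination h5
    have he' : e = -d := by linear_combination h1 + h5
    subst hb' he'
    have : (c - f) * (c - d ^ 2) = 0 := by linear_combination -c * h2 - h4
    rcases mul_eq_zero.mp this with h6 | h6
    · exact comm_of 2 5 (by decide) (by decide) (by rw [hc, hf]; linear_combination h6)
    · have hc' : c = d ^ 2 := by linear_combination h6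
      have hf' : f = a ^ 2 := by linear_combination h2 + h6
      refine first_family 1 blk_one (y 0) (y 3) ?_
      intro i
      fin_cases i
      · rfl
      · show AA (y 1) = AA (y 0 + 1 / 2)
        rw [← neg_AA, hb, ha]
      · show AA (y 2) = AA (2 * y 3)
        rw [← AA_sq, hc, hd, hc']
      · rfl
      · show AA (y 4) = AA (y 3 + 1 / 2)
        rw [← neg_AA, he, hd]
      · show AA (y 5) = AA (2 * y 0)
        rw [← AA_sq, hf, ha, hf']
  · exact comm_of 2 5 (by decide) (by decide) (by rw [hc, hf]; linear_combination h5)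

lemma ld2 (l0 : StmtL0) : LineSt [1, 1, 4, 2, 2, 2] := by
  intro y _ _ hl
  have key := norm_id l0 y ![1, 1, 4, 2, 2, 2] rfl (by decide) (by simpa using hl)
  simp only [Fin.isValue, Matrix.cons_val_zero, Matrix.cons_val_one, Matrix.cons_val, pow_one] at key
  generalize ha : AA (y 0) = a at key
  generalize hb : AA (y 1) = b at key
  generalize hc : AA (y 2) = c at key
  generalize hd : AA (y 3) = d at key
  generalize he : AA (y 4) = e at key
  generalize hf : AA (y 5) = f at key
  have hco := coeffs ![0, -(a + b), a * b + (d + e + f), 0, -c - (d * e + e * f + d * f),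
    (a + b) * c, -(a * b * c) + d * e * f] (by
      intro x
      simp [Fin.sum_univ_succ]
      linear_combination key x)
  have h1 : -(a + b) = 0 := hco 1
  have h2 : a * b + (d + e + f) = 0 := hco 2
  have h4 : -c - (d * e + e * f + d * f) = 0 := hco 4
  have h6 : -(a * b * c) + d * e * f = 0 := hco 6
  have hb' : b = -a := by linear_combination -h1
  subst hb'
  have : (a ^ 2 - d) * ((a ^ 2 - e) * (a ^ 2 - f)) = 0 := by
    linear_combination -a ^ 4 * h2 - a ^ 2 * h4 - h6
  rcases mul_eq_zero.mp this with h5 | h5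
  · -- d = a^2
    have hd' : a ^ 2 = d := by linear_combination h5
    have he' : e = -f := by linear_combination h2 + h5
    have hc' : c = f ^ 2 := by linear_combination -h4 - (d + f) * he'
    refine first_family (Equiv.swap 3 5) (Or.inl (by decide)) (y 0) (y 5) ?_
    intro i
    fin_cases i
    · rfl
    · show AA (y 1) = AA (y 0 + 1 / 2)
      rw [← neg_AA, hb, ha]
    · show AA (y 2) = AA (2 * y 5)
      rw [← AA_sq, hc, hf, hc']
    · show AA (y 3) = AA (2 * y 0)
      rw [← AA_sq, hd, ha, hd']
    · show AA (y 4) = AA (y 5 + 1 / 2)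
      rw [← neg_AA, he, hf, he']
    · rfl
  rcases mul_eq_zero.mp h5 with h5 | h5
  · -- e = a^2
    have he' : a ^ 2 = e := by linear_combination h5
    have hf' : f = -d := by linear_combination h2 + h5
    have hc' : c = d ^ 2 := by linear_combination -h4 - (d + e) * hf'
    refine first_family (Equiv.swap 4 5) (Or.inl (by decide)) (y 0) (y 3) ?_
    intro i
    fin_cases i
    · rfl
    · show AA (y 1) = AA (y 0 + 1 / 2)
      rw [← neg_AA, hb, ha]
    · show AA (y 2) = AA (2 * y 3)
      rw [← AA_sq, hc, hd, hc']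
    · rfl
    · show AA (y 4) = AA (2 * y 0)
      rw [← AA_sq, he, ha, he']
    · show AA (y 5) = AA (y 3 + 1 / 2)
      rw [← neg_AA, hf, hd, hf']
  · -- f = a^2
    have hf' : a ^ 2 = f := by linear_combination h5
    have he' : e = -d := by linear_combination h2 + h5
    have hc' : c = d ^ 2 := by linear_combination -h4 - (d + f) * he'
    refine first_family 1 blk_one (y 0) (y 3) ?_
    intro i
    fin_cases i
    · rfl
    · show AA (y 1) = AA (y 0 + 1 / 2)
      rw [← neg_AA, hb, ha]
    · show AA (y 2) = AA (2 * y 3)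
      rw [← AA_sq, hc, hd, hc']
    · rfl
    · show AA (y 4) = AA (y 3 + 1 / 2)
      rw [← neg_AA, he, hd, he']
    · show AA (y 5) = AA (2 * y 0)
      rw [← AA_sq, hf, ha, hf']

lemma ld3 (l0 : StmtL0) : LineSt [1, 1, 3, 1, 2, 2] := by
  intro y _ _ hl
  have key := norm_id l0 y ![1, 1, 3, 1, 2, 2] rfl (by decide) (by simpa using hl)
  simp only [Fin.isValue, Matrix.cons_val_zero, Matrix.cons_val_one, Matrix.cons_val, pow_one] at key
  have hcne := AA_ne (y 2)
  have hdne := AA_ne (y 3)
  generalize ha : AA (y 0) = a at key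
  generalize hb : AA (y 1) = b at key
  generalize hc : AA (y 2) = c at key hcne
  generalize hd : AA (y 3) = d at key hdne
  generalize he : AA (y 4) = e at key
  generalize hf : AA (y 5) = f at key
  have hco := coeffs ![0, d - (a + b), a * b + (e + f), -c - d * (e + f), (a + b) * c - e * f,
    -(a * b * c) + d * e * f] (by
      intro x
      simp [Fin.sum_univ_succ]
      linear_combination key x)
  have h1 : d - (a + b) = 0 := hco 1
  have h2 : a * b + (e + f) = 0 := hco 2
  have h3 : -c - d * (e + f) = 0 := hco 3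
  have h4 : (a + b) * c - e * f = 0 := hco 4
  have h5 : -(a * b * c) + d * e * f = 0 := hco 5
  have hab : a * b = d ^ 2 := by
    have : c * (a * b - d ^ 2) = 0 := by linear_combination -h5 - d * h4 - d * c * h1
    rcases mul_eq_zero.mp this with h | h
    · exact absurd h hcne
    · linear_combination h
  have hc' : c = d ^ 3 := by linear_combination -h3 - d * h2 + d * hab
  have hef : e + f = -(d ^ 2) := by linear_combination h2 - hab
  have hef2 : e * f = (d ^ 2) ^ 2 := by linear_combination -h4 + d * hc' - c * h1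
  have hsum : a + b = d := by linear_combination -h1
  have e3 : AA (y 3) = AA ((y 3 - 1 / 3) + 1 / 3) := by congr 1; ring
  have ec : AA (y 2) = AA (3 * (y 3 - 1 / 3)) := by
    rw [hc, hc', ← hd, AA_cube]; exact AA_congr 1 (by push_cast; ring)
  have fam : ([(1, 10), (1, 30), (3, 0), (1, 20), (2, 0), (2, 20)] : List (ℤ × ℤ)) ∈ Fams := by
    simp [Fams]
  have f0 : famv [(1, 10), (1, 30), (3, 0), (1, 20), (2, 0), (2, 20)] (y 3 - 1 / 3) 0 = y 3 - 1 / 6 := by
    simp [famv]; ring
  have f1 : famv [(1, 10), (1, 30), (3, 0), (1, 20), (2, 0), (2, 20)] (y 3 - 1 / 3) 1 = y 3 + 1 / 6 := by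
    simp [famv]; ring
  have f2 : famv [(1, 10), (1, 30), (3, 0), (1, 20), (2, 0), (2, 20)] (y 3 - 1 / 3) 2 = 3 * (y 3 - 1 / 3) := by
    simp [famv]
  have f3 : famv [(1, 10), (1, 30), (3, 0), (1, 20), (2, 0), (2, 20)] (y 3 - 1 / 3) 3 = y 3 := by
    simp [famv]; ring
  have f4 : famv [(1, 10), (1, 30), (3, 0), (1, 20), (2, 0), (2, 20)] (y 3 - 1 / 3) 4 = 2 * y 3 + 1 / 3 - 1 := by
    simp [famv]; ring
  have f5 : famv [(1, 10), (1, 30), (3, 0), (1, 20), (2, 0), (2, 20)] (y 3 - 1 / 3) 5 = 2 * y 3 - 1 / 3 := by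
    simp [famv]; ring
  have g0 : d * AA (-(1 / 6)) = AA (y 3 - 1 / 6) := by rw [← hd, ← AA_add]; rfl
  have g1 : d * AA (1 / 6) = AA (y 3 + 1 / 6) := by rw [← hd, ← AA_add]
  have g4 : d ^ 2 * AA (1 / 3) = AA (2 * y 3 + 1 / 3 - 1) := by
    rw [← hd, AA_sq, ← AA_add]; exact AA_congr 1 (by push_cast; ring)
  have g5 : d ^ 2 * AA (-(1 / 3)) = AA (2 * y 3 - 1 / 3) := by
    rw [← hd, AA_sq, ← AA_add]; rfl
  rcases hex_pair hdne hsum hab with ⟨ka, kb⟩ | ⟨ka, kb⟩ <;>
  rcases tri_pair (pow_ne_zero 2 hdne) hef hef2 with ⟨ke, kf⟩ | ⟨ke, kf⟩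
  · refine fam_family _ fam 1 blk_one (y 3 - 1 / 3) ?_
    intro i
    fin_cases i
    · exact (ha.trans (ka.trans g0)).trans (congrArg AA f0.symm)
    · exact (hb.trans (kb.trans g1)).trans (congrArg AA f1.symm)
    · exact ec.trans (congrArg AA f2.symm)
    · exact congrArg AA f3.symm
    · exact (he.trans (ke.trans g4)).trans (congrArg AA f4.symm)
    · exact (hf.trans (kf.trans g5)).trans (congrArg AA f5.symm)
  · refine fam_family _ fam (Equiv.swap 4 5) (Or.inl (by decide)) (y 3 - 1 / 3) ?_
    intro i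
    fin_cases i
    · exact (ha.trans (ka.trans g0)).trans (congrArg AA f0.symm)
    · exact (hb.trans (kb.trans g1)).trans (congrArg AA f1.symm)
    · exact ec.trans (congrArg AA f2.symm)
    · exact congrArg AA f3.symm
    · exact (he.trans (ke.trans g5)).trans (congrArg AA f5.symm)
    · exact (hf.trans (kf.trans g4)).trans (congrArg AA f4.symm)
  · refine fam_family _ fam (Equiv.swap 0 1) (Or.inl (by decide)) (y 3 - 1 / 3) ?_
    intro i
    fin_cases i
    · exact (ha.trans (ka.trans g1)).trans (congrArg AA f1.symm)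
    · exact (hb.trans (kb.trans g0)).trans (congrArg AA f0.symm)
    · exact ec.trans (congrArg AA f2.symm)
    · exact congrArg AA f3.symm
    · exact (he.trans (ke.trans g4)).trans (congrArg AA f4.symm)
    · exact (hf.trans (kf.trans g5)).trans (congrArg AA f5.symm)
  · refine fam_family _ fam (Equiv.swap 0 1 * Equiv.swap 4 5) (Or.inl (by decide)) (y 3 - 1 / 3) ?_
    intro i
    fin_cases i
    · exact (ha.trans (ka.trans g1)).trans (congrArg AA f1.symm)
    · exact (hb.trans (kb.trans g0)).trans (congrArg AA f0.symm)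
    · exact ec.trans (congrArg AA f2.symm)
    · exact congrArg AA f3.symm
    · exact (he.trans (ke.trans g5)).trans (congrArg AA f5.symm)
    · exact (hf.trans (kf.trans g4)).trans (congrArg AA f4.symm)

theorem ld (l0 : StmtL0) : ∀ w ∈ ([[1, 1, 2, 1, 1, 2], [1, 1, 4, 2, 2, 2], [1, 1, 3, 1, 2, 2]] : List (List ℤ)),
    LineSt w := by
  intro w hw
  simp only [List.mem_cons, List.not_mem_nil, or_false] at hw
  rcases hw with rfl | rfl | rfl
  · exact ld1 l0
  · exact ld2 l0
  · exact ld3 l0

end Pool.Agent.T6.H31.TC
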