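import Pool.Agent.T6.H31.TC.LTool

set_option autoImplicit false

/-! Module LE: the directions `[1,1,4,1,2,3]`, `[1,1,6,2,2,4]`, `[2,2,4,2,3,3]`, `[3,3,6,4,4,4]`. -/

namespace Pool.Agent.T6.H31.TC

open Finset Pool.Agent.T6.H31.TC.LT

lemma le1 (l0 : StmtL0) : LineSt [1, 1, 4, 1, 2, 3] := by
  intro y _ _ hl
  have key := norm_id l0 y ![1, 1, 4, 1, 2, 3] rfl (by decide) (by simpa using hl)
  simp only [Fin.isValue, Matrix.cons_val_zero, Matrix.cons_val_one, Matrix.cons_val, pow_one] at key
  have hane := AA_ne (y 0)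
  have hbne := AA_ne (y 1)
  have hcne := AA_ne (y 2)
  have hdne := AA_ne (y 3)
  have hene := AA_ne (y 4)
  have hfne := AA_ne (y 5)
  generalize ha : AA (y 0) = a at key hane
  generalize hb : AA (y 1) = b at key hbne
  generalize hc : AA (y 2) = c at key hcne
  generalize hd : AA (y 3) = d at key hdne
  generalize he : AA (y 4) = e at key hene
  generalize hf : AA (y 5) = f at key hfne
  have hco := coeffs ![0, d - (a + b), a * b + e, -(d * e) + f, -c - d * f, (a + b) * c - e * f, -(a * b * c) + d * e * f] (by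
      intro x
      simp [Fin.sum_univ_succ]
      linear_combination key x)
  have h1 : d - (a + b) = 0 := hco 1
  have h2 : a * b + e = 0 := hco 2
  have h3 : -(d * e) + f = 0 := hco 3
  have h4 : -c - d * f = 0 := hco 4
  have h5 : (a + b) * c - e * f = 0 := hco 5
  have hf' : f = d * e := by linear_combination h3
  have hc1 : c = -(d ^ 2 * e) := by linear_combination -h4 - d * h3
  have he' : e = -d ^ 2 := by
    have : d * e * (e + d ^ 2) = 0 := by
      linear_combination -h5 - c * h1 + d * hc1 - e * hf'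
    rcases mul_eq_zero.mp this with h | h
    · exact absurd h (mul_ne_zero hdne hene)
    · linear_combination h
  have hab : a * b = d ^ 2 := by linear_combination h2 - he'
  have hsum : a + b = d := by linear_combination -h1
  have hf2 : f = -d ^ 3 := by rw [hf', he']; ring
  have hc2 : c = d ^ 4 := by rw [hc1, he']; ring
  have fam : ([(1, 5), (1, 25), (4, 0), (1, 15), (2, 0), (3, 15)] : List (ℤ × ℤ)) ∈ Fams := by
    simp [Fams]
  have f0 : famv [(1, 5), (1, 25), (4, 0), (1, 15), (2, 0), (3, 15)] (y 3 - 1 / 4) 0 = y 3 - 1 / 6 := by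
    simp [famv] <;> ring_nf
  have f1 : famv [(1, 5), (1, 25), (4, 0), (1, 15), (2, 0), (3, 15)] (y 3 - 1 / 4) 1 = y 3 + 1 / 6 := by
    simp [famv] <;> ring_nf
  have f2 : famv [(1, 5), (1, 25), (4, 0), (1, 15), (2, 0), (3, 15)] (y 3 - 1 / 4) 2 = 4 * y 3 - 1 := by
    simp [famv] <;> ring_nf
  have f3 : famv [(1, 5), (1, 25), (4, 0), (1, 15), (2, 0), (3, 15)] (y 3 - 1 / 4) 3 = y 3 := by
    simp [famv] <;> ring_nf
  have f4 : famv [(1, 5), (1, 25), (4, 0), (1, 15), (2, 0), (3, 15)] (y 3 - 1 / 4) 4 = 2 * y 3 - 1 / 2 := by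
    simp [famv] <;> ring_nf
  have f5 : famv [(1, 5), (1, 25), (4, 0), (1, 15), (2, 0), (3, 15)] (y 3 - 1 / 4) 5 = 3 * y 3 - 1 / 2 := by
    simp [famv] <;> ring_nf
  have g0 : d * AA (-(1 / 6)) = AA (y 3 - 1 / 6) := by rw [← hd, ← AA_add]; rfl
  have g1 : d * AA (1 / 6) = AA (y 3 + 1 / 6) := by rw [← hd, ← AA_add]
  have g2 : c = AA (4 * y 3 - 1) := by
    rw [hc2, ← hd, AA_four]; exact AA_congr 1 (by push_cast; ring)
  have g4 : e = AA (2 * y 3 - 1 / 2) := by
    rw [he', ← hd, AA_sq, neg_AA]; exact AA_congr 1 (by push_cast; ring)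
  have g5 : f = AA (3 * y 3 - 1 / 2) := by
    rw [hf2, ← hd, AA_cube, neg_AA]; exact AA_congr 1 (by push_cast; ring)
  rcases hex_pair hdne hsum hab with ⟨ka, kb⟩ | ⟨ka, kb⟩
  · refine fam_family _ fam (1) blk_one (y 3 - 1 / 4) ?_
    intro i
    fin_cases i
    · exact (ha.trans (ka.trans g0)).trans (congrArg AA f0.symm)
    · exact (hb.trans (kb.trans g1)).trans (congrArg AA f1.symm)
    · exact (hc.trans g2).trans (congrArg AA f2.symm)
    · exact (rfl).trans (congrArg AA f3.symm)
    · exact (he.trans g4).trans (congrArg AA f4.symm)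
    · exact (hf.trans g5).trans (congrArg AA f5.symm)
  · refine fam_family _ fam (Equiv.swap 0 1) (Or.inl (by decide)) (y 3 - 1 / 4) ?_
    intro i
    fin_cases i
    · exact (ha.trans (ka.trans g1)).trans (congrArg AA f1.symm)
    · exact (hb.trans (kb.trans g0)).trans (congrArg AA f0.symm)
    · exact (hc.trans g2).trans (congrArg AA f2.symm)
    · exact (rfl).trans (congrArg AA f3.symm)
    · exact (he.trans g4).trans (congrArg AA f4.symm)
    · exact (hf.trans g5).trans (congrArg AA f5.symm)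

lemma le2 (l0 : StmtL0) : LineSt [1, 1, 6, 2, 2, 4] := by
  intro y _ _ hl
  have key := norm_id l0 y ![1, 1, 6, 2, 2, 4] rfl (by decide) (by simpa using hl)
  simp only [Fin.isValue, Matrix.cons_val_zero, Matrix.cons_val_one, Matrix.cons_val, pow_one] at key
  have hane := AA_ne (y 0)
  have hbne := AA_ne (y 1)
  have hcne := AA_ne (y 2)
  have hdne := AA_ne (y 3)
  have hene := AA_ne (y 4)
  have hfne := AA_ne (y 5)
  generalize ha : AA (y 0) = a at key hane
  generalize hb : AA (y 1) = b at key hbne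
  generalize hc : AA (y 2) = c at key hcne
  generalize hd : AA (y 3) = d at key hdne
  generalize he : AA (y 4) = e at key hene
  generalize hf : AA (y 5) = f at key hfne
  have hco := coeffs ![0, -(a + b), a * b + (d + e), 0, -(d * e) + f, 0, -c - (d + e) * f, (a + b) * c, -(a * b * c) + d * e * f] (by
      intro x
      simp [Fin.sum_univ_succ]
      linear_combination key x)
  have h1 : -(a + b) = 0 := hco 1
  have h2 : a * b + (d + e) = 0 := hco 2
  have h4 : -(d * e) + f = 0 := hco 4
  have h6 : -c - (d + e) * f = 0 := hco 6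
  have h8 : -(a * b * c) + d * e * f = 0 := hco 8
  have hb' : b = -a := by linear_combination -h1
  have hf' : f = d * e := by linear_combination h4
  have hde : d + e = a ^ 2 := by linear_combination h2 - a * hb'
  have hc1 : c = -(a ^ 2 * f) := by linear_combination -h6 - f * hde
  have hf2 : f = a ^ 4 := by
    have : f * (f - a ^ 4) = 0 := by
      linear_combination h8 + f * hf' + a * c * hb' - a ^ 2 * hc1
    rcases mul_eq_zero.mp this with h | h
    · exact absurd h hfne
    · linear_combination h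
  have hde2 : d * e = (a ^ 2) ^ 2 := by rw [← hf', hf2]; ring
  have hc2 : c = -a ^ 6 := by rw [hc1, hf2]; ring
  have fam : ([(1, 5), (1, 35), (6, 0), (2, 0), (2, 20), (4, 20)] : List (ℤ × ℤ)) ∈ Fams := by
    simp [Fams]
  have f0 : famv [(1, 5), (1, 35), (6, 0), (2, 0), (2, 20), (4, 20)] (y 0 - 1 / 12) 0 = y 0 := by
    simp [famv] <;> ring_nf
  have f1 : famv [(1, 5), (1, 35), (6, 0), (2, 0), (2, 20), (4, 20)] (y 0 - 1 / 12) 1 = y 0 + 1 / 2 := by
    simp [famv] <;> ring_nf
  have f2 : famv [(1, 5), (1, 35), (6, 0), (2, 0), (2, 20), (4, 20)] (y 0 - 1 / 12) 2 = 6 * y 0 - 1 / 2 := by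
    simp [famv] <;> ring_nf
  have f3 : famv [(1, 5), (1, 35), (6, 0), (2, 0), (2, 20), (4, 20)] (y 0 - 1 / 12) 3 = 2 * y 0 - 1 / 6 := by
    simp [famv] <;> ring_nf
  have f4 : famv [(1, 5), (1, 35), (6, 0), (2, 0), (2, 20), (4, 20)] (y 0 - 1 / 12) 4 = 2 * y 0 + 1 / 6 := by
    simp [famv] <;> ring_nf
  have f5 : famv [(1, 5), (1, 35), (6, 0), (2, 0), (2, 20), (4, 20)] (y 0 - 1 / 12) 5 = 4 * y 0 := by
    simp [famv] <;> ring_nf
  have g1 : b = AA (y 0 + 1 / 2) := by rw [hb', ← ha, neg_AA]
  have g2 : c = AA (6 * y 0 - 1 / 2) := by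
    rw [hc2, ← ha, AA_six, neg_AA]; exact AA_congr 1 (by push_cast; ring)
  have g3 : a ^ 2 * AA (-(1 / 6)) = AA (2 * y 0 - 1 / 6) := by rw [← ha, AA_sq, ← AA_add]; rfl
  have g4 : a ^ 2 * AA (1 / 6) = AA (2 * y 0 + 1 / 6) := by rw [← ha, AA_sq, ← AA_add]
  have g5 : f = AA (4 * y 0) := by rw [hf2, ← ha, AA_four]
  rcases hex_pair (pow_ne_zero 2 hane) hde hde2 with ⟨kd, ke⟩ | ⟨kd, ke⟩
  · refine fam_family _ fam (1) blk_one (y 0 - 1 / 12) ?_
    intro i
    fin_cases i
    · exact (rfl).trans (congrArg AA f0.symm)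
    · exact (hb.trans g1).trans (congrArg AA f1.symm)
    · exact (hc.trans g2).trans (congrArg AA f2.symm)
    · exact (hd.trans (kd.trans g3)).trans (congrArg AA f3.symm)
    · exact (he.trans (ke.trans g4)).trans (congrArg AA f4.symm)
    · exact (hf.trans g5).trans (congrArg AA f5.symm)
  · refine fam_family _ fam (Equiv.swap 3 4) (Or.inl (by decide)) (y 0 - 1 / 12) ?_
    intro i
    fin_cases i
    · exact (rfl).trans (congrArg AA f0.symm)
    · exact (hb.trans g1).trans (congrArg AA f1.symm)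
    · exact (hc.trans g2).trans (congrArg AA f2.symm)
    · exact (hd.trans (kd.trans g4)).trans (congrArg AA f4.symm)
    · exact (he.trans (ke.trans g3)).trans (congrArg AA f3.symm)
    · exact (hf.trans g5).trans (congrArg AA f5.symm)

lemma le3 (l0 : StmtL0) : LineSt [2, 2, 4, 2, 3, 3] := by
  intro y _ _ hl
  have key := norm_id l0 y ![2, 2, 4, 2, 3, 3] rfl (by decide) (by simpa using hl)
  simp only [Fin.isValue, Matrix.cons_val_zero, Matrix.cons_val_one, Matrix.cons_val, pow_one] at key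
  have hane := AA_ne (y 0)
  have hbne := AA_ne (y 1)
  have hcne := AA_ne (y 2)
  have hdne := AA_ne (y 3)
  have hene := AA_ne (y 4)
  have hfne := AA_ne (y 5)
  generalize ha : AA (y 0) = a at key hane
  generalize hb : AA (y 1) = b at key hbne
  generalize hc : AA (y 2) = c at key hcne
  generalize hd : AA (y 3) = d at key hdne
  generalize he : AA (y 4) = e at key hene
  generalize hf : AA (y 5) = f at key hfne
  have hco := coeffs ![0, 0, d - (a + b), e + f, a * b - c, -(d * (e + f)), (a + b) * c - e * f, 0, -(a * b * c) + d * e * f] (by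
      intro x
      simp [Fin.sum_univ_succ]
      linear_combination key x)
  have h2 : d - (a + b) = 0 := hco 2
  have h3 : e + f = 0 := hco 3
  have h4 : a * b - c = 0 := hco 4
  have h6 : (a + b) * c - e * f = 0 := hco 6
  have h8 : -(a * b * c) + d * e * f = 0 := hco 8
  have hsum : a + b = d := by linear_combination -h2
  have hc1 : c = d ^ 2 := by
    have : c * (c - d ^ 2) = 0 := by
      linear_combination -h8 - c * h4 - d * h6 - d * c * h2
    rcases mul_eq_zero.mp this with h | h
    · exact absurd h hcne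
    · linear_combination h
  have hab : a * b = d ^ 2 := by rw [← hc1]; linear_combination h4
  have hf' : f = -e := by linear_combination h3
  have he2 : e ^ 2 = -d ^ 3 := by
    linear_combination h6 + e * hf' - c * hsum - d * hc1
  -- `P = e / (d * AA (-1/6))`
  set p : ℝ := y 4 - y 3 + 1 / 6 with hp
  have hP : AA p = e * (AA (y 3))⁻¹ * AA (1 / 6) := by
    have : p = y 4 + -(y 3) + 1 / 6 := by rw [hp]; ring
    rw [this, AA_add, AA_add, AA_neg, he]
  have hP2 : AA (2 * p) = d * AA (-(1 / 6)) := by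
    have s1 : AA (1 / 6) ^ 2 = AA (1 / 3) := by rw [AA_sq]; norm_num
    have s2 : AA (1 / 3) = -AA (-(1 / 6)) := by rw [neg_AA]; norm_num
    rw [← AA_sq, hP, hd, mul_pow, mul_pow, s1, s2, he2]
    field_simp
  have hP3 : AA (3 * p) = e := by
    have s1 : AA (1 / 6) * AA (-(1 / 6)) = 1 := AA_sixth_mul
    have : 3 * p = 2 * p + p := by ring
    rw [this, AA_add, hP2, hP, hd]
    field_simp
    linear_combination s1
  have fam : ([(2, 0), (2, 20), (4, 20), (2, 10), (3, 0), (3, 30)] : List (ℤ × ℤ)) ∈ Fams := by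
    simp [Fams]
  have f0 : famv [(2, 0), (2, 20), (4, 20), (2, 10), (3, 0), (3, 30)] (p) 0 = 2 * p := by
    simp [famv] <;> ring_nf
  have f1 : famv [(2, 0), (2, 20), (4, 20), (2, 10), (3, 0), (3, 30)] (p) 1 = 2 * p + 1 / 3 := by
    simp [famv] <;> ring_nf
  have f2 : famv [(2, 0), (2, 20), (4, 20), (2, 10), (3, 0), (3, 30)] (p) 2 = 4 * p + 1 / 3 := by
    simp [famv] <;> ring_nf
  have f3 : famv [(2, 0), (2, 20), (4, 20), (2, 10), (3, 0), (3, 30)] (p) 3 = 2 * p + 1 / 6 := by
    simp [famv] <;> ring_nf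
  have f4 : famv [(2, 0), (2, 20), (4, 20), (2, 10), (3, 0), (3, 30)] (p) 4 = 3 * p := by
    simp [famv] <;> ring_nf
  have f5 : famv [(2, 0), (2, 20), (4, 20), (2, 10), (3, 0), (3, 30)] (p) 5 = 3 * p + 1 / 2 := by
    simp [famv] <;> ring_nf
  have g0 : d * AA (-(1 / 6)) = AA (2 * p) := hP2.symm
  have s3 : AA (-(1 / 6)) * AA (1 / 6) = 1 := by rw [mul_comm]; exact AA_sixth_mul
  have hd3 : d = AA (2 * p + 1 / 6) := by
    rw [AA_add, hP2]; linear_combination -d * s3
  have g1 : d * AA (1 / 6) = AA (2 * p + 1 / 3) := by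
    rw [hd3, ← AA_add]; exact AA_congr 0 (by push_cast; ring)
  have g2 : c = AA (4 * p + 1 / 3) := by
    rw [hc1, hd3, AA_sq]; exact AA_congr 0 (by push_cast; ring)
  have g5 : f = AA (3 * p + 1 / 2) := by rw [hf', ← neg_AA, hP3]
  rcases hex_pair hdne hsum hab with ⟨ka, kb⟩ | ⟨ka, kb⟩
  · refine fam_family _ fam (1) blk_one (p) ?_
    intro i
    fin_cases i
    · exact (ha.trans (ka.trans g0)).trans (congrArg AA f0.symm)
    · exact (hb.trans (kb.trans g1)).trans (congrArg AA f1.symm)
    · exact (hc.trans g2).trans (congrArg AA f2.symm)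
    · exact (hd.trans hd3).trans (congrArg AA f3.symm)
    · exact (he.trans hP3.symm).trans (congrArg AA f4.symm)
    · exact (hf.trans g5).trans (congrArg AA f5.symm)
  · refine fam_family _ fam (Equiv.swap 0 1) (Or.inl (by decide)) (p) ?_
    intro i
    fin_cases i
    · exact (ha.trans (ka.trans g1)).trans (congrArg AA f1.symm)
    · exact (hb.trans (kb.trans g0)).trans (congrArg AA f0.symm)
    · exact (hc.trans g2).trans (congrArg AA f2.symm)
    · exact (hd.trans hd3).trans (congrArg AA f3.symm)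
    · exact (he.trans hP3.symm).trans (congrArg AA f4.symm)
    · exact (hf.trans g5).trans (congrArg AA f5.symm)

lemma le4 (l0 : StmtL0) : LineSt [3, 3, 6, 4, 4, 4] := by
  intro y _ _ hl
  have key := norm_id l0 y ![3, 3, 6, 4, 4, 4] rfl (by decide) (by simpa using hl)
  simp only [Fin.isValue, Matrix.cons_val_zero, Matrix.cons_val_one, Matrix.cons_val, pow_one] at key
  have hane := AA_ne (y 0)
  have hbne := AA_ne (y 1)
  have hcne := AA_ne (y 2)
  have hdne := AA_ne (y 3)
  have hene := AA_ne (y 4)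
  have hfne := AA_ne (y 5)
  generalize ha : AA (y 0) = a at key hane
  generalize hb : AA (y 1) = b at key hbne
  generalize hc : AA (y 2) = c at key hcne
  generalize hd : AA (y 3) = d at key hdne
  generalize he : AA (y 4) = e at key hene
  generalize hf : AA (y 5) = f at key hfne
  have hco := coeffs ![0, 0, 0, -(a + b), d + e + f, 0, a * b - c, 0, -(d * e + e * f + d * f), (a + b) * c, 0, 0, -(a * b * c) + d * e * f] (by
      intro x
      simp [Fin.sum_univ_succ]
      linear_combination key x)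
  have h3 : -(a + b) = 0 := hco 3
  have h4 : d + e + f = 0 := hco 4
  have h6 : a * b - c = 0 := hco 6
  have h8 : -(d * e + e * f + d * f) = 0 := hco 8
  have h12 : -(a * b * c) + d * e * f = 0 := hco 12
  have hb' : b = -a := by linear_combination -h3
  have hc1 : c = -a ^ 2 := by linear_combination -h6 + a * hb'
  have hef1 : e + f = -d := by linear_combination h4
  have hef2 : e * f = d ^ 2 := by linear_combination -h8 - d * hef1
  have hd3 : d ^ 3 = a ^ 4 := by
    linear_combination h12 - d * hef2 + a * c * hb' - a ^ 2 * hc1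
  set p : ℝ := y 3 - y 0 with hp
  have hP : AA p = d * a⁻¹ := by
    have : p = y 3 + -(y 0) := by rw [hp]; ring
    rw [this, AA_add, AA_neg, hd, ha]
  have hP3 : AA (3 * p) = a := by
    rw [← AA_cube, hP, mul_pow, hd3]
    field_simp
  have hP4 : AA (4 * p) = d := by
    rw [← AA_four, hP, mul_pow, show d ^ 4 = d * d ^ 3 by ring, hd3]
    field_simp
  have fam : ([(3, 0), (3, 30), (6, 30), (4, 0), (4, 20), (4, 40)] : List (ℤ × ℤ)) ∈ Fams := by
    simp [Fams]
  have f0 : famv [(3, 0), (3, 30), (6, 30), (4, 0), (4, 20), (4, 40)] (p) 0 = 3 * p := by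
    simp [famv] <;> ring_nf
  have f1 : famv [(3, 0), (3, 30), (6, 30), (4, 0), (4, 20), (4, 40)] (p) 1 = 3 * p + 1 / 2 := by
    simp [famv] <;> ring_nf
  have f2 : famv [(3, 0), (3, 30), (6, 30), (4, 0), (4, 20), (4, 40)] (p) 2 = 6 * p + 1 / 2 := by
    simp [famv] <;> ring_nf
  have f3 : famv [(3, 0), (3, 30), (6, 30), (4, 0), (4, 20), (4, 40)] (p) 3 = 4 * p := by
    simp [famv] <;> ring_nf
  have f4 : famv [(3, 0), (3, 30), (6, 30), (4, 0), (4, 20), (4, 40)] (p) 4 = 4 * p + 1 / 3 := by
    simp [famv] <;> ring_nf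
  have f5 : famv [(3, 0), (3, 30), (6, 30), (4, 0), (4, 20), (4, 40)] (p) 5 = 4 * p + 2 / 3 := by
    simp [famv] <;> ring_nf
  have g1 : b = AA (3 * p + 1 / 2) := by rw [hb', ← neg_AA, hP3]
  have g2 : c = AA (6 * p + 1 / 2) := by
    have : AA (6 * p) = a ^ 2 := by
      rw [← hP3, AA_sq]; congr 1; ring
    rw [hc1, ← neg_AA, this]
  have g4 : d * AA (1 / 3) = AA (4 * p + 1 / 3) := by rw [AA_add, hP4]
  have g5 : d * AA (-(1 / 3)) = AA (4 * p + 2 / 3) := by
    rw [← hP4, ← AA_add]; exact AA_congr (-1) (by push_cast; ring)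
  rcases tri_pair hdne hef1 hef2 with ⟨ke, kf⟩ | ⟨ke, kf⟩
  · refine fam_family _ fam (1) blk_one (p) ?_
    intro i
    fin_cases i
    · exact (ha.trans hP3.symm).trans (congrArg AA f0.symm)
    · exact (hb.trans g1).trans (congrArg AA f1.symm)
    · exact (hc.trans g2).trans (congrArg AA f2.symm)
    · exact (hd.trans hP4.symm).trans (congrArg AA f3.symm)
    · exact (he.trans (ke.trans g4)).trans (congrArg AA f4.symm)
    · exact (hf.trans (kf.trans g5)).trans (congrArg AA f5.symm)
  · refine fam_family _ fam (Equiv.swap 4 5) (Or.inl (by decide)) (p) ?_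
    intro i
    fin_cases i
    · exact (ha.trans hP3.symm).trans (congrArg AA f0.symm)
    · exact (hb.trans g1).trans (congrArg AA f1.symm)
    · exact (hc.trans g2).trans (congrArg AA f2.symm)
    · exact (hd.trans hP4.symm).trans (congrArg AA f3.symm)
    · exact (he.trans (ke.trans g5)).trans (congrArg AA f5.symm)
    · exact (hf.trans (kf.trans g4)).trans (congrArg AA f4.symm)

theorem le (l0 : StmtL0) : ∀ w ∈ ([[1, 1, 4, 1, 2, 3], [1, 1, 6, 2, 2, 4], [2, 2, 4, 2, 3, 3],
    [3, 3, 6, 4, 4, 4]] : List (List ℤ)), LineSt w := by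
  intro w hw
  simp only [List.mem_cons, List.not_mem_nil, or_false] at hw
  rcases hw with rfl | rfl | rfl | rfl
  · exact le1 l0
  · exact le2 l0
  · exact le3 l0
  · exact le4 l0

end Pool.Agent.T6.H31.TC
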