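import Pool.Agent.T6.H31.TC.Stmts

set_option autoImplicit false

/-! Tools for the line modules LD, LE (problem MP_6e4ab6_nt). -/

namespace Pool.Agent.T6.H31.TC

open Finset

namespace LT

/-- `exp (2 pi i r)` -/
noncomputable def AA (r : ℝ) : ℂ := Complex.exp (((2 * Real.pi * r : ℝ) : ℂ) * Complex.I)

lemma aa_eq (y : Fin 6 → ℝ) (i : Fin 6) : aa y i = AA (y i) := rfl

lemma AA_ne (r : ℝ) : AA r ≠ 0 := Complex.exp_ne_zero _

lemma AA_add (r s : ℝ) : AA (r + s) = AA r * AA s := by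
  unfold AA
  rw [← Complex.exp_add]
  congr 1
  push_cast
  ring

lemma AA_zero : AA 0 = 1 := by
  unfold AA
  simp

lemma AA_int (k : ℤ) : AA (k : ℝ) = 1 := by
  unfold AA
  rw [Complex.exp_eq_one_iff]
  refine ⟨k, ?_⟩
  push_cast
  ring

lemma AA_neg (r : ℝ) : AA (-r) = (AA r)⁻¹ := by
  have h : AA (-r) * AA r = 1 := by
    rw [← AA_add]; simp [AA_zero]
  exact eq_inv_of_mul_eq_one_left h

lemma AA_nat_mul (n : ℕ) (r : ℝ) : AA ((n : ℝ) * r) = AA r ^ n := by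
  induction n with
  | zero => simp [AA_zero]
  | succ n ih =>
    have : ((n + 1 : ℕ) : ℝ) * r = n * r + r := by push_cast; ring
    rw [this, AA_add, ih, pow_succ]

lemma AA_eq_iff (r s : ℝ) : AA r = AA s ↔ ∃ k : ℤ, r = s + k := by
  unfold AA
  rw [Complex.exp_eq_exp_iff_exists_int]
  constructor
  · rintro ⟨n, hn⟩
    refine ⟨n, ?_⟩
    have h2 : (((2 * Real.pi * r : ℝ) : ℂ)) = ((2 * Real.pi * s : ℝ) : ℂ) + n * (2 * Real.pi) := by
      have hI : Complex.I ≠ 0 := Complex.I_ne_zero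
      apply mul_right_cancel₀ hI
      rw [hn]; ring
    have h3 : 2 * Real.pi * r = 2 * Real.pi * s + n * (2 * Real.pi) := by
      exact_mod_cast h2
    have hp : 2 * Real.pi ≠ 0 := by positivity
    apply mul_left_cancel₀ hp
    rw [h3]; ring
  · rintro ⟨n, hn⟩
    refine ⟨n, ?_⟩
    subst hn
    push_cast
    ring

lemma AA_half : AA (1 / 2) = -1 := by
  unfold AA
  have : (((2 * Real.pi * (1 / 2) : ℝ) : ℂ)) = (Real.pi : ℂ) := by push_cast; ring
  rw [this, Complex.exp_pi_mul_I]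

lemma AA_sixth_sum : AA (1 / 6) + AA (-(1 / 6)) = 1 := by
  unfold AA
  have e1 : (((2 * Real.pi * (1 / 6) : ℝ) : ℂ)) = ((Real.pi / 3 : ℝ) : ℂ) := by push_cast; ring
  have e2 : (((2 * Real.pi * (-(1 / 6)) : ℝ) : ℂ)) = ((-(Real.pi / 3) : ℝ) : ℂ) := by push_cast; ring
  rw [e1, e2, Complex.exp_mul_I, Complex.exp_mul_I, ← Complex.ofReal_cos, ← Complex.ofReal_sin,
    ← Complex.ofReal_cos, ← Complex.ofReal_sin, Real.cos_neg, Real.sin_neg, Real.cos_pi_div_three]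
  push_cast
  ring

lemma AA_sixth_mul : AA (1 / 6) * AA (-(1 / 6)) = 1 := by
  rw [← AA_add]; simp [AA_zero]

lemma root6 (t : ℂ) (h : t ^ 2 - t + 1 = 0) : t = AA (1 / 6) ∨ t = AA (-(1 / 6)) := by
  have : (t - AA (1 / 6)) * (t - AA (-(1 / 6))) = 0 := by
    have e1 := AA_sixth_sum
    have e2 := AA_sixth_mul
    linear_combination h - t * e1 + e2
  rcases mul_eq_zero.mp this with h | h
  · left; exact sub_eq_zero.mp h
  · right; exact sub_eq_zero.mp h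

lemma root3 (t : ℂ) (h : t ^ 2 + t + 1 = 0) : t = AA (1 / 3) ∨ t = AA (-(1 / 3)) := by
  have h1 : (-t) ^ 2 - (-t) + 1 = 0 := by linear_combination h
  rcases root6 (-t) h1 with h2 | h2
  · right
    have : t = AA (1 / 2) * AA (1 / 6) := by rw [AA_half]; linear_combination -h2
    rw [this, ← AA_add, AA_eq_iff]
    exact ⟨1, by norm_num⟩
  · left
    have : t = AA (1 / 2) * AA (-(1 / 6)) := by rw [AA_half]; linear_combination -h2
    rw [this, ← AA_add, AA_eq_iff]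
    exact ⟨0, by norm_num⟩

/-- `a ^ 2 - d a + d ^ 2 = 0` -/
lemma hex {a d : ℂ} (hd : d ≠ 0) (h : a ^ 2 - d * a + d ^ 2 = 0) :
    a = d * AA (1 / 6) ∨ a = d * AA (-(1 / 6)) := by
  have h1 : (a / d) ^ 2 - (a / d) + 1 = 0 := by
    field_simp
    linear_combination h
  rcases root6 _ h1 with h2 | h2
  · left; rw [← h2]; field_simp
  · right; rw [← h2]; field_simp

lemma tri {a d : ℂ} (hd : d ≠ 0) (h : a ^ 2 + d * a + d ^ 2 = 0) :
    a = d * AA (1 / 3) ∨ a = d * AA (-(1 / 3)) := by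
  have h1 : (a / d) ^ 2 + (a / d) + 1 = 0 := by
    field_simp
    linear_combination h
  rcases root3 _ h1 with h2 | h2
  · left; rw [← h2]; field_simp
  · right; rw [← h2]; field_simp

/-- coefficients of a vanishing polynomial function -/
lemma coeffs {n : ℕ} (c : Fin n → ℂ) (h : ∀ x : ℂ, ∑ k, c k * x ^ (k : ℕ) = 0) : ∀ k, c k = 0 := by
  classical
  set P : Polynomial ℂ := ∑ k : Fin n, Polynomial.C (c k) * Polynomial.X ^ (k : ℕ) with hP
  have hP0 : P = 0 := by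
    apply Polynomial.funext
    intro x
    rw [hP, Polynomial.eval_finsetSum]
    simp only [Polynomial.eval_mul, Polynomial.eval_C, Polynomial.eval_pow, Polynomial.eval_X,
      Polynomial.eval_zero]
    exact h x
  intro k
  have hk : P.coeff (k : ℕ) = c k := by
    rw [hP, Polynomial.finsetSum_coeff]
    rw [Finset.sum_eq_single k]
    · simp
    · intro b _ hb
      rw [Polynomial.coeff_C_mul, Polynomial.coeff_X_pow, if_neg, mul_zero]
      intro hbk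
      exact hb (Fin.ext hbk.symm)
    · intro hk; exact absurd (Finset.mem_univ _) hk
  rw [← hk, hP0, Polynomial.coeff_zero]

lemma hh_ne (y : Fin 6 → ℝ) (i : Fin 6) : hh y i ≠ 0 := Complex.exp_ne_zero _

/-- the normalised polynomial identity for positive directions -/
lemma norm_id (l0 : StmtL0) (y : Fin 6 → ℝ) (w : Fin 6 → ℕ) (hw : w 0 + w 1 + w 2 = w 3 + w 4 + w 5)
    (hpos : ∀ i, 0 < w i)
    (hl : Line y [(w 0 : ℤ), (w 1 : ℤ), (w 2 : ℤ), (w 3 : ℤ), (w 4 : ℤ), (w 5 : ℤ)]) :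
    ∀ x : ℂ, (1 - AA (y 0) * x ^ w 0) * (1 - AA (y 1) * x ^ w 1) * (1 - AA (y 2) * x ^ w 2) =
      (1 - AA (y 3) * x ^ w 3) * (1 - AA (y 4) * x ^ w 4) * (1 - AA (y 5) * x ^ w 5) := by
  have h := l0 y w hw hl
  simp only [aa_eq] at h
  have h0 := h 0
  simp only [ne_eq, (hpos 0).ne', (hpos 1).ne', (hpos 2).ne', (hpos 3).ne', (hpos 4).ne',
    (hpos 5).ne', not_false_eq_true, zero_pow, mul_zero, sub_zero, mul_one] at h0
  have hne : hh y 0 * hh y 1 * hh y 2 ≠ 0 :=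
    mul_ne_zero (mul_ne_zero (hh_ne y 0) (hh_ne y 1)) (hh_ne y 2)
  intro x
  have hx := h x
  apply mul_left_cancel₀ hne
  linear_combination hx - h0 * ((1 - AA (y 3) * x ^ w 3) * (1 - AA (y 4) * x ^ w 4) * (1 - AA (y 5) * x ^ w 5))

lemma eqv_of_AA {r s : ℝ} (h : AA r = AA s) : eqv r s := by
  obtain ⟨k, hk⟩ := (AA_eq_iff r s).mp h
  exact ⟨k, Or.inl hk⟩

lemma comm_of {y : Fin 6 → ℝ} (i j : Fin 6) (hi : i.val < 3) (hj : 3 ≤ j.val)
    (h : AA (y i) = AA (y j)) : Res y := Or.inl ⟨i, j, hi, hj, eqv_of_AA h⟩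

lemma match_of {y z : Fin 6 → ℝ} (σ : Equiv.Perm (Fin 6)) (hσ : Blk σ)
    (h : ∀ i, AA (y i) = AA (z (σ i))) : Match y z := ⟨σ, hσ, fun i => eqv_of_AA (h i)⟩

lemma hex_pair {a b d : ℂ} (hd : d ≠ 0) (h1 : a + b = d) (h2 : a * b = d ^ 2) :
    (a = d * AA (-(1 / 6)) ∧ b = d * AA (1 / 6)) ∨ (a = d * AA (1 / 6) ∧ b = d * AA (-(1 / 6))) := by
  have h : a ^ 2 - d * a + d ^ 2 = 0 := by linear_combination a * h1 - h2
  have e1 := AA_sixth_sum
  rcases hex hd h with h3 | h3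
  · right; refine ⟨h3, ?_⟩
    linear_combination h1 - h3 - d * e1
  · left; refine ⟨h3, ?_⟩
    linear_combination h1 - h3 - d * e1

lemma AA_third_sum : AA (1 / 3) + AA (-(1 / 3)) = -1 := by
  have e1 := AA_sixth_sum
  have h1 : AA (1 / 3) = AA (1 / 2) * AA (-(1 / 6)) := by
    rw [← AA_add]; norm_num
  have h2 : AA (-(1 / 3)) = AA (1 / 2) * AA (1 / 6) := by
    rw [← AA_add, AA_eq_iff]; exact ⟨-1, by norm_num⟩
  rw [h1, h2, AA_half]
  linear_combination -e1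

lemma tri_pair {a b d : ℂ} (hd : d ≠ 0) (h1 : a + b = -d) (h2 : a * b = d ^ 2) :
    (a = d * AA (1 / 3) ∧ b = d * AA (-(1 / 3))) ∨ (a = d * AA (-(1 / 3)) ∧ b = d * AA (1 / 3)) := by
  have h : a ^ 2 + d * a + d ^ 2 = 0 := by linear_combination a * h1 - h2
  have e1 := AA_third_sum
  rcases tri hd h with h3 | h3
  · left; refine ⟨h3, ?_⟩
    linear_combination h1 - h3 - d * e1
  · right; refine ⟨h3, ?_⟩
    linear_combination h1 - h3 - d * e1

lemma neg_AA (r : ℝ) : -AA r = AA (r + 1 / 2) := by rw [AA_add, AA_half]; ring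

lemma AA_sq (r : ℝ) : AA r ^ 2 = AA (2 * r) := by rw [← AA_nat_mul]; norm_num

lemma AA_cube (r : ℝ) : AA r ^ 3 = AA (3 * r) := by rw [← AA_nat_mul]; norm_num

lemma AA_four (r : ℝ) : AA r ^ 4 = AA (4 * r) := by rw [← AA_nat_mul]; norm_num

lemma AA_six (r : ℝ) : AA r ^ 6 = AA (6 * r) := by rw [← AA_nat_mul]; norm_num

/-- the first family -/
lemma first_family {y : Fin 6 → ℝ} (σ : Equiv.Perm (Fin 6)) (hσ : Blk σ) (p q : ℝ)
    (h : ∀ i, AA (y i) = AA (![p, p + 1 / 2, 2 * q, q, q + 1 / 2, 2 * p] (σ i))) : Res y :=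
  Or.inr (Or.inl ⟨p, q, match_of σ hσ h⟩)

lemma fam_family {y : Fin 6 → ℝ} (f : List (ℤ × ℤ)) (hf : f ∈ Fams) (σ : Equiv.Perm (Fin 6))
    (hσ : Blk σ) (p : ℝ) (h : ∀ i, AA (y i) = AA (famv f p (σ i))) : Res y :=
  Or.inr (Or.inr (Or.inl ⟨f, hf, p, match_of σ hσ h⟩))

lemma blk_one : Blk (1 : Equiv.Perm (Fin 6)) := Or.inl (fun _ => Iff.rfl)

lemma AA_congr {r s : ℝ} (k : ℤ) (h : r = s + k) : AA r = AA s := (AA_eq_iff r s).mpr ⟨k, h⟩

end LT

end Pool.Agent.T6.H31.TC
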