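import Pool.Agent.T6.H31.TC.Stmts

set_option autoImplicit false

/-! Module LV: from the vanishing sum to a line, a level or the mixed case. -/

namespace Pool.Agent.T6.H31.TC

open Finset

namespace ModLV

/-- the small combinatorics of the set of primes -/
theorem P_le4 (P : Finset ℕ) (hP : P ⊆ {5, 7, 11, 13}) (h : ∀ p ∈ P, p ≤ 4) :
    6 * ∏ p ∈ P, p = 6 := by
  have key : ∀ P ∈ ({5, 7, 11, 13} : Finset ℕ).powerset, (∀ p ∈ P, p ≤ 4) →
      6 * ∏ p ∈ P, p = 6 := by decide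
  exact key P (Finset.mem_powerset.mpr hP) h

theorem P_le6 (P : Finset ℕ) (hP : P ⊆ {5, 7, 11, 13}) (h : ∀ p ∈ P, p ≤ 6) :
    6 * ∏ p ∈ P, p = 6 ∨ 6 * ∏ p ∈ P, p = 30 := by
  have key : ∀ P ∈ ({5, 7, 11, 13} : Finset ℕ).powerset, (∀ p ∈ P, p ≤ 6) →
      6 * ∏ p ∈ P, p = 6 ∨ 6 * ∏ p ∈ P, p = 30 := by decide
  exact key P (Finset.mem_powerset.mpr hP) h

theorem P_le6' (P : Finset ℕ) (hP : P ⊆ {5, 7, 11, 13}) (h : ∀ p ∈ P, p ≤ 6) :
    6 * ∏ p ∈ P, p = 6 ∨ (6 * ∏ p ∈ P, p = 30 ∧ 5 ∈ P) := by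
  have key : ∀ P ∈ ({5, 7, 11, 13} : Finset ℕ).powerset, (∀ p ∈ P, p ≤ 6) →
      6 * ∏ p ∈ P, p = 6 ∨ (6 * ∏ p ∈ P, p = 30 ∧ 5 ∈ P) := by decide
  exact key P (Finset.mem_powerset.mpr hP) h

theorem P_le10 (P : Finset ℕ) (hP : P ⊆ {5, 7, 11, 13}) (h : ∀ p ∈ P, p ≤ 10) :
    6 * ∏ p ∈ P, p = 6 ∨ 6 * ∏ p ∈ P, p = 30 ∨ 6 * ∏ p ∈ P, p = 42 ∨
      (6 * ∏ p ∈ P, p = 210 ∧ 5 ∈ P ∧ 7 ∈ P) := by
  have key : ∀ P ∈ ({5, 7, 11, 13} : Finset ℕ).powerset, (∀ p ∈ P, p ≤ 10) →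
      6 * ∏ p ∈ P, p = 6 ∨ 6 * ∏ p ∈ P, p = 30 ∨ 6 * ∏ p ∈ P, p = 42 ∨
      (6 * ∏ p ∈ P, p = 210 ∧ 5 ∈ P ∧ 7 ∈ P) := by decide
  exact key P (Finset.mem_powerset.mpr hP) h

theorem P_le12 (P : Finset ℕ) (hP : P ⊆ {5, 7, 11, 13}) (h : ∀ p ∈ P, p ≤ 12) :
    6 * ∏ p ∈ P, p = 6 ∨ 6 * ∏ p ∈ P, p = 30 ∨ 6 * ∏ p ∈ P, p = 42 ∨
      (6 * ∏ p ∈ P, p = 210 ∧ 5 ∈ P ∧ 7 ∈ P) ∨ 6 * ∏ p ∈ P, p = 66 ∨
      (11 ∈ P ∧ (5 ∈ P ∨ 7 ∈ P)) := by
  have key : ∀ P ∈ ({5, 7, 11, 13} : Finset ℕ).powerset, (∀ p ∈ P, p ≤ 12) →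
      6 * ∏ p ∈ P, p = 6 ∨ 6 * ∏ p ∈ P, p = 30 ∨ 6 * ∏ p ∈ P, p = 42 ∨
      (6 * ∏ p ∈ P, p = 210 ∧ 5 ∈ P ∧ 7 ∈ P) ∨ 6 * ∏ p ∈ P, p = 66 ∨
      (11 ∈ P ∧ (5 ∈ P ∨ 7 ∈ P)) := by decide
  exact key P (Finset.mem_powerset.mpr hP) h

theorem P_all (P : Finset ℕ) (hP : P ⊆ {5, 7, 11, 13}) :
    6 * ∏ p ∈ P, p = 6 ∨ 6 * ∏ p ∈ P, p = 30 ∨ 6 * ∏ p ∈ P, p = 42 ∨ 6 * ∏ p ∈ P, p = 210 ∨
      6 * ∏ p ∈ P, p = 66 ∨ 6 * ∏ p ∈ P, p = 78 ∨
      (∃ p ∈ P, ∃ q ∈ P, (p = 11 ∨ p = 13) ∧ q < p) := by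
  have key : ∀ P ∈ ({5, 7, 11, 13} : Finset ℕ).powerset,
      6 * ∏ p ∈ P, p = 6 ∨ 6 * ∏ p ∈ P, p = 30 ∨ 6 * ∏ p ∈ P, p = 42 ∨ 6 * ∏ p ∈ P, p = 210 ∨
      6 * ∏ p ∈ P, p = 66 ∨ 6 * ∏ p ∈ P, p = 78 ∨
      (∃ p ∈ P, ∃ q ∈ P, (p = 11 ∨ p = 13) ∧ q < p) := by decide
  exact key P (Finset.mem_powerset.mpr hP)

theorem pair_dvd (P : Finset ℕ) (p q : ℕ) (hp : p ∈ P) (hq : q ∈ P) (hpq : p ≠ q) :
    p * q ∣ 6 * ∏ p ∈ P, p := by
  apply Dvd.dvd.mul_left
  have h1 : ({p, q} : Finset ℕ) ⊆ P := by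
    intro x hx
    rcases Finset.mem_insert.mp hx with rfl | hx
    · exact hp
    · rw [Finset.mem_singleton.mp hx]; exact hq
  have h2 := Finset.prod_dvd_prod_of_subset _ _ (fun x : ℕ => x) h1
  rwa [Finset.prod_pair hpq] at h2

/-- a full class sits in a class of the sixteen leaves -/
theorem classcard (hA3 : StmtA3) (N D p : ℕ) (e : Fin 6 → ℤ) (hN : 0 < N) (hD : D ∣ N)
    (h2 : 2 ∣ D) (hp : 0 < p) (h : Full (EE N e) N p D) :
    ∃ m : Fin 16, p ≤ (univ.filter (fun n : Fin 16 => ((N / D : ℕ) : ℤ) ∣ dv m n e)).card := by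
  obtain ⟨y, hy⟩ := h
  have h3 := hA3 (Fin 16) (EE N e) N D p y hN hD hp hy
  have hQ : ((N / D : ℕ) : ℤ) ∣ ((N / 2 : ℕ) : ℤ) := by
    obtain ⟨k, rfl⟩ := h2
    obtain ⟨l, rfl⟩ := hD
    have hk : 0 < 2 * k := by
      rcases Nat.eq_zero_or_pos k with rfl | hk
      · simp at hN
      · omega
    have e1 : 2 * k * l / (2 * k) = l := Nat.mul_div_cancel_left l hk
    have e2 : 2 * k * l / 2 = k * l := by
      rw [mul_assoc]; exact Nat.mul_div_cancel_left _ (by norm_num)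
    rw [e1, e2]
    push_cast
    exact Dvd.intro_left _ rfl
  obtain ⟨m, hm⟩ := Finset.card_pos.mp (lt_of_lt_of_le hp h3)
  refine ⟨m, h3.trans (Finset.card_le_card ?_)⟩
  intro n hn
  simp only [Finset.mem_filter, Finset.mem_univ, true_and] at hm hn ⊢
  have h4 : ((N / D : ℕ) : ℤ) ∣ EE N e m - EE N e n := by
    have := dvd_sub hm hn
    rwa [sub_sub_sub_cancel_right] at this
  have h5 : ∀ k : Fin 16, ((N / D : ℕ) : ℤ) ∣ (if k.val < 8 then (0 : ℤ) else ((N / 2 : ℕ) : ℤ)) := by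
    intro k
    split_ifs
    · exact dvd_zero _
    · exact hQ
  have h6 : dv m n e = (EE N e m - EE N e n) -
      ((if m.val < 8 then (0 : ℤ) else ((N / 2 : ℕ) : ℤ)) -
        (if n.val < 8 then (0 : ℤ) else ((N / 2 : ℕ) : ℤ))) := by
    unfold dv EE
    ring
  rw [h6]
  exact dvd_sub h4 (dvd_sub (h5 m) (h5 n))

/-- levels -/
theorem level (N D L L' : ℕ) (E0 c : ℤ) (e : Fin 6 → ℤ) (hN : 0 < N) (hD : D ∣ N)
    (hL : L = 2 * L') (hL0 : 0 < L) (hc : (2 * L : ℤ) = D * E0 * c)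
    (h : ∀ i, ((N / D : ℕ) : ℤ) ∣ E0 * e i) : ∀ i, ∃ k : ℤ, yy N e i = k / (L : ℕ) := by
  intro i
  obtain ⟨t, ht⟩ := h i
  refine ⟨L' - t * c, ?_⟩
  have hNQ : (N : ℤ) = ((N / D : ℕ) : ℤ) * D := by
    exact_mod_cast (Nat.div_mul_cancel hD).symm
  have h1 : 2 * (e i) * (L : ℤ) = t * c * N := by
    calc 2 * (e i) * (L : ℤ) = e i * (2 * L) := by ring
      _ = e i * (D * E0 * c) := by rw [hc]
      _ = (E0 * e i) * D * c := by ring
      _ = t * c * (((N / D : ℕ) : ℤ) * D) := by rw [ht]; ring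
      _ = t * c * N := by rw [← hNQ]
  have h2 : 2 * (e i : ℝ) * (L : ℝ) = t * c * N := by exact_mod_cast h1
  have hN' : (N : ℝ) ≠ 0 := by
    have : N ≠ 0 := by omega
    exact_mod_cast this
  have hL' : (L : ℝ) ≠ 0 := by
    have : L ≠ 0 := by omega
    exact_mod_cast this
  have h3 : 2 * (e i : ℝ) / (N : ℝ) = t * c / L := by
    rw [div_eq_div_iff hN' hL']
    exact h2
  have h4 : (L : ℝ) = 2 * L' := by exact_mod_cast hL
  unfold yy
  rw [h3]
  push_cast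
  rw [sub_div]
  congr 1
  have hL'' : (L' : ℝ) ≠ 0 := by
    intro h0
    rw [h0, mul_zero] at h4
    exact hL' h4
  rw [h4]
  field_simp

theorem nz_rel (N : ℕ) (e e' : Fin 6 → ℤ) (h : Rel e e') (hNZ : NZ (yy N e)) :
    NZ (yy N e') := by
  obtain ⟨σ, ε, -, hε, he⟩ := h
  intro i
  have h1 := hNZ (σ i)
  rcases hε i with h2 | h2
  · have : yy N e' i = yy N e (σ i) := by
      unfold yy
      rw [he i, h2, one_mul]
    rw [this]; exact h1
  · have : yy N e' i = 1 - yy N e (σ i) := by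
      unfold yy
      rw [he i, h2]
      push_cast
      ring
    rw [this]
    have h3 : Real.sin (Real.pi * (1 - yy N e (σ i))) = Real.sin (Real.pi * yy N e (σ i)) := by
      rw [mul_sub, mul_one, Real.sin_pi_sub]
    rw [h3]; exact h1

theorem exact_max (Q : ℤ) (e : Fin 6 → ℤ) (κ : List ℕ) (M : ℕ) (h : Exact Q e κ)
    (hM : ∀ m : Fin 16, (univ.filter (fun n : Fin 16 => κ.getD m.val 0 = κ.getD n.val 0)).card ≤ M)
    (p : ℕ) (hp : ∃ m : Fin 16, p ≤ (univ.filter (fun n : Fin 16 => Q ∣ dv m n e)).card) :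
    p ≤ M := by
  obtain ⟨m, hm⟩ := hp
  refine hm.trans (le_trans (Finset.card_le_card ?_) (hM m))
  intro n hn
  simp only [Finset.mem_filter, Finset.mem_univ, true_and] at hn ⊢
  exact (h m n).mp hn

end ModLV

theorem lv (hA3 : StmtA3) (hA4 : StmtA4) (hB1 : StmtB1) (hB2 : StmtB2) (hC0 : StmtC0)
    (hDAG : StmtDAG) (hX0 : StmtX0) (hX1 : StmtX1) (hX2 : StmtX2) (hX3 : StmtX3) (hX4 : StmtX4)
    (hX5 : StmtX5) (hX6 : StmtX6)
    (hXR : StmtXR) : StmtLV := by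
  intro N e hN h60 hNZ hsum
  obtain ⟨P, hP, hCS, hFull⟩ := hA4 (Fin 16) (EE N e) N (by simp) hN h60 hsum
  have hprod : ∏ p ∈ P, p ∣ 5005 := by
    have := Finset.prod_dvd_prod_of_subset _ _ (fun x : ℕ => x) hP
    simpa using this
  have hD30 : 6 * ∏ p ∈ P, p ∣ 30030 := Nat.mul_dvd_mul_left 6 hprod
  have hpd : ∀ p ∈ P, p ∣ 6 * ∏ p ∈ P, p := fun p hp => Dvd.dvd.mul_left (Finset.dvd_prod_of_mem _ hp) 6
  have hpair := ModLV.pair_dvd P
  have c4 := ModLV.P_le4 P hP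
  have c6 := ModLV.P_le6 P hP
  have c6' := ModLV.P_le6' P hP
  have c10 := ModLV.P_le10 P hP
  have c12 := ModLV.P_le12 P hP
  have call := ModLV.P_all P hP
  have h2D : 2 ∣ 6 * ∏ p ∈ P, p := Dvd.dvd.mul_right (by norm_num) _
  generalize 6 * ∏ p ∈ P, p = D at *
  have hDN : D ∣ N := hD30.trans ((by norm_num : 30030 ∣ 60060).trans h60)
  obtain ⟨e', hrel, hgoal⟩ := hDAG _ e (hB1 N D e hN hDN h2D hCS)
  obtain ⟨hCS', hF'⟩ := hB2 N D e e' hN hDN h2D hrel
  replace hCS' := hCS' hCS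
  have hNZ' := ModLV.nz_rel N e e' hrel hNZ
  have hpr : ∀ p ∈ P, p.Prime ∧ 5 ≤ p := by
    intro p hp
    have := hP hp
    simp only [Finset.mem_insert, Finset.mem_singleton] at this
    rcases this with rfl | rfl | rfl | rfl <;> norm_num
  have hFull' : ∀ p ∈ P, Full (EE N e') N p D := fun p hp =>
    hF' p (hpr p hp).1 (hpr p hp).2 (hpd p hp) (hFull p hp)
  have hcard : ∀ p ∈ P, ∃ m : Fin 16,
      p ≤ (univ.filter (fun n : Fin 16 => ((N / D : ℕ) : ℤ) ∣ dv m n e')).card := fun p hp =>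
    ModLV.classcard hA3 N D p e' hN hDN h2D (by have := (hpr p hp).2; omega) (hFull' p hp)
  refine ⟨e', hrel, ?_⟩
  -- levels
  have lev : ∀ (L L' : ℕ) (E0 c : ℤ), L ∈ Levels → L = 2 * L' → 0 < L → (2 * L : ℤ) = D * E0 * c →
      (∀ i, ((N / D : ℕ) : ℤ) ∣ E0 * e' i) →
      ((∃ w ∈ Wl, Line (yy N e') w) ∨
       (∃ L ∈ Levels, ∀ i, ∃ k : ℤ, yy N e' i = k / (L : ℕ)) ∨
       ((∀ i : Fin 6, i.val < 3 → ∃ k : ℤ, yy N e' i = k / 42) ∧
        (∀ i : Fin 6, 3 ≤ i.val → ∃ k : ℤ, yy N e' i = k / 60))) := by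
    intro L L' E0 c hL h1 h2 h3 h4
    exact Or.inr (Or.inl ⟨L, hL, ModLV.level N D L L' E0 c e' hN hDN h1 h2 h3 h4⟩)
  rcases hgoal with ⟨w, hw, h⟩ | ⟨E0, hE0, hq, hc⟩ | ⟨E0, hE0, hq, hc⟩ | ⟨x, hx, hq, hex⟩
  · exact Or.inl ⟨w, hw, hC0 N D e' w hN hDN h2D hCS' h⟩
  · have hD6 : D = 6 := c4 (fun p hp => by
      obtain ⟨m, hm⟩ := hcard p hp
      exact hm.trans (hc m))
    simp only [List.mem_cons, List.not_mem_nil, or_false] at hE0
    rcases hE0 with rfl | rfl | rfl | rfl | rfl | rfl | rfl | rfl | rfl | rfl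
    · exact lev 48 24 4 4 (by decide) rfl (by norm_num) (by rw [hD6]; norm_num) hq
    · exact lev 54 27 6 3 (by decide) rfl (by norm_num) (by rw [hD6]; norm_num) hq
    · exact lev 48 24 8 2 (by decide) rfl (by norm_num) (by rw [hD6]; norm_num) hq
    · exact lev 120 60 10 4 (by decide) rfl (by norm_num) (by rw [hD6]; norm_num) hq
    · exact lev 72 36 12 2 (by decide) rfl (by norm_num) (by rw [hD6]; norm_num) hq
    · exact lev 168 84 14 4 (by decide) rfl (by norm_num) (by rw [hD6]; norm_num) hq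
    · exact lev 48 24 16 1 (by decide) rfl (by norm_num) (by rw [hD6]; norm_num) hq
    · exact lev 54 27 18 1 (by decide) rfl (by norm_num) (by rw [hD6]; norm_num) hq
    · exact lev 120 60 20 2 (by decide) rfl (by norm_num) (by rw [hD6]; norm_num) hq
    · exact lev 72 36 24 1 (by decide) rfl (by norm_num) (by rw [hD6]; norm_num) hq
  · have hD6 : D = 6 ∨ D = 30 := c6 (fun p hp => by
      obtain ⟨m, hm⟩ := hcard p hp
      exact hm.trans (hc m))
    simp only [List.mem_cons, List.not_mem_nil, or_false] at hE0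
    rcases hE0 with rfl | rfl | rfl | rfl
    · rcases hD6 with hD6 | hD6
      · exact lev 48 24 4 4 (by decide) rfl (by norm_num) (by rw [hD6]; norm_num) hq
      · exact lev 120 60 4 2 (by decide) rfl (by norm_num) (by rw [hD6]; norm_num) hq
    · rcases hD6 with hD6 | hD6
      · exact lev 54 27 6 3 (by decide) rfl (by norm_num) (by rw [hD6]; norm_num) hq
      · exact lev 180 90 6 2 (by decide) rfl (by norm_num) (by rw [hD6]; norm_num) hq
    · rcases hD6 with hD6 | hD6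
      · exact lev 48 24 8 2 (by decide) rfl (by norm_num) (by rw [hD6]; norm_num) hq
      · exact lev 120 60 8 1 (by decide) rfl (by norm_num) (by rw [hD6]; norm_num) hq
    · rcases hD6 with hD6 | hD6
      · exact lev 72 36 12 2 (by decide) rfl (by norm_num) (by rw [hD6]; norm_num) hq
      · exact lev 180 90 12 1 (by decide) rfl (by norm_num) (by rw [hD6]; norm_num) hq
  · -- partitions with a big class
    have hmx : ∀ M : ℕ, (∀ m : Fin 16, (univ.filter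
        (fun n : Fin 16 => x.2.getD m.val 0 = x.2.getD n.val 0)).card ≤ M) → ∀ p ∈ P, p ≤ M :=
      fun M hM p hp => ModLV.exact_max _ e' x.2 M hex hM p (hcard p hp)
    have x0 : (∀ m : Fin 16, x.2.getD m.val 0 = x.2.getD 0 0 ↔ m.val < 8) → False :=
      hX0 N D e' x.2 hN hDN h2D hNZ' hCS' hex
    simp only [XNl, List.mem_cons, List.not_mem_nil, or_false] at hx
    rcases hx with rfl | rfl | rfl | rfl | rfl | rfl | rfl | rfl | rfl | rfl | rfl | rfl | rfl |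
      rfl | rfl | rfl | rfl | rfl | rfl
    · exact (x0 (by decide)).elim
    · exact (x0 (by decide)).elim
    · rcases c6' (fun p hp => (hmx 5 (by decide) p hp).trans (by norm_num)) with
        hD6 | ⟨hD6, h5⟩
      · exact lev 48 24 16 1 (by decide) rfl (by norm_num) (by rw [hD6]; norm_num) hq
      · subst hD6
        refine Or.inr (Or.inl ⟨80, by decide, fun i => ?_⟩)
        obtain ⟨k, hk⟩ := hXR N e' (16, [0, 1, 1, 0, 1, 0, 0, 1, 1, 9, 9, 11, 11, 13, 13, 0]) hN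
          h60 hCS' (hFull' 5 h5) (by decide) hex i
        refine ⟨k, hk.trans ?_⟩
        norm_num
    · exact (x0 (by decide)).elim
    · rcases c6 (fun p hp => (hmx 5 (by decide) p hp).trans (by norm_num)) with hD6 | hD6
      · exact lev 72 36 12 2 (by decide) rfl (by norm_num) (by rw [hD6]; norm_num) hq
      · exact lev 180 90 12 1 (by decide) rfl (by norm_num) (by rw [hD6]; norm_num) hq
    · rcases c6' (fun p hp => (hmx 5 (by decide) p hp).trans (by norm_num)) with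
        hD6 | ⟨hD6, h5⟩
      · exact lev 120 60 10 4 (by decide) rfl (by norm_num) (by rw [hD6]; norm_num) hq
      · subst hD6
        refine Or.inr (Or.inl ⟨50, by decide, fun i => ?_⟩)
        obtain ⟨k, hk⟩ := hXR N e' (10, [0, 1, 2, 0, 2, 0, 6, 2, 2, 9, 1, 2, 0, 6, 9, 0]) hN
          h60 hCS' (hFull' 5 h5) (by decide) hex i
        refine ⟨k, hk.trans ?_⟩
        norm_num
    · exact (x0 (by decide)).elim
    · -- 8
      rcases c10 (fun p hp => (hmx 8 (by decide) p hp).trans (by norm_num)) with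
        hD6 | hD6 | hD6 | ⟨hD6, h5, h7⟩
      · exact lev 48 24 4 4 (by decide) rfl (by norm_num) (by rw [hD6]; norm_num) hq
      · exact lev 120 60 4 2 (by decide) rfl (by norm_num) (by rw [hD6]; norm_num) hq
      · exact lev 168 84 4 2 (by decide) rfl (by norm_num) (by rw [hD6]; norm_num) hq
      · subst hD6
        exact (hX1 N e' hN h60 hCS' (hFull' 5 h5) (hFull' 7 h7) ⟨_, by decide, hex⟩).elim
    · -- 9
      rcases c10 (fun p hp => (hmx 10 (by decide) p hp).trans (by norm_num)) with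
        hD6 | hD6 | hD6 | ⟨hD6, h5, h7⟩
      · exact lev 48 24 8 2 (by decide) rfl (by norm_num) (by rw [hD6]; norm_num) hq
      · exact lev 120 60 8 1 (by decide) rfl (by norm_num) (by rw [hD6]; norm_num) hq
      · exact lev 168 84 8 1 (by decide) rfl (by norm_num) (by rw [hD6]; norm_num) hq
      · subst hD6
        exact (hX2 N e' hN h60 hCS' (hFull' 5 h5) (hFull' 7 h7) ⟨_, by decide, hex⟩).elim
    · exact (x0 (by decide)).elim
    · -- 11
      rcases c10 (fun p hp => (hmx 10 (by decide) p hp).trans (by norm_num)) with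
        hD6 | hD6 | hD6 | ⟨hD6, h5, h7⟩
      · exact lev 48 24 4 4 (by decide) rfl (by norm_num) (by rw [hD6]; norm_num) hq
      · exact lev 120 60 4 2 (by decide) rfl (by norm_num) (by rw [hD6]; norm_num) hq
      · exact lev 168 84 4 2 (by decide) rfl (by norm_num) (by rw [hD6]; norm_num) hq
      · subst hD6
        exact (hX2 N e' hN h60 hCS' (hFull' 5 h5) (hFull' 7 h7) ⟨_, by decide, hex⟩).elim
    · -- 12
      rcases c10 (fun p hp => (hmx 10 (by decide) p hp).trans (by norm_num)) with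
        hD6 | hD6 | hD6 | ⟨hD6, h5, h7⟩
      · exact lev 54 27 6 3 (by decide) rfl (by norm_num) (by rw [hD6]; norm_num) hq
      · exact lev 180 90 6 2 (by decide) rfl (by norm_num) (by rw [hD6]; norm_num) hq
      · exact lev 126 63 6 1 (by decide) rfl (by norm_num) (by rw [hD6]; norm_num) hq
      · subst hD6
        exact (hX2 N e' hN h60 hCS' (hFull' 5 h5) (hFull' 7 h7) ⟨_, by decide, hex⟩).elim
    · -- 13
      rcases c10 (fun p hp => (hmx 7 (by decide) p hp).trans (by norm_num)) with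
        hD6 | hD6 | hD6 | ⟨hD6, h5, h7⟩
      · exact lev 54 27 6 3 (by decide) rfl (by norm_num) (by rw [hD6]; norm_num) hq
      · exact lev 180 90 6 2 (by decide) rfl (by norm_num) (by rw [hD6]; norm_num) hq
      · exact lev 126 63 6 1 (by decide) rfl (by norm_num) (by rw [hD6]; norm_num) hq
      · subst hD6
        exact (hX1 N e' hN h60 hCS' (hFull' 5 h5) (hFull' 7 h7) ⟨_, by decide, hex⟩).elim
    · exact (x0 (by decide)).elim
    · -- 15
      rcases c12 (fun p hp => hmx 12 (by decide) p hp) with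
        hD6 | hD6 | hD6 | ⟨hD6, h5, h7⟩ | hD6 | ⟨h11, h57⟩
      · exact lev 48 24 4 4 (by decide) rfl (by norm_num) (by rw [hD6]; norm_num) hq
      · exact lev 120 60 4 2 (by decide) rfl (by norm_num) (by rw [hD6]; norm_num) hq
      · exact lev 168 84 4 2 (by decide) rfl (by norm_num) (by rw [hD6]; norm_num) hq
      · subst hD6
        exact Or.inr (Or.inr (hX4 N e' hN h60 hNZ' hCS' (hFull' 5 h5) (hFull' 7 h7) hq hex))
      · exact lev 132 66 4 1 (by decide) rfl (by norm_num) (by rw [hD6]; norm_num) hq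
      · rcases h57 with h5 | h7
        · exact (hX6 N D 5 e' hN h60 hD30 h2D (hpair 11 5 h11 h5 (by norm_num)) (by norm_num)
            (by norm_num) (by norm_num) hCS' (hFull' 11 h11) (hFull' 5 h5) hex).elim
        · exact (hX6 N D 7 e' hN h60 hD30 h2D (hpair 11 7 h11 h7 (by norm_num)) (by norm_num)
            (by norm_num) (by norm_num) hCS' (hFull' 11 h11) (hFull' 7 h7) hex).elim
    · -- 16
      rcases c10 (fun p hp => (hmx 8 (by decide) p hp).trans (by norm_num)) with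
        hD6 | hD6 | hD6 | ⟨hD6, h5, h7⟩
      · exact lev 48 24 4 4 (by decide) rfl (by norm_num) (by rw [hD6]; norm_num) hq
      · exact lev 120 60 4 2 (by decide) rfl (by norm_num) (by rw [hD6]; norm_num) hq
      · exact lev 168 84 4 2 (by decide) rfl (by norm_num) (by rw [hD6]; norm_num) hq
      · subst hD6
        exact (hX3 N e' hN h60 hCS' (hFull' 5 h5) (hFull' 7 h7) hq hex).elim
    · -- 17
      rcases c10 (fun p hp => (hmx 8 (by decide) p hp).trans (by norm_num)) with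
        hD6 | hD6 | hD6 | ⟨hD6, h5, h7⟩
      · exact lev 48 24 4 4 (by decide) rfl (by norm_num) (by rw [hD6]; norm_num) hq
      · exact lev 120 60 4 2 (by decide) rfl (by norm_num) (by rw [hD6]; norm_num) hq
      · exact lev 168 84 4 2 (by decide) rfl (by norm_num) (by rw [hD6]; norm_num) hq
      · subst hD6
        exact (hX1 N e' hN h60 hCS' (hFull' 5 h5) (hFull' 7 h7) ⟨_, by decide, hex⟩).elim
    · -- 18
      rcases c10 (fun p hp => (hmx 8 (by decide) p hp).trans (by norm_num)) with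
        hD6 | hD6 | hD6 | ⟨hD6, h5, h7⟩
      · exact lev 48 24 4 4 (by decide) rfl (by norm_num) (by rw [hD6]; norm_num) hq
      · exact lev 120 60 4 2 (by decide) rfl (by norm_num) (by rw [hD6]; norm_num) hq
      · exact lev 168 84 4 2 (by decide) rfl (by norm_num) (by rw [hD6]; norm_num) hq
      · subst hD6
        exact (hX1 N e' hN h60 hCS' (hFull' 5 h5) (hFull' 7 h7) ⟨_, by decide, hex⟩).elim
    · -- 19
      rcases call with hD6 | hD6 | hD6 | hD6 | hD6 | hD6 | ⟨p, hp, q, hq', h1, h2⟩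
      · exact lev 48 24 2 8 (by decide) rfl (by norm_num) (by rw [hD6]; norm_num) hq
      · exact lev 120 60 2 4 (by decide) rfl (by norm_num) (by rw [hD6]; norm_num) hq
      · exact lev 168 84 2 4 (by decide) rfl (by norm_num) (by rw [hD6]; norm_num) hq
      · exact lev 210 105 2 1 (by decide) rfl (by norm_num) (by rw [hD6]; norm_num) hq
      · exact lev 132 66 2 2 (by decide) rfl (by norm_num) (by rw [hD6]; norm_num) hq
      · exact lev 78 39 2 1 (by decide) rfl (by norm_num) (by rw [hD6]; norm_num) hq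
      · refine (hX5 N D p q e' hN h60 hD30 h2D (hpair p q hp hq' (by omega)) h1 (hpr q hq').1
          (hpr q hq').2 h2 hCS' (hFull' p hp) (hFull' q hq') (fun m n => ?_)).elim
        rw [hex m n]
        revert m n
        decide

end Pool.Agent.T6.H31.TC
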