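import Pool.Agent.T6.H31.TC.Stmts

set_option autoImplicit false

namespace Pool.Agent.T6.H31.TC

open Finset

theorem ml_eqv_of_abs (a b : ℝ) (h : |Real.sin (Real.pi * a)| = |Real.sin (Real.pi * b)|) : eqv a b := by
  have h1 : Real.sin (Real.pi * a) ^ 2 = Real.sin (Real.pi * b) ^ 2 := by
    rw [← sq_abs (Real.sin (Real.pi * a)), h, sq_abs]
  have h2 : Real.cos (2 * (Real.pi * b)) = Real.cos (2 * (Real.pi * a)) := by
    rw [Real.cos_two_mul, Real.cos_two_mul]
    nlinarith [Real.sin_sq_add_cos_sq (Real.pi * a), Real.sin_sq_add_cos_sq (Real.pi * b)]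
  rw [Real.cos_eq_cos_iff] at h2
  obtain ⟨k, hk⟩ := h2
  have hpi : Real.pi ≠ 0 := Real.pi_ne_zero
  rcases hk with hk | hk
  · refine ⟨k, Or.inl ?_⟩
    have : 2 * Real.pi * a = 2 * Real.pi * (b + k) := by linarith
    exact mul_left_cancel₀ (by positivity) this
  · refine ⟨k, Or.inr ?_⟩
    have : 2 * Real.pi * a = 2 * Real.pi * (-b + k) := by linarith
    exact mul_left_cancel₀ (by positivity) this

theorem ml_sin_zero (a : ℝ) (h : Real.sin (Real.pi * a) = 0) : ∃ k : ℤ, a = k := by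
  rw [Real.sin_eq_zero_iff] at h
  obtain ⟨n, hn⟩ := h
  refine ⟨n, ?_⟩
  have : Real.pi * a = Real.pi * n := by linarith
  exact mul_left_cancel₀ Real.pi_ne_zero this

theorem ml_cos_zero (a : ℝ) (h : Real.cos (Real.pi * a) = 0) : ∃ k : ℤ, a = 1 / 2 + k := by
  rw [Real.cos_eq_zero_iff] at h
  obtain ⟨n, hn⟩ := h
  refine ⟨n, ?_⟩
  have : Real.pi * a = Real.pi * (1 / 2 + n) := by linarith
  exact mul_left_cancel₀ Real.pi_ne_zero this

theorem ml_cos_one (a : ℝ) (h : Real.cos (Real.pi * a) = 1) : ∃ k : ℤ, a = 2 * k := by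
  rw [Real.cos_eq_one_iff] at h
  obtain ⟨n, hn⟩ := h
  refine ⟨n, ?_⟩
  have : Real.pi * a = Real.pi * (2 * n) := by linarith
  exact mul_left_cancel₀ Real.pi_ne_zero this

theorem ml_sin_mul (x y : ℝ) : 2 * (Real.sin x * Real.sin y) = Real.cos (x - y) - Real.cos (x + y) := by
  rw [Real.cos_sub, Real.cos_add]; ring

theorem ml_case1 (y : Fin 4 → ℝ)
    (h : ∀ t : ℝ, Real.sin (Real.pi * (y 0 + t)) * Real.sin (Real.pi * (y 1 + t)) =
      Real.sin (Real.pi * (y 2 + t)) * Real.sin (Real.pi * (y 3 + t))) : M2L y := by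
  have h1 : ∀ t : ℝ, Real.cos (Real.pi * (y 0 - y 1)) - Real.cos (Real.pi * (y 0 + y 1) + 2 * Real.pi * t) =
      Real.cos (Real.pi * (y 2 - y 3)) - Real.cos (Real.pi * (y 2 + y 3) + 2 * Real.pi * t) := by
    intro t
    have e1 := ml_sin_mul (Real.pi * (y 0 + t)) (Real.pi * (y 1 + t))
    have e2 := ml_sin_mul (Real.pi * (y 2 + t)) (Real.pi * (y 3 + t))
    rw [h t, e2] at e1
    have a1 : Real.pi * (y 2 + t) - Real.pi * (y 3 + t) = Real.pi * (y 2 - y 3) := by ring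
    have a2 : Real.pi * (y 2 + t) + Real.pi * (y 3 + t) = Real.pi * (y 2 + y 3) + 2 * Real.pi * t := by ring
    have a3 : Real.pi * (y 0 + t) - Real.pi * (y 1 + t) = Real.pi * (y 0 - y 1) := by ring
    have a4 : Real.pi * (y 0 + t) + Real.pi * (y 1 + t) = Real.pi * (y 0 + y 1) + 2 * Real.pi * t := by ring
    rw [a1, a2, a3, a4] at e1
    exact e1.symm
  have h2 : ∀ t : ℝ, Real.cos (Real.pi * (y 0 - y 1)) + Real.cos (Real.pi * (y 0 + y 1) + 2 * Real.pi * t) =
      Real.cos (Real.pi * (y 2 - y 3)) + Real.cos (Real.pi * (y 2 + y 3) + 2 * Real.pi * t) := by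
    intro t
    have e := h1 (t + 1 / 2)
    have a1 : Real.pi * (y 0 + y 1) + 2 * Real.pi * (t + 1 / 2) =
        (Real.pi * (y 0 + y 1) + 2 * Real.pi * t) + Real.pi := by ring
    have a2 : Real.pi * (y 2 + y 3) + 2 * Real.pi * (t + 1 / 2) =
        (Real.pi * (y 2 + y 3) + 2 * Real.pi * t) + Real.pi := by ring
    rw [a1, a2, Real.cos_add_pi, Real.cos_add_pi] at e
    linarith
  have hA : Real.cos (Real.pi * (y 0 - y 1)) = Real.cos (Real.pi * (y 2 - y 3)) := by
    have e1 := h1 0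
    have e2 := h2 0
    linarith
  have hB : Real.cos (Real.pi * ((y 0 + y 1) - (y 2 + y 3))) = 1 := by
    have e1 := h1 (-(y 2 + y 3) / 2)
    have e2 := h2 (-(y 2 + y 3) / 2)
    have a1 : Real.pi * (y 0 + y 1) + 2 * Real.pi * (-(y 2 + y 3) / 2) =
      Real.pi * ((y 0 + y 1) - (y 2 + y 3)) := by ring
    have a2 : Real.pi * (y 2 + y 3) + 2 * Real.pi * (-(y 2 + y 3) / 2) = 0 := by ring
    rw [a1, a2, Real.cos_zero] at e1 e2
    linarith
  obtain ⟨b, hb⟩ := ml_cos_one _ hB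
  rw [Real.cos_eq_cos_iff] at hA
  obtain ⟨k, hk⟩ := hA
  have hpi : Real.pi ≠ 0 := Real.pi_ne_zero
  left
  refine ⟨y 0, y 1, ?_⟩
  rcases hk with hk | hk
  · have hk' : y 2 - y 3 = 2 * k + (y 0 - y 1) := by
      have : Real.pi * (y 2 - y 3) = Real.pi * (2 * k + (y 0 - y 1)) := by linarith
      exact mul_left_cancel₀ Real.pi_ne_zero this
    refine ⟨Equiv.refl _, Or.inl (fun i => Iff.rfl), ?_⟩
    intro i
    fin_cases i
    · exact ⟨0, Or.inl (by simp)⟩
    · exact ⟨0, Or.inl (by simp)⟩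
    · refine ⟨k - b, Or.inl ?_⟩
      show y 2 = y 0 + ((k - b : ℤ) : ℝ)
      push_cast
      linarith
    · refine ⟨-k - b, Or.inl ?_⟩
      show y 3 = y 1 + ((-k - b : ℤ) : ℝ)
      push_cast
      linarith
  · have hk' : y 2 - y 3 = 2 * k - (y 0 - y 1) := by
      have : Real.pi * (y 2 - y 3) = Real.pi * (2 * k - (y 0 - y 1)) := by linarith
      exact mul_left_cancel₀ Real.pi_ne_zero this
    refine ⟨Equiv.swap 2 3, Or.inl ?_, ?_⟩
    · intro i
      fin_cases i <;> decide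
    intro i
    fin_cases i
    · exact ⟨0, Or.inl (by simp [Equiv.swap_apply_of_ne_of_ne])⟩
    · exact ⟨0, Or.inl (by simp [Equiv.swap_apply_of_ne_of_ne])⟩
    · refine ⟨k - b, Or.inl ?_⟩
      show y 2 = y 1 + ((k - b : ℤ) : ℝ)
      push_cast
      linarith
    · refine ⟨-k - b, Or.inl ?_⟩
      show y 3 = y 0 + ((-k - b : ℤ) : ℝ)
      push_cast
      linarith

theorem ml_case2 (y : Fin 4 → ℝ)
    (h : ∀ t : ℝ, Real.sin (Real.pi * (y 0 + t)) * Real.sin (Real.pi * (y 1 + t)) =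
      Real.sin (Real.pi * (y 2 + 2 * t)) * Real.sin (Real.pi * y 3)) : M2L y := by
  have h1 : ∀ t : ℝ, Real.cos (Real.pi * (y 0 - y 1)) - Real.cos (Real.pi * (y 0 + y 1) + 2 * Real.pi * t) =
      2 * (Real.sin (Real.pi * y 2 + 2 * Real.pi * t) * Real.sin (Real.pi * y 3)) := by
    intro t
    have e1 := ml_sin_mul (Real.pi * (y 0 + t)) (Real.pi * (y 1 + t))
    rw [h t] at e1
    have a1 : Real.pi * (y 2 + 2 * t) = Real.pi * y 2 + 2 * Real.pi * t := by ring
    have a3 : Real.pi * (y 0 + t) - Real.pi * (y 1 + t) = Real.pi * (y 0 - y 1) := by ring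
    have a4 : Real.pi * (y 0 + t) + Real.pi * (y 1 + t) = Real.pi * (y 0 + y 1) + 2 * Real.pi * t := by ring
    rw [a1, a3, a4] at e1
    exact e1.symm
  have h2 : ∀ t : ℝ, Real.cos (Real.pi * (y 0 - y 1)) + Real.cos (Real.pi * (y 0 + y 1) + 2 * Real.pi * t) =
      - (2 * (Real.sin (Real.pi * y 2 + 2 * Real.pi * t) * Real.sin (Real.pi * y 3))) := by
    intro t
    have e := h1 (t + 1 / 2)
    have a1 : Real.pi * (y 0 + y 1) + 2 * Real.pi * (t + 1 / 2) =
        (Real.pi * (y 0 + y 1) + 2 * Real.pi * t) + Real.pi := by ring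
    have a2 : Real.pi * y 2 + 2 * Real.pi * (t + 1 / 2) =
        (Real.pi * y 2 + 2 * Real.pi * t) + Real.pi := by ring
    rw [a1, a2, Real.cos_add_pi, Real.sin_add_pi] at e
    linarith
  have hA : Real.cos (Real.pi * (y 0 - y 1)) = 0 := by
    have e1 := h1 0
    have e2 := h2 0
    linarith
  have hB : Real.cos (Real.pi * (y 0 + y 1 - y 2)) = 0 := by
    have e1 := h1 (-(y 2) / 2)
    have a1 : Real.pi * (y 0 + y 1) + 2 * Real.pi * (-(y 2) / 2) = Real.pi * (y 0 + y 1 - y 2) := by ring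
    have a2 : Real.pi * y 2 + 2 * Real.pi * (-(y 2) / 2) = 0 := by ring
    rw [a1, a2, Real.sin_zero, hA] at e1
    linarith
  have hC : Real.sin (Real.pi * (y 0 + y 1 - y 2)) = 2 * Real.sin (Real.pi * y 3) := by
    have e1 := h1 ((1 / 2 - y 2) / 2)
    have a1 : Real.pi * (y 0 + y 1) + 2 * Real.pi * ((1 / 2 - y 2) / 2) =
      Real.pi * (y 0 + y 1 - y 2) + Real.pi / 2 := by ring
    have a2 : Real.pi * y 2 + 2 * Real.pi * ((1 / 2 - y 2) / 2) = Real.pi / 2 := by ring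
    rw [a1, a2, Real.sin_pi_div_two, hA, Real.cos_add_pi_div_two] at e1
    linarith
  obtain ⟨a, ha⟩ := ml_cos_zero _ hA
  obtain ⟨b, hb⟩ := ml_cos_zero _ hB
  have h3 : |Real.sin (Real.pi * y 3)| = |Real.sin (Real.pi * (1 / 6))| := by
    have e1 : Real.sin (Real.pi * (1 / 6)) = 1 / 2 := by
      rw [show Real.pi * (1 / 6) = Real.pi / 6 by ring, Real.sin_pi_div_six]
    rw [e1]
    have e2 : Real.sin (Real.pi * (y 0 + y 1 - y 2)) ^ 2 = 1 := by
      have := Real.sin_sq_add_cos_sq (Real.pi * (y 0 + y 1 - y 2))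
      rw [hB] at this
      linarith
    rw [hC] at e2
    rw [← sq_eq_sq_iff_abs_eq_abs]
    linarith
  right
  left
  refine ⟨y 0, Equiv.refl _, Or.inl (fun i => Iff.rfl), ?_⟩
  intro i
  fin_cases i
  · exact ⟨0, Or.inl (by simp)⟩
  · refine ⟨-1 - a, Or.inl ?_⟩
    show y 1 = (y 0 + 1 / 2) + ((-1 - a : ℤ) : ℝ)
    push_cast
    linarith
  · refine ⟨-1 - a - b, Or.inl ?_⟩
    show y 2 = 2 * y 0 + ((-1 - a - b : ℤ) : ℝ)
    push_cast
    linarith
  · exact ml_eqv_of_abs _ _ h3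

theorem ml_case3 (y : Fin 4 → ℝ) (hy : NZ4 y)
    (h : ∀ t : ℝ, Real.sin (Real.pi * (y 0 + t)) * Real.sin (Real.pi * y 1) =
      Real.sin (Real.pi * (y 2 + t)) * Real.sin (Real.pi * y 3)) : M2L y := by
  have e1 := h (-y 0)
  rw [show Real.pi * (y 0 + -y 0) = 0 by ring, Real.sin_zero, zero_mul] at e1
  have e2 : Real.sin (Real.pi * (y 2 + -y 0)) = 0 := by
    rcases mul_eq_zero.mp e1.symm with h' | h'
    · exact h'
    · exact absurd h' (hy 3)
  obtain ⟨k, hk⟩ := ml_sin_zero _ e2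
  have e3 := h (1 / 2 - y 0)
  rw [show Real.pi * (y 0 + (1 / 2 - y 0)) = Real.pi / 2 by ring, Real.sin_pi_div_two, one_mul,
    show Real.pi * (y 2 + (1 / 2 - y 0)) = Real.pi / 2 + k * Real.pi by
      have : y 2 = y 0 + k := by linarith
      rw [this]; ring, Real.sin_add_int_mul_pi, Real.sin_pi_div_two] at e3
  have e4 : |Real.sin (Real.pi * y 3)| = |Real.sin (Real.pi * y 1)| := by
    rw [e3, abs_mul, abs_mul, abs_one]
    rw [abs_zpow, abs_neg, abs_one, one_zpow]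
    ring
  left
  refine ⟨y 0, y 1, Equiv.refl _, Or.inl (fun i => Iff.rfl), ?_⟩
  intro i
  fin_cases i
  · exact ⟨0, Or.inl (by simp)⟩
  · exact ⟨0, Or.inl (by simp)⟩
  · refine ⟨k, Or.inl ?_⟩
    show y 2 = y 0 + (k : ℝ)
    linarith
  · exact ml_eqv_of_abs _ _ e4

theorem ml : StmtML := by
  intro y w hw hy hL
  simp only [W4l, List.mem_cons, List.not_mem_nil, or_false] at hw
  rcases hw with rfl | rfl | rfl | rfl
  · apply ml_case1
    intro t
    have := hL t
    simpa using this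
  · apply ml_case2
    intro t
    have := hL t
    simpa using this
  · apply ml_case3 y hy
    intro t
    have := hL t
    simpa using this
  · exfalso
    have := hL (-y 0)
    simp only [List.getD_cons_zero, List.getD_cons_succ, Int.cast_one, Int.cast_zero, one_mul, zero_mul,
      add_zero, add_neg_cancel, mul_zero, Real.sin_zero] at this
    rcases mul_eq_zero.mp this.symm with h' | h'
    · exact hy 2 h'
    · exact hy 3 h'

end Pool.Agent.T6.H31.TC
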