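import Pool.Agent.T6.H31.TC.Stmts

set_option autoImplicit false

/-! Module MP of the project TC (problem MP_6e4ab6_nt): from the two-sine equation to a line or a
level. -/

namespace Pool.Agent.T6.H31.TC

open Finset

namespace MPx

theorem z_add (N : ℕ) (a b : ℤ) : z N (a + b) = z N a * z N b := by
  unfold z
  rw [← Complex.exp_add]
  congr 1
  push_cast
  ring

theorem z_ne (N : ℕ) (k : ℤ) : z N k ≠ 0 := Complex.exp_ne_zero _

theorem z_half (N : ℕ) (hN : 0 < N) (h2 : 2 ∣ N) : z N ((N / 2 : ℕ) : ℤ) = -1 := by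
  obtain ⟨M, rfl⟩ := h2
  have hM : (M : ℝ) ≠ 0 := by
    have : 0 < M := by omega
    positivity
  unfold z
  rw [Nat.mul_div_cancel_left _ (by norm_num : 0 < 2)]
  have : (2 * Real.pi * (((M : ℕ) : ℤ) : ℝ) / ((2 * M : ℕ) : ℝ)) = Real.pi := by
    push_cast
    field_simp
  rw [this]
  exact Complex.exp_pi_mul_I

/-- the sum over the classes -/
theorem class_zero {ι : Type} [Fintype ι] (E : ι → ℤ) (N D : ℕ) (h : CS E N D) (c : ι → ℂ)
    (hc : ∀ i j, ((N / D : ℕ) : ℤ) ∣ E i - E j → c i = c j) : ∑ i, z N (E i) * c i = 0 := by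
  classical
  set Q : ℤ := ((N / D : ℕ) : ℤ) with hQ
  rw [← Finset.sum_fiberwise_of_maps_to (s := univ) (t := univ.image (fun i => E i % Q))
    (g := fun i => E i % Q) (fun i _ => Finset.mem_image_of_mem _ (mem_univ i))]
  apply Finset.sum_eq_zero
  intro r hr
  obtain ⟨i0, -, rfl⟩ := Finset.mem_image.mp hr
  have key : ∀ i, (E i % Q = E i0 % Q) ↔ Q ∣ E i - E i0 := by
    intro i
    rw [← Int.ModEq, Int.modEq_comm, Int.modEq_iff_dvd]
  have h1 : ∀ i ∈ univ.filter (fun i => E i % Q = E i0 % Q), z N (E i) * c i = z N (E i) * c i0 := by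
    intro i hi
    rw [Finset.mem_filter] at hi
    rw [hc i i0 ((key i).mp hi.2)]
  rw [Finset.sum_congr rfl h1, ← Finset.sum_mul]
  have h2 : univ.filter (fun i => E i % Q = E i0 % Q) = univ.filter (fun i => Q ∣ E i - E i0) := by
    ext i
    simp only [Finset.mem_filter, Finset.mem_univ, true_and]
    exact key i
  rw [h2, h (E i0), zero_mul]

theorem four_cos (a b : ℝ) : Complex.exp (((a + b : ℝ) : ℂ) * Complex.I) +
    Complex.exp (((-a + b : ℝ) : ℂ) * Complex.I) + Complex.exp (((a - b : ℝ) : ℂ) * Complex.I) +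
    Complex.exp (((-a - b : ℝ) : ℂ) * Complex.I) =
    ((4 * (Real.cos a * Real.cos b) : ℝ) : ℂ) := by
  push_cast
  have ha : Complex.exp ((a : ℂ) * Complex.I) = Complex.cos a + Complex.sin a * Complex.I :=
    Complex.exp_mul_I _
  have hb : Complex.exp ((b : ℂ) * Complex.I) = Complex.cos b + Complex.sin b * Complex.I :=
    Complex.exp_mul_I _
  have ha' : Complex.exp (-(a : ℂ) * Complex.I) = Complex.cos a - Complex.sin a * Complex.I := by
    rw [Complex.exp_mul_I, Complex.cos_neg, Complex.sin_neg]; ring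
  have hb' : Complex.exp (-(b : ℂ) * Complex.I) = Complex.cos b - Complex.sin b * Complex.I := by
    rw [Complex.exp_mul_I, Complex.cos_neg, Complex.sin_neg]; ring
  have e1 : Complex.exp (((a : ℂ) + b) * Complex.I) =
      Complex.exp ((a : ℂ) * Complex.I) * Complex.exp ((b : ℂ) * Complex.I) := by
    rw [← Complex.exp_add]; congr 1; ring
  have e2 : Complex.exp ((-(a : ℂ) + b) * Complex.I) =
      Complex.exp (-(a : ℂ) * Complex.I) * Complex.exp ((b : ℂ) * Complex.I) := by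
    rw [← Complex.exp_add]; congr 1; ring
  have e3 : Complex.exp (((a : ℂ) - b) * Complex.I) =
      Complex.exp ((a : ℂ) * Complex.I) * Complex.exp (-(b : ℂ) * Complex.I) := by
    rw [← Complex.exp_add]; congr 1; ring
  have e4 : Complex.exp ((-(a : ℂ) - b) * Complex.I) =
      Complex.exp (-(a : ℂ) * Complex.I) * Complex.exp (-(b : ℂ) * Complex.I) := by
    rw [← Complex.exp_add]; congr 1; ring
  rw [e1, e2, e3, e4, ha, hb, ha', hb']
  ring

/-- the angle -/
noncomputable def th (N : ℕ) (e : Fin 4 → ℤ) (x : Fin 4 → ℝ) (i : Fin 4) : ℝ :=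
  2 * Real.pi * (e i : ℝ) / (N : ℝ) + x i

/-- the sum of the eight terms, with a real twist -/
theorem sum8 (N : ℕ) (hN : 0 < N) (h2 : 2 ∣ N) (e : Fin 4 → ℤ) (x : Fin 4 → ℝ) :
    ∑ m, z N (EE4 N e m) * Complex.exp (((∑ i, (V4 m i : ℝ) * x i : ℝ) : ℂ) * Complex.I) =
      ((4 * (Real.cos (th N e x 0) * Real.cos (th N e x 1)) -
        4 * (Real.cos (th N e x 2) * Real.cos (th N e x 3)) : ℝ) : ℂ) := by
  have hlow : ∀ m : Fin 8, m.val < 4 →
      z N (EE4 N e m) * Complex.exp (((∑ i, (V4 m i : ℝ) * x i : ℝ) : ℂ) * Complex.I) =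
      Complex.exp (((∑ i, (V4 m i : ℝ) * th N e x i : ℝ) : ℂ) * Complex.I) := by
    intro m hm
    unfold z EE4 dot4 th
    rw [if_pos hm, ← Complex.exp_add, ← add_mul]
    congr 2
    rw [← Complex.ofReal_add]
    congr 1
    push_cast
    simp only [Fin.sum_univ_four]
    ring
  have hhigh : ∀ m : Fin 8, ¬ m.val < 4 →
      z N (EE4 N e m) * Complex.exp (((∑ i, (V4 m i : ℝ) * x i : ℝ) : ℂ) * Complex.I) =
      - Complex.exp (((∑ i, (V4 m i : ℝ) * th N e x i : ℝ) : ℂ) * Complex.I) := by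
    intro m hm
    have : EE4 N e m = dot4 (V4 m) e + ((N / 2 : ℕ) : ℤ) := by
      unfold EE4
      rw [if_neg hm]
    rw [this, z_add, z_half N hN h2]
    rw [mul_neg_one, neg_mul]
    congr 1
    unfold z dot4 th
    rw [← Complex.exp_add, ← add_mul]
    congr 2
    rw [← Complex.ofReal_add]
    congr 1
    push_cast
    simp only [Fin.sum_univ_four]
    ring
  rw [Fin.sum_univ_eight, hlow 0 (by decide), hlow 1 (by decide), hlow 2 (by decide),
    hlow 3 (by decide), hhigh 4 (by decide), hhigh 5 (by decide), hhigh 6 (by decide),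
    hhigh 7 (by decide)]
  simp only [Fin.sum_univ_four]
  have v : V4 0 0 = 1 ∧ V4 0 1 = 1 ∧ V4 0 2 = 0 ∧ V4 0 3 = 0 ∧
      V4 1 0 = -1 ∧ V4 1 1 = 1 ∧ V4 1 2 = 0 ∧ V4 1 3 = 0 ∧
      V4 2 0 = 1 ∧ V4 2 1 = -1 ∧ V4 2 2 = 0 ∧ V4 2 3 = 0 ∧
      V4 3 0 = -1 ∧ V4 3 1 = -1 ∧ V4 3 2 = 0 ∧ V4 3 3 = 0 := by decide
  have v' : V4 4 0 = 0 ∧ V4 4 1 = 0 ∧ V4 4 2 = 1 ∧ V4 4 3 = 1 ∧
      V4 5 0 = 0 ∧ V4 5 1 = 0 ∧ V4 5 2 = -1 ∧ V4 5 3 = 1 ∧
      V4 6 0 = 0 ∧ V4 6 1 = 0 ∧ V4 6 2 = 1 ∧ V4 6 3 = -1 ∧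
      V4 7 0 = 0 ∧ V4 7 1 = 0 ∧ V4 7 2 = -1 ∧ V4 7 3 = -1 := by decide
  obtain ⟨a1, a2, a3, a4, a5, a6, a7, a8, a9, a10, a11, a12, a13, a14, a15, a16⟩ := v
  obtain ⟨b1, b2, b3, b4, b5, b6, b7, b8, b9, b10, b11, b12, b13, b14, b15, b16⟩ := v'
  rw [a1, a2, a3, a4, a5, a6, a7, a8, a9, a10, a11, a12, a13, a14, a15, a16,
    b1, b2, b3, b4, b5, b6, b7, b8, b9, b10, b11, b12, b13, b14, b15, b16]
  have f1 := four_cos (th N e x 0) (th N e x 1)
  have f2 := four_cos (th N e x 2) (th N e x 3)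
  rw [Complex.ofReal_sub, ← f1, ← f2]
  have r0 : (((1 : ℤ) : ℝ) * th N e x 0 + ((1 : ℤ) : ℝ) * th N e x 1 + ((0 : ℤ) : ℝ) * th N e x 2 +
      ((0 : ℤ) : ℝ) * th N e x 3) = th N e x 0 + th N e x 1 := by push_cast; ring
  have r1 : (((-1 : ℤ) : ℝ) * th N e x 0 + ((1 : ℤ) : ℝ) * th N e x 1 + ((0 : ℤ) : ℝ) * th N e x 2 +
      ((0 : ℤ) : ℝ) * th N e x 3) = -th N e x 0 + th N e x 1 := by push_cast; ring
  have r2 : (((1 : ℤ) : ℝ) * th N e x 0 + ((-1 : ℤ) : ℝ) * th N e x 1 + ((0 : ℤ) : ℝ) * th N e x 2 +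
      ((0 : ℤ) : ℝ) * th N e x 3) = th N e x 0 - th N e x 1 := by push_cast; ring
  have r3 : (((-1 : ℤ) : ℝ) * th N e x 0 + ((-1 : ℤ) : ℝ) * th N e x 1 + ((0 : ℤ) : ℝ) * th N e x 2 +
      ((0 : ℤ) : ℝ) * th N e x 3) = -th N e x 0 - th N e x 1 := by push_cast; ring
  have r4 : (((0 : ℤ) : ℝ) * th N e x 0 + ((0 : ℤ) : ℝ) * th N e x 1 + ((1 : ℤ) : ℝ) * th N e x 2 +
      ((1 : ℤ) : ℝ) * th N e x 3) = th N e x 2 + th N e x 3 := by push_cast; ring
  have r5 : (((0 : ℤ) : ℝ) * th N e x 0 + ((0 : ℤ) : ℝ) * th N e x 1 + ((-1 : ℤ) : ℝ) * th N e x 2 +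
      ((1 : ℤ) : ℝ) * th N e x 3) = -th N e x 2 + th N e x 3 := by push_cast; ring
  have r6 : (((0 : ℤ) : ℝ) * th N e x 0 + ((0 : ℤ) : ℝ) * th N e x 1 + ((1 : ℤ) : ℝ) * th N e x 2 +
      ((-1 : ℤ) : ℝ) * th N e x 3) = th N e x 2 - th N e x 3 := by push_cast; ring
  have r7 : (((0 : ℤ) : ℝ) * th N e x 0 + ((0 : ℤ) : ℝ) * th N e x 1 + ((-1 : ℤ) : ℝ) * th N e x 2 +
      ((-1 : ℤ) : ℝ) * th N e x 3) = -th N e x 2 - th N e x 3 := by push_cast; ring
  rw [r0, r1, r2, r3, r4, r5, r6, r7]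
  ring

/-- sines of `yy4` as cosines -/
theorem sin_yy4 (N : ℕ) (e : Fin 4 → ℤ) (t : ℝ) (w : ℝ) (i : Fin 4) :
    Real.sin (Real.pi * (yy4 N e i + w * t)) =
      Real.cos (2 * Real.pi * (e i : ℝ) / (N : ℝ) + -(Real.pi * w * t)) := by
  unfold yy4
  rw [← Real.sin_pi_div_two_sub]
  congr 1
  ring

/-- every signed vector is one of the eight -/
theorem V4_surj (σ : Equiv.Perm (Fin 4)) (hσ : Blk4 σ) (ε : Fin 4 → ℤ)
    (hε : ∀ i, ε i = 1 ∨ ε i = -1) (m : Fin 8) :
    ∃ m' : Fin 8, ∀ i, V4 m' i = ε i * V4 m (σ i) := by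
  have key : ∀ σ : Equiv.Perm (Fin 4),
      ((∀ i, (σ i).val < 2 ↔ i.val < 2) ∨ (∀ i, (σ i).val < 2 ↔ 2 ≤ i.val)) →
      ∀ b : Fin 4 → Bool, ∀ m : Fin 8, ∃ m' : Fin 8, ∀ i, V4 m' i =
        (if b i then 1 else -1) * V4 m (σ i) := by
    decide +kernel
  obtain ⟨m', hm'⟩ := key σ hσ (fun i => decide (ε i = 1)) m
  refine ⟨m', fun i => ?_⟩
  rw [hm' i]
  rcases hε i with h | h
  · simp [h]
  · simp [h]

/-- the same for both sides, with the difference vectors -/
theorem transport (e e' : Fin 4 → ℤ) (σ : Equiv.Perm (Fin 4)) (hσ : Blk4 σ) (ε : Fin 4 → ℤ)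
    (hε : ∀ i, ε i = 1 ∨ ε i = -1) (he : ∀ i, e' i = ε i * e (σ i)) :
    ∃ τ : Fin 8 → Fin 8, Function.Injective τ ∧
      (∀ m, dot4 (V4 (τ m)) e' = dot4 (V4 m) e) ∧
      (∀ m (w : Fin 4 → ℤ), dot4 (V4 (τ m)) w =
        dot4 (V4 m) (fun j => ε (σ.symm j) * w (σ.symm j))) := by
  choose τ hτ using V4_surj σ hσ ε hε
  have hε2 : ∀ i, ε i * ε i = 1 := by
    intro i
    rcases hε i with h | h <;> rw [h] <;> norm_num
  refine ⟨τ, ?_, ?_, ?_⟩
  · intro m n hmn
    have h1 : ∀ j, V4 m j = V4 n j := by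
      intro j
      have a := hτ m (σ.symm j)
      have b := hτ n (σ.symm j)
      rw [hmn, b] at a
      rw [Equiv.apply_symm_apply] at a
      rcases hε (σ.symm j) with h | h <;> rw [h] at a <;> linarith
    have key : ∀ m n : Fin 8, (∀ j, V4 m j = V4 n j) → m = n := by decide +kernel
    exact key m n h1
  · intro m
    unfold dot4
    rw [← Equiv.sum_comp σ (fun i => V4 m i * e i)]
    apply Finset.sum_congr rfl
    intro i _
    rw [hτ m i, he i]
    have := hε2 i
    calc ε i * V4 m (σ i) * (ε i * e (σ i)) = (ε i * ε i) * (V4 m (σ i) * e (σ i)) := by ring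
      _ = _ := by rw [this, one_mul]
  · intro m w
    unfold dot4
    rw [← Equiv.sum_comp σ (fun i => V4 m i * (ε (σ.symm i) * w (σ.symm i)))]
    apply Finset.sum_congr rfl
    intro i _
    rw [hτ m i, Equiv.symm_apply_apply]
    ring

/-- the class condition in terms of the difference vectors -/
theorem EE4_iff (N : ℕ) (e : Fin 4 → ℤ) (Q : ℤ) (hQ : Q ∣ ((N / 2 : ℕ) : ℤ)) (m n : Fin 8) :
    Q ∣ EE4 N e m - EE4 N e n ↔ Q ∣ dv4 m n e := by
  have key : Q ∣ (EE4 N e m - EE4 N e n) - dv4 m n e := by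
    unfold EE4 dv4
    split_ifs with h1 h2 h2
    · have : dot4 (V4 m) e + 0 - (dot4 (V4 n) e + 0) - (dot4 (V4 m) e - dot4 (V4 n) e) = 0 := by
        ring
      rw [this]
      exact dvd_zero _
    · have : dot4 (V4 m) e + 0 - (dot4 (V4 n) e + ((N / 2 : ℕ) : ℤ)) -
          (dot4 (V4 m) e - dot4 (V4 n) e) = -((N / 2 : ℕ) : ℤ) := by
        ring
      rw [this]
      exact (dvd_neg).mpr hQ
    · have : dot4 (V4 m) e + ((N / 2 : ℕ) : ℤ) - (dot4 (V4 n) e + 0) -
          (dot4 (V4 m) e - dot4 (V4 n) e) = ((N / 2 : ℕ) : ℤ) := by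
        ring
      rw [this]
      exact hQ
    · have : dot4 (V4 m) e + ((N / 2 : ℕ) : ℤ) - (dot4 (V4 n) e + ((N / 2 : ℕ) : ℤ)) -
          (dot4 (V4 m) e - dot4 (V4 n) e) = 0 := by
        ring
      rw [this]
      exact dvd_zero _
  constructor
  · intro h
    have := dvd_sub h key
    have e1 : EE4 N e m - EE4 N e n - (EE4 N e m - EE4 N e n - dv4 m n e) = dv4 m n e := by ring
    rwa [e1] at this
  · intro h
    have := dvd_add h key
    have e1 : dv4 m n e + (EE4 N e m - EE4 N e n - dv4 m n e) = EE4 N e m - EE4 N e n := by ring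
    rwa [e1] at this

/-- products of the values of a function under a block permutation -/
theorem blk_prod (σ : Equiv.Perm (Fin 4)) (hσ : Blk4 σ) (f : Fin 4 → ℝ)
    (h : f 0 * f 1 = f 2 * f 3) : f (σ 0) * f (σ 1) = f (σ 2) * f (σ 3) := by
  have key : ∀ σ : Equiv.Perm (Fin 4),
      ((∀ i, (σ i).val < 2 ↔ i.val < 2) ∨ (∀ i, (σ i).val < 2 ↔ 2 ≤ i.val)) →
      (((σ 0 = 0 ∧ σ 1 = 1) ∨ (σ 0 = 1 ∧ σ 1 = 0)) ∧ ((σ 2 = 2 ∧ σ 3 = 3) ∨ (σ 2 = 3 ∧ σ 3 = 2))) ∨
      (((σ 0 = 2 ∧ σ 1 = 3) ∨ (σ 0 = 3 ∧ σ 1 = 2)) ∧ ((σ 2 = 0 ∧ σ 3 = 1) ∨ (σ 2 = 1 ∧ σ 3 = 0))) := by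
    decide +kernel
  rcases key σ hσ with ⟨h1, h2⟩ | ⟨h1, h2⟩
  · rcases h1 with ⟨a, b⟩ | ⟨a, b⟩ <;> rcases h2 with ⟨c, d⟩ | ⟨c, d⟩ <;> rw [a, b, c, d] <;>
      linarith
  · rcases h1 with ⟨a, b⟩ | ⟨a, b⟩ <;> rcases h2 with ⟨c, d⟩ | ⟨c, d⟩ <;> rw [a, b, c, d] <;>
      linarith

/-- the line -/
theorem line_of (N D : ℕ) (e e' : Fin 4 → ℤ) (w : List ℤ) (hN : 0 < N) (hD : D ∣ N) (h2 : 2 ∣ D)
    (hcs : CS (EE4 N e) N D) (hr : Rel4 e e')
    (hw : ∀ m n : Fin 8, ((N / D : ℕ) : ℤ) ∣ dv4 m n e' → dv4 m n (lvec4 w) = 0) :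
    Line4 (yy4 N e') w := by
  obtain ⟨σ, ε, hσ, hε, he⟩ := hr
  obtain ⟨τ, -, hτe, hτw⟩ := transport e e' σ hσ ε hε he
  have h2N : 2 ∣ N := h2.trans hD
  have hDpos : 0 < D := Nat.pos_of_dvd_of_pos hD hN
  have hQ2 : ((N / D : ℕ) : ℤ) ∣ ((N / 2 : ℕ) : ℤ) := by
    obtain ⟨c, rfl⟩ := hD
    obtain ⟨d, rfl⟩ := h2
    rw [Nat.mul_div_cancel_left _ hDpos, mul_assoc, Nat.mul_div_cancel_left _ (by norm_num)]
    exact Int.natCast_dvd_natCast.mpr (Dvd.intro_left d rfl)
  set w' : Fin 4 → ℤ := fun j => ε (σ.symm j) * (lvec4 w) (σ.symm j) with hw'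
  intro t
  set x : Fin 4 → ℝ := fun i => -(Real.pi * (w' i : ℝ) * t) with hx
  have hsum : ∑ m, z N (EE4 N e m) *
      Complex.exp (((∑ i, (V4 m i : ℝ) * x i : ℝ) : ℂ) * Complex.I) = 0 := by
    apply class_zero (EE4 N e) N D hcs
    intro m n hmn
    rw [EE4_iff N e _ hQ2] at hmn
    have h3 : ((N / D : ℕ) : ℤ) ∣ dv4 (τ m) (τ n) e' := by
      unfold dv4
      rw [hτe, hτe]
      exact hmn
    have h4 := hw _ _ h3
    unfold dv4 at h4
    rw [hτw, hτw] at h4
    have h5 : dot4 (V4 m) w' = dot4 (V4 n) w' := by linarith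
    have h6 : ∀ m, (∑ i, (V4 m i : ℝ) * x i : ℝ) = -(Real.pi * t) * ((dot4 (V4 m) w' : ℤ) : ℝ) := by
      intro m
      unfold dot4
      push_cast
      rw [Finset.mul_sum]
      apply Finset.sum_congr rfl
      intro i _
      rw [hx]
      ring
    rw [h6 m, h6 n, h5]
  rw [sum8 N hN h2N e x] at hsum
  have h7 : Real.cos (th N e x 0) * Real.cos (th N e x 1) =
      Real.cos (th N e x 2) * Real.cos (th N e x 3) := by
    have := Complex.ofReal_eq_zero.mp hsum
    linarith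
  have h8 := blk_prod σ hσ (fun i => Real.cos (th N e x i)) h7
  have h9 : ∀ i, Real.cos (th N e x (σ i)) =
      Real.sin (Real.pi * (yy4 N e' i + ((lvec4 w i : ℤ) : ℝ) * t)) := by
    intro i
    rw [sin_yy4]
    unfold th
    rw [hx]
    simp only [hw', Equiv.symm_apply_apply, he i]
    rcases hε i with h | h
    · rw [h]
      congr 1
      push_cast
      ring
    · rw [h, ← Real.cos_neg]
      congr 1
      push_cast
      ring
  simp only [h9] at h8
  exact h8

end MPx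

theorem mp (h3 : StmtA3) (h4 : StmtA4) (h5 : StmtA5) (hc : StmtCR) (hd : StmtDAG4) : StmtMP := by
  classical
  intro N e hN h60060 hnz heq
  have h2N : 2 ∣ N := (by norm_num : (2 : ℕ) ∣ 60060).trans h60060
  -- the vanishing sum
  have hsum : ∑ m, z N (EE4 N e m) = 0 := by
    have h := MPx.sum8 N hN h2N e (fun _ => 0)
    simp only [mul_zero, Finset.sum_const_zero, Complex.ofReal_zero, zero_mul, Complex.exp_zero,
      mul_one] at h
    rw [h]
    have hs : ∀ i, Real.cos (MPx.th N e (fun _ => 0) i) = Real.sin (Real.pi * yy4 N e i) := by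
      intro i
      have := MPx.sin_yy4 N e 0 0 i
      rw [zero_mul, add_zero] at this
      rw [this]
      unfold MPx.th
      congr 1
      ring
    rw [hs, hs, hs, hs, heq]
    simp
  obtain ⟨P, hPs, hcs, hfull⟩ := h4 (Fin 8) (EE4 N e) N (by simp) hN h60060 hsum
  set D : ℕ := 6 * ∏ p ∈ P, p with hD
  -- divisibility
  have hprod : (∏ p ∈ P, p) ∣ 5005 := by
    have h := Finset.prod_dvd_prod_of_subset P {5, 7, 11, 13} (fun p => p) hPs
    have e1 : ∏ p ∈ ({5, 7, 11, 13} : Finset ℕ), p = 5005 := by decide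
    rw [e1] at h
    exact h
  have hDN : D ∣ N := by
    have : D ∣ 30030 := by
      have := Nat.mul_dvd_mul_left 6 hprod
      simpa [hD] using this
    exact (this.trans (by norm_num)).trans h60060
  have h2D : 2 ∣ D := Dvd.dvd.mul_right (by norm_num) _
  have hDpos : 0 < D := Nat.pos_of_dvd_of_pos hDN hN
  have hQ2 : ((N / D : ℕ) : ℤ) ∣ ((N / 2 : ℕ) : ℤ) := by
    obtain ⟨c, hc⟩ := hDN
    obtain ⟨d, hd⟩ := h2D
    have e1 : N / D = c := by rw [hc, Nat.mul_div_cancel_left _ hDpos]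
    have e2 : N / 2 = d * c := by
      rw [hc, hd, mul_assoc, Nat.mul_div_cancel_left _ (by norm_num)]
    rw [e1, e2]
    exact Int.natCast_dvd_natCast.mpr (Dvd.intro_left d rfl)
  set Q : ℤ := ((N / D : ℕ) : ℤ) with hQ
  -- no single class
  have hns : NoSingle4 Q e := by
    intro m
    by_contra hcon
    push Not at hcon
    have h := hcs (EE4 N e m)
    have h1 : univ.filter (fun i => Q ∣ EE4 N e i - EE4 N e m) = {m} := by
      ext n
      simp only [Finset.mem_filter, Finset.mem_univ, true_and, Finset.mem_singleton]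
      constructor
      · intro hn
        by_contra hne
        apply hcon n hne
        rw [MPx.EE4_iff N e Q hQ2] at hn
        have : dv4 m n e = - dv4 n m e := by unfold dv4; ring
        rw [this]
        exact (dvd_neg).mpr hn
      · rintro rfl
        rw [sub_self]
        exact dvd_zero _
    rw [← hQ] at h
    rw [h1, Finset.sum_singleton] at h
    exact MPx.z_ne _ _ h
  obtain ⟨e', hrel, hgoal⟩ := hd Q e hns
  refine ⟨e', hrel, ?_⟩
  -- sizes of full classes
  have hfc : ∀ p ∈ P, ∃ m : Fin 8, FullAt (EE4 N e) N p D (EE4 N e m) ∧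
      p ≤ (univ.filter (fun n => Q ∣ dv4 m n e)).card := by
    intro p hp
    obtain ⟨y, hy⟩ := hfull p hp
    have hp5 : 0 < p := by
      have := hPs hp
      fin_cases this <;> norm_num
    have hpD : p ∣ D := Dvd.dvd.mul_left (Finset.dvd_prod_of_mem _ hp) _
    have hle := h3 (Fin 8) (EE4 N e) N D p y hN hDN hp5 hy
    have hne : (univ.filter (fun i => Q ∣ EE4 N e i - y)).Nonempty := by
      rw [← Finset.card_pos]
      exact lt_of_lt_of_le hp5 hle
    obtain ⟨m, hm⟩ := hne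
    rw [Finset.mem_filter] at hm
    have hy' : FullAt (EE4 N e) N p D (EE4 N e m) :=
      h5 (Fin 8) (EE4 N e) N D p y (EE4 N e m) hN hDN hpD hm.2 hy
    refine ⟨m, hy', ?_⟩
    have hle' := h3 (Fin 8) (EE4 N e) N D p _ hN hDN hp5 hy'
    refine hle'.trans (Finset.card_le_card ?_)
    intro n hn
    rw [Finset.mem_filter] at hn ⊢
    refine ⟨mem_univ _, ?_⟩
    have h1 := hn.2
    rw [← hQ, MPx.EE4_iff N e Q hQ2] at h1
    have : dv4 m n e = - dv4 n m e := by unfold dv4; ring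
    rw [this]
    exact (dvd_neg).mpr h1
  -- transport of the class sizes
  obtain ⟨σ, ε, hσ, hε, he⟩ := hrel
  obtain ⟨τ, hτi, hτe, hτw⟩ := MPx.transport e e' σ hσ ε hε he
  have hcard : ∀ m, (univ.filter (fun n => Q ∣ dv4 m n e)).card ≤
      (univ.filter (fun n => Q ∣ dv4 (τ m) n e')).card := by
    intro m
    apply Finset.card_le_card_of_injOn τ
    · intro n hn
      have hn' := (Finset.mem_filter.mp (Finset.mem_coe.mp hn)).2
      refine Finset.mem_coe.mpr (Finset.mem_filter.mpr ⟨mem_univ _, ?_⟩)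
      unfold dv4 at hn' ⊢
      rw [hτe, hτe]
      exact hn'
    · exact hτi.injOn
  have hN' : (N : ℝ) ≠ 0 := by positivity
  have hQD : (Q : ℝ) * (D : ℝ) = N := by
    have : (N / D) * D = N := Nat.div_mul_cancel hDN
    rw [hQ]
    exact_mod_cast this
  have hsub57 : ∀ p ∈ P, p = 5 ∨ p = 7 := by
    intro p hp
    obtain ⟨m, -, hm⟩ := hfc p hp
    have h8 : (univ.filter (fun n : Fin 8 => Q ∣ dv4 m n e)).card ≤ 8 := by
      calc _ ≤ (univ : Finset (Fin 8)).card := Finset.card_filter_le _ _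
        _ = 8 := by simp
    have := hPs hp
    simp only [Finset.mem_insert, Finset.mem_singleton] at this
    omega
  rcases hgoal with ⟨w, hw, hline⟩ | ⟨hdiv, hsz⟩ | ⟨hdiv, hone⟩
  · -- a line
    left
    exact ⟨w, hw, MPx.line_of N D e e' w hN hDN h2D hcs ⟨σ, ε, hσ, hε, he⟩ hline⟩
  · -- small classes
    right; left
    have hP5 : P ⊆ {5} := by
      intro p hp
      obtain ⟨m, -, hm⟩ := hfc p hp
      have h1 := hcard m
      have h2 := hsz (τ m)
      have h3' : p ≤ 6 := hm.trans (h1.trans h2)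
      rcases hsub57 p hp with h | h
      · simp [h]
      · omega
    have hDv : D = 6 ∨ D = 30 := by
      rcases Finset.subset_singleton_iff.mp hP5 with h | h
      · left; rw [hD, h]; simp
      · right; rw [hD, h]; simp
    intro i
    obtain ⟨k, hk⟩ := hdiv i
    have hk' : 4 * (e' i : ℝ) = Q * k := by exact_mod_cast hk
    have h1 : yy4 N e' i = 1 / 2 - (k : ℝ) / (2 * D) := by
      unfold yy4
      have hD' : (D : ℝ) ≠ 0 := by positivity
      have hQ' : (Q : ℝ) ≠ 0 := by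
        intro h0
        rw [h0, zero_mul] at hQD
        exact hN' hQD.symm
      rw [← hQD]
      have : (e' i : ℝ) = Q * k / 4 := by linarith
      rw [this]
      field_simp
      ring
    rcases hDv with h | h
    · refine ⟨30 - 5 * k, ?_⟩
      rw [h1, h]
      push_cast
      ring
    · refine ⟨30 - k, ?_⟩
      rw [h1, h]
      push_cast
      ring
  · -- a single class
    right
    have h1 : ∀ i, ∃ k : ℤ, yy4 N e' i = 1 / 2 - (k : ℝ) / D := by
      intro i
      obtain ⟨k, hk⟩ := hdiv i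
      refine ⟨k, ?_⟩
      have hk' : 2 * (e' i : ℝ) = Q * k := by exact_mod_cast hk
      unfold yy4
      have hD' : (D : ℝ) ≠ 0 := by positivity
      have hQ' : (Q : ℝ) ≠ 0 := by
        intro h0
        rw [h0, zero_mul] at hQD
        exact hN' hQD.symm
      rw [← hQD, hk']
      field_simp
    by_cases h5P : 5 ∈ P
    · by_cases h7P : 7 ∈ P
      · exfalso
        have hPeq : P = {5, 7} := by
          apply Finset.Subset.antisymm
          · intro p hp
            rcases hsub57 p hp with h | h <;> simp [h]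
          · intro p hp
            simp only [Finset.mem_insert, Finset.mem_singleton] at hp
            rcases hp with h | h <;> rw [h] <;> assumption
        have hD210 : D = 210 := by
          rw [hD, hPeq]
          decide
        obtain ⟨m5, hm5, -⟩ := hfc 5 h5P
        obtain ⟨m7, hm7, -⟩ := hfc 7 h7P
        have hdvd : Q ∣ EE4 N e m7 - EE4 N e m5 := by
          rw [MPx.EE4_iff N e Q hQ2]
          have := hone (τ m7) (τ m5)
          unfold dv4 at this ⊢
          rw [hτe, hτe] at this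
          exact this
        have hm5' : FullAt (EE4 N e) N 5 D (EE4 N e m7) :=
          h5 (Fin 8) (EE4 N e) N D 5 _ _ hN hDN (by rw [hD210]; norm_num) hdvd hm5
        have h8 : (univ.filter (fun i => ((N / D : ℕ) : ℤ) ∣ EE4 N e i - EE4 N e m7)).card ≤ 8 := by
          calc _ ≤ (univ : Finset (Fin 8)).card := Finset.card_filter_le _ _
            _ = 8 := by simp
        have := (hc (Fin 8) (EE4 N e) N D 7 5 (EE4 N e m7) hN hDN (by norm_num) (by norm_num)
          (by norm_num) (by norm_num) (by rw [hD210]; norm_num) (by rw [hD210]; norm_num)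
          (by rw [hD210]; norm_num) hcs hm7 hm5' (by omega) (by omega)).1
        omega
      · left
        have hPeq : P = {5} := by
          apply Finset.Subset.antisymm
          · intro p hp
            rcases hsub57 p hp with h | h
            · simp [h]
            · rw [h] at hp; exact absurd hp h7P
          · intro p hp
            simp only [Finset.mem_singleton] at hp
            rw [hp]; exact h5P
        have hDv : D = 30 := by rw [hD, hPeq]; simp
        intro i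
        obtain ⟨k, hk⟩ := h1 i
        refine ⟨30 - 2 * k, ?_⟩
        rw [hk, hDv]
        push_cast
        ring
    · by_cases h7P : 7 ∈ P
      · right
        have hPeq : P = {7} := by
          apply Finset.Subset.antisymm
          · intro p hp
            rcases hsub57 p hp with h | h
            · rw [h] at hp; exact absurd hp h5P
            · simp [h]
          · intro p hp
            simp only [Finset.mem_singleton] at hp
            rw [hp]; exact h7P
        have hDv : D = 42 := by rw [hD, hPeq]; simp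
        intro i
        obtain ⟨k, hk⟩ := h1 i
        refine ⟨21 - k, ?_⟩
        rw [hk, hDv]
        push_cast
        ring
      · left
        have hPeq : P = ∅ := by
          apply Finset.eq_empty_of_forall_notMem
          intro p hp
          rcases hsub57 p hp with h | h
          · rw [h] at hp; exact h5P hp
          · rw [h] at hp; exact h7P hp
        have hDv : D = 6 := by rw [hD, hPeq]; simp
        intro i
        obtain ⟨k, hk⟩ := h1 i
        refine ⟨30 - 10 * k, ?_⟩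
        rw [hk, hDv]
        push_cast
        ring

end Pool.Agent.T6.H31.TC
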