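import Pool.Agent.T6.H31.TC.INV4

set_option autoImplicit false

/-!
Module RV of the project TC (MP_6e4ab6_nt): the listed vectors solve the equations.
-/

namespace Pool.Agent.T6.H31.TC

open Finset INVx INV4x

namespace RVx

/-! ### two sines: Myerson's list -/

/-- the angle -/
noncomputable def th (N : ℕ) (t : ℤ) : ℝ := Real.pi * t / N

theorem two_sine (a b c d m : ℕ) (hm : a + b = c + d + 2 * m) (θ : ℝ) (s : ℂ)
    (hs : s = Complex.exp (((2 * θ : ℝ) : ℂ) * Complex.I))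
    (h : (s ^ a - 1) * (s ^ b - 1) = s ^ m * ((s ^ c - 1) * (s ^ d - 1))) :
    Real.sin ((a : ℝ) * θ) * Real.sin ((b : ℝ) * θ) =
      Real.sin ((c : ℝ) * θ) * Real.sin ((d : ℝ) * θ) := by
  obtain ⟨u, hu⟩ : ∃ u : ℂ, u = Complex.exp ((θ : ℂ) * Complex.I) := ⟨_, rfl⟩
  have hu0 : u ≠ 0 := by rw [hu]; exact Complex.exp_ne_zero _
  have hsu : s = u ^ 2 := by
    rw [hs, hu, ← Complex.exp_nat_mul]
    congr 1
    push_cast
    ring
  have key : ∀ k : ℕ, s ^ k - 1 =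
      u ^ k * (2 * Complex.I * ((Real.sin ((k : ℝ) * θ) : ℝ) : ℂ)) := by
    intro k
    have h1 : u ^ k = Complex.exp (((((k : ℝ) * θ : ℝ)) : ℂ) * Complex.I) := by
      rw [hu, ← Complex.exp_nat_mul]
      congr 1
      push_cast
      ring
    have h2 : u ^ k * Complex.exp (-((((k : ℝ) * θ : ℝ)) : ℂ) * Complex.I) = 1 := by
      rw [h1, ← Complex.exp_add, neg_mul, add_neg_cancel, Complex.exp_zero]
    rw [hsu, ← pow_mul, mul_comm 2 k, pow_mul, Complex.ofReal_sin, Complex.sin]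
    have h3 : u ^ k * (2 * Complex.I * ((Complex.exp (-((((k : ℝ) * θ : ℝ)) : ℂ) * Complex.I) -
        Complex.exp (((((k : ℝ) * θ : ℝ)) : ℂ) * Complex.I)) * Complex.I / 2)) =
        Complex.I ^ 2 * (u ^ k * Complex.exp (-((((k : ℝ) * θ : ℝ)) : ℂ) * Complex.I) -
          u ^ k * Complex.exp (((((k : ℝ) * θ : ℝ)) : ℂ) * Complex.I)) := by
      ring
    rw [h3, h2, ← h1, Complex.I_sq]
    ring
  rw [key, key, key, key, hsu] at h
  have h4 : (u ^ (a + b) * (2 * Complex.I) ^ 2) *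
      (((Real.sin ((a : ℝ) * θ) : ℝ) : ℂ) * ((Real.sin ((b : ℝ) * θ) : ℝ) : ℂ)) =
      (u ^ (a + b) * (2 * Complex.I) ^ 2) *
      (((Real.sin ((c : ℝ) * θ) : ℝ) : ℂ) * ((Real.sin ((d : ℝ) * θ) : ℝ) : ℂ)) := by
    calc _ = (u ^ a * (2 * Complex.I * ((Real.sin ((a : ℝ) * θ) : ℝ) : ℂ))) *
          (u ^ b * (2 * Complex.I * ((Real.sin ((b : ℝ) * θ) : ℝ) : ℂ))) := by
            rw [pow_add]; ring
      _ = _ := by
            rw [h, hm, ← pow_mul, pow_add, pow_add]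
            ring
  have h5 : u ^ (a + b) * (2 * Complex.I) ^ 2 ≠ 0 :=
    mul_ne_zero (pow_ne_zero _ hu0)
      (pow_ne_zero _ (mul_ne_zero two_ne_zero Complex.I_ne_zero))
  exact_mod_cast mul_left_cancel₀ h5 h4

theorem prim (N : ℕ) (hN : N ≠ 0) (t : ℤ) (ht : IsCoprime t (N : ℤ)) (s : ℂ)
    (hs : s = Complex.exp (((2 * th N t : ℝ) : ℂ) * Complex.I)) : IsPrimitiveRoot s N := by
  have h1 := Complex.isPrimitiveRoot_exp N hN
  have h2 := h1.zpow_of_gcd_eq_one t (Int.isCoprime_iff_gcd_eq_one.1 ht)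
  have h3 : s = Complex.exp (2 * Real.pi * Complex.I / N) ^ t := by
    rw [hs, ← Complex.exp_int_mul, th]
    congr 1
    push_cast
    ring
  rw [h3]
  exact h2

theorem phi30 {s : ℂ} (hs : IsPrimitiveRoot s 30) :
    s ^ 8 + s ^ 7 - s ^ 5 - s ^ 4 - s ^ 3 + s + 1 = 0 := by
  have h1 : s ^ 30 = 1 := hs.pow_eq_one
  have h2 : s ^ 15 ≠ 1 := fun h => by
    have := (hs.pow_eq_one_iff_dvd 15).1 h
    revert this
    decide
  have h3 : s ^ 15 + 1 = 0 := by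
    have h4 : (s ^ 15 - 1) * (s ^ 15 + 1) = 0 := by linear_combination h1
    rcases mul_eq_zero.1 h4 with h5 | h5
    · exact absurd (sub_eq_zero.1 h5) h2
    · exact h5
  have h6 : s ^ 5 + 1 ≠ 0 := fun h => by
    have h7 : s ^ 10 = 1 := by linear_combination (s ^ 5 - 1) * h
    have := (hs.pow_eq_one_iff_dvd 10).1 h7
    revert this
    decide
  have h8 : s ^ 2 - s + 1 ≠ 0 := fun h => by
    have h9 : s ^ 6 = 1 := by linear_combination (s + 1) * (s ^ 3 - 1) * h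
    have := (hs.pow_eq_one_iff_dvd 6).1 h9
    revert this
    decide
  have h10 : (s ^ 5 + 1) * (s ^ 2 - s + 1) *
      (s ^ 8 + s ^ 7 - s ^ 5 - s ^ 4 - s ^ 3 + s + 1) = 0 := by
    linear_combination h3
  rcases mul_eq_zero.1 h10 with h11 | h11
  · exact absurd h11 (mul_ne_zero h6 h8)
  · exact h11

theorem phi42 {s : ℂ} (hs : IsPrimitiveRoot s 42) :
    s ^ 12 + s ^ 11 - s ^ 9 - s ^ 8 + s ^ 6 - s ^ 4 - s ^ 3 + s + 1 = 0 := by
  have h1 : s ^ 42 = 1 := hs.pow_eq_one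
  have h2 : s ^ 21 ≠ 1 := fun h => by
    have := (hs.pow_eq_one_iff_dvd 21).1 h
    revert this
    decide
  have h3 : s ^ 21 + 1 = 0 := by
    have h4 : (s ^ 21 - 1) * (s ^ 21 + 1) = 0 := by linear_combination h1
    rcases mul_eq_zero.1 h4 with h5 | h5
    · exact absurd (sub_eq_zero.1 h5) h2
    · exact h5
  have h6 : s ^ 7 + 1 ≠ 0 := fun h => by
    have h7 : s ^ 14 = 1 := by linear_combination (s ^ 7 - 1) * h
    have := (hs.pow_eq_one_iff_dvd 14).1 h7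
    revert this
    decide
  have h8 : s ^ 2 - s + 1 ≠ 0 := fun h => by
    have h9 : s ^ 6 = 1 := by linear_combination (s + 1) * (s ^ 3 - 1) * h
    have := (hs.pow_eq_one_iff_dvd 6).1 h9
    revert this
    decide
  have h10 : (s ^ 7 + 1) * (s ^ 2 - s + 1) *
      (s ^ 12 + s ^ 11 - s ^ 9 - s ^ 8 + s ^ 6 - s ^ 4 - s ^ 3 + s + 1) = 0 := by
    linear_combination h3
  rcases mul_eq_zero.1 h10 with h11 | h11
  · exact absurd h11 (mul_ne_zero h6 h8)
  · exact h11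

theorem phi60 {s : ℂ} (hs : IsPrimitiveRoot s 60) :
    s ^ 16 + s ^ 14 - s ^ 10 - s ^ 8 - s ^ 6 + s ^ 2 + 1 = 0 := by
  have h1 : s ^ 60 = 1 := hs.pow_eq_one
  have h2 : s ^ 30 ≠ 1 := fun h => by
    have := (hs.pow_eq_one_iff_dvd 30).1 h
    revert this
    decide
  have h3 : s ^ 30 + 1 = 0 := by
    have h4 : (s ^ 30 - 1) * (s ^ 30 + 1) = 0 := by linear_combination h1
    rcases mul_eq_zero.1 h4 with h5 | h5
    · exact absurd (sub_eq_zero.1 h5) h2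
    · exact h5
  have h6 : s ^ 10 + 1 ≠ 0 := fun h => by
    have h7 : s ^ 20 = 1 := by linear_combination (s ^ 10 - 1) * h
    have := (hs.pow_eq_one_iff_dvd 20).1 h7
    revert this
    decide
  have h8 : s ^ 4 - s ^ 2 + 1 ≠ 0 := fun h => by
    have h9 : s ^ 12 = 1 := by linear_combination (s ^ 2 + 1) * (s ^ 6 - 1) * h
    have := (hs.pow_eq_one_iff_dvd 12).1 h9
    revert this
    decide
  have h10 : (s ^ 10 + 1) * (s ^ 4 - s ^ 2 + 1) *
      (s ^ 16 + s ^ 14 - s ^ 10 - s ^ 8 - s ^ 6 + s ^ 2 + 1) = 0 := by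
    linear_combination h3
  rcases mul_eq_zero.1 h10 with h11 | h11
  · exact absurd h11 (mul_ne_zero h6 h8)
  · exact h11

theorem sol_of (N a b c d : ℕ) (t : ℤ)
    (h : Real.sin ((a : ℝ) * th N t) * Real.sin ((b : ℝ) * th N t) =
      Real.sin ((c : ℝ) * th N t) * Real.sin ((d : ℝ) * th N t)) :
    SolY4 (spv4 (N, [a, b, c, d]) t) := by
  have e : ∀ k : ℕ, Real.pi * ((t : ℝ) * (k : ℝ) / (N : ℝ)) = (k : ℝ) * th N t := by
    intro k
    rw [th]
    ring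
  show |Real.sin (Real.pi * ((t : ℝ) * (a : ℝ) / (N : ℝ))) *
      Real.sin (Real.pi * ((t : ℝ) * (b : ℝ) / (N : ℝ)))| =
    |Real.sin (Real.pi * ((t : ℝ) * (c : ℝ) / (N : ℝ))) *
      Real.sin (Real.pi * ((t : ℝ) * (d : ℝ) / (N : ℝ)))|
  rw [e, e, e, e, h]

theorem my0 (t : ℤ) (ht : IsCoprime t ((30 : ℕ) : ℤ)) :
    SolY4 (spv4 (30, [1, 9, 2, 4]) t) := by
  obtain ⟨s, hs⟩ : ∃ s : ℂ, s = Complex.exp (((2 * th 30 t : ℝ) : ℂ) * Complex.I) := ⟨_, rfl⟩
  have h := phi30 (prim 30 (by norm_num) t ht s hs)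
  refine sol_of 30 1 9 2 4 t ?_
  exact two_sine 1 9 2 4 2 (by norm_num) (th 30 t) s hs (by
    linear_combination (1 - 2*s + s^2) * h)

theorem my1 (t : ℤ) (ht : IsCoprime t ((30 : ℕ) : ℤ)) :
    SolY4 (spv4 (30, [1, 11, 3, 3]) t) := by
  obtain ⟨s, hs⟩ : ∃ s : ℂ, s = Complex.exp (((2 * th 30 t : ℝ) : ℂ) * Complex.I) := ⟨_, rfl⟩
  have h := phi30 (prim 30 (by norm_num) t ht s hs)
  refine sol_of 30 1 11 3 3 t ?_
  exact two_sine 1 11 3 3 3 (by norm_num) (th 30 t) s hs (by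
    linear_combination (1 - 2*s + 2*s^2 - 2*s^3 + s^4) * h)

theorem my2 (t : ℤ) (ht : IsCoprime t ((30 : ℕ) : ℤ)) :
    SolY4 (spv4 (30, [2, 8, 3, 5]) t) := by
  obtain ⟨s, hs⟩ : ∃ s : ℂ, s = Complex.exp (((2 * th 30 t : ℝ) : ℂ) * Complex.I) := ⟨_, rfl⟩
  have h := phi30 (prim 30 (by norm_num) t ht s hs)
  refine sol_of 30 2 8 3 5 t ?_
  exact two_sine 2 8 3 5 1 (by norm_num) (th 30 t) s hs (by
    linear_combination (1 - 2*s + s^2) * h)

theorem my3 (t : ℤ) (ht : IsCoprime t ((30 : ℕ) : ℤ)) :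
    SolY4 (spv4 (30, [2, 14, 3, 7]) t) := by
  obtain ⟨s, hs⟩ : ∃ s : ℂ, s = Complex.exp (((2 * th 30 t : ℝ) : ℂ) * Complex.I) := ⟨_, rfl⟩
  have h := phi30 (prim 30 (by norm_num) t ht s hs)
  refine sol_of 30 2 14 3 7 t ?_
  exact two_sine 2 14 3 7 3 (by norm_num) (th 30 t) s hs (by
    linear_combination (1 - s - s^7 + s^8) * h)

theorem my4 (t : ℤ) (ht : IsCoprime t ((30 : ℕ) : ℤ)) :
    SolY4 (spv4 (30, [5, 5, 3, 9]) t) := by
  obtain ⟨s, hs⟩ : ∃ s : ℂ, s = Complex.exp (((2 * th 30 t : ℝ) : ℂ) * Complex.I) := ⟨_, rfl⟩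
  have h := phi30 (prim 30 (by norm_num) t ht s hs)
  refine sol_of 30 5 5 3 9 t ?_
  exact (two_sine 3 9 5 5 1 (by norm_num) (th 30 t) s hs (by
    linear_combination (1 - 2*s + 2*s^2 - 2*s^3 + s^4) * h)).symm

theorem my5 (t : ℤ) (ht : IsCoprime t ((30 : ℕ) : ℤ)) :
    SolY4 (spv4 (30, [4, 8, 3, 13]) t) := by
  obtain ⟨s, hs⟩ : ∃ s : ℂ, s = Complex.exp (((2 * th 30 t : ℝ) : ℂ) * Complex.I) := ⟨_, rfl⟩
  have h := phi30 (prim 30 (by norm_num) t ht s hs)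
  refine sol_of 30 4 8 3 13 t ?_
  exact (two_sine 3 13 4 8 2 (by norm_num) (th 30 t) s hs (by
    linear_combination (1 - s - s^7 + s^8) * h)).symm

theorem my6 (t : ℤ) (ht : IsCoprime t ((30 : ℕ) : ℤ)) :
    SolY4 (spv4 (30, [4, 14, 5, 9]) t) := by
  obtain ⟨s, hs⟩ : ∃ s : ℂ, s = Complex.exp (((2 * th 30 t : ℝ) : ℂ) * Complex.I) := ⟨_, rfl⟩
  have h := phi30 (prim 30 (by norm_num) t ht s hs)
  refine sol_of 30 4 14 5 9 t ?_
  exact two_sine 4 14 5 9 2 (by norm_num) (th 30 t) s hs (by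
    linear_combination (1 - s + s^3 - 2*s^4 + 2*s^5 - 2*s^6 + s^7 - s^9 + s^10) * h)

theorem my7 (t : ℤ) (ht : IsCoprime t ((30 : ℕ) : ℤ)) :
    SolY4 (spv4 (30, [7, 13, 9, 9]) t) := by
  obtain ⟨s, hs⟩ : ∃ s : ℂ, s = Complex.exp (((2 * th 30 t : ℝ) : ℂ) * Complex.I) := ⟨_, rfl⟩
  have h := phi30 (prim 30 (by norm_num) t ht s hs)
  refine sol_of 30 7 13 9 9 t ?_
  exact two_sine 7 13 9 9 1 (by norm_num) (th 30 t) s hs (by
    linear_combination (1 - 2*s + 2*s^2 - s^3 + s^5 - 2*s^6 + s^7 - s^9 + 2*s^10 - 2*s^11 + s^12) * h)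

theorem my8 (t : ℤ) (ht : IsCoprime t ((30 : ℕ) : ℤ)) :
    SolY4 (spv4 (30, [8, 14, 9, 11]) t) := by
  obtain ⟨s, hs⟩ : ∃ s : ℂ, s = Complex.exp (((2 * th 30 t : ℝ) : ℂ) * Complex.I) := ⟨_, rfl⟩
  have h := phi30 (prim 30 (by norm_num) t ht s hs)
  refine sol_of 30 8 14 9 11 t ?_
  exact two_sine 8 14 9 11 1 (by norm_num) (th 30 t) s hs (by
    linear_combination (1 - 2*s + 2*s^2 - s^3 + s^5 - 2*s^6 + 2*s^7 - 2*s^8 + s^9 - s^11 + 2*s^12 - 2*s^13 + s^14) * h)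

theorem my9 (t : ℤ) (ht : IsCoprime t ((42 : ℕ) : ℤ)) :
    SolY4 (spv4 (42, [3, 9, 2, 16]) t) := by
  obtain ⟨s, hs⟩ : ∃ s : ℂ, s = Complex.exp (((2 * th 42 t : ℝ) : ℂ) * Complex.I) := ⟨_, rfl⟩
  have h := phi42 (prim 42 (by norm_num) t ht s hs)
  refine sol_of 42 3 9 2 16 t ?_
  exact (two_sine 2 16 3 9 3 (by norm_num) (th 42 t) s hs (by
    linear_combination (1 - s - s^5 + s^6) * h)).symm

theorem my10 (t : ℤ) (ht : IsCoprime t ((42 : ℕ) : ℤ)) :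
    SolY4 (spv4 (42, [3, 15, 4, 10]) t) := by
  obtain ⟨s, hs⟩ : ∃ s : ℂ, s = Complex.exp (((2 * th 42 t : ℝ) : ℂ) * Complex.I) := ⟨_, rfl⟩
  have h := phi42 (prim 42 (by norm_num) t ht s hs)
  refine sol_of 42 3 15 4 10 t ?_
  exact two_sine 3 15 4 10 2 (by norm_num) (th 42 t) s hs (by
    linear_combination (1 - s - s^5 + s^6) * h)

theorem my11 (t : ℤ) (ht : IsCoprime t ((42 : ℕ) : ℤ)) :
    SolY4 (spv4 (42, [9, 15, 8, 20]) t) := by
  obtain ⟨s, hs⟩ : ∃ s : ℂ, s = Complex.exp (((2 * th 42 t : ℝ) : ℂ) * Complex.I) := ⟨_, rfl⟩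
  have h := phi42 (prim 42 (by norm_num) t ht s hs)
  refine sol_of 42 9 15 8 20 t ?_
  exact (two_sine 8 20 9 15 2 (by norm_num) (th 42 t) s hs (by
    linear_combination (1 - s + s^3 - s^4 + s^7 - 2*s^8 + s^9 - s^12 + s^13 - s^15 + s^16) * h)).symm

theorem my12 (t : ℤ) (ht : IsCoprime t ((60 : ℕ) : ℤ)) :
    SolY4 (spv4 (60, [4, 16, 3, 27]) t) := by
  obtain ⟨s, hs⟩ : ∃ s : ℂ, s = Complex.exp (((2 * th 60 t : ℝ) : ℂ) * Complex.I) := ⟨_, rfl⟩
  have h := phi60 (prim 60 (by norm_num) t ht s hs)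
  refine sol_of 60 4 16 3 27 t ?_
  exact (two_sine 3 27 4 16 5 (by norm_num) (th 60 t) s hs (by
    linear_combination (1 - s^2 - s^3 + s^4 + s^10 - s^11 - s^12 + s^14) * h)).symm

theorem my13 (t : ℤ) (ht : IsCoprime t ((60 : ℕ) : ℤ)) :
    SolY4 (spv4 (60, [6, 18, 5, 25]) t) := by
  obtain ⟨s, hs⟩ : ∃ s : ℂ, s = Complex.exp (((2 * th 60 t : ℝ) : ℂ) * Complex.I) := ⟨_, rfl⟩
  have h := phi60 (prim 60 (by norm_num) t ht s hs)
  refine sol_of 60 6 18 5 25 t ?_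
  exact (two_sine 5 25 6 18 3 (by norm_num) (th 60 t) s hs (by
    linear_combination (1 - s^2 - s^3 + s^4 + s^10 - s^11 - s^12 + s^14) * h)).symm

theorem my14 (t : ℤ) (ht : IsCoprime t ((60 : ℕ) : ℤ)) :
    SolY4 (spv4 (60, [8, 28, 9, 21]) t) := by
  obtain ⟨s, hs⟩ : ∃ s : ℂ, s = Complex.exp (((2 * th 60 t : ℝ) : ℂ) * Complex.I) := ⟨_, rfl⟩
  have h := phi60 (prim 60 (by norm_num) t ht s hs)
  refine sol_of 60 8 28 9 21 t ?_
  exact two_sine 8 28 9 21 3 (by norm_num) (th 60 t) s hs (by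
    linear_combination (1 - s^2 - s^3 + s^4 + s^5 - s^7 - s^8 + 2*s^10 - s^12 - s^13 + s^15 + s^16 - s^17 - s^18 + s^20) * h)

/-! ### product formulas -/

/-- `sin (pi x)` -/
noncomputable def S (x : ℝ) : ℝ := Real.sin (Real.pi * x)

theorem S2 {z x x' : ℝ} (hz : z = 2 * x) (hx : x' = x + 1 / 2) : S z = 2 * (S x * S x') := by
  unfold S
  have h1 : Real.pi * x' = Real.pi * x + Real.pi / 2 := by rw [hx]; ring
  have h2 : Real.pi * z = 2 * (Real.pi * x) := by rw [hz]; ring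
  rw [h1, h2, Real.sin_add_pi_div_two, Real.sin_two_mul]
  ring

theorem S3 {z x x' x'' : ℝ} (hz : z = 3 * x) (hx : x' = x + 1 / 3) (hx' : x'' = x + 2 / 3) :
    S z = 4 * (S x * S x' * S x'') := by
  unfold S
  have h1 : Real.pi * x' = Real.pi * x + Real.pi / 3 := by rw [hx]; ring
  have h2 : Real.pi * x'' = (Real.pi * x - Real.pi / 3) + Real.pi := by rw [hx']; ring
  have h3 : Real.pi * z = 3 * (Real.pi * x) := by rw [hz]; ring
  rw [h1, h2, h3, Real.sin_add_pi, Real.sin_three_mul, Real.sin_add, Real.sin_sub,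
    Real.cos_pi_div_three, Real.sin_pi_div_three]
  have h4 : √(3 : ℝ) ^ 2 = 3 := Real.sq_sqrt (by norm_num)
  have h5 := Real.sin_sq_add_cos_sq (Real.pi * x)
  have h6 : Real.cos (Real.pi * x) ^ 2 = 1 - Real.sin (Real.pi * x) ^ 2 := by linarith
  have h7 : 4 * (Real.sin (Real.pi * x) *
      (Real.sin (Real.pi * x) * (1 / 2) + Real.cos (Real.pi * x) * (√3 / 2)) *
      -(Real.sin (Real.pi * x) * (1 / 2) - Real.cos (Real.pi * x) * (√3 / 2))) =
      Real.sin (Real.pi * x) * (Real.cos (Real.pi * x) ^ 2 * √(3 : ℝ) ^ 2 -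
        Real.sin (Real.pi * x) ^ 2) := by ring
  rw [h7, h4, h6]
  ring

theorem S_refl (x : ℝ) : S (1 - x) = S x := by
  unfold S
  rw [mul_sub, mul_one, Real.sin_pi_sub]

theorem S6 : S (1 / 6) = 1 / 2 := by
  unfold S
  rw [show Real.pi * (1 / 6) = Real.pi / 6 by ring, Real.sin_pi_div_six]

theorem S12 : S (1 / 12) * S (5 / 12) = 1 / 4 := by
  have h1 : S (1 / 6) = 2 * (S (1 / 12) * S (7 / 12)) := S2 (by norm_num) (by norm_num)
  have h2 : S (7 / 12) = S (5 / 12) := by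
    rw [← S_refl]
    norm_num
  rw [h2, S6] at h1
  linarith

theorem th30 (k : ℕ) : Real.sin ((k : ℝ) * th 30 1) = S (k / 30) := by
  unfold S th
  congr 1
  push_cast
  ring

theorem S10 : S (1 / 10) * S (3 / 10) = 1 / 4 := by
  obtain ⟨s, hs⟩ : ∃ s : ℂ, s = Complex.exp (((2 * th 30 1 : ℝ) : ℂ) * Complex.I) := ⟨_, rfl⟩
  have h := phi30 (prim 30 (by norm_num) 1 (isCoprime_one_left) s hs)
  have h2 := two_sine 3 9 5 5 1 (by norm_num) (th 30 1) s hs (by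
    linear_combination (1 - 2*s + 2*s^2 - 2*s^3 + s^4) * h)
  rw [th30, th30, th30] at h2
  norm_num at h2
  rw [S6] at h2
  rw [h2]
  norm_num

theorem S15 : 2 * (S (1 / 15) * S (4 / 15)) = S (1 / 10) := by
  obtain ⟨s, hs⟩ : ∃ s : ℂ, s = Complex.exp (((2 * th 30 1 : ℝ) : ℂ) * Complex.I) := ⟨_, rfl⟩
  have h := phi30 (prim 30 (by norm_num) 1 (isCoprime_one_left) s hs)
  have h2 := two_sine 2 8 3 5 1 (by norm_num) (th 30 1) s hs (by
    linear_combination (1 - 2*s + s^2) * h)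
  rw [th30, th30, th30, th30] at h2
  norm_num at h2
  rw [S6] at h2
  rw [h2]
  ring

theorem S15' : 2 * (S (2 / 15) * S (7 / 15)) = S (3 / 10) := by
  obtain ⟨s, hs⟩ : ∃ s : ℂ, s = Complex.exp (((2 * th 30 1 : ℝ) : ℂ) * Complex.I) := ⟨_, rfl⟩
  have h := phi30 (prim 30 (by norm_num) 1 (isCoprime_one_left) s hs)
  have h2 := two_sine 4 14 5 9 2 (by norm_num) (th 30 1) s hs (by
    linear_combination (1 - s + s^3 - 2*s^4 + 2*s^5 - 2*s^6 + s^7 - s^9 + s^10) * h)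
  rw [th30, th30, th30, th30] at h2
  norm_num at h2
  rw [S6] at h2
  rw [h2]
  ring

theorem fam_sol (a0 a1 a2 a3 a4 a5 b0 b1 b2 b3 b4 b5 : ℤ) (p z0 z1 z2 z3 z4 z5 : ℝ)
    (h0 : (a0 : ℝ) * p + (b0 : ℝ) / 60 = z0) (h1 : (a1 : ℝ) * p + (b1 : ℝ) / 60 = z1)
    (h2 : (a2 : ℝ) * p + (b2 : ℝ) / 60 = z2) (h3 : (a3 : ℝ) * p + (b3 : ℝ) / 60 = z3)
    (h4 : (a4 : ℝ) * p + (b4 : ℝ) / 60 = z4) (h5 : (a5 : ℝ) * p + (b5 : ℝ) / 60 = z5)
    (h : S z0 * S z1 * S z2 = S z3 * S z4 * S z5) :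
    SolY (famv [(a0, b0), (a1, b1), (a2, b2), (a3, b3), (a4, b4), (a5, b5)] p) := by
  show |S ((a0 : ℝ) * p + (b0 : ℝ) / 60) * S ((a1 : ℝ) * p + (b1 : ℝ) / 60) *
      S ((a2 : ℝ) * p + (b2 : ℝ) / 60)| =
    |S ((a3 : ℝ) * p + (b3 : ℝ) / 60) * S ((a4 : ℝ) * p + (b4 : ℝ) / 60) *
      S ((a5 : ℝ) * p + (b5 : ℝ) / 60)|
  rw [h0, h1, h2, h3, h4, h5, h]

/-- the sixteen families -/
theorem fams_sol (f : List (ℤ × ℤ)) (hf : f ∈ Fams) (p : ℝ) : SolY (famv f p) := by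
  have d1 : S (2 * p) = 2 * (S p * S (p + 1 / 2)) := S2 (by ring) (by ring)
  have d2 : S (2 * p + 1 / 2) = 2 * (S (p + 1 / 4) * S (p + 3 / 4)) := S2 (by ring) (by ring)
  have d3 : S (2 * p + 1 / 3) = 2 * (S (p + 1 / 6) * S (p + 2 / 3)) := S2 (by ring) (by ring)
  have d4 : S (2 * p + 2 / 3) = 2 * (S (p + 1 / 3) * S (p + 5 / 6)) := S2 (by ring) (by ring)
  have d5 : S (2 * p + 1 / 6) = 2 * (S (p + 1 / 12) * S (p + 7 / 12)) := S2 (by ring) (by ring)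
  have d6 : S (2 * p + 5 / 6) = 2 * (S (p + 5 / 12) * S (p + 11 / 12)) := S2 (by ring) (by ring)
  have t1 : S (3 * p) = 4 * (S p * S (p + 1 / 3) * S (p + 2 / 3)) :=
    S3 (by ring) (by ring) (by ring)
  have t2 : S (3 * p + 1 / 2) = 4 * (S (p + 1 / 6) * S (p + 1 / 2) * S (p + 5 / 6)) :=
    S3 (by ring) (by ring) (by ring)
  have t3 : S (3 * p + 1 / 4) = 4 * (S (p + 1 / 12) * S (p + 5 / 12) * S (p + 3 / 4)) :=
    S3 (by ring) (by ring) (by ring)
  have t4 : S (3 * p + 3 / 4) = 4 * (S (p + 1 / 4) * S (p + 7 / 12) * S (p + 11 / 12)) :=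
    S3 (by ring) (by ring) (by ring)
  have q1 : S (4 * p) = 2 * (S (2 * p) * S (2 * p + 1 / 2)) := S2 (by ring) (by ring)
  have q2 : S (4 * p + 1 / 3) = 2 * (S (2 * p + 1 / 6) * S (2 * p + 2 / 3)) :=
    S2 (by ring) (by ring)
  have q3 : S (4 * p + 2 / 3) = 2 * (S (2 * p + 1 / 3) * S (2 * p + 5 / 6)) :=
    S2 (by ring) (by ring)
  have s1 : S (6 * p) = 2 * (S (3 * p) * S (3 * p + 1 / 2)) := S2 (by ring) (by ring)
  have s2 : S (6 * p + 1 / 2) = 2 * (S (3 * p + 1 / 4) * S (3 * p + 3 / 4)) :=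
    S2 (by ring) (by ring)
  simp only [Fams, List.mem_cons, List.not_mem_nil, or_false] at hf
  rcases hf with rfl | rfl | rfl | rfl | rfl | rfl | rfl | rfl | rfl | rfl | rfl | rfl | rfl | rfl | rfl | rfl
  · refine fam_sol 0 0 2 0 1 1 4 16 0 6 0 30 p (1 / 15) (4 / 15) (2 * p) (1 / 10) (p) (p + 1 / 2)
      (by push_cast; ring) (by push_cast; ring) (by push_cast; ring) (by push_cast; ring)
      (by push_cast; ring) (by push_cast; ring) ?_
    rw [d1]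
    linear_combination (S p * S (p + 1 / 2)) * S15
  · refine fam_sol 0 0 2 0 1 1 6 18 0 10 0 30 p (1 / 10) (3 / 10) (2 * p) (1 / 6) (p) (p + 1 / 2)
      (by push_cast; ring) (by push_cast; ring) (by push_cast; ring) (by push_cast; ring)
      (by push_cast; ring) (by push_cast; ring) ?_
    rw [d1, S10, S6]
    ring
  · refine fam_sol 0 0 2 0 1 1 8 28 0 18 0 30 p (2 / 15) (7 / 15) (2 * p) (3 / 10) (p) (p + 1 / 2)
      (by push_cast; ring) (by push_cast; ring) (by push_cast; ring) (by push_cast; ring)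
      (by push_cast; ring) (by push_cast; ring) ?_
    rw [d1]
    linear_combination (S p * S (p + 1 / 2)) * S15'
  · refine fam_sol 0 0 3 1 1 1 5 25 0 0 20 40 p (1 / 12) (5 / 12) (3 * p) (p) (p + 1 / 3) (p + 2 / 3)
      (by push_cast; ring) (by push_cast; ring) (by push_cast; ring) (by push_cast; ring)
      (by push_cast; ring) (by push_cast; ring) ?_
    rw [t1, S12]
    ring
  · refine fam_sol 0 0 4 1 1 2 5 25 0 0 30 30 p (1 / 12) (5 / 12) (4 * p) (p) (p + 1 / 2) (2 * p + 1 / 2)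
      (by push_cast; ring) (by push_cast; ring) (by push_cast; ring) (by push_cast; ring)
      (by push_cast; ring) (by push_cast; ring) ?_
    rw [q1, d1, S12]
    ring
  · refine fam_sol 0 0 3 1 1 1 6 18 0 0 20 40 p (1 / 10) (3 / 10) (3 * p) (p) (p + 1 / 3) (p + 2 / 3)
      (by push_cast; ring) (by push_cast; ring) (by push_cast; ring) (by push_cast; ring)
      (by push_cast; ring) (by push_cast; ring) ?_
    rw [t1, S10]
    ring
  · refine fam_sol 0 0 4 1 1 2 6 18 0 0 30 30 p (1 / 10) (3 / 10) (4 * p) (p) (p + 1 / 2) (2 * p + 1 / 2)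
      (by push_cast; ring) (by push_cast; ring) (by push_cast; ring) (by push_cast; ring)
      (by push_cast; ring) (by push_cast; ring) ?_
    rw [q1, d1, S10]
    ring
  · refine fam_sol 0 0 3 1 1 1 10 10 0 0 20 40 p (1 / 6) (1 / 6) (3 * p) (p) (p + 1 / 3) (p + 2 / 3)
      (by push_cast; ring) (by push_cast; ring) (by push_cast; ring) (by push_cast; ring)
      (by push_cast; ring) (by push_cast; ring) ?_
    rw [t1, S6]
    ring
  · refine fam_sol 0 0 4 1 1 2 10 10 0 0 30 30 p (1 / 6) (1 / 6) (4 * p) (p) (p + 1 / 2) (2 * p + 1 / 2)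
      (by push_cast; ring) (by push_cast; ring) (by push_cast; ring) (by push_cast; ring)
      (by push_cast; ring) (by push_cast; ring) ?_
    rw [q1, d1, S6]
    ring
  · refine fam_sol 0 1 3 1 1 2 10 10 0 0 20 20 p (1 / 6) (p + 1 / 6) (3 * p) (p) (p + 1 / 3) (2 * p + 1 / 3)
      (by push_cast; ring) (by push_cast; ring) (by push_cast; ring) (by push_cast; ring)
      (by push_cast; ring) (by push_cast; ring) ?_
    rw [t1, d3, S6]
    ring
  · refine fam_sol 0 3 3 2 2 2 10 0 30 0 20 40 p (1 / 6) (3 * p) (3 * p + 1 / 2) (2 * p) (2 * p + 1 / 3) (2 * p + 2 / 3)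
      (by push_cast; ring) (by push_cast; ring) (by push_cast; ring) (by push_cast; ring)
      (by push_cast; ring) (by push_cast; ring) ?_
    rw [t1, t2, d1, d3, d4, S6]
    ring
  · refine fam_sol 1 1 4 1 2 3 5 25 0 15 0 15 p (p + 1 / 12) (p + 5 / 12) (4 * p) (p + 1 / 4) (2 * p) (3 * p + 1 / 4)
      (by push_cast; ring) (by push_cast; ring) (by push_cast; ring) (by push_cast; ring)
      (by push_cast; ring) (by push_cast; ring) ?_
    rw [q1, d1, d2, t3]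
    ring
  · refine fam_sol 1 1 3 1 2 2 10 30 0 20 0 20 p (p + 1 / 6) (p + 1 / 2) (3 * p) (p + 1 / 3) (2 * p) (2 * p + 1 / 3)
      (by push_cast; ring) (by push_cast; ring) (by push_cast; ring) (by push_cast; ring)
      (by push_cast; ring) (by push_cast; ring) ?_
    rw [t1, d1, d3]
    ring
  · refine fam_sol 2 2 4 2 3 3 0 20 20 10 0 30 p (2 * p) (2 * p + 1 / 3) (4 * p + 1 / 3) (2 * p + 1 / 6) (3 * p) (3 * p + 1 / 2)
      (by push_cast; ring) (by push_cast; ring) (by push_cast; ring) (by push_cast; ring)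
      (by push_cast; ring) (by push_cast; ring) ?_
    rw [q2, d1, d3, d4, d5, t1, t2]
    ring
  · refine fam_sol 1 1 6 2 2 4 5 35 0 0 20 20 p (p + 1 / 12) (p + 7 / 12) (6 * p) (2 * p) (2 * p + 1 / 3) (4 * p + 1 / 3)
      (by push_cast; ring) (by push_cast; ring) (by push_cast; ring) (by push_cast; ring)
      (by push_cast; ring) (by push_cast; ring) ?_
    rw [s1, q2, d1, d3, d4, d5, t1, t2]
    ring
  · refine fam_sol 3 3 6 4 4 4 0 30 30 0 20 40 p (3 * p) (3 * p + 1 / 2) (6 * p + 1 / 2) (4 * p) (4 * p + 1 / 3) (4 * p + 2 / 3)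
      (by push_cast; ring) (by push_cast; ring) (by push_cast; ring) (by push_cast; ring)
      (by push_cast; ring) (by push_cast; ring) ?_
    rw [s2, q1, q2, q3, d1, d2, d3, d4, d5, d6, t1, t2, t3, t4]
    ring

theorem two_sol (p q : ℝ) : SolY ![p, p + 1 / 2, 2 * q, q, q + 1 / 2, 2 * p] := by
  show |S p * S (p + 1 / 2) * S (2 * q)| = |S q * S (q + 1 / 2) * S (2 * p)|
  rw [S2 (z := 2 * q) (x := q) (x' := q + 1 / 2) rfl rfl,
    S2 (z := 2 * p) (x := p) (x' := p + 1 / 2) rfl rfl]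
  congr 1
  ring

theorem d2_sol (p : ℝ) : SolY4 ![p, p + 1 / 2, 2 * p, 1 / 6] := by
  show |S p * S (p + 1 / 2)| = |S (2 * p) * S (1 / 6)|
  rw [S2 (z := 2 * p) (x := p) (x' := p + 1 / 2) rfl rfl, S6]
  congr 1
  ring

theorem triv_sol (p q : ℝ) : SolY4 ![p, q, p, q] := rfl

end RVx

open RVx

theorem rv1 : StmtRV1 := by
  rintro y (⟨p, q, h⟩ | ⟨f, hf, p, h⟩)
  · exact SolY_of_Match h (two_sol p q)
  · exact SolY_of_Match h (fams_sol f hf p)

theorem rv3 : StmtRV3 := by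
  rintro y (⟨p, q, h⟩ | ⟨p, h⟩ | ⟨s, hs, t, ht, h⟩)
  · exact SolY4_of_Match4 h (triv_sol p q)
  · exact SolY4_of_Match4 h (d2_sol p)
  · refine SolY4_of_Match4 h ?_
    simp only [Myers, List.mem_cons, List.not_mem_nil, or_false] at hs
    rcases hs with rfl | rfl | rfl | rfl | rfl | rfl | rfl | rfl | rfl | rfl | rfl | rfl | rfl | rfl | rfl
    · exact my0 t ht
    · exact my1 t ht
    · exact my2 t ht
    · exact my3 t ht
    · exact my4 t ht
    · exact my5 t ht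
    · exact my6 t ht
    · exact my7 t ht
    · exact my8 t ht
    · exact my9 t ht
    · exact my10 t ht
    · exact my11 t ht
    · exact my12 t ht
    · exact my13 t ht
    · exact my14 t ht

theorem rv (h1 : StmtRV1) (h2 : StmtRV2) (h3 : StmtRV3) : StmtRV := by
  rintro y (⟨r, w, hw, h⟩ | h | h | ⟨s, hs, t, ht, h⟩)
  · refine SolY_of_Match h ?_
    have hs := h3 w hw
    rw [SolY4, abs_mul, abs_mul] at hs
    show |Real.sin (Real.pi * r) * Real.sin (Real.pi * w 0) * Real.sin (Real.pi * w 1)| =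
      |Real.sin (Real.pi * r) * Real.sin (Real.pi * w 2) * Real.sin (Real.pi * w 3)|
    rw [abs_mul, abs_mul, abs_mul, abs_mul, mul_assoc, mul_assoc, hs]
  · exact h1 y (Or.inl h)
  · exact h1 y (Or.inr h)
  · exact SolY_of_Match h (h2 s t hs ht)

end Pool.Agent.T6.H31.TC
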