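import Pool.Agent.T6.H31.TC.RV2b

set_option autoImplicit false

/-! Module RV2 of the project TC (MP_6e4ab6_nt): sporadic solutions, part 2. -/

namespace Pool.Agent.T6.H31.TC

open Finset INVx RVx

namespace RV2x

theorem sp28 (t : ℤ) (ht : IsCoprime t ((60 : ℕ) : ℤ)) :
    SolY (spv (60, [1, 10, 25, 3, 4, 17]) t) := by
  obtain ⟨s, hs⟩ : ∃ s : ℂ, s = Complex.exp (((2 * th 60 t : ℝ) : ℂ) * Complex.I) := ⟨_, rfl⟩
  have h := phi60 (prim 60 (by norm_num) t ht s hs)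
  refine sol6_of 60 1 10 25 3 4 17 t ?_
  exact three_sine 1 10 25 3 4 17 6 (by norm_num) (th 60 t) s hs (by
    linear_combination (-1 + s + s^2 - s^3 - s^4 + s^5 + s^6 - s^8 - s^9 + s^11 + s^12 - s^14 - s^15 + s^16 + s^17 -
      s^18 - s^19 + s^20) * h)

theorem sp29 (t : ℤ) (ht : IsCoprime t ((60 : ℕ) : ℤ)) :
    SolY (spv (60, [1, 10, 29, 4, 6, 8]) t) := by
  obtain ⟨s, hs⟩ : ∃ s : ℂ, s = Complex.exp (((2 * th 60 t : ℝ) : ℂ) * Complex.I) := ⟨_, rfl⟩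
  have h := phi60 (prim 60 (by norm_num) t ht s hs)
  refine sol6_of 60 1 10 29 4 6 8 t ?_
  exact three_sine 1 10 29 4 6 8 11 (by norm_num) (th 60 t) s hs (by
    linear_combination (-1 + s + s^2 - s^3 - s^4 + s^5 + s^11 - s^13 - s^19 + s^20 + s^21 - s^22 - s^23 + s^24) * h)

theorem sp30 (t : ℤ) (ht : IsCoprime t ((60 : ℕ) : ℤ)) :
    SolY (spv (60, [1, 13, 22, 3, 5, 16]) t) := by
  obtain ⟨s, hs⟩ : ∃ s : ℂ, s = Complex.exp (((2 * th 60 t : ℝ) : ℂ) * Complex.I) := ⟨_, rfl⟩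
  have h := phi60 (prim 60 (by norm_num) t ht s hs)
  refine sol6_of 60 1 13 22 3 5 16 t ?_
  exact three_sine 1 13 22 3 5 16 6 (by norm_num) (th 60 t) s hs (by
    linear_combination (-1 + s + s^2 - s^3 - s^4 + s^5 + s^6 - s^8 - s^9 + s^11 + s^12 - s^14 - s^15 + s^16 + s^17 -
      s^18 - s^19 + s^20) * h)

theorem sp31 (t : ℤ) (ht : IsCoprime t ((60 : ℕ) : ℤ)) :
    SolY (spv (60, [1, 13, 25, 3, 4, 26]) t) := by
  obtain ⟨s, hs⟩ : ∃ s : ℂ, s = Complex.exp (((2 * th 60 t : ℝ) : ℂ) * Complex.I) := ⟨_, rfl⟩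
  have h := phi60 (prim 60 (by norm_num) t ht s hs)
  refine sol6_of 60 1 13 25 3 4 26 t ?_
  exact three_sine 1 13 25 3 4 26 3 (by norm_num) (th 60 t) s hs (by
    linear_combination (-1 + s + s^2 - s^4 - s^6 + s^8 + s^9 - s^10 + s^13 - s^14 - s^15 + s^17 + s^19 - s^21 -
      s^22 + s^23) * h)

theorem sp32 (t : ℤ) (ht : IsCoprime t ((60 : ℕ) : ℤ)) :
    SolY (spv (60, [1, 13, 25, 3, 8, 10]) t) := by
  obtain ⟨s, hs⟩ : ∃ s : ℂ, s = Complex.exp (((2 * th 60 t : ℝ) : ℂ) * Complex.I) := ⟨_, rfl⟩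
  have h := phi60 (prim 60 (by norm_num) t ht s hs)
  refine sol6_of 60 1 13 25 3 8 10 t ?_
  exact three_sine 1 13 25 3 8 10 9 (by norm_num) (th 60 t) s hs (by
    linear_combination (-1 + s + s^2 - s^3 - s^4 + s^5 + s^9 - s^10 + s^13 - s^14 - s^18 + s^19 + s^20 - s^21 -
      s^22 + s^23) * h)

theorem sp33 (t : ℤ) (ht : IsCoprime t ((60 : ℕ) : ℤ)) :
    SolY (spv (60, [1, 13, 27, 5, 6, 8]) t) := by
  obtain ⟨s, hs⟩ : ∃ s : ℂ, s = Complex.exp (((2 * th 60 t : ℝ) : ℂ) * Complex.I) := ⟨_, rfl⟩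
  have h := phi60 (prim 60 (by norm_num) t ht s hs)
  refine sol6_of 60 1 13 27 5 6 8 t ?_
  exact three_sine 1 13 27 5 6 8 11 (by norm_num) (th 60 t) s hs (by
    linear_combination (-1 + s + s^2 - s^3 - s^4 + s^5 - s^10 + 2*s^11 + s^12 - s^13 - 2*s^14 + s^15 - s^20 + s^21 +
      s^22 - s^23 - s^24 + s^25) * h)

theorem sp34 (t : ℤ) (ht : IsCoprime t ((60 : ℕ) : ℤ)) :
    SolY (spv (60, [1, 13, 28, 3, 5, 18]) t) := by
  obtain ⟨s, hs⟩ : ∃ s : ℂ, s = Complex.exp (((2 * th 60 t : ℝ) : ℂ) * Complex.I) := ⟨_, rfl⟩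
  have h := phi60 (prim 60 (by norm_num) t ht s hs)
  refine sol6_of 60 1 13 28 3 5 18 t ?_
  exact three_sine 1 13 28 3 5 18 8 (by norm_num) (th 60 t) s hs (by
    linear_combination (-1 + s + s^2 - s^3 - s^4 + s^5 + s^8 - 2*s^10 + 2*s^12 - 2*s^14 + 2*s^16 - s^18 - s^21 +
      s^22 + s^23 - s^24 - s^25 + s^26) * h)

theorem sp35 (t : ℤ) (ht : IsCoprime t ((60 : ℕ) : ℤ)) :
    SolY (spv (60, [1, 14, 29, 4, 4, 18]) t) := by
  obtain ⟨s, hs⟩ : ∃ s : ℂ, s = Complex.exp (((2 * th 60 t : ℝ) : ℂ) * Complex.I) := ⟨_, rfl⟩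
  have h := phi60 (prim 60 (by norm_num) t ht s hs)
  refine sol6_of 60 1 14 29 4 4 18 t ?_
  exact three_sine 1 14 29 4 4 18 9 (by norm_num) (th 60 t) s hs (by
    linear_combination (-1 + s + s^2 - s^3 - s^4 + s^5 + s^9 - s^10 + s^12 - 2*s^13 + 2*s^15 - s^16 + s^18 - s^19 -
      s^23 + s^24 + s^25 - s^26 - s^27 + s^28) * h)

theorem sp36 (t : ℤ) (ht : IsCoprime t ((60 : ℕ) : ℤ)) :
    SolY (spv (60, [1, 16, 18, 3, 5, 17]) t) := by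
  obtain ⟨s, hs⟩ : ∃ s : ℂ, s = Complex.exp (((2 * th 60 t : ℝ) : ℂ) * Complex.I) := ⟨_, rfl⟩
  have h := phi60 (prim 60 (by norm_num) t ht s hs)
  refine sol6_of 60 1 16 18 3 5 17 t ?_
  exact three_sine 1 16 18 3 5 17 5 (by norm_num) (th 60 t) s hs (by
    linear_combination (-1 + s + s^2 - s^3 - s^4 + 2*s^5 - s^7 - s^8 + s^9 - s^10 + s^11 + s^12 - 2*s^14 + s^15 +
      s^16 - s^17 - s^18 + s^19) * h)

theorem sp37 (t : ℤ) (ht : IsCoprime t ((60 : ℕ) : ℤ)) :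
    SolY (spv (60, [1, 16, 25, 3, 6, 17]) t) := by
  obtain ⟨s, hs⟩ : ∃ s : ℂ, s = Complex.exp (((2 * th 60 t : ℝ) : ℂ) * Complex.I) := ⟨_, rfl⟩
  have h := phi60 (prim 60 (by norm_num) t ht s hs)
  refine sol6_of 60 1 16 25 3 6 17 t ?_
  exact three_sine 1 16 25 3 6 17 8 (by norm_num) (th 60 t) s hs (by
    linear_combination (-1 + s + s^2 - s^3 - s^4 + s^5 + s^8 - 2*s^10 + 2*s^12 - 2*s^14 + 2*s^16 - s^18 - s^21 +
      s^22 + s^23 - s^24 - s^25 + s^26) * h)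

theorem sp38 (t : ℤ) (ht : IsCoprime t ((60 : ℕ) : ℤ)) :
    SolY (spv (60, [1, 16, 28, 3, 9, 11]) t) := by
  obtain ⟨s, hs⟩ : ∃ s : ℂ, s = Complex.exp (((2 * th 60 t : ℝ) : ℂ) * Complex.I) := ⟨_, rfl⟩
  have h := phi60 (prim 60 (by norm_num) t ht s hs)
  refine sol6_of 60 1 16 28 3 9 11 t ?_
  exact three_sine 1 16 28 3 9 11 11 (by norm_num) (th 60 t) s hs (by
    linear_combination (-1 + s + s^2 - s^3 - s^4 + s^5 - s^10 + 2*s^11 + s^12 - 2*s^13 - 2*s^14 + 2*s^15 + 2*s^16 -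
      s^17 - 2*s^18 + s^19 - s^24 + s^25 + s^26 - s^27 - s^28 + s^29) * h)

theorem sp39 (t : ℤ) (ht : IsCoprime t ((60 : ℕ) : ℤ)) :
    SolY (spv (60, [1, 16, 29, 6, 6, 8]) t) := by
  obtain ⟨s, hs⟩ : ∃ s : ℂ, s = Complex.exp (((2 * th 60 t : ℝ) : ℂ) * Complex.I) := ⟨_, rfl⟩
  have h := phi60 (prim 60 (by norm_num) t ht s hs)
  refine sol6_of 60 1 16 29 6 6 8 t ?_
  exact three_sine 1 16 29 6 6 8 13 (by norm_num) (th 60 t) s hs (by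
    linear_combination (-1 + s + s^2 - s^3 - s^4 + s^5 - s^10 + s^11 + s^12 - s^14 + s^16 - s^18 - s^19 + s^20 -
      s^25 + s^26 + s^27 - s^28 - s^29 + s^30) * h)

theorem sp40 (t : ℤ) (ht : IsCoprime t ((60 : ℕ) : ℤ)) :
    SolY (spv (60, [1, 18, 27, 4, 5, 17]) t) := by
  obtain ⟨s, hs⟩ : ∃ s : ℂ, s = Complex.exp (((2 * th 60 t : ℝ) : ℂ) * Complex.I) := ⟨_, rfl⟩
  have h := phi60 (prim 60 (by norm_num) t ht s hs)
  refine sol6_of 60 1 18 27 4 5 17 t ?_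
  exact three_sine 1 18 27 4 5 17 10 (by norm_num) (th 60 t) s hs (by
    linear_combination (-1 + s + s^2 - s^3 - s^4 + s^5 + s^11 - s^13 - s^14 + s^16 + s^17 - s^19 - s^25 + s^26 +
      s^27 - s^28 - s^29 + s^30) * h)

theorem sp41 (t : ℤ) (ht : IsCoprime t ((60 : ℕ) : ℤ)) :
    SolY (spv (60, [1, 18, 28, 5, 7, 9]) t) := by
  obtain ⟨s, hs⟩ : ∃ s : ℂ, s = Complex.exp (((2 * th 60 t : ℝ) : ℂ) * Complex.I) := ⟨_, rfl⟩
  have h := phi60 (prim 60 (by norm_num) t ht s hs)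
  refine sol6_of 60 1 18 28 5 7 9 t ?_
  exact three_sine 1 18 28 5 7 9 13 (by norm_num) (th 60 t) s hs (by
    linear_combination (-1 + s + s^2 - s^3 - s^4 + s^5 - s^10 + s^11 + s^12 - s^14 + s^17 - s^19 - s^20 + s^21 -
      s^26 + s^27 + s^28 - s^29 - s^30 + s^31) * h)

theorem sp42 (t : ℤ) (ht : IsCoprime t ((60 : ℕ) : ℤ)) :
    SolY (spv (60, [1, 18, 29, 4, 4, 26]) t) := by
  obtain ⟨s, hs⟩ : ∃ s : ℂ, s = Complex.exp (((2 * th 60 t : ℝ) : ℂ) * Complex.I) := ⟨_, rfl⟩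
  have h := phi60 (prim 60 (by norm_num) t ht s hs)
  refine sol6_of 60 1 18 29 4 4 26 t ?_
  exact three_sine 1 18 29 4 4 26 7 (by norm_num) (th 60 t) s hs (by
    linear_combination (-1 + s + s^2 - s^3 - s^4 + s^5 + s^7 - s^9 - s^10 + s^12 + s^13 - s^14 + s^18 - s^19 -
      s^20 + s^22 + s^23 - s^25 - s^27 + s^28 + s^29 - s^30 - s^31 + s^32) * h)

theorem sp43 (t : ℤ) (ht : IsCoprime t ((60 : ℕ) : ℤ)) :
    SolY (spv (60, [1, 18, 29, 4, 8, 10]) t) := by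
  obtain ⟨s, hs⟩ : ∃ s : ℂ, s = Complex.exp (((2 * th 60 t : ℝ) : ℂ) * Complex.I) := ⟨_, rfl⟩
  have h := phi60 (prim 60 (by norm_num) t ht s hs)
  refine sol6_of 60 1 18 29 4 8 10 t ?_
  exact three_sine 1 18 29 4 8 10 13 (by norm_num) (th 60 t) s hs (by
    linear_combination (-1 + s + s^2 - s^3 - s^4 + s^5 - s^10 + s^11 + s^12 - s^14 + s^18 - s^20 - s^21 + s^22 -
      s^27 + s^28 + s^29 - s^30 - s^31 + s^32) * h)

theorem sp44 (t : ℤ) (ht : IsCoprime t ((60 : ℕ) : ℤ)) :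
    SolY (spv (60, [1, 19, 27, 6, 6, 9]) t) := by
  obtain ⟨s, hs⟩ : ∃ s : ℂ, s = Complex.exp (((2 * th 60 t : ℝ) : ℂ) * Complex.I) := ⟨_, rfl⟩
  have h := phi60 (prim 60 (by norm_num) t ht s hs)
  refine sol6_of 60 1 19 27 6 6 9 t ?_
  exact three_sine 1 19 27 6 6 9 13 (by norm_num) (th 60 t) s hs (by
    linear_combination (-1 + s + s^2 - s^3 - s^4 + s^5 - s^10 + s^11 + s^12 - s^14 + s^17 - s^19 - s^20 + s^21 -
      s^26 + s^27 + s^28 - s^29 - s^30 + s^31) * h)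

theorem sp45 (t : ℤ) (ht : IsCoprime t ((60 : ℕ) : ℤ)) :
    SolY (spv (60, [1, 22, 29, 3, 6, 27]) t) := by
  obtain ⟨s, hs⟩ : ∃ s : ℂ, s = Complex.exp (((2 * th 60 t : ℝ) : ℂ) * Complex.I) := ⟨_, rfl⟩
  have h := phi60 (prim 60 (by norm_num) t ht s hs)
  refine sol6_of 60 1 22 29 3 6 27 t ?_
  exact three_sine 1 22 29 3 6 27 8 (by norm_num) (th 60 t) s hs (by
    linear_combination (-1 + s + s^2 - s^3 - s^4 + s^5 + s^8 - 2*s^10 + 2*s^12 - 2*s^14 + s^16 + s^17 - s^19 -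
      s^20 + 2*s^22 - 2*s^24 + 2*s^26 - s^28 - s^31 + s^32 + s^33 - s^34 - s^35 + s^36) * h)

theorem sp46 (t : ℤ) (ht : IsCoprime t ((60 : ℕ) : ℤ)) :
    SolY (spv (60, [1, 22, 29, 4, 6, 16]) t) := by
  obtain ⟨s, hs⟩ : ∃ s : ℂ, s = Complex.exp (((2 * th 60 t : ℝ) : ℂ) * Complex.I) := ⟨_, rfl⟩
  have h := phi60 (prim 60 (by norm_num) t ht s hs)
  refine sol6_of 60 1 22 29 4 6 16 t ?_
  exact three_sine 1 22 29 4 6 16 13 (by norm_num) (th 60 t) s hs (by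
    linear_combination (-1 + s + s^2 - s^3 - s^4 + s^5 - s^10 + s^11 + s^12 - s^14 + s^22 - s^24 - s^25 + s^26 -
      s^31 + s^32 + s^33 - s^34 - s^35 + s^36) * h)

theorem sp47 (t : ℤ) (ht : IsCoprime t ((60 : ℕ) : ℤ)) :
    SolY (spv (60, [1, 22, 29, 6, 6, 10]) t) := by
  obtain ⟨s, hs⟩ : ∃ s : ℂ, s = Complex.exp (((2 * th 60 t : ℝ) : ℂ) * Complex.I) := ⟨_, rfl⟩
  have h := phi60 (prim 60 (by norm_num) t ht s hs)
  refine sol6_of 60 1 22 29 6 6 10 t ?_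
  exact three_sine 1 22 29 6 6 10 15 (by norm_num) (th 60 t) s hs (by
    linear_combination (-1 + s + s^2 - s^3 - s^4 + s^5 - s^10 + s^11 + s^12 - s^13 - s^14 + 2*s^15 - s^17 + s^19 -
      2*s^21 + s^22 + s^23 - s^24 - s^25 + s^26 - s^31 + s^32 + s^33 - s^34 - s^35 + s^36) * h)

theorem sp48 (t : ℤ) (ht : IsCoprime t ((60 : ℕ) : ℤ)) :
    SolY (spv (60, [1, 26, 29, 6, 8, 8]) t) := by
  obtain ⟨s, hs⟩ : ∃ s : ℂ, s = Complex.exp (((2 * th 60 t : ℝ) : ℂ) * Complex.I) := ⟨_, rfl⟩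
  have h := phi60 (prim 60 (by norm_num) t ht s hs)
  refine sol6_of 60 1 26 29 6 8 8 t ?_
  exact three_sine 1 26 29 6 8 8 17 (by norm_num) (th 60 t) s hs (by
    linear_combination (-1 + s + s^2 - s^3 - s^4 + s^5 - s^10 + s^11 + s^12 - s^13 - s^14 + s^15 + s^17 - s^19 +
      s^21 - s^23 - s^25 + s^26 + s^27 - s^28 - s^29 + s^30 - s^35 + s^36 + s^37 - s^38 - s^39 +
      s^40) * h)

theorem sp49 (t : ℤ) (ht : IsCoprime t ((60 : ℕ) : ℤ)) :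
    SolY (spv (60, [2, 5, 25, 4, 6, 8]) t) := by
  obtain ⟨s, hs⟩ : ∃ s : ℂ, s = Complex.exp (((2 * th 60 t : ℝ) : ℂ) * Complex.I) := ⟨_, rfl⟩
  have h := phi60 (prim 60 (by norm_num) t ht s hs)
  refine sol6_of 60 2 5 25 4 6 8 t ?_
  exact three_sine 2 5 25 4 6 8 7 (by norm_num) (th 60 t) s hs (by
    linear_combination (-1 + 2*s^2 - 2*s^4 + s^5 + s^6 - s^7 + s^9 - s^10 - s^11 + 2*s^12 - 2*s^14 + s^16) * h)

theorem sp50 (t : ℤ) (ht : IsCoprime t ((60 : ℕ) : ℤ)) :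
    SolY (spv (60, [2, 9, 21, 4, 4, 26]) t) := by
  obtain ⟨s, hs⟩ : ∃ s : ℂ, s = Complex.exp (((2 * th 60 t : ℝ) : ℂ) * Complex.I) := ⟨_, rfl⟩
  have h := phi60 (prim 60 (by norm_num) t ht s hs)
  refine sol6_of 60 2 9 21 4 4 26 t ?_
  exact (three_sine 4 4 26 2 9 21 1 (by norm_num) (th 60 t) s hs (by
    linear_combination (-1 + s + s^2 - 2*s^3 + s^4 + 2*s^5 - 2*s^6 - s^7 + s^8 - s^10 + s^11 + 2*s^12 - 2*s^13 -
      s^14 + 2*s^15 - s^16 - s^17 + s^18) * h)).symm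

theorem sp51 (t : ℤ) (ht : IsCoprime t ((60 : ℕ) : ℤ)) :
    SolY (spv (60, [2, 9, 21, 4, 8, 10]) t) := by
  obtain ⟨s, hs⟩ : ∃ s : ℂ, s = Complex.exp (((2 * th 60 t : ℝ) : ℂ) * Complex.I) := ⟨_, rfl⟩
  have h := phi60 (prim 60 (by norm_num) t ht s hs)
  refine sol6_of 60 2 9 21 4 8 10 t ?_
  exact three_sine 2 9 21 4 8 10 5 (by norm_num) (th 60 t) s hs (by
    linear_combination (-1 + 2*s^2 - 2*s^4 + s^5 + s^6 - s^7 + s^9 - s^10 - s^11 + 2*s^12 - 2*s^14 + s^16) * h)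

theorem sp52 (t : ℤ) (ht : IsCoprime t ((60 : ℕ) : ℤ)) :
    SolY (spv (60, [2, 10, 22, 3, 6, 27]) t) := by
  obtain ⟨s, hs⟩ : ∃ s : ℂ, s = Complex.exp (((2 * th 60 t : ℝ) : ℂ) * Complex.I) := ⟨_, rfl⟩
  have h := phi60 (prim 60 (by norm_num) t ht s hs)
  refine sol6_of 60 2 10 22 3 6 27 t ?_
  exact (three_sine 3 6 27 2 10 22 1 (by norm_num) (th 60 t) s hs (by
    linear_combination (-1 + s + s^2 - s^3 - s^4 + s^5 + s^6 - s^8 - s^9 + s^11 + s^12 - s^14 - s^15 + s^16 + s^17 -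
      s^18 - s^19 + s^20) * h)).symm

theorem sp53 (t : ℤ) (ht : IsCoprime t ((60 : ℕ) : ℤ)) :
    SolY (spv (60, [2, 16, 28, 3, 10, 27]) t) := by
  obtain ⟨s, hs⟩ : ∃ s : ℂ, s = Complex.exp (((2 * th 60 t : ℝ) : ℂ) * Complex.I) := ⟨_, rfl⟩
  have h := phi60 (prim 60 (by norm_num) t ht s hs)
  refine sol6_of 60 2 16 28 3 10 27 t ?_
  exact three_sine 2 16 28 3 10 27 3 (by norm_num) (th 60 t) s hs (by
    linear_combination (-1 + 2*s^2 + s^3 - 2*s^4 - s^5 + s^7 + s^8 - 2*s^10 + 2*s^12 - 2*s^14 + 2*s^16 - 2*s^18 +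
      2*s^20 - s^22 - s^23 + s^25 + 2*s^26 - s^27 - 2*s^28 + s^30) * h)

theorem sp54 (t : ℤ) (ht : IsCoprime t ((60 : ℕ) : ℤ)) :
    SolY (spv (60, [2, 16, 28, 5, 6, 25]) t) := by
  obtain ⟨s, hs⟩ : ∃ s : ℂ, s = Complex.exp (((2 * th 60 t : ℝ) : ℂ) * Complex.I) := ⟨_, rfl⟩
  have h := phi60 (prim 60 (by norm_num) t ht s hs)
  refine sol6_of 60 2 16 28 5 6 25 t ?_
  exact three_sine 2 16 28 5 6 25 5 (by norm_num) (th 60 t) s hs (by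
    linear_combination (-1 + 2*s^2 - 2*s^4 + s^5 + s^6 - s^7 + s^9 - 2*s^10 - s^11 + 3*s^12 + s^13 - 3*s^14 +
      3*s^16 - s^17 - 3*s^18 + s^19 + 2*s^20 - s^21 + s^23 - s^24 - s^25 + 2*s^26 - 2*s^28 +
      s^30) * h)

theorem sp55 (t : ℤ) (ht : IsCoprime t ((60 : ℕ) : ℤ)) :
    SolY (spv (60, [3, 18, 27, 5, 10, 25]) t) := by
  obtain ⟨s, hs⟩ : ∃ s : ℂ, s = Complex.exp (((2 * th 60 t : ℝ) : ℂ) * Complex.I) := ⟨_, rfl⟩
  have h := phi60 (prim 60 (by norm_num) t ht s hs)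
  refine sol6_of 60 3 18 27 5 10 25 t ?_
  exact three_sine 3 18 27 5 10 25 4 (by norm_num) (th 60 t) s hs (by
    linear_combination (-1 + s^2 + s^3 - s^5 - s^6 + s^7 + s^8 - s^9 - s^10 + s^11 + s^12 - s^14 - s^15 + s^17 +
      s^18 - s^20 - s^21 + s^22 + s^23 - s^24 - s^25 + s^26 + s^27 - s^29 - s^30 + s^32) * h)

theorem sp56 (t : ℤ) (ht : IsCoprime t ((60 : ℕ) : ℤ)) :
    SolY (spv (60, [3, 18, 27, 10, 10, 10]) t) := by
  obtain ⟨s, hs⟩ : ∃ s : ℂ, s = Complex.exp (((2 * th 60 t : ℝ) : ℂ) * Complex.I) := ⟨_, rfl⟩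
  have h := phi60 (prim 60 (by norm_num) t ht s hs)
  refine sol6_of 60 3 18 27 10 10 10 t ?_
  exact three_sine 3 18 27 10 10 10 9 (by norm_num) (th 60 t) s hs (by
    linear_combination (-1 + s^2 + s^3 - s^4 - s^5 + s^7 + s^9 - s^10 - s^11 + s^12 + 2*s^13 - s^14 - s^15 + s^17 +
      s^18 - 2*s^19 - s^20 + s^21 + s^22 - s^23 - s^25 + s^27 + s^28 - s^29 - s^30 + s^32) * h)

end RV2x

end Pool.Agent.T6.H31.TC
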