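import Pool.Agent.T6.H31.TC.RV2b

set_option autoImplicit false

/-! Module RV2 of the project TC (MP_6e4ab6_nt): sporadic solutions, part 3. -/

namespace Pool.Agent.T6.H31.TC

open Finset INVx RVx

namespace RV2x

theorem sp57 (t : ℤ) (ht : IsCoprime t ((60 : ℕ) : ℤ)) :
    SolY (spv (60, [4, 16, 18, 5, 10, 25]) t) := by
  obtain ⟨s, hs⟩ : ∃ s : ℂ, s = Complex.exp (((2 * th 60 t : ℝ) : ℂ) * Complex.I) := ⟨_, rfl⟩
  have h := phi60 (prim 60 (by norm_num) t ht s hs)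
  refine sol6_of 60 4 16 18 5 10 25 t ?_
  exact (three_sine 5 10 25 4 16 18 1 (by norm_num) (th 60 t) s hs (by
    linear_combination (-1 + s + s^2 - s^3 - s^4 + s^5 + s^11 - s^13 - s^19 + s^20 + s^21 - s^22 - s^23 + s^24) * h)).symm

theorem sp58 (t : ℤ) (ht : IsCoprime t ((66 : ℕ) : ℤ)) :
    SolY (spv (66, [1, 20, 32, 3, 9, 15]) t) := by
  obtain ⟨s, hs⟩ : ∃ s : ℂ, s = Complex.exp (((2 * th 66 t : ℝ) : ℂ) * Complex.I) := ⟨_, rfl⟩
  have h := phi66 (prim 66 (by norm_num) t ht s hs)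
  refine sol6_of 66 1 20 32 3 9 15 t ?_
  exact three_sine 1 20 32 3 9 15 13 (by norm_num) (th 66 t) s hs (by
    linear_combination (-1 + 2*s - 2*s^2 + s^3 - s^11 + 2*s^12 - s^13 + s^15 - s^16 + s^17 - s^18 + s^20 - 2*s^21 +
      s^22 - s^30 + 2*s^31 - 2*s^32 + s^33) * h)

theorem sp59 (t : ℤ) (ht : IsCoprime t ((66 : ℕ) : ℤ)) :
    SolY (spv (66, [2, 11, 20, 3, 9, 15]) t) := by
  obtain ⟨s, hs⟩ : ∃ s : ℂ, s = Complex.exp (((2 * th 66 t : ℝ) : ℂ) * Complex.I) := ⟨_, rfl⟩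
  have h := phi66 (prim 66 (by norm_num) t ht s hs)
  refine sol6_of 66 2 11 20 3 9 15 t ?_
  exact three_sine 2 11 20 3 9 15 3 (by norm_num) (th 66 t) s hs (by
    linear_combination (-1 + s + s^5 - s^6 + s^7 - s^8 - s^12 + s^13) * h)

theorem sp60 (t : ℤ) (ht : IsCoprime t ((70 : ℕ) : ℤ)) :
    SolY (spv (70, [1, 21, 29, 4, 5, 24]) t) := by
  obtain ⟨s, hs⟩ : ∃ s : ℂ, s = Complex.exp (((2 * th 70 t : ℝ) : ℂ) * Complex.I) := ⟨_, rfl⟩
  have h := phi70 (prim 70 (by norm_num) t ht s hs)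
  refine sol6_of 70 1 21 29 4 5 24 t ?_
  exact three_sine 1 21 29 4 5 24 9 (by norm_num) (th 70 t) s hs (by
    linear_combination (-1 + 2*s - 2*s^2 + 2*s^3 - 2*s^4 + s^5 - s^7 + 2*s^8 - s^9 + s^10 - s^11 + s^16 - s^17 +
      s^18 - 2*s^19 + s^20 - s^22 + 2*s^23 - 2*s^24 + 2*s^25 - 2*s^26 + s^27) * h)

theorem sp61 (t : ℤ) (ht : IsCoprime t ((84 : ℕ) : ℤ)) :
    SolY (spv (84, [1, 14, 41, 4, 6, 16]) t) := by
  obtain ⟨s, hs⟩ : ∃ s : ℂ, s = Complex.exp (((2 * th 84 t : ℝ) : ℂ) * Complex.I) := ⟨_, rfl⟩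
  have h := phi42 ((prim 84 (by norm_num) t ht s hs).pow (by norm_num) (show 84 = 2 * 42 by norm_num))
  refine sol6_of 84 1 14 41 4 6 16 t ?_
  exact three_sine 1 14 41 4 6 16 15 (by norm_num) (th 84 t) s hs (by
    linear_combination (-1 + s + s^2 - s^3 - s^4 + s^5 + s^15 - s^17 - s^27 + s^28 + s^29 - s^30 - s^31 + s^32) * h)

theorem sp62 (t : ℤ) (ht : IsCoprime t ((84 : ℕ) : ℤ)) :
    SolY (spv (84, [1, 18, 37, 4, 7, 17]) t) := by
  obtain ⟨s, hs⟩ : ∃ s : ℂ, s = Complex.exp (((2 * th 84 t : ℝ) : ℂ) * Complex.I) := ⟨_, rfl⟩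
  have h := phi42 ((prim 84 (by norm_num) t ht s hs).pow (by norm_num) (show 84 = 2 * 42 by norm_num))
  refine sol6_of 84 1 18 37 4 7 17 t ?_
  exact three_sine 1 18 37 4 7 17 14 (by norm_num) (th 84 t) s hs (by
    linear_combination (-1 + s + s^2 - s^3 - s^4 + s^5 + s^15 - s^17 - s^27 + s^28 + s^29 - s^30 - s^31 + s^32) * h)

theorem sp63 (t : ℤ) (ht : IsCoprime t ((84 : ℕ) : ℤ)) :
    SolY (spv (84, [1, 22, 41, 4, 8, 18]) t) := by
  obtain ⟨s, hs⟩ : ∃ s : ℂ, s = Complex.exp (((2 * th 84 t : ℝ) : ℂ) * Complex.I) := ⟨_, rfl⟩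
  have h := phi42 ((prim 84 (by norm_num) t ht s hs).pow (by norm_num) (show 84 = 2 * 42 by norm_num))
  refine sol6_of 84 1 22 41 4 8 18 t ?_
  exact three_sine 1 22 41 4 8 18 17 (by norm_num) (th 84 t) s hs (by
    linear_combination (-1 + s + s^2 - s^3 - s^4 + s^5 - s^14 + s^15 + s^16 - s^18 + s^22 - s^24 - s^25 + s^26 -
      s^35 + s^36 + s^37 - s^38 - s^39 + s^40) * h)

theorem sp64 (t : ℤ) (ht : IsCoprime t ((84 : ℕ) : ℤ)) :
    SolY (spv (84, [1, 25, 40, 5, 7, 18]) t) := by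
  obtain ⟨s, hs⟩ : ∃ s : ℂ, s = Complex.exp (((2 * th 84 t : ℝ) : ℂ) * Complex.I) := ⟨_, rfl⟩
  have h := phi42 ((prim 84 (by norm_num) t ht s hs).pow (by norm_num) (show 84 = 2 * 42 by norm_num))
  refine sol6_of 84 1 25 40 5 7 18 t ?_
  exact three_sine 1 25 40 5 7 18 18 (by norm_num) (th 84 t) s hs (by
    linear_combination (-1 + s + s^2 - s^3 - s^4 + s^5 - s^14 + s^15 + s^16 - s^17 + s^19 - s^20 + s^22 - s^23 +
      s^25 - s^26 - s^27 + s^28 - s^37 + s^38 + s^39 - s^40 - s^41 + s^42) * h)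

theorem sp65 (t : ℤ) (ht : IsCoprime t ((84 : ℕ) : ℤ)) :
    SolY (spv (84, [1, 26, 41, 4, 6, 32]) t) := by
  obtain ⟨s, hs⟩ : ∃ s : ℂ, s = Complex.exp (((2 * th 84 t : ℝ) : ℂ) * Complex.I) := ⟨_, rfl⟩
  have h := phi42 ((prim 84 (by norm_num) t ht s hs).pow (by norm_num) (show 84 = 2 * 42 by norm_num))
  refine sol6_of 84 1 26 41 4 6 32 t ?_
  exact three_sine 1 26 41 4 6 32 13 (by norm_num) (th 84 t) s hs (by
    linear_combination (-1 + s + s^2 - s^3 - s^4 + s^5 + s^13 - s^14 + s^16 - s^17 - s^18 + s^19 - s^25 + s^26 +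
      s^27 - s^28 + s^30 - s^31 - s^39 + s^40 + s^41 - s^42 - s^43 + s^44) * h)

theorem sp66 (t : ℤ) (ht : IsCoprime t ((84 : ℕ) : ℤ)) :
    SolY (spv (84, [1, 26, 41, 6, 6, 18]) t) := by
  obtain ⟨s, hs⟩ : ∃ s : ℂ, s = Complex.exp (((2 * th 84 t : ℝ) : ℂ) * Complex.I) := ⟨_, rfl⟩
  have h := phi42 ((prim 84 (by norm_num) t ht s hs).pow (by norm_num) (show 84 = 2 * 42 by norm_num))
  refine sol6_of 84 1 26 41 6 6 18 t ?_
  exact three_sine 1 26 41 6 6 18 19 (by norm_num) (th 84 t) s hs (by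
    linear_combination (-1 + s + s^2 - s^3 - s^4 + s^5 - s^14 + s^15 + s^16 - s^17 - s^18 + 2*s^19 - s^21 + s^23 -
      2*s^25 + s^26 + s^27 - s^28 - s^29 + s^30 - s^39 + s^40 + s^41 - s^42 - s^43 + s^44) * h)

theorem sp67 (t : ℤ) (ht : IsCoprime t ((84 : ℕ) : ℤ)) :
    SolY (spv (84, [1, 38, 41, 6, 8, 16]) t) := by
  obtain ⟨s, hs⟩ : ∃ s : ℂ, s = Complex.exp (((2 * th 84 t : ℝ) : ℂ) * Complex.I) := ⟨_, rfl⟩
  have h := phi42 ((prim 84 (by norm_num) t ht s hs).pow (by norm_num) (show 84 = 2 * 42 by norm_num))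
  refine sol6_of 84 1 38 41 6 8 16 t ?_
  exact three_sine 1 38 41 6 8 16 25 (by norm_num) (th 84 t) s hs (by
    linear_combination (-1 + s + s^2 - s^3 - s^4 + s^5 - s^14 + s^15 + s^16 - s^17 - s^18 + s^19 + s^25 - s^27 +
      s^29 - s^31 - s^37 + s^38 + s^39 - s^40 - s^41 + s^42 - s^51 + s^52 + s^53 - s^54 - s^55 +
      s^56) * h)

theorem sp68 (t : ℤ) (ht : IsCoprime t ((84 : ℕ) : ℤ)) :
    SolY (spv (84, [2, 7, 35, 4, 6, 16]) t) := by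
  obtain ⟨s, hs⟩ : ∃ s : ℂ, s = Complex.exp (((2 * th 84 t : ℝ) : ℂ) * Complex.I) := ⟨_, rfl⟩
  have h := phi42 ((prim 84 (by norm_num) t ht s hs).pow (by norm_num) (show 84 = 2 * 42 by norm_num))
  refine sol6_of 84 2 7 35 4 6 16 t ?_
  exact three_sine 2 7 35 4 6 16 9 (by norm_num) (th 84 t) s hs (by
    linear_combination (-1 + 2*s^2 - 2*s^4 + s^6 + s^7 - s^9 + s^11 - s^13 - s^14 + 2*s^16 - 2*s^18 + s^20) * h)

theorem sp69 (t : ℤ) (ht : IsCoprime t ((84 : ℕ) : ℤ)) :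
    SolY (spv (84, [2, 32, 40, 3, 18, 39]) t) := by
  obtain ⟨s, hs⟩ : ∃ s : ℂ, s = Complex.exp (((2 * th 84 t : ℝ) : ℂ) * Complex.I) := ⟨_, rfl⟩
  have h := phi42 ((prim 84 (by norm_num) t ht s hs).pow (by norm_num) (show 84 = 2 * 42 by norm_num))
  refine sol6_of 84 2 32 40 3 18 39 t ?_
  exact three_sine 2 32 40 3 18 39 7 (by norm_num) (th 84 t) s hs (by
    linear_combination (-1 + 2*s^2 - 2*s^4 + s^6 + s^7 - s^9 - s^10 + s^11 + s^12 - 2*s^14 + 2*s^16 - 2*s^18 +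
      s^20 + s^21 - s^23 - s^24 + s^26 + s^27 - s^29 - s^30 + 2*s^32 - 2*s^34 + 2*s^36 - s^38 -
      s^39 + s^40 + s^41 - s^43 - s^44 + 2*s^46 - 2*s^48 + s^50) * h)

theorem sp70 (t : ℤ) (ht : IsCoprime t ((84 : ℕ) : ℤ)) :
    SolY (spv (84, [2, 32, 40, 6, 9, 33]) t) := by
  obtain ⟨s, hs⟩ : ∃ s : ℂ, s = Complex.exp (((2 * th 84 t : ℝ) : ℂ) * Complex.I) := ⟨_, rfl⟩
  have h := phi42 ((prim 84 (by norm_num) t ht s hs).pow (by norm_num) (show 84 = 2 * 42 by norm_num))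
  refine sol6_of 84 2 32 40 6 9 33 t ?_
  exact three_sine 2 32 40 6 9 33 13 (by norm_num) (th 84 t) s hs (by
    linear_combination (-1 + 2*s^2 - 2*s^4 + s^6 + s^13 - s^14 - s^15 + 2*s^16 + s^17 - 2*s^18 - s^19 + s^20 +
      s^21 - s^22 - s^23 + s^24 - s^26 + s^27 + s^28 - s^29 - s^30 + s^31 + 2*s^32 - s^33 -
      2*s^34 + s^35 + s^36 - s^37 - s^44 + 2*s^46 - 2*s^48 + s^50) * h)

theorem sp71 (t : ℤ) (ht : IsCoprime t ((84 : ℕ) : ℤ)) :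
    SolY (spv (84, [3, 18, 39, 4, 14, 32]) t) := by
  obtain ⟨s, hs⟩ : ∃ s : ℂ, s = Complex.exp (((2 * th 84 t : ℝ) : ℂ) * Complex.I) := ⟨_, rfl⟩
  have h := phi42 ((prim 84 (by norm_num) t ht s hs).pow (by norm_num) (show 84 = 2 * 42 by norm_num))
  refine sol6_of 84 3 18 39 4 14 32 t ?_
  exact three_sine 3 18 39 4 14 32 5 (by norm_num) (th 84 t) s hs (by
    linear_combination (-1 + s^2 + s^3 - s^4 + s^11 - s^13 - s^14 + s^16 + s^17 - s^19 - s^20 + s^22 + s^23 - s^25 +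
      s^32 - s^33 - s^34 + s^36) * h)

theorem sp72 (t : ℤ) (ht : IsCoprime t ((84 : ℕ) : ℤ)) :
    SolY (spv (84, [3, 30, 39, 8, 14, 20]) t) := by
  obtain ⟨s, hs⟩ : ∃ s : ℂ, s = Complex.exp (((2 * th 84 t : ℝ) : ℂ) * Complex.I) := ⟨_, rfl⟩
  have h := phi42 ((prim 84 (by norm_num) t ht s hs).pow (by norm_num) (show 84 = 2 * 42 by norm_num))
  refine sol6_of 84 3 30 39 8 14 20 t ?_
  exact three_sine 3 30 39 8 14 20 15 (by norm_num) (th 84 t) s hs (by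
    linear_combination (-1 + s^2 + s^3 - s^4 - s^5 + s^7 - s^14 + s^15 + s^16 - s^18 + s^21 - s^23 + s^25 - s^27 +
      s^30 - s^32 - s^33 + s^34 - s^41 + s^43 + s^44 - s^45 - s^46 + s^48) * h)

theorem sp73 (t : ℤ) (ht : IsCoprime t ((84 : ℕ) : ℤ)) :
    SolY (spv (84, [4, 30, 32, 7, 14, 35]) t) := by
  obtain ⟨s, hs⟩ : ∃ s : ℂ, s = Complex.exp (((2 * th 84 t : ℝ) : ℂ) * Complex.I) := ⟨_, rfl⟩
  have h := phi42 ((prim 84 (by norm_num) t ht s hs).pow (by norm_num) (show 84 = 2 * 42 by norm_num))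
  refine sol6_of 84 4 30 32 7 14 35 t ?_
  exact three_sine 4 30 32 7 14 35 5 (by norm_num) (th 84 t) s hs (by
    linear_combination (-1 + s^2 + s^5 - s^6 - s^7 + s^8 + s^9 - s^12 - s^20 + s^22 + s^30 - s^33 - s^34 + s^35 +
      s^36 - s^37 - s^40 + s^42) * h)

theorem sp74 (t : ℤ) (ht : IsCoprime t ((84 : ℕ) : ℤ)) :
    SolY (spv (84, [6, 18, 30, 7, 14, 35]) t) := by
  obtain ⟨s, hs⟩ : ∃ s : ℂ, s = Complex.exp (((2 * th 84 t : ℝ) : ℂ) * Complex.I) := ⟨_, rfl⟩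
  have h := phi42 ((prim 84 (by norm_num) t ht s hs).pow (by norm_num) (show 84 = 2 * 42 by norm_num))
  refine sol6_of 84 6 18 30 7 14 35 t ?_
  exact (three_sine 7 14 35 6 18 30 1 (by norm_num) (th 84 t) s hs (by
    linear_combination (-1 + s + s^2 - s^3 - s^4 + s^5 + s^15 - s^17 - s^27 + s^28 + s^29 - s^30 - s^31 + s^32) * h)).symm

theorem sp75 (t : ℤ) (ht : IsCoprime t ((90 : ℕ) : ℤ)) :
    SolY (spv (90, [1, 17, 43, 5, 8, 12]) t) := by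
  obtain ⟨s, hs⟩ : ∃ s : ℂ, s = Complex.exp (((2 * th 90 t : ℝ) : ℂ) * Complex.I) := ⟨_, rfl⟩
  have h := phi30 ((prim 90 (by norm_num) t ht s hs).pow (by norm_num) (show 90 = 3 * 30 by norm_num))
  refine sol6_of 90 1 17 43 5 8 12 t ?_
  exact three_sine 1 17 43 5 8 12 18 (by norm_num) (th 90 t) s hs (by
    linear_combination (-1 + s + s^3 - s^4 - s^6 + s^7 - s^15 + s^16 + s^17 + s^18 - s^19 - s^20 - s^21 + s^22 -
      s^30 + s^31 + s^33 - s^34 - s^36 + s^37) * h)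

theorem sp76 (t : ℤ) (ht : IsCoprime t ((90 : ℕ) : ℤ)) :
    SolY (spv (90, [1, 19, 35, 4, 9, 14]) t) := by
  obtain ⟨s, hs⟩ : ∃ s : ℂ, s = Complex.exp (((2 * th 90 t : ℝ) : ℂ) * Complex.I) := ⟨_, rfl⟩
  have h := phi30 ((prim 90 (by norm_num) t ht s hs).pow (by norm_num) (show 90 = 3 * 30 by norm_num))
  refine sol6_of 90 1 19 35 4 9 14 t ?_
  exact three_sine 1 19 35 4 9 14 14 (by norm_num) (th 90 t) s hs (by
    linear_combination (-1 + s + s^3 - s^4 - s^6 + s^7 + s^14 - s^15 + s^16 - s^17 - s^24 + s^25 + s^27 - s^28 -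
      s^30 + s^31) * h)

theorem sp77 (t : ℤ) (ht : IsCoprime t ((90 : ℕ) : ℤ)) :
    SolY (spv (90, [1, 22, 38, 5, 9, 13]) t) := by
  obtain ⟨s, hs⟩ : ∃ s : ℂ, s = Complex.exp (((2 * th 90 t : ℝ) : ℂ) * Complex.I) := ⟨_, rfl⟩
  have h := phi30 ((prim 90 (by norm_num) t ht s hs).pow (by norm_num) (show 90 = 3 * 30 by norm_num))
  refine sol6_of 90 1 22 38 5 9 13 t ?_
  exact three_sine 1 22 38 5 9 13 17 (by norm_num) (th 90 t) s hs (by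
    linear_combination (-1 + s + s^3 - s^4 - s^6 + s^7 - s^15 + s^16 + s^17 + s^18 - s^19 - s^20 - s^21 + s^22 -
      s^30 + s^31 + s^33 - s^34 - s^36 + s^37) * h)

theorem sp78 (t : ℤ) (ht : IsCoprime t ((90 : ℕ) : ℤ)) :
    SolY (spv (90, [1, 24, 27, 5, 8, 13]) t) := by
  obtain ⟨s, hs⟩ : ∃ s : ℂ, s = Complex.exp (((2 * th 90 t : ℝ) : ℂ) * Complex.I) := ⟨_, rfl⟩
  have h := phi30 ((prim 90 (by norm_num) t ht s hs).pow (by norm_num) (show 90 = 3 * 30 by norm_num))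
  refine sol6_of 90 1 24 27 5 8 13 t ?_
  exact three_sine 1 24 27 5 8 13 13 (by norm_num) (th 90 t) s hs (by
    linear_combination (-1 + s + s^3 - s^4 - s^6 + s^7 + s^13 - s^15 - s^21 + s^22 + s^24 - s^25 - s^27 + s^28) * h)

theorem sp79 (t : ℤ) (ht : IsCoprime t ((90 : ℕ) : ℤ)) :
    SolY (spv (90, [1, 25, 35, 6, 8, 13]) t) := by
  obtain ⟨s, hs⟩ : ∃ s : ℂ, s = Complex.exp (((2 * th 90 t : ℝ) : ℂ) * Complex.I) := ⟨_, rfl⟩
  have h := phi30 ((prim 90 (by norm_num) t ht s hs).pow (by norm_num) (show 90 = 3 * 30 by norm_num))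
  refine sol6_of 90 1 25 35 6 8 13 t ?_
  exact three_sine 1 25 35 6 8 13 17 (by norm_num) (th 90 t) s hs (by
    linear_combination (-1 + s + s^3 - s^4 - s^6 + s^7 - s^15 + s^16 + s^17 + s^18 - s^19 - s^20 - s^21 + s^22 -
      s^30 + s^31 + s^33 - s^34 - s^36 + s^37) * h)

theorem sp80 (t : ℤ) (ht : IsCoprime t ((90 : ℕ) : ℤ)) :
    SolY (spv (90, [1, 29, 31, 6, 9, 12]) t) := by
  obtain ⟨s, hs⟩ : ∃ s : ℂ, s = Complex.exp (((2 * th 90 t : ℝ) : ℂ) * Complex.I) := ⟨_, rfl⟩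
  have h := phi30 ((prim 90 (by norm_num) t ht s hs).pow (by norm_num) (show 90 = 3 * 30 by norm_num))
  refine sol6_of 90 1 29 31 6 9 12 t ?_
  exact three_sine 1 29 31 6 9 12 17 (by norm_num) (th 90 t) s hs (by
    linear_combination (-1 + s + s^3 - s^4 - s^6 + s^7 - s^15 + s^16 + s^17 + s^18 - s^19 - s^20 - s^21 + s^22 -
      s^30 + s^31 + s^33 - s^34 - s^36 + s^37) * h)

end RV2x

end Pool.Agent.T6.H31.TC
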