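import Pool.Agent.T6.H31.TC.RV2b

set_option autoImplicit false

/-! Module RV2 of the project TC (MP_6e4ab6_nt): sporadic solutions, part 4. -/

namespace Pool.Agent.T6.H31.TC

open Finset INVx RVx

namespace RV2x

theorem sp81 (t : ℤ) (ht : IsCoprime t ((90 : ℕ) : ℤ)) :
    SolY (spv (90, [5, 25, 35, 6, 24, 27]) t) := by
  obtain ⟨s, hs⟩ : ∃ s : ℂ, s = Complex.exp (((2 * th 90 t : ℝ) : ℂ) * Complex.I) := ⟨_, rfl⟩
  have h := phi30 ((prim 90 (by norm_num) t ht s hs).pow (by norm_num) (show 90 = 3 * 30 by norm_num))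
  refine sol6_of 90 5 25 35 6 24 27 t ?_
  exact three_sine 5 25 35 6 24 27 4 (by norm_num) (th 90 t) s hs (by
    linear_combination (-1 + s^3 + s^4 + s^5 - s^6 - s^7 - s^8 + s^11 + s^13 - s^15 - s^16 + s^18 + s^19 + s^20 -
      s^21 - s^22 - s^23 + s^25 + s^26 - s^28 - s^30 + s^33 + s^34 + s^35 - s^36 - s^37 - s^38 +
      s^41) * h)

theorem sp82 (t : ℤ) (ht : IsCoprime t ((120 : ℕ) : ℤ)) :
    SolY (spv (120, [1, 26, 59, 6, 10, 16]) t) := by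
  obtain ⟨s, hs⟩ : ∃ s : ℂ, s = Complex.exp (((2 * th 120 t : ℝ) : ℂ) * Complex.I) := ⟨_, rfl⟩
  have h := phi30 ((prim 120 (by norm_num) t ht s hs).pow (by norm_num) (show 120 = 4 * 30 by norm_num))
  refine sol6_of 120 1 26 59 6 10 16 t ?_
  exact three_sine 1 26 59 6 10 16 27 (by norm_num) (th 120 t) s hs (by
    linear_combination (-1 + s + s^4 - s^5 - s^8 + s^9 - s^20 + s^21 + s^24 - s^25 + s^26 - s^28 + s^29 - s^30 -
      s^33 + s^34 - s^45 + s^46 + s^49 - s^50 - s^53 + s^54) * h)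

theorem sp83 (t : ℤ) (ht : IsCoprime t ((120 : ℕ) : ℤ)) :
    SolY (spv (120, [1, 32, 53, 6, 11, 17]) t) := by
  obtain ⟨s, hs⟩ : ∃ s : ℂ, s = Complex.exp (((2 * th 120 t : ℝ) : ℂ) * Complex.I) := ⟨_, rfl⟩
  have h := phi30 ((prim 120 (by norm_num) t ht s hs).pow (by norm_num) (show 120 = 4 * 30 by norm_num))
  refine sol6_of 120 1 32 53 6 11 17 t ?_
  exact three_sine 1 32 53 6 11 17 26 (by norm_num) (th 120 t) s hs (by
    linear_combination (-1 + s + s^4 - s^5 - s^8 + s^9 - s^20 + s^21 + s^24 - s^25 + s^26 - s^28 + s^29 - s^30 -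
      s^33 + s^34 - s^45 + s^46 + s^49 - s^50 - s^53 + s^54) * h)

theorem sp84 (t : ℤ) (ht : IsCoprime t ((120 : ℕ) : ℤ)) :
    SolY (spv (120, [1, 36, 49, 7, 10, 17]) t) := by
  obtain ⟨s, hs⟩ : ∃ s : ℂ, s = Complex.exp (((2 * th 120 t : ℝ) : ℂ) * Complex.I) := ⟨_, rfl⟩
  have h := phi30 ((prim 120 (by norm_num) t ht s hs).pow (by norm_num) (show 120 = 4 * 30 by norm_num))
  refine sol6_of 120 1 36 49 7 10 17 t ?_
  exact three_sine 1 36 49 7 10 17 26 (by norm_num) (th 120 t) s hs (by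
    linear_combination (-1 + s + s^4 - s^5 - s^8 + s^9 - s^20 + s^21 + s^24 - s^25 + s^26 - s^28 + s^29 - s^30 -
      s^33 + s^34 - s^45 + s^46 + s^49 - s^50 - s^53 + s^54) * h)

theorem sp85 (t : ℤ) (ht : IsCoprime t ((120 : ℕ) : ℤ)) :
    SolY (spv (120, [1, 38, 59, 6, 12, 18]) t) := by
  obtain ⟨s, hs⟩ : ∃ s : ℂ, s = Complex.exp (((2 * th 120 t : ℝ) : ℂ) * Complex.I) := ⟨_, rfl⟩
  have h := phi30 ((prim 120 (by norm_num) t ht s hs).pow (by norm_num) (show 120 = 4 * 30 by norm_num))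
  refine sol6_of 120 1 38 59 6 12 18 t ?_
  exact three_sine 1 38 59 6 12 18 31 (by norm_num) (th 120 t) s hs (by
    linear_combination (-1 + s + s^4 - s^5 - s^8 + s^9 - s^20 + s^21 + s^24 - s^25 - s^28 + s^29 + s^31 - s^35 -
      s^37 + s^38 + s^41 - s^42 - s^45 + s^46 - s^57 + s^58 + s^61 - s^62 - s^65 + s^66) * h)

theorem sp86 (t : ℤ) (ht : IsCoprime t ((120 : ℕ) : ℤ)) :
    SolY (spv (120, [1, 46, 59, 8, 10, 18]) t) := by
  obtain ⟨s, hs⟩ : ∃ s : ℂ, s = Complex.exp (((2 * th 120 t : ℝ) : ℂ) * Complex.I) := ⟨_, rfl⟩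
  have h := phi30 ((prim 120 (by norm_num) t ht s hs).pow (by norm_num) (show 120 = 4 * 30 by norm_num))
  refine sol6_of 120 1 46 59 8 10 18 t ?_
  exact three_sine 1 46 59 8 10 18 35 (by norm_num) (th 120 t) s hs (by
    linear_combination (-1 + s + s^4 - s^5 - s^8 + s^9 - s^20 + s^21 + s^24 - s^25 - s^28 + s^29 + s^35 - s^39 -
      s^45 + s^46 + s^49 - s^50 - s^53 + s^54 - s^65 + s^66 + s^69 - s^70 - s^73 + s^74) * h)

theorem sp87 (t : ℤ) (ht : IsCoprime t ((120 : ℕ) : ℤ)) :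
    SolY (spv (120, [1, 50, 59, 6, 8, 34]) t) := by
  obtain ⟨s, hs⟩ : ∃ s : ℂ, s = Complex.exp (((2 * th 120 t : ℝ) : ℂ) * Complex.I) := ⟨_, rfl⟩
  have h := phi30 ((prim 120 (by norm_num) t ht s hs).pow (by norm_num) (show 120 = 4 * 30 by norm_num))
  refine sol6_of 120 1 50 59 6 8 34 t ?_
  exact three_sine 1 50 59 6 8 34 31 (by norm_num) (th 120 t) s hs (by
    linear_combination (-1 + s + s^4 - s^5 - s^8 + s^9 - s^20 + s^21 + s^24 - s^25 - s^28 + s^29 + s^31 - s^35 -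
      s^37 + s^41 + s^43 - s^47 - s^49 + s^50 + s^53 - s^54 - s^57 + s^58 - s^69 + s^70 + s^73 -
      s^74 - s^77 + s^78) * h)

theorem sp88 (t : ℤ) (ht : IsCoprime t ((120 : ℕ) : ℤ)) :
    SolY (spv (120, [1, 58, 59, 8, 12, 16]) t) := by
  obtain ⟨s, hs⟩ : ∃ s : ℂ, s = Complex.exp (((2 * th 120 t : ℝ) : ℂ) * Complex.I) := ⟨_, rfl⟩
  have h := phi30 ((prim 120 (by norm_num) t ht s hs).pow (by norm_num) (show 120 = 4 * 30 by norm_num))
  refine sol6_of 120 1 58 59 8 12 16 t ?_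
  exact three_sine 1 58 59 8 12 16 41 (by norm_num) (th 120 t) s hs (by
    linear_combination (-1 + s + s^4 - s^5 - s^8 + s^9 - s^20 + s^21 + s^24 - s^25 - s^28 + s^29 + s^41 - s^45 -
      s^57 + s^58 + s^61 - s^62 - s^65 + s^66 - s^77 + s^78 + s^81 - s^82 - s^85 + s^86) * h)

theorem sp89 (t : ℤ) (ht : IsCoprime t ((120 : ℕ) : ℤ)) :
    SolY (spv (120, [2, 25, 35, 6, 8, 34]) t) := by
  obtain ⟨s, hs⟩ : ∃ s : ℂ, s = Complex.exp (((2 * th 120 t : ℝ) : ℂ) * Complex.I) := ⟨_, rfl⟩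
  have h := phi30 ((prim 120 (by norm_num) t ht s hs).pow (by norm_num) (show 120 = 4 * 30 by norm_num))
  refine sol6_of 120 2 25 35 6 8 34 t ?_
  exact three_sine 2 25 35 6 8 34 7 (by norm_num) (th 120 t) s hs (by
    linear_combination (-1 + s^2 + s^4 - s^6 + s^7 - s^8 + s^10 - s^11 - s^13 + s^17 + s^19 - s^20 + s^22 - s^23 +
      s^24 - s^26 - s^28 + s^30) * h)

theorem sp90 (t : ℤ) (ht : IsCoprime t ((120 : ℕ) : ℤ)) :
    SolY (spv (120, [2, 26, 50, 3, 16, 57]) t) := by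
  obtain ⟨s, hs⟩ : ∃ s : ℂ, s = Complex.exp (((2 * th 120 t : ℝ) : ℂ) * Complex.I) := ⟨_, rfl⟩
  have h := phi30 ((prim 120 (by norm_num) t ht s hs).pow (by norm_num) (show 120 = 4 * 30 by norm_num))
  refine sol6_of 120 2 26 50 3 16 57 t ?_
  exact three_sine 2 26 50 3 16 57 1 (by norm_num) (th 120 t) s hs (by
    linear_combination (-1 + s + s^2 - s^5 - s^6 + s^9 + s^10 - s^12 - s^17 + 2*s^21 + s^22 - s^24 - 2*s^25 + s^29 +
      s^34 - s^36 - s^37 + s^40 + s^41 - s^44 - s^45 + s^46) * h)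

theorem sp91 (t : ℤ) (ht : IsCoprime t ((120 : ℕ) : ℤ)) :
    SolY (spv (120, [3, 54, 57, 4, 32, 56]) t) := by
  obtain ⟨s, hs⟩ : ∃ s : ℂ, s = Complex.exp (((2 * th 120 t : ℝ) : ℂ) * Complex.I) := ⟨_, rfl⟩
  have h := phi30 ((prim 120 (by norm_num) t ht s hs).pow (by norm_num) (show 120 = 4 * 30 by norm_num))
  refine sol6_of 120 3 54 57 4 32 56 t ?_
  exact three_sine 3 54 57 4 32 56 11 (by norm_num) (th 120 t) s hs (by
    linear_combination (-1 + s^3 + s^4 - s^7 - s^8 + 2*s^11 - 2*s^15 + 2*s^19 - s^20 + s^24 - s^27 - s^28 + 2*s^31 -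
      2*s^35 + 2*s^39 - 2*s^43 + 2*s^47 - 2*s^51 + s^54 + s^55 - s^58 + s^62 - 2*s^63 + 2*s^67 -
      2*s^71 + s^74 + s^75 - s^78 - s^79 + s^82) * h)

theorem sp92 (t : ℤ) (ht : IsCoprime t ((120 : ℕ) : ℤ)) :
    SolY (spv (120, [3, 54, 57, 8, 20, 32]) t) := by
  obtain ⟨s, hs⟩ : ∃ s : ℂ, s = Complex.exp (((2 * th 120 t : ℝ) : ℂ) * Complex.I) := ⟨_, rfl⟩
  have h := phi30 ((prim 120 (by norm_num) t ht s hs).pow (by norm_num) (show 120 = 4 * 30 by norm_num))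
  refine sol6_of 120 3 54 57 8 20 32 t ?_
  exact three_sine 3 54 57 8 20 32 27 (by norm_num) (th 120 t) s hs (by
    linear_combination (-1 + s^3 + s^4 - s^7 - s^8 + s^11 - s^20 + s^23 + s^24 - s^28 + s^39 - s^43 + s^54 - s^58 -
      s^59 + s^62 - s^71 + s^74 + s^75 - s^78 - s^79 + s^82) * h)

theorem sp93 (t : ℤ) (ht : IsCoprime t ((120 : ℕ) : ℤ)) :
    SolY (spv (120, [5, 50, 55, 6, 36, 54]) t) := by
  obtain ⟨s, hs⟩ : ∃ s : ℂ, s = Complex.exp (((2 * th 120 t : ℝ) : ℂ) * Complex.I) := ⟨_, rfl⟩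
  have h := phi30 ((prim 120 (by norm_num) t ht s hs).pow (by norm_num) (show 120 = 4 * 30 by norm_num))
  refine sol6_of 120 5 50 55 6 36 54 t ?_
  exact three_sine 5 50 55 6 36 54 7 (by norm_num) (th 120 t) s hs (by
    linear_combination (-1 + s^4 + s^5 + s^7 - s^8 - s^9 - s^11 + s^15 + s^17 - s^20 - s^21 + s^24 + s^25 + s^27 -
      s^28 - s^29 - s^31 + s^35 + s^37 - s^41 - s^43 + s^47 + s^49 + s^50 - s^51 - s^53 - s^54 +
      s^57 + s^58 - s^61 - s^63 + s^67 + s^69 + s^70 - s^71 - s^73 - s^74 + s^78) * h)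

theorem sp94 (t : ℤ) (ht : IsCoprime t ((120 : ℕ) : ℤ)) :
    SolY (spv (120, [5, 50, 55, 8, 32, 36]) t) := by
  obtain ⟨s, hs⟩ : ∃ s : ℂ, s = Complex.exp (((2 * th 120 t : ℝ) : ℂ) * Complex.I) := ⟨_, rfl⟩
  have h := phi30 ((prim 120 (by norm_num) t ht s hs).pow (by norm_num) (show 120 = 4 * 30 by norm_num))
  refine sol6_of 120 5 50 55 8 32 36 t ?_
  exact three_sine 5 50 55 8 32 36 17 (by norm_num) (th 120 t) s hs (by
    linear_combination (-1 + s^4 + s^5 - s^8 - s^9 + s^13 + s^17 - s^20 - s^21 + s^24 + s^25 - s^28 + s^37 - s^41 +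
      s^50 - s^53 - s^54 + s^57 + s^58 - s^61 - s^65 + s^69 + s^70 - s^73 - s^74 + s^78) * h)

theorem sp95 (t : ℤ) (ht : IsCoprime t ((126 : ℕ) : ℤ)) :
    SolY (spv (126, [1, 41, 43, 6, 9, 24]) t) := by
  obtain ⟨s, hs⟩ : ∃ s : ℂ, s = Complex.exp (((2 * th 126 t : ℝ) : ℂ) * Complex.I) := ⟨_, rfl⟩
  have h := phi42 ((prim 126 (by norm_num) t ht s hs).pow (by norm_num) (show 126 = 3 * 42 by norm_num))
  refine sol6_of 126 1 41 43 6 9 24 t ?_
  exact three_sine 1 41 43 6 9 24 23 (by norm_num) (th 126 t) s hs (by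
    linear_combination (-1 + s + s^3 - s^4 - s^6 + s^7 - s^21 + s^22 + s^23 + s^24 - s^25 - s^26 - s^27 + s^28 -
      s^42 + s^43 + s^45 - s^46 - s^48 + s^49) * h)

theorem sp96 (t : ℤ) (ht : IsCoprime t ((126 : ℕ) : ℤ)) :
    SolY (spv (126, [6, 45, 48, 7, 35, 49]) t) := by
  obtain ⟨s, hs⟩ : ∃ s : ℂ, s = Complex.exp (((2 * th 126 t : ℝ) : ℂ) * Complex.I) := ⟨_, rfl⟩
  have h := phi42 ((prim 126 (by norm_num) t ht s hs).pow (by norm_num) (show 126 = 3 * 42 by norm_num))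
  refine sol6_of 126 6 45 48 7 35 49 t ?_
  exact three_sine 6 45 48 7 35 49 4 (by norm_num) (th 126 t) s hs (by
    linear_combination (-1 + s^3 + s^4 - s^7 - s^9 + s^10 - s^11 + s^12 + s^14 - s^17 - s^21 + s^24 + s^25 - s^28 -
      s^30 + s^31 - s^32 + s^33 + s^35 - s^38 - s^39 + s^42 + s^46 - s^49 - s^51 + s^52 - s^53 +
      s^54 + s^56 - s^59 - s^60 + s^63) * h)

theorem sp97 (t : ℤ) (ht : IsCoprime t ((126 : ℕ) : ℤ)) :
    SolY (spv (126, [7, 35, 49, 9, 27, 45]) t) := by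
  obtain ⟨s, hs⟩ : ∃ s : ℂ, s = Complex.exp (((2 * th 126 t : ℝ) : ℂ) * Complex.I) := ⟨_, rfl⟩
  have h := phi42 ((prim 126 (by norm_num) t ht s hs).pow (by norm_num) (show 126 = 3 * 42 by norm_num))
  refine sol6_of 126 7 35 49 9 27 45 t ?_
  exact three_sine 7 35 49 9 27 45 5 (by norm_num) (th 126 t) s hs (by
    linear_combination (-1 + s^3 + s^5 - s^6 + s^7 - s^8 - s^10 + s^11 + s^13 - s^14 + s^17 - s^20 - s^21 + s^24 +
      s^26 - s^27 + s^28 - s^29 - s^31 + s^34 + s^35 - s^38 + s^41 - s^42 - s^44 + s^45 + s^47 -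
      s^48 + s^49 - s^50 - s^52 + s^55) * h)

theorem sp98 (t : ℤ) (ht : IsCoprime t ((140 : ℕ) : ℤ)) :
    SolY (spv (140, [7, 42, 63, 10, 30, 50]) t) := by
  obtain ⟨s, hs⟩ : ∃ s : ℂ, s = Complex.exp (((2 * th 140 t : ℝ) : ℂ) * Complex.I) := ⟨_, rfl⟩
  have h := phi70 ((prim 140 (by norm_num) t ht s hs).pow (by norm_num) (show 140 = 2 * 70 by norm_num))
  refine sol6_of 140 7 42 63 10 30 50 t ?_
  exact three_sine 7 42 63 10 30 50 11 (by norm_num) (th 140 t) s hs (by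
    linear_combination (-1 + s^2 - s^4 + s^6 + s^7 - s^8 - s^9 + 2*s^11 - 2*s^13 - s^14 + 2*s^15 + s^16 - s^17 -
      s^18 + s^19 + s^20 - s^22 + s^25 - s^27 + s^29 - s^31 + s^33 - s^35 + s^37 - s^39 + s^42 -
      s^44 - s^45 + s^46 + s^47 - s^48 - 2*s^49 + s^50 + 2*s^51 - 2*s^53 + s^55 + s^56 - s^57 -
      s^58 + s^60 - s^62 + s^64) * h)

theorem sp99 (t : ℤ) (ht : IsCoprime t ((168 : ℕ) : ℤ)) :
    SolY (spv (168, [1, 82, 83, 8, 12, 32]) t) := by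
  obtain ⟨s, hs⟩ : ∃ s : ℂ, s = Complex.exp (((2 * th 168 t : ℝ) : ℂ) * Complex.I) := ⟨_, rfl⟩
  have h := phi42 ((prim 168 (by norm_num) t ht s hs).pow (by norm_num) (show 168 = 4 * 42 by norm_num))
  refine sol6_of 168 1 82 83 8 12 32 t ?_
  exact three_sine 1 82 83 8 12 32 57 (by norm_num) (th 168 t) s hs (by
    linear_combination (-1 + s + s^4 - s^5 - s^8 + s^9 - s^28 + s^29 + s^32 - s^33 - s^36 + s^37 + s^57 - s^61 -
      s^81 + s^82 + s^85 - s^86 - s^89 + s^90 - s^109 + s^110 + s^113 - s^114 - s^117 + s^118) * h)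

end RV2x

end Pool.Agent.T6.H31.TC
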