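import Pool.Agent.T6.H31.TC.RV2b

set_option autoImplicit false

/-! Module RV2 of the project TC (MP_6e4ab6_nt): sporadic solutions, part 5. -/

namespace Pool.Agent.T6.H31.TC

open Finset INVx RVx

namespace RV2x

theorem sp100 (t : ℤ) (ht : IsCoprime t ((168 : ℕ) : ℤ)) :
    SolY (spv (168, [7, 70, 77, 8, 60, 64]) t) := by
  obtain ⟨s, hs⟩ : ∃ s : ℂ, s = Complex.exp (((2 * th 168 t : ℝ) : ℂ) * Complex.I) := ⟨_, rfl⟩
  have h := phi42 ((prim 168 (by norm_num) t ht s hs).pow (by norm_num) (show 168 = 4 * 42 by norm_num))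
  refine sol6_of 168 7 70 77 8 60 64 t ?_
  exact three_sine 7 70 77 8 60 64 11 (by norm_num) (th 168 t) s hs (by
    linear_combination (-1 + s^4 + s^7 - s^8 + s^23 - s^27 - s^28 + s^32 + s^35 - s^36 + s^51 - s^55 + s^70 - s^71 -
      s^74 + s^78 + s^79 - s^83 + s^98 - s^99 - s^102 + s^106) * h)

theorem sp101 (t : ℤ) (ht : IsCoprime t ((168 : ℕ) : ℤ)) :
    SolY (spv (168, [7, 70, 77, 12, 36, 60]) t) := by
  obtain ⟨s, hs⟩ : ∃ s : ℂ, s = Complex.exp (((2 * th 168 t : ℝ) : ℂ) * Complex.I) := ⟨_, rfl⟩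
  have h := phi42 ((prim 168 (by norm_num) t ht s hs).pow (by norm_num) (show 168 = 4 * 42 by norm_num))
  refine sol6_of 168 7 70 77 12 36 60 t ?_
  exact three_sine 7 70 77 12 36 60 23 (by norm_num) (th 168 t) s hs (by
    linear_combination (-1 + s^4 + s^7 - s^8 - s^11 + s^15 + s^23 - s^27 - s^28 + s^31 + s^32 - s^36 + s^51 - s^55 +
      s^70 - s^74 - s^75 + s^78 + s^79 - s^83 - s^91 + s^95 + s^98 - s^99 - s^102 + s^106) * h)

theorem sp102 (t : ℤ) (ht : IsCoprime t ((180 : ℕ) : ℤ)) :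
    SolY (spv (180, [9, 54, 81, 10, 50, 70]) t) := by
  obtain ⟨s, hs⟩ : ∃ s : ℂ, s = Complex.exp (((2 * th 180 t : ℝ) : ℂ) * Complex.I) := ⟨_, rfl⟩
  have h := phi30 ((prim 180 (by norm_num) t ht s hs).pow (by norm_num) (show 180 = 6 * 30 by norm_num))
  refine sol6_of 180 9 54 81 10 50 70 t ?_
  exact three_sine 9 54 81 10 50 70 7 (by norm_num) (th 180 t) s hs (by
    linear_combination (-1 + s^6 + s^7 + s^9 - s^12 - s^13 - s^15 - s^17 + s^19 + s^21 + s^23 - s^29 - s^30 + s^36 +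
      s^37 + s^39 - s^42 - s^43 - s^45 - s^47 + s^49 + s^51 + s^53 + s^54 - s^57 - s^59 - s^60 +
      s^66 + s^67 - s^73 - s^75 - s^77 + s^79 + s^81 + s^83 + s^84 - s^87 - s^89 - s^90 + s^96) * h)

theorem sp103 (t : ℤ) (ht : IsCoprime t ((210 : ℕ) : ℤ)) :
    SolY (spv (210, [1, 45, 89, 11, 14, 18]) t) := by
  obtain ⟨s, hs⟩ : ∃ s : ℂ, s = Complex.exp (((2 * th 210 t : ℝ) : ℂ) * Complex.I) := ⟨_, rfl⟩
  have h := phi210 (prim 210 (by norm_num) t ht s hs)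
  refine sol6_of 210 1 45 89 11 14 18 t ?_
  exact three_sine 1 45 89 11 14 18 46 (by norm_num) (th 210 t) s hs (by
    linear_combination (-1 + s^2 + s^3 - s^6 - s^10 + s^13 + s^17 - s^20 - s^21 + s^23 - s^35 + s^37 + s^38 - s^41 +
      s^46 - s^49 - s^50 + s^52 - s^64 + s^66 + s^67 - s^70 - s^74 + s^77 + s^81 - s^84 - s^85 +
      s^87) * h)

theorem sp104 (t : ℤ) (ht : IsCoprime t ((210 : ℕ) : ℤ)) :
    SolY (spv (210, [1, 63, 71, 12, 15, 18]) t) := by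
  obtain ⟨s, hs⟩ : ∃ s : ℂ, s = Complex.exp (((2 * th 210 t : ℝ) : ℂ) * Complex.I) := ⟨_, rfl⟩
  have h := phi210 (prim 210 (by norm_num) t ht s hs)
  refine sol6_of 210 1 63 71 12 15 18 t ?_
  exact three_sine 1 63 71 12 15 18 45 (by norm_num) (th 210 t) s hs (by
    linear_combination (-1 + s^2 + s^3 - s^6 - s^10 + s^13 + s^17 - s^20 - s^21 + s^23 - s^35 + s^37 + s^38 - s^41 +
      s^46 - s^49 - s^50 + s^52 - s^64 + s^66 + s^67 - s^70 - s^74 + s^77 + s^81 - s^84 - s^85 +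
      s^87) * h)

theorem sp105 (t : ℤ) (ht : IsCoprime t ((210 : ℕ) : ℤ)) :
    SolY (spv (210, [5, 21, 63, 10, 15, 40]) t) := by
  obtain ⟨s, hs⟩ : ∃ s : ℂ, s = Complex.exp (((2 * th 210 t : ℝ) : ℂ) * Complex.I) := ⟨_, rfl⟩
  have h := phi210 (prim 210 (by norm_num) t ht s hs)
  refine sol6_of 210 5 21 63 10 15 40 t ?_
  exact three_sine 5 21 63 10 15 40 12 (by norm_num) (th 210 t) s hs (by
    linear_combination (-1 - s + s^3 + s^4 + 2*s^5 + s^6 - s^8 - s^9 - 2*s^10 - s^11 + s^13 + s^17 + s^18 + s^19 -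
      s^22 - s^23 - s^24 - s^28 + s^30 + 2*s^31 + s^32 + s^33 - s^35 - 2*s^36 - s^37 - s^38 +
      s^40 + s^41) * h)

theorem sp106 (t : ℤ) (ht : IsCoprime t ((210 : ℕ) : ℤ)) :
    SolY (spv (210, [10, 75, 80, 14, 56, 63]) t) := by
  obtain ⟨s, hs⟩ : ∃ s : ℂ, s = Complex.exp (((2 * th 210 t : ℝ) : ℂ) * Complex.I) := ⟨_, rfl⟩
  have h := phi210 (prim 210 (by norm_num) t ht s hs)
  refine sol6_of 210 10 75 80 14 56 63 t ?_
  exact three_sine 10 75 80 14 56 63 16 (by norm_num) (th 210 t) s hs (by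
    linear_combination (-1 - s + s^3 + s^4 + s^5 - s^12 - s^13 - s^14 - s^15 + s^16 + 2*s^17 + s^18 - s^21 + s^26 -
      s^29 - s^30 + s^32 - s^35 - s^36 + s^37 + 2*s^38 + s^39 - s^41 - s^42 - s^50 + s^52 + s^53 -
      s^56 + s^61 - s^64 - s^65 + s^67 + s^75 + s^76 - s^78 - 2*s^79 - s^80 + s^81 + s^82 - s^85 +
      s^87 + s^88 - s^91 + s^96 - s^99 - 2*s^100 - s^101 + s^102 + s^103 + s^104 + s^105 - s^112 -
      s^113 - s^114 + s^116 + s^117) * h)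

theorem sp107 (t : ℤ) (ht : IsCoprime t ((210 : ℕ) : ℤ)) :
    SolY (spv (210, [10, 75, 80, 21, 35, 63]) t) := by
  obtain ⟨s, hs⟩ : ∃ s : ℂ, s = Complex.exp (((2 * th 210 t : ℝ) : ℂ) * Complex.I) := ⟨_, rfl⟩
  have h := phi210 (prim 210 (by norm_num) t ht s hs)
  refine sol6_of 210 10 75 80 21 35 63 t ?_
  exact three_sine 10 75 80 21 35 63 23 (by norm_num) (th 210 t) s hs (by
    linear_combination (-1 - s + s^3 + s^4 + s^5 - s^12 - s^13 - s^14 - s^15 + s^17 + s^18 + s^19 + s^20 + s^23 +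
      s^24 - s^26 - 2*s^27 - 2*s^28 - s^29 + s^31 + s^32 + s^33 + s^34 - s^36 + s^38 + s^39 -
      s^41 - s^42 - s^50 + s^52 + s^53 - s^56 + s^61 - s^64 - s^65 + s^67 + s^75 + s^76 - s^78 -
      s^79 + s^81 - s^83 - s^84 - s^85 - s^86 + s^88 + 2*s^89 + 2*s^90 + s^91 - s^93 - s^94 -
      s^97 - s^98 - s^99 - s^100 + s^102 + s^103 + s^104 + s^105 - s^112 - s^113 - s^114 + s^116 +
      s^117) * h)

theorem sp108 (t : ℤ) (ht : IsCoprime t ((210 : ℕ) : ℤ)) :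
    SolY (spv (210, [14, 56, 63, 15, 45, 75]) t) := by
  obtain ⟨s, hs⟩ : ∃ s : ℂ, s = Complex.exp (((2 * th 210 t : ℝ) : ℂ) * Complex.I) := ⟨_, rfl⟩
  have h := phi210 (prim 210 (by norm_num) t ht s hs)
  refine sol6_of 210 14 56 63 15 45 75 t ?_
  exact (three_sine 15 45 75 14 56 63 1 (by norm_num) (th 210 t) s hs (by
    linear_combination (-1 + s^2 + s^3 - s^6 - s^10 + s^13 + s^17 - s^20 - s^21 + s^23 - s^35 + s^37 + s^38 - s^41 +
      s^46 - s^49 - s^50 + s^52 - s^64 + s^66 + s^67 - s^70 - s^74 + s^77 + s^81 - s^84 - s^85 +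
      s^87) * h)).symm

theorem sp109 (t : ℤ) (ht : IsCoprime t ((210 : ℕ) : ℤ)) :
    SolY (spv (210, [15, 45, 75, 21, 35, 63]) t) := by
  obtain ⟨s, hs⟩ : ∃ s : ℂ, s = Complex.exp (((2 * th 210 t : ℝ) : ℂ) * Complex.I) := ⟨_, rfl⟩
  have h := phi210 (prim 210 (by norm_num) t ht s hs)
  refine sol6_of 210 15 45 75 21 35 63 t ?_
  exact three_sine 15 45 75 21 35 63 8 (by norm_num) (th 210 t) s hs (by
    linear_combination (-1 - s + s^3 + s^4 + s^5 + s^8 + s^9 - s^10 - 2*s^11 - 2*s^12 - s^13 + s^15 + s^16 + s^17 +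
      s^18 + s^19 - s^21 - s^22 - s^35 + s^37 + s^38 - s^41 + s^46 - s^49 - s^50 + s^52 + s^65 +
      s^66 - s^68 - s^69 - s^70 - s^71 - s^72 + s^74 + 2*s^75 + 2*s^76 + s^77 - s^78 - s^79 -
      s^82 - s^83 - s^84 + s^86 + s^87) * h)

theorem sp110 (t : ℤ) (ht : IsCoprime t ((420 : ℕ) : ℤ)) :
    SolY (spv (420, [20, 150, 160, 21, 126, 189]) t) := by
  obtain ⟨s, hs⟩ : ∃ s : ℂ, s = Complex.exp (((2 * th 420 t : ℝ) : ℂ) * Complex.I) := ⟨_, rfl⟩
  have h := phi210 ((prim 420 (by norm_num) t ht s hs).pow (by norm_num) (show 420 = 2 * 210 by norm_num))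
  refine sol6_of 420 20 150 160 21 126 189 t ?_
  exact (three_sine 21 126 189 20 150 160 3 (by norm_num) (th 420 t) s hs (by
    linear_combination (-1 - s^2 + s^3 + s^5 + s^6 + s^8 - s^9 + s^10 - s^11 - s^13 - s^20 + s^21 - s^22 + s^23 -
      s^24 + s^33 + s^34 + s^36 - s^37 + s^38 - s^39 - s^42 - s^44 + s^45 - s^55 + s^61 + s^63 -
      s^67 - s^70 - s^72 + s^73 + s^75 + s^76 + s^78 - s^79 + s^80 - s^81 - s^83 - s^90 + s^91 -
      s^92 + s^93 - s^94 + s^103 + s^104 + s^106 - s^107 + s^108 - s^109 - s^112 - s^114 + s^115 -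
      s^125 + s^126 + s^128 + s^131 - s^132 + s^133 - s^134 - s^136 - s^137 + s^146 - s^147 +
      s^148 - s^149 + s^150 + s^157 + s^159 - s^160 + s^161 - s^162 - s^164 - s^165 - s^167 +
      s^168 + s^170 + s^173 - s^177 - s^179 + s^185 - s^195 + s^196 + s^198 + s^201 - s^202 +
      s^203 - s^204 - s^206 - s^207 + s^216 - s^217 + s^218 - s^219 + s^220 + s^227 + s^229 -
      s^230 + s^231 - s^232 - s^234 - s^235 - s^237 + s^238 + s^240) * h)).symm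

end RV2x

end Pool.Agent.T6.H31.TC
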