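import Pool.Agent.T6.H31.TC.RV2p1
import Pool.Agent.T6.H31.TC.RV2p2
import Pool.Agent.T6.H31.TC.RV2p3
import Pool.Agent.T6.H31.TC.RV2p4
import Pool.Agent.T6.H31.TC.RV2p5

set_option autoImplicit false

/-! Module RV2 of the project TC (MP_6e4ab6_nt): the sporadic solutions are solutions. -/

namespace Pool.Agent.T6.H31.TC

open RV2x

theorem rv2 : StmtRV2 := by
  intro s t hs ht
  simp only [Spor, List.mem_cons, List.not_mem_nil, or_false] at hs
  rcases hs with rfl | hs
  · exact sp0 t ht
  rcases hs with rfl | hs
  · exact sp1 t ht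
  rcases hs with rfl | hs
  · exact sp2 t ht
  rcases hs with rfl | hs
  · exact sp3 t ht
  rcases hs with rfl | hs
  · exact sp4 t ht
  rcases hs with rfl | hs
  · exact sp5 t ht
  rcases hs with rfl | hs
  · exact sp6 t ht
  rcases hs with rfl | hs
  · exact sp7 t ht
  rcases hs with rfl | hs
  · exact sp8 t ht
  rcases hs with rfl | hs
  · exact sp9 t ht
  rcases hs with rfl | hs
  · exact sp10 t ht
  rcases hs with rfl | hs
  · exact sp11 t ht
  rcases hs with rfl | hs
  · exact sp12 t ht
  rcases hs with rfl | hs
  · exact sp13 t ht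
  rcases hs with rfl | hs
  · exact sp14 t ht
  rcases hs with rfl | hs
  · exact sp15 t ht
  rcases hs with rfl | hs
  · exact sp16 t ht
  rcases hs with rfl | hs
  · exact sp17 t ht
  rcases hs with rfl | hs
  · exact sp18 t ht
  rcases hs with rfl | hs
  · exact sp19 t ht
  rcases hs with rfl | hs
  · exact sp20 t ht
  rcases hs with rfl | hs
  · exact sp21 t ht
  rcases hs with rfl | hs
  · exact sp22 t ht
  rcases hs with rfl | hs
  · exact sp23 t ht
  rcases hs with rfl | hs
  · exact sp24 t ht
  rcases hs with rfl | hs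
  · exact sp25 t ht
  rcases hs with rfl | hs
  · exact sp26 t ht
  rcases hs with rfl | hs
  · exact sp27 t ht
  rcases hs with rfl | hs
  · exact sp28 t ht
  rcases hs with rfl | hs
  · exact sp29 t ht
  rcases hs with rfl | hs
  · exact sp30 t ht
  rcases hs with rfl | hs
  · exact sp31 t ht
  rcases hs with rfl | hs
  · exact sp32 t ht
  rcases hs with rfl | hs
  · exact sp33 t ht
  rcases hs with rfl | hs
  · exact sp34 t ht
  rcases hs with rfl | hs
  · exact sp35 t ht
  rcases hs with rfl | hs
  · exact sp36 t ht
  rcases hs with rfl | hs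
  · exact sp37 t ht
  rcases hs with rfl | hs
  · exact sp38 t ht
  rcases hs with rfl | hs
  · exact sp39 t ht
  rcases hs with rfl | hs
  · exact sp40 t ht
  rcases hs with rfl | hs
  · exact sp41 t ht
  rcases hs with rfl | hs
  · exact sp42 t ht
  rcases hs with rfl | hs
  · exact sp43 t ht
  rcases hs with rfl | hs
  · exact sp44 t ht
  rcases hs with rfl | hs
  · exact sp45 t ht
  rcases hs with rfl | hs
  · exact sp46 t ht
  rcases hs with rfl | hs
  · exact sp47 t ht
  rcases hs with rfl | hs
  · exact sp48 t ht
  rcases hs with rfl | hs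
  · exact sp49 t ht
  rcases hs with rfl | hs
  · exact sp50 t ht
  rcases hs with rfl | hs
  · exact sp51 t ht
  rcases hs with rfl | hs
  · exact sp52 t ht
  rcases hs with rfl | hs
  · exact sp53 t ht
  rcases hs with rfl | hs
  · exact sp54 t ht
  rcases hs with rfl | hs
  · exact sp55 t ht
  rcases hs with rfl | hs
  · exact sp56 t ht
  rcases hs with rfl | hs
  · exact sp57 t ht
  rcases hs with rfl | hs
  · exact sp58 t ht
  rcases hs with rfl | hs
  · exact sp59 t ht
  rcases hs with rfl | hs
  · exact sp60 t ht
  rcases hs with rfl | hs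
  · exact sp61 t ht
  rcases hs with rfl | hs
  · exact sp62 t ht
  rcases hs with rfl | hs
  · exact sp63 t ht
  rcases hs with rfl | hs
  · exact sp64 t ht
  rcases hs with rfl | hs
  · exact sp65 t ht
  rcases hs with rfl | hs
  · exact sp66 t ht
  rcases hs with rfl | hs
  · exact sp67 t ht
  rcases hs with rfl | hs
  · exact sp68 t ht
  rcases hs with rfl | hs
  · exact sp69 t ht
  rcases hs with rfl | hs
  · exact sp70 t ht
  rcases hs with rfl | hs
  · exact sp71 t ht
  rcases hs with rfl | hs
  · exact sp72 t ht
  rcases hs with rfl | hs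
  · exact sp73 t ht
  rcases hs with rfl | hs
  · exact sp74 t ht
  rcases hs with rfl | hs
  · exact sp75 t ht
  rcases hs with rfl | hs
  · exact sp76 t ht
  rcases hs with rfl | hs
  · exact sp77 t ht
  rcases hs with rfl | hs
  · exact sp78 t ht
  rcases hs with rfl | hs
  · exact sp79 t ht
  rcases hs with rfl | hs
  · exact sp80 t ht
  rcases hs with rfl | hs
  · exact sp81 t ht
  rcases hs with rfl | hs
  · exact sp82 t ht
  rcases hs with rfl | hs
  · exact sp83 t ht
  rcases hs with rfl | hs
  · exact sp84 t ht
  rcases hs with rfl | hs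
  · exact sp85 t ht
  rcases hs with rfl | hs
  · exact sp86 t ht
  rcases hs with rfl | hs
  · exact sp87 t ht
  rcases hs with rfl | hs
  · exact sp88 t ht
  rcases hs with rfl | hs
  · exact sp89 t ht
  rcases hs with rfl | hs
  · exact sp90 t ht
  rcases hs with rfl | hs
  · exact sp91 t ht
  rcases hs with rfl | hs
  · exact sp92 t ht
  rcases hs with rfl | hs
  · exact sp93 t ht
  rcases hs with rfl | hs
  · exact sp94 t ht
  rcases hs with rfl | hs
  · exact sp95 t ht
  rcases hs with rfl | hs
  · exact sp96 t ht
  rcases hs with rfl | hs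
  · exact sp97 t ht
  rcases hs with rfl | hs
  · exact sp98 t ht
  rcases hs with rfl | hs
  · exact sp99 t ht
  rcases hs with rfl | hs
  · exact sp100 t ht
  rcases hs with rfl | hs
  · exact sp101 t ht
  rcases hs with rfl | hs
  · exact sp102 t ht
  rcases hs with rfl | hs
  · exact sp103 t ht
  rcases hs with rfl | hs
  · exact sp104 t ht
  rcases hs with rfl | hs
  · exact sp105 t ht
  rcases hs with rfl | hs
  · exact sp106 t ht
  rcases hs with rfl | hs
  · exact sp107 t ht
  rcases hs with rfl | hs
  · exact sp108 t ht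
  rcases hs with rfl | hs
  · exact sp109 t ht
  subst hs
  exact sp110 t ht

end Pool.Agent.T6.H31.TC
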