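import Pool.Agent.T6.H31.TC.Stmts
import Pool.Agent.Helper379.TripleCos

set_option autoImplicit false

/-! Module U of the project TC (MP_6e4ab6_nt): the table of residues modulo two primes. -/

namespace Pool.Agent.T6.H31.TC

open Finset

namespace ModU

/-- the table -/
noncomputable def A {ι : Type} (C : Finset ι) (k : ι → ℤ) (p q : ℕ) (ζ : ℂ) (B r s : ℤ) : ℂ :=
  ∑ i ∈ C.filter (fun i => (p : ℤ) ∣ k i - r ∧ (q : ℤ) ∣ k i - s), ζ ^ (B * k i)

theorem A_formula {ι : Type} (C : Finset ι) (k : ι → ℤ) (p q D' D : ℕ) (hD : D = p * q * D')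
    (hD0 : 0 < D) (ζ : ℂ) (hζ : IsPrimitiveRoot ζ D) (B A1 A2 : ℤ)
    (h11 : (p : ℤ) ∣ A1 - 1) (h12 : ((q * D' : ℕ) : ℤ) ∣ A1) (h21 : (q : ℤ) ∣ A2 - 1)
    (h22 : ((p * D' : ℕ) : ℤ) ∣ A2) (r s : ℤ) :
    (p : ℂ) * q * A C k p q ζ B r s =
      ∑ u ∈ range p, ∑ v ∈ range q, ζ ^ (-((u : ℤ) * A1 * r)) * ζ ^ (-((v : ℤ) * A2 * s)) *
        ∑ i ∈ C, ζ ^ ((B + u * A1 + v * A2) * k i) := by
  have hζ0 : ζ ≠ 0 := hζ.ne_zero hD0.ne'
  have g1 : ∀ x : ℤ, ∑ j ∈ range p, ζ ^ ((j : ℤ) * A1 * x) = if (p : ℤ) ∣ x then (p : ℂ) else 0 :=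
    fun x => _root_.TC.geom_aux D p (q * D') (by rw [hD]; ring) ζ hζ A1 h11 h12 x
  have g2 : ∀ x : ℤ, ∑ j ∈ range q, ζ ^ ((j : ℤ) * A2 * x) = if (q : ℤ) ∣ x then (q : ℂ) else 0 :=
    fun x => _root_.TC.geom_aux D q (p * D') (by rw [hD]; ring) ζ hζ A2 h21 h22 x
  unfold A
  rw [Finset.mul_sum, Finset.sum_filter]
  have hterm : ∀ i ∈ C, (if (p : ℤ) ∣ k i - r ∧ (q : ℤ) ∣ k i - s then
      (p : ℂ) * q * ζ ^ (B * k i) else 0) =
      ∑ u ∈ range p, ∑ v ∈ range q, ζ ^ (-((u : ℤ) * A1 * r)) * ζ ^ (-((v : ℤ) * A2 * s)) *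
        ζ ^ ((B + u * A1 + v * A2) * k i) := by
    intro i _
    have e1 : ∀ u ∈ range p, ∀ v ∈ range q,
        ζ ^ (-((u : ℤ) * A1 * r)) * ζ ^ (-((v : ℤ) * A2 * s)) *
        ζ ^ ((B + u * A1 + v * A2) * k i) =
        ζ ^ (B * k i) * (ζ ^ ((u : ℤ) * A1 * (k i - r)) * ζ ^ ((v : ℤ) * A2 * (k i - s))) := by
      intro u _ v _
      rw [← zpow_add₀ hζ0, ← zpow_add₀ hζ0, ← zpow_add₀ hζ0, ← zpow_add₀ hζ0]
      congr 1
      ring
    rw [Finset.sum_congr rfl (fun u hu => Finset.sum_congr rfl (fun v hv => e1 u hu v hv))]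
    simp_rw [← Finset.mul_sum]
    rw [← Finset.sum_mul, g1, g2]
    by_cases c1 : (p : ℤ) ∣ k i - r
    · by_cases c2 : (q : ℤ) ∣ k i - s
      · rw [if_pos ⟨c1, c2⟩, if_pos c1, if_pos c2]; ring
      · rw [if_neg (fun h => c2 h.2), if_neg c2]; ring
    · rw [if_neg (fun h => c1 h.1), if_neg c1]; ring
  rw [Finset.sum_congr rfl hterm, Finset.sum_comm]
  apply Finset.sum_congr rfl
  intro u _
  rw [Finset.sum_comm]
  apply Finset.sum_congr rfl
  intro v _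
  rw [Finset.mul_sum]

theorem A_add {ι : Type} (C : Finset ι) (k : ι → ℤ) (p q D' D : ℕ) (hp : p.Prime) (hq : q.Prime)
    (hpq : p ≠ q) (hpD : Nat.Coprime p D') (hqD : Nat.Coprime q D') (hD : D = p * q * D')
    (hD0 : 0 < D) (ζ : ℂ) (hζ : IsPrimitiveRoot ζ D) (hsum : ∑ i ∈ C, ζ ^ k i = 0) (B : ℤ)
    (hB1 : ((p * q : ℕ) : ℤ) ∣ B) (hB2 : (D' : ℤ) ∣ B - 1) (r s r' s' : ℤ) :
    A C k p q ζ B r s + A C k p q ζ B r' s' = A C k p q ζ B r s' + A C k p q ζ B r' s := by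
  have hζ0 : ζ ≠ 0 := hζ.ne_zero hD0.ne'
  have hcpq : Nat.Coprime p q := (Nat.coprime_primes hp hq).2 hpq
  have c1 : Nat.Coprime p (q * D') := Nat.Coprime.mul_right hcpq hpD
  have c2 : Nat.Coprime q (p * D') := Nat.Coprime.mul_right hcpq.symm hqD
  obtain ⟨x1, y1, h1⟩ := (Nat.isCoprime_iff_coprime.2 c1 : IsCoprime (p : ℤ) ((q * D' : ℕ) : ℤ))
  obtain ⟨x2, y2, h2⟩ := (Nat.isCoprime_iff_coprime.2 c2 : IsCoprime (q : ℤ) ((p * D' : ℕ) : ℤ))
  have hf := A_formula C k p q D' D hD hD0 ζ hζ B (y1 * ((q * D' : ℕ) : ℤ))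
    (y2 * ((p * D' : ℕ) : ℤ)) ⟨-x1, by linear_combination h1⟩ ⟨y1, by ring⟩
    ⟨-x2, by linear_combination h2⟩ ⟨y2, by ring⟩
  set A1 : ℤ := y1 * ((q * D' : ℕ) : ℤ) with hA1
  set A2 : ℤ := y2 * ((p * D' : ℕ) : ℤ) with hA2
  have hpc : (p : ℂ) * q ≠ 0 := by
    have := hp.ne_zero
    have := hq.ne_zero
    positivity
  have hF : ∀ u ∈ range p, ∀ v ∈ range q, u ≠ 0 → v ≠ 0 →
      ∑ i ∈ C, ζ ^ ((B + u * A1 + v * A2) * k i) = 0 := by
    intro u hu v hv hu0 hv0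
    rw [mem_range] at hu hv
    apply _root_.TC.galois C k D hD0 ζ hζ hsum
    have k1 : IsCoprime (B + u * A1 + v * A2) (p : ℤ) := by
      have hup : IsCoprime (u : ℤ) (p : ℤ) := by
        rw [Nat.isCoprime_iff_coprime]
        exact (Nat.coprime_of_lt_prime hu0 hu hp).symm
      obtain ⟨b, hb⟩ := hB1
      have : B + u * A1 + v * A2 = u + (p : ℤ) * (q * b - u * x1 + v * y2 * D') := by
        rw [hb, hA2]
        have hA1' : A1 = 1 - x1 * p := by rw [hA1]; linear_combination h1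
        rw [hA1']
        push_cast
        ring
      rw [this]
      exact hup.add_mul_left_left _
    have k2 : IsCoprime (B + u * A1 + v * A2) (q : ℤ) := by
      have hup : IsCoprime (v : ℤ) (q : ℤ) := by
        rw [Nat.isCoprime_iff_coprime]
        exact (Nat.coprime_of_lt_prime hv0 hv hq).symm
      obtain ⟨b, hb⟩ := hB1
      have : B + u * A1 + v * A2 = v + (q : ℤ) * (p * b - v * x2 + u * y1 * D') := by
        rw [hb, hA1]
        have hA2' : A2 = 1 - x2 * q := by rw [hA2]; linear_combination h2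
        rw [hA2']
        push_cast
        ring
      rw [this]
      exact hup.add_mul_left_left _
    have k3 : IsCoprime (B + u * A1 + v * A2) (D' : ℤ) := by
      obtain ⟨b, hb⟩ := hB2
      have : B + u * A1 + v * A2 = 1 + (D' : ℤ) * (b + u * y1 * q + v * y2 * p) := by
        rw [hA1, hA2]
        have hB' : B = 1 + D' * b := by linear_combination hb
        rw [hB']
        push_cast
        ring
      rw [this]
      exact isCoprime_one_left.add_mul_left_left _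
    rw [hD]
    push_cast
    exact (k1.mul_right k2).mul_right k3
  apply mul_left_cancel₀ hpc
  rw [mul_add, mul_add, hf, hf, hf, hf, ← sub_eq_zero, ← Finset.sum_add_distrib,
    ← Finset.sum_add_distrib, ← Finset.sum_sub_distrib]
  apply Finset.sum_eq_zero
  intro u hu
  rw [← Finset.sum_add_distrib, ← Finset.sum_add_distrib, ← Finset.sum_sub_distrib]
  apply Finset.sum_eq_zero
  intro v hv
  by_cases hu0 : u = 0
  · subst hu0; simp
    ring
  by_cases hv0 : v = 0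
  · subst hv0; simp
  rw [hF u hu v hv hu0 hv0]
  ring

theorem sum_classes {ι : Type} (I : Finset ι) (k : ι → ℤ) (q : ℕ) (hq : 0 < q) (f : ι → ℂ) :
    ∑ s ∈ range q, ∑ i ∈ I.filter (fun i => (q : ℤ) ∣ k i - s), f i = ∑ i ∈ I, f i := by
  simp_rw [Finset.sum_filter]
  rw [Finset.sum_comm]
  apply Finset.sum_congr rfl
  intro i _
  have hq' : (0 : ℤ) < q := by exact_mod_cast hq
  have hnn := Int.emod_nonneg (k i) hq'.ne'
  have hlt := Int.emod_lt_of_pos (k i) hq'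
  have hc : (((k i % (q : ℤ)).toNat : ℕ) : ℤ) = k i % q := Int.toNat_of_nonneg hnn
  rw [Finset.sum_eq_single (k i % (q : ℤ)).toNat]
  · rw [if_pos]
    rw [hc]
    exact Int.dvd_self_sub_emod
  · intro s hs hne
    rw [if_neg]
    intro hd
    apply hne
    rw [mem_range] at hs
    have h1 : (q : ℤ) ∣ (s : ℤ) - ((k i % (q : ℤ)).toNat : ℕ) := by
      have h2 : (q : ℤ) ∣ k i - ((k i % (q : ℤ)).toNat : ℕ) := by
        rw [hc]; exact Int.dvd_self_sub_emod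
      have := dvd_sub h2 hd
      have e : k i - ((k i % (q : ℤ)).toNat : ℕ) - (k i - s) =
        (s : ℤ) - ((k i % (q : ℤ)).toNat : ℕ) := by ring
      rwa [e] at this
    have h3 := Int.eq_zero_of_abs_lt_dvd h1 (by rw [abs_lt]; constructor <;> omega)
    omega
  · intro hn
    exfalso
    apply hn
    rw [mem_range]
    omega

theorem A_const {ι : Type} (C : Finset ι) (k : ι → ℤ) (p q D' D : ℕ) (hq : q.Prime)
    (hD : D = p * q * D') (hD0 : 0 < D) (ζ : ℂ) (hζ : IsPrimitiveRoot ζ D) (B B₁ : ℤ)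
    (hB1 : ((p * q : ℕ) : ℤ) ∣ B) (hB2 : (D' : ℤ) ∣ B - 1)
    (h1 : (p : ℤ) ∣ B₁) (h2 : ((q * D' : ℕ) : ℤ) ∣ B₁ - 1) (hcop : IsCoprime (p : ℤ) (D' : ℤ))
    (r : ℤ) (hc : ∀ s s' : ℤ, A C k p q ζ B r s = A C k p q ζ B r s') :
    ∑ i ∈ C.filter (fun i => (p : ℤ) ∣ k i - r), ζ ^ (B₁ * k i) = 0 := by
  have hζ0 : ζ ≠ 0 := hζ.ne_zero hD0.ne'
  have hdiff : ((p * D' : ℕ) : ℤ) ∣ B₁ - B := by
    push_cast
    apply hcop.mul_dvd
    · push_cast at hB1
      exact dvd_sub h1 (dvd_trans ⟨(q : ℤ), by ring⟩ hB1)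
    · push_cast at h2
      have := dvd_sub (dvd_trans ⟨(q : ℤ), by ring⟩ h2 : (D' : ℤ) ∣ B₁ - 1) hB2
      have e : B₁ - 1 - (B - 1) = B₁ - B := by ring
      rwa [e] at this
  rw [← sum_classes _ k q hq.pos]
  have hstep : ∀ s ∈ range q, ∑ i ∈ (C.filter (fun i => (p : ℤ) ∣ k i - r)).filter
      (fun i => (q : ℤ) ∣ k i - s), ζ ^ (B₁ * k i) =
      ζ ^ ((s : ℤ) * (B₁ - B) * 1) * A C k p q ζ B r 0 := by
    intro s _
    rw [hc 0 s]
    unfold A
    rw [Finset.filter_filter, Finset.mul_sum]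
    apply Finset.sum_congr rfl
    intro i hi
    rw [mem_filter] at hi
    obtain ⟨-, -, c, hcq⟩ := hi
    obtain ⟨d, hd⟩ := hdiff
    have e : B₁ * k i = (s : ℤ) * (B₁ - B) * 1 + B * k i + (D : ℤ) * (d * c) := by
      have h3 : (D : ℤ) * (d * c) = (B₁ - B) * (k i - s) := by
        rw [hd, hcq, hD]; push_cast; ring
      rw [h3]; ring
    rw [e, zpow_add₀ hζ0, zpow_add₀ hζ0, zpow_mul ζ (D : ℤ), zpow_natCast ζ D, hζ.pow_eq_one,
      one_zpow, mul_one]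
  rw [Finset.sum_congr rfl hstep, ← Finset.sum_mul]
  have hg := _root_.TC.geom_aux D q (p * D') (by rw [hD]; ring) ζ hζ (B₁ - B) (by
    have e1 : (q : ℤ) ∣ B₁ - 1 := dvd_trans ⟨(D' : ℤ), by push_cast; ring⟩ h2
    have e2 : (q : ℤ) ∣ B := dvd_trans ⟨(p : ℤ), by push_cast; ring⟩ hB1
    have := dvd_sub e1 e2
    have e : B₁ - 1 - B = B₁ - B - 1 := by ring
    rwa [e] at this) hdiff 1
  rw [hg, if_neg, zero_mul]
  intro h
  have := Int.eq_one_of_dvd_one (by positivity) h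
  have h5 : q = 1 := by exact_mod_cast this
  exact hq.one_lt.ne' h5

theorem A_swap {ι : Type} (C : Finset ι) (k : ι → ℤ) (p q : ℕ) (ζ : ℂ) (B r s : ℤ) :
    A C k p q ζ B r s = A C k q p ζ B s r := by
  unfold A
  congr 1
  ext i
  rw [mem_filter, mem_filter]
  tauto

theorem z_zpow (D : ℕ) (a b : ℤ) : z D (a * b) = (z D a) ^ b := by
  unfold z
  rw [← Complex.exp_int_mul]
  congr 1
  push_cast
  ring

theorem z_one_zpow (D : ℕ) (b : ℤ) : z D b = (z D 1) ^ b := by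
  rw [← z_zpow, one_mul]

theorem z_add (N : ℕ) (a b : ℤ) : z N (a + b) = z N a * z N b := by
  unfold z
  rw [← Complex.exp_add]
  congr 1
  push_cast
  ring

theorem z_prim (D : ℕ) (hD : 0 < D) : IsPrimitiveRoot (z D 1) D := by
  have := Complex.isPrimitiveRoot_exp D hD.ne'
  unfold z
  convert this using 2
  push_cast
  ring

theorem z_mul (N D : ℕ) (hN : 0 < N) (hD : D ∣ N) (k : ℤ) : z N (((N / D : ℕ) : ℤ) * k) = z D k := by
  have hD0 : 0 < D := Nat.pos_of_dvd_of_pos hD hN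
  obtain ⟨Q, hQ⟩ : ∃ Q : ℕ, Q = N / D := ⟨_, rfl⟩
  have h1 : (Q : ℝ) * D = N := by
    rw [hQ]
    exact_mod_cast Nat.div_mul_cancel hD
  have hN' : (N : ℝ) ≠ 0 := by exact_mod_cast hN.ne'
  have hD' : (D : ℝ) ≠ 0 := by exact_mod_cast hD0.ne'
  rw [← hQ]
  have key : 2 * Real.pi * (((Q : ℤ) * k : ℤ) : ℝ) / (N : ℝ) = 2 * Real.pi * (k : ℝ) / (D : ℝ) := by
    rw [div_eq_div_iff hN' hD', ← h1]
    push_cast
    ring
  unfold z
  rw [key]

end ModU

open ModU in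
theorem u : StmtU := by
  classical
  intro ι _ E N D p q y hN hDN hp hq hpq hpqD hpp hqq hCS
  have hD0 : 0 < D := Nat.pos_of_dvd_of_pos hDN hN
  obtain ⟨D', hD⟩ := hpqD
  have hpD : Nat.Coprime p D' := by
    rw [Nat.Prime.coprime_iff_not_dvd hp]
    rintro ⟨c, hc⟩
    exact hpp ⟨q * c, by rw [hD, hc]; ring⟩
  have hqD : Nat.Coprime q D' := by
    rw [Nat.Prime.coprime_iff_not_dvd hq]
    rintro ⟨c, hc⟩
    exact hqq ⟨p * c, by rw [hD, hc]; ring⟩
  have hcpq : Nat.Coprime p q := (Nat.coprime_primes hp hq).2 hpq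
  have hcop : IsCoprime ((p * q : ℕ) : ℤ) (D' : ℤ) :=
    Nat.isCoprime_iff_coprime.2 (Nat.Coprime.mul_left hpD hqD)
  obtain ⟨x, w, hxw⟩ := hcop
  obtain ⟨B, hB⟩ : ∃ B : ℤ, B = x * ((p * q : ℕ) : ℤ) := ⟨_, rfl⟩
  have hB1 : ((p * q : ℕ) : ℤ) ∣ B := ⟨x, by rw [hB]; ring⟩
  have hB2 : (D' : ℤ) ∣ B - 1 := ⟨-w, by rw [hB]; linear_combination hxw⟩
  obtain ⟨Q, hQ⟩ : ∃ Q : ℕ, Q = N / D := ⟨_, rfl⟩
  have hQ0 : 0 < Q := by
    rw [hQ]; exact Nat.div_pos (Nat.le_of_dvd hN hDN) hD0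
  have hQz : (Q : ℤ) ≠ 0 := by exact_mod_cast hQ0.ne'
  set ζ : ℂ := z D 1 with hζdef
  have hζ : IsPrimitiveRoot ζ D := z_prim D hD0
  have hζ0 : ζ ≠ 0 := hζ.ne_zero hD0.ne'
  let k : ι → ℤ := fun i => (E i - y) / Q
  let C : Finset ι := univ.filter (fun i => (Q : ℤ) ∣ E i - y)
  have hk : ∀ i ∈ C, E i - y = Q * k i := by
    intro i hi
    exact (Int.mul_ediv_cancel' (mem_filter.1 hi).2).symm
  have hzN : ∀ i ∈ C, ∀ b : ℤ, z N (b * (E i - y)) = ζ ^ (b * k i) := by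
    intro i hi b
    rw [hk i hi, show b * ((Q : ℤ) * k i) = ((N / D : ℕ) : ℤ) * (b * k i) by rw [← hQ]; ring,
      z_mul N D hN hDN, z_one_zpow]
  have hsum : ∑ i ∈ C, ζ ^ k i = 0 := by
    have h1 := hCS y
    rw [← hQ] at h1
    have hne : z N y ≠ 0 := Complex.exp_ne_zero _
    apply mul_left_cancel₀ hne
    rw [mul_zero, Finset.mul_sum, ← h1]
    apply Finset.sum_congr rfl
    intro i hi
    have := hzN i hi 1
    rw [one_mul, one_mul] at this
    rw [← this, ← z_add]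
    congr 1
    ring
  have hcls : ∀ (P : ℕ) (r : ℤ) (i : ι), (((P * Q : ℕ) : ℤ) ∣ E i - y - r * (Q : ℤ)) ↔
      (i ∈ C ∧ (P : ℤ) ∣ k i - r) := by
    intro P r i
    constructor
    · intro h
      have hQd : (Q : ℤ) ∣ E i - y := by
        have h1 : (Q : ℤ) ∣ E i - y - r * (Q : ℤ) := dvd_trans ⟨(P : ℤ), by push_cast; ring⟩ h
        have h2 := dvd_add h1 (Dvd.intro_left r rfl : (Q : ℤ) ∣ r * Q)
        have e : E i - y - r * (Q : ℤ) + r * Q = E i - y := by ring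
        rwa [e] at h2
      have hiC : i ∈ C := mem_filter.2 ⟨mem_univ _, hQd⟩
      refine ⟨hiC, ?_⟩
      rw [hk i hiC] at h
      have e : (Q : ℤ) * k i - r * Q = Q * (k i - r) := by ring
      rw [e] at h
      push_cast at h
      rw [mul_comm (P : ℤ)] at h
      exact (mul_dvd_mul_iff_left hQz).1 h
    · rintro ⟨hiC, hd⟩
      rw [hk i hiC]
      have e : (Q : ℤ) * k i - r * Q = Q * (k i - r) := by ring
      rw [e]
      push_cast
      rw [mul_comm (P : ℤ)]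
      exact (mul_dvd_mul_iff_left hQz).2 hd
  have hent : ∀ (r s : ℤ) (i : ι), Entry E N D p q y r s i ↔
      (i ∈ C ∧ (p : ℤ) ∣ k i - r ∧ (q : ℤ) ∣ k i - s) := by
    intro r s i
    unfold Entry
    rw [← hQ, hcls, hcls]
    tauto
  have hfull : ∀ (P : ℕ) (B₁ r : ℤ), ∑ i ∈ univ.filter (fun i => ((P * Q : ℕ) : ℤ) ∣
      E i - y - r * (Q : ℤ)), z N (B₁ * (E i - y)) =
      ∑ i ∈ C.filter (fun i => (P : ℤ) ∣ k i - r), ζ ^ (B₁ * k i) := by
    intro P B₁ r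
    have e : univ.filter (fun i => ((P * Q : ℕ) : ℤ) ∣ E i - y - r * (Q : ℤ)) =
        C.filter (fun i => (P : ℤ) ∣ k i - r) := by
      ext i
      rw [mem_filter, mem_filter, hcls]
      simp
    rw [e]
    apply Finset.sum_congr rfl
    intro i hi
    exact hzN i (mem_filter.1 hi).1 B₁
  have hDp : D / p = q * D' := by
    rw [hD, mul_assoc]; exact Nat.mul_div_cancel_left _ hp.pos
  have hDq : D / q = p * D' := by
    rw [hD, mul_comm p q, mul_assoc]; exact Nat.mul_div_cancel_left _ hq.pos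
  refine ⟨fun r s => A C k p q ζ B r s, ?_, ?_, ?_, ?_, ?_, ?_⟩
  · intro r s r' s' h1 h2
    show A C k p q ζ B r s = A C k p q ζ B r' s'
    unfold A
    congr 1
    ext i
    rw [Finset.mem_filter (s := C), Finset.mem_filter (s := C)]
    have e1 : (p : ℤ) ∣ k i - r ↔ (p : ℤ) ∣ k i - r' := by
      have : k i - r' = (k i - r) + (r - r') := by ring
      rw [this]
      exact (dvd_add_left h1).symm
    have e2 : (q : ℤ) ∣ k i - s ↔ (q : ℤ) ∣ k i - s' := by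
      have : k i - s' = (k i - s) + (s - s') := by ring
      rw [this]
      exact (dvd_add_left h2).symm
    rw [e1, e2]
  · intro r s r' s'
    exact A_add C k p q D' D hp hq hpq hpD hqD hD hD0 ζ hζ hsum B hB1 hB2 r s r' s'
  · intro r s h
    obtain ⟨i, hi, -⟩ := Finset.exists_ne_zero_of_sum_ne_zero h
    rw [mem_filter] at hi
    exact ⟨i, (hent r s i).2 hi⟩
  · intro r s i hi huniq
    have e : C.filter (fun i => (p : ℤ) ∣ k i - r ∧ (q : ℤ) ∣ k i - s) = {i} := by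
      ext j
      rw [mem_filter, mem_singleton]
      constructor
      · intro hj
        exact huniq j ((hent r s j).2 hj)
      · intro hj
        subst hj
        exact (hent r s j).1 hi
    show A C k p q ζ B r s ≠ 0
    unfold A
    rw [e, Finset.sum_singleton]
    exact zpow_ne_zero _ hζ0
  · rintro ⟨B₁, h1, h2, S, hS, hall⟩
    by_contra hcon
    push Not at hcon
    rw [hDp] at h2
    have := A_const C k p q D' D hq hD hD0 ζ hζ B B₁ hB1 hB2 h1 h2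
      (Nat.isCoprime_iff_coprime.2 hpD) 0 (fun s s' => hcon 0 s s')
    rw [← hfull, hQ, hall] at this
    exact hS this
  · rintro ⟨B₁, h1, h2, S, hS, hall⟩
    by_contra hcon
    push Not at hcon
    rw [hDq] at h2
    have := A_const C k q p D' D hp (by rw [hD]; ring) hD0 ζ hζ B B₁
      (by rw [mul_comm q p]; exact hB1) hB2 h1 h2
      (Nat.isCoprime_iff_coprime.2 hqD) 0 (fun s s' => by
        rw [A_swap C k q p, A_swap C k q p]; exact hcon s s' 0)
    rw [← hfull, hQ, hall] at this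
    exact hS this

end Pool.Agent.T6.H31.TC
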