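import Pool.Agent.T6.H31.TC.XD

set_option autoImplicit false

/-! Modules X1, X6. -/

namespace Pool.Agent.T6.H31.TC
namespace XC

open Finset

/-- complement of the three bits -/
def ng (i : Fin 16) : Fin 16 :=
  (![7, 6, 5, 4, 3, 2, 1, 0, 15, 14, 13, 12, 11, 10, 9, 8] : Fin 16 → Fin 16) i

lemma EE_ng (N D : ℕ) (e : Fin 6 → ℤ) (hN : 0 < N) (hD : D ∣ N) (h2 : 2 ∣ D) (i : Fin 16) :
    ((N / D : ℕ) : ℤ) ∣ EE N e (ng i) + EE N e i := by
  have h := Qhalf N D hN hD h2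
  have h' : ((N / D : ℕ) : ℤ) ∣ 2 * ((N / 2 : ℕ) : ℤ) := Dvd.dvd.mul_left h 2
  fin_cases i
  · show ((N / D : ℕ) : ℤ) ∣ EE N e 7 + EE N e 0
    rw [EE7, EE0, show -e 0 - e 1 - e 2 + (e 0 + e 1 + e 2) = 0 by ring]; exact dvd_zero _
  · show ((N / D : ℕ) : ℤ) ∣ EE N e 6 + EE N e 1
    rw [EE6, EE1, show e 0 - e 1 - e 2 + (-e 0 + e 1 + e 2) = 0 by ring]; exact dvd_zero _
  · show ((N / D : ℕ) : ℤ) ∣ EE N e 5 + EE N e 2
    rw [EE5, EE2, show -e 0 + e 1 - e 2 + (e 0 - e 1 + e 2) = 0 by ring]; exact dvd_zero _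
  · show ((N / D : ℕ) : ℤ) ∣ EE N e 4 + EE N e 3
    rw [EE4, EE3, show e 0 + e 1 - e 2 + (-e 0 - e 1 + e 2) = 0 by ring]; exact dvd_zero _
  · show ((N / D : ℕ) : ℤ) ∣ EE N e 3 + EE N e 4
    rw [EE4, EE3, show (-e 0 - e 1 + e 2) + (e 0 + e 1 - e 2) = 0 by ring]; exact dvd_zero _
  · show ((N / D : ℕ) : ℤ) ∣ EE N e 2 + EE N e 5
    rw [EE5, EE2, show (e 0 - e 1 + e 2) + (-e 0 + e 1 - e 2) = 0 by ring]; exact dvd_zero _
  · show ((N / D : ℕ) : ℤ) ∣ EE N e 1 + EE N e 6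
    rw [EE6, EE1, show (-e 0 + e 1 + e 2) + (e 0 - e 1 - e 2) = 0 by ring]; exact dvd_zero _
  · show ((N / D : ℕ) : ℤ) ∣ EE N e 0 + EE N e 7
    rw [EE7, EE0, show (e 0 + e 1 + e 2) + (-e 0 - e 1 - e 2) = 0 by ring]; exact dvd_zero _
  · show ((N / D : ℕ) : ℤ) ∣ EE N e 15 + EE N e 8
    rw [EE15, EE8, show ∀ a b c x : ℤ, (-a - b - c + x) + (a + b + c + x) = 2 * x by intros; ring]
    exact h'
  · show ((N / D : ℕ) : ℤ) ∣ EE N e 14 + EE N e 9
    rw [EE14, EE9, show ∀ a b c x : ℤ, (a - b - c + x) + (-a + b + c + x) = 2 * x by intros; ring]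
    exact h'
  · show ((N / D : ℕ) : ℤ) ∣ EE N e 13 + EE N e 10
    rw [EE13, EE10, show ∀ a b c x : ℤ, (-a + b - c + x) + (a - b + c + x) = 2 * x by intros; ring]
    exact h'
  · show ((N / D : ℕ) : ℤ) ∣ EE N e 12 + EE N e 11
    rw [EE12, EE11, show ∀ a b c x : ℤ, (a + b - c + x) + (-a - b + c + x) = 2 * x by intros; ring]
    exact h'
  · show ((N / D : ℕ) : ℤ) ∣ EE N e 11 + EE N e 12
    rw [EE12, EE11, show ∀ a b c x : ℤ, (-a - b + c + x) + (a + b - c + x) = 2 * x by intros; ring]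
    exact h'
  · show ((N / D : ℕ) : ℤ) ∣ EE N e 10 + EE N e 13
    rw [EE13, EE10, show ∀ a b c x : ℤ, (a - b + c + x) + (-a + b - c + x) = 2 * x by intros; ring]
    exact h'
  · show ((N / D : ℕ) : ℤ) ∣ EE N e 9 + EE N e 14
    rw [EE14, EE9, show ∀ a b c x : ℤ, (-a + b + c + x) + (a - b - c + x) = 2 * x by intros; ring]
    exact h'
  · show ((N / D : ℕ) : ℤ) ∣ EE N e 8 + EE N e 15
    rw [EE15, EE8, show ∀ a b c x : ℤ, (a + b + c + x) + (-a - b - c + x) = 2 * x by intros; ring]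
    exact h'

/-- size of the class of `i` in a partition -/
def csz (κ : List ℕ) (i : Fin 16) : ℕ :=
  (univ.filter (fun j : Fin 16 => κ.getD j.val 0 = κ.getD i.val 0)).card

lemma class_eq (N D : ℕ) (e : Fin 6 → ℤ) (κ : List ℕ) (y : ℤ) (hN : 0 < N) (hD : D ∣ N)
    (h2 : 2 ∣ D) (hE : Exact ((N / D : ℕ) : ℤ) e κ) (i : Fin 16)
    (hi : ((N / D : ℕ) : ℤ) ∣ EE N e i - y) (j : Fin 16) :
    ((N / D : ℕ) : ℤ) ∣ EE N e j - y ↔ κ.getD j.val 0 = κ.getD i.val 0 := by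
  rw [← hE j i, ← EE_dvd N D e hN hD h2 j i]
  constructor
  · intro h
    have := dvd_sub h hi
    rwa [show EE N e j - y - (EE N e i - y) = EE N e j - EE N e i by ring] at this
  · intro h
    have := dvd_add h hi
    rwa [show EE N e j - EE N e i + (EE N e i - y) = EE N e j - y by ring] at this

lemma class_card (N D : ℕ) (e : Fin 6 → ℤ) (κ : List ℕ) (y : ℤ) (hN : 0 < N) (hD : D ∣ N)
    (h2 : 2 ∣ D) (hE : Exact ((N / D : ℕ) : ℤ) e κ) (i : Fin 16)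
    (hi : ((N / D : ℕ) : ℤ) ∣ EE N e i - y) :
    (univ.filter (fun j => ((N / D : ℕ) : ℤ) ∣ EE N e j - y)).card = csz κ i := by
  unfold csz
  congr 1
  apply Finset.filter_congr
  intro j _
  exact class_eq N D e κ y hN hD h2 hE i hi j

lemma rep (h3 : StmtA3) (N D p : ℕ) (e : Fin 6 → ℤ) (κ : List ℕ) (y : ℤ) (hN : 0 < N)
    (hD : D ∣ N) (h2 : 2 ∣ D) (hp : 0 < p) (hE : Exact ((N / D : ℕ) : ℤ) e κ)
    (hF : FullAt (EE N e) N p D y) :
    ∃ i, ((N / D : ℕ) : ℤ) ∣ EE N e i - y ∧ p ≤ csz κ i := by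
  have h := h3 (Fin 16) (EE N e) N D p y hN hD hp hF
  have hpos : 0 < (univ.filter (fun i => ((N / D : ℕ) : ℤ) ∣ EE N e i - y)).card := by omega
  rw [Finset.card_pos] at hpos
  obtain ⟨i, hi⟩ := hpos
  rw [Finset.mem_filter] at hi
  refine ⟨i, hi.2, ?_⟩
  rwa [class_card N D e κ y hN hD h2 hE i hi.2] at h

lemma x16 (h3 : StmtA3) (h5 : StmtA5) (h6 : StmtA6) (hc : StmtCR) (N D p q : ℕ)
    (e : Fin 6 → ℤ) (κ : List ℕ) (hN : 0 < N) (hD : D ∣ N) (h2 : 2 ∣ D)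
    (hp : p.Prime) (hq : q.Prime) (hq5 : 5 ≤ q) (hqp : q < p) (hpq : p * q ∣ D)
    (hpp : ¬ p * p ∣ D) (hqq : ¬ q * q ∣ D) (hCS : CS (EE N e) N D)
    (hFp : Full (EE N e) N p D) (hFq : Full (EE N e) N q D)
    (hE : Exact ((N / D : ℕ) : ℤ) e κ)
    (hκ : ∀ i j : Fin 16, p ≤ csz κ i → q ≤ csz κ j →
      (κ.getD i.val 0 = κ.getD j.val 0 ∨ κ.getD i.val 0 = κ.getD (ng j).val 0) ∧
      csz κ i < 2 * p ∧ csz κ i < p + 2 * q - 4 ∧ csz κ i < p + q - 2) : False := by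
  obtain ⟨y, hy⟩ := hFp
  obtain ⟨y', hy'⟩ := hFq
  obtain ⟨i, hi, hi'⟩ := rep h3 N D p e κ y hN hD h2 hp.pos hE hy
  obtain ⟨j, hj, hj'⟩ := rep h3 N D q e κ y' hN hD h2 hq.pos hE hy'
  obtain ⟨hk, c1, c2, c3⟩ := hκ i j hi' hj'
  have hqD : q ∣ D := (Dvd.intro_left p rfl).trans hpq
  have hF : FullAt (EE N e) N q D y := by
    rcases hk with hk | hk
    · rw [← hE i j, ← EE_dvd N D e hN hD h2 i j] at hk
      apply h5 (Fin 16) (EE N e) N D q y' y hN hD hqD ?_ hy'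
      have := dvd_sub (dvd_add hk hj) hi
      rwa [show EE N e i - EE N e j + (EE N e j - y') - (EE N e i - y) = y - y' by ring] at this
    · rw [← hE i (ng j), ← EE_dvd N D e hN hD h2 i (ng j)] at hk
      have h7 := h6 N D q e y' hN hD h2 hq hq5 hqD hy'
      apply h5 (Fin 16) (EE N e) N D q (-y') y hN hD hqD ?_ h7
      have h8 := EE_ng N D e hN hD h2 j
      have := dvd_sub (dvd_add (dvd_sub hk hj) h8) hi
      rwa [show EE N e i - EE N e (ng j) - (EE N e j - y') + (EE N e (ng j) + EE N e j) -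
        (EE N e i - y) = y - -y' by ring] at this
  have hcard := class_card N D e κ y hN hD h2 hE i hi
  have := (hc (Fin 16) (EE N e) N D p q y hN hD hp hq hq5 hqp hpq hpp hqq hCS hy hF
    (by rw [hcard]; exact c1) (by rw [hcard]; exact c2)).1
  rw [hcard] at this
  omega

end XC

open XC in
theorem x1 (h3 : StmtA3) (h5 : StmtA5) (h6 : StmtA6) (hc : StmtCR) : StmtX1 := by
  intro N e hN hNd hCS hF5 hF7 ⟨κ, hκ, hE⟩
  have hD : 210 ∣ N := Dvd.dvd.trans (by norm_num) hNd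
  refine x16 h3 h5 h6 hc N 210 7 5 e κ hN hD (by norm_num) (by norm_num) (by norm_num)
    (by norm_num) (by norm_num) (by norm_num) (by norm_num) (by norm_num) hCS hF7 hF5 hE ?_
  simp only [List.mem_cons, List.not_mem_nil, or_false] at hκ
  rcases hκ with rfl | rfl | rfl | rfl <;> decide

open XC in
theorem x6 (h3 : StmtA3) (h5 : StmtA5) (h6 : StmtA6) (hc : StmtCR) : StmtX6 := by
  intro N D q e hN hNd hDd h2 hpq hq hq5 hq11 hCS hF11 hFq hE
  have hD : D ∣ N := hDd.trans (Dvd.dvd.trans (by norm_num) hNd)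
  have hq' : q = 5 ∨ q = 7 := by
    interval_cases q
    · left; rfl
    · exact absurd hq (by norm_num)
    · right; rfl
    · exact absurd hq (by norm_num)
    · exact absurd hq (by norm_num)
    · exact absurd hq (by norm_num)
  have hpp : ¬ 11 * 11 ∣ D := fun h => absurd (h.trans hDd) (by norm_num)
  rcases hq' with rfl | rfl
  · have hqq : ¬ 5 * 5 ∣ D := fun h => absurd (h.trans hDd) (by norm_num)
    refine x16 h3 h5 h6 hc N D 11 5 e _ hN hD h2 (by norm_num) (by norm_num)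
      (by norm_num) (by norm_num) hpq hpp hqq hCS hF11 hFq hE ?_
    decide
  · have hqq : ¬ 7 * 7 ∣ D := fun h => absurd (h.trans hDd) (by norm_num)
    refine x16 h3 h5 h6 hc N D 11 7 e _ hN hD h2 (by norm_num) (by norm_num)
      (by norm_num) (by norm_num) hpq hpp hqq hCS hF11 hFq hE ?_
    decide

end Pool.Agent.T6.H31.TC
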