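import Pool.Agent.T6.H31.TC.XD

set_option autoImplicit false

/-! Module X5. -/

namespace Pool.Agent.T6.H31.TC
namespace XC

open Finset

def iS (m : Fin 8) : Fin 16 := (![0, 1, 2, 3, 4, 5, 6, 7] : Fin 8 → Fin 16) m
def iT (m : Fin 8) : Fin 16 := (![8, 9, 10, 11, 12, 13, 14, 15] : Fin 8 → Fin 16) m

lemma split16 : ∀ i : Fin 16, (∃ m, i = iS m) ∨ (∃ m, i = iT m) := by decide

lemma affS {p : ℕ} (N : ℕ) (e : Fin 6 → ℤ) (y Q r0 : ℤ) (hQ : Q ≠ 0) (K : Fin 16 → ℤ)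
    (h : ∀ m : Fin 8, EE N e (iS m) - y = Q * K (iS m)) :
    Aff (fun m => ((K (iS m) - r0 : ℤ) : ZMod p)) := by
  have h0 : EE N e 0 - y = Q * K 0 := h 0
  have h1 : EE N e 1 - y = Q * K 1 := h 1
  have h2 : EE N e 2 - y = Q * K 2 := h 2
  have h3 : EE N e 3 - y = Q * K 3 := h 3
  have h4 : EE N e 4 - y = Q * K 4 := h 4
  have h5 : EE N e 5 - y = Q * K 5 := h 5
  have h6 : EE N e 6 - y = Q * K 6 := h 6
  have h7 : EE N e 7 - y = Q * K 7 := h 7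
  rw [EE0] at h0
  rw [EE1] at h1
  rw [EE2] at h2
  rw [EE3] at h3
  rw [EE4] at h4
  rw [EE5] at h5
  rw [EE6] at h6
  rw [EE7] at h7
  have k3 : K 3 = K 1 + K 2 - K 0 := by
    apply mul_left_cancel₀ hQ; linear_combination h1 + h2 - h0 - h3
  have k5 : K 5 = K 1 + K 4 - K 0 := by
    apply mul_left_cancel₀ hQ; linear_combination h1 + h4 - h0 - h5
  have k6 : K 6 = K 2 + K 4 - K 0 := by
    apply mul_left_cancel₀ hQ; linear_combination h2 + h4 - h0 - h6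
  have k7 : K 7 = K 1 + K 2 + K 4 - K 0 - K 0 := by
    apply mul_left_cancel₀ hQ; linear_combination h1 + h2 + h4 - h0 - h0 - h7
  refine ⟨?_, ?_, ?_, ?_⟩
  · show ((K 3 - r0 : ℤ) : ZMod p) = ((K 1 - r0 : ℤ) : ZMod p) + ((K 2 - r0 : ℤ) : ZMod p) -
      ((K 0 - r0 : ℤ) : ZMod p)
    rw [k3]; push_cast; ring
  · show ((K 5 - r0 : ℤ) : ZMod p) = ((K 1 - r0 : ℤ) : ZMod p) + ((K 4 - r0 : ℤ) : ZMod p) -
      ((K 0 - r0 : ℤ) : ZMod p)
    rw [k5]; push_cast; ring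
  · show ((K 6 - r0 : ℤ) : ZMod p) = ((K 2 - r0 : ℤ) : ZMod p) + ((K 4 - r0 : ℤ) : ZMod p) -
      ((K 0 - r0 : ℤ) : ZMod p)
    rw [k6]; push_cast; ring
  · show ((K 7 - r0 : ℤ) : ZMod p) = ((K 1 - r0 : ℤ) : ZMod p) + ((K 2 - r0 : ℤ) : ZMod p) +
      ((K 4 - r0 : ℤ) : ZMod p) - ((K 0 - r0 : ℤ) : ZMod p) - ((K 0 - r0 : ℤ) : ZMod p)
    rw [k7]; push_cast; ring

lemma affT {p : ℕ} (N : ℕ) (e : Fin 6 → ℤ) (y Q r0 : ℤ) (hQ : Q ≠ 0) (K : Fin 16 → ℤ)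
    (h : ∀ m : Fin 8, EE N e (iT m) - y = Q * K (iT m)) :
    Aff (fun m => ((K (iT m) - r0 : ℤ) : ZMod p)) := by
  have h0 : EE N e 8 - y = Q * K 8 := h 0
  have h1 : EE N e 9 - y = Q * K 9 := h 1
  have h2 : EE N e 10 - y = Q * K 10 := h 2
  have h3 : EE N e 11 - y = Q * K 11 := h 3
  have h4 : EE N e 12 - y = Q * K 12 := h 4
  have h5 : EE N e 13 - y = Q * K 13 := h 5
  have h6 : EE N e 14 - y = Q * K 14 := h 6
  have h7 : EE N e 15 - y = Q * K 15 := h 7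
  rw [EE8] at h0
  rw [EE9] at h1
  rw [EE10] at h2
  rw [EE11] at h3
  rw [EE12] at h4
  rw [EE13] at h5
  rw [EE14] at h6
  rw [EE15] at h7
  have k3 : K 11 = K 9 + K 10 - K 8 := by
    apply mul_left_cancel₀ hQ; linear_combination h1 + h2 - h0 - h3
  have k5 : K 13 = K 9 + K 12 - K 8 := by
    apply mul_left_cancel₀ hQ; linear_combination h1 + h4 - h0 - h5
  have k6 : K 14 = K 10 + K 12 - K 8 := by
    apply mul_left_cancel₀ hQ; linear_combination h2 + h4 - h0 - h6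
  have k7 : K 15 = K 9 + K 10 + K 12 - K 8 - K 8 := by
    apply mul_left_cancel₀ hQ; linear_combination h1 + h2 + h4 - h0 - h0 - h7
  refine ⟨?_, ?_, ?_, ?_⟩
  · show ((K 11 - r0 : ℤ) : ZMod p) = ((K 9 - r0 : ℤ) : ZMod p) + ((K 10 - r0 : ℤ) : ZMod p) -
      ((K 8 - r0 : ℤ) : ZMod p)
    rw [k3]; push_cast; ring
  · show ((K 13 - r0 : ℤ) : ZMod p) = ((K 9 - r0 : ℤ) : ZMod p) + ((K 12 - r0 : ℤ) : ZMod p) -
      ((K 8 - r0 : ℤ) : ZMod p)
    rw [k5]; push_cast; ring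
  · show ((K 14 - r0 : ℤ) : ZMod p) = ((K 10 - r0 : ℤ) : ZMod p) + ((K 12 - r0 : ℤ) : ZMod p) -
      ((K 8 - r0 : ℤ) : ZMod p)
    rw [k6]; push_cast; ring
  · show ((K 15 - r0 : ℤ) : ZMod p) = ((K 9 - r0 : ℤ) : ZMod p) + ((K 10 - r0 : ℤ) : ZMod p) +
      ((K 12 - r0 : ℤ) : ZMod p) - ((K 8 - r0 : ℤ) : ZMod p) - ((K 8 - r0 : ℤ) : ZMod p)
    rw [k7]; push_cast; ring

lemma two_ne (p : ℕ) (hp : 2 < p) : (2 : ZMod p) ≠ 0 := by
  intro h
  have h' : ((2 : ℤ) : ZMod p) = 0 := by exact_mod_cast h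
  rw [ZMod.intCast_zmod_eq_zero_iff_dvd] at h'
  have := Int.le_of_dvd (by norm_num) h'
  omega

lemma full_ne {ι : Type} [Fintype ι] (E : ι → ℤ) (N p D : ℕ) (y : ℤ) (h : FullAt E N p D y) :
    ∃ i, ((N / D : ℕ) : ℤ) ∣ E i - y := by
  obtain ⟨B, -, -, S, hS, hr⟩ := h
  have h0 := hr 0
  by_contra hcon
  apply hS
  rw [← h0]
  apply Finset.sum_eq_zero
  intro i hi
  rw [Finset.mem_filter] at hi
  exfalso
  apply hcon
  refine ⟨i, ?_⟩
  have := hi.2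
  rw [zero_mul, sub_zero] at this
  exact Dvd.dvd.trans ⟨(p : ℤ), by push_cast; ring⟩ this

end XC

open XC in
theorem x5 (h5 : StmtA5) (hc : StmtCR) : StmtX5 := by
  intro N D p q e hN hNd hDd h2 hpq hp' hq hq5 hqp hCS hFp hFq hall
  have hD : D ∣ N := hDd.trans (Dvd.dvd.trans (by norm_num) hNd)
  have hp : p.Prime := by rcases hp' with rfl | rfl <;> norm_num
  have hpp : ¬ p * p ∣ D := by
    rcases hp' with rfl | rfl <;> exact fun h => absurd (h.trans hDd) (by norm_num)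
  have hq13 : q < 13 := by rcases hp' with rfl | rfl <;> omega
  have hqq : ¬ q * q ∣ D := by
    intro h
    have h' := h.trans hDd
    interval_cases q <;> revert h' <;> norm_num
  have hp11 : 11 ≤ p := by rcases hp' with rfl | rfl <;> norm_num
  have hqD : q ∣ D := (Dvd.intro_left p rfl).trans hpq
  obtain ⟨y, hy⟩ := hFp
  obtain ⟨y', hy'⟩ := hFq
  obtain ⟨i, hi⟩ := full_ne _ _ _ _ _ hy
  obtain ⟨j, hj⟩ := full_ne _ _ _ _ _ hy'
  have hF : FullAt (EE N e) N q D y := by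
    have hk := (EE_dvd N D e hN hD h2 i j).mpr (hall i j)
    apply h5 (Fin 16) (EE N e) N D q y' y hN hD hqD ?_ hy'
    have := dvd_sub (dvd_add hk hj) hi
    rwa [show EE N e i - EE N e j + (EE N e j - y') - (EE N e i - y) = y - y' by ring] at this
  have hcl : ∀ k, ((N / D : ℕ) : ℤ) ∣ EE N e k - y := by
    intro k
    have hk := (EE_dvd N D e hN hD h2 k i).mpr (hall k i)
    have := dvd_add hk hi
    rwa [show EE N e k - EE N e i + (EE N e i - y) = EE N e k - y by ring] at this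
  have hcard : (Finset.univ.filter (fun j => ((N / D : ℕ) : ℤ) ∣ EE N e j - y)).card ≤ 16 := by
    have := Finset.card_le_univ (Finset.univ.filter (fun j => ((N / D : ℕ) : ℤ) ∣ EE N e j - y))
    simpa using this
  obtain ⟨-, K, R, S, r0, s0, hR, hS, hK, H1, H2, H3⟩ := crabs hc (EE N e) N D p q y hN hD hp hq
    hq5 hqp hpq hpp hqq hCS hy hF (by omega) (by omega)
  have hQ' : ((N / D : ℕ) : ℤ) ≠ 0 := by exact_mod_cast (Qpos N D hN hD).ne'
  haveI : Fact p.Prime := ⟨hp⟩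
  haveI : Fact q.Prime := ⟨hq⟩
  have hRf : R = fun i => ((K i - r0 : ℤ) : ZMod p) := funext hR
  have hSf : S = fun i => ((K i - s0 : ℤ) : ZMod q) := funext hS
  have a1 : Aff (fun m => R (iS m)) := by
    rw [hRf]; exact affS N e y _ r0 hQ' K (fun m => hK _ (hcl _))
  have a2 : Aff (fun m => S (iS m)) := by
    rw [hSf]; exact affS N e y _ s0 hQ' K (fun m => hK _ (hcl _))
  have a3 : Aff (fun m => R (iT m)) := by
    rw [hRf]; exact affT N e y _ r0 hQ' K (fun m => hK _ (hcl _))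
  have a4 : Aff (fun m => S (iT m)) := by
    rw [hSf]; exact affT N e y _ s0 hQ' K (fun m => hK _ (hcl _))
  refine two_cubes (F := ZMod p) (G := ZMod q) (two_ne p (by omega)) (by rw [ZMod.card]; exact hp11)
    (by rw [ZMod.card]; exact hq5) a1 a2 a3 a4 ?_ ?_ ?_ ?_
  · intro v hv
    obtain ⟨k, -, k1, k2⟩ := H1 v hv
    rcases split16 k with ⟨m, rfl⟩ | ⟨m, rfl⟩
    · left; exact ⟨m, k1, k2⟩
    · right; exact ⟨m, k1, k2⟩
  · intro v hv
    obtain ⟨k, -, k1, k2⟩ := H2 v hv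
    rcases split16 k with ⟨m, rfl⟩ | ⟨m, rfl⟩
    · left; exact ⟨m, k1, k2⟩
    · right; exact ⟨m, k1, k2⟩
  · intro x x1 x2
    obtain ⟨k, k0, -, k1, k2⟩ := H3 (iS x) (hcl _) x1 x2
    rcases split16 k with ⟨m, rfl⟩ | ⟨m, rfl⟩
    · left; exact ⟨m, fun h => k0 (by rw [h]), k1, k2⟩
    · right; exact ⟨m, k1, k2⟩
  · intro x x1 x2
    obtain ⟨k, k0, -, k1, k2⟩ := H3 (iT x) (hcl _) x1 x2
    rcases split16 k with ⟨m, rfl⟩ | ⟨m, rfl⟩
    · right; exact ⟨m, k1, k2⟩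
    · left; exact ⟨m, fun h => k0 (by rw [h]), k1, k2⟩

end Pool.Agent.T6.H31.TC
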