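import Pool.Agent.T6.H31.TC.X1
import Pool.Agent.T6.H31.TC.X5

set_option autoImplicit false

/-! Module X2. -/

namespace Pool.Agent.T6.H31.TC
namespace XC

open Finset

/-- both primes 5 and 7 are used by the class of the exponent `0` -/
lemma setup (h3 : StmtA3) (h5 : StmtA5) (hc : StmtCR) (N : ℕ) (e : Fin 6 → ℤ) (κ : List ℕ)
    (hN : 0 < N) (hD : 210 ∣ N) (hCS : CS (EE N e) N 210)
    (hFq : Full (EE N e) N 5 210) (hFp : Full (EE N e) N 7 210)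
    (hE : Exact ((N / 210 : ℕ) : ℤ) e κ)
    (k1 : ∀ i : Fin 16, 5 ≤ csz κ i → κ.getD i.val 0 = κ.getD 0 0) (k2 : csz κ 0 < 13) :
    ∃ (y : ℤ) (K : Fin 16 → ℤ) (R : Fin 16 → ZMod 7) (S : Fin 16 → ZMod 5) (r0 s0 : ℤ),
      (∀ j, ((N / 210 : ℕ) : ℤ) ∣ EE N e j - y ↔ κ.getD j.val 0 = κ.getD 0 0) ∧
      (∀ i, R i = ((K i - r0 : ℤ) : ZMod 7)) ∧ (∀ i, S i = ((K i - s0 : ℤ) : ZMod 5)) ∧
      (∀ i, ((N / 210 : ℕ) : ℤ) ∣ EE N e i - y → EE N e i - y = ((N / 210 : ℕ) : ℤ) * K i) ∧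
      (∀ v : ZMod 7, v ≠ 0 → ∃ i, ((N / 210 : ℕ) : ℤ) ∣ EE N e i - y ∧ S i = 0 ∧ R i = v) ∧
      (∀ w : ZMod 5, w ≠ 0 → ∃ i, ((N / 210 : ℕ) : ℤ) ∣ EE N e i - y ∧ R i = 0 ∧ S i = w) ∧
      (∀ i, ((N / 210 : ℕ) : ℤ) ∣ EE N e i - y → R i ≠ 0 → S i ≠ 0 →
        ∃ j, j ≠ i ∧ ((N / 210 : ℕ) : ℤ) ∣ EE N e j - y ∧ R j = R i ∧ S j = S i) := by
  have h2 : 2 ∣ 210 := by norm_num
  obtain ⟨y, hy⟩ := hFp
  obtain ⟨y', hy'⟩ := hFq
  obtain ⟨i, hi, hi'⟩ := rep h3 N 210 7 e κ y hN hD h2 (by norm_num) hE hy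
  obtain ⟨j, hj, hj'⟩ := rep h3 N 210 5 e κ y' hN hD h2 (by norm_num) hE hy'
  have hi0 := k1 i (by omega)
  have hj0 := k1 j hj'
  have hF : FullAt (EE N e) N 5 210 y := by
    have hk : κ.getD i.val 0 = κ.getD j.val 0 := by rw [hi0, hj0]
    rw [← hE i j, ← EE_dvd N 210 e hN hD h2 i j] at hk
    apply h5 (Fin 16) (EE N e) N 210 5 y' y hN hD (by norm_num) ?_ hy'
    have := dvd_sub (dvd_add hk hj) hi
    rwa [show EE N e i - EE N e j + (EE N e j - y') - (EE N e i - y) = y - y' by ring] at this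
  have hcl : ∀ k, ((N / 210 : ℕ) : ℤ) ∣ EE N e k - y ↔ κ.getD k.val 0 = κ.getD 0 0 := by
    intro k
    rw [class_eq N 210 e κ y hN hD h2 hE i hi k, hi0]
  have hcard : (Finset.univ.filter (fun j => ((N / 210 : ℕ) : ℤ) ∣ EE N e j - y)).card < 13 := by
    rw [class_card N 210 e κ y hN hD h2 hE i hi]
    have : csz κ i = csz κ 0 := by
      unfold csz
      rw [hi0]
      rfl
    omega
  obtain ⟨-, K, R, S, r0, s0, hR, hS, hK, H1, H2, H3⟩ := crabs hc (EE N e) N 210 7 5 y hN hD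
    (by norm_num) (by norm_num) (by norm_num) (by norm_num) (by norm_num) (by norm_num)
    (by norm_num) hCS hy hF (by omega) (by omega)
  exact ⟨y, K, R, S, r0, s0, hcl, hR, hS, hK, H1, H2, H3⟩

end XC

open XC in
theorem x2 (h3 : StmtA3) (h5 : StmtA5) (hc : StmtCR) : StmtX2 := by
  intro N e hN hNd hCS hF5 hF7 ⟨κ, hκ, hE⟩
  have hD : 210 ∣ N := Dvd.dvd.trans (by norm_num) hNd
  have hκ' : (∀ i : Fin 16, 5 ≤ csz κ i → κ.getD i.val 0 = κ.getD 0 0) ∧ csz κ 0 < 13 ∧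
      (∀ m : Fin 8, κ.getD (iS m).val 0 = κ.getD 0 0) ∧
      (∀ i : Fin 16, κ.getD i.val 0 = κ.getD 0 0 → (∃ m, i = iS m) ∨
        ∃ m, i = (![8, 15] : Fin 2 → Fin 16) m) := by
    simp only [List.mem_cons, List.not_mem_nil, or_false] at hκ
    rcases hκ with rfl | rfl | rfl <;> decide
  obtain ⟨k1, k2, k3, k4⟩ := hκ'
  obtain ⟨y, K, R, S, r0, s0, hcl, hR, hS, hK, H1, H2, -⟩ :=
    setup h3 h5 hc N e κ hN hD hCS hF5 hF7 hE k1 k2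
  have hQ' : ((N / 210 : ℕ) : ℤ) ≠ 0 := by exact_mod_cast (Qpos N 210 hN hD).ne'
  have hRf : R = fun i => ((K i - r0 : ℤ) : ZMod 7) := funext hR
  have hSf : S = fun i => ((K i - s0 : ℤ) : ZMod 5) := funext hS
  have a1 : Aff (fun m => R (iS m)) := by
    rw [hRf]; exact affS N e y _ r0 hQ' K (fun m => hK _ ((hcl _).mpr (k3 m)))
  have a2 : Aff (fun m => S (iS m)) := by
    rw [hSf]; exact affS N e y _ s0 hQ' K (fun m => hK _ ((hcl _).mpr (k3 m)))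
  refine cube_two (F := ZMod 7) (G := ZMod 5) (ZMod.card 7) (ZMod.card 5) a1 a2
    (r' := fun m => R ((![8, 15] : Fin 2 → Fin 16) m))
    (s' := fun m => S ((![8, 15] : Fin 2 → Fin 16) m)) ?_ ?_
  · intro v hv
    obtain ⟨k, k0, k1, k2⟩ := H1 v hv
    rcases k4 k ((hcl k).mp k0) with ⟨m, rfl⟩ | ⟨m, rfl⟩
    · left; exact ⟨m, k1, k2⟩
    · right; exact ⟨m, k1, k2⟩
  · intro v hv
    obtain ⟨k, k0, k1, k2⟩ := H2 v hv
    rcases k4 k ((hcl k).mp k0) with ⟨m, rfl⟩ | ⟨m, rfl⟩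
    · left; exact ⟨m, k1, k2⟩
    · right; exact ⟨m, k1, k2⟩

end Pool.Agent.T6.H31.TC
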