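import Pool.Agent.T6.H31.TC.X1
import Pool.Agent.T6.H31.TC.X5
import Pool.Agent.T6.H31.TC.CR

set_option autoImplicit false

/-! Module X3. -/

namespace Pool.Agent.T6.H31.TC
namespace XC

open Finset

lemma full_all {ι : Type} [Fintype ι] (E : ι → ℤ) (N p D : ℕ) (y : ℤ) (h : FullAt E N p D y)
    (r : ℤ) : ∃ i, ((p * (N / D) : ℕ) : ℤ) ∣ E i - y - r * ((N / D : ℕ) : ℤ) := by
  obtain ⟨B, -, -, S, hS, hr⟩ := h
  have h0 := hr r
  by_contra hcon
  apply hS
  rw [← h0]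
  apply Finset.sum_eq_zero
  intro i hi
  rw [Finset.mem_filter] at hi
  exact absurd ⟨i, hi.2⟩ hcon

lemma Q_of {p Q : ℕ} {x r : ℤ} (h : ((p * Q : ℕ) : ℤ) ∣ x - r * (Q : ℤ)) : (Q : ℤ) ∣ x := by
  have h1 : (Q : ℤ) ∣ x - r * (Q : ℤ) := Dvd.dvd.trans ⟨(p : ℤ), by push_cast; ring⟩ h
  have := dvd_add h1 (Dvd.intro_left r rfl : (Q : ℤ) ∣ r * (Q : ℤ))
  rwa [sub_add_cancel] at this

lemma res_eq {p Q : ℕ} (hQ : 0 < Q) {x r r' : ℤ} (h : ((p * Q : ℕ) : ℤ) ∣ x - r * (Q : ℤ))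
    (h' : ((p * Q : ℕ) : ℤ) ∣ x - r' * (Q : ℤ)) : (p : ℤ) ∣ r - r' := by
  have := dvd_sub h' h
  rw [show x - r' * (Q : ℤ) - (x - r * (Q : ℤ)) = (r - r') * (Q : ℤ) by ring] at this
  push_cast at this
  exact (mul_dvd_mul_iff_right (by exact_mod_cast hQ.ne')).mp this

/-- at most four residues are not enough for the prime 5 -/
lemma pig (N : ℕ) (hQ : 0 < N / 210) (E : Fin 16 → ℤ) (y : ℤ) (rp : Fin 4 → Fin 16)
    (h : ∀ i, ((N / 210 : ℕ) : ℤ) ∣ E i - y → ∃ k, ((5 * (N / 210) : ℕ) : ℤ) ∣ E i - E (rp k))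
    (hF : FullAt E N 5 210 y) : False := by
  have h1 : ∀ r : Fin 5, ∃ k : Fin 4, ((5 * (N / 210) : ℕ) : ℤ) ∣
      E (rp k) - y - (r.val : ℤ) * ((N / 210 : ℕ) : ℤ) := by
    intro r
    obtain ⟨i, hi⟩ := full_all E N 5 210 y hF (r.val : ℤ)
    obtain ⟨k, hk⟩ := h i (Q_of hi)
    refine ⟨k, ?_⟩
    have := dvd_sub hi hk
    rwa [show E i - y - (r.val : ℤ) * ((N / 210 : ℕ) : ℤ) - (E i - E (rp k)) =
      E (rp k) - y - (r.val : ℤ) * ((N / 210 : ℕ) : ℤ) by ring] at this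
  choose k hk using h1
  obtain ⟨a, b, hab, hkab⟩ := Fintype.exists_ne_map_eq_of_card_lt k (by simp)
  have ha := hk a
  have hb := hk b
  rw [hkab] at ha
  have := res_eq hQ ha hb
  apply hab
  apply Fin.ext
  have h3 := Int.eq_zero_of_abs_lt_dvd this (by rw [abs_lt]; constructor <;> omega)
  omega

/-- with eight elements, an additive table which is constant in `r` has one column -/
lemma one_col (E : Fin 16 → ℤ) (N : ℕ) (hQ : 0 < N / 210) (y : ℤ) (a : ℤ → ℤ → ℂ)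
    (hcard : (Finset.univ.filter (fun i => ((N / 210 : ℕ) : ℤ) ∣ E i - y)).card ≤ 8)
    (h3 : ∀ r s : ℤ, a r s ≠ 0 → ∃ i, Entry E N 210 7 5 y r s i)
    (h4 : ∀ (r s : ℤ) (i : Fin 16), Entry E N 210 7 5 y r s i →
      (∀ j, Entry E N 210 7 5 y r s j → j = i) → a r s ≠ 0)
    (h5 : ∃ r s s' : ℤ, a r s ≠ a r s') (h6 : ∀ r r' s : ℤ, a r s = a r' s) :
    ∀ i j, ((N / 210 : ℕ) : ℤ) ∣ E i - y → ((N / 210 : ℕ) : ℤ) ∣ E j - y →
      ((5 * (N / 210) : ℕ) : ℤ) ∣ E i - E j := by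
  obtain ⟨s1, hs1⟩ : ∃ s1, a 0 s1 ≠ 0 := by
    obtain ⟨r, s, s', hss⟩ := h5
    by_contra hcon
    push Not at hcon
    apply hss
    rw [h6 r 0 s, h6 r 0 s', hcon, hcon]
  have hf : ∀ r : Fin 7, ∃ i, Entry E N 210 7 5 y (r.val : ℤ) s1 i := by
    intro r
    apply h3
    rw [h6 _ 0]
    exact hs1
  choose f hf using hf
  have hinj : Function.Injective f := by
    intro u v huv
    have hu := (hf u).1
    have hv := (hf v).1
    rw [huv] at hu
    have := res_eq hQ hu hv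
    apply Fin.ext
    have h3 := Int.eq_zero_of_abs_lt_dvd this (by rw [abs_lt]; constructor <;> omega)
    omega
  have hfc : ∀ r, ((N / 210 : ℕ) : ℤ) ∣ E (f r) - y := fun r => Q_of (hf r).2
  have hclaim : ∀ i, ((N / 210 : ℕ) : ℤ) ∣ E i - y →
      ((5 * (N / 210) : ℕ) : ℤ) ∣ E i - y - s1 * ((N / 210 : ℕ) : ℤ) := by
    intro i hi
    by_contra hcon
    obtain ⟨κ, hκ⟩ := hi
    -- every element with another residue is `i`
    have huniq : ∀ j, ((N / 210 : ℕ) : ℤ) ∣ E j - y →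
        ¬ ((5 * (N / 210) : ℕ) : ℤ) ∣ E j - y - s1 * ((N / 210 : ℕ) : ℤ) → j = i := by
      intro j hj hj'
      by_contra hji
      have hsub : insert i (insert j (univ.image f)) ⊆
          Finset.univ.filter (fun i => ((N / 210 : ℕ) : ℤ) ∣ E i - y) := by
        intro x hx
        rw [Finset.mem_insert, Finset.mem_insert, Finset.mem_image] at hx
        rw [Finset.mem_filter]
        refine ⟨Finset.mem_univ _, ?_⟩
        rcases hx with rfl | rfl | ⟨r, -, rfl⟩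
        · exact ⟨κ, hκ⟩
        · exact hj
        · exact hfc r
      have hjn : j ∉ univ.image f := by
        rw [Finset.mem_image]
        rintro ⟨r, -, hr⟩
        rw [← hr] at hj'
        exact hj' (hf r).2
      have hin : i ∉ insert j (univ.image f) := by
        rw [Finset.mem_insert, Finset.mem_image]
        rintro (h | ⟨r, -, hr⟩)
        · exact hji h.symm
        · rw [← hr] at hcon
          exact hcon (hf r).2
      have hc := Finset.card_le_card hsub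
      rw [Finset.card_insert_of_notMem hin, Finset.card_insert_of_notMem hjn,
        Finset.card_image_of_injective _ hinj] at hc
      simp only [Finset.card_univ, Fintype.card_fin] at hc
      omega
    have hent : ∀ r : ℤ, ∀ j, Entry E N 210 7 5 y r κ j → j = i := by
      intro r j hj
      apply huniq j (Q_of hj.2)
      intro hd
      have h51 := res_eq hQ hj.2 hd
      apply hcon
      have : E i - y - s1 * ((N / 210 : ℕ) : ℤ) = ((N / 210 : ℕ) : ℤ) * (κ - s1) := by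
        rw [hκ]; ring
      rw [this]
      obtain ⟨t, ht⟩ := h51
      rw [ht]
      exact ⟨t, by push_cast; ring⟩
    have hEi : Entry E N 210 7 5 y κ κ i := by
      constructor
      · rw [hκ]; exact ⟨0, by ring⟩
      · rw [hκ]; exact ⟨0, by ring⟩
    have hne := h4 κ κ i hEi (hent κ)
    have hne' : a (κ + 1) κ ≠ 0 := by rw [h6 _ κ]; exact hne
    obtain ⟨j, hj⟩ := h3 _ _ hne'
    have hji := hent _ j hj
    rw [hji] at hj
    have := res_eq hQ hj.1 hEi.1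
    rw [show κ + 1 - κ = 1 by ring] at this
    exact absurd this (by norm_num)
  intro i j hi hj
  have := dvd_sub (hclaim i hi) (hclaim j hj)
  rwa [show E i - y - s1 * ((N / 210 : ℕ) : ℤ) - (E j - y - s1 * ((N / 210 : ℕ) : ℤ)) = E i - E j
    by ring] at this

end XC

open XC in
theorem x3 (h3 : StmtA3) (h5 : StmtA5) (hu : StmtU) (hc : StmtCR) : StmtX3 := by
  intro N e hN hNd hCS hF5 hF7 hQ4 hE
  have hD : 210 ∣ N := Dvd.dvd.trans (by norm_num) hNd
  have h2 : 2 ∣ 210 := by norm_num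
  have hQ := Qpos N 210 hN hD
  set κ : List ℕ := [0, 1, 0, 1, 1, 0, 1, 0, 0, 0, 1, 1, 1, 1, 0, 0] with hκdef
  have hsz : ∀ i, csz κ i = 8 := by rw [hκdef]; decide
  obtain ⟨y, hy⟩ := hF7
  obtain ⟨y', hy'⟩ := hF5
  obtain ⟨i, hi, hi'⟩ := rep h3 N 210 7 e κ y hN hD h2 (by norm_num) hE hy
  obtain ⟨j, hj, hj'⟩ := rep h3 N 210 5 e κ y' hN hD h2 (by norm_num) hE hy'
  have hcard := class_card N 210 e κ y hN hD h2 hE i hi
  rw [hsz] at hcard
  -- the two elements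
  obtain ⟨a, b1, b2, b3, b4, b5, -⟩ := hu (Fin 16) (EE N e) N 210 7 5 y hN hD (by norm_num)
    (by norm_num) (by norm_num) (by norm_num) (by norm_num) (by norm_num) hCS
  have b5' := b5 hy
  have hT : ∀ T : Finset (ℕ × ℕ), (∀ t ∈ T, t.1 < 7 ∧ t.2 < 5 ∧ a t.1 t.2 ≠ 0) → T.card ≤ 8 := by
    intro T hT
    have hex : ∀ t : T, ∃ i, Entry (EE N e) N 210 7 5 y ((t.1.1 : ℕ) : ℤ) ((t.1.2 : ℕ) : ℤ) i :=
      fun t => b3 _ _ (hT t.1 t.2).2.2
    choose g hg using hex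
    have hinj : Function.Injective g := by
      intro u v huv
      have hu := hg u
      have hv := hg v
      rw [huv] at hu
      have r1 := res_eq hQ hu.1 hv.1
      have r2 := res_eq hQ hu.2 hv.2
      have q1 := ModCR.range_eq 7 _ _ (hT u.1 u.2).1 (hT v.1 v.2).1 (by exact_mod_cast r1)
      have q2 := ModCR.range_eq 5 _ _ (hT u.1 u.2).2.1 (hT v.1 v.2).2.1 (by exact_mod_cast r2)
      exact Subtype.ext (Prod.ext q1 q2)
    have hsub : (Finset.univ.image g) ⊆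
        Finset.univ.filter (fun i => ((N / 210 : ℕ) : ℤ) ∣ EE N e i - y) := by
      intro x hx
      rw [Finset.mem_image] at hx
      obtain ⟨t, -, rfl⟩ := hx
      rw [Finset.mem_filter]
      exact ⟨Finset.mem_univ _, Q_of (hg t).1⟩
    have h := Finset.card_le_card hsub
    rw [Finset.card_image_of_injective _ hinj, hcard] at h
    simpa using h
  have h6 : ∀ r r' s : ℤ, a r s = a r' s := by
    by_contra hcon
    push Not at hcon
    have := (ModCR.table 7 5 8 (by norm_num) (by norm_num) a b1 b2 b5' hcon hT (by norm_num)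
      (by norm_num)).1
    omega
  have hcol := one_col (EE N e) N hQ y a (by omega) b3 b4 b5' h6
  -- consequences for `e 1` and `e 3`
  have hcl := class_eq N 210 e κ y hN hD h2 hE i hi
  have hk01 : ∀ i : Fin 16, κ.getD i.val 0 = 0 ∨ κ.getD i.val 0 = 1 := by
    rw [hκdef]; decide
  have hκ01 := hk01 i
  have h13 : ((5 * (N / 210) : ℕ) : ℤ) ∣ 2 * e 1 ∧ ((5 * (N / 210) : ℕ) : ℤ) ∣ 2 * e 3 := by
    rcases hκ01 with h0 | h0
    · have c0 := (hcl 0).mpr (by rw [h0, hκdef]; decide)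
      have c2 := (hcl 2).mpr (by rw [h0, hκdef]; decide)
      have c8 := (hcl 8).mpr (by rw [h0, hκdef]; decide)
      have c9 := (hcl 9).mpr (by rw [h0, hκdef]; decide)
      have d1 := hcol 0 2 c0 c2
      have d2 := hcol 8 9 c8 c9
      rw [EE0, EE2, show e 0 + e 1 + e 2 - (e 0 - e 1 + e 2) = 2 * e 1 by ring] at d1
      rw [EE8, EE9, show ∀ x : ℤ, e 3 + e 4 + e 5 + x - (-e 3 + e 4 + e 5 + x) = 2 * e 3 by
        intro x; ring] at d2
      exact ⟨d1, d2⟩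
    · have c0 := (hcl 1).mpr (by rw [h0, hκdef]; decide)
      have c2 := (hcl 3).mpr (by rw [h0, hκdef]; decide)
      have c8 := (hcl 10).mpr (by rw [h0, hκdef]; decide)
      have c9 := (hcl 11).mpr (by rw [h0, hκdef]; decide)
      have d1 := hcol 1 3 c0 c2
      have d2 := hcol 10 11 c8 c9
      rw [EE1, EE3, show -e 0 + e 1 + e 2 - (-e 0 - e 1 + e 2) = 2 * e 1 by ring] at d1
      rw [EE10, EE11, show ∀ x : ℤ, e 3 - e 4 + e 5 + x - (-e 3 - e 4 + e 5 + x) = 2 * e 3 by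
        intro x; ring] at d2
      exact ⟨d1, d2⟩
  obtain ⟨d1, d3⟩ := h13
  -- the class of `y'`
  have hcl' := class_eq N 210 e κ y' hN hD h2 hE j hj
  have hκ01' := hk01 j
  have self : ∀ x : ℤ, ((5 * (N / 210) : ℕ) : ℤ) ∣ x - x := fun x => by
    rw [sub_self]; exact dvd_zero _
  rcases hκ01' with h0 | h0
  · refine pig N hQ (EE N e) y' ![0, 5, 8, 14] ?_ hy'
    intro m hm
    rw [hcl' m, h0, hκdef] at hm
    have hm' : m = 0 ∨ m = 2 ∨ m = 5 ∨ m = 7 ∨ m = 8 ∨ m = 9 ∨ m = 14 ∨ m = 15 := by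
      revert m; decide
    rcases hm' with rfl | rfl | rfl | rfl | rfl | rfl | rfl | rfl
    · exact ⟨0, self _⟩
    · refine ⟨0, ?_⟩
      show ((5 * (N / 210) : ℕ) : ℤ) ∣ EE N e 2 - EE N e 0
      rw [EE0, EE2, show (e 0 - e 1 + e 2) - (e 0 + e 1 + e 2) = -(2 * e 1) by ring, dvd_neg]
      exact d1
    · exact ⟨1, self _⟩
    · refine ⟨1, ?_⟩
      show ((5 * (N / 210) : ℕ) : ℤ) ∣ EE N e 7 - EE N e 5
      rw [EE7, EE5, show (-e 0 - e 1 - e 2) - (-e 0 + e 1 - e 2) = -(2 * e 1) by ring, dvd_neg]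
      exact d1
    · exact ⟨2, self _⟩
    · refine ⟨2, ?_⟩
      show ((5 * (N / 210) : ℕ) : ℤ) ∣ EE N e 9 - EE N e 8
      rw [EE9, EE8, show ∀ x : ℤ, (-e 3 + e 4 + e 5 + x) - (e 3 + e 4 + e 5 + x) = -(2 * e 3) by
        intro x; ring, dvd_neg]
      exact d3
    · exact ⟨3, self _⟩
    · refine ⟨3, ?_⟩
      show ((5 * (N / 210) : ℕ) : ℤ) ∣ EE N e 15 - EE N e 14
      rw [EE15, EE14, show ∀ x : ℤ, (-e 3 - e 4 - e 5 + x) - (e 3 - e 4 - e 5 + x) = -(2 * e 3) by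
        intro x; ring, dvd_neg]
      exact d3
  · refine pig N hQ (EE N e) y' ![1, 4, 10, 12] ?_ hy'
    intro m hm
    rw [hcl' m, h0, hκdef] at hm
    have hm' : m = 1 ∨ m = 3 ∨ m = 4 ∨ m = 6 ∨ m = 10 ∨ m = 11 ∨ m = 12 ∨ m = 13 := by
      revert m; decide
    rcases hm' with rfl | rfl | rfl | rfl | rfl | rfl | rfl | rfl
    · exact ⟨0, self _⟩
    · refine ⟨0, ?_⟩
      show ((5 * (N / 210) : ℕ) : ℤ) ∣ EE N e 3 - EE N e 1
      rw [EE3, EE1, show (-e 0 - e 1 + e 2) - (-e 0 + e 1 + e 2) = -(2 * e 1) by ring, dvd_neg]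
      exact d1
    · exact ⟨1, self _⟩
    · refine ⟨1, ?_⟩
      show ((5 * (N / 210) : ℕ) : ℤ) ∣ EE N e 6 - EE N e 4
      rw [EE6, XC.EE4, show (e 0 - e 1 - e 2) - (e 0 + e 1 - e 2) = -(2 * e 1) by ring, dvd_neg]
      exact d1
    · exact ⟨2, self _⟩
    · refine ⟨2, ?_⟩
      show ((5 * (N / 210) : ℕ) : ℤ) ∣ EE N e 11 - EE N e 10
      rw [EE11, EE10, show ∀ x : ℤ, (-e 3 - e 4 + e 5 + x) - (e 3 - e 4 + e 5 + x) = -(2 * e 3) by
        intro x; ring, dvd_neg]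
      exact d3
    · exact ⟨3, self _⟩
    · refine ⟨3, ?_⟩
      show ((5 * (N / 210) : ℕ) : ℤ) ∣ EE N e 13 - EE N e 12
      rw [EE13, EE12, show ∀ x : ℤ, (-e 3 + e 4 - e 5 + x) - (e 3 + e 4 - e 5 + x) = -(2 * e 3) by
        intro x; ring, dvd_neg]
      exact d3

end Pool.Agent.T6.H31.TC
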