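import Pool.Agent.T6.H31.TC.X2

set_option autoImplicit false

/-! Module X4. -/

namespace Pool.Agent.T6.H31.TC
namespace XC

open Finset

lemma z_add (N : ℕ) (a b : ℤ) : z N (a + b) = z N a * z N b := by
  unfold z
  rw [← Complex.exp_add]
  congr 1
  push_cast
  ring

lemma z_ne (N : ℕ) (a : ℤ) : z N a ≠ 0 := Complex.exp_ne_zero _

lemma z_cos (N : ℕ) (a : ℤ) : z N a + z N (-a) = 2 * (Real.cos (2 * Real.pi * a / N) : ℂ) := by
  unfold z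
  rw [Complex.ofReal_cos, Complex.cos]
  push_cast
  rw [show ∀ x y : ℂ, 2 * ((x + y) / 2) = x + y by intros; ring]
  congr 2
  ring

lemma zdiff (p : ℕ) (K : Fin 16 → ℤ) (c : ℤ) (i j : Fin 16)
    (h1 : ((K i - c : ℤ) : ZMod p) = 0) (h2 : ((K j - c : ℤ) : ZMod p) = 0) :
    ∃ t : ℤ, K i - K j = p * t := by
  rw [ZMod.intCast_zmod_eq_zero_iff_dvd] at h1 h2
  obtain ⟨a, ha⟩ := h1
  obtain ⟨b, hb⟩ := h2
  exact ⟨a - b, by linear_combination ha - hb⟩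

/-- a class sum with four terms -/
lemma four_terms (N : ℕ) (e : Fin 6 → ℤ) (hN : 0 < N)
    (h : z N (EE N e 10) + z N (EE N e 11) + z N (EE N e 12) + z N (EE N e 13) = 0)
    (h3 : Real.sin (Real.pi * yy N e 3) ≠ 0) :
    ∃ k : ℤ, 4 * (e 4 - e 5) = (2 * k + 1) * (N : ℤ) := by
  have hN' : (N : ℝ) ≠ 0 := by exact_mod_cast hN.ne'
  have e10 : EE N e 10 = ((N / 2 : ℕ) : ℤ) + (e 3 + (-(e 4 - e 5))) := by rw [EE10]; ring
  have e11 : EE N e 11 = ((N / 2 : ℕ) : ℤ) + ((-e 3) + (-(e 4 - e 5))) := by rw [EE11]; ring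
  have e12 : EE N e 12 = ((N / 2 : ℕ) : ℤ) + (e 3 + (e 4 - e 5)) := by rw [EE12]; ring
  have e13 : EE N e 13 = ((N / 2 : ℕ) : ℤ) + ((-e 3) + (e 4 - e 5)) := by rw [EE13]; ring
  rw [e10, e11, e12, e13, z_add, z_add N _ ((-e 3) + (-(e 4 - e 5))), z_add N _ (e 3 + (e 4 - e 5)),
    z_add N _ ((-e 3) + (e 4 - e 5)), z_add N (e 3), z_add N (-e 3), z_add N (e 3) (e 4 - e 5),
    z_add N (-e 3) (e 4 - e 5)] at h
  have h' : z N ((N / 2 : ℕ) : ℤ) * ((z N (e 3) + z N (-e 3)) *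
      (z N (e 4 - e 5) + z N (-(e 4 - e 5)))) = 0 := by
    linear_combination h
  have h'' := (mul_eq_zero.mp h').resolve_left (z_ne _ _)
  rw [z_cos, z_cos] at h''
  have c3 : Real.cos (2 * Real.pi * (e 3 : ℤ) / N) ≠ 0 := by
    intro hc
    apply h3
    rw [show Real.pi * yy N e 3 = Real.pi / 2 - 2 * Real.pi * (e 3 : ℤ) / N by
      unfold yy; ring, Real.sin_pi_div_two_sub]
    exact hc
  have c4 : Real.cos (2 * Real.pi * ((e 4 - e 5 : ℤ) : ℝ) / N) = 0 := by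
    rcases mul_eq_zero.mp h'' with h | h
    · exfalso
      apply c3
      have := (mul_eq_zero.mp h).resolve_left (by norm_num)
      exact_mod_cast this
    · have := (mul_eq_zero.mp h).resolve_left (by norm_num)
      exact_mod_cast this
  rw [Real.cos_eq_zero_iff] at c4
  obtain ⟨k, hk⟩ := c4
  refine ⟨k, ?_⟩
  have hpi := Real.pi_ne_zero
  field_simp at hk
  have : (4 * ((e 4 - e 5 : ℤ) : ℝ)) = (2 * k + 1) * N := by
    linear_combination hk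
  exact_mod_cast this

end XC

open XC in
theorem x4 (h3 : StmtA3) (h5 : StmtA5) (hc : StmtCR) : StmtX4 := by
  intro N e hN hNd hNZ hCS hF5 hF7 hQ4 hE
  have hD : 210 ∣ N := Dvd.dvd.trans (by norm_num) hNd
  have hκ' : (∀ i : Fin 16, 5 ≤ csz [0, 0, 0, 0, 0, 0, 0, 0, 0, 0, 10, 10, 10, 10, 0, 0] i →
      ([0, 0, 0, 0, 0, 0, 0, 0, 0, 0, 10, 10, 10, 10, 0, 0] : List ℕ).getD i.val 0 =
      ([0, 0, 0, 0, 0, 0, 0, 0, 0, 0, 10, 10, 10, 10, 0, 0] : List ℕ).getD 0 0) ∧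
      csz [0, 0, 0, 0, 0, 0, 0, 0, 0, 0, 10, 10, 10, 10, 0, 0] 0 < 13 ∧
      (∀ m : Fin 8, ([0, 0, 0, 0, 0, 0, 0, 0, 0, 0, 10, 10, 10, 10, 0, 0] : List ℕ).getD (iS m).val 0 =
        ([0, 0, 0, 0, 0, 0, 0, 0, 0, 0, 10, 10, 10, 10, 0, 0] : List ℕ).getD 0 0) ∧
      (∀ i : Fin 16, ([0, 0, 0, 0, 0, 0, 0, 0, 0, 0, 10, 10, 10, 10, 0, 0] : List ℕ).getD i.val 0 =
        ([0, 0, 0, 0, 0, 0, 0, 0, 0, 0, 10, 10, 10, 10, 0, 0] : List ℕ).getD 0 0 → (∃ m, i = iS m) ∨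
        ∃ m, i = (![8, 9, 14, 15] : Fin 4 → Fin 16) m) ∧
      (∀ m, ([0, 0, 0, 0, 0, 0, 0, 0, 0, 0, 10, 10, 10, 10, 0, 0] : List ℕ).getD
        ((![8, 9, 14, 15] : Fin 4 → Fin 16) m).val 0 =
        ([0, 0, 0, 0, 0, 0, 0, 0, 0, 0, 10, 10, 10, 10, 0, 0] : List ℕ).getD 0 0) := by
    decide
  obtain ⟨k1, k2, k3, k4, k5⟩ := hκ'
  obtain ⟨y, K, R, S, r0, s0, hcl, hR, hS, hK, H1, H2, H3⟩ :=
    setup h3 h5 hc N e _ hN hD hCS hF5 hF7 hE k1 k2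
  have hQ' : ((N / 210 : ℕ) : ℤ) ≠ 0 := by exact_mod_cast (Qpos N 210 hN hD).ne'
  have hRf : R = fun i => ((K i - r0 : ℤ) : ZMod 7) := funext hR
  have hSf : S = fun i => ((K i - s0 : ℤ) : ZMod 5) := funext hS
  have hKS : ∀ m : Fin 8, EE N e (iS m) - y = ((N / 210 : ℕ) : ℤ) * K (iS m) :=
    fun m => hK _ ((hcl _).mpr (k3 m))
  have hKT : ∀ m : Fin 4, EE N e ((![8, 9, 14, 15] : Fin 4 → Fin 16) m) - y =
      ((N / 210 : ℕ) : ℤ) * K ((![8, 9, 14, 15] : Fin 4 → Fin 16) m) :=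
    fun m => hK _ ((hcl _).mpr (k5 m))
  have a1 : Aff (fun m => R (iS m)) := by
    rw [hRf]; exact affS N e y _ r0 hQ' K hKS
  have a2 : Aff (fun m => S (iS m)) := by
    rw [hSf]; exact affS N e y _ s0 hQ' K hKS
  have i7 : Fact (Nat.Prime 7) := ⟨by norm_num⟩
  have i5 : Fact (Nat.Prime 5) := ⟨by norm_num⟩
  obtain ⟨hz1, hz2⟩ := cube_four (F := ZMod 7) (G := ZMod 5) (two_ne 7 (by norm_num))
    (two_ne 5 (by norm_num)) (ZMod.card 7) (ZMod.card 5) a1 a2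
    (r' := fun m => R ((![8, 9, 14, 15] : Fin 4 → Fin 16) m))
    (s' := fun m => S ((![8, 9, 14, 15] : Fin 4 → Fin 16) m))
    (by
      intro v hv
      obtain ⟨k, k0, k1, k2⟩ := H1 v hv
      rcases k4 k ((hcl k).mp k0) with ⟨m, rfl⟩ | ⟨m, rfl⟩
      · left; exact ⟨m, k1, k2⟩
      · right; exact ⟨m, k1, k2⟩)
    (by
      intro v hv
      obtain ⟨k, k0, k1, k2⟩ := H2 v hv
      rcases k4 k ((hcl k).mp k0) with ⟨m, rfl⟩ | ⟨m, rfl⟩
      · left; exact ⟨m, k1, k2⟩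
      · right; exact ⟨m, k1, k2⟩)
    (by
      intro x x1 x2
      obtain ⟨k, k0, kc, k1, k2⟩ := H3 (iS x) ((hcl _).mpr (k3 x)) x1 x2
      rcases k4 k ((hcl k).mp kc) with ⟨m, rfl⟩ | ⟨m, rfl⟩
      · left; exact ⟨m, fun h => k0 (by rw [h]), k1, k2⟩
      · right; exact ⟨m, k1, k2⟩)
  have hNQ : (N : ℤ) = 210 * ((N / 210 : ℕ) : ℤ) := by
    have := Nat.mul_div_cancel' hD
    exact_mod_cast this.symm
  have hNr : (N : ℝ) = 210 * ((N / 210 : ℕ) : ℝ) := by exact_mod_cast hNQ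
  have hQr : ((N / 210 : ℕ) : ℝ) ≠ 0 := by
    exact_mod_cast (Qpos N 210 hN hD).ne'
  have zS : ∀ m : Fin 8, ((K (iS m) - s0 : ℤ) : ZMod 5) = 0 := by
    intro m; rw [← hS]; exact hz1 m
  have zR : ∀ m : Fin 4, ((K ((![8, 9, 14, 15] : Fin 4 → Fin 16) m) - r0 : ℤ) : ZMod 7) = 0 := by
    intro m; rw [← hR]; exact hz2 m
  obtain ⟨t0, ht0⟩ := zdiff 5 K s0 0 1 (zS 0) (zS 1)
  obtain ⟨t1, ht1⟩ := zdiff 5 K s0 0 2 (zS 0) (zS 2)
  obtain ⟨t2, ht2⟩ := zdiff 5 K s0 0 4 (zS 0) (zS 4)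
  obtain ⟨t3, ht3⟩ := zdiff 7 K r0 8 9 (zR 0) (zR 1)
  obtain ⟨t4, ht4⟩ := zdiff 7 K r0 8 14 (zR 0) (zR 2)
  have E0 : EE N e 0 - y = ((N / 210 : ℕ) : ℤ) * K 0 := hKS 0
  have E1 : EE N e 1 - y = ((N / 210 : ℕ) : ℤ) * K 1 := hKS 1
  have E2 : EE N e 2 - y = ((N / 210 : ℕ) : ℤ) * K 2 := hKS 2
  have E4 : EE N e 4 - y = ((N / 210 : ℕ) : ℤ) * K 4 := hKS 4
  have E8 : EE N e 8 - y = ((N / 210 : ℕ) : ℤ) * K 8 := hKT 0
  have E9 : EE N e 9 - y = ((N / 210 : ℕ) : ℤ) * K 9 := hKT 1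
  have E14 : EE N e 14 - y = ((N / 210 : ℕ) : ℤ) * K 14 := hKT 2
  rw [EE0] at E0
  rw [EE1] at E1
  rw [EE2] at E2
  rw [XC.EE4] at E4
  rw [EE8] at E8
  rw [EE9] at E9
  rw [EE14] at E14
  push_cast at ht0 ht1 ht2 ht3 ht4
  have f0 : 2 * e 0 = 5 * ((N / 210 : ℕ) : ℤ) * t0 := by
    linear_combination E0 - E1 + ((N / 210 : ℕ) : ℤ) * ht0
  have f1 : 2 * e 1 = 5 * ((N / 210 : ℕ) : ℤ) * t1 := by
    linear_combination E0 - E2 + ((N / 210 : ℕ) : ℤ) * ht1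
  have f2 : 2 * e 2 = 5 * ((N / 210 : ℕ) : ℤ) * t2 := by
    linear_combination E0 - E4 + ((N / 210 : ℕ) : ℤ) * ht2
  have f3 : 2 * e 3 = 7 * ((N / 210 : ℕ) : ℤ) * t3 := by
    linear_combination E8 - E9 + ((N / 210 : ℕ) : ℤ) * ht3
  have f4 : 2 * (e 4 + e 5) = 7 * ((N / 210 : ℕ) : ℤ) * t4 := by
    linear_combination E8 - E14 + ((N / 210 : ℕ) : ℤ) * ht4
  have hsum := hCS (EE N e 10)
  have hfil : (Finset.univ.filter (fun i => ((N / 210 : ℕ) : ℤ) ∣ EE N e i - EE N e 10)) =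
      ({10, 11, 12, 13} : Finset (Fin 16)) := by
    have : (Finset.univ.filter (fun i => ((N / 210 : ℕ) : ℤ) ∣ EE N e i - EE N e 10)) =
        Finset.univ.filter (fun i : Fin 16 =>
          ([0, 0, 0, 0, 0, 0, 0, 0, 0, 0, 10, 10, 10, 10, 0, 0] : List ℕ).getD i.val 0 =
          ([0, 0, 0, 0, 0, 0, 0, 0, 0, 0, 10, 10, 10, 10, 0, 0] : List ℕ).getD
            (10 : Fin 16).val 0) := by
      apply Finset.filter_congr
      intro i _
      rw [EE_dvd N 210 e hN hD (by norm_num)]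
      exact hE i 10
    rw [this]
    decide
  rw [hfil] at hsum
  rw [Finset.sum_insert (by decide), Finset.sum_insert (by decide), Finset.sum_insert (by decide),
    Finset.sum_singleton] at hsum
  obtain ⟨k, hk⟩ := four_terms N e hN (by linear_combination hsum) (hNZ 3)
  have f0r : 2 * (e 0 : ℝ) = 5 * ((N / 210 : ℕ) : ℝ) * t0 := by
    have h := congrArg (Int.cast : ℤ → ℝ) f0
    push_cast at h
    exact h
  have f1r : 2 * (e 1 : ℝ) = 5 * ((N / 210 : ℕ) : ℝ) * t1 := by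
    have h := congrArg (Int.cast : ℤ → ℝ) f1
    push_cast at h
    exact h
  have f2r : 2 * (e 2 : ℝ) = 5 * ((N / 210 : ℕ) : ℝ) * t2 := by
    have h := congrArg (Int.cast : ℤ → ℝ) f2
    push_cast at h
    exact h
  have f3r : 2 * (e 3 : ℝ) = 7 * ((N / 210 : ℕ) : ℝ) * t3 := by
    have h := congrArg (Int.cast : ℤ → ℝ) f3
    push_cast at h
    exact h
  have f4r : 2 * ((e 4 : ℝ) + e 5) = 7 * ((N / 210 : ℕ) : ℝ) * t4 := by
    have h := congrArg (Int.cast : ℤ → ℝ) f4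
    push_cast at h
    exact h
  have hkr : 4 * ((e 4 : ℝ) - e 5) = (2 * k + 1) * (210 * ((N / 210 : ℕ) : ℝ)) := by
    rw [← hNr]; exact_mod_cast hk
  have g4 : 2 * (e 4 : ℝ) = (7 * t4 + 105 * (2 * k + 1)) * ((N / 210 : ℕ) : ℝ) / 2 := by
    linear_combination f4r / 2 + hkr / 4
  have g5 : 2 * (e 5 : ℝ) = (7 * t4 - 105 * (2 * k + 1)) * ((N / 210 : ℕ) : ℝ) / 2 := by
    linear_combination f4r / 2 - hkr / 4
  constructor
  · intro i hi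
    have key : ∀ (x : ℝ) (t : ℤ), 2 * x = 5 * ((N / 210 : ℕ) : ℝ) * t →
        ∃ k : ℤ, 1 / 2 - 2 * x / (N : ℝ) = k / 42 := by
      intro x t h
      refine ⟨21 - t, ?_⟩
      rw [h, hNr]
      push_cast
      field_simp
      ring
    unfold yy
    fin_cases i
    · exact key _ _ f0r
    · exact key _ _ f1r
    · exact key _ _ f2r
    · simp at hi
    · simp at hi
    · simp at hi
  · intro i hi
    unfold yy
    fin_cases i
    · simp at hi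
    · simp at hi
    · simp at hi
    · refine ⟨30 - 2 * t3, ?_⟩
      show 1 / 2 - 2 * (e 3 : ℝ) / (N : ℝ) = _
      rw [f3r, hNr]
      push_cast
      field_simp
      ring
    · refine ⟨30 - t4 - 15 * (2 * k + 1), ?_⟩
      show 1 / 2 - 2 * (e 4 : ℝ) / (N : ℝ) = _
      rw [g4, hNr]
      push_cast
      field_simp
      ring
    · refine ⟨30 - t4 + 15 * (2 * k + 1), ?_⟩
      show 1 / 2 - 2 * (e 5 : ℝ) / (N : ℝ) = _
      rw [g5, hNr]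
      push_cast
      field_simp
      ring

end Pool.Agent.T6.H31.TC
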