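import Pool.Agent.T6.H31.TC.Stmts

set_option autoImplicit false

/-! Module XR (helper24): the three partitions with profile 2,2,2,5,5. -/

namespace Pool.Agent.T6.H31.TC
namespace ModXR

open Finset

theorem z_eq {N : ℕ} (hN : 0 < N) {a b : ℤ} (h : z N a = z N b) : (N : ℤ) ∣ a - b := by
  unfold z at h
  rw [Complex.exp_eq_exp_iff_exists_int] at h
  obtain ⟨n, hn⟩ := h
  have hN' : (N : ℝ) ≠ 0 := by positivity
  have h1 : (((2 * Real.pi * (a : ℝ) / (N : ℝ) : ℝ) : ℂ)) =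
      ((2 * Real.pi * (b : ℝ) / (N : ℝ) + n * (2 * Real.pi) : ℝ) : ℂ) := by
    have h2 : (((2 * Real.pi * (a : ℝ) / (N : ℝ) : ℝ) : ℂ) -
      ((2 * Real.pi * (b : ℝ) / (N : ℝ) + n * (2 * Real.pi) : ℝ) : ℂ)) * Complex.I = 0 := by
      push_cast at hn ⊢
      linear_combination hn
    rcases mul_eq_zero.1 h2 with h3 | h3
    · exact sub_eq_zero.1 h3
    · exact absurd h3 Complex.I_ne_zero
  have h4 := Complex.ofReal_injective h1
  have hpi := Real.pi_pos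
  have h5 : (a : ℝ) = b + n * N := by
    have h6 : 2 * Real.pi * ((a : ℝ) - (b + n * N)) = 0 := by
      field_simp at h4
      linear_combination Real.pi * 2 * h4
    rcases mul_eq_zero.1 h6 with h7 | h7
    · linarith
    · linarith
  have h8 : a = b + n * N := by exact_mod_cast h5
  exact ⟨n, by rw [h8]; ring⟩

theorem z_zero (N : ℕ) : z N 0 = 1 := by
  simp [z]

theorem z_dbl (N : ℕ) (a : ℤ) : z N (2 * a) = z N a * z N a := by
  unfold z
  rw [← Complex.exp_add]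
  congr 1
  push_cast
  ring

theorem dv_eq (m n : Fin 16) (e : Fin 6 → ℤ) (a b c d f g : ℤ)
    (h : ∀ i, V m i - V n i = (![a, b, c, d, f, g] : Fin 6 → ℤ) i) :
    dv m n e = a * e 0 + b * e 1 + c * e 2 + d * e 3 + f * e 4 + g * e 5 := by
  unfold dv dot
  rw [← Finset.sum_sub_distrib]
  have : ∀ i ∈ (univ : Finset (Fin 6)), V m i * e i - V n i * e i =
      (![a, b, c, d, f, g] : Fin 6 → ℤ) i * e i := by
    intro i _
    rw [← sub_mul, h i]
  rw [Finset.sum_congr rfl this, Fin.sum_univ_six]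
  rfl

theorem dv_self (m : Fin 16) (e : Fin 6 → ℤ) : dv m m e = 0 := sub_self _

theorem EE_sub (N : ℕ) (Q : ℤ) (h2 : ((N / 2 : ℕ) : ℤ) = 15 * Q) (e : Fin 6 → ℤ) (m n : Fin 16) :
    ∃ t : ℤ, EE N e m - EE N e n = dv m n e + t * (15 * Q) := by
  unfold EE dv
  rw [h2]
  split_ifs
  · exact ⟨0, by ring⟩
  · exact ⟨-1, by ring⟩
  · exact ⟨1, by ring⟩
  · exact ⟨0, by ring⟩

theorem five (N : ℕ) (hN : 0 < N) (Q : ℤ) (hQ : (N : ℤ) = 30 * Q)
    (hQ' : ((N / 30 : ℕ) : ℤ) = Q) (E : Fin 16 → ℤ) (m1 : Fin 16)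
    (hF : FullAt E N 5 30 (E m1))
    (hc : (univ.filter (fun i => Q ∣ E i - E m1)).card = 5) :
    ∀ i, Q ∣ E i - E m1 → 6 * Q ∣ E i - E m1 := by
  have hQpos : 0 < Q := by
    have : (0 : ℤ) < N := by exact_mod_cast hN
    omega
  obtain ⟨B, hB5, hB6, S, hS, hr⟩ := hF
  have hB6' : (6 : ℤ) ∣ B - 1 := by
    have : ((30 / 5 : ℕ) : ℤ) = 6 := by norm_num
    rwa [this] at hB6
  have hcast : ((5 * (N / 30) : ℕ) : ℤ) = 5 * Q := by
    push_cast at hQ' ⊢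
    rw [hQ']
  rw [hcast, hQ'] at hr
  set F : ℕ → Finset (Fin 16) := fun r => univ.filter (fun i => 5 * Q ∣ E i - E m1 - (r : ℤ) * Q)
    with hFdef
  have hne : ∀ r, 1 ≤ (F r).card := by
    intro r
    by_contra hcon
    have h0 : F r = ∅ := by
      rw [← Finset.card_eq_zero]
      omega
    apply hS
    rw [← hr r]
    have : univ.filter (fun i => 5 * Q ∣ E i - E m1 - (r : ℤ) * Q) = ∅ := h0
    rw [this, Finset.sum_empty]
  have hdis : ∀ r ∈ range 5, ∀ s ∈ range 5, r ≠ s → Disjoint (F r) (F s) := by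
    intro r hr1 s hs1 hrs
    rw [Finset.disjoint_left]
    intro i hi hi'
    have h1 : 5 * Q ∣ E i - E m1 - (r : ℤ) * Q := (Finset.mem_filter.1 hi).2
    have h2 : 5 * Q ∣ E i - E m1 - (s : ℤ) * Q := (Finset.mem_filter.1 hi').2
    have h3 : 5 * Q ∣ ((s : ℤ) - r) * Q := by
      have := dvd_sub h1 h2
      have e : E i - E m1 - (r : ℤ) * Q - (E i - E m1 - (s : ℤ) * Q) = ((s : ℤ) - r) * Q := by ring
      rwa [e] at this
    have h4 : (5 : ℤ) ∣ (s : ℤ) - r := Int.dvd_of_mul_dvd_mul_right hQpos.ne' h3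
    rw [Finset.mem_range] at hr1 hs1
    omega
  have hsub : (range 5).biUnion F ⊆ univ.filter (fun i => Q ∣ E i - E m1) := by
    intro i hi
    rw [Finset.mem_biUnion] at hi
    obtain ⟨r, _, hi⟩ := hi
    have h1 : 5 * Q ∣ E i - E m1 - (r : ℤ) * Q := (Finset.mem_filter.1 hi).2
    refine Finset.mem_filter.2 ⟨mem_univ _, ?_⟩
    have h2 : Q ∣ E i - E m1 - (r : ℤ) * Q := (Dvd.intro_left 5 rfl).trans h1
    have h3 := dvd_add h2 (Dvd.intro_left (r : ℤ) rfl : Q ∣ (r : ℤ) * Q)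
    rwa [sub_add_cancel] at h3
  have hsum : ∑ r ∈ range 5, (F r).card ≤ 5 := by
    rw [← Finset.card_biUnion hdis]
    exact (Finset.card_le_card hsub).trans hc.le
  have hle : ∀ r, r < 5 → (F r).card ≤ 1 := by
    intro r hr1
    simp only [Finset.sum_range_succ, Finset.sum_range_zero] at hsum
    have h0 := hne 0
    have h1 := hne 1
    have h2 := hne 2
    have h3 := hne 3
    have h4 := hne 4
    interval_cases r <;> omega
  have key : ∀ i, Q ∣ E i - E m1 → z N (B * (E i - E m1)) = S := by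
    intro i hi
    obtain ⟨k, hk⟩ := hi
    have hmod : 0 ≤ k % 5 := Int.emod_nonneg _ (by norm_num)
    have hmod' : k % 5 < 5 := Int.emod_lt_of_pos _ (by norm_num)
    set r := (k % 5).toNat with hrdef
    have hr1 : (r : ℤ) = k % 5 := Int.toNat_of_nonneg hmod
    have hrlt : r < 5 := by omega
    have hiF : i ∈ F r := by
      refine Finset.mem_filter.2 ⟨mem_univ _, ?_⟩
      rw [hk, hr1]
      refine ⟨k / 5, ?_⟩
      have := Int.emod_add_mul_ediv k 5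
      linear_combination (-Q) * this
    have hFr : F r = {i} := by
      obtain ⟨j, hj⟩ := Finset.card_eq_one.1 (le_antisymm (hle r hrlt) (hne r))
      rw [hj] at hiF ⊢
      rw [Finset.mem_singleton.1 hiF]
    have h1 := hr r
    have h2 : univ.filter (fun i => 5 * Q ∣ E i - E m1 - (r : ℤ) * Q) = {i} := hFr
    rw [h2, Finset.sum_singleton] at h1
    exact h1
  intro i hi
  have h1 := key i hi
  have h2 := key m1 (by rw [sub_self]; exact dvd_zero _)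
  rw [sub_self, mul_zero] at h2
  have h3 := z_eq hN (h1.trans h2.symm)
  rw [sub_zero, hQ] at h3
  obtain ⟨k, hk⟩ := hi
  rw [hk] at h3 ⊢
  have h4 : 30 * Q ∣ (B * k) * Q := by
    have e : B * (Q * k) = (B * k) * Q := by ring
    rwa [e] at h3
  have h5 : (30 : ℤ) ∣ B * k := Int.dvd_of_mul_dvd_mul_right hQpos.ne' h4
  have h6 : (6 : ℤ) ∣ k := by
    obtain ⟨b, hb⟩ := hB6'
    obtain ⟨c, hc⟩ := h5
    refine ⟨5 * c - b * k, ?_⟩
    have : B = 1 + 6 * b := by linarith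
    rw [this] at hc
    linear_combination hc
  obtain ⟨c, hc⟩ := h6
  exact ⟨c, by rw [hc]; ring⟩

theorem core (h3 : StmtA3) (h5 : StmtA5) (h6 : StmtA6) (N : ℕ) (e : Fin 6 → ℤ) (κ : List ℕ)
    (Q : ℤ) (hN : 0 < N) (h30 : 30 ∣ N) (hQ : (N : ℤ) = 30 * Q)
    (hQ' : ((N / 30 : ℕ) : ℤ) = Q) (h2 : ((N / 2 : ℕ) : ℤ) = 15 * Q)
    (hCS : CS (EE N e) N 30) (hF : Full (EE N e) N 5 30) (hEx : Exact Q e κ)
    (hκ : ∀ m : Fin 16,
      5 ≤ (univ.filter (fun n : Fin 16 => κ.getD n.val 0 = κ.getD m.val 0)).card →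
      κ.getD m.val 0 = κ.getD 0 0 ∨ κ.getD m.val 0 = κ.getD 7 0)
    (h0 : (univ.filter (fun n : Fin 16 => κ.getD n.val 0 = κ.getD 0 0)).card = 5)
    (h7 : (univ.filter (fun n : Fin 16 => κ.getD n.val 0 = κ.getD 7 0)).card = 5)
    (hpair : ∀ m : Fin 16, κ.getD m.val 0 = κ.getD 0 0 ∨ κ.getD m.val 0 = κ.getD 7 0 ∨
      (univ.filter (fun n : Fin 16 => κ.getD n.val 0 = κ.getD m.val 0)).card = 2) :
    ∀ m n : Fin 16, κ.getD m.val 0 = κ.getD n.val 0 → 3 * Q ∣ dv m n e := by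
  have hiff : ∀ m n : Fin 16, Q ∣ EE N e m - EE N e n ↔ κ.getD m.val 0 = κ.getD n.val 0 := by
    intro m n
    rw [← hEx m n]
    obtain ⟨t, ht⟩ := EE_sub N Q h2 e m n
    rw [ht]
    have : Q ∣ t * (15 * Q) := ⟨t * 15, by ring⟩
    exact dvd_add_left this
  have hneg : EE N e 7 = - EE N e 0 := by
    have h := dv_eq 0 7 e 2 2 2 0 0 0 (by decide)
    have hd : dot (V 7) e = - dot (V 0) e := by
      unfold dot
      rw [← Finset.sum_neg_distrib]
      refine Finset.sum_congr rfl fun i _ => ?_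
      have : V 7 i = - V 0 i := by
        revert i
        decide
      rw [this]
      ring
    unfold EE
    rw [hd]
    simp
  -- the full class
  have hfull : FullAt (EE N e) N 5 30 (EE N e 0) ∧ FullAt (EE N e) N 5 30 (EE N e 7) := by
    obtain ⟨y, hy⟩ := hF
    have hc := h3 (Fin 16) (EE N e) N 30 5 y hN h30 (by norm_num) hy
    rw [hQ'] at hc
    have hnon : (univ.filter (fun i => Q ∣ EE N e i - y)).Nonempty := by
      rw [← Finset.card_pos]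
      omega
    obtain ⟨m0, hm0⟩ := hnon
    have hm0' : Q ∣ EE N e m0 - y := (Finset.mem_filter.1 hm0).2
    have hfil : univ.filter (fun i => Q ∣ EE N e i - y) =
        univ.filter (fun n : Fin 16 => κ.getD n.val 0 = κ.getD m0.val 0) := by
      refine Finset.filter_congr fun i _ => ?_
      rw [← hiff i m0]
      constructor
      · intro h
        have := dvd_sub h hm0'
        have e1 : EE N e i - y - (EE N e m0 - y) = EE N e i - EE N e m0 := by ring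
        rwa [e1] at this
      · intro h
        have := dvd_add h hm0'
        have e1 : EE N e i - EE N e m0 + (EE N e m0 - y) = EE N e i - y := by ring
        rwa [e1] at this
    rw [hfil] at hc
    have h56 : (5 : ℕ) ∣ 30 := by norm_num
    rcases hκ m0 hc with h | h
    · have h1 : Q ∣ EE N e 0 - EE N e m0 := (hiff 0 m0).2 h.symm
      have h2' : FullAt (EE N e) N 5 30 (EE N e 0) := by
        refine h5 (Fin 16) (EE N e) N 30 5 y (EE N e 0) hN h30 h56 ?_ hy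
        rw [hQ']
        have := dvd_add h1 hm0'
        have e1 : EE N e 0 - EE N e m0 + (EE N e m0 - y) = EE N e 0 - y := by ring
        rwa [e1] at this
      refine ⟨h2', ?_⟩
      have h4 := h6 N 30 5 e (EE N e 0) hN h30 (by norm_num) (by norm_num) (by norm_num) h56 h2'
      rwa [← hneg] at h4
    · have h1 : Q ∣ EE N e 7 - EE N e m0 := (hiff 7 m0).2 h.symm
      have h2' : FullAt (EE N e) N 5 30 (EE N e 7) := by
        refine h5 (Fin 16) (EE N e) N 30 5 y (EE N e 7) hN h30 h56 ?_ hy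
        rw [hQ']
        have := dvd_add h1 hm0'
        have e1 : EE N e 7 - EE N e m0 + (EE N e m0 - y) = EE N e 7 - y := by ring
        rwa [e1] at this
      refine ⟨?_, h2'⟩
      have h4 := h6 N 30 5 e (EE N e 7) hN h30 (by norm_num) (by norm_num) (by norm_num) h56 h2'
      rwa [hneg, neg_neg] at h4
  have hfive : ∀ m1 : Fin 16, FullAt (EE N e) N 5 30 (EE N e m1) →
      (univ.filter (fun n : Fin 16 => κ.getD n.val 0 = κ.getD m1.val 0)).card = 5 →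
      ∀ i : Fin 16, κ.getD i.val 0 = κ.getD m1.val 0 → 6 * Q ∣ EE N e i - EE N e m1 := by
    intro m1 hm1 hc1 i hi
    refine five N hN Q hQ hQ' (EE N e) m1 hm1 ?_ i ((hiff i m1).2 hi)
    rw [← hc1]
    congr 1
    exact Finset.filter_congr fun i _ => hiff i m1
  intro m n hmn
  obtain ⟨t, ht⟩ := EE_sub N Q h2 e m n
  have hdiv : 3 * Q ∣ EE N e m - EE N e n := by
    have hsix : ∀ m1 : Fin 16, (∀ i : Fin 16, κ.getD i.val 0 = κ.getD m1.val 0 →
        6 * Q ∣ EE N e i - EE N e m1) → κ.getD m.val 0 = κ.getD m1.val 0 →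
        3 * Q ∣ EE N e m - EE N e n := by
      intro m1 hall hm
      have ha := hall m hm
      have hb := hall n (hmn ▸ hm)
      have := dvd_sub ha hb
      have e1 : EE N e m - EE N e m1 - (EE N e n - EE N e m1) = EE N e m - EE N e n := by ring
      rw [e1] at this
      have h36 : 3 * Q ∣ 6 * Q := ⟨2, by ring⟩
      exact h36.trans this
    rcases hpair m with hm | hm | hm
    · exact hsix 0 (hfive 0 hfull.1 h0) hm
    · exact hsix 7 (hfive 7 hfull.2 h7) hm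
    · by_cases hmn' : m = n
      · rw [hmn', sub_self]
        exact dvd_zero _
      · have hfil : univ.filter (fun i => Q ∣ EE N e i - EE N e m) = {m, n} := by
          have hcard : (univ.filter (fun i => Q ∣ EE N e i - EE N e m)).card = 2 := by
            rw [← hm]
            congr 1
            exact Finset.filter_congr fun i _ => hiff i m
          symm
          apply Finset.eq_of_subset_of_card_le
          · intro i hi
            rw [Finset.mem_insert, Finset.mem_singleton] at hi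
            refine Finset.mem_filter.2 ⟨mem_univ _, ?_⟩
            rcases hi with rfl | rfl
            · rw [sub_self]
              exact dvd_zero _
            · exact (hiff _ _).2 hmn.symm
          · rw [hcard, Finset.card_pair hmn']
        have hz := hCS (EE N e m)
        rw [hQ', hfil, Finset.sum_pair hmn'] at hz
        have hz2 : z N (2 * EE N e m) = z N (2 * EE N e n) := by
          rw [z_dbl, z_dbl]
          have : z N (EE N e m) = - z N (EE N e n) := eq_neg_of_add_eq_zero_left hz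
          rw [this]
          ring
        obtain ⟨c, hc⟩ := z_eq hN hz2
        rw [hQ] at hc
        exact ⟨5 * c, by linarith⟩
  rw [ht] at hdiv
  have h15 : 3 * Q ∣ t * (15 * Q) := ⟨5 * t, by ring⟩
  exact (dvd_add_left h15).1 hdiv

theorem lat16 (R : ℤ) (e : Fin 6 → ℤ)
    (h0 : R ∣ dv 0 3 e)
    (h1 : R ∣ dv 0 5 e)
    (h2 : R ∣ dv 0 6 e)
    (h3 : R ∣ dv 0 15 e)
    (h4 : R ∣ dv 1 2 e)
    (h5 : R ∣ dv 1 4 e)
    (h6 : R ∣ dv 1 7 e)
    (h7 : R ∣ dv 1 8 e)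
    (h8 : R ∣ dv 9 10 e)
    (h9 : R ∣ dv 11 12 e)
    (h10 : R ∣ dv 13 14 e) :
    ∀ i, R ∣ 16 * e i := by
  rw [dv_eq 0 3 e (2) (2) (0) (0) (0) (0) (by decide)] at h0
  obtain ⟨c0, h0⟩ := h0
  rw [dv_eq 0 5 e (2) (0) (2) (0) (0) (0) (by decide)] at h1
  obtain ⟨c1, h1⟩ := h1
  rw [dv_eq 0 6 e (0) (2) (2) (0) (0) (0) (by decide)] at h2
  obtain ⟨c2, h2⟩ := h2
  rw [dv_eq 0 15 e (1) (1) (1) (1) (1) (1) (by decide)] at h3
  obtain ⟨c3, h3⟩ := h3
  rw [dv_eq 1 2 e (-2) (2) (0) (0) (0) (0) (by decide)] at h4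
  obtain ⟨c4, h4⟩ := h4
  rw [dv_eq 1 4 e (-2) (0) (2) (0) (0) (0) (by decide)] at h5
  obtain ⟨c5, h5⟩ := h5
  rw [dv_eq 1 7 e (0) (2) (2) (0) (0) (0) (by decide)] at h6
  obtain ⟨c6, h6⟩ := h6
  rw [dv_eq 1 8 e (-1) (1) (1) (-1) (-1) (-1) (by decide)] at h7
  obtain ⟨c7, h7⟩ := h7
  rw [dv_eq 9 10 e (0) (0) (0) (-2) (2) (0) (by decide)] at h8
  obtain ⟨c8, h8⟩ := h8
  rw [dv_eq 11 12 e (0) (0) (0) (-2) (-2) (2) (by decide)] at h9
  obtain ⟨c9, h9⟩ := h9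
  rw [dv_eq 13 14 e (0) (0) (0) (-2) (2) (0) (by decide)] at h10
  obtain ⟨c10, h10⟩ := h10
  intro i
  fin_cases i
  · refine ⟨(4) * c1 + (-4) * c5, ?_⟩
    show (16 : ℤ) * e 0 = _
    linear_combination (4) * h1 + (-4) * h5
  · refine ⟨(4) * c0 + (4) * c4, ?_⟩
    show (16 : ℤ) * e 1 = _
    linear_combination (4) * h0 + (4) * h4
  · refine ⟨(4) * c1 + (4) * c5, ?_⟩
    show (16 : ℤ) * e 2 = _
    linear_combination (4) * h1 + (4) * h5
  · refine ⟨(-1) * c0 + (-1) * c1 + (3) * c3 + (-1) * c7 + (-4) * c8 + (-2) * c9, ?_⟩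
    show (16 : ℤ) * e 3 = _
    linear_combination (-1) * h0 + (-1) * h1 + (3) * h3 + (-1) * h7 + (-4) * h8 + (-2) * h9
  · refine ⟨(-1) * c0 + (-1) * c1 + (3) * c3 + (-1) * c7 + (4) * c8 + (-2) * c9, ?_⟩
    show (16 : ℤ) * e 4 = _
    linear_combination (-1) * h0 + (-1) * h1 + (3) * h3 + (-1) * h7 + (4) * h8 + (-2) * h9
  · refine ⟨(-2) * c0 + (-2) * c1 + (6) * c3 + (-2) * c7 + (4) * c9, ?_⟩
    show (16 : ℤ) * e 5 = _
    linear_combination (-2) * h0 + (-2) * h1 + (6) * h3 + (-2) * h7 + (4) * h9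

theorem lat12 (R : ℤ) (e : Fin 6 → ℤ)
    (h0 : R ∣ dv 0 3 e)
    (h1 : R ∣ dv 0 5 e)
    (h2 : R ∣ dv 0 12 e)
    (h3 : R ∣ dv 0 15 e)
    (h4 : R ∣ dv 1 6 e)
    (h5 : R ∣ dv 2 4 e)
    (h6 : R ∣ dv 2 7 e)
    (h7 : R ∣ dv 2 8 e)
    (h8 : R ∣ dv 2 11 e)
    (h9 : R ∣ dv 9 10 e)
    (h10 : R ∣ dv 13 14 e) :
    ∀ i, R ∣ 12 * e i := by
  rw [dv_eq 0 3 e (2) (2) (0) (0) (0) (0) (by decide)] at h0
  obtain ⟨c0, h0⟩ := h0
  rw [dv_eq 0 5 e (2) (0) (2) (0) (0) (0) (by decide)] at h1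
  obtain ⟨c1, h1⟩ := h1
  rw [dv_eq 0 12 e (1) (1) (1) (-1) (-1) (1) (by decide)] at h2
  obtain ⟨c2, h2⟩ := h2
  rw [dv_eq 0 15 e (1) (1) (1) (1) (1) (1) (by decide)] at h3
  obtain ⟨c3, h3⟩ := h3
  rw [dv_eq 1 6 e (-2) (2) (2) (0) (0) (0) (by decide)] at h4
  obtain ⟨c4, h4⟩ := h4
  rw [dv_eq 2 4 e (0) (-2) (2) (0) (0) (0) (by decide)] at h5
  obtain ⟨c5, h5⟩ := h5
  rw [dv_eq 2 7 e (2) (0) (2) (0) (0) (0) (by decide)] at h6
  obtain ⟨c6, h6⟩ := h6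
  rw [dv_eq 2 8 e (1) (-1) (1) (-1) (-1) (-1) (by decide)] at h7
  obtain ⟨c7, h7⟩ := h7
  rw [dv_eq 2 11 e (1) (-1) (1) (1) (1) (-1) (by decide)] at h8
  obtain ⟨c8, h8⟩ := h8
  rw [dv_eq 9 10 e (0) (0) (0) (-2) (2) (0) (by decide)] at h9
  obtain ⟨c9, h9⟩ := h9
  rw [dv_eq 13 14 e (0) (0) (0) (-2) (2) (0) (by decide)] at h10
  obtain ⟨c10, h10⟩ := h10
  intro i
  fin_cases i
  · refine ⟨(2) * c0 + (2) * c1 + (-2) * c4, ?_⟩
    show (12 : ℤ) * e 0 = _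
    linear_combination (2) * h0 + (2) * h1 + (-2) * h4
  · refine ⟨(2) * c0 + (2) * c4 + (-2) * c5, ?_⟩
    show (12 : ℤ) * e 1 = _
    linear_combination (2) * h0 + (2) * h4 + (-2) * h5
  · refine ⟨(2) * c1 + (2) * c4 + (2) * c5, ?_⟩
    show (12 : ℤ) * e 2 = _
    linear_combination (2) * h1 + (2) * h4 + (2) * h5
  · refine ⟨(-3) * c2 + (3) * c3 + (-3) * c9, ?_⟩
    show (12 : ℤ) * e 3 = _
    linear_combination (-3) * h2 + (3) * h3 + (-3) * h9
  · refine ⟨(-3) * c2 + (3) * c3 + (3) * c9, ?_⟩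
    show (12 : ℤ) * e 4 = _
    linear_combination (-3) * h2 + (3) * h3 + (3) * h9
  · refine ⟨(-4) * c0 + (4) * c2 + (4) * c3 + (-2) * c4 + (-2) * c7 + (-2) * c8, ?_⟩
    show (12 : ℤ) * e 5 = _
    linear_combination (-4) * h0 + (4) * h2 + (4) * h3 + (-2) * h4 + (-2) * h7 + (-2) * h8

theorem lat10 (R : ℤ) (e : Fin 6 → ℤ)
    (h0 : R ∣ dv 0 3 e)
    (h1 : R ∣ dv 0 5 e)
    (h2 : R ∣ dv 0 12 e)
    (h3 : R ∣ dv 0 15 e)
    (h4 : R ∣ dv 1 10 e)
    (h5 : R ∣ dv 2 4 e)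
    (h6 : R ∣ dv 2 7 e)
    (h7 : R ∣ dv 2 8 e)
    (h8 : R ∣ dv 2 11 e)
    (h9 : R ∣ dv 6 13 e)
    (h10 : R ∣ dv 9 14 e) :
    ∀ i, R ∣ 10 * e i := by
  rw [dv_eq 0 3 e (2) (2) (0) (0) (0) (0) (by decide)] at h0
  obtain ⟨c0, h0⟩ := h0
  rw [dv_eq 0 5 e (2) (0) (2) (0) (0) (0) (by decide)] at h1
  obtain ⟨c1, h1⟩ := h1
  rw [dv_eq 0 12 e (1) (1) (1) (-1) (-1) (1) (by decide)] at h2
  obtain ⟨c2, h2⟩ := h2
  rw [dv_eq 0 15 e (1) (1) (1) (1) (1) (1) (by decide)] at h3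
  obtain ⟨c3, h3⟩ := h3
  rw [dv_eq 1 10 e (-1) (1) (1) (-1) (1) (-1) (by decide)] at h4
  obtain ⟨c4, h4⟩ := h4
  rw [dv_eq 2 4 e (0) (-2) (2) (0) (0) (0) (by decide)] at h5
  obtain ⟨c5, h5⟩ := h5
  rw [dv_eq 2 7 e (2) (0) (2) (0) (0) (0) (by decide)] at h6
  obtain ⟨c6, h6⟩ := h6
  rw [dv_eq 2 8 e (1) (-1) (1) (-1) (-1) (-1) (by decide)] at h7
  obtain ⟨c7, h7⟩ := h7
  rw [dv_eq 2 11 e (1) (-1) (1) (1) (1) (-1) (by decide)] at h8
  obtain ⟨c8, h8⟩ := h8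
  rw [dv_eq 6 13 e (1) (-1) (-1) (1) (-1) (1) (by decide)] at h9
  obtain ⟨c9, h9⟩ := h9
  rw [dv_eq 9 14 e (0) (0) (0) (-2) (2) (2) (by decide)] at h10
  obtain ⟨c10, h10⟩ := h10
  intro i
  fin_cases i
  · refine ⟨(3) * c0 + (-1) * c2 + (-2) * c4 + (2) * c7 + (1) * c8 + (1) * c10, ?_⟩
    show (10 : ℤ) * e 0 = _
    linear_combination (3) * h0 + (-1) * h2 + (-2) * h4 + (2) * h7 + (1) * h8 + (1) * h10
  · refine ⟨(1) * c0 + (1) * c2 + (1) * c3 + (2) * c4 + (-1) * c5 + (-1) * c7 + (-1) * c8 + (-1) * c10, ?_⟩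
    show (10 : ℤ) * e 1 = _
    linear_combination (1) * h0 + (1) * h2 + (1) * h3 + (2) * h4 + (-1) * h5 + (-1) * h7 + (-1) * h8 + (-1) * h10
  · refine ⟨(-1) * c0 + (2) * c2 + (2) * c3 + (2) * c4 + (2) * c5 + (-1) * c10, ?_⟩
    show (10 : ℤ) * e 2 = _
    linear_combination (-1) * h0 + (2) * h2 + (2) * h3 + (2) * h4 + (2) * h5 + (-1) * h10
  · refine ⟨(-1) * c0 + (-1) * c2 + (3) * c3 + (-1) * c4 + (-1) * c7 + (-2) * c10, ?_⟩
    show (10 : ℤ) * e 3 = _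
    linear_combination (-1) * h0 + (-1) * h2 + (3) * h3 + (-1) * h4 + (-1) * h7 + (-2) * h10
  · refine ⟨(1) * c0 + (-3) * c2 + (1) * c3 + (1) * c4 + (1) * c8 + (2) * c10, ?_⟩
    show (10 : ℤ) * e 4 = _
    linear_combination (1) * h0 + (-3) * h2 + (1) * h3 + (1) * h4 + (1) * h8 + (2) * h10
  · refine ⟨(-2) * c0 + (2) * c2 + (2) * c3 + (-2) * c4 + (-1) * c7 + (-1) * c8 + (1) * c10, ?_⟩
    show (10 : ℤ) * e 5 = _
    linear_combination (-2) * h0 + (2) * h2 + (2) * h3 + (-2) * h4 + (-1) * h7 + (-1) * h8 + (1) * h10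

theorem fin_step (N : ℕ) (e : Fin 6 → ℤ) (Q : ℤ) (hN : 0 < N) (hQ : (N : ℤ) = 30 * Q) (F : ℤ)
    (hF : 0 < F) (h : ∀ i, 3 * Q ∣ (2 * F) * e i) :
    ∀ i, ∃ k : ℤ, yy N e i = k / (5 * (2 * F) : ℤ) := by
  intro i
  obtain ⟨c, hc⟩ := h i
  refine ⟨5 * F - c, ?_⟩
  unfold yy
  have hQpos : 0 < Q := by
    have : (0 : ℤ) < N := by exact_mod_cast hN
    omega
  have hNr : (N : ℝ) = 30 * (Q : ℝ) := by exact_mod_cast hQ
  have hQr : (Q : ℝ) ≠ 0 := by exact_mod_cast hQpos.ne'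
  have hFr : (F : ℝ) ≠ 0 := by exact_mod_cast hF.ne'
  have hcr : 2 * (F : ℝ) * (e i : ℝ) = 3 * (Q : ℝ) * (c : ℝ) := by exact_mod_cast hc
  have he : (e i : ℝ) = 3 * (Q : ℝ) * (c : ℝ) / (2 * (F : ℝ)) := by
    field_simp
    linarith
  rw [hNr, he]
  push_cast
  field_simp
  ring

end ModXR

open Finset in
theorem xr (h3 : StmtA3) (h5 : StmtA5) (h6 : StmtA6) : StmtXR := by
  intro N e x hN h60060 hCS hF hx hEx
  have h30 : 30 ∣ N := (by norm_num : 30 ∣ 60060).trans h60060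
  obtain ⟨q, hq⟩ := h30
  have hq1 : N / 30 = q := by omega
  have hq2 : N / 2 = 15 * q := by omega
  have hQ' : ((N / 30 : ℕ) : ℤ) = (q : ℤ) := by rw [hq1]
  have h2 : ((N / 2 : ℕ) : ℤ) = 15 * (q : ℤ) := by rw [hq2]; push_cast; ring
  have hQ : (N : ℤ) = 30 * (q : ℤ) := by rw [hq]; push_cast; ring
  rw [hQ'] at hEx
  simp only [List.mem_cons, List.mem_nil_iff, or_false] at hx
  rcases hx with rfl | rfl | rfl
  · have hc := ModXR.core h3 h5 h6 N e _ (q : ℤ) hN ⟨q, hq⟩ hQ hQ' h2 hCS hF hEx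
      (by decide) (by decide) (by decide) (by decide)
    exact ModXR.fin_step N e q hN hQ 8 (by norm_num) (ModXR.lat16 _ e
      (hc 0 3 (by decide)) (hc 0 5 (by decide)) (hc 0 6 (by decide)) (hc 0 15 (by decide)) (hc 1 2 (by decide)) (hc 1 4 (by decide)) (hc 1 7 (by decide)) (hc 1 8 (by decide)) (hc 9 10 (by decide)) (hc 11 12 (by decide)) (hc 13 14 (by decide)))
  · have hc := ModXR.core h3 h5 h6 N e _ (q : ℤ) hN ⟨q, hq⟩ hQ hQ' h2 hCS hF hEx
      (by decide) (by decide) (by decide) (by decide)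
    exact ModXR.fin_step N e q hN hQ 6 (by norm_num) (ModXR.lat12 _ e
      (hc 0 3 (by decide)) (hc 0 5 (by decide)) (hc 0 12 (by decide)) (hc 0 15 (by decide)) (hc 1 6 (by decide)) (hc 2 4 (by decide)) (hc 2 7 (by decide)) (hc 2 8 (by decide)) (hc 2 11 (by decide)) (hc 9 10 (by decide)) (hc 13 14 (by decide)))
  · have hc := ModXR.core h3 h5 h6 N e _ (q : ℤ) hN ⟨q, hq⟩ hQ hQ' h2 hCS hF hEx
      (by decide) (by decide) (by decide) (by decide)
    exact ModXR.fin_step N e q hN hQ 5 (by norm_num) (ModXR.lat10 _ e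
      (hc 0 3 (by decide)) (hc 0 5 (by decide)) (hc 0 12 (by decide)) (hc 0 15 (by decide)) (hc 1 10 (by decide)) (hc 2 4 (by decide)) (hc 2 7 (by decide)) (hc 2 8 (by decide)) (hc 2 11 (by decide)) (hc 6 13 (by decide)) (hc 9 14 (by decide)))

end Pool.Agent.T6.H31.TC
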