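import Pool.Agent.T6.H31.TC.A1
import Pool.Agent.T6.H31.TC.A2
import Pool.Agent.T6.H31.TC.A3
import Pool.Agent.T6.H31.TC.U
import Pool.Agent.T6.H31.TC.CR
import Pool.Agent.T6.H31.TC.B012
import Pool.Agent.T6.H31.TC.C0
import Pool.Agent.T6.H31.TC.X1
import Pool.Agent.T6.H31.TC.X2
import Pool.Agent.T6.H31.TC.X3
import Pool.Agent.T6.H31.TC.X4
import Pool.Agent.T6.H31.TC.X5
import Pool.Agent.T6.H31.TC.XR
import Pool.Agent.T6.H31.TC.LV
import Pool.Agent.T6.H31.TC.MP
import Pool.Agent.T6.H31.TC.ML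
import Pool.Agent.T6.H31.TC.L0
import Pool.Agent.T6.H31.TC.LA
import Pool.Agent.T6.H31.TC.LB
import Pool.Agent.T6.H31.TC.LC
import Pool.Agent.T6.H31.TC.LD
import Pool.Agent.T6.H31.TC.LE
import Pool.Agent.T6.H31.TC.INV
import Pool.Agent.T6.H31.TC.CT
import Pool.Agent.T6.H31.TC.RV
import Pool.Agent.T6.H31.TC.RV2
import Pool.Agent.T6.H31.TC.FM
import Pool.Agent.T6.H31.TC.DAG4
import Pool.Agent.T6.H31.TC.Dag
import Pool.Agent.T6.H31.TC.FIN2
import Pool.Agent.T6.H31.TC.FinK48
import Pool.Agent.T6.H31.TC.FinK50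
import Pool.Agent.T6.H31.TC.FinK54
import Pool.Agent.T6.H31.TC.FinK72
import Pool.Agent.T6.H31.TC.FinK78
import Pool.Agent.T6.H31.TC.FinK80
import Pool.Agent.T6.H31.TC.FinK120
import Pool.Agent.T6.H31.TC.FinK126
import Pool.Agent.T6.H31.TC.FinK132
import Pool.Agent.T6.H31.TC.FinK168
import Pool.Agent.T6.H31.TC.FinK180
import Pool.Agent.T6.H31.TC.FinK210
import Pool.Agent.T6.H31.TC.FinK420m

set_option autoImplicit false

/-! Assembly of the classification. -/

namespace Pool.Agent.T6.H31.TC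

theorem levels : ∀ L ∈ Levels, FINst L := by
  intro L hL
  unfold Levels at hL
  simp only [List.mem_cons, List.not_mem_nil, or_false] at hL
  rcases hL with rfl | rfl | rfl | rfl | rfl | rfl | rfl | rfl | rfl | rfl | rfl | rfl
  · exact FC.K48.st
  · exact FC.K50.st
  · exact FC.K54.st
  · exact FC.K72.st
  · exact FC.K78.st
  · exact FC.K80.st
  · exact FC.K120.st
  · exact FC.K126.st
  · exact FC.K132.st
  · exact FC.K168.st
  · exact FC.K180.st
  · exact FC.K210.st

theorem lines (m2 : StmtM2) : ∀ w ∈ Wl, LineSt w := by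
  intro w hw
  have hA := la l0
  have hB := lb l0 m2
  have hC := lc l0
  have hD := ld l0
  have hE := le l0
  unfold Wl at hw
  simp only [List.mem_cons, List.not_mem_nil, or_false] at hw
  rcases hw with h | h | h | h | h | h | h | h | h | h | h | h | h | h | h | h | h | h | h <;>
    subst h
  · exact hA _ (by simp)
  · exact hA _ (by simp)
  · exact hA _ (by simp)
  · exact hB _ (by simp)
  · exact hB _ (by simp)
  · exact hB _ (by simp)
  · exact hA _ (by simp)
  · exact hA _ (by simp)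
  · exact hC _ (by simp)
  · exact hA _ (by simp)
  · exact hC _ (by simp)
  · exact hA _ (by simp)
  · exact hD _ (by simp)
  · exact hD _ (by simp)
  · exact hE _ (by simp)
  · exact hD _ (by simp)
  · exact hE _ (by simp)
  · exact hE _ (by simp)
  · exact hE _ (by simp)

theorem a4' : StmtA4 := a4 a1 a2 a3

theorem cr' : StmtCR := cr u

theorem m2 : StmtM2 := fm2 (mp a3 a4' a5 cr' dag4) ml (fin2_60 FC.fkey2) (fin2_42 FC.fkey2)

theorem lv' : StmtLV := lv a3 a4' b1 b2 c0 dag x0 (x1 a3 a5 a6 cr') (x2 a3 a5 cr')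
  (x3 a3 a5 u cr') (x4 a3 a5 cr') (x5 a5 cr') (x6 a3 a5 a6 cr') (xr a3 a5 a6)

/-- the classification of the rational solutions -/
theorem main : StmtMain :=
  fm i1 i2 b0 lv' (lines m2) levels FC.K420m.st (ct m2 i2) (rv rv1 rv2 rv3)

end Pool.Agent.T6.H31.TC
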