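import Pool.Agent.T6.H31.TC.RV

set_option autoImplicit false

/-!
Module RV2 of the project TC (MP_6e4ab6_nt), basis: three sines and cyclotomic polynomials.
-/

namespace Pool.Agent.T6.H31.TC

open Finset INVx RVx

namespace RV2x

theorem key (θ : ℝ) (s u : ℂ) (hu : u = Complex.exp ((θ : ℂ) * Complex.I))
    (hs : s = Complex.exp (((2 * θ : ℝ) : ℂ) * Complex.I)) (k : ℕ) :
    s ^ k - 1 = u ^ k * (2 * Complex.I * ((Real.sin ((k : ℝ) * θ) : ℝ) : ℂ)) := by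
  have hsu : s = u ^ 2 := by
    rw [hs, hu, ← Complex.exp_nat_mul]
    congr 1
    push_cast
    ring
  have h1 : u ^ k = Complex.exp (((((k : ℝ) * θ : ℝ)) : ℂ) * Complex.I) := by
    rw [hu, ← Complex.exp_nat_mul]
    congr 1
    push_cast
    ring
  have h2 : u ^ k * Complex.exp (-((((k : ℝ) * θ : ℝ)) : ℂ) * Complex.I) = 1 := by
    rw [h1, ← Complex.exp_add, neg_mul, add_neg_cancel, Complex.exp_zero]
  rw [hsu, ← pow_mul, mul_comm 2 k, pow_mul, Complex.ofReal_sin, Complex.sin]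
  have h3 : u ^ k * (2 * Complex.I * ((Complex.exp (-((((k : ℝ) * θ : ℝ)) : ℂ) * Complex.I) -
      Complex.exp (((((k : ℝ) * θ : ℝ)) : ℂ) * Complex.I)) * Complex.I / 2)) =
      Complex.I ^ 2 * (u ^ k * Complex.exp (-((((k : ℝ) * θ : ℝ)) : ℂ) * Complex.I) -
        u ^ k * Complex.exp (((((k : ℝ) * θ : ℝ)) : ℂ) * Complex.I)) := by
    ring
  rw [h3, h2, ← h1, Complex.I_sq]
  ring

theorem three_sine (a b c d e f m : ℕ) (hm : a + b + c = d + e + f + 2 * m) (θ : ℝ) (s : ℂ)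
    (hs : s = Complex.exp (((2 * θ : ℝ) : ℂ) * Complex.I))
    (h : (s ^ a - 1) * (s ^ b - 1) * (s ^ c - 1) =
      s ^ m * ((s ^ d - 1) * (s ^ e - 1) * (s ^ f - 1))) :
    Real.sin ((a : ℝ) * θ) * Real.sin ((b : ℝ) * θ) * Real.sin ((c : ℝ) * θ) =
      Real.sin ((d : ℝ) * θ) * Real.sin ((e : ℝ) * θ) * Real.sin ((f : ℝ) * θ) := by
  obtain ⟨u, hu⟩ : ∃ u : ℂ, u = Complex.exp ((θ : ℂ) * Complex.I) := ⟨_, rfl⟩
  have hu0 : u ≠ 0 := by rw [hu]; exact Complex.exp_ne_zero _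
  have hsu : s = u ^ 2 := by
    rw [hs, hu, ← Complex.exp_nat_mul]
    congr 1
    push_cast
    ring
  rw [key θ s u hu hs, key θ s u hu hs, key θ s u hu hs, key θ s u hu hs, key θ s u hu hs,
    key θ s u hu hs, hsu] at h
  have h4 : (u ^ (a + b + c) * (2 * Complex.I) ^ 3) *
      (((Real.sin ((a : ℝ) * θ) : ℝ) : ℂ) * ((Real.sin ((b : ℝ) * θ) : ℝ) : ℂ) *
        ((Real.sin ((c : ℝ) * θ) : ℝ) : ℂ)) =
      (u ^ (a + b + c) * (2 * Complex.I) ^ 3) *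
      (((Real.sin ((d : ℝ) * θ) : ℝ) : ℂ) * ((Real.sin ((e : ℝ) * θ) : ℝ) : ℂ) *
        ((Real.sin ((f : ℝ) * θ) : ℝ) : ℂ)) := by
    calc _ = (u ^ a * (2 * Complex.I * ((Real.sin ((a : ℝ) * θ) : ℝ) : ℂ))) *
          (u ^ b * (2 * Complex.I * ((Real.sin ((b : ℝ) * θ) : ℝ) : ℂ))) *
          (u ^ c * (2 * Complex.I * ((Real.sin ((c : ℝ) * θ) : ℝ) : ℂ))) := by
            rw [pow_add, pow_add]; ring
      _ = _ := by
            rw [h, hm, ← pow_mul, pow_add, pow_add, pow_add]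
            ring
  have h5 : u ^ (a + b + c) * (2 * Complex.I) ^ 3 ≠ 0 :=
    mul_ne_zero (pow_ne_zero _ hu0)
      (pow_ne_zero _ (mul_ne_zero two_ne_zero Complex.I_ne_zero))
  exact_mod_cast mul_left_cancel₀ h5 h4

theorem sol6_of (N a b c d e f : ℕ) (t : ℤ)
    (h : Real.sin ((a : ℝ) * th N t) * Real.sin ((b : ℝ) * th N t) *
        Real.sin ((c : ℝ) * th N t) =
      Real.sin ((d : ℝ) * th N t) * Real.sin ((e : ℝ) * th N t) *
        Real.sin ((f : ℝ) * th N t)) :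
    SolY (spv (N, [a, b, c, d, e, f]) t) := by
  have hk : ∀ k : ℕ, Real.pi * ((t : ℝ) * (k : ℝ) / (N : ℝ)) = (k : ℝ) * th N t := by
    intro k
    rw [th]
    ring
  show |Real.sin (Real.pi * ((t : ℝ) * (a : ℝ) / (N : ℝ))) *
      Real.sin (Real.pi * ((t : ℝ) * (b : ℝ) / (N : ℝ))) *
      Real.sin (Real.pi * ((t : ℝ) * (c : ℝ) / (N : ℝ)))| =
    |Real.sin (Real.pi * ((t : ℝ) * (d : ℝ) / (N : ℝ))) *
      Real.sin (Real.pi * ((t : ℝ) * (e : ℝ) / (N : ℝ))) *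
      Real.sin (Real.pi * ((t : ℝ) * (f : ℝ) / (N : ℝ)))|
  rw [hk, hk, hk, hk, hk, hk, h]

theorem half {s : ℂ} {k : ℕ} (hk : 0 < k) (hs : IsPrimitiveRoot s (2 * k)) : s ^ k + 1 = 0 := by
  have h1 : s ^ (2 * k) = 1 := hs.pow_eq_one
  have h2 : s ^ k ≠ 1 := fun h => by
    have := Nat.le_of_dvd hk ((hs.pow_eq_one_iff_dvd k).1 h)
    omega
  have h4 : (s ^ k - 1) * (s ^ k + 1) = 0 := by
    rw [two_mul, pow_add] at h1
    linear_combination h1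
  rcases mul_eq_zero.1 h4 with h5 | h5
  · exact absurd (sub_eq_zero.1 h5) h2
  · exact h5

theorem nhalf {s : ℂ} {k j : ℕ} (hj : 0 < j) (hjk : j < k) (hs : IsPrimitiveRoot s (2 * k)) :
    s ^ j + 1 ≠ 0 := by
  intro h
  have h1 : s ^ (j + j) = 1 := by
    rw [pow_add]
    linear_combination (s ^ j - 1) * h
  have := Nat.le_of_dvd (by omega) ((hs.pow_eq_one_iff_dvd (j + j)).1 h1)
  omega

theorem phi66 {s : ℂ} (hs : IsPrimitiveRoot s 66) :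
    1 + s - s ^ 3 - s ^ 4 + s ^ 6 + s ^ 7 - s ^ 9 - s ^ 10 - s ^ 11 + s ^ 13 + s ^ 14 - s ^ 16 -
      s ^ 17 + s ^ 19 + s ^ 20 = 0 := by
  have h := half (k := 33) (by norm_num) hs
  have h1 := nhalf (k := 33) (j := 11) (by norm_num) (by norm_num) hs
  have h2 := nhalf (k := 33) (j := 3) (by norm_num) (by norm_num) hs
  have h3 : ((s ^ 11 + 1) * (s ^ 3 + 1)) * (1 + s - s ^ 3 - s ^ 4 + s ^ 6 + s ^ 7 - s ^ 9 - s ^ 10 - s ^ 11 + s ^ 13 + s ^ 14 - s ^ 16 -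
      s ^ 17 + s ^ 19 + s ^ 20) = 0 := by
    linear_combination (s + 1) * h
  rcases mul_eq_zero.1 h3 with h4 | h4
  · exact absurd h4 (mul_ne_zero h1 h2)
  · exact h4

theorem phi70 {s : ℂ} (hs : IsPrimitiveRoot s 70) :
    1 + s - s ^ 5 - s ^ 6 - s ^ 7 - s ^ 8 + s ^ 10 + s ^ 11 + s ^ 12 + s ^ 13 + s ^ 14 -
      s ^ 16 - s ^ 17 - s ^ 18 - s ^ 19 + s ^ 23 + s ^ 24 = 0 := by
  have h := half (k := 35) (by norm_num) hs
  have h1 := nhalf (k := 35) (j := 7) (by norm_num) (by norm_num) hs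
  have h2 := nhalf (k := 35) (j := 5) (by norm_num) (by norm_num) hs
  have h3 : ((s ^ 7 + 1) * (s ^ 5 + 1)) * (1 + s - s ^ 5 - s ^ 6 - s ^ 7 - s ^ 8 + s ^ 10 + s ^ 11 + s ^ 12 + s ^ 13 + s ^ 14 -
      s ^ 16 - s ^ 17 - s ^ 18 - s ^ 19 + s ^ 23 + s ^ 24) = 0 := by
    linear_combination (s + 1) * h
  rcases mul_eq_zero.1 h3 with h4 | h4
  · exact absurd h4 (mul_ne_zero h1 h2)
  · exact h4

theorem phi210 {s : ℂ} (hs : IsPrimitiveRoot s 210) :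
    1 - s + s ^ 2 + s ^ 5 - s ^ 6 + 2*s ^ 7 - s ^ 8 + s ^ 9 + s ^ 12 - s ^ 13 + s ^ 14 -
      s ^ 15 + s ^ 16 - s ^ 17 - s ^ 20 - s ^ 22 - s ^ 24 - s ^ 26 - s ^ 28 - s ^ 31 + s ^ 32 -
      s ^ 33 + s ^ 34 - s ^ 35 + s ^ 36 + s ^ 39 - s ^ 40 + 2*s ^ 41 - s ^ 42 + s ^ 43 + s ^ 46 -
      s ^ 47 + s ^ 48 = 0 := by
  have h := half (k := 105) (by norm_num) hs
  have h1 := nhalf (k := 105) (j := 35) (by norm_num) (by norm_num) hs
  have h2 := nhalf (k := 105) (j := 21) (by norm_num) (by norm_num) hs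
  have h5 := nhalf (k := 105) (j := 15) (by norm_num) (by norm_num) hs
  have h6 := nhalf (k := 105) (j := 1) (by norm_num) (by norm_num) hs
  have h3 : ((s ^ 35 + 1) * (s ^ 21 + 1) * (s ^ 15 + 1) * (s ^ 1 + 1)) * (1 - s + s ^ 2 + s ^ 5 - s ^ 6 + 2*s ^ 7 - s ^ 8 + s ^ 9 + s ^ 12 - s ^ 13 + s ^ 14 -
      s ^ 15 + s ^ 16 - s ^ 17 - s ^ 20 - s ^ 22 - s ^ 24 - s ^ 26 - s ^ 28 - s ^ 31 + s ^ 32 -
      s ^ 33 + s ^ 34 - s ^ 35 + s ^ 36 + s ^ 39 - s ^ 40 + 2*s ^ 41 - s ^ 42 + s ^ 43 + s ^ 46 -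
      s ^ 47 + s ^ 48) = 0 := by
    linear_combination ((s ^ 7 + 1) * (s ^ 5 + 1) * (s ^ 3 + 1)) * h
  rcases mul_eq_zero.1 h3 with h4 | h4
  · exact absurd h4 (mul_ne_zero (mul_ne_zero (mul_ne_zero h1 h2) h5) h6)
  · exact h4


end RV2x

end Pool.Agent.T6.H31.TC
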