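import Pool.Agent.T6.H31.TC.RV2b

set_option autoImplicit false

/-! Module RV2 of the project TC (MP_6e4ab6_nt): sporadic solutions, part 1. -/

namespace Pool.Agent.T6.H31.TC

open Finset INVx RVx

namespace RV2x

theorem sp0 (t : ℤ) (ht : IsCoprime t ((30 : ℕ) : ℤ)) :
    SolY (spv (30, [1, 3, 7, 2, 2, 5]) t) := by
  obtain ⟨s, hs⟩ : ∃ s : ℂ, s = Complex.exp (((2 * th 30 t : ℝ) : ℂ) * Complex.I) := ⟨_, rfl⟩
  have h := phi30 (prim 30 (by norm_num) t ht s hs)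
  refine sol6_of 30 1 3 7 2 2 5 t ?_
  exact three_sine 1 3 7 2 2 5 1 (by norm_num) (th 30 t) s hs (by
    linear_combination (-1 + 3*s - 3*s^2 + s^3) * h)

theorem sp1 (t : ℤ) (ht : IsCoprime t ((30 : ℕ) : ℤ)) :
    SolY (spv (30, [1, 5, 5, 2, 3, 4]) t) := by
  obtain ⟨s, hs⟩ : ∃ s : ℂ, s = Complex.exp (((2 * th 30 t : ℝ) : ℂ) * Complex.I) := ⟨_, rfl⟩
  have h := phi30 (prim 30 (by norm_num) t ht s hs)
  refine sol6_of 30 1 5 5 2 3 4 t ?_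
  exact three_sine 1 5 5 2 3 4 1 (by norm_num) (th 30 t) s hs (by
    linear_combination (-1 + 3*s - 3*s^2 + s^3) * h)

theorem sp2 (t : ℤ) (ht : IsCoprime t ((30 : ℕ) : ℤ)) :
    SolY (spv (30, [1, 5, 7, 2, 2, 9]) t) := by
  obtain ⟨s, hs⟩ : ∃ s : ℂ, s = Complex.exp (((2 * th 30 t : ℝ) : ℂ) * Complex.I) := ⟨_, rfl⟩
  have h := phi30 (prim 30 (by norm_num) t ht s hs)
  refine sol6_of 30 1 5 7 2 2 9 t ?_
  exact three_sine 1 5 7 2 2 9 0 (by norm_num) (th 30 t) s hs (by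
    linear_combination (s - 3*s^2 + 3*s^3 - s^4) * h)

theorem sp3 (t : ℤ) (ht : IsCoprime t ((30 : ℕ) : ℤ)) :
    SolY (spv (30, [1, 5, 8, 3, 3, 4]) t) := by
  obtain ⟨s, hs⟩ : ∃ s : ℂ, s = Complex.exp (((2 * th 30 t : ℝ) : ℂ) * Complex.I) := ⟨_, rfl⟩
  have h := phi30 (prim 30 (by norm_num) t ht s hs)
  refine sol6_of 30 1 5 8 3 3 4 t ?_
  exact three_sine 1 5 8 3 3 4 2 (by norm_num) (th 30 t) s hs (by
    linear_combination (-1 + 2*s - s^2 + s^4 - 2*s^5 + s^6) * h)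

theorem sp4 (t : ℤ) (ht : IsCoprime t ((30 : ℕ) : ℤ)) :
    SolY (spv (30, [1, 5, 9, 2, 2, 13]) t) := by
  obtain ⟨s, hs⟩ : ∃ s : ℂ, s = Complex.exp (((2 * th 30 t : ℝ) : ℂ) * Complex.I) := ⟨_, rfl⟩
  have h := phi30 (prim 30 (by norm_num) t ht s hs)
  refine sol6_of 30 1 5 9 2 2 13 t ?_
  exact (three_sine 2 2 13 1 5 9 1 (by norm_num) (th 30 t) s hs (by
    linear_combination (-1 + 2*s - s^2 + s^7 - 2*s^8 + s^9) * h)).symm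

theorem sp5 (t : ℤ) (ht : IsCoprime t ((30 : ℕ) : ℤ)) :
    SolY (spv (30, [1, 5, 11, 2, 3, 8]) t) := by
  obtain ⟨s, hs⟩ : ∃ s : ℂ, s = Complex.exp (((2 * th 30 t : ℝ) : ℂ) * Complex.I) := ⟨_, rfl⟩
  have h := phi30 (prim 30 (by norm_num) t ht s hs)
  refine sol6_of 30 1 5 11 2 3 8 t ?_
  exact three_sine 1 5 11 2 3 8 2 (by norm_num) (th 30 t) s hs (by
    linear_combination (-1 + 2*s - s^2 + s^7 - 2*s^8 + s^9) * h)

theorem sp6 (t : ℤ) (ht : IsCoprime t ((30 : ℕ) : ℤ)) :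
    SolY (spv (30, [1, 7, 11, 2, 3, 14]) t) := by
  obtain ⟨s, hs⟩ : ∃ s : ℂ, s = Complex.exp (((2 * th 30 t : ℝ) : ℂ) * Complex.I) := ⟨_, rfl⟩
  have h := phi30 (prim 30 (by norm_num) t ht s hs)
  refine sol6_of 30 1 7 11 2 3 14 t ?_
  exact three_sine 1 7 11 2 3 14 0 (by norm_num) (th 30 t) s hs (by
    linear_combination (s - 2*s^2 + s^3 - s^8 + 2*s^9 - s^10) * h)

theorem sp7 (t : ℤ) (ht : IsCoprime t ((30 : ℕ) : ℤ)) :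
    SolY (spv (30, [1, 8, 14, 3, 3, 9]) t) := by
  obtain ⟨s, hs⟩ : ∃ s : ℂ, s = Complex.exp (((2 * th 30 t : ℝ) : ℂ) * Complex.I) := ⟨_, rfl⟩
  have h := phi30 (prim 30 (by norm_num) t ht s hs)
  refine sol6_of 30 1 8 14 3 3 9 t ?_
  exact three_sine 1 8 14 3 3 9 4 (by norm_num) (th 30 t) s hs (by
    linear_combination (-1 + 2*s - 2*s^2 + s^3 + s^4 - 2*s^5 + 3*s^6 - 4*s^7 + 4*s^8 - 3*s^9 + 2*s^10 - s^11 -
      s^12 + 2*s^13 - 2*s^14 + s^15) * h)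

theorem sp8 (t : ℤ) (ht : IsCoprime t ((30 : ℕ) : ℤ)) :
    SolY (spv (30, [1, 8, 14, 3, 5, 5]) t) := by
  obtain ⟨s, hs⟩ : ∃ s : ℂ, s = Complex.exp (((2 * th 30 t : ℝ) : ℂ) * Complex.I) := ⟨_, rfl⟩
  have h := phi30 (prim 30 (by norm_num) t ht s hs)
  refine sol6_of 30 1 8 14 3 5 5 t ?_
  exact three_sine 1 8 14 3 5 5 5 (by norm_num) (th 30 t) s hs (by
    linear_combination (-1 + 2*s - 2*s^2 + s^3 + s^6 - s^7 + s^8 - s^9 - s^12 + 2*s^13 - 2*s^14 + s^15) * h)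

theorem sp9 (t : ℤ) (ht : IsCoprime t ((30 : ℕ) : ℤ)) :
    SolY (spv (30, [1, 9, 11, 2, 5, 8]) t) := by
  obtain ⟨s, hs⟩ : ∃ s : ℂ, s = Complex.exp (((2 * th 30 t : ℝ) : ℂ) * Complex.I) := ⟨_, rfl⟩
  have h := phi30 (prim 30 (by norm_num) t ht s hs)
  refine sol6_of 30 1 9 11 2 5 8 t ?_
  exact three_sine 1 9 11 2 5 8 3 (by norm_num) (th 30 t) s hs (by
    linear_combination (-1 + 2*s - 2*s^2 + 2*s^3 - s^4 - s^5 + 3*s^6 - 3*s^7 + s^8 + s^9 - 2*s^10 + 2*s^11 -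
      2*s^12 + s^13) * h)

theorem sp10 (t : ℤ) (ht : IsCoprime t ((30 : ℕ) : ℤ)) :
    SolY (spv (30, [2, 5, 8, 3, 3, 9]) t) := by
  obtain ⟨s, hs⟩ : ∃ s : ℂ, s = Complex.exp (((2 * th 30 t : ℝ) : ℂ) * Complex.I) := ⟨_, rfl⟩
  have h := phi30 (prim 30 (by norm_num) t ht s hs)
  refine sol6_of 30 2 5 8 3 3 9 t ?_
  exact three_sine 2 5 8 3 3 9 0 (by norm_num) (th 30 t) s hs (by
    linear_combination (s^2 - 3*s^3 + 3*s^4 - s^5) * h)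

theorem sp11 (t : ℤ) (ht : IsCoprime t ((30 : ℕ) : ℤ)) :
    SolY (spv (30, [2, 8, 9, 5, 5, 5]) t) := by
  obtain ⟨s, hs⟩ : ∃ s : ℂ, s = Complex.exp (((2 * th 30 t : ℝ) : ℂ) * Complex.I) := ⟨_, rfl⟩
  have h := phi30 (prim 30 (by norm_num) t ht s hs)
  refine sol6_of 30 2 8 9 5 5 5 t ?_
  exact three_sine 2 8 9 5 5 5 2 (by norm_num) (th 30 t) s hs (by
    linear_combination (-1 + s + s^2 - 2*s^3 + 2*s^4 - s^5 + s^6 - 2*s^7 + 2*s^8 - s^9 - s^10 + s^11) * h)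

theorem sp12 (t : ℤ) (ht : IsCoprime t ((42 : ℕ) : ℤ)) :
    SolY (spv (42, [1, 5, 11, 2, 2, 15]) t) := by
  obtain ⟨s, hs⟩ : ∃ s : ℂ, s = Complex.exp (((2 * th 42 t : ℝ) : ℂ) * Complex.I) := ⟨_, rfl⟩
  have h := phi42 (prim 42 (by norm_num) t ht s hs)
  refine sol6_of 42 1 5 11 2 2 15 t ?_
  exact (three_sine 2 2 15 1 5 11 1 (by norm_num) (th 42 t) s hs (by
    linear_combination (-1 + 2*s - s^2 + s^5 - 2*s^6 + s^7) * h)).symm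

theorem sp13 (t : ℤ) (ht : IsCoprime t ((42 : ℕ) : ℤ)) :
    SolY (spv (42, [1, 5, 13, 2, 3, 10]) t) := by
  obtain ⟨s, hs⟩ : ∃ s : ℂ, s = Complex.exp (((2 * th 42 t : ℝ) : ℂ) * Complex.I) := ⟨_, rfl⟩
  have h := phi42 (prim 42 (by norm_num) t ht s hs)
  refine sol6_of 42 1 5 13 2 3 10 t ?_
  exact three_sine 1 5 13 2 3 10 2 (by norm_num) (th 42 t) s hs (by
    linear_combination (-1 + 2*s - s^2 + s^5 - 2*s^6 + s^7) * h)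

theorem sp14 (t : ℤ) (ht : IsCoprime t ((42 : ℕ) : ℤ)) :
    SolY (spv (42, [1, 7, 7, 2, 3, 8]) t) := by
  obtain ⟨s, hs⟩ : ∃ s : ℂ, s = Complex.exp (((2 * th 42 t : ℝ) : ℂ) * Complex.I) := ⟨_, rfl⟩
  have h := phi42 (prim 42 (by norm_num) t ht s hs)
  refine sol6_of 42 1 7 7 2 3 8 t ?_
  exact three_sine 1 7 7 2 3 8 1 (by norm_num) (th 42 t) s hs (by
    linear_combination (-1 + 3*s - 3*s^2 + s^3) * h)

theorem sp15 (t : ℤ) (ht : IsCoprime t ((42 : ℕ) : ℤ)) :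
    SolY (spv (42, [1, 7, 11, 2, 4, 9]) t) := by
  obtain ⟨s, hs⟩ : ∃ s : ℂ, s = Complex.exp (((2 * th 42 t : ℝ) : ℂ) * Complex.I) := ⟨_, rfl⟩
  have h := phi42 (prim 42 (by norm_num) t ht s hs)
  refine sol6_of 42 1 7 11 2 4 9 t ?_
  exact three_sine 1 7 11 2 4 9 2 (by norm_num) (th 42 t) s hs (by
    linear_combination (-1 + 2*s - s^2 + s^5 - 2*s^6 + s^7) * h)

theorem sp16 (t : ℤ) (ht : IsCoprime t ((42 : ℕ) : ℤ)) :
    SolY (spv (42, [1, 7, 13, 2, 3, 16]) t) := by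
  obtain ⟨s, hs⟩ : ∃ s : ℂ, s = Complex.exp (((2 * th 42 t : ℝ) : ℂ) * Complex.I) := ⟨_, rfl⟩
  have h := phi42 (prim 42 (by norm_num) t ht s hs)
  refine sol6_of 42 1 7 13 2 3 16 t ?_
  exact three_sine 1 7 13 2 3 16 0 (by norm_num) (th 42 t) s hs (by
    linear_combination (s - 2*s^2 + s^3 - s^6 + 2*s^7 - s^8) * h)

theorem sp17 (t : ℤ) (ht : IsCoprime t ((42 : ℕ) : ℤ)) :
    SolY (spv (42, [1, 7, 13, 3, 3, 9]) t) := by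
  obtain ⟨s, hs⟩ : ∃ s : ℂ, s = Complex.exp (((2 * th 42 t : ℝ) : ℂ) * Complex.I) := ⟨_, rfl⟩
  have h := phi42 (prim 42 (by norm_num) t ht s hs)
  refine sol6_of 42 1 7 13 3 3 9 t ?_
  exact three_sine 1 7 13 3 3 9 3 (by norm_num) (th 42 t) s hs (by
    linear_combination (-1 + 2*s - 2*s^2 + 2*s^3 - s^4 + s^5 - 2*s^6 + 2*s^7 - 2*s^8 + s^9) * h)

theorem sp18 (t : ℤ) (ht : IsCoprime t ((42 : ℕ) : ℤ)) :
    SolY (spv (42, [1, 9, 15, 2, 4, 17]) t) := by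
  obtain ⟨s, hs⟩ : ∃ s : ℂ, s = Complex.exp (((2 * th 42 t : ℝ) : ℂ) * Complex.I) := ⟨_, rfl⟩
  have h := phi42 (prim 42 (by norm_num) t ht s hs)
  refine sol6_of 42 1 9 15 2 4 17 t ?_
  exact three_sine 1 9 15 2 4 17 1 (by norm_num) (th 42 t) s hs (by
    linear_combination (-1 + 3*s - 3*s^2 + s^3 + s^4 - 2*s^5 + s^6 - s^7 + 2*s^8 - s^9 - s^10 + 3*s^11 - 3*s^12 +
      s^13) * h)

theorem sp19 (t : ℤ) (ht : IsCoprime t ((42 : ℕ) : ℤ)) :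
    SolY (spv (42, [1, 9, 15, 2, 7, 8]) t) := by
  obtain ⟨s, hs⟩ : ∃ s : ℂ, s = Complex.exp (((2 * th 42 t : ℝ) : ℂ) * Complex.I) := ⟨_, rfl⟩
  have h := phi42 (prim 42 (by norm_num) t ht s hs)
  refine sol6_of 42 1 9 15 2 7 8 t ?_
  exact three_sine 1 9 15 2 7 8 4 (by norm_num) (th 42 t) s hs (by
    linear_combination (-1 + 2*s - 2*s^2 + s^3 + s^4 - s^5 + s^8 - s^9 - s^10 + 2*s^11 - 2*s^12 + s^13) * h)

theorem sp20 (t : ℤ) (ht : IsCoprime t ((42 : ℕ) : ℤ)) :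
    SolY (spv (42, [1, 10, 16, 3, 3, 17]) t) := by
  obtain ⟨s, hs⟩ : ∃ s : ℂ, s = Complex.exp (((2 * th 42 t : ℝ) : ℂ) * Complex.I) := ⟨_, rfl⟩
  have h := phi42 (prim 42 (by norm_num) t ht s hs)
  refine sol6_of 42 1 10 16 3 3 17 t ?_
  exact three_sine 1 10 16 3 3 17 2 (by norm_num) (th 42 t) s hs (by
    linear_combination (-1 + 2*s - s^2 + s^4 - 2*s^5 + 2*s^6 - 3*s^7 + 3*s^8 - 2*s^9 + 2*s^10 - s^11 + s^13 -
      2*s^14 + s^15) * h)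

theorem sp21 (t : ℤ) (ht : IsCoprime t ((42 : ℕ) : ℤ)) :
    SolY (spv (42, [1, 16, 20, 3, 7, 9]) t) := by
  obtain ⟨s, hs⟩ : ∃ s : ℂ, s = Complex.exp (((2 * th 42 t : ℝ) : ℂ) * Complex.I) := ⟨_, rfl⟩
  have h := phi42 (prim 42 (by norm_num) t ht s hs)
  refine sol6_of 42 1 16 20 3 7 9 t ?_
  exact three_sine 1 16 20 3 7 9 9 (by norm_num) (th 42 t) s hs (by
    linear_combination (-1 + 2*s - 2*s^2 + s^3 - s^7 + 2*s^8 - s^9 + s^11 - s^12 + s^13 - s^14 + s^16 - 2*s^17 +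
      s^18 - s^22 + 2*s^23 - 2*s^24 + s^25) * h)

theorem sp22 (t : ℤ) (ht : IsCoprime t ((42 : ℕ) : ℤ)) :
    SolY (spv (42, [2, 15, 16, 7, 7, 7]) t) := by
  obtain ⟨s, hs⟩ : ∃ s : ℂ, s = Complex.exp (((2 * th 42 t : ℝ) : ℂ) * Complex.I) := ⟨_, rfl⟩
  have h := phi42 (prim 42 (by norm_num) t ht s hs)
  refine sol6_of 42 2 15 16 7 7 7 t ?_
  exact three_sine 2 15 16 7 7 7 6 (by norm_num) (th 42 t) s hs (by
    linear_combination (-1 + s - s^3 + s^4 + s^6 - 2*s^7 + 2*s^8 - s^10 + s^11 - 2*s^13 + 2*s^14 - s^15 - s^17 +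
      s^18 - s^20 + s^21) * h)

theorem sp23 (t : ℤ) (ht : IsCoprime t ((42 : ℕ) : ℤ)) :
    SolY (spv (42, [3, 9, 15, 7, 7, 7]) t) := by
  obtain ⟨s, hs⟩ : ∃ s : ℂ, s = Complex.exp (((2 * th 42 t : ℝ) : ℂ) * Complex.I) := ⟨_, rfl⟩
  have h := phi42 (prim 42 (by norm_num) t ht s hs)
  refine sol6_of 42 3 9 15 7 7 7 t ?_
  exact three_sine 3 9 15 7 7 7 3 (by norm_num) (th 42 t) s hs (by
    linear_combination (-1 + s - s^2 + 2*s^3 - 2*s^4 + 2*s^5 - s^7 + s^8 - 2*s^10 + 2*s^11 - 2*s^12 + s^13 - s^14 +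
      s^15) * h)

theorem sp24 (t : ℤ) (ht : IsCoprime t ((60 : ℕ) : ℤ)) :
    SolY (spv (60, [1, 4, 21, 2, 5, 7]) t) := by
  obtain ⟨s, hs⟩ : ∃ s : ℂ, s = Complex.exp (((2 * th 60 t : ℝ) : ℂ) * Complex.I) := ⟨_, rfl⟩
  have h := phi60 (prim 60 (by norm_num) t ht s hs)
  refine sol6_of 60 1 4 21 2 5 7 t ?_
  exact three_sine 1 4 21 2 5 7 6 (by norm_num) (th 60 t) s hs (by
    linear_combination (-1 + s + s^2 - s^3 + s^7 - s^8 - s^9 + s^10) * h)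

theorem sp25 (t : ℤ) (ht : IsCoprime t ((60 : ℕ) : ℤ)) :
    SolY (spv (60, [1, 8, 27, 2, 5, 17]) t) := by
  obtain ⟨s, hs⟩ : ∃ s : ℂ, s = Complex.exp (((2 * th 60 t : ℝ) : ℂ) * Complex.I) := ⟨_, rfl⟩
  have h := phi60 (prim 60 (by norm_num) t ht s hs)
  refine sol6_of 60 1 8 27 2 5 17 t ?_
  exact three_sine 1 8 27 2 5 17 6 (by norm_num) (th 60 t) s hs (by
    linear_combination (-1 + s + s^2 - s^3 - s^4 + s^5 + s^6 - s^8 - s^9 + s^11 + s^12 - s^14 - s^15 + s^16 + s^17 -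
      s^18 - s^19 + s^20) * h)

theorem sp26 (t : ℤ) (ht : IsCoprime t ((60 : ℕ) : ℤ)) :
    SolY (spv (60, [1, 10, 13, 3, 5, 8]) t) := by
  obtain ⟨s, hs⟩ : ∃ s : ℂ, s = Complex.exp (((2 * th 60 t : ℝ) : ℂ) * Complex.I) := ⟨_, rfl⟩
  have h := phi60 (prim 60 (by norm_num) t ht s hs)
  refine sol6_of 60 1 10 13 3 5 8 t ?_
  exact three_sine 1 10 13 3 5 8 4 (by norm_num) (th 60 t) s hs (by
    linear_combination (-1 + s + s^2 - s^3 + s^5 - s^6 - s^7 + s^8) * h)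

theorem sp27 (t : ℤ) (ht : IsCoprime t ((60 : ℕ) : ℤ)) :
    SolY (spv (60, [1, 10, 19, 3, 6, 9]) t) := by
  obtain ⟨s, hs⟩ : ∃ s : ℂ, s = Complex.exp (((2 * th 60 t : ℝ) : ℂ) * Complex.I) := ⟨_, rfl⟩
  have h := phi60 (prim 60 (by norm_num) t ht s hs)
  refine sol6_of 60 1 10 19 3 6 9 t ?_
  exact three_sine 1 10 19 3 6 9 6 (by norm_num) (th 60 t) s hs (by
    linear_combination (-1 + s + s^2 - s^3 - s^4 + s^5 + s^6 - s^8 - s^9 + s^10 + s^11 - s^12 - s^13 + s^14) * h)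

end RV2x

end Pool.Agent.T6.H31.TC
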