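import Pool.Agent.T6.H31.TC.Stmts

set_option autoImplicit false

/-! Helper lemmas on `|sin (pi x)|` for the modules LA, LB, LC. -/

namespace Pool.Agent.T6.H31.TC.SB87

/-- `|sin (pi x)|` -/
noncomputable def s (x : ℝ) : ℝ := |Real.sin (Real.pi * x)|

theorem s_nonneg (x : ℝ) : 0 ≤ s x := abs_nonneg _

theorem s_eq_zero {x : ℝ} : s x = 0 ↔ ∃ k : ℤ, x = k := by
  unfold s
  rw [abs_eq_zero, Real.sin_eq_zero_iff]
  constructor
  · rintro ⟨k, hk⟩
    exact ⟨k, by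
      have hp := Real.pi_pos.ne'
      have : Real.pi * x = Real.pi * k := by rw [← hk]; ring
      exact mul_left_cancel₀ hp this⟩
  · rintro ⟨k, hk⟩
    exact ⟨k, by rw [hk]; ring⟩

theorem s_neg (x : ℝ) : s (-x) = s x := by
  unfold s
  rw [show Real.pi * (-x) = -(Real.pi * x) by ring, Real.sin_neg, abs_neg]

theorem s_add_int (x : ℝ) (k : ℤ) : s (x + k) = s x := by
  unfold s
  rw [show Real.pi * (x + k) = Real.pi * x + k * Real.pi by ring, Real.sin_add_int_mul_pi, abs_mul]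
  have : |(-1 : ℝ) ^ k| = 1 := by
    rw [abs_zpow, abs_neg, abs_one, one_zpow]
  rw [this, one_mul]

theorem s_congr {x y : ℝ} (k : ℤ) (h : x = y + k) : s x = s y := by
  rw [h, s_add_int]

theorem s_eqv {x y : ℝ} (h : eqv x y) : s x = s y := by
  obtain ⟨k, h | h⟩ := h
  · exact s_congr k h
  · rw [s_congr k h, s_neg]

theorem s_half (u : ℝ) : s u * s (u + 1 / 2) = s (2 * u) / 2 := by
  unfold s
  rw [show Real.pi * (u + 1 / 2) = Real.pi * u + Real.pi / 2 by ring, Real.sin_add_pi_div_two,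
    show Real.pi * (2 * u) = 2 * (Real.pi * u) by ring, Real.sin_two_mul, ← abs_mul, abs_mul (2 * _),
    abs_mul 2, abs_mul, abs_of_pos (by norm_num : (0:ℝ) < 2)]
  ring

theorem s_third (u : ℝ) : s u * s (u + 1 / 3) * s (u + 2 / 3) = s (3 * u) / 4 := by
  unfold s
  have h1 : Real.sin (Real.pi / 3) = Real.sqrt 3 / 2 := Real.sin_pi_div_three
  have h2 : Real.cos (Real.pi / 3) = 1 / 2 := Real.cos_pi_div_three
  have h3 : Real.sin (2 * (Real.pi / 3)) = Real.sqrt 3 / 2 := by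
    rw [Real.sin_two_mul, h1, h2]; ring
  have h4 : Real.cos (2 * (Real.pi / 3)) = -1 / 2 := by
    rw [Real.cos_two_mul, h2]; norm_num
  have key : Real.sin (Real.pi * u) * Real.sin (Real.pi * (u + 1 / 3)) *
      Real.sin (Real.pi * (u + 2 / 3)) = Real.sin (Real.pi * (3 * u)) / 4 := by
    rw [show Real.pi * (u + 1 / 3) = Real.pi * u + Real.pi / 3 by ring,
      show Real.pi * (u + 2 / 3) = Real.pi * u + 2 * (Real.pi / 3) by ring,
      show Real.pi * (3 * u) = 3 * (Real.pi * u) by ring, Real.sin_add, Real.sin_add,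
      Real.sin_three_mul, h1, h2, h3, h4]
    have hc : Real.cos (Real.pi * u) ^ 2 = 1 - Real.sin (Real.pi * u) ^ 2 := by
      have := Real.sin_sq_add_cos_sq (Real.pi * u); linarith
    have h5 : Real.sqrt 3 ^ 2 = 3 := Real.sq_sqrt (by norm_num)
    ring_nf
    rw [h5, hc]
    ring
  rw [← abs_mul, ← abs_mul, key, abs_div, abs_of_pos (by norm_num : (0:ℝ) < 4)]

theorem s_sixth : s (1 / 6) = 1 / 2 := by
  unfold s
  rw [show Real.pi * (1 / 6) = Real.pi / 6 by ring, Real.sin_pi_div_six]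
  norm_num


theorem eqv_sixth {x : ℝ} (h : s x = 1 / 2) : eqv x (1 / 6) := by
  -- `cos (2 pi x) = 1 / 2`
  have h1 : Real.sin (Real.pi * x) ^ 2 = 1 / 4 := by
    have : |Real.sin (Real.pi * x)| ^ 2 = (1 / 2) ^ 2 := by rw [← h]; rfl
    rw [sq_abs] at this; linarith
  have h2 : Real.cos (2 * (Real.pi * x)) = Real.cos (Real.pi / 3) := by
    rw [Real.cos_two_mul, Real.cos_sq', h1, Real.cos_pi_div_three]; norm_num
  rw [Real.cos_eq_cos_iff] at h2
  have hp := Real.pi_pos.ne'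
  obtain ⟨k, hk | hk⟩ := h2
  · refine ⟨-k, Or.inl ?_⟩
    have : Real.pi * x = Real.pi * (1 / 6 + ((-k : ℤ) : ℝ)) := by push_cast; linarith
    exact mul_left_cancel₀ hp this
  · refine ⟨k, Or.inr ?_⟩
    have : Real.pi * x = Real.pi * (-(1 / 6) + (k : ℝ)) := by linarith
    exact mul_left_cancel₀ hp this

theorem eqv_of_sub {x y : ℝ} (h : ∃ k : ℤ, x - y = k) : eqv x y := by
  obtain ⟨k, hk⟩ := h
  exact ⟨k, Or.inl (by linarith)⟩

theorem eqv_refl (x : ℝ) : eqv x x := ⟨0, Or.inl (by simp)⟩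

theorem eqv_symm {x y : ℝ} (h : eqv x y) : eqv y x := by
  obtain ⟨k, h | h⟩ := h
  · exact ⟨-k, Or.inl (by push_cast; linarith)⟩
  · exact ⟨k, Or.inr (by linarith)⟩

theorem eqv_trans {x y w : ℝ} (h : eqv x y) (h' : eqv y w) : eqv x w := by
  obtain ⟨k, h | h⟩ := h <;> obtain ⟨l, h' | h'⟩ := h'
  · exact ⟨k + l, Or.inl (by push_cast; linarith)⟩
  · exact ⟨k + l, Or.inr (by push_cast; linarith)⟩
  · exact ⟨k - l, Or.inr (by push_cast; linarith)⟩
  · exact ⟨k - l, Or.inl (by push_cast; linarith)⟩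

theorem nz_s {y : Fin 6 → ℝ} (h : NZ y) (i : Fin 6) : s (y i) ≠ 0 := by
  unfold s; rw [abs_ne_zero]; exact h i

/-- the line in terms of `s` -/
theorem line_s {y : Fin 6 → ℝ} {w : List ℤ} (h : Line y w) (t : ℝ) :
    s (y 0 + (w.getD 0 0 : ℤ) * t) * s (y 1 + (w.getD 1 0 : ℤ) * t) * s (y 2 + (w.getD 2 0 : ℤ) * t) =
    s (y 3 + (w.getD 3 0 : ℤ) * t) * s (y 4 + (w.getD 4 0 : ℤ) * t) * s (y 5 + (w.getD 5 0 : ℤ) * t) := by
  unfold s
  rw [← abs_mul, ← abs_mul, ← abs_mul, ← abs_mul, h t]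

theorem comm_of_s {y : Fin 6 → ℝ} {i j : Fin 6} (hi : i.val < 3) (hj : 3 ≤ j.val)
    (h : s (y i - y j) = 0) : CommR y :=
  ⟨i, j, hi, hj, eqv_of_sub (s_eq_zero.mp h)⟩

theorem s_sub_comm (x y : ℝ) : s (x - y) = s (y - x) := by
  rw [← s_neg]; congr 1; ring

end Pool.Agent.T6.H31.TC.SB87
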