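import Pool.Agent.T6.H31.TC.Defs

set_option autoImplicit false

/-! Statements of the modules of the project (MP_6e4ab6_nt). -/

namespace Pool.Agent.T6.H31.TC

open Finset

/-! ### Part I: class sums -/

/-- square step -/
def StmtA1 : Prop := ∀ (ι : Type) [Fintype ι] (E : ι → ℤ) (N D p : ℕ), 0 < N → p.Prime → D ∣ N →
  p * p ∣ D → CS E N D → CS E N (D / p)

/-- prime step -/
def StmtA2 : Prop := ∀ (ι : Type) [Fintype ι] (E : ι → ℤ) (N D p : ℕ), 0 < N → p.Prime → D ∣ N →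
  p ∣ D → ¬ p * p ∣ D → CS E N D → CS E N (D / p) ∨ Full E N p D

/-- a full class has at least `p` elements -/
def StmtA3 : Prop := ∀ (ι : Type) [Fintype ι] (E : ι → ℤ) (N D p : ℕ) (y : ℤ), 0 < N → D ∣ N →
  0 < p → FullAt E N p D y →
  p ≤ (univ.filter (fun i => ((N / D : ℕ) : ℤ) ∣ E i - y)).card

/-- the minimal squarefree `D` -/
def StmtA4 : Prop := ∀ (ι : Type) [Fintype ι] (E : ι → ℤ) (N : ℕ), Fintype.card ι ≤ 16 → 0 < N →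
  60060 ∣ N → ∑ i, z N (E i) = 0 →
  ∃ P : Finset ℕ, P ⊆ {5, 7, 11, 13} ∧ CS E N (6 * ∏ p ∈ P, p) ∧
    ∀ p ∈ P, Full E N p (6 * ∏ p ∈ P, p)

/-- the base point of a full class does not matter -/
def StmtA5 : Prop := ∀ (ι : Type) [Fintype ι] (E : ι → ℤ) (N D p : ℕ) (y y' : ℤ), 0 < N → D ∣ N →
  p ∣ D → ((N / D : ℕ) : ℤ) ∣ y' - y → FullAt E N p D y → FullAt E N p D y'

/-- conjugation of a full class, for the sixteen exponents -/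
def StmtA6 : Prop := ∀ (N D p : ℕ) (e : Fin 6 → ℤ) (y : ℤ), 0 < N → D ∣ N → 2 ∣ D → p.Prime →
  5 ≤ p → p ∣ D → FullAt (EE N e) N p D y → FullAt (EE N e) N p D (-y)

/-- the entry of `i` in the table of residues modulo `p` and `q` -/
def Entry {ι : Type} (E : ι → ℤ) (N D p q : ℕ) (y r s : ℤ) (i : ι) : Prop :=
  ((p * (N / D) : ℕ) : ℤ) ∣ E i - y - r * ((N / D : ℕ) : ℤ) ∧
  ((q * (N / D) : ℕ) : ℤ) ∣ E i - y - s * ((N / D : ℕ) : ℤ)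

/-- two primes: the table of the class of `y` is additive -/
def StmtU : Prop := ∀ (ι : Type) [Fintype ι] (E : ι → ℤ) (N D p q : ℕ) (y : ℤ), 0 < N → D ∣ N →
  p.Prime → q.Prime → p ≠ q → p * q ∣ D → ¬ p * p ∣ D → ¬ q * q ∣ D → CS E N D →
  ∃ a : ℤ → ℤ → ℂ,
    (∀ r s r' s' : ℤ, (p : ℤ) ∣ r - r' → (q : ℤ) ∣ s - s' → a r s = a r' s') ∧
    (∀ r s r' s' : ℤ, a r s + a r' s' = a r s' + a r' s) ∧
    (∀ r s : ℤ, a r s ≠ 0 → ∃ i, Entry E N D p q y r s i) ∧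
    (∀ (r s : ℤ) (i : ι), Entry E N D p q y r s i → (∀ j, Entry E N D p q y r s j → j = i) →
      a r s ≠ 0) ∧
    (FullAt E N p D y → ∃ r s s' : ℤ, a r s ≠ a r s') ∧
    (FullAt E N q D y → ∃ r r' s : ℤ, a r s ≠ a r' s)

/-- two primes: the cross structure -/
def StmtCR : Prop := ∀ (ι : Type) [Fintype ι] (E : ι → ℤ) (N D p q : ℕ) (y : ℤ), 0 < N → D ∣ N →
  p.Prime → q.Prime → 5 ≤ q → q < p → p * q ∣ D → ¬ p * p ∣ D → ¬ q * q ∣ D → CS E N D →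
  FullAt E N p D y → FullAt E N q D y →
  (univ.filter (fun i => ((N / D : ℕ) : ℤ) ∣ E i - y)).card < 2 * p →
  (univ.filter (fun i => ((N / D : ℕ) : ℤ) ∣ E i - y)).card < p + 2 * q - 4 →
  p + q - 2 ≤ (univ.filter (fun i => ((N / D : ℕ) : ℤ) ∣ E i - y)).card ∧
  ∃ r0 s0 : ℤ,
    (∀ r : ℤ, ¬ (p : ℤ) ∣ r - r0 → ∃ i, ((p * (N / D) : ℕ) : ℤ) ∣ E i - y - r * ((N / D : ℕ) : ℤ) ∧
      ((q * (N / D) : ℕ) : ℤ) ∣ E i - y - s0 * ((N / D : ℕ) : ℤ)) ∧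
    (∀ s : ℤ, ¬ (q : ℤ) ∣ s - s0 → ∃ i, ((p * (N / D) : ℕ) : ℤ) ∣ E i - y - r0 * ((N / D : ℕ) : ℤ) ∧
      ((q * (N / D) : ℕ) : ℤ) ∣ E i - y - s * ((N / D : ℕ) : ℤ)) ∧
    (∀ i, ((N / D : ℕ) : ℤ) ∣ E i - y →
      ¬ ((p * (N / D) : ℕ) : ℤ) ∣ E i - y - r0 * ((N / D : ℕ) : ℤ) →
      ¬ ((q * (N / D) : ℕ) : ℤ) ∣ E i - y - s0 * ((N / D : ℕ) : ℤ) →
      ∃ j, j ≠ i ∧ ((p * q * (N / D) : ℕ) : ℤ) ∣ E i - E j)

/-! ### The sixteen terms -/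

def StmtB0 : Prop := ∀ (N : ℕ) (e : Fin 6 → ℤ), 0 < N → 2 ∣ N →
  Real.sin (Real.pi * yy N e 0) * Real.sin (Real.pi * yy N e 1) * Real.sin (Real.pi * yy N e 2) =
    Real.sin (Real.pi * yy N e 3) * Real.sin (Real.pi * yy N e 4) * Real.sin (Real.pi * yy N e 5) →
  ∑ m, z N (EE N e m) = 0

def StmtB1 : Prop := ∀ (N D : ℕ) (e : Fin 6 → ℤ), 0 < N → D ∣ N → 2 ∣ D → CS (EE N e) N D →
  NoSingle ((N / D : ℕ) : ℤ) e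

def StmtB2 : Prop := ∀ (N D : ℕ) (e e' : Fin 6 → ℤ), 0 < N → D ∣ N → 2 ∣ D → Rel e e' →
  (CS (EE N e) N D → CS (EE N e') N D) ∧
  ∀ p : ℕ, p.Prime → 5 ≤ p → p ∣ D → Full (EE N e) N p D → Full (EE N e') N p D

/-- the line attached to a direction -/
def StmtC0 : Prop := ∀ (N D : ℕ) (e : Fin 6 → ℤ) (w : List ℤ), 0 < N → D ∣ N → 2 ∣ D →
  CS (EE N e) N D → (∀ m n : Fin 16, ((N / D : ℕ) : ℤ) ∣ dv m n e → dv m n (lvec w) = 0) →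
  Line (yy N e) w

/-- the combinatorial classification (computer generated) -/
def StmtDAG : Prop := ∀ (Q : ℤ) (e : Fin 6 → ℤ), NoSingle Q e → ∃ e', Rel e e' ∧ Goal0 Q e'

/-- a partition with the class of the first block -/
def StmtX0 : Prop := ∀ (N D : ℕ) (e : Fin 6 → ℤ) (κ : List ℕ), 0 < N → D ∣ N → 2 ∣ D →
  NZ (yy N e) → CS (EE N e) N D → Exact ((N / D : ℕ) : ℤ) e κ →
  (∀ m : Fin 16, κ.getD m.val 0 = κ.getD 0 0 ↔ m.val < 8) → False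

/-- both primes 5 and 7, classes of at most eight elements, same class -/
def StmtX1 : Prop := ∀ (N : ℕ) (e : Fin 6 → ℤ), 0 < N → 60060 ∣ N → CS (EE N e) N 210 →
  Full (EE N e) N 5 210 → Full (EE N e) N 7 210 →
  (∃ κ ∈ ([[0, 1, 0, 1, 1, 0, 1, 0, 0, 0, 10, 10, 10, 10, 0, 0],
      [0, 1, 0, 1, 0, 1, 0, 1, 1, 0, 0, 11, 11, 1, 1, 0],
      [0, 1, 0, 1, 0, 1, 0, 1, 1, 0, 0, 1, 0, 1, 1, 0],
      [0, 1, 1, 0, 1, 0, 0, 1, 1, 0, 0, 1, 0, 1, 1, 0]] : List (List ℕ)),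
    Exact ((N / 210 : ℕ) : ℤ) e κ) → False

def StmtX2 : Prop := ∀ (N : ℕ) (e : Fin 6 → ℤ), 0 < N → 60060 ∣ N → CS (EE N e) N 210 →
  Full (EE N e) N 5 210 → Full (EE N e) N 7 210 →
  (∃ κ ∈ ([[0, 0, 0, 0, 0, 0, 0, 0, 0, 9, 10, 11, 10, 11, 9, 0],
      [0, 0, 0, 0, 0, 0, 0, 0, 0, 9, 10, 11, 11, 10, 9, 0],
      [0, 0, 0, 0, 0, 0, 0, 0, 0, 9, 9, 11, 9, 11, 11, 0]] : List (List ℕ)),
    Exact ((N / 210 : ℕ) : ℤ) e κ) → False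

def StmtX3 : Prop := ∀ (N : ℕ) (e : Fin 6 → ℤ), 0 < N → 60060 ∣ N → CS (EE N e) N 210 →
  Full (EE N e) N 5 210 → Full (EE N e) N 7 210 → (∀ i, ((N / 210 : ℕ) : ℤ) ∣ 4 * e i) →
  Exact ((N / 210 : ℕ) : ℤ) e [0, 1, 0, 1, 1, 0, 1, 0, 0, 0, 1, 1, 1, 1, 0, 0] → False

def StmtX4 : Prop := ∀ (N : ℕ) (e : Fin 6 → ℤ), 0 < N → 60060 ∣ N → NZ (yy N e) →
  CS (EE N e) N 210 →
  Full (EE N e) N 5 210 → Full (EE N e) N 7 210 → (∀ i, ((N / 210 : ℕ) : ℤ) ∣ 4 * e i) →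
  Exact ((N / 210 : ℕ) : ℤ) e [0, 0, 0, 0, 0, 0, 0, 0, 0, 0, 10, 10, 10, 10, 0, 0] →
  (∀ i : Fin 6, i.val < 3 → ∃ k : ℤ, yy N e i = k / 42) ∧
  (∀ i : Fin 6, 3 ≤ i.val → ∃ k : ℤ, yy N e i = k / 60)

/-- one class, a prime at least 11 and a second prime -/
def StmtX5 : Prop := ∀ (N D p q : ℕ) (e : Fin 6 → ℤ), 0 < N → 60060 ∣ N → D ∣ 30030 → 2 ∣ D →
  p * q ∣ D → (p = 11 ∨ p = 13) → q.Prime → 5 ≤ q → q < p → CS (EE N e) N D →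
  Full (EE N e) N p D → Full (EE N e) N q D → (∀ m n, ((N / D : ℕ) : ℤ) ∣ dv m n e) → False

/-- the partition with classes of sizes 12 and 4, primes 11 and another one -/
def StmtX6 : Prop := ∀ (N D q : ℕ) (e : Fin 6 → ℤ), 0 < N → 60060 ∣ N → D ∣ 30030 → 2 ∣ D →
  11 * q ∣ D → q.Prime → 5 ≤ q → q < 11 → CS (EE N e) N D →
  Full (EE N e) N 11 D → Full (EE N e) N q D →
  Exact ((N / D : ℕ) : ℤ) e [0, 0, 0, 0, 0, 0, 0, 0, 0, 0, 10, 10, 10, 10, 0, 0] → False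

/-- the three partitions with profile 2,2,2,5,5: the five elements of a full class have the same
component prime to 5, which improves the level from `15 * E0` to `5 * E0` -/
def StmtXR : Prop := ∀ (N : ℕ) (e : Fin 6 → ℤ) (x : ℤ × List ℕ), 0 < N → 60060 ∣ N →
  CS (EE N e) N 30 → Full (EE N e) N 5 30 →
  x ∈ ([(16, [0, 1, 1, 0, 1, 0, 0, 1, 1, 9, 9, 11, 11, 13, 13, 0]),
    (12, [0, 1, 2, 0, 2, 0, 1, 2, 2, 9, 9, 2, 0, 13, 13, 0]),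
    (10, [0, 1, 2, 0, 2, 0, 6, 2, 2, 9, 1, 2, 0, 6, 9, 0])] : List (ℤ × List ℕ)) →
  Exact ((N / 30 : ℕ) : ℤ) e x.2 → ∀ i, ∃ k : ℤ, yy N e i = k / (5 * x.1 : ℤ)

/-- levels -/
def Levels : List ℕ := [48, 50, 54, 72, 78, 80, 120, 126, 132, 168, 180, 210]

def StmtLV : Prop := ∀ (N : ℕ) (e : Fin 6 → ℤ), 0 < N → 60060 ∣ N → NZ (yy N e) →
  ∑ m, z N (EE N e m) = 0 → ∃ e', Rel e e' ∧
    ((∃ w ∈ Wl, Line (yy N e') w) ∨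
     (∃ L ∈ Levels, ∀ i, ∃ k : ℤ, yy N e' i = k / (L : ℕ)) ∨
     ((∀ i : Fin 6, i.val < 3 → ∃ k : ℤ, yy N e' i = k / 42) ∧
      (∀ i : Fin 6, 3 ≤ i.val → ∃ k : ℤ, yy N e' i = k / 60)))

/-! ### The two-sine equation -/

def StmtM2 : Prop := ∀ y : Fin 4 → ℝ, (∀ i, ∃ q : ℚ, y i = q) → NZ4 y → SolY4 y → M2L y

/-- the eight sign vectors in dimension four -/
def V4 (m : Fin 8) (i : Fin 4) : ℤ :=
  if m.val / 4 = i.val / 2 then (if (m.val / 2 ^ (i.val % 2)) % 2 = 0 then 1 else -1) else 0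

def dot4 (v e : Fin 4 → ℤ) : ℤ := ∑ i, v i * e i

def dv4 (m n : Fin 8) (e : Fin 4 → ℤ) : ℤ := dot4 (V4 m) e - dot4 (V4 n) e

def EE4 (N : ℕ) (e : Fin 4 → ℤ) (m : Fin 8) : ℤ :=
  dot4 (V4 m) e + if m.val < 4 then 0 else ((N / 2 : ℕ) : ℤ)

noncomputable def yy4 (N : ℕ) (e : Fin 4 → ℤ) (i : Fin 4) : ℝ := 1 / 2 - 2 * (e i : ℝ) / (N : ℝ)

def Rel4 (e e' : Fin 4 → ℤ) : Prop :=
  ∃ (σ : Equiv.Perm (Fin 4)) (ε : Fin 4 → ℤ), Blk4 σ ∧ (∀ i, ε i = 1 ∨ ε i = -1) ∧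
    ∀ i, e' i = ε i * e (σ i)

def NoSingle4 (Q : ℤ) (e : Fin 4 → ℤ) : Prop := ∀ m : Fin 8, ∃ n : Fin 8, n ≠ m ∧ Q ∣ dv4 m n e

def lvec4 (w : List ℤ) : Fin 4 → ℤ := fun i => w.getD i.val 0

def W4l : List (List ℤ) := [[1, 1, 1, 1], [1, 1, 2, 0], [1, 0, 1, 0], [1, 0, 0, 0]]

def Goal4 (Q : ℤ) (e : Fin 4 → ℤ) : Prop :=
  (∃ w ∈ W4l, ∀ m n : Fin 8, Q ∣ dv4 m n e → dv4 m n (lvec4 w) = 0) ∨
  ((∀ i, Q ∣ 4 * e i) ∧ ∀ m : Fin 8, (univ.filter (fun n : Fin 8 => Q ∣ dv4 m n e)).card ≤ 6) ∨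
  ((∀ i, Q ∣ 2 * e i) ∧ ∀ m n : Fin 8, Q ∣ dv4 m n e)

/-- the combinatorial classification in dimension four (computer generated) -/
def StmtDAG4 : Prop := ∀ (Q : ℤ) (e : Fin 4 → ℤ), NoSingle4 Q e → ∃ e', Rel4 e e' ∧ Goal4 Q e'

def Line4 (y : Fin 4 → ℝ) (w : List ℤ) : Prop := ∀ t : ℝ,
  Real.sin (Real.pi * (y 0 + (w.getD 0 0 : ℤ) * t)) * Real.sin (Real.pi * (y 1 + (w.getD 1 0 : ℤ) * t)) =
  Real.sin (Real.pi * (y 2 + (w.getD 2 0 : ℤ) * t)) * Real.sin (Real.pi * (y 3 + (w.getD 3 0 : ℤ) * t))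

/-- from the equation to a line or a level, dimension four -/
def StmtMP : Prop := ∀ (N : ℕ) (e : Fin 4 → ℤ), 0 < N → 60060 ∣ N → NZ4 (yy4 N e) →
  Real.sin (Real.pi * yy4 N e 0) * Real.sin (Real.pi * yy4 N e 1) =
    Real.sin (Real.pi * yy4 N e 2) * Real.sin (Real.pi * yy4 N e 3) → ∃ e', Rel4 e e' ∧
    ((∃ w ∈ W4l, Line4 (yy4 N e') w) ∨
     (∀ i, ∃ k : ℤ, yy4 N e' i = k / 60) ∨ (∀ i, ∃ k : ℤ, yy4 N e' i = k / 42))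

def StmtML : Prop := ∀ (y : Fin 4 → ℝ) (w : List ℤ), w ∈ W4l → NZ4 y → Line4 y w → M2L y

def FIN2 (N : ℕ) : Prop := ∀ a : Fin 4 → ℕ, (∀ i, 1 ≤ a i ∧ 2 * a i ≤ N) →
  SolY4 (fun i => (a i : ℝ) / (N : ℝ)) → M2L (fun i => (a i : ℝ) / (N : ℝ))

/-! ### Lines -/

noncomputable def aa (y : Fin 6 → ℝ) (i : Fin 6) : ℂ := Complex.exp (((2 * Real.pi * y i : ℝ) : ℂ) * Complex.I)

noncomputable def hh (y : Fin 6 → ℝ) (i : Fin 6) : ℂ := Complex.exp (((-(Real.pi * y i) : ℝ) : ℂ) * Complex.I)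

/-- a line gives a polynomial identity -/
def StmtL0 : Prop := ∀ (y : Fin 6 → ℝ) (w : Fin 6 → ℕ), w 0 + w 1 + w 2 = w 3 + w 4 + w 5 →
  Line y [(w 0 : ℤ), (w 1 : ℤ), (w 2 : ℤ), (w 3 : ℤ), (w 4 : ℤ), (w 5 : ℤ)] →
  ∀ x : ℂ, (hh y 0 * (1 - aa y 0 * x ^ w 0)) * (hh y 1 * (1 - aa y 1 * x ^ w 1)) *
      (hh y 2 * (1 - aa y 2 * x ^ w 2)) =
    (hh y 3 * (1 - aa y 3 * x ^ w 3)) * (hh y 4 * (1 - aa y 4 * x ^ w 4)) *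
      (hh y 5 * (1 - aa y 5 * x ^ w 5))

/-- the classification for one direction -/
def LineSt (w : List ℤ) : Prop := ∀ y : Fin 6 → ℝ, (∀ i, ∃ q : ℚ, y i = q) → NZ y → Line y w → Res y

/-! ### Finite levels -/

def FINst (N : ℕ) : Prop := ∀ a : Fin 6 → ℕ, (∀ i, 1 ≤ a i ∧ 2 * a i ≤ N) →
  SolY (fun i => (a i : ℝ) / (N : ℝ)) → Res (fun i => (a i : ℝ) / (N : ℝ))

def FINmix : Prop := ∀ a : Fin 6 → ℕ, (∀ i, 1 ≤ a i ∧ (i.val < 3 → 2 * a i ≤ 42) ∧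
    (3 ≤ i.val → 2 * a i ≤ 60)) →
  SolY (fun i => (a i : ℝ) / (if i.val < 3 then 42 else 60)) →
    Res (fun i => (a i : ℝ) / (if i.val < 3 then 42 else 60))

/-! ### Invariance and reverse direction -/

def StmtI1 : Prop := ∀ (y y' : Fin 6 → ℝ), (∀ i, eqv (y' i) (y i)) →
  (SolY y → SolY y') ∧ (NZ y → NZ y') ∧ (Res y → Res y') ∧ (Target y → Target y')

def StmtI2 : Prop := ∀ (y y' : Fin 6 → ℝ), Match y' y →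
  (SolY y → SolY y') ∧ (NZ y → NZ y') ∧ (Res y → Res y') ∧ (Target y → Target y')

def StmtRV1 : Prop := ∀ y : Fin 6 → ℝ,
  ((∃ p q : ℝ, Match y ![p, p + 1 / 2, 2 * q, q, q + 1 / 2, 2 * p]) ∨
    (∃ f ∈ Fams, ∃ p : ℝ, Match y (famv f p))) → SolY y

def StmtRV2 : Prop := ∀ (s : ℕ × List ℕ) (t : ℤ), s ∈ Spor → IsCoprime t (s.1 : ℤ) →
  SolY (spv s t)

def StmtRV3 : Prop := ∀ y : Fin 4 → ℝ, M2L y → SolY4 y

/-- common element: the two-sine equation decides -/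
def StmtCT : Prop := ∀ y : Fin 6 → ℝ, (∀ i, ∃ q : ℚ, y i = q) → NZ y → SolY y → CommR y → Target y

/-- the list solves the equation -/
def StmtRV : Prop := ∀ y : Fin 6 → ℝ, Target y → SolY y

/-- the classification -/
def StmtMain : Prop := ∀ y : Fin 6 → ℝ, (∀ i, ∃ q : ℚ, y i = q) → NZ y → (SolY y ↔ Target y)

end Pool.Agent.T6.H31.TC
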