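import Pool.Agent.T6.H31.TC.Stmts

set_option autoImplicit false

/-! Combinatorics of affine functions on the cube, used by the modules X2, X4, X5. -/

namespace Pool.Agent.T6.H31.TC
namespace XC

open Finset

/-- flip of a bit -/
def fl (i : Fin 3) (m : Fin 8) : Fin 8 :=
  (![![1, 0, 3, 2, 5, 4, 7, 6], ![2, 3, 0, 1, 6, 7, 4, 5], ![4, 5, 6, 7, 0, 1, 2, 3]] : Fin 3 → Fin 8 → Fin 8) i m

/-- affine functions on the cube -/
def Aff {F : Type*} [CommRing F] (r : Fin 8 → F) : Prop :=
  r 3 = r 1 + r 2 - r 0 ∧ r 5 = r 1 + r 4 - r 0 ∧ r 6 = r 2 + r 4 - r 0 ∧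
    r 7 = r 1 + r 2 + r 4 - r 0 - r 0

lemma fl_ne (i : Fin 3) (m : Fin 8) : fl i m ≠ m := by revert i m; decide

lemma fl_fl (i : Fin 3) (m : Fin 8) : fl i (fl i m) = m := by revert i m; decide

lemma dich {F : Type*} [CommRing F] {r : Fin 8 → F} (h : Aff r) (i : Fin 3) :
    (∀ m, r (fl i m) = r m) ∨ (∀ m, r (fl i m) ≠ r m) := by
  obtain ⟨h3, h5, h6, h7⟩ := h
  have key : ∀ a b : F, a = b ↔ a - b = 0 := fun a b => sub_eq_zero.symm
  fin_cases i
  · by_cases h : r 1 - r 0 = 0
    · left
      intro m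
      fin_cases m <;> simp [fl, h3, h5, h6, h7] <;> first | linear_combination h | linear_combination -h
    · right
      intro m
      fin_cases m <;> simp only [fl, h3, h5, h6, h7] <;> intro h' <;> apply h <;>
        simp [h3, h5, h6, h7] at h' <;> first | linear_combination h' | linear_combination -h'
  · by_cases h : r 2 - r 0 = 0
    · left
      intro m
      fin_cases m <;> simp [fl, h3, h5, h6, h7] <;> first | linear_combination h | linear_combination -h
    · right
      intro m
      fin_cases m <;> simp only [fl, h3, h5, h6, h7] <;> intro h' <;> apply h <;>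
        simp [h3, h5, h6, h7] at h' <;> first | linear_combination h' | linear_combination -h'
  · by_cases h : r 4 - r 0 = 0
    · left
      intro m
      fin_cases m <;> simp [fl, h3, h5, h6, h7] <;> first | linear_combination h | linear_combination -h
    · right
      intro m
      fin_cases m <;> simp only [fl, h3, h5, h6, h7] <;> intro h' <;> apply h <;>
        simp [h3, h5, h6, h7] at h' <;> first | linear_combination h' | linear_combination -h'

/-- five zeros force an affine function to vanish -/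
lemma L1 {G : Type*} [CommRing G] {s : Fin 8 → G} (h : Aff s) (Z : Finset (Fin 8))
    (hZ : ∀ m ∈ Z, s m = 0) (hc : 5 ≤ Z.card) : ∀ m, s m = 0 := by
  have hd : ∀ i : Fin 3, ∀ m, s (fl i m) = s m := by
    intro i
    rcases dich h i with h1 | h1
    · exact h1
    · exfalso
      have hdis : Disjoint Z (Z.image (fl i)) := by
        rw [Finset.disjoint_left]
        intro a ha ha'
        rw [Finset.mem_image] at ha'
        obtain ⟨b, hb, rfl⟩ := ha'
        exact h1 b ((hZ _ ha).trans (hZ _ hb).symm)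
      have hinj : Function.Injective (fl i) := by
        intro a b hab
        have := congrArg (fl i) hab
        rwa [fl_fl, fl_fl] at this
      have hcard : (Z ∪ Z.image (fl i)).card = Z.card + Z.card := by
        rw [Finset.card_union_of_disjoint hdis, Finset.card_image_of_injective _ hinj]
      have hle : (Z ∪ Z.image (fl i)).card ≤ 8 := by
        have := Finset.card_le_univ (Z ∪ Z.image (fl i))
        simpa using this
      omega
  have e1 : s 1 = s 0 := hd 0 0
  have e2 : s 2 = s 0 := hd 1 0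
  have e4 : s 4 = s 0 := hd 2 0
  have hall : ∀ m, s m = s 0 := by
    obtain ⟨h3, h5, h6, h7⟩ := h
    intro m
    fin_cases m <;> simp [h3, h5, h6, h7, e1, e2, e4]
  obtain ⟨z, hz⟩ : Z.Nonempty := by
    rw [← Finset.card_pos]; omega
  intro m
  rw [hall m, ← hall z, hZ z hz]

def okM (M : Finset (Fin 8)) : Bool :=
  decide (∃ a ∈ M, fl 0 a ∈ M ∨ fl 1 a ∈ M ∨ fl 2 a ∈ M)

set_option maxRecDepth 100000 in
lemma indep4 : ∀ M : Finset (Fin 8), M.card = 4 → okM M = true ∨ M = {0, 3, 5, 6} ∨ M = {1, 2, 4, 7} := by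
  decide

lemma cov (l : List (Fin 8)) (hn : l.Nodup) (hl : l.length = 8) : ∀ j, j ∈ l := by
  have h1 : l.toFinset = univ := by
    apply Finset.eq_univ_of_card
    rw [List.toFinset_card_of_nodup hn, hl]; rfl
  intro j
  have := Finset.mem_univ j
  rw [← h1] at this
  exact List.mem_toFinset.mp this

lemma okM_false {F : Type*} [CommRing F] {r : Fin 8 → F} (h : ∀ i a, r (fl i a) ≠ r a)
    (M : Finset (Fin 8)) (hM : ∀ a ∈ M, r a = 0) : okM M ≠ true := by
  intro hk
  unfold okM at hk
  rw [decide_eq_true_eq] at hk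
  obtain ⟨a, ha, h1 | h1 | h1⟩ := hk
  · exact h 0 a ((hM _ h1).trans (hM _ ha).symm)
  · exact h 1 a ((hM _ h1).trans (hM _ ha).symm)
  · exact h 2 a ((hM _ h1).trans (hM _ ha).symm)

lemma L4 {F G : Type*} [CommRing F] [IsDomain F] [CommRing G] (h2 : (2 : F) ≠ 0)
    {r : Fin 8 → F} {s : Fin 8 → G} (hr : Aff r) (hs : Aff s)
    (m : Fin 4 → Fin 8) (hm : Function.Injective (fun i => s (m i))) (hr0 : ∀ i, r (m i) = 0)
    (n1 n2 : Fin 8) (s1 : s n1 = 0) (r1 : r n1 ≠ 0) (r2 : r n2 ≠ 0)
    (r12 : r n1 ≠ r n2) :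
    (∀ j, r j = 0 ∨ r j = r n1 ∨ r j = r n2) ∧
    ∃ x, r x ≠ 0 ∧ s x ≠ 0 ∧ ∀ j, j ≠ x → ¬ (r j = r x ∧ s j = s x) := by
  have hmi : Function.Injective m := by
    intro a b hab
    apply hm
    simp only [hab]
  obtain ⟨i, hi⟩ : ∃ i, ∀ a, r (fl i a) = r a := by
    by_contra hcon
    have hno : ∀ i a, r (fl i a) ≠ r a := by
      intro i
      rcases dich hr i with h | h
      · exact absurd ⟨i, h⟩ hcon
      · exact h
    have hM : ∀ a ∈ univ.image m, r a = 0 := by
      intro a ha
      rw [Finset.mem_image] at ha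
      obtain ⟨k, -, rfl⟩ := ha
      exact hr0 k
    have hc : (univ.image m).card = 4 := by
      rw [Finset.card_image_of_injective _ hmi]; rfl
    obtain ⟨h3, h5, h6, h7⟩ := hr
    rcases indep4 _ hc with h | h | h
    · exact okM_false hno _ hM h
    · rw [h] at hM
      have a0 := hM 0 (by simp)
      have a3 := hM 3 (by simp)
      have a5 := hM 5 (by simp)
      have a6 := hM 6 (by simp)
      have : 2 * (r 1 - r 0) = 0 := by
        linear_combination (-1 : F) * h3 - h5 + h6 + a3 + a5 - a6 - a0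
      have h0 : r 1 - r 0 = 0 := (mul_eq_zero.mp this).resolve_left h2
      exact hno 0 0 (by show r 1 = r 0; linear_combination h0)
    · rw [h] at hM
      have a1 := hM 1 (by simp)
      have a2 := hM 2 (by simp)
      have a4 := hM 4 (by simp)
      have a7 := hM 7 (by simp)
      have : 2 * (r 0) = 0 := by
        linear_combination h7 + a1 + a2 + a4 - a7
      have h0 : r 0 = 0 := (mul_eq_zero.mp this).resolve_left h2
      exact hno 0 0 (by show r 1 = r 0; rw [a1, h0])
  have hne : ∀ a b, r a ≠ r b → a ≠ b := by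
    intro a b h hab; exact h (by rw [hab])
  have rm : ∀ k, r (m k) = 0 := hr0
  have rf1 : r (fl i n1) = r n1 := hi n1
  have rf2 : r (fl i n2) = r n2 := hi n2
  have hl : [m 0, m 1, m 2, m 3, n1, fl i n1, n2, fl i n2].Nodup := by
    have e01 : m 0 ≠ m 1 := fun h => absurd (hmi h) (by decide)
    have e02 : m 0 ≠ m 2 := fun h => absurd (hmi h) (by decide)
    have e03 : m 0 ≠ m 3 := fun h => absurd (hmi h) (by decide)
    have e12 : m 1 ≠ m 2 := fun h => absurd (hmi h) (by decide)
    have e13 : m 1 ≠ m 3 := fun h => absurd (hmi h) (by decide)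
    have e23 : m 2 ≠ m 3 := fun h => absurd (hmi h) (by decide)
    have q1 : ∀ k, m k ≠ n1 := fun k => hne _ _ (by rw [rm k]; exact Ne.symm r1)
    have q2 : ∀ k, m k ≠ fl i n1 := fun k => hne _ _ (by rw [rm k, rf1]; exact Ne.symm r1)
    have q3 : ∀ k, m k ≠ n2 := fun k => hne _ _ (by rw [rm k]; exact Ne.symm r2)
    have q4 : ∀ k, m k ≠ fl i n2 := fun k => hne _ _ (by rw [rm k, rf2]; exact Ne.symm r2)
    have q5 : n1 ≠ n2 := hne _ _ r12
    have q6 : n1 ≠ fl i n2 := hne _ _ (by rw [rf2]; exact r12)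
    have q7 : fl i n1 ≠ n2 := hne _ _ (by rw [rf1]; exact r12)
    have q8 : fl i n1 ≠ fl i n2 := hne _ _ (by rw [rf1, rf2]; exact r12)
    simp only [List.nodup_cons, List.mem_cons, List.not_mem_nil, or_false, not_or, List.nodup_nil,
      and_true, not_false_eq_true]
    exact ⟨⟨e01, e02, e03, q1 0, q2 0, q3 0, q4 0⟩, ⟨e12, e13, q1 1, q2 1, q3 1, q4 1⟩,
      ⟨e23, q1 2, q2 2, q3 2, q4 2⟩, ⟨q1 3, q2 3, q3 3, q4 3⟩, ⟨(fl_ne i n1).symm, q5, q6⟩,
      ⟨q7, q8⟩, (fl_ne i n2).symm⟩
  have hcov := cov _ hl rfl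
  simp only [List.mem_cons, List.not_mem_nil, or_false] at hcov
  refine ⟨?_, fl i n1, by rw [rf1]; exact r1, ?_, ?_⟩
  · intro j
    rcases hcov j with h | h | h | h | h | h | h | h <;> subst h
    · left; exact rm 0
    · left; exact rm 1
    · left; exact rm 2
    · left; exact rm 3
    · right; left; rfl
    · right; left; exact rf1
    · right; right; rfl
    · right; right; exact rf2
  · rcases dich hs i with hsi | hsi
    · exfalso
      have e : r (fl i (m 0)) = 0 := by rw [hi, rm]
      have key : ∀ k, fl i (m 0) = m k → False := by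
        intro k hk
        have : s (m k) = s (m 0) := by rw [← hk, hsi]
        have := hm this
        subst this
        exact fl_ne _ _ hk
      rcases hcov (fl i (m 0)) with h | h | h | h | h | h | h | h
      · exact key 0 h
      · exact key 1 h
      · exact key 2 h
      · exact key 3 h
      · rw [h] at e; exact r1 e
      · rw [h, rf1] at e; exact r1 e
      · rw [h] at e; exact r2 e
      · rw [h, rf2] at e; exact r2 e
    · have := hsi n1
      rwa [s1] at this
  · rintro j hj ⟨hj1, hj2⟩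
    have hsx : s (fl i n1) ≠ 0 := by
      rcases dich hs i with hsi | hsi
      · exfalso
        have e : r (fl i (m 0)) = 0 := by rw [hi, rm]
        have key : ∀ k, fl i (m 0) = m k → False := by
          intro k hk
          have : s (m k) = s (m 0) := by rw [← hk, hsi]
          have := hm this
          subst this
          exact fl_ne _ _ hk
        rcases hcov (fl i (m 0)) with h | h | h | h | h | h | h | h
        · exact key 0 h
        · exact key 1 h
        · exact key 2 h
        · exact key 3 h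
        · rw [h] at e; exact r1 e
        · rw [h, rf1] at e; exact r1 e
        · rw [h] at e; exact r2 e
        · rw [h, rf2] at e; exact r2 e
      · have := hsi n1
        rwa [s1] at this
    rw [rf1] at hj1
    rcases hcov j with h | h | h | h | h | h | h | h
    · rw [h, rm] at hj1; exact r1 hj1.symm
    · rw [h, rm] at hj1; exact r1 hj1.symm
    · rw [h, rm] at hj1; exact r1 hj1.symm
    · rw [h, rm] at hj1; exact r1 hj1.symm
    · rw [h, s1] at hj2; exact hsx hj2.symm
    · exact hj h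
    · rw [h] at hj1; exact r12 hj1.symm
    · rw [h, rf2] at hj1; exact r12 hj1.symm

/-- translations of the cube -/
def tr (t m : Fin 8) : Fin 8 := ⟨(Nat.xor t.val m.val) % 8, Nat.mod_lt _ (by norm_num)⟩

lemma tr_fl (t : Fin 8) (i : Fin 3) (m : Fin 8) : tr t (fl i m) = fl i (tr t m) := by
  revert t i m; decide

lemma tr_tr (t m : Fin 8) : tr t (tr t m) = m := by revert t m; decide

lemma aff_face {F : Type*} [CommRing F] {r : Fin 8 → F} (h : Aff r) :
    ∀ i j : Fin 3, i ≠ j → ∀ m, r (fl i (fl j m)) + r m = r (fl i m) + r (fl j m) := by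
  obtain ⟨h3, h5, h6, h7⟩ := h
  intro i j hij m
  fin_cases i <;> fin_cases j <;> first | (exact absurd rfl hij) | skip
  all_goals fin_cases m <;> simp [fl, h3, h5, h6, h7] <;> ring

lemma aff_of_face {F : Type*} [CommRing F] {r : Fin 8 → F}
    (h : ∀ i j : Fin 3, i ≠ j → ∀ m, r (fl i (fl j m)) + r m = r (fl i m) + r (fl j m)) : Aff r := by
  have a3 : r 3 + r 0 = r 1 + r 2 := h 0 1 (by decide) 0
  have a5 : r 5 + r 0 = r 1 + r 4 := h 0 2 (by decide) 0
  have a6 : r 6 + r 0 = r 2 + r 4 := h 1 2 (by decide) 0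
  have a7 : r 7 + r 1 = r 3 + r 5 := h 1 2 (by decide) 1
  refine ⟨by linear_combination a3, by linear_combination a5, by linear_combination a6, ?_⟩
  linear_combination a7 + a3 + a5

lemma aff_tr {F : Type*} [CommRing F] {r : Fin 8 → F} (h : Aff r) (t : Fin 8) :
    Aff (fun m => r (tr t m)) := by
  apply aff_of_face
  intro i j hij m
  simp only [tr_fl]
  exact aff_face h i j hij (tr t m)

set_option maxRecDepth 100000 in
lemma indep3 : ∀ M : Finset (Fin 8), M.card = 3 → okM M = true ∨
    ∃ t : Fin 8, tr t 0 ∈ M ∧ tr t 3 ∈ M ∧ tr t 5 ∈ M := by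
  decide

lemma ph {F : Type*} (g : Fin 3 → F) (hg : Function.Injective g) (a b : F)
    (h : ∀ i, g i = a ∨ g i = b) : False := by
  have e01 : g 0 ≠ g 1 := fun h => absurd (hg h) (by decide)
  have e02 : g 0 ≠ g 2 := fun h => absurd (hg h) (by decide)
  have e12 : g 1 ≠ g 2 := fun h => absurd (hg h) (by decide)
  rcases h 0 with h0 | h0 <;> rcases h 1 with h1 | h1 <;> rcases h 2 with h2 | h2 <;>
    simp_all

lemma L33core {F G : Type*} [CommRing F] [CommRing G]
    {r : Fin 8 → F} {s : Fin 8 → G} (hr : Aff r) (hs : Aff s)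
    (r0 : r 0 = 0) (r3 : r 3 = 0) (r5 : r 5 = 0) (s0 : s 0 ≠ 0) (s3 : s 3 ≠ 0) (s5 : s 5 ≠ 0)
    (n : Fin 3 → Fin 8) (hn : Function.Injective (fun i => r (n i)))
    (sn : ∀ i, s (n i) = 0) (rn : ∀ i, r (n i) ≠ 0) : False := by
  obtain ⟨h3, h5, h6, h7⟩ := hr
  have e2 : r 2 = - r 1 := by linear_combination r3 - h3 + r0
  have e4 : r 4 = - r 1 := by linear_combination r5 - h5 + r0
  have e6 : r 6 = - r 1 - r 1 := by rw [h6, e2, e4, r0]; ring
  have e7 : r 7 = - r 1 := by rw [h7, e2, e4, r0]; ring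
  have hn5 : ∀ i, n i = 1 ∨ n i = 2 ∨ n i = 4 ∨ n i = 6 ∨ n i = 7 := by
    intro i
    have h := rn i
    generalize n i = x at h ⊢
    fin_cases x
    · exact absurd r0 h
    · simp
    · simp
    · exact absurd r3 h
    · simp
    · exact absurd r5 h
    · simp
    · simp
  have c1 : ∃ i, n i = 1 := by
    by_contra hcon
    refine ph _ hn (- r 1) (- r 1 - r 1) ?_
    intro i
    show r (n i) = _ ∨ r (n i) = _
    rcases hn5 i with h | h | h | h | h
    · exact absurd ⟨i, h⟩ hcon
    · left; rw [h, e2]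
    · left; rw [h, e4]
    · right; rw [h, e6]
    · left; rw [h, e7]
  have c6 : ∃ i, n i = 6 := by
    by_contra hcon
    refine ph _ hn (- r 1) (r 1) ?_
    intro i
    show r (n i) = _ ∨ r (n i) = _
    rcases hn5 i with h | h | h | h | h
    · right; rw [h]
    · left; rw [h, e2]
    · left; rw [h, e4]
    · exact absurd ⟨i, h⟩ hcon
    · left; rw [h, e7]
  have c7 : ∃ i, n i = 2 ∨ n i = 4 ∨ n i = 7 := by
    by_contra hcon
    refine ph _ hn (r 1) (- r 1 - r 1) ?_
    intro i
    show r (n i) = _ ∨ r (n i) = _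
    rcases hn5 i with h | h | h | h | h
    · left; rw [h]
    · exact absurd ⟨i, Or.inl h⟩ hcon
    · exact absurd ⟨i, Or.inr (Or.inl h)⟩ hcon
    · right; rw [h, e6]
    · exact absurd ⟨i, Or.inr (Or.inr h)⟩ hcon
  obtain ⟨i, hi⟩ := c1
  obtain ⟨j, hj⟩ := c6
  obtain ⟨k, hk⟩ := c7
  have s1 : s 1 = 0 := by rw [← hi]; exact sn i
  have s6 : s 6 = 0 := by rw [← hj]; exact sn j
  obtain ⟨g3, g5, g6, g7⟩ := hs
  rcases hk with hk | hk | hk
  · have s2 : s 2 = 0 := by rw [← hk]; exact sn k
    apply s5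
    linear_combination g5 + s1 + s6 - g6 - s2
  · have s4 : s 4 = 0 := by rw [← hk]; exact sn k
    apply s3
    linear_combination g3 + s1 + s6 - g6 - s4
  · have s7 : s 7 = 0 := by rw [← hk]; exact sn k
    apply s0
    linear_combination (-1 : G) * s7 + g7 + s1 - g6 + s6

lemma L33 {F G : Type*} [CommRing F] [CommRing G]
    {r : Fin 8 → F} {s : Fin 8 → G} (hr : Aff r) (hs : Aff s)
    (m : Fin 3 → Fin 8) (hm : Function.Injective m) (rm : ∀ i, r (m i) = 0)
    (sm : ∀ i, s (m i) ≠ 0)
    (n : Fin 3 → Fin 8) (hn : Function.Injective (fun i => r (n i)))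
    (sn : ∀ i, s (n i) = 0) (rn : ∀ i, r (n i) ≠ 0) : False := by
  have hne : ∀ a b, r a ≠ r b → a ≠ b := by
    intro a b h hab; exact h (by rw [hab])
  by_cases hdir : ∃ i, ∀ a, r (fl i a) = r a
  · obtain ⟨i, hi⟩ := hdir
    have hl : [m 0, m 1, m 2, n 0, fl i (n 0), n 1, fl i (n 1), n 2, fl i (n 2)].Nodup := by
      have e01 : m 0 ≠ m 1 := fun h => absurd (hm h) (by decide)
      have e02 : m 0 ≠ m 2 := fun h => absurd (hm h) (by decide)
      have e12 : m 1 ≠ m 2 := fun h => absurd (hm h) (by decide)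
      have q1 : ∀ k l, m k ≠ n l := fun k l => hne _ _ (by rw [rm k]; exact Ne.symm (rn l))
      have q2 : ∀ k l, m k ≠ fl i (n l) := fun k l =>
        hne _ _ (by rw [rm k, hi]; exact Ne.symm (rn l))
      have r12 : ∀ k l, k ≠ l → r (n k) ≠ r (n l) := fun k l hkl h => hkl (hn h)
      have q5 : ∀ k l, k ≠ l → n k ≠ n l := fun k l hkl => hne _ _ (r12 k l hkl)
      have q6 : ∀ k l, k ≠ l → n k ≠ fl i (n l) := fun k l hkl =>
        hne _ _ (by rw [hi]; exact r12 k l hkl)
      have q7 : ∀ k l, k ≠ l → fl i (n k) ≠ n l := fun k l hkl =>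
        hne _ _ (by rw [hi]; exact r12 k l hkl)
      have q8 : ∀ k l, k ≠ l → fl i (n k) ≠ fl i (n l) := fun k l hkl =>
        hne _ _ (by rw [hi, hi]; exact r12 k l hkl)
      have d01 : (0 : Fin 3) ≠ 1 := by decide
      have d02 : (0 : Fin 3) ≠ 2 := by decide
      have d12 : (1 : Fin 3) ≠ 2 := by decide
      simp only [List.nodup_cons, List.mem_cons, List.not_mem_nil, or_false, not_or,
        List.nodup_nil, and_true, not_false_eq_true]
      exact ⟨⟨e01, e02, q1 0 0, q2 0 0, q1 0 1, q2 0 1, q1 0 2, q2 0 2⟩,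
        ⟨e12, q1 1 0, q2 1 0, q1 1 1, q2 1 1, q1 1 2, q2 1 2⟩,
        ⟨q1 2 0, q2 2 0, q1 2 1, q2 2 1, q1 2 2, q2 2 2⟩,
        ⟨(fl_ne i _).symm, q5 0 1 d01, q6 0 1 d01, q5 0 2 d02, q6 0 2 d02⟩,
        ⟨q7 0 1 d01, q8 0 1 d01, q7 0 2 d02, q8 0 2 d02⟩,
        ⟨(fl_ne i _).symm, q5 1 2 d12, q6 1 2 d12⟩, ⟨q7 1 2 d12, q8 1 2 d12⟩, (fl_ne i _).symm⟩
    have := hl.length_le_card
    simp at this
  · have hno : ∀ i a, r (fl i a) ≠ r a := by
      intro i
      rcases dich hr i with h | h
      · exact absurd ⟨i, h⟩ hdir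
      · exact h
    have hM : ∀ a ∈ univ.image m, r a = 0 ∧ s a ≠ 0 := by
      intro a ha
      rw [Finset.mem_image] at ha
      obtain ⟨k, -, rfl⟩ := ha
      exact ⟨rm k, sm k⟩
    have hc : (univ.image m).card = 3 := by
      rw [Finset.card_image_of_injective _ hm]; rfl
    rcases indep3 _ hc with h | ⟨t, h0, h3, h5⟩
    · exact okM_false hno _ (fun a ha => (hM a ha).1) h
    · refine L33core (aff_tr hr t) (aff_tr hs t) (hM _ h0).1 (hM _ h3).1 (hM _ h5).1 (hM _ h0).2
        (hM _ h3).2 (hM _ h5).2 (fun i => tr t (n i)) ?_ ?_ ?_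
      · intro a b hab
        simp only [tr_tr] at hab
        exact hn hab
      · intro i; simp only [tr_tr]; exact sn i
      · intro i; simp only [tr_tr]; exact rn i

end XC
end Pool.Agent.T6.H31.TC
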