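import Pool.Agent.T6.H31.TC.XC

set_option autoImplicit false

/-! Conversions and counting, used by the modules X1, X2, X3, X4, X5. -/

namespace Pool.Agent.T6.H31.TC
namespace XC

open Finset

lemma EE0 (N : ℕ) (e : Fin 6 → ℤ) : EE N e 0 = e 0 + e 1 + e 2 := by
  simp [EE, dot, V, Fin.sum_univ_succ]; try ring

lemma EE1 (N : ℕ) (e : Fin 6 → ℤ) : EE N e 1 = -e 0 + e 1 + e 2 := by
  simp [EE, dot, V, Fin.sum_univ_succ]; try ring

lemma EE2 (N : ℕ) (e : Fin 6 → ℤ) : EE N e 2 = e 0 - e 1 + e 2 := by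
  simp [EE, dot, V, Fin.sum_univ_succ]; try ring

lemma EE3 (N : ℕ) (e : Fin 6 → ℤ) : EE N e 3 = -e 0 - e 1 + e 2 := by
  simp [EE, dot, V, Fin.sum_univ_succ]; try ring

lemma EE4 (N : ℕ) (e : Fin 6 → ℤ) : EE N e 4 = e 0 + e 1 - e 2 := by
  simp [EE, dot, V, Fin.sum_univ_succ]; try ring

lemma EE5 (N : ℕ) (e : Fin 6 → ℤ) : EE N e 5 = -e 0 + e 1 - e 2 := by
  simp [EE, dot, V, Fin.sum_univ_succ]; try ring

lemma EE6 (N : ℕ) (e : Fin 6 → ℤ) : EE N e 6 = e 0 - e 1 - e 2 := by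
  simp [EE, dot, V, Fin.sum_univ_succ]; try ring

lemma EE7 (N : ℕ) (e : Fin 6 → ℤ) : EE N e 7 = -e 0 - e 1 - e 2 := by
  simp [EE, dot, V, Fin.sum_univ_succ]; try ring

lemma EE8 (N : ℕ) (e : Fin 6 → ℤ) : EE N e 8 = e 3 + e 4 + e 5 + ((N / 2 : ℕ) : ℤ) := by
  simp [EE, dot, V, Fin.sum_univ_succ]; try ring

lemma EE9 (N : ℕ) (e : Fin 6 → ℤ) : EE N e 9 = -e 3 + e 4 + e 5 + ((N / 2 : ℕ) : ℤ) := by
  simp [EE, dot, V, Fin.sum_univ_succ]; try ring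

lemma EE10 (N : ℕ) (e : Fin 6 → ℤ) : EE N e 10 = e 3 - e 4 + e 5 + ((N / 2 : ℕ) : ℤ) := by
  simp [EE, dot, V, Fin.sum_univ_succ]; try ring

lemma EE11 (N : ℕ) (e : Fin 6 → ℤ) : EE N e 11 = -e 3 - e 4 + e 5 + ((N / 2 : ℕ) : ℤ) := by
  simp [EE, dot, V, Fin.sum_univ_succ]; try ring

lemma EE12 (N : ℕ) (e : Fin 6 → ℤ) : EE N e 12 = e 3 + e 4 - e 5 + ((N / 2 : ℕ) : ℤ) := by
  simp [EE, dot, V, Fin.sum_univ_succ]; try ring

lemma EE13 (N : ℕ) (e : Fin 6 → ℤ) : EE N e 13 = -e 3 + e 4 - e 5 + ((N / 2 : ℕ) : ℤ) := by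
  simp [EE, dot, V, Fin.sum_univ_succ]; try ring

lemma EE14 (N : ℕ) (e : Fin 6 → ℤ) : EE N e 14 = e 3 - e 4 - e 5 + ((N / 2 : ℕ) : ℤ) := by
  simp [EE, dot, V, Fin.sum_univ_succ]; try ring

lemma EE15 (N : ℕ) (e : Fin 6 → ℤ) : EE N e 15 = -e 3 - e 4 - e 5 + ((N / 2 : ℕ) : ℤ) := by
  simp [EE, dot, V, Fin.sum_univ_succ]; try ring

lemma Qhalf (N D : ℕ) (hN : 0 < N) (hD : D ∣ N) (h2 : 2 ∣ D) :
    ((N / D : ℕ) : ℤ) ∣ ((N / 2 : ℕ) : ℤ) := by
  obtain ⟨Q, rfl⟩ := hD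
  obtain ⟨d, rfl⟩ := h2
  have hd : 0 < 2 * d := Nat.pos_of_mul_pos_right hN |> fun h => by
    rcases Nat.eq_zero_or_pos (2 * d) with h0 | h0
    · rw [h0] at hN; simp at hN
    · exact h0
  have e1 : 2 * d * Q / (2 * d) = Q := Nat.mul_div_cancel_left Q hd
  have e2 : 2 * d * Q / 2 = d * Q := by
    rw [mul_assoc, Nat.mul_div_cancel_left _ (by norm_num)]
  rw [e1, e2]
  exact_mod_cast Dvd.intro_left d rfl

lemma Qpos (N D : ℕ) (hN : 0 < N) (hD : D ∣ N) : 0 < N / D :=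
  Nat.div_pos (Nat.le_of_dvd hN hD) (Nat.pos_of_dvd_of_pos hD hN)

lemma EE_dvd (N D : ℕ) (e : Fin 6 → ℤ) (hN : 0 < N) (hD : D ∣ N) (h2 : 2 ∣ D) (m n : Fin 16) :
    ((N / D : ℕ) : ℤ) ∣ EE N e m - EE N e n ↔ ((N / D : ℕ) : ℤ) ∣ dv m n e := by
  have h := Qhalf N D hN hD h2
  have e1 : EE N e m - EE N e n = dv m n e + ((if m.val < 8 then 0 else ((N / 2 : ℕ) : ℤ)) -
      (if n.val < 8 then 0 else ((N / 2 : ℕ) : ℤ))) := by
    unfold EE dv; ring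
  rw [e1]
  apply dvd_add_left
  apply dvd_sub <;> split_ifs <;> first | exact dvd_zero _ | exact h

lemma conv (Q : ℕ) (hQ : 0 < Q) (p : ℕ) (x r : ℤ) :
    ((p * Q : ℕ) : ℤ) ∣ x - r * (Q : ℤ) ↔
      ((Q : ℤ) ∣ x ∧ ((x / (Q : ℤ) - r : ℤ) : ZMod p) = 0) := by
  have hQ' : (Q : ℤ) ≠ 0 := by exact_mod_cast hQ.ne'
  rw [ZMod.intCast_zmod_eq_zero_iff_dvd]
  constructor
  · rintro ⟨t, ht⟩
    push_cast at ht
    have hx : x = (Q : ℤ) * (r + p * t) := by linear_combination ht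
    refine ⟨⟨_, hx⟩, ?_⟩
    rw [hx, Int.mul_ediv_cancel_left _ hQ']
    exact ⟨t, by ring⟩
  · rintro ⟨⟨k, hk⟩, h⟩
    rw [hk, Int.mul_ediv_cancel_left _ hQ'] at h
    obtain ⟨t, ht⟩ := h
    refine ⟨t, ?_⟩
    push_cast
    rw [hk]
    linear_combination (Q : ℤ) * ht

/-- the abstract form of the cross structure -/
lemma crabs (hc : StmtCR) (E : Fin 16 → ℤ) (N D p q : ℕ) (y : ℤ) (hN : 0 < N) (hD : D ∣ N)
    (hp : p.Prime) (hq : q.Prime) (h5 : 5 ≤ q) (hqp : q < p) (hpq : p * q ∣ D)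
    (hpp : ¬ p * p ∣ D) (hqq : ¬ q * q ∣ D) (hCS : CS E N D) (hFp : FullAt E N p D y)
    (hFq : FullAt E N q D y)
    (c1 : (univ.filter (fun i => ((N / D : ℕ) : ℤ) ∣ E i - y)).card < 2 * p)
    (c2 : (univ.filter (fun i => ((N / D : ℕ) : ℤ) ∣ E i - y)).card < p + 2 * q - 4) :
    p + q - 2 ≤ (univ.filter (fun i => ((N / D : ℕ) : ℤ) ∣ E i - y)).card ∧
    ∃ (K : Fin 16 → ℤ) (R : Fin 16 → ZMod p) (S : Fin 16 → ZMod q) (r0 s0 : ℤ),
      (∀ i, R i = ((K i - r0 : ℤ) : ZMod p)) ∧ (∀ i, S i = ((K i - s0 : ℤ) : ZMod q)) ∧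
      (∀ i, ((N / D : ℕ) : ℤ) ∣ E i - y → E i - y = ((N / D : ℕ) : ℤ) * K i) ∧
      (∀ v : ZMod p, v ≠ 0 → ∃ i, ((N / D : ℕ) : ℤ) ∣ E i - y ∧ S i = 0 ∧ R i = v) ∧
      (∀ w : ZMod q, w ≠ 0 → ∃ i, ((N / D : ℕ) : ℤ) ∣ E i - y ∧ R i = 0 ∧ S i = w) ∧
      (∀ i, ((N / D : ℕ) : ℤ) ∣ E i - y → R i ≠ 0 → S i ≠ 0 →
        ∃ j, j ≠ i ∧ ((N / D : ℕ) : ℤ) ∣ E j - y ∧ R j = R i ∧ S j = S i) := by
  obtain ⟨hsz, r0, s0, H1, H2, H3⟩ := hc (Fin 16) E N D p q y hN hD hp hq h5 hqp hpq hpp hqq hCS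
    hFp hFq c1 c2
  refine ⟨hsz, fun i => (E i - y) / ((N / D : ℕ) : ℤ),
    fun i => (((E i - y) / ((N / D : ℕ) : ℤ) - r0 : ℤ) : ZMod p),
    fun i => (((E i - y) / ((N / D : ℕ) : ℤ) - s0 : ℤ) : ZMod q), r0, s0, fun i => rfl,
    fun i => rfl, ?_, ?_, ?_, ?_⟩
  · intro i hi
    exact (Int.mul_ediv_cancel' hi).symm
  · intro v hv
    obtain ⟨v', rfl⟩ := ZMod.intCast_surjective v
    have hv' : ¬ (p : ℤ) ∣ (v' + r0) - r0 := by
      intro h
      apply hv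
      rw [ZMod.intCast_zmod_eq_zero_iff_dvd]
      simpa using h
    obtain ⟨i, hi1, hi2⟩ := H1 (v' + r0) hv'
    rw [conv _ (Qpos N D hN hD)] at hi1 hi2
    refine ⟨i, hi1.1, hi2.2, ?_⟩
    have := hi1.2
    push_cast at this ⊢
    linear_combination this
  · intro v hv
    obtain ⟨v', rfl⟩ := ZMod.intCast_surjective v
    have hv' : ¬ (q : ℤ) ∣ (v' + s0) - s0 := by
      intro h
      apply hv
      rw [ZMod.intCast_zmod_eq_zero_iff_dvd]
      simpa using h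
    obtain ⟨i, hi1, hi2⟩ := H2 (v' + s0) hv'
    rw [conv _ (Qpos N D hN hD)] at hi1 hi2
    refine ⟨i, hi1.1, hi1.2, ?_⟩
    have := hi2.2
    push_cast at this ⊢
    linear_combination this
  · intro i hi hR hS
    have h1 : ¬ ((p * (N / D) : ℕ) : ℤ) ∣ E i - y - r0 * ((N / D : ℕ) : ℤ) := by
      rw [conv _ (Qpos N D hN hD)]
      exact fun h => hR h.2
    have h2 : ¬ ((q * (N / D) : ℕ) : ℤ) ∣ E i - y - s0 * ((N / D : ℕ) : ℤ) := by
      rw [conv _ (Qpos N D hN hD)]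
      exact fun h => hS h.2
    obtain ⟨j, hji, hj⟩ := H3 i hi h1 h2
    have hQ' : ((N / D : ℕ) : ℤ) ≠ 0 := by exact_mod_cast (Qpos N D hN hD).ne'
    obtain ⟨k, hk⟩ := hi
    obtain ⟨t, ht⟩ := hj
    have hj' : E j - y = ((N / D : ℕ) : ℤ) * (k - p * q * t) := by
      push_cast at ht
      push_cast at hk ⊢
      linear_combination hk - ht
    refine ⟨j, hji, ⟨_, hj'⟩, ?_, ?_⟩
    · beta_reduce
      rw [hj', hk, Int.mul_ediv_cancel_left _ hQ', Int.mul_ediv_cancel_left _ hQ']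
      push_cast
      simp
    · beta_reduce
      rw [hj', hk, Int.mul_ediv_cancel_left _ hQ', Int.mul_ediv_cancel_left _ hQ']
      push_cast
      simp

/-! ### Counting -/

/-- the values of `s` on the elements with `r = 0`, `s ≠ 0` -/
def AS {τ F G : Type} [Fintype τ] [Zero F] [Zero G] [DecidableEq F] [DecidableEq G]
    (r : τ → F) (s : τ → G) : Finset G :=
  (univ.filter (fun m => r m = 0 ∧ s m ≠ 0)).image s

section
variable {τ F G : Type} [Fintype τ] [Zero F] [Zero G] [DecidableEq F] [DecidableEq G]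

lemma AS_le (r : τ → F) (s : τ → G) :
    (AS r s).card ≤ (univ.filter (fun m => r m = 0 ∧ s m ≠ 0)).card := Finset.card_image_le

lemma AS_sum [DecidableEq τ] (r : τ → F) (s : τ → G) :
    (univ.filter (fun m => r m = 0 ∧ s m ≠ 0)).card +
      (univ.filter (fun m => s m = 0 ∧ r m ≠ 0)).card ≤ Fintype.card τ := by
  rw [← Finset.card_union_of_disjoint]
  · exact Finset.card_le_univ _
  · rw [Finset.disjoint_left]
    intro a ha hb
    simp only [Finset.mem_filter, Finset.mem_univ, true_and] at ha hb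
    exact ha.2 hb.1

lemma AS_add [DecidableEq τ] (r : τ → F) (s : τ → G) :
    (AS r s).card + (AS s r).card ≤ Fintype.card τ :=
  le_trans (Nat.add_le_add (AS_le r s) (AS_le s r)) (AS_sum r s)

lemma AS_all [DecidableEq τ] (r : τ → F) (s : τ → G)
    (h : Fintype.card τ ≤ (AS r s).card + (AS s r).card) :
    ∀ m, (r m = 0 ∧ s m ≠ 0) ∨ (s m = 0 ∧ r m ≠ 0) := by
  have h1 := Nat.add_le_add (AS_le r s) (AS_le s r)
  have h2 : (univ.filter (fun m => r m = 0 ∧ s m ≠ 0) ∪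
      univ.filter (fun m => s m = 0 ∧ r m ≠ 0)) = univ := by
    apply Finset.eq_univ_of_card
    rw [Finset.card_union_of_disjoint]
    · exact le_antisymm (AS_sum r s) (le_trans h h1)
    · rw [Finset.disjoint_left]
      intro a ha hb
      simp only [Finset.mem_filter, Finset.mem_univ, true_and] at ha hb
      exact ha.2 hb.1
  intro m
  have := Finset.mem_univ m
  rw [← h2] at this
  simpa only [Finset.mem_union, Finset.mem_filter, Finset.mem_univ, true_and] using this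

lemma AS_ext (r : τ → F) (s : τ → G) (k : ℕ) (h : k ≤ (AS r s).card) :
    ∃ m : Fin k → τ, Function.Injective (fun i => s (m i)) ∧ (∀ i, r (m i) = 0) ∧
      ∀ i, s (m i) ≠ 0 := by
  have hg : ∃ g : Fin k → G, Function.Injective g ∧ ∀ i, g i ∈ AS r s := by
    refine ⟨fun i => ((AS r s).equivFin.symm (Fin.castLE h i) : G), ?_, ?_⟩
    · intro a b hab
      have := (AS r s).equivFin.symm.injective (Subtype.ext hab)
      exact Fin.castLE_injective h this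
    · intro i
      exact ((AS r s).equivFin.symm (Fin.castLE h i)).2
  obtain ⟨g, hg, hg'⟩ := hg
  have hm : ∀ i, ∃ m : τ, (r m = 0 ∧ s m ≠ 0) ∧ s m = g i := by
    intro i
    have := hg' i
    unfold AS at this
    rw [Finset.mem_image] at this
    obtain ⟨m, hm, hm'⟩ := this
    simp only [Finset.mem_filter, Finset.mem_univ, true_and] at hm
    exact ⟨m, hm, hm'⟩
  choose m hm hm' using hm
  refine ⟨m, ?_, fun i => (hm i).1, fun i => (hm i).2⟩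
  intro a b hab
  simp only [hm'] at hab
  exact hg hab

lemma AS_ne [Fintype G] (r : τ → F) (s : τ → G) : (AS r s).card + 1 ≤ Fintype.card G := by
  have h0 : (0 : G) ∉ AS r s := by
    unfold AS
    rw [Finset.mem_image]
    rintro ⟨m, hm, hm'⟩
    simp only [Finset.mem_filter, Finset.mem_univ, true_and] at hm
    exact hm.2 hm'
  rw [← Finset.card_insert_of_notMem h0]
  exact Finset.card_le_univ _

lemma mem_AS (r : τ → F) (s : τ → G) (m : τ) (h1 : r m = 0) (h2 : s m ≠ 0) : s m ∈ AS r s := by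
  unfold AS
  rw [Finset.mem_image]
  exact ⟨m, by simp [h1, h2], rfl⟩

end

lemma AS_tot {σ τ F G : Type} [Fintype σ] [Fintype τ] [Zero F] [Zero G] [DecidableEq F]
    [DecidableEq G] [Fintype G] (r : σ → F) (s : σ → G) (r' : τ → F) (s' : τ → G)
    (h : ∀ w : G, w ≠ 0 → (∃ m, r m = 0 ∧ s m = w) ∨ (∃ m, r' m = 0 ∧ s' m = w)) :
    Fintype.card G ≤ (AS r s).card + (AS r' s').card + 1 := by
  have h1 : (univ : Finset G) ⊆ insert 0 (AS r s ∪ AS r' s') := by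
    intro w _
    by_cases hw : w = 0
    · rw [hw]; exact Finset.mem_insert_self _ _
    · apply Finset.mem_insert_of_mem
      rw [Finset.mem_union]
      rcases h w hw with ⟨m, h1, h2⟩ | ⟨m, h1, h2⟩
      · left; rw [← h2]; exact mem_AS r s m h1 (by rw [h2]; exact hw)
      · right; rw [← h2]; exact mem_AS r' s' m h1 (by rw [h2]; exact hw)
  have h2 := Finset.card_le_card h1
  have h3 := Finset.card_insert_le (0 : G) (AS r s ∪ AS r' s')
  have h4 := Finset.card_union_le (AS r s) (AS r' s')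
  rw [Finset.card_univ] at h2
  omega

section
variable {F G : Type} [CommRing F] [CommRing G] [DecidableEq F] [DecidableEq G]

/-- five values force vanishing -/
lemma F0 {r : Fin 8 → F} {s : Fin 8 → G} (hs : Aff s) (h : 5 ≤ (AS s r).card) : ∀ m, s m = 0 := by
  apply L1 hs (univ.filter (fun m => s m = 0 ∧ r m ≠ 0))
  · intro m hm
    simp only [Finset.mem_filter, Finset.mem_univ, true_and] at hm
    exact hm.1
  · exact le_trans h (AS_le s r)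

lemma F1 {r : Fin 8 → F} {s : Fin 8 → G} (hs : Aff s) (h : 1 ≤ (AS r s).card) :
    (AS s r).card ≤ 4 := by
  by_contra hcon
  have h5 : 5 ≤ (AS s r).card := by omega
  obtain ⟨m, -, -, hm⟩ := AS_ext r s 1 h
  exact hm 0 (F0 hs h5 _)

lemma F2 {r : Fin 8 → F} {s : Fin 8 → G} (hr : Aff r) (hs : Aff s) (h : 3 ≤ (AS r s).card) :
    (AS s r).card ≤ 2 := by
  by_contra hcon
  have h5 : 3 ≤ (AS s r).card := by omega
  obtain ⟨m, h1, h2, h3⟩ := AS_ext r s 3 h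
  obtain ⟨n, g1, g2, g3⟩ := AS_ext s r 3 h5
  refine L33 hr hs m ?_ h2 h3 n g1 g2 g3
  intro a b hab
  apply h1
  simp only [hab]

lemma F3 [IsDomain F] (h2 : (2 : F) ≠ 0) {r : Fin 8 → F} {s : Fin 8 → G} (hr : Aff r)
    (hs : Aff s) (h : 4 ≤ (AS r s).card) (h' : 2 ≤ (AS s r).card) :
    ∃ x, r x ≠ 0 ∧ s x ≠ 0 ∧ ∀ j, j ≠ x → ¬ (r j = r x ∧ s j = s x) := by
  obtain ⟨m, e1, e2, e3⟩ := AS_ext r s 4 h
  obtain ⟨n, g1, g2, g3⟩ := AS_ext s r 2 h'
  exact (L4 h2 hr hs m e1 e2 (n 0) (n 1) (g2 0) (g3 0) (g3 1)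
    (fun hh => absurd (g1 hh) (by decide))).2

/-- two cubes -/
lemma two_cubes_aux [IsDomain F] [Fintype F] [Fintype G] (h2 : (2 : F) ≠ 0) (cF : 11 ≤ Fintype.card F)
    (cG : 5 ≤ Fintype.card G) {r r' : Fin 8 → F} {s s' : Fin 8 → G} (hr : Aff r) (hs : Aff s)
    (hs' : Aff s') (H1 : ∀ v : F, v ≠ 0 → (∃ m, s m = 0 ∧ r m = v) ∨ (∃ m, s' m = 0 ∧ r' m = v))
    (H2 : ∀ v : G, v ≠ 0 → (∃ m, r m = 0 ∧ s m = v) ∨ (∃ m, r' m = 0 ∧ s' m = v))
    (H3 : ∀ x, r x ≠ 0 → s x ≠ 0 → (∃ j, j ≠ x ∧ r j = r x ∧ s j = s x) ∨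
      ∃ j, r' j = r x ∧ s' j = s x) (ha : 1 ≤ (AS r s).card) : False := by
  have t1 := AS_tot s r s' r' H1
  have t2 := AS_tot r s r' s' H2
  have b4 := F1 hs ha
  have b5 : 5 ≤ (AS s' r').card := by omega
  have z := F0 hs' b5
  have a0 : (AS r' s').card = 0 := by
    rw [Finset.card_eq_zero, Finset.eq_empty_iff_forall_notMem]
    intro w hw
    unfold AS at hw
    rw [Finset.mem_image] at hw
    obtain ⟨m, hm, -⟩ := hw
    simp only [Finset.mem_filter, Finset.mem_univ, true_and] at hm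
    exact hm.2 (z m)
  have b8 := AS_add s' r'
  rw [Fintype.card_fin] at b8
  obtain ⟨x, x1, x2, x3⟩ := F3 h2 hr hs (by omega) (by omega)
  rcases H3 x x1 x2 with ⟨j, j1, j2, j3⟩ | ⟨j, j1, j2⟩
  · exact x3 j j1 ⟨j2, j3⟩
  · rw [z j] at j2; exact x2 j2.symm

lemma two_cubes [IsDomain F] [Fintype F] [Fintype G] (h2 : (2 : F) ≠ 0) (cF : 11 ≤ Fintype.card F)
    (cG : 5 ≤ Fintype.card G) {r r' : Fin 8 → F} {s s' : Fin 8 → G} (hr : Aff r) (hs : Aff s)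
    (hr' : Aff r') (hs' : Aff s')
    (H1 : ∀ v : F, v ≠ 0 → (∃ m, s m = 0 ∧ r m = v) ∨ (∃ m, s' m = 0 ∧ r' m = v))
    (H2 : ∀ v : G, v ≠ 0 → (∃ m, r m = 0 ∧ s m = v) ∨ (∃ m, r' m = 0 ∧ s' m = v))
    (H3 : ∀ x, r x ≠ 0 → s x ≠ 0 → (∃ j, j ≠ x ∧ r j = r x ∧ s j = s x) ∨
      ∃ j, r' j = r x ∧ s' j = s x)
    (H3' : ∀ x, r' x ≠ 0 → s' x ≠ 0 → (∃ j, j ≠ x ∧ r' j = r' x ∧ s' j = s' x) ∨
      ∃ j, r j = r' x ∧ s j = s' x) : False := by
  have t2 := AS_tot r s r' s' H2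
  rcases Nat.eq_zero_or_pos (AS r s).card with h | h
  · exact two_cubes_aux h2 cF cG hr' hs' hs (fun v hv => (H1 v hv).symm)
      (fun v hv => (H2 v hv).symm) H3' (by omega)
  · exact two_cubes_aux h2 cF cG hr hs hs' H1 H2 H3 h

/-- one cube and four further elements -/
lemma cube_four [IsDomain F] [IsDomain G] [Fintype F] [Fintype G] (h2 : (2 : F) ≠ 0)
    (h2' : (2 : G) ≠ 0) (cF : Fintype.card F = 7)
    (cG : Fintype.card G = 5) {r : Fin 8 → F} {s : Fin 8 → G} {r' : Fin 4 → F} {s' : Fin 4 → G}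
    (hr : Aff r) (hs : Aff s)
    (H1 : ∀ v : F, v ≠ 0 → (∃ m, s m = 0 ∧ r m = v) ∨ (∃ m, s' m = 0 ∧ r' m = v))
    (H2 : ∀ v : G, v ≠ 0 → (∃ m, r m = 0 ∧ s m = v) ∨ (∃ m, r' m = 0 ∧ s' m = v))
    (H3 : ∀ x, r x ≠ 0 → s x ≠ 0 → (∃ j, j ≠ x ∧ r j = r x ∧ s j = s x) ∨
      ∃ j, r' j = r x ∧ s' j = s x) : (∀ m, s m = 0) ∧ ∀ m, r' m = 0 := by
  have t1 := AS_tot s r s' r' H1
  have t2 := AS_tot r s r' s' H2
  have t3 := AS_add r' s'
  have n1 := AS_ne r s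
  have n2 := AS_ne s r
  rw [Fintype.card_fin] at t3
  have ha : (AS r s).card = 0 := by
    by_contra hcon
    have h1 : 1 ≤ (AS r s).card := by omega
    have b4 := F1 hs h1
    have key : ∃ x, r x ≠ 0 ∧ s x ≠ 0 ∧ ∀ j, j ≠ x → ¬ (r j = r x ∧ s j = s x) := by
      rcases Nat.lt_or_ge (AS r s).card 3 with h3 | h3
      · obtain ⟨x, x1, x2, x3⟩ := F3 h2' hs hr (by omega : 4 ≤ (AS s r).card) (by omega)
        exact ⟨x, x2, x1, fun j hj hj' => x3 j hj ⟨hj'.2, hj'.1⟩⟩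
      · have := F2 hr hs h3
        exact F3 h2 hr hs (by omega) (by omega)
    have hsum : (AS r s).card + (AS s r).card ≤ 6 := by
      rcases Nat.lt_or_ge (AS r s).card 3 with h3 | h3
      · omega
      · have := F2 hr hs h3
        omega
    have hall := AS_all r' s' (by rw [Fintype.card_fin]; omega)
    obtain ⟨x, x1, x2, x3⟩ := key
    rcases H3 x x1 x2 with ⟨j, j1, j2, j3⟩ | ⟨j, j1, j2⟩
    · exact x3 j j1 ⟨j2, j3⟩
    · rcases hall j with ⟨h, -⟩ | ⟨h, -⟩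
      · rw [h] at j1; exact x1 j1.symm
      · rw [h] at j2; exact x2 j2.symm
  have hb : (AS s' r').card = 0 := by omega
  refine ⟨F0 hs (by omega : 5 ≤ (AS s r).card), ?_⟩
  have hall := AS_all r' s' (by rw [Fintype.card_fin]; omega)
  intro m
  rcases hall m with ⟨h, -⟩ | ⟨h, h'⟩
  · exact h
  · exfalso
    have := mem_AS s' r' m h h'
    rw [Finset.card_eq_zero] at hb
    rw [hb] at this
    exact absurd this (Finset.notMem_empty _)

/-- one cube and two further elements -/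
lemma cube_two [Fintype F] [Fintype G] (cF : Fintype.card F = 7)
    (cG : Fintype.card G = 5) {r : Fin 8 → F} {s : Fin 8 → G} {r' : Fin 2 → F} {s' : Fin 2 → G}
    (hr : Aff r) (hs : Aff s)
    (H1 : ∀ v : F, v ≠ 0 → (∃ m, s m = 0 ∧ r m = v) ∨ (∃ m, s' m = 0 ∧ r' m = v))
    (H2 : ∀ v : G, v ≠ 0 → (∃ m, r m = 0 ∧ s m = v) ∨ (∃ m, r' m = 0 ∧ s' m = v)) : False := by
  have t1 := AS_tot s r s' r' H1
  have t2 := AS_tot r s r' s' H2
  have t3 := AS_add r' s'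
  rw [Fintype.card_fin] at t3
  have n1 := AS_ne r s
  have b4 := F1 hs (by omega : 1 ≤ (AS r s).card)
  have := F2 hr hs (by omega)
  omega

end

end XC
end Pool.Agent.T6.H31.TC
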